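import Pool.Agent.CHV.Defs

/-! # CHV, block A1: coroots and words: first properties -/

set_option autoImplicit false

namespace Pool.Agent.CHV.A1

open Matrix

variable (D : RD)

theorem sr_apply (i : D.S) (y : Fin D.nT → ℤ) :
    D.sr i y = y - (D.rt (D.al i) ⬝ᵥ y) • D.al i := by
  exact Module.reflection_apply y (D.rt_self _ (D.al_mem i))

theorem sr_sr (i : D.S) (y : Fin D.nT → ℤ) : D.sr i (D.sr i y) = y := by
  exact Module.involutive_reflection (D.rt_self _ (D.al_mem i)) y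

theorem sr_mul_self (i : D.S) : D.sr i * D.sr i = 1 := by
  ext1 y
  exact sr_sr D i y

theorem sr_inv (i : D.S) : (D.sr i)⁻¹ = D.sr i :=
  inv_eq_of_mul_eq_one_left (sr_mul_self D i)

theorem sr_al (i : D.S) : D.sr i (D.al i) = -D.al i := by
  rw [sr_apply, D.rt_self _ (D.al_mem i), two_smul]
  abel

theorem wd_nil : D.wd [] = 1 := rfl

theorem wd_cons (i : D.S) (w : List D.S) : D.wd (i :: w) = D.sr i * D.wd w := by
  simp [RD.wd]

theorem wd_append (w w' : List D.S) : D.wd (w ++ w') = D.wd w * D.wd w' := by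
  simp [RD.wd]

theorem wd_singleton (i : D.S) : D.wd [i] = D.sr i := by
  simp [RD.wd]

theorem wd_append_apply (w w' : List D.S) (y : Fin D.nT → ℤ) :
    D.wd (w ++ w') y = D.wd w (D.wd w' y) := by
  rw [wd_append]; rfl

theorem wd_reverse (w : List D.S) : D.wd w.reverse = (D.wd w)⁻¹ := by
  induction w with
  | nil => simp [RD.wd]
  | cons i w ih =>
    rw [List.reverse_cons, wd_append, ih, wd_singleton, wd_cons, _root_.mul_inv_rev, sr_inv]

theorem refl_mem' {v w : Fin D.nT → ℤ} (hv : v ∈ D.co) (hw : w ∈ D.co) :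
    w - (D.rt v ⬝ᵥ w) • v ∈ D.co := D.refl_mem v hv w hw

theorem neg_mem {v : Fin D.nT → ℤ} (hv : v ∈ D.co) : -v ∈ D.co := by
  have h := D.refl_mem v hv v hv
  rw [D.rt_self v hv, two_smul] at h
  have e : v - (v + v) = -v := by abel
  rwa [e] at h

theorem sr_mem (i : D.S) {v : Fin D.nT → ℤ} (hv : v ∈ D.co) : D.sr i v ∈ D.co := by
  rw [sr_apply]
  exact D.refl_mem _ (D.al_mem i) v hv

theorem wd_mem (w : List D.S) {v : Fin D.nT → ℤ} (hv : v ∈ D.co) : D.wd w v ∈ D.co := by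
  induction w with
  | nil => exact hv
  | cons i w ih =>
    rw [wd_cons]
    exact sr_mem D i ih

theorem rt_sr (i : D.S) {v : Fin D.nT → ℤ} (hv : v ∈ D.co) (y : Fin D.nT → ℤ) :
    D.rt (D.sr i v) ⬝ᵥ D.sr i y = D.rt v ⬝ᵥ y := by
  rw [sr_apply, sr_apply, D.rt_refl _ (D.al_mem i) v hv]
  simp only [sub_dotProduct, dotProduct_sub, smul_dotProduct, dotProduct_smul, smul_eq_mul,
    D.rt_self _ (D.al_mem i)]
  ring

theorem rt_wd (w : List D.S) {v : Fin D.nT → ℤ} (hv : v ∈ D.co) (y : Fin D.nT → ℤ) :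
    D.rt (D.wd w v) ⬝ᵥ D.wd w y = D.rt v ⬝ᵥ y := by
  induction w with
  | nil => rfl
  | cons i w ih =>
    rw [wd_cons]
    exact (rt_sr D i (wd_mem D w hv) _).trans ih

theorem conj_sr (w : List D.S) (i j : D.S) (h : D.wd w (D.al i) = D.al j) :
    D.wd w * D.sr i = D.sr j * D.wd w := by
  ext1 y
  show D.wd w (D.sr i y) = D.sr j (D.wd w y)
  rw [sr_apply, sr_apply, map_sub, map_smul, h, ← h, rt_wd D w (D.al_mem i)]

theorem not_pos_iff (w : List D.S) (i : D.S) :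
    ¬ D.Pos w i ↔ D.ht ⬝ᵥ D.wd w (D.al i) < 0 := by
  have h := D.ht_ne _ (wd_mem D w (D.al_mem i))
  unfold RD.Pos
  omega

theorem sr_pos (i : D.S) {v : Fin D.nT → ℤ} (hv : v ∈ D.co) (h : 0 < D.ht ⬝ᵥ v)
    (hi : v ≠ D.al i) : 0 < D.ht ⬝ᵥ D.sr i v := by
  rw [sr_apply]
  exact D.al_refl i v hv h hi

theorem sr_neg (i : D.S) {v : Fin D.nT → ℤ} (hv : v ∈ D.co) (h : D.ht ⬝ᵥ v < 0)
    (hi : v ≠ -D.al i) : D.ht ⬝ᵥ D.sr i v < 0 := by
  have h1 := sr_pos D i (neg_mem D hv) (by rw [dotProduct_neg]; omega)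
    (fun h' => hi (by rw [← h', neg_neg]))
  rw [map_neg, dotProduct_neg] at h1
  omega

theorem pos_nil (i : D.S) : D.Pos [] i := D.al_pos i

theorem pos_append_self (w : List D.S) (i : D.S) : D.Pos (w ++ [i]) i ↔ ¬ D.Pos w i := by
  rw [not_pos_iff]
  unfold RD.Pos
  rw [wd_append_apply, wd_singleton, sr_al, map_neg, dotProduct_neg]
  omega

theorem red_nil : D.Red [] := by
  intro w₁ w₂ i h
  simp at h

theorem Red.initSeg {D : RD} {w w' : List D.S} (h : D.Red (w ++ w')) : D.Red w := by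
  intro w₁ w₂ i h'
  exact h w₁ (w₂ ++ w') i (by rw [h']; simp)

theorem red_concat (w : List D.S) (i : D.S) : D.Red (w ++ [i]) ↔ D.Red w ∧ D.Pos w i := by
  constructor
  · intro h
    exact ⟨Red.initSeg h, h w [] i (by simp)⟩
  · rintro ⟨h1, h2⟩ w₁ w₂ j h
    rcases List.eq_nil_or_concat w₂ with h3 | ⟨w₃, k, h3⟩
    · subst h3
      have := List.append_inj' h rfl
      obtain ⟨h4, h5⟩ := this
      simp only [List.cons.injEq, and_true] at h5
      rw [← h4, ← h5]
      exact h2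
    · subst h3
      have e : w₁ ++ j :: (w₃ ++ [k]) = (w₁ ++ j :: w₃) ++ [k] := by simp
      rw [List.concat_eq_append, e] at h
      have := List.append_inj' h rfl
      exact h1 w₁ w₃ j this.1

end Pool.Agent.CHV.A1
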