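import Pool.Agent.CHV.A1

/-! # CHV, row A2: exchange, existence of reduced words -/

set_option autoImplicit false

namespace Pool.Agent.CHV.A2

open Matrix

variable (D : RD)

/-- [CHV-A2] Exchange. Proof: induction on `w` (with `List.cons`). `w = []`: `Pos [] i` holds
(`A1.pos_nil`), contradiction. `w = j :: w₁`: if `¬ Pos w₁ i`, take `j :: w₁'` with `w₁'` from the
induction hypothesis. If `Pos w₁ i`: `v = wd w₁ (al i)` is a positive coroot (`A1.wd_mem`) and
`sr j v` is not positive (`wd (j :: w₁) = sr j * wd w₁`), so `v = al j` by `A1.sr_pos`; then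
`wd w₁ * sr i = sr j * wd w₁` (`A1.conj_sr`), hence
`wd (j :: w₁) * sr i = sr j * (sr j * wd w₁) = wd w₁`: take `w' = w₁`. -/
theorem exch (w : List D.S) (i : D.S) (h : ¬ D.Pos w i) :
    ∃ w' : List D.S, w'.length + 1 = w.length ∧ D.wd w' = D.wd w * D.sr i := by
  induction w generalizing i with
  | nil => exact absurd (A1.pos_nil D i) h
  | cons j w₁ ih =>
    by_cases h1 : D.Pos w₁ i
    · refine ⟨w₁, rfl, ?_⟩
      have hv : D.wd w₁ (D.al i) ∈ D.co := A1.wd_mem D w₁ (D.al_mem i)
      have hj : D.wd w₁ (D.al i) = D.al j := by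
        by_contra hne
        apply h
        have h2 := A1.sr_pos D j hv h1 hne
        unfold RD.Pos
        rw [A1.wd_cons]
        exact h2
      rw [A1.wd_cons, mul_assoc, A1.conj_sr D w₁ i j hj, ← mul_assoc, A1.sr_mul_self, one_mul]
    · obtain ⟨w', hw1, hw2⟩ := ih i h1
      refine ⟨j :: w', by simp only [List.length_cons]; omega, ?_⟩
      rw [A1.wd_cons, A1.wd_cons, hw2, mul_assoc]

/-- [CHV-A2] A word of minimal length is reduced. Proof: otherwise `w = w₁ ++ i :: w₂` with
`¬ Pos w₁ i`; `exch` gives `w₁'` with `wd w₁' = wd w₁ * sr i`, and then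
`wd (w₁' ++ w₂) = wd w` has length `w.length - 2`. -/
theorem red_of_min (w : List D.S) (h : ∀ w', D.wd w' = D.wd w → w.length ≤ w'.length) :
    D.Red w := by
  intro w₁ w₂ i hw
  by_contra hp
  obtain ⟨w₁', h1, h2⟩ := exch D w₁ i hp
  have h3 := h (w₁' ++ w₂) (by rw [hw, A1.wd_append, A1.wd_append, A1.wd_cons, h2, mul_assoc])
  rw [hw] at h3
  simp only [List.length_append, List.length_cons] at h3
  omega

/-- [CHV-A2] Proof: choose a word with the same action and of minimal length (`Nat.find` or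
`WellFounded.min`). -/
theorem exists_red (w : List D.S) : ∃ w' : List D.S, D.Red w' ∧ D.wd w' = D.wd w := by
  classical
  have hex : ∃ n : ℕ, ∃ w' : List D.S, w'.length = n ∧ D.wd w' = D.wd w := ⟨_, w, rfl, rfl⟩
  obtain ⟨w', h1, h2⟩ := Nat.find_spec hex
  refine ⟨w', red_of_min D w' ?_, h2⟩
  intro w'' h3
  rw [h1]
  exact Nat.find_min' hex ⟨w'', rfl, h3.trans h2⟩

end Pool.Agent.CHV.A2
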