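import Pool.Agent.CHV.A2

/-! # CHV, row A3: reduced words have minimal length; reversal -/

set_option autoImplicit false

namespace Pool.Agent.CHV.A3

open Matrix

variable (D : RD)

/-- The positive coroots made negative by `x⁻¹`. -/
def Inv (x : (Fin D.nT → ℤ) ≃ₗ[ℤ] (Fin D.nT → ℤ)) : Set (Fin D.nT → ℤ) :=
  {v | v ∈ D.co ∧ 0 < D.ht ⬝ᵥ v ∧ D.ht ⬝ᵥ x⁻¹ v < 0}

/-- [CHV-A3] Proof: subset of the finite set `co`. -/
theorem inv_fin (x : (Fin D.nT → ℤ) ≃ₗ[ℤ] (Fin D.nT → ℤ)) : (Inv D x).Finite :=
  D.co_fin.subset fun _ h => h.1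

/-- [CHV-A3] Proof: let `x = wd w`, `β = x (al i)`, a positive coroot. For a positive coroot `v`,
`(x * sr i)⁻¹ v = sr i (x⁻¹ v)`, and `u = x⁻¹ v` is a coroot (`x⁻¹ = wd w.reverse`). By
`A1.sr_pos`, `A1.sr_neg`, the signs of `u` and `sr i u` differ only if `u = al i` or `u = - al i`,
i.e. `v = β` or `v = -β`; the latter is not positive. So
`Inv (x * sr i) = insert β (Inv x)`, with `β ∉ Inv x` because `x⁻¹ β = al i` is positive. -/
theorem inv_up (w : List D.S) (i : D.S) (h : D.Pos w i) :
    (Inv D (D.wd (w ++ [i]))).ncard = (Inv D (D.wd w)).ncard + 1 := by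
  have hβ : D.wd w (D.al i) ∈ D.co := A1.wd_mem D w (D.al_mem i)
  have hx : ∀ v, (D.wd w)⁻¹ v = D.wd w.reverse v := by
    intro v
    rw [A1.wd_reverse]
  have hmem : ∀ v ∈ D.co, (D.wd w)⁻¹ v ∈ D.co := by
    intro v hv
    rw [hx]
    exact A1.wd_mem D _ hv
  have hinv : ∀ v, (D.wd (w ++ [i]))⁻¹ v = D.sr i ((D.wd w)⁻¹ v) := by
    intro v
    rw [A1.wd_append, A1.wd_singleton, _root_.mul_inv_rev, A1.sr_inv]
    rfl
  have hxx : ∀ v, D.wd w ((D.wd w)⁻¹ v) = v := by
    intro v
    have h1 : (D.wd w * (D.wd w)⁻¹) v = v := by rw [mul_inv_cancel]; rfl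
    exact h1
  have hxx' : ∀ v, (D.wd w)⁻¹ (D.wd w v) = v := by
    intro v
    have h1 : ((D.wd w)⁻¹ * D.wd w) v = v := by rw [inv_mul_cancel]; rfl
    exact h1
  have hset : Inv D (D.wd (w ++ [i])) = insert (D.wd w (D.al i)) (Inv D (D.wd w)) := by
    ext v
    simp only [Inv, Set.mem_ofPred_eq, Set.mem_insert_iff, hinv]
    constructor
    · rintro ⟨hv, hpos, hneg⟩
      by_cases hv1 : (D.wd w)⁻¹ v = D.al i
      · left
        rw [← hv1, hxx]
      · right
        refine ⟨hv, hpos, ?_⟩
        by_contra hcon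
        have hne := D.ht_ne _ (hmem v hv)
        have h1 := A1.sr_pos D i (hmem v hv) (by omega) hv1
        omega
    · rintro (hv | ⟨hv, hpos, hneg⟩)
      · subst hv
        refine ⟨hβ, h, ?_⟩
        rw [hxx', A1.sr_al, dotProduct_neg]
        have := D.al_pos i
        omega
      · refine ⟨hv, hpos, ?_⟩
        refine A1.sr_neg D i (hmem v hv) hneg ?_
        intro hv1
        have h1 : v = -D.wd w (D.al i) := by
          rw [← map_neg, ← hv1, hxx]
        have h2 : 0 < D.ht ⬝ᵥ D.wd w (D.al i) := h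
        rw [h1, dotProduct_neg] at hpos
        omega
  rw [hset, Set.ncard_insert_of_notMem ?_ (inv_fin D _)]
  rintro ⟨-, -, h3⟩
  rw [hxx'] at h3
  have := D.al_pos i
  omega

/-- [CHV-A3] Proof: apply `inv_up` to `w ++ [i]` (`A1.pos_append_self`) and
`wd (w ++ [i] ++ [i]) = wd w`. -/
theorem inv_down (w : List D.S) (i : D.S) (h : ¬ D.Pos w i) :
    (Inv D (D.wd (w ++ [i]))).ncard + 1 = (Inv D (D.wd w)).ncard := by
  have h1 := inv_up D (w ++ [i]) i ((A1.pos_append_self D w i).2 h)
  have h2 : D.wd (w ++ [i] ++ [i]) = D.wd w := by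
    rw [A1.wd_append, A1.wd_append, A1.wd_singleton, mul_assoc, A1.sr_mul_self, mul_one]
  rw [h2] at h1
  exact h1.symm

/-- [CHV-A3] Proof: induction on `w` from the right (`List.reverseRecOn`), with `inv_up` and
`inv_down`; `Inv 1 = ∅`. -/
theorem inv_le (w : List D.S) : (Inv D (D.wd w)).ncard ≤ w.length := by
  induction w using List.reverseRecOn with
  | nil =>
    have h1 : Inv D (D.wd []) = ∅ := by
      ext v
      simp only [Inv, Set.mem_ofPred_eq, Set.mem_empty_iff_false, iff_false, not_and]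
      intro _ h2 h3
      have h4 : (D.wd ([] : List D.S))⁻¹ v = v := by
        rw [A1.wd_nil, inv_one]
        rfl
      rw [h4] at h3
      omega
    rw [h1, Set.ncard_empty]
    exact Nat.zero_le _
  | append_singleton w i ih =>
    rw [List.length_append, List.length_singleton]
    by_cases h : D.Pos w i
    · have := inv_up D w i h
      omega
    · have := inv_down D w i h
      omega

/-- [CHV-A3] Proof: induction on `w` from the right, with `A1.red_concat` and `inv_up`. -/
theorem inv_eq {w : List D.S} (h : D.Red w) : (Inv D (D.wd w)).ncard = w.length := by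
  induction w using List.reverseRecOn with
  | nil =>
    have h1 := inv_le D []
    rw [List.length_nil] at h1 ⊢
    omega
  | append_singleton w i ih =>
    rw [A1.red_concat] at h
    rw [List.length_append, List.length_singleton, inv_up D w i h.2, ih h.1]

/-- [CHV-A3] Proof: `w.length = ncard (Inv (wd w)) ≤ w'.length`. -/
theorem min_of_red {w : List D.S} (h : D.Red w) (w' : List D.S) (h' : D.wd w' = D.wd w) :
    w.length ≤ w'.length := by
  rw [← inv_eq D h, ← h']
  exact inv_le D w'

/-- [CHV-A3] Proof: `A2.red_of_min`: if `wd w' = wd w.reverse = (wd w)⁻¹` then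
`wd w'.reverse = wd w`, so `w.length ≤ w'.reverse.length` by `min_of_red`. -/
theorem red_reverse {w : List D.S} (h : D.Red w) : D.Red w.reverse := by
  refine A2.red_of_min D _ ?_
  intro w' h'
  rw [List.length_reverse]
  have h1 : D.wd w'.reverse = D.wd w := by
    rw [A1.wd_reverse, h', A1.wd_reverse, inv_inv]
  have h2 := min_of_red D h _ h1
  rwa [List.length_reverse] at h2

/-- [CHV-A3] Proof: `w'.reverse` is a prefix of the reduced word `(w ++ w').reverse`
(`A1.Red.initSeg`). -/
theorem red_suffix {w w' : List D.S} (h : D.Red (w ++ w')) : D.Red w' := by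
  have h1 := red_reverse D h
  rw [List.reverse_append] at h1
  have h2 := red_reverse D (A1.Red.initSeg h1)
  rwa [List.reverse_reverse] at h2

/-- [CHV-A3] Proof: `inv_eq` and `Inv (wd w) ⊆ co`. -/
theorem length_le {w : List D.S} (h : D.Red w) : w.length ≤ D.co.ncard := by
  rw [← inv_eq D h]
  exact Set.ncard_le_ncard (fun _ h => h.1) D.co_fin

end Pool.Agent.CHV.A3
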