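import Pool.Agent.CHV.A3

/-! # CHV, row A4: extension to the longest element; bounds -/

set_option autoImplicit false

namespace Pool.Agent.CHV.A4

open Matrix

variable (D : RD)

/-- [CHV-A4] Proof: let `v` be a positive coroot. By `D.cone`, `v` is a sum of simple coroots.
Show by `AddSubmonoid.closure_induction` that for `v` in the closure, `ht (wd w v) ≤ 0`, and
`ht (wd w v) = 0 → v = 0` (for `al i` use `A1.not_pos_iff`). As `ht v > 0`, `v ≠ 0`. -/
theorem full_of {w : List D.S} (h : ∀ i, ¬ D.Pos w i) : D.Full w := by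
  intro v hv hpos
  have key : ∀ v ∈ AddSubmonoid.closure (Set.range D.al),
      D.ht ⬝ᵥ D.wd w v ≤ 0 ∧ (D.ht ⬝ᵥ D.wd w v = 0 → v = 0) := by
    intro v hv
    induction hv using AddSubmonoid.closure_induction with
    | mem v hv =>
      obtain ⟨i, rfl⟩ := hv
      have h1 := (A1.not_pos_iff D w i).1 (h i)
      exact ⟨h1.le, fun h2 => absurd h2 h1.ne⟩
    | zero =>
      rw [map_zero, dotProduct_zero]
      exact ⟨le_refl _, fun _ => rfl⟩
    | add x y _ _ hx hy =>
      rw [map_add, dotProduct_add]
      refine ⟨by omega, fun h1 => ?_⟩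
      rw [hx.2 (by omega), hy.2 (by omega), add_zero]
  obtain ⟨h1, h2⟩ := key v (D.cone v hv hpos)
  refine lt_of_le_of_ne h1 fun h3 => ?_
  rw [h2 h3, dotProduct_zero] at hpos
  exact lt_irrefl _ hpos

/-- [CHV-A4] Proof: by strong induction on `co.ncard - w.length` (`A3.length_le`): if `Pos w i` for
some `i`, then `w ++ [i]` is reduced (`A1.red_concat`) and we use the induction hypothesis; if not,
`w' = []` works by `full_of`. -/
theorem exists_full {w : List D.S} (h : D.Red w) :
    ∃ w' : List D.S, D.Red (w ++ w') ∧ D.Full (w ++ w') := by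
  obtain ⟨n, hn⟩ : ∃ n, n = D.co.ncard - w.length := ⟨_, rfl⟩
  induction n using Nat.strong_induction_on generalizing w with
  | _ n ih =>
    by_cases hp : ∃ i, D.Pos w i
    · obtain ⟨i, hi⟩ := hp
      have h1 : D.Red (w ++ [i]) := (A1.red_concat D w i).2 ⟨h, hi⟩
      have h2 := A3.length_le D h1
      rw [List.length_append, List.length_singleton] at h2
      obtain ⟨w', h3, h4⟩ := ih _ (by rw [List.length_append, List.length_singleton]; omega) h1 rfl
      refine ⟨[i] ++ w', ?_, ?_⟩
      · rw [← List.append_assoc]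
        exact h3
      · rw [← List.append_assoc]
        exact h4
    · push Not at hp
      refine ⟨[], ?_, ?_⟩
      · rw [List.append_nil]
        exact h
      · rw [List.append_nil]
        exact full_of D hp

/-- [CHV-A4] Proof: the set of the `wd w`, `w` reduced, is finite: it is contained in the image of
the finite set of the lists of length at most `co.ncard` (`List.finite_length_le`, with
`D.S_fin`). So the set of the integers `|v j|` (`v ∈ co`) and
`|(wd w (Pi.single l 1) - Pi.single l 1) j|` (`w` reduced) is finite, hence bounded. -/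
theorem exists_bound : ∃ b : ℕ, (∀ v ∈ D.co, ∀ j, |v j| ≤ b) ∧
    ∀ w : List D.S, D.Red w → ∀ l j : Fin D.nT,
      |(D.wd w (Pi.single l 1) - Pi.single l 1 : Fin D.nT → ℤ) j| ≤ b := by
  have hS := D.S_fin
  have hF : {l : List D.S | l.length ≤ D.co.ncard}.Finite := List.finite_length_le D.S _
  have h1 : (⋃ j : Fin D.nT, (fun v : Fin D.nT → ℤ => |v j|) '' D.co).Finite :=
    Set.finite_iUnion fun j => D.co_fin.image _
  have h2 : (⋃ p : Fin D.nT × Fin D.nT, (fun w : List D.S =>
      |(D.wd w (Pi.single p.1 1) - Pi.single p.1 1 : Fin D.nT → ℤ) p.2|) ''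
        {l : List D.S | l.length ≤ D.co.ncard}).Finite :=
    Set.finite_iUnion fun p => hF.image _
  obtain ⟨b, hb⟩ := (h1.union h2).bddAbove
  refine ⟨b.toNat, ?_, ?_⟩
  · intro v hv j
    refine le_trans (hb (Or.inl ?_)) (Int.self_le_toNat b)
    exact Set.mem_iUnion.2 ⟨j, v, hv, rfl⟩
  · intro w hw l j
    refine le_trans (hb (Or.inr ?_)) (Int.self_le_toNat b)
    exact Set.mem_iUnion.2 ⟨(l, j), w, A3.length_le D hw, rfl⟩

end Pool.Agent.CHV.A4
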