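import Pool.Agent.CHV.A1

/-! # CHV, block B1: pinned groups: first properties -/

set_option autoImplicit false

namespace Pool.Agent.CHV

open Matrix

/-- Change of rings. -/
noncomputable abbrev mp {m : ℕ} {R R' : Type} [CommRing R] [CommRing R'] (f : R →+* R') :
    GL (Fin m) R →* GL (Fin m) R' := Matrix.GeneralLinearGroup.map f

/-- The sign of a word of the neutral element: `dot w = h (eps w)`. -/
noncomputable def PG.eps (P : PG) (w : List P.S) : Fin P.nT → ℤˣ := by
  classical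
  exact if h : P.wd w = 1 then (P.wd_one w h).choose else 1

/-- The sign of a word, over the ring `R`. -/
noncomputable def PG.sg (P : PG) (R : Type) [CommRing R] (w : List P.S) : Fin P.nT → Rˣ :=
  tmap (Int.castRingHom R) (P.eps w)

namespace B1

variable (P : PG) {R R' : Type} [CommRing R] [CommRing R'] (f : R →+* R')

theorem mp_apply {m : ℕ} (g : GL (Fin m) R) (i j : Fin m) : (mp f g).1 i j = f (g.1 i j) := rfl

theorem mp_id {m : ℕ} (g : GL (Fin m) R) : mp (RingHom.id R) g = g := by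
  ext i j; rfl

theorem mp_mp {m : ℕ} {R'' : Type} [CommRing R''] (f' : R' →+* R'') (g : GL (Fin m) R) :
    mp f' (mp f g) = mp (f'.comp f) g := by
  ext i j; rfl

theorem closed_map {m : ℕ} {V : ∀ (R : Type) [CommRing R], Subgroup (GL (Fin m) R)}
    (hV : ∃ I : Set (MvPolynomial (Fin m × Fin m) ℤ), ∀ (R : Type) [CommRing R]
      (g : GL (Fin m) R), g ∈ V R ↔ ∀ p ∈ I, MvPolynomial.aeval (fun y => g.1 y.1 y.2) p = 0)
    {g : GL (Fin m) R} (hg : g ∈ V R) : mp f g ∈ V R' := by
  obtain ⟨I, hI⟩ := hV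
  rw [hI] at hg ⊢
  intro p hp
  have h1 := congrArg f (hg p hp)
  rw [map_zero] at h1
  rw [← h1]
  rw [MvPolynomial.aeval_def, MvPolynomial.aeval_def, MvPolynomial.hom_eval₂]
  congr 1
  exact RingHom.ext_int _ _

theorem G_map {g : GL (Fin P.m) R} (hg : g ∈ P.G R) : mp f g ∈ P.G R' :=
  closed_map f P.G_closed hg

theorem U_map {g : GL (Fin P.m) R} (hg : g ∈ P.U R) : mp f g ∈ P.U R' :=
  closed_map f P.U_closed hg

theorem tmap_id {n : ℕ} (z : Fin n → Rˣ) : tmap (RingHom.id R) z = z := by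
  funext j; ext; rfl

theorem tmap_tmap {n : ℕ} {R'' : Type} [CommRing R''] (f' : R' →+* R'') (z : Fin n → Rˣ) :
    tmap f' (tmap f z) = tmap (f'.comp f) z := by
  funext j; ext; rfl

theorem tmap_mul {n : ℕ} (z z' : Fin n → Rˣ) : tmap f (z * z') = tmap f z * tmap f z' := by
  funext j
  exact map_mul (Units.map (f : R →* R')) _ _

theorem tmap_one {n : ℕ} : tmap f (1 : Fin n → Rˣ) = 1 := by
  funext j
  exact map_one (Units.map (f : R →* R'))

theorem tmap_inv {n : ℕ} (z : Fin n → Rˣ) : tmap f z⁻¹ = (tmap f z)⁻¹ := by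
  funext j
  exact map_inv (Units.map (f : R →* R')) _

theorem tmap_cochar {n : ℕ} (y : Fin n → ℤ) (c : Rˣ) :
    tmap f (cochar y c) = cochar y (Units.map (f : R →* R') c) := by
  funext j
  exact map_zpow (Units.map (f : R →* R')) _ _

theorem tmap_tact {n : ℕ} (A : (Fin n → ℤ) ≃ₗ[ℤ] (Fin n → ℤ)) (z : Fin n → Rˣ) :
    tmap f (tact A z) = tact A (tmap f z) := by
  funext j
  show Units.map (f : R →* R') (∏ k, z k ^ A (Pi.single k 1) j) = _
  rw [map_prod]
  refine Finset.prod_congr rfl fun k _ => ?_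
  exact map_zpow (Units.map (f : R →* R')) _ _

theorem tact_one {n : ℕ} (z : Fin n → Rˣ) :
    tact (1 : (Fin n → ℤ) ≃ₗ[ℤ] (Fin n → ℤ)) z = z := by
  funext j
  show ∏ k, z k ^ (Pi.single k 1 : Fin n → ℤ) j = z j
  rw [Finset.prod_eq_single j]
  · rw [Pi.single_eq_same, zpow_one]
  · intro k _ hk
    rw [Pi.single_eq_of_ne (Ne.symm hk), zpow_zero]
  · intro h
    exact absurd (Finset.mem_univ j) h

theorem zpow_sum' {M ι : Type} [CommGroup M] (c : M) (s : Finset ι) (k : ι → ℤ) :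
    c ^ (∑ i ∈ s, k i) = ∏ i ∈ s, c ^ k i := by
  classical
  induction s using Finset.induction_on with
  | empty => simp
  | insert i s hi ih => rw [Finset.sum_insert hi, Finset.prod_insert hi, _root_.zpow_add, ih]

theorem tact_cochar {n : ℕ} (A : (Fin n → ℤ) ≃ₗ[ℤ] (Fin n → ℤ)) (y : Fin n → ℤ) (c : Rˣ) :
    tact A (cochar y c) = cochar (A y) c := by
  funext j
  show ∏ k, (c ^ y k) ^ A (Pi.single k 1) j = c ^ A y j
  have h : A y = ∑ k, y k • A (Pi.single k 1) := by
    conv_lhs => rw [pi_eq_sum_univ' y]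
    rw [map_sum]
    refine Finset.sum_congr rfl fun k _ => ?_
    rw [map_smul]
  rw [h, Finset.sum_apply, zpow_sum']
  refine Finset.prod_congr rfl fun k _ => ?_
  rw [← _root_.zpow_mul]
  rfl

theorem tact_mul {n : ℕ} (A B : (Fin n → ℤ) ≃ₗ[ℤ] (Fin n → ℤ)) (z : Fin n → Rˣ) :
    tact (A * B) z = tact A (tact B z) := by
  funext j
  show ∏ k, z k ^ A (B (Pi.single k 1)) j =
    ∏ l, (∏ k, z k ^ B (Pi.single k 1) l) ^ A (Pi.single l 1) j
  have h : ∀ k, A (B (Pi.single k 1)) j = ∑ l, B (Pi.single k 1) l * A (Pi.single l 1) j := by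
    intro k
    conv_lhs => rw [pi_eq_sum_univ' (B (Pi.single k 1))]
    rw [map_sum, Finset.sum_apply]
    refine Finset.sum_congr rfl fun l _ => ?_
    rw [map_smul]
    rfl
  simp only [h, zpow_sum', ← Finset.prod_zpow, _root_.zpow_mul]
  rw [Finset.prod_comm]

theorem tact_mul_right {n : ℕ} (A : (Fin n → ℤ) ≃ₗ[ℤ] (Fin n → ℤ)) (z z' : Fin n → Rˣ) :
    tact A (z * z') = tact A z * tact A z' := by
  funext j
  show ∏ k, (z k * z' k) ^ A (Pi.single k 1) j = (∏ k, z k ^ A (Pi.single k 1) j) *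
    ∏ k, z' k ^ A (Pi.single k 1) j
  rw [← Finset.prod_mul_distrib]
  refine Finset.prod_congr rfl fun k _ => ?_
  rw [mul_zpow]

theorem tact_eq_prod {n : ℕ} (A : (Fin n → ℤ) ≃ₗ[ℤ] (Fin n → ℤ)) (z : Fin n → Rˣ) :
    tact A z = ∏ k, cochar (A (Pi.single k 1)) (z k) := by
  funext j
  rw [Finset.prod_apply]
  rfl

theorem sd_map (i : P.S) : mp f (P.sd R i) = P.sd R' i := by
  show mp f (mp (Int.castRingHom R) (P.s i)) = mp (Int.castRingHom R') (P.s i)
  rw [mp_mp, show f.comp (Int.castRingHom R) = Int.castRingHom R' from RingHom.ext_int _ _]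

theorem dot_nil : P.dot R [] = 1 := rfl

theorem dot_cons (i : P.S) (w : List P.S) : P.dot R (i :: w) = P.sd R i * P.dot R w := by
  simp [PG0.dot]

theorem dot_append (w w' : List P.S) : P.dot R (w ++ w') = P.dot R w * P.dot R w' := by
  simp [PG0.dot]

theorem dot_singleton (i : P.S) : P.dot R [i] = P.sd R i := by
  simp [PG0.dot]

theorem dot_map (w : List P.S) : mp f (P.dot R w) = P.dot R' w := by
  induction w with
  | nil => exact map_one _
  | cons i w ih => rw [dot_cons, dot_cons, map_mul, ih, sd_map]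

theorem sd_mem (i : P.S) : P.sd R i ∈ P.G R := G_map P (Int.castRingHom R) (P.s_mem i)

theorem dot_mem (w : List P.S) : P.dot R w ∈ P.G R := by
  induction w with
  | nil => exact one_mem _
  | cons i w ih => rw [dot_cons]; exact mul_mem (sd_mem P i) ih

theorem x_zero (i : P.S) : P.x R i 0 = 1 := by
  have h := P.x_add R i 0 0
  rw [add_zero] at h
  exact (mul_eq_left.1 h.symm)

theorem x_neg (i : P.S) (c : R) : P.x R i (-c) = (P.x R i c)⁻¹ := by
  have h := P.x_add R i (-c) c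
  rw [neg_add_cancel, x_zero] at h
  exact eq_inv_of_mul_eq_one_left h.symm

theorem x_mem (i : P.S) (c : R) : P.x R i c ∈ P.U R := by
  have h := P.x_pos R [] i c (A1.pos_nil P.toRD i)
  rwa [dot_nil, one_mul, inv_one, mul_one] at h

theorem e_one (i : P.S) : P.e R i 1 = 0 := by
  have h := P.e_x R i 0
  rwa [x_zero] at h

theorem e_inv (i : P.S) {u : GL (Fin P.m) R} (hu : u ∈ P.U R) : P.e R i u⁻¹ = -P.e R i u := by
  have h := P.e_mul R i u⁻¹ (inv_mem hu) u hu
  rw [inv_mul_cancel, e_one] at h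
  exact eq_neg_of_add_eq_zero_left h.symm

theorem h_map' (z : Fin P.nT → Rˣ) : mp f (P.h R z) = P.h R' (tmap f z) := P.h_map R R' f z

theorem x_map' (i : P.S) (c : R) : mp f (P.x R i c) = P.x R' i (f c) := P.x_map R R' f i c

theorem h_conj_mem' (z : Fin P.nT → Rˣ) {u : GL (Fin P.m) R} (hu : u ∈ P.U R) :
    (P.h R z)⁻¹ * u * P.h R z ∈ P.U R := by
  have h := P.h_U R z⁻¹ u hu
  rwa [map_inv, inv_inv] at h

theorem sd_h (i : P.S) (z : Fin P.nT → Rˣ) :
    P.sd R i * P.h R z = P.h R (tact (P.sr i) z) * P.sd R i := by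
  rw [← P.s_h R i z]; group

/-- `dot w * h z = h (wd w z) * dot w`. -/
theorem dot_h (w : List P.S) (z : Fin P.nT → Rˣ) :
    P.dot R w * P.h R z = P.h R (tact (P.wd w) z) * P.dot R w := by
  induction w with
  | nil => rw [dot_nil, one_mul, mul_one, A1.wd_nil, tact_one]
  | cons i w ih =>
    rw [dot_cons, A1.wd_cons, tact_mul, mul_assoc, ih, ← mul_assoc, sd_h, mul_assoc]

theorem sd_sq (i : P.S) : P.sd R i * P.sd R i = P.h R (cochar (P.al i) (-1)) := by
  have h := congrArg (mp (Int.castRingHom R)) (P.s_sq i)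
  rw [map_mul, h_map', tmap_cochar] at h
  have e : Units.map ((Int.castRingHom R : ℤ →+* R) : ℤ →* R) (-1) = (-1 : Rˣ) := by
    ext; simp
  rw [e] at h
  exact h

/-- a word which acts trivially -/
theorem dot_one {w : List P.S} (hw : P.wd w = 1) : P.dot R w = P.h R (P.sg R w) := by
  have h : P.dot ℤ w = P.h ℤ (P.eps w) := by
    unfold PG.eps
    rw [dif_pos hw]
    exact (P.wd_one w hw).choose_spec
  have h1 := congrArg (mp (Int.castRingHom R)) h
  rw [dot_map, h_map'] at h1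
  exact h1

theorem sg_map (w : List P.S) : tmap f (P.sg R w) = P.sg R' w := by
  unfold PG.sg
  rw [tmap_tmap, show f.comp (Int.castRingHom R) = Int.castRingHom R' from RingHom.ext_int _ _]

/-- `(dot w)⁻¹` -/
theorem dot_inv (w : List P.S) :
    (P.dot R w)⁻¹ = P.dot R w.reverse * (P.h R (P.sg R (w ++ w.reverse)))⁻¹ := by
  have h : P.wd (w ++ w.reverse) = 1 := by
    rw [A1.wd_append, A1.wd_reverse, mul_inv_cancel]
  rw [← dot_one P h, dot_append]
  group

/-- words with the same action -/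
theorem dot_eq {w w' : List P.S} (h : P.wd w = P.wd w') :
    ∃ z : Fin P.nT → Rˣ, P.dot R w = P.dot R w' * P.h R z := by
  have h1 : P.wd (w'.reverse ++ w) = 1 := by
    rw [A1.wd_append, A1.wd_reverse, h, inv_mul_cancel]
  have h2 : P.wd (w'.reverse ++ w') = 1 := by
    rw [A1.wd_append, A1.wd_reverse, inv_mul_cancel]
  have h3 := dot_one (R := R) P h1
  have h4 := dot_one (R := R) P h2
  rw [dot_append] at h3 h4
  refine ⟨(P.sg R (w'.reverse ++ w')) ⁻¹ * P.sg R (w'.reverse ++ w), ?_⟩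
  have h5 : P.dot R w = (P.dot R w'.reverse)⁻¹ * P.h R (P.sg R (w'.reverse ++ w)) := by
    rw [← h3]; group
  have h6 : P.dot R w' = (P.dot R w'.reverse)⁻¹ * P.h R (P.sg R (w'.reverse ++ w')) := by
    rw [← h4]; group
  rw [h6, map_mul, map_inv, h5]
  group

end B1

end Pool.Agent.CHV
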