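import Pool.Agent.CHV.D2

/-! # CHV, row B2: the steps -/

set_option autoImplicit false

namespace Pool.Agent.CHV.B2

open Matrix

variable {P : PG} {R : Type} [CommRing R]

theorem b2_tail (X A B C' : GL (Fin P.m) R) (sd u' : GL (Fin P.m) R) (h : X * A * B = 1) :
    X * sd * (sd⁻¹ * (A * (B * u') * C') * sd) = u' * (C' * sd) := by
  calc X * sd * (sd⁻¹ * (A * (B * u') * C') * sd) = (X * A * B) * (u' * (C' * sd)) := by group
    _ = u' * (C' * sd) := by rw [h, one_mul]

theorem b2_x (i : P.S) (e ε : R) : P.x R i e * P.x R i (-(e - ε)) * P.x R i (-ε) = 1 := by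
  rw [← P.x_add, ← P.x_add, show e + -(e - ε) + -ε = 0 by ring, B1.x_zero]

theorem b2_sd (i : P.S) (e : Rˣ) :
    (P.sd R i)⁻¹ * P.h R (cochar (P.al i) e) = P.sd R i * P.h R (cochar (P.al i) (-e)) := by
  have h1 : cochar (P.al i) e = cochar (P.al i) (-1) * cochar (P.al i) (-e) := by
    funext j
    show e ^ P.al i j = (-1) ^ P.al i j * (-e) ^ P.al i j
    rw [← mul_zpow]
    congr 1
    rw [neg_mul_neg, one_mul]
  rw [h1, map_mul, ← B1.sd_sq]
  group

/-- [CHV-B2] Proof: by cases. `s.val * x_i(c) = u * h z * dot w * u' * x_i(c)`, and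
`u' * x_i(c) = x_i(e') * [x_i(-c) * (x_i(-e_i u') * u') * x_i(c)]` because `e' = e_i u' + c`
(`x_add`, `x_neg`). `up`: definition of `tail`. `dn`: `e' = 0`. `st`: `rank_one` for
`x_i(e') * s_i`, then `sd_i * sd_i = h (cochar (al i) (-1))` (`B1.sd_sq`),
`cochar (al i) (-1) * cochar (al i) (-e) = cochar (al i) e`,
and `dot w * h (cochar (al i) e) = h (cochar (wd w (al i)) e) * dot w` (`B1.dot_h`,
`B1.tact_cochar`). -/
theorem step_val (s : St P.toPG0 R) (i : P.S) (p : Stp R Rˣ) :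
    (s.step i p).val = s.val * (P.x R i (s.c i p) * P.sd R i) := by
  cases p with
  | up e =>
    have h1 := b2_tail (P.x R i e) (P.x R i (-s.c i (.up e))) (P.x R i (-P.e R i s.u')) (P.x R i (s.c i (.up e)))
      (P.sd R i) s.u' (b2_x i e (P.e R i s.u'))
    show s.u * (P.h R s.z * P.dot R s.w * P.x R i e * (P.h R s.z * P.dot R s.w)⁻¹) * P.h R s.z *
      P.dot R (s.w ++ [i]) * s.tail i (.up e) = s.u * P.h R s.z * P.dot R s.w * s.u' * (P.x R i (s.c i (.up e)) * P.sd R i)
    rw [B1.dot_append, B1.dot_singleton]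
    calc s.u * (P.h R s.z * P.dot R s.w * P.x R i e * (P.h R s.z * P.dot R s.w)⁻¹) * P.h R s.z *
        (P.dot R s.w * P.sd R i) * s.tail i (.up e) =
          s.u * P.h R s.z * P.dot R s.w * (P.x R i e * P.sd R i * s.tail i (.up e)) := by group
      _ = s.u * P.h R s.z * P.dot R s.w * (s.u' * (P.x R i (s.c i (.up e)) * P.sd R i)) := by
        rw [← h1]; rfl
      _ = _ := by group
  | dn =>
    have h1 := b2_tail (P.x R i 0) (P.x R i (-s.c i .dn)) (P.x R i (-P.e R i s.u')) (P.x R i (s.c i .dn))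
      (P.sd R i) s.u' (b2_x i 0 (P.e R i s.u'))
    rw [B1.x_zero, one_mul] at h1
    show s.u * P.h R s.z * P.dot R (s.w ++ [i]) * s.tail i .dn =
      s.u * P.h R s.z * P.dot R s.w * s.u' * (P.x R i (s.c i .dn) * P.sd R i)
    rw [B1.dot_append, B1.dot_singleton]
    calc s.u * P.h R s.z * (P.dot R s.w * P.sd R i) * s.tail i .dn =
          s.u * P.h R s.z * P.dot R s.w * (P.sd R i * s.tail i .dn) := by group
      _ = s.u * P.h R s.z * P.dot R s.w * (s.u' * (P.x R i (s.c i .dn) * P.sd R i)) := by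
        rw [← h1]; rfl
      _ = _ := by group
  | st e =>
    have h1 := b2_tail (P.x R i (e : R)) (P.x R i (-s.c i (.st e))) (P.x R i (-P.e R i s.u')) (P.x R i (s.c i (.st e)))
      (P.sd R i) s.u' (b2_x i (e : R) (P.e R i s.u'))
    have h2 := P.rank_one R i e
    have h3 := b2_sd (R := R) i e
    have h4 := B1.dot_h P s.w (cochar (P.al i) e)
    rw [B1.tact_cochar] at h4
    show s.u * (P.h R s.z * P.dot R (s.w ++ [i]) * P.x R i (-(e⁻¹ : Rˣ)) *
      (P.h R s.z * P.dot R (s.w ++ [i]))⁻¹) * P.h R (s.z * cochar (P.wd s.w (P.al i)) e) *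
      P.dot R s.w * (P.x R i (-(e⁻¹ : Rˣ)) * s.tail i (.st e)) =
      s.u * P.h R s.z * P.dot R s.w * s.u' * (P.x R i (s.c i (.st e)) * P.sd R i)
    rw [B1.dot_append, B1.dot_singleton, map_mul]
    calc s.u * (P.h R s.z * (P.dot R s.w * P.sd R i) * P.x R i (-(e⁻¹ : Rˣ)) *
        (P.h R s.z * (P.dot R s.w * P.sd R i))⁻¹) * (P.h R s.z * P.h R (cochar (P.wd s.w (P.al i)) e)) *
        P.dot R s.w * (P.x R i (-(e⁻¹ : Rˣ)) * s.tail i (.st e)) =
        s.u * P.h R s.z * P.dot R s.w * P.sd R i * P.x R i (-(e⁻¹ : Rˣ)) * (P.sd R i)⁻¹ *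
          ((P.dot R s.w)⁻¹ * (P.h R (cochar (P.wd s.w (P.al i)) e) * P.dot R s.w)) *
          P.x R i (-(e⁻¹ : Rˣ)) * s.tail i (.st e) := by group
      _ = s.u * P.h R s.z * P.dot R s.w * P.sd R i * P.x R i (-(e⁻¹ : Rˣ)) *
          ((P.sd R i)⁻¹ * P.h R (cochar (P.al i) e)) *
          P.x R i (-(e⁻¹ : Rˣ)) * s.tail i (.st e) := by rw [← h4]; group
      _ = s.u * P.h R s.z * P.dot R s.w * (P.sd R i * P.x R i (-(e⁻¹ : Rˣ)) *
          P.sd R i * P.h R (cochar (P.al i) (-e)) *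
          P.x R i (-(e⁻¹ : Rˣ))) * s.tail i (.st e) := by rw [h3]; group
      _ = s.u * P.h R s.z * P.dot R s.w * (P.x R i e * P.sd R i * s.tail i (.st e)) := by rw [← h2]; group
      _ = s.u * P.h R s.z * P.dot R s.w * (s.u' * (P.x R i (s.c i (.st e)) * P.sd R i)) := by
        rw [← h1]; rfl
      _ = _ := by group

/-- [CHV-B2] `tail` is in `U`. Proof: `x_i(-e_i u') * u' ∈ U` has `e_i = 0` (`e_mul`, `e_x`), so its
conjugate by `x_i(c)` too (`e_mul`, `B1.x_neg`), and `s_ker`. -/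
theorem tail_mem (s : St P.toPG0 R) (i : P.S) (p : Stp R Rˣ) (hs : s.u' ∈ P.U R) :
    s.tail i p ∈ P.U R := by
  have h1 : P.x R i (-P.e R i s.u') * s.u' ∈ P.U R := mul_mem (B1.x_mem P i _) hs
  have h2 : P.e R i (P.x R i (-P.e R i s.u') * s.u') = 0 := by
    rw [P.e_mul R i _ (B1.x_mem P i _) _ hs, P.e_x]
    ring
  have h3 : P.x R i (-s.c i p) * (P.x R i (-P.e R i s.u') * s.u') ∈ P.U R := mul_mem (B1.x_mem P i _) h1
  refine P.s_ker R i _ (mul_mem h3 (B1.x_mem P i _)) ?_
  rw [P.e_mul R i _ h3 _ (B1.x_mem P i _), P.e_mul R i _ (B1.x_mem P i _) _ h1, h2, P.e_x, P.e_x]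
  ring

/-- [CHV-B2] Proof: by cases, with `tail_mem`, `x_pos`, `h_U`, `B1.x_mem`. For `st`, `Pos` holds
for the word `s.w ++ [i]` by `A1.pos_append_self`. -/
theorem step_good (s : St P.toPG0 R) (i : P.S) (p : Stp R Rˣ) (hs : s.Good)
    (h : p.Adm (D := P.toRD) s.w i) : (s.step i p).Good := by
  have ht := tail_mem s i p hs.2
  cases p with
  | up e =>
    refine ⟨mul_mem hs.1 ?_, ht⟩
    have h1 := P.h_U R s.z _ (P.x_pos R s.w i e h)
    convert h1 using 1
    group
  | dn => exact ⟨hs.1, ht⟩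
  | st e =>
    refine ⟨mul_mem hs.1 ?_, mul_mem (B1.x_mem P i _) ht⟩
    have h1 := P.h_U R s.z _ (P.x_pos R (s.w ++ [i]) i (-(e⁻¹ : Rˣ)) ((A1.pos_append_self P.toRD s.w i).2 h))
    convert h1 using 1
    group

theorem step_w (s : St P.toPG0 R) (i : P.S) (p : Stp R Rˣ) :
    (s.step i p).w = p.next (D := P.toRD) s.w i := by
  cases p <;> rfl

theorem run_append (s : St P.toPG0 R) (l l' : List (P.S × Stp R Rˣ)) :
    s.run (l ++ l') = (s.run l).run l' := by
  simp [St.run]

theorem run_w (s : St P.toPG0 R) (l : List (P.S × Stp R Rˣ)) :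
    (s.run l).w = nextw P.toRD s.w l := by
  induction l generalizing s with
  | nil => rfl
  | cons p l ih =>
    show ((s.step p.1 p.2).run l).w = _
    rw [ih, step_w]
    rfl

theorem nextw_append {D : RD} {α β : Type} (w : List D.S) (l l' : List (D.S × Stp α β)) :
    nextw D w (l ++ l') = nextw D (nextw D w l) l' := by
  simp [nextw]

theorem admL_append {D : RD} {α β : Type} (w : List D.S) (l l' : List (D.S × Stp α β)) :
    AdmL D w (l ++ l') ↔ AdmL D w l ∧ AdmL D (nextw D w l) l' := by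
  induction l generalizing w with
  | nil => simp [AdmL, nextw]
  | cons p l ih =>
    show p.2.Adm w p.1 ∧ AdmL D (p.2.next w p.1) (l ++ l') ↔
      (p.2.Adm w p.1 ∧ AdmL D (p.2.next w p.1) l) ∧ AdmL D (nextw D (p.2.next w p.1) l) l'
    rw [ih, and_assoc]

theorem run_good (s : St P.toPG0 R) (l : List (P.S × Stp R Rˣ)) (hs : s.Good)
    (h : AdmL P.toRD s.w l) : (s.run l).Good := by
  induction l generalizing s with
  | nil => exact hs
  | cons p l ih =>
    exact ih (s.step p.1 p.2) (step_good s p.1 p.2 hs h.1) (by rw [step_w]; exact h.2)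

/-- [CHV-B2] Proof: induction on `l`, with the definition of `step`, `stc` and `mon`. -/
theorem run_z (s : St P.toPG0 R) (l : List (P.S × Stp R Rˣ)) :
    (s.run l).z = s.z * mon (stc P.toRD s.w l) := by
  induction l generalizing s with
  | nil =>
    show s.z = s.z * mon []
    simp [mon]
  | cons p l ih =>
    obtain ⟨i, q⟩ := p
    show ((s.step i q).run l).z = _
    rw [ih, step_w]
    cases q with
    | up e => rfl
    | dn => rfl
    | st e =>
      show s.z * cochar (P.wd s.w (P.al i)) e * mon (stc P.toRD s.w l) =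
        s.z * mon ((P.wd s.w (P.al i), e) :: stc P.toRD s.w l)
      unfold mon
      rw [List.map_cons, List.prod_cons, mul_assoc]

/-- [CHV-B2] Proof: induction on `l`, with `step_val`. -/
theorem run_val (s : St P.toPG0 R) (l : List (P.S × Stp R Rˣ)) :
    ∃ c : List (P.S × R), wrd c = wrd l ∧ (s.run l).val = s.val * gal P.toPG0 c := by
  induction l generalizing s with
  | nil =>
    refine ⟨[], rfl, ?_⟩
    show s.val = s.val * gal P.toPG0 []
    simp [gal]
  | cons p l ih =>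
    obtain ⟨c, h1, h2⟩ := ih (s.step p.1 p.2)
    refine ⟨(p.1, s.c p.1 p.2) :: c, ?_, ?_⟩
    · show p.1 :: wrd c = p.1 :: wrd l
      rw [h1]
    · show ((s.step p.1 p.2).run l).val = _
      rw [h2, step_val]
      unfold gal
      rw [List.map_cons, List.prod_cons, mul_assoc]

end Pool.Agent.CHV.B2
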