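import Pool.Agent.CHV.D2
import Pool.Agent.CHV.A4

/-! # CHV, row B3: galleries and `U` -/

set_option autoImplicit false

namespace Pool.Agent.CHV.B3

open Matrix

variable {P : PG} {R : Type} [CommRing R]

theorem b3_gal_cons (p : P.S × R) (l : List (P.S × R)) :
    gal P.toPG0 (p :: l) = P.x R p.1 p.2 * P.sd R p.1 * gal P.toPG0 l := by
  unfold gal
  rw [List.map_cons, List.prod_cons]

/-- [CHV-B3] Proof: `gal` of a cons is `x i c * sd i * gal l`. Induction on `l`, generalizing `v`: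
`dot v * (x i c * sd i * gal l * (sd i * dot (wrd l))⁻¹) * (dot v)⁻¹ =
 (dot v * x i c * (dot v)⁻¹) * (dot (v ++ [i]) * kel l * (dot (v ++ [i]))⁻¹)`. The first factor is
in `U` by `x_pos` (`Red (v ++ i :: wrd l)` gives `Pos v i`), the second by induction
(`v ++ i :: wrd l = (v ++ [i]) ++ wrd l`). -/
theorem kel_conj_mem (v : List P.S) (l : List (P.S × R)) (h : P.Red (v ++ wrd l)) :
    P.dot R v * kel P.toPG0 l * (P.dot R v)⁻¹ ∈ P.U R := by
  induction l generalizing v with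
  | nil =>
    have h1 : kel P.toPG0 ([] : List (P.S × R)) = 1 := by
      show gal P.toPG0 [] * (P.dot R [])⁻¹ = 1
      rw [B1.dot_nil, inv_one, mul_one]
      simp [gal]
    rw [h1, mul_one, mul_inv_cancel]
    exact one_mem _
  | cons p l ih =>
    obtain ⟨i, c⟩ := p
    have hpos : P.Pos v i := h v (wrd l) i rfl
    have h2 := ih (v ++ [i]) (by rw [List.append_assoc]; exact h)
    have h3 := mul_mem (P.x_pos R v i c hpos) h2
    have h4 : kel P.toPG0 ((i, c) :: l) = P.x R i c * P.sd R i * gal P.toPG0 l *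
        (P.sd R i * P.dot R (wrd l))⁻¹ := by
      show gal P.toPG0 ((i, c) :: l) * (P.dot R (i :: wrd l))⁻¹ = _
      rw [b3_gal_cons, B1.dot_cons]
    rw [h4]
    have h5 : kel P.toPG0 l = gal P.toPG0 l * (P.dot R (wrd l))⁻¹ := rfl
    rw [h5, B1.dot_append, B1.dot_singleton] at h3
    convert h3 using 1
    group

theorem kel_mem (l : List (P.S × R)) (h : P.Red (wrd l)) : kel P.toPG0 l ∈ P.U R := by
  have h1 := kel_conj_mem [] l h
  rwa [B1.dot_nil, one_mul, inv_one, mul_one] at h1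

/-- [CHV-B3] Proof: induction on `w`. `w = i :: w'`: with `e = e_i u`, `u'' = x_i(-e) * u` has
`e_i u'' = 0`, so `u₁ = sd_i⁻¹ * u'' * sd_i ∈ U` (`s_ker`), and
`u * dot (i :: w') = x_i(e) * sd_i * (u₁ * dot w')`. -/
theorem decomp (w : List P.S) (u : GL (Fin P.m) R) (hu : u ∈ P.U R) :
    ∃ (l : List (P.S × R)) (u' : GL (Fin P.m) R), wrd l = w ∧ u' ∈ P.U R ∧
      u * P.dot R w = gal P.toPG0 l * u' := by
  induction w generalizing u with
  | nil =>
    refine ⟨[], u, rfl, hu, ?_⟩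
    rw [B1.dot_nil, mul_one]
    simp [gal]
  | cons i w' ih =>
    have h1 : P.x R i (-P.e R i u) * u ∈ P.U R := mul_mem (B1.x_mem P i _) hu
    have h2 : P.e R i (P.x R i (-P.e R i u) * u) = 0 := by
      rw [P.e_mul R i _ (B1.x_mem P i _) _ hu, P.e_x]
      ring
    obtain ⟨l, u', h3, h4, h5⟩ := ih _ (P.s_ker R i _ h1 h2)
    refine ⟨(i, P.e R i u) :: l, u', ?_, h4, ?_⟩
    · show i :: wrd l = _
      rw [h3]
    · rw [b3_gal_cons, mul_assoc _ (gal P.toPG0 l), ← h5, B1.dot_cons, B1.x_neg]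
      group

/-- [CHV-B3] Proof: `decomp` for `k` and `w₂`: `k * dot w₂ = gal l * k'`, i.e.
`k = kel l * (dot w₂ * k' * (dot w₂)⁻¹)`. Then
`dot v * k * (dot v)⁻¹ = (dot v * kel l * (dot v)⁻¹) * (dot (v ++ w₂) * k' * (dot (v ++ w₂))⁻¹)`,
so the last factor is in `U` by `kel_conj_mem`, and `k' = 1` by `opp`. -/
theorem kel_surj (v w₂ : List P.S) (h1 : P.Red (v ++ w₂)) (h2 : P.Full (v ++ w₂))
    (k : GL (Fin P.m) R) (hk : k ∈ P.U R) (hk' : P.dot R v * k * (P.dot R v)⁻¹ ∈ P.U R) :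
    ∃ l : List (P.S × R), wrd l = w₂ ∧ k = kel P.toPG0 l := by
  obtain ⟨l, k', h3, h4, h5⟩ := decomp w₂ k hk
  have h6 : k = kel P.toPG0 l * (P.dot R w₂ * k' * (P.dot R w₂)⁻¹) := by
    have h7 : kel P.toPG0 l = gal P.toPG0 l * (P.dot R w₂)⁻¹ := by rw [← h3]; rfl
    rw [h7]
    calc k = k * P.dot R w₂ * (P.dot R w₂)⁻¹ := by group
      _ = gal P.toPG0 l * k' * (P.dot R w₂)⁻¹ := by rw [h5]
      _ = _ := by group
  have h7 : P.dot R v * kel P.toPG0 l * (P.dot R v)⁻¹ ∈ P.U R := kel_conj_mem v l (by rw [h3]; exact h1)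
  have h8 : P.dot R (v ++ w₂) * k' * (P.dot R (v ++ w₂))⁻¹ ∈ P.U R := by
    have h9 := mul_mem (inv_mem h7) hk'
    rw [h6] at h9
    rw [B1.dot_append]
    convert h9 using 1
    group
  have h9 := P.opp R _ h2 k' h4 h8
  refine ⟨l, h3, ?_⟩
  rw [h6, h9, mul_one, mul_inv_cancel, mul_one]

/-- [CHV-B3] Proof: if `wd w ≠ 1` then, for a reduced `w'` with `wd w' = wd w` (`A2.exists_red`), we
have `w' ≠ []`, so `w' = w'' ++ [i]` with `Pos w'' i`, and `¬ Pos w i`
(`A1.pos_append_self`; `Pos` depends only on `wd`). Let `y = dot w * x i 1 * (dot w)⁻¹`. From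
`dot w = h z * u`: `y = h z * (u * x i 1 * u⁻¹) * (h z)⁻¹ ∈ U`. Let `w₀` be a reduced full word
(`A4.exists_full` for `[]`). `Pos (w₀ ++ w) i`: `wd w (al i)` is a negative coroot, so `wd w₀` of
it is positive. By `x_pos`, `dot w₀ * y * (dot w₀)⁻¹ ∈ U`, so `y = 1` by `opp`, hence
`x i 1 = 1`, and `1 = e_i (x i 1) = e_i 1 = 0`, contradiction. -/
theorem wd_eq_one [Nontrivial R] (w : List P.S) (z : Fin P.nT → Rˣ) (u : GL (Fin P.m) R)
    (hu : u ∈ P.U R) (h : P.dot R w = P.h R z * u) : P.wd w = 1 := by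
  by_contra hne
  obtain ⟨w', hred, hwd⟩ := A2.exists_red P.toRD w
  rcases List.eq_nil_or_concat w' with h1 | ⟨w'', i, h1⟩
  · rw [h1, A1.wd_nil] at hwd
    exact hne hwd.symm
  · rw [List.concat_eq_append] at h1
    subst h1
    have h2 : P.Pos w'' i := ((A1.red_concat P.toRD w'' i).1 hred).2
    have h3 : ¬ P.Pos (w'' ++ [i]) i := fun h4 => (A1.pos_append_self P.toRD w'' i).1 h4 h2
    have h4 : ¬ P.Pos w i := by
      unfold RD.Pos at h3 ⊢
      rw [← hwd]
      exact h3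
    have hx : P.x R i 1 ∈ P.U R := B1.x_mem P i 1
    have hy : P.dot R w * P.x R i 1 * (P.dot R w)⁻¹ ∈ P.U R := by
      have h5 := P.h_U R z _ (mul_mem (mul_mem hu hx) (inv_mem hu))
      rw [h]
      convert h5 using 1
      group
    obtain ⟨w₀, -, hfull⟩ := A4.exists_full P.toRD (w := []) (A1.red_nil P.toRD)
    rw [List.nil_append] at hfull
    have hpos : P.Pos (w₀ ++ w) i := by
      have h5 := (A1.not_pos_iff P.toRD w i).1 h4
      have h6 : P.wd w (P.al i) ∈ P.co := A1.wd_mem P.toRD w (P.al_mem i)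
      have h7 := hfull _ (A1.neg_mem P.toRD h6) (by rw [dotProduct_neg]; omega)
      rw [map_neg, dotProduct_neg] at h7
      unfold RD.Pos
      rw [A1.wd_append_apply]
      omega
    have h8 := P.x_pos R (w₀ ++ w) i 1 hpos
    have h9 := P.opp R w₀ hfull _ hy (by
      rw [B1.dot_append] at h8
      convert h8 using 1
      group)
    have h10 : P.x R i (1 : R) = 1 := by
      have h11 : P.x R i (1 : R) = (P.dot R w)⁻¹ * (P.dot R w * P.x R i 1 * (P.dot R w)⁻¹) * P.dot R w := by group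
      rw [h11, h9, mul_one, inv_mul_cancel]
    have h12 := P.e_x R i 1
    rw [h10, B1.e_one] at h12
    exact zero_ne_one h12

end Pool.Agent.CHV.B3
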