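import Pool.Agent.CHV.D2

/-! # CHV, row B4a: renaming of the parameters -/

set_option autoImplicit false

namespace Pool.Agent.CHV.B4

open Matrix

variable {P : PG} {R : Type} [CommRing R]

/-- [CHV-B4a] The word part does not depend on the parameters. -/
theorem wrd_smap {σ α β α' β' : Type} (c : α → α') (z : β → β') (l : List (σ × Stp α β)) :
    wrd (smap c z l) = wrd l := by
  simp [wrd, smap]

/-- [CHV-B4a] -/
theorem wrd_kmap {σ α α' : Type} (c : α → α') (l : List (σ × α)) : wrd (kmap c l) = wrd l := by
  simp [wrd, kmap]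

/-- [CHV-B4a] -/
theorem nextw_smap {D : RD} {α β α' β' : Type} (c : α → α') (z : β → β') (w : List D.S)
    (l : List (D.S × Stp α β)) : nextw D w (smap c z l) = nextw D w l := by
  induction l generalizing w with
  | nil => rfl
  | cons p l ih =>
    obtain ⟨i, q⟩ := p
    show nextw D ((q.map c z).next w i) (smap c z l) = nextw D (q.next w i) l
    rw [ih]
    cases q <;> rfl

/-- [CHV-B4a] -/
theorem admL_smap {D : RD} {α β α' β' : Type} (c : α → α') (z : β → β') (w : List D.S)
    (l : List (D.S × Stp α β)) : AdmL D w (smap c z l) ↔ AdmL D w l := by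
  induction l generalizing w with
  | nil => exact Iff.rfl
  | cons p l ih =>
    obtain ⟨i, q⟩ := p
    show ((q.map c z).Adm w i ∧ AdmL D ((q.map c z).next w i) (smap c z l)) ↔
      (q.Adm w i ∧ AdmL D (q.next w i) l)
    rw [ih]
    cases q <;> exact Iff.rfl

/-- [CHV-B4a] -/
theorem stc_smap {D : RD} {α β α' β' : Type} (c : α → α') (z : β → β') (w : List D.S)
    (l : List (D.S × Stp α β)) :
    stc D w (smap c z l) = (stc D w l).map fun p => (p.1, z p.2) := by
  induction l generalizing w with
  | nil => rfl
  | cons p l ih =>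
    obtain ⟨i, q⟩ := p
    cases q with
    | up e => exact ih (w ++ [i])
    | dn => exact ih (w ++ [i])
    | st e =>
      show (D.wd w (D.al i), z e) :: stc D w (smap c z l) =
        (D.wd w (D.al i), z e) :: (stc D w l).map fun p => (p.1, z p.2)
      rw [ih]

/-- [CHV-B4a] -/
theorem steps_map {D : RD} {α β α' β' : Type} (c : α → α') (z : β → β') (d : LD D α β) :
    (d.map c z).steps = smap c z d.steps := by
  cases d <;> simp [LD.map, LD.steps, smap]

/-- [CHV-B4a] -/
theorem valid_map {D : RD} {α β α' β' : Type} (c : α → α') (z : β → β') (d : LD D α β) :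
    (d.map c z).Valid ↔ d.Valid := by
  cases d <;> simp only [LD.map, LD.Valid, Pair, wrd_smap, wrd_kmap]

/-- [CHV-B4a] -/
theorem procw_map {D : RD} {α β α' β' : Type} (c : α → α') (z : β → β') (d : List (LD D α β)) :
    procw D (d.map (LD.map c z)) = procw D d := by
  induction d with
  | nil => rfl
  | cons d l ih =>
    show nextw D (procw D (l.map (LD.map c z))) (d.map c z).steps = nextw D (procw D l) d.steps
    rw [ih, steps_map, nextw_smap]

/-- [CHV-B4a] -/
theorem admD_map {D : RD} {α β α' β' : Type} (c : α → α') (z : β → β') (d : List (LD D α β)) :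
    AdmD D (d.map (LD.map c z)) ↔ AdmD D d := by
  induction d with
  | nil => exact Iff.rfl
  | cons d l ih =>
    show (AdmL D (procw D (l.map (LD.map c z))) (d.map c z).steps ∧ AdmD D (l.map (LD.map c z))) ↔
      (AdmL D (procw D l) d.steps ∧ AdmD D l)
    rw [ih, steps_map, admL_smap, procw_map]

/-- [CHV-B4a] -/
theorem ucols_map {D : RD} {α β α' β' : Type} (c : α → α') (z : β → β') (d : List (LD D α β)) :
    ucols D (d.map (LD.map c z)) = (ucols D d).map fun p => (p.1, z p.2) := by
  induction d with
  | nil => rfl
  | cons d l ih =>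
    show stc D (procw D (l.map (LD.map c z))) (d.map c z).steps ++ (d.map c z).ucol ++
      ucols D (l.map (LD.map c z)) =
      (stc D (procw D l) d.steps ++ d.ucol ++ ucols D l).map fun p => (p.1, z p.2)
    rw [ih, steps_map, procw_map, stc_smap, List.map_append, List.map_append]
    congr 2
    cases d with
    | pt j l₁ l₂ k => rfl
    | hd l₁ l₂ l₃ l₄ ka kb ta tb =>
      simp only [LD.map, LD.ucol, wrd_smap, List.map_append, List.map_ofFn]
      rfl

/-- [CHV-B4a] -/
theorem cst_map {α β α' β' : Type} (c : α → α') (z : β → β') (t : ℕ → Fin P.nT → Rˣ)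
    (d : List (LD P.toRD α β)) : Cst t (d.map (LD.map c z)) = Cst t d := by
  unfold Cst
  rw [List.map_map]
  congr 1
  refine List.map_congr_left fun d _ => ?_
  cases d <;> simp only [Function.comp_apply, LD.map, LD.cst, wrd_smap]

end Pool.Agent.CHV.B4
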