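import Pool.Agent.CHV.B2
import Pool.Agent.CHV.B4a

/-! # CHV, row B4b: change of rings -/

set_option autoImplicit false

namespace Pool.Agent.CHV.B4

open Matrix

variable {P : PG} {R R' : Type} [CommRing R] [CommRing R'] (f : R →+* R')

/-- The ring homomorphism on the units. -/
abbrev um (f : R →+* R') : Rˣ → R'ˣ := Units.map (f : R →* R')

theorem b4_ext {P0 : PG0} {R : Type} [CommRing R] {s s' : St P0 R} (h1 : s.u = s'.u)
    (h2 : s.z = s'.z) (h3 : s.w = s'.w) (h4 : s.u' = s'.u') : s = s' := by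
  cases s
  cases s'
  simp_all

theorem b4_val (p : Stp R Rˣ) : (p.map f (um f)).val = f p.val := by
  cases p with
  | up e => rfl
  | dn => exact (map_zero f).symm
  | st e => rfl

theorem b4_c (s : St P.toPG0 R) (hs : s.u' ∈ P.U R) (i : P.S) (p : Stp R Rˣ) :
    (s.map f).c i (p.map f (um f)) = f (s.c i p) := by
  show (p.map f (um f)).val - P.e R' i (mp f s.u') = f (p.val - P.e R i s.u')
  rw [b4_val, P.e_map R R' f i s.u' hs, map_sub]

theorem b4_tail (s : St P.toPG0 R) (hs : s.u' ∈ P.U R) (i : P.S) (p : Stp R Rˣ) :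
    mp f (s.tail i p) = (s.map f).tail i (p.map f (um f)) := by
  have hc := b4_c f s hs i p
  have he : P.e R' i (s.map f).u' = f (P.e R i s.u') := P.e_map R R' f i s.u' hs
  unfold St.tail
  rw [hc, he]
  simp only [map_mul, map_inv, B1.x_map', B1.sd_map, map_neg]
  rfl

/-- [CHV-B4b] Proof: by cases, unfolding `St.step`, `St.tail`, `St.c`, with `map_mul`, `map_inv`,
`B1.h_map'`, `B1.dot_map`, `B1.sd_map`, `B1.x_map'`, `P.e_map` (here `s.u' ∈ U` is used),
`B1.tmap_mul`, `B1.tmap_cochar`. -/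
theorem step_map (s : St P.toPG0 R) (hs : s.Good) (i : P.S) (p : Stp R Rˣ) :
    (s.step i p).map f = (s.map f).step i (p.map f (um f)) := by
  cases p with
  | up e =>
    apply b4_ext
    · show mp f (s.u * (P.h R s.z * P.dot R s.w * P.x R i e * (P.h R s.z * P.dot R s.w)⁻¹)) =
        mp f s.u * (P.h R' (tmap f s.z) * P.dot R' s.w * P.x R' i (f e) *
          (P.h R' (tmap f s.z) * P.dot R' s.w)⁻¹)
      simp only [map_mul, map_inv, B1.x_map', B1.h_map', B1.dot_map]
    · rfl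
    · rfl
    · exact b4_tail f s hs.2 i (.up e)
  | dn =>
    apply b4_ext
    · rfl
    · rfl
    · rfl
    · exact b4_tail f s hs.2 i .dn
  | st e =>
    have hx : f (-((e⁻¹ : Rˣ) : R)) = -(((um f e)⁻¹ : R'ˣ) : R') := by
      rw [map_neg, ← map_inv]
      rfl
    apply b4_ext
    · show mp f (s.u * (P.h R s.z * P.dot R (s.w ++ [i]) * P.x R i (-(e⁻¹ : Rˣ)) *
        (P.h R s.z * P.dot R (s.w ++ [i]))⁻¹)) =
        mp f s.u * (P.h R' (tmap f s.z) * P.dot R' (s.w ++ [i]) *
          P.x R' i (-(((um f e)⁻¹ : R'ˣ) : R')) *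
          (P.h R' (tmap f s.z) * P.dot R' (s.w ++ [i]))⁻¹)
      rw [← hx]
      simp only [map_mul, map_inv, B1.x_map', B1.h_map', B1.dot_map]
    · show tmap f (s.z * cochar (P.wd s.w (P.al i)) e) =
        tmap f s.z * cochar (P.wd s.w (P.al i)) (um f e)
      rw [B1.tmap_mul, B1.tmap_cochar]
    · rfl
    · show mp f (P.x R i (-(e⁻¹ : Rˣ)) * s.tail i (.st e)) =
        P.x R' i (-(((um f e)⁻¹ : R'ˣ) : R')) * (s.map f).tail i (.st (um f e))
      rw [← hx, map_mul, B1.x_map', b4_tail f s hs.2 i (.st e)]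
      rfl

/-- [CHV-B4b] Proof: induction on `l`, with `step_map`, `B2.step_good`, `B2.step_w`. -/
theorem run_map (s : St P.toPG0 R) (hs : s.Good) (l : List (P.S × Stp R Rˣ))
    (h : AdmL P.toRD s.w l) : (s.run l).map f = (s.map f).run (smap f (um f) l) := by
  induction l generalizing s with
  | nil => rfl
  | cons p l ih =>
    have h1 := ih (s.step p.1 p.2) (B2.step_good s p.1 p.2 hs h.1)
      (by rw [B2.step_w]; exact h.2)
    rw [step_map f s hs] at h1
    exact h1

/-- [CHV-B4b] Proof: `B1.h_map'`, `B1.dot_map`. -/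
theorem val_map (s : St P.toPG0 R) : mp f s.val = (s.map f).val := by
  show mp f (s.u * P.h R s.z * P.dot R s.w * s.u') =
    mp f s.u * P.h R' (tmap f s.z) * P.dot R' s.w * mp f s.u'
  simp only [map_mul, B1.h_map', B1.dot_map]

/-- [CHV-B4b] -/
theorem gal_map (l : List (P.S × R)) : mp f (gal P.toPG0 l) = gal P.toPG0 (kmap f l) := by
  unfold gal kmap
  rw [map_list_prod, List.map_map, List.map_map]
  congr 1
  apply List.map_congr_left
  intro p _
  show mp f (P.x R p.1 p.2 * P.sd R p.1) = P.x R' p.1 (f p.2) * P.sd R' p.1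
  rw [map_mul, B1.x_map', B1.sd_map]

/-- [CHV-B4b] -/
theorem kel_map (l : List (P.S × R)) : mp f (kel P.toPG0 l) = kel P.toPG0 (kmap f l) := by
  show mp f (gal P.toPG0 l * (P.dot R (wrd l))⁻¹) =
    gal P.toPG0 (kmap f l) * (P.dot R' (wrd (kmap f l)))⁻¹
  rw [map_mul, map_inv, gal_map, B1.dot_map, wrd_kmap]

/-- [CHV-B4b] Change of rings for the constant: `B1.sg_map`, `B1.tmap_tact`, … -/
theorem cst_tmap {α β : Type} (t : ℕ → Fin P.nT → Rˣ) (d : List (LD P.toRD α β)) :
    tmap f (Cst t d) = Cst (fun j => tmap f (t j)) d := by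
  unfold Cst
  induction d with
  | nil => exact B1.tmap_one f
  | cons d l ih =>
    rw [List.map_cons, List.prod_cons, List.map_cons, List.prod_cons, B1.tmap_mul, ih]
    congr 1
    cases d with
    | pt j l₁ l₂ k =>
      show tmap f ((P.sg R (wrd l₁ ++ wrd l₂))⁻¹ * tact (P.wd (wrd l₁)) (t j)) =
        (P.sg R' (wrd l₁ ++ wrd l₂))⁻¹ * tact (P.wd (wrd l₁)) (tmap f (t j))
      rw [B1.tmap_mul, B1.tmap_inv, B1.sg_map, B1.tmap_tact]
    | hd l₁ l₂ l₃ l₄ ka kb ta tb =>
      show tmap f ((P.sg R (wrd l₂ ++ wrd l₄))⁻¹ * (P.sg R (wrd l₁ ++ wrd l₃))⁻¹) =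
        (P.sg R' (wrd l₂ ++ wrd l₄))⁻¹ * (P.sg R' (wrd l₁ ++ wrd l₃))⁻¹
      rw [B1.tmap_mul, B1.tmap_inv, B1.tmap_inv, B1.sg_map, B1.sg_map]

/-- [CHV-B4b] -/
theorem proc_w (d : List (LD P.toRD R Rˣ)) : (proc (P := P.toPG0) d).w = procw P.toRD d := by
  induction d with
  | nil => rfl
  | cons d l ih =>
    show (St.run (proc l) d.steps).w = nextw P.toRD (procw P.toRD l) d.steps
    rw [B2.run_w, ih]

/-- [CHV-B4b] -/
theorem proc_good (d : List (LD P.toRD R Rˣ)) (h : AdmD P.toRD d) :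
    (proc (P := P.toPG0) d).Good := by
  induction d with
  | nil => exact ⟨one_mem _, one_mem _⟩
  | cons d l ih =>
    show (St.run (proc l) d.steps).Good
    exact B2.run_good _ _ (ih h.2) (by rw [proc_w]; exact h.1)

/-- [CHV-B4b] -/
theorem proc_map (d : List (LD P.toRD R Rˣ)) (h : AdmD P.toRD d) :
    (proc (P := P.toPG0) d).map f = proc (P := P.toPG0) (d.map (LD.map f (um f))) := by
  induction d with
  | nil =>
    apply b4_ext
    · exact map_one _
    · exact B1.tmap_one f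
    · rfl
    · exact map_one _
  | cons d l ih =>
    show (St.run (proc l) d.steps).map f =
      St.run (proc (l.map (LD.map f (um f)))) (d.map f (um f)).steps
    rw [run_map f _ (proc_good l h.2) _ (by rw [proc_w]; exact h.1), ih h.2, steps_map]

/-- [CHV-B4b] -/
theorem fr_map (h : GL (Fin P.m) R) (k : List (P.S × R)) (v₂ : List P.S) (t : Fin P.nT → Rˣ)
    (g : GL (Fin P.m) R) : mp f (fr (P := P.toPG0) h k v₂ t g) =
      fr (P := P.toPG0) (mp f h) (kmap f k) v₂ (tmap f t) (mp f g) := by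
  show mp f (h * kel P.toPG0 k * (P.dot R v₂)⁻¹ * P.h R t * g⁻¹) =
    mp f h * kel P.toPG0 (kmap f k) * (P.dot R' v₂)⁻¹ * P.h R' (tmap f t) * (mp f g)⁻¹
  simp only [map_mul, map_inv, B1.h_map', B1.dot_map, kel_map]

/-- [CHV-B4b] Proof: by cases on `d`; the states `s.run l₁`, … are mapped by `run_map` (the
prefixes of `d.steps` are admissible by `B2.admL_append`), `fr_map`, `wrd_smap`. -/
theorem letter_map (t : ℕ → Fin P.nT → Rˣ) (s : St P.toPG0 R) (hs : s.Good)
    (d : LD P.toRD R Rˣ) (h : AdmL P.toRD s.w d.steps) :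
    (d.letter t s).map f =
      (d.map f (um f)).letter (fun j => tmap f (t j)) (s.map f) := by
  have hsm : ∀ a b : List (P.S × Stp R Rˣ), smap f (um f) a ++ smap f (um f) b =
      smap f (um f) (a ++ b) := fun a b => (List.map_append).symm
  cases d with
  | pt j l₁ l₂ k =>
    have h1 : AdmL P.toRD s.w (l₁ ++ l₂) := h
    have h2 : AdmL P.toRD s.w l₁ := ((B2.admL_append _ _ _).1 h1).1
    show Lt.pt (mp f (fr (P := P.toPG0) (s.run (l₁ ++ l₂)).val k (wrd l₂) (t j) (s.run l₁).val)) =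
      Lt.pt (fr (P := P.toPG0) ((s.map f).run (smap f (um f) l₁ ++ smap f (um f) l₂)).val
        (kmap f k) (wrd (smap f (um f) l₂)) (tmap f (t j))
        ((s.map f).run (smap f (um f) l₁)).val)
    rw [fr_map, val_map, val_map, hsm, wrd_smap, run_map f s hs _ h1, run_map f s hs _ h2]
  | hd l₁ l₂ l₃ l₄ ka kb ta tb =>
    have h4 : AdmL P.toRD s.w (l₁ ++ l₂ ++ l₃ ++ l₄) := h
    have h3 : AdmL P.toRD s.w (l₁ ++ l₂ ++ l₃) := ((B2.admL_append _ _ _).1 h4).1
    have h2 : AdmL P.toRD s.w (l₁ ++ l₂) := ((B2.admL_append _ _ _).1 h3).1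
    have h1 : AdmL P.toRD s.w l₁ := ((B2.admL_append _ _ _).1 h2).1
    show Lt.hd
      (mp f (fr (P := P.toPG0) (s.run (l₁ ++ l₂ ++ l₃)).val ka (wrd l₃) ta (s.run l₁).val))
      (mp f (fr (P := P.toPG0) (s.run (l₁ ++ l₂ ++ l₃ ++ l₄)).val kb (wrd l₄) tb
        (s.run (l₁ ++ l₂)).val)) =
      Lt.hd
      (fr (P := P.toPG0) ((s.map f).run (smap f (um f) l₁ ++ smap f (um f) l₂ ++
        smap f (um f) l₃)).val (kmap f ka) (wrd (smap f (um f) l₃)) (tmap f ta)
        ((s.map f).run (smap f (um f) l₁)).val)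
      (fr (P := P.toPG0) ((s.map f).run (smap f (um f) l₁ ++ smap f (um f) l₂ ++
        smap f (um f) l₃ ++ smap f (um f) l₄)).val (kmap f kb) (wrd (smap f (um f) l₄))
        (tmap f tb) ((s.map f).run (smap f (um f) l₁ ++ smap f (um f) l₂)).val)
    rw [fr_map, fr_map, val_map, val_map, val_map, val_map, hsm, hsm, hsm, wrd_smap, wrd_smap,
      run_map f s hs _ h1, run_map f s hs _ h2, run_map f s hs _ h3, run_map f s hs _ h4]

/-- [CHV-B4b] -/
theorem lets_map (t : ℕ → Fin P.nT → Rˣ) (d : List (LD P.toRD R Rˣ)) (h : AdmD P.toRD d) :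
    (lets (P := P.toPG0) t d).map (Lt.map f) =
      lets (P := P.toPG0) (fun j => tmap f (t j)) (d.map (LD.map f (um f))) := by
  induction d with
  | nil => rfl
  | cons d l ih =>
    show (d.letter t (proc l)).map f :: (lets (P := P.toPG0) t l).map (Lt.map f) =
      (d.map f (um f)).letter (fun j => tmap f (t j)) (proc (l.map (LD.map f (um f)))) ::
        lets (P := P.toPG0) (fun j => tmap f (t j)) (l.map (LD.map f (um f)))
    rw [ih h.2, letter_map f t _ (proc_good l h.2) d (by rw [proc_w]; exact h.1),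
      proc_map f l h.2]

/-- [CHV-B4b] Change of rings for the tuples. -/
theorem tup_map {m : ℕ} (g n : ℕ) (l : List (Lt m R)) (g₀ : GL (Fin m) R) :
    tup g n (l.map (Lt.map f)) (mp f g₀) =
      ((fun j => mp f ((tup g n l g₀).1 j)), (fun j => mp f ((tup g n l g₀).2.1 j)),
        fun j => mp f ((tup g n l g₀).2.2 j)) := by
  have hn : ∀ i, nth (l.map (Lt.map f)) i = (nth l i).map f := by
    intro i
    unfold nth
    have h2 : (Lt.pt (1 : GL (Fin m) R')) = (Lt.pt (1 : GL (Fin m) R)).map f := by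
      show (Lt.pt (1 : GL (Fin m) R')) = Lt.pt (mp f 1)
      rw [map_one]
    rw [h2]
    simp [List.getD_eq_getElem?_getD, List.getElem?_map]
  have hA : ∀ d : Lt m R, (d.map f).A = mp f d.A := by
    intro d
    cases d with
    | pt A => rfl
    | hd a b =>
      show (mp f a)⁻¹ * (mp f b)⁻¹ * mp f a = mp f (a⁻¹ * b⁻¹ * a)
      simp only [map_mul, map_inv]
  have hB : ∀ d : Lt m R, (d.map f).B = mp f d.B := by
    intro d
    cases d with
    | pt A => rfl
    | hd a b =>
      show (mp f a)⁻¹ * mp f b * mp f a * (mp f b)⁻¹ * mp f a =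
        mp f (a⁻¹ * b * a * b⁻¹ * a)
      simp only [map_mul, map_inv]
  have hV : ∀ d : Lt m R, (d.map f).val = mp f d.val := by
    intro d
    cases d with
    | pt A => rfl
    | hd a b =>
      show mp f b * (mp f a)⁻¹ * (mp f b)⁻¹ * mp f a = mp f (b * a⁻¹ * b⁻¹ * a)
      simp only [map_mul, map_inv]
  have hpv : pv (l.map (Lt.map f)) = mp f (pv l) := by
    unfold pv
    rw [map_list_prod, List.map_map, List.map_map]
    congr 1
    apply List.map_congr_left
    intro d _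
    exact hV d
  unfold tup
  simp only [hn, hA, hB, hpv, map_mul, map_inv]
  refine Prod.ext rfl (Prod.ext rfl ?_)
  funext j
  show (if (j : ℕ) < n then mp f g₀ * mp f (nth l (g + j)).A * (mp f g₀)⁻¹
    else mp f g₀ * (mp f (pv l))⁻¹ * (mp f g₀)⁻¹) =
    mp f (if (j : ℕ) < n then g₀ * (nth l (g + j)).A * g₀⁻¹ else g₀ * (pv l)⁻¹ * g₀⁻¹)
  split_ifs <;> simp only [map_mul, map_inv]

end Pool.Agent.CHV.B4
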