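import Pool.Agent.CHV.B5a

/-! # CHV, row B5b: Bruhat decomposition -/

set_option autoImplicit false

namespace Pool.Agent.CHV.B5

open Matrix

variable {P : PG}

/-- The set `⋃ U dot(w) T U`. -/
def Bru (P : PG) (F : Type) [Field F] : Set (GL (Fin P.m) F) :=
  {g | ∃ (u u' : GL (Fin P.m) F) (w : List P.S) (z : Fin P.nT → Fˣ), u ∈ P.U F ∧ u' ∈ P.U F ∧
    g = u * P.dot F w * (P.h F z * u')}

/-- [CHV-B5b] Proof: `h z * u' * v` for `v ∈ U`. -/
theorem bru_mul_U {F : Type} [Field F] {g v : GL (Fin P.m) F} (hg : g ∈ Bru P F)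
    (hv : v ∈ P.U F) : g * v ∈ Bru P F := by
  obtain ⟨u, u', w, z, hu, hu', rfl⟩ := hg
  exact ⟨u, u' * v, w, z, hu, mul_mem hu' hv, by group⟩

/-- [CHV-B5b] Proof: `u' * h z' = h z' * (h z'⁻¹ * u' * h z')` (`B1.h_conj_mem'`). -/
theorem bru_mul_h {F : Type} [Field F] {g : GL (Fin P.m) F} (hg : g ∈ Bru P F)
    (z : Fin P.nT → Fˣ) : g * P.h F z ∈ Bru P F := by
  obtain ⟨u, u', w, z', hu, hu', rfl⟩ := hg
  refine ⟨u, (P.h F z)⁻¹ * u' * P.h F z, w, z' * z, hu, B1.h_conj_mem' P z hu', ?_⟩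
  rw [map_mul]
  group

/-- the value of a good state is in `Bru` -/
theorem b5_val_mem {F : Type} [Field F] (s : St P.toPG0 F) (hs : s.Good) : s.val ∈ Bru P F := by
  refine ⟨s.u, s.u', s.w, tact (P.wd s.w.reverse) s.z, hs.1, hs.2, ?_⟩
  have h1 := B1.dot_h P s.w (tact (P.wd s.w.reverse) s.z)
  rw [← B1.tact_mul, A1.wd_reverse, mul_inv_cancel, B1.tact_one] at h1
  unfold St.val
  rw [A1.wd_reverse, mul_assoc s.u, ← h1]
  group

/-- [CHV-B5b] Proof: put `g` in the form `u * h z * dot w * u'` (`B1.dot_h`), a good state `s`; one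
step with `c = 0` (as in `conv`, for the list `[(i, 0)]`) gives a good state with the value
`g * (x i 0 * sd i) = g * sd i`; and the value of a state is in `Bru` (`B1.dot_h` again; use
`tact` of the inverse, `wd w.reverse`). -/
theorem bru_mul_sd {F : Type} [Field F] {g : GL (Fin P.m) F} (hg : g ∈ Bru P F) (i : P.S) :
    g * P.sd F i ∈ Bru P F := by
  obtain ⟨u, u', w, z, hu, hu', rfl⟩ := hg
  set s : St P.toPG0 F := ⟨u, tact (P.wd w) z, w, u'⟩ with hsdef
  have hs : s.Good := ⟨hu, hu'⟩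
  have hval : s.val = u * P.dot F w * (P.h F z * u') := by
    show u * P.h F (tact (P.wd w) z) * P.dot F w * u' = _
    rw [mul_assoc u, ← B1.dot_h]
    group
  obtain ⟨l', -, hadm, hrun⟩ := conv s hs [(i, 0)]
  have hgal : gal P.toPG0 [(i, (0 : F))] = P.sd F i := by
    simp only [gal, List.map_cons, List.map_nil, List.prod_cons, List.prod_nil, mul_one]
    rw [B1.x_zero, one_mul]
  rw [← hval, ← hgal, ← hrun]
  exact b5_val_mem _ (B2.run_good s l' hs hadm)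

/-- [CHV-B5b] Proof: `P.gen`, and `Subgroup.closure_induction_right` (or induction for the
predicate `∀ g₀ ∈ Bru, g₀ * g ∈ Bru`, stable under products and inverses: for the inverses of the
generators use `(sd i)⁻¹ = sd i * (h ..)⁻¹` from `B1.sd_sq`, `u⁻¹ ∈ U`, `(h z)⁻¹ = h z⁻¹`), applied to
`g₀ = 1 = 1 * dot [] * (h 1 * 1)`. -/
theorem bruhat {F : Type} [Field F] [IsAlgClosed F] [CharZero F] {g : GL (Fin P.m) F} (hg : g ∈ P.G F) :
    g ∈ Bru P F := by
  rw [P.gen F] at hg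
  refine Subgroup.closure_induction_right (p := fun x _ => x ∈ Bru P F) ?_ ?_ ?_ hg
  · exact ⟨1, 1, [], 1, one_mem _, one_mem _, by rw [map_one, B1.dot_nil]; group⟩
  · rintro x - y ((hy | ⟨z, rfl⟩) | ⟨i, rfl⟩) hx
    · exact bru_mul_U hx hy
    · exact bru_mul_h hx z
    · exact bru_mul_sd hx i
  · rintro x - y ((hy | ⟨z, rfl⟩) | ⟨i, rfl⟩) hx
    · exact bru_mul_U hx (inv_mem hy)
    · rw [← map_inv]
      exact bru_mul_h hx z⁻¹
    · have h1 := B1.sd_sq (R := F) P i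
      have h2 : (P.sd F i)⁻¹ = P.sd F i * P.h F (cochar (P.al i) (-1))⁻¹ := by
        rw [map_inv, ← h1]
        group
      rw [h2, ← mul_assoc]
      exact bru_mul_h (bru_mul_sd hx i) _

/-- [CHV-B5b] Proof: `bruhat`, `A2.exists_red` and `B1.dot_eq`. -/
theorem bruhat_red {F : Type} [Field F] [IsAlgClosed F] [CharZero F] {g : GL (Fin P.m) F} (hg : g ∈ P.G F) :
    ∃ (u u' : GL (Fin P.m) F) (w : List P.S) (z : Fin P.nT → Fˣ), P.Red w ∧ u ∈ P.U F ∧
      u' ∈ P.U F ∧ g = u * P.dot F w * (P.h F z * u') := by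
  obtain ⟨u, u', w, z, hu, hu', rfl⟩ := bruhat hg
  obtain ⟨w', hw', hww⟩ := A2.exists_red P.toRD w
  obtain ⟨z0, hz0⟩ := B1.dot_eq (R := F) P hww.symm
  refine ⟨u, u', w', z0 * z, hw', hu, hu', ?_⟩
  rw [hz0, map_mul]
  group

/-- [CHV-B5b] Proof: `bruhat_red` and `B3.decomp`: `u * dot w = gal l * u₁`, and
`u₁ * (h z * u') = h z * (...)`, put in the form `u₂ * h z`. -/
theorem bruhat_gal {F : Type} [Field F] [IsAlgClosed F] [CharZero F] {g : GL (Fin P.m) F} (hg : g ∈ P.G F) :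
    ∃ (l : List (P.S × F)) (u : GL (Fin P.m) F) (z : Fin P.nT → Fˣ), P.Red (wrd l) ∧ u ∈ P.U F ∧
      g = gal P.toPG0 l * (u * P.h F z) := by
  obtain ⟨u, u', w, z, hw, hu, hu', rfl⟩ := bruhat_red hg
  obtain ⟨l, u1, hl, hu1, h1⟩ := B3.decomp w u hu
  refine ⟨l, u1 * (P.h F z * u' * (P.h F z)⁻¹), z, by rw [hl]; exact hw,
    mul_mem hu1 (P.h_U F z u' hu'), ?_⟩
  rw [h1]
  group

end Pool.Agent.CHV.B5
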