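import Pool.Agent.CHV.B2
import Pool.Agent.CHV.B3

/-! # CHV, row B5a: galleries over a field -/

set_option autoImplicit false

namespace Pool.Agent.CHV.B5

open Matrix

variable {P : PG}

/-- [CHV-B5a] Every gallery is a sequence of admissible steps. Proof: induction on `l`. For the
first element `(i, c)`, let `e' = c + e_i(s.u')`: if `Pos s.w i` take the step `up e'`; if not,
`dn` if `e' = 0`, and `st` of the unit `e'` if `e' ≠ 0`. In all the cases `s.c i p = c`, so
`(s.step i p).val = s.val * (x i c * sd i)` by `B2.step_val`, and `step i p` is good by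
`B2.step_good`. -/
theorem conv {F : Type} [Field F] (s : St P.toPG0 F) (hs : s.Good) (l : List (P.S × F)) :
    ∃ l' : List (P.S × Stp F Fˣ), wrd l' = wrd l ∧ AdmL P.toRD s.w l' ∧
      (s.run l').val = s.val * gal P.toPG0 l := by
  classical
  induction l generalizing s with
  | nil =>
    refine ⟨[], rfl, trivial, ?_⟩
    show s.val = s.val * 1
    rw [mul_one]
  | cons q l ih =>
    obtain ⟨i, c⟩ := q
    have hp : ∃ p : Stp F Fˣ, p.Adm (D := P.toRD) s.w i ∧ s.c i p = c := by
      by_cases hpos : P.Pos s.w i
      · refine ⟨.up (c + P.e F i s.u'), hpos, ?_⟩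
        show c + P.e F i s.u' - P.e F i s.u' = c
        ring
      · by_cases h0 : c + P.e F i s.u' = 0
        · refine ⟨.dn, hpos, ?_⟩
          show 0 - P.e F i s.u' = c
          rw [← h0]
          ring
        · refine ⟨.st (Units.mk0 _ h0), hpos, ?_⟩
          show (Units.mk0 _ h0 : Fˣ).val - P.e F i s.u' = c
          rw [Units.val_mk0]
          ring
    obtain ⟨p, hadm, hc⟩ := hp
    obtain ⟨l', h1, h2, h3⟩ := ih (s.step i p) (B2.step_good s i p hs hadm)
    refine ⟨(i, p) :: l', ?_, ?_, ?_⟩
    · show i :: wrd l' = i :: wrd l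
      rw [h1]
    · refine ⟨hadm, ?_⟩
      rw [B2.step_w] at h2
      exact h2
    · show ((s.step i p).run l').val = s.val * gal P.toPG0 ((i, c) :: l)
      rw [h3, B2.step_val, hc]
      show _ = s.val * ((P.x F i c * P.sd F i) * gal P.toPG0 l)
      simp only [mul_assoc]

end Pool.Agent.CHV.B5
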