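import Pool.Agent.CHV.B6a

/-! # CHV, row B6b: transport of letters -/

set_option autoImplicit false

namespace Pool.Agent.CHV.B6

open Matrix

variable {P : PG} {R : Type} [CommRing R]

/-- [CHV-B6b] Proof: by cases. Write `x₀ = s.val` and use `B2.run_val` for all the runs
(`B2.run_append`). Puncture: `fr_right` with `f₀ = x₀` (`kel k ∈ U` by `A3.red_suffix`,
`B3.kel_mem`). Handle: `x₃ = x₀ * gal c₁`, `x₂ = x₃ * gal c₂`, `x₁ = x₂ * gal c₃`,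
`x₄ = x₁ * gal c₄`; `α x₀ = x₁ h(th p) u`, `β x₃ = x₄ h(th q) u` (`fr_right`),
`α x₃ = x₂ h(ta) u`, `β x₂ = x₁ h(tb) u` (`fr_left`), so `β⁻¹ x₁ = x₂ u⁻¹ h(tb)⁻¹` and
`α⁻¹ x₂ = x₃ u⁻¹ h(ta)⁻¹`, and `β α⁻¹ β⁻¹ α x₀` is computed step by step, moving the elements of `U`
to the right of the torus (`B1.h_conj_mem'`). -/
theorem letter_trans (t : ℕ → Fin P.nT → Rˣ) (s : St P.toPG0 R) (d : LD P.toRD R Rˣ)
    (hd : d.Valid) : ∃ u ∈ P.U R,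
      (d.letter t s).val * s.val = (d.next s).val * P.h R (d.theta t) * u := by
  cases d with
  | pt j l₁ l₂ k =>
    obtain ⟨hr, hv, hr2, -⟩ := hd
    obtain ⟨c, hc, hval⟩ := B2.run_val s l₁
    obtain ⟨u, hu, h1⟩ := fr_right (wrd l₁) (wrd l₂) hv hr k (B3.kel_mem k (A3.red_suffix P.toRD hr2)) (t j)
      (s.run (l₁ ++ l₂)).val s.val c hc
    refine ⟨u, hu, ?_⟩
    rw [← hval] at h1
    exact h1
  | hd l₁ l₂ l₃ l₄ ka kb ta tb =>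
    obtain ⟨⟨hr1, hv1, hr1', -⟩, ⟨hr2, hv2, hr2', -⟩⟩ := hd
    obtain ⟨c₁, hc₁, hX₃⟩ := B2.run_val s l₁
    obtain ⟨c₂, hc₂, hX₂⟩ := B2.run_val (s.run l₁) l₂
    obtain ⟨c₃, hc₃, hX₁⟩ := B2.run_val (s.run (l₁ ++ l₂)) l₃
    obtain ⟨c₄, hc₄, hX₄⟩ := B2.run_val (s.run (l₁ ++ l₂ ++ l₃)) l₄
    rw [← B2.run_append] at hX₂ hX₁ hX₄
    obtain ⟨u₁, hu₁, e1⟩ := fr_right (wrd l₁) (wrd l₃) hv1 hr1 ka (B3.kel_mem ka (A3.red_suffix P.toRD hr1')) ta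
      (s.run (l₁ ++ l₂ ++ l₃)).val s.val c₁ hc₁
    obtain ⟨u₂, hu₂, e2⟩ := fr_right (wrd l₂) (wrd l₄) hv2 hr2 kb (B3.kel_mem kb (A3.red_suffix P.toRD hr2')) tb
      (s.run (l₁ ++ l₂ ++ l₃ ++ l₄)).val (s.run l₁).val c₂ hc₂
    obtain ⟨u₃, hu₃, e3⟩ := fr_left (wrd l₃) ka hr1' ta (s.run (l₁ ++ l₂)).val (s.run l₁).val c₃ hc₃
    obtain ⟨u₄, hu₄, e4⟩ := fr_left (wrd l₄) kb hr2' tb (s.run (l₁ ++ l₂ ++ l₃)).val (s.run (l₁ ++ l₂)).val c₄ hc₄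
    rw [← hX₃] at e1
    rw [← hX₂] at e2
    rw [← hX₁] at e3
    rw [← hX₄] at e4
    have hT : P.h R (LD.theta t (LD.hd (D := P.toRD) l₁ l₂ l₃ l₄ ka kb ta tb)) =
        P.h R (P.th (wrd l₂) (wrd l₄) tb) * (P.h R ta)⁻¹ * (P.h R tb)⁻¹ * P.h R (P.th (wrd l₁) (wrd l₃) ta) := by
      show P.h R (P.th (wrd l₂) (wrd l₄) tb * ta⁻¹ * tb⁻¹ * P.th (wrd l₁) (wrd l₃) ta) = _
      rw [map_mul, map_mul, map_mul, map_inv, map_inv]
    have hu5 := B1.h_conj_mem' P (ta⁻¹ * tb⁻¹ * P.th (wrd l₁) (wrd l₃) ta) (mul_mem hu₂ (inv_mem hu₃))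
    have hu6 := B1.h_conj_mem' P (tb⁻¹ * P.th (wrd l₁) (wrd l₃) ta) (inv_mem hu₄)
    rw [map_mul, map_mul, map_inv, map_inv] at hu5
    rw [map_mul, map_inv] at hu6
    refine ⟨_, mul_mem (mul_mem hu5 hu6) hu₁, ?_⟩
    rw [hT]
    show fr (P := P.toPG0) (s.run (l₁ ++ l₂ ++ l₃ ++ l₄)).val kb (wrd l₄) tb (s.run (l₁ ++ l₂)).val *
      (fr (P := P.toPG0) (s.run (l₁ ++ l₂ ++ l₃)).val ka (wrd l₃) ta (s.run l₁).val)⁻¹ *
      (fr (P := P.toPG0) (s.run (l₁ ++ l₂ ++ l₃ ++ l₄)).val kb (wrd l₄) tb (s.run (l₁ ++ l₂)).val)⁻¹ *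
      fr (P := P.toPG0) (s.run (l₁ ++ l₂ ++ l₃)).val ka (wrd l₃) ta (s.run l₁).val * s.val =
      (s.run (l₁ ++ l₂ ++ l₃ ++ l₄)).val * _ * _
    generalize fr (P := P.toPG0) (s.run (l₁ ++ l₂ ++ l₃ ++ l₄)).val kb (wrd l₄) tb (s.run (l₁ ++ l₂)).val = b at e2 e4 ⊢
    generalize fr (P := P.toPG0) (s.run (l₁ ++ l₂ ++ l₃)).val ka (wrd l₃) ta (s.run l₁).val = a at e1 e3 ⊢
    generalize (s.run (l₁ ++ l₂ ++ l₃ ++ l₄)).val = X₄ at e2 ⊢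
    generalize (s.run (l₁ ++ l₂ ++ l₃)).val = X₁ at e1 e4
    generalize (s.run (l₁ ++ l₂)).val = X₂ at e3 e4
    generalize (s.run l₁).val = X₃ at e2 e3
    generalize P.h R (P.th (wrd l₁) (wrd l₃) ta) = H₁ at e1 ⊢
    generalize P.h R (P.th (wrd l₂) (wrd l₄) tb) = H₂ at e2 ⊢
    generalize P.h R ta = Ha at e3 ⊢
    generalize P.h R tb = Hb at e4 ⊢
    have f4 : b⁻¹ * X₁ = X₂ * u₄⁻¹ * Hb⁻¹ := by
      calc b⁻¹ * X₁ = b⁻¹ * (X₁ * Hb * u₄) * u₄⁻¹ * Hb⁻¹ := by group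
        _ = _ := by rw [← e4]; group
    have f3 : a⁻¹ * X₂ = X₃ * u₃⁻¹ * Ha⁻¹ := by
      calc a⁻¹ * X₂ = a⁻¹ * (X₂ * Ha * u₃) * u₃⁻¹ * Ha⁻¹ := by group
        _ = _ := by rw [← e3]; group
    calc b * a⁻¹ * b⁻¹ * a * s.val = b * a⁻¹ * b⁻¹ * (a * s.val) := by group
      _ = b * a⁻¹ * (b⁻¹ * X₁) * H₁ * u₁ := by rw [e1]; group
      _ = b * (a⁻¹ * X₂) * u₄⁻¹ * Hb⁻¹ * H₁ * u₁ := by rw [f4]; group
      _ = (b * X₃) * u₃⁻¹ * Ha⁻¹ * u₄⁻¹ * Hb⁻¹ * H₁ * u₁ := by rw [f3]; group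
      _ = _ := by rw [e2]; group

/-- [CHV-B6b] Proof: induction on `d`; `pv (lets t (d :: l)) = letter * pv (lets t l)` and
`letter * (proc l).val * h(Θ) * u = (d.next (proc l)).val * h(θ) * u₁ * h(Θ) * u`. -/
theorem lets_trans (t : ℕ → Fin P.nT → Rˣ) (d : List (LD P.toRD R Rˣ))
    (hd : ∀ x ∈ d, x.Valid) : ∃ u ∈ P.U R,
      pv (lets (P := P.toPG0) t d) = (proc (P := P.toPG0) d).val * P.h R (Theta t d) * u := by
  induction d with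
  | nil =>
    refine ⟨1, one_mem _, ?_⟩
    show (1 : GL (Fin P.m) R) = (1 * P.h R 1 * P.dot R [] * 1) * P.h R 1 * 1
    rw [B1.dot_nil, map_one]
    group
  | cons d l ih =>
    obtain ⟨u₀, hu₀, h0⟩ := ih fun x hx => hd x (List.mem_cons_of_mem _ hx)
    obtain ⟨u₁, hu₁, h1⟩ := letter_trans t (proc (P := P.toPG0) l) d (hd d List.mem_cons_self)
    refine ⟨_, mul_mem (B1.h_conj_mem' P (Theta t l) hu₁) hu₀, ?_⟩
    have h2 : pv (lets (P := P.toPG0) t (d :: l)) =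
        (d.letter t (proc (P := P.toPG0) l)).val * pv (lets (P := P.toPG0) t l) := by
      show ((d.letter t (proc (P := P.toPG0) l) :: lets (P := P.toPG0) t l).map Lt.val).prod = _
      rw [List.map_cons, List.prod_cons]
      rfl
    have h3 : Theta t (d :: l) = d.theta t * Theta t l := by
      unfold Theta
      rw [List.map_cons, List.prod_cons]
    have h4 : proc (P := P.toPG0) (d :: l) = d.next (proc (P := P.toPG0) l) := rfl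
    rw [h2, h0, h3, h4, map_mul]
    calc (d.letter t (proc (P := P.toPG0) l)).val * ((proc (P := P.toPG0) l).val * P.h R (Theta t l) * u₀) =
        ((d.letter t (proc (P := P.toPG0) l)).val * (proc (P := P.toPG0) l).val) * (P.h R (Theta t l) * u₀) := by group
      _ = _ := by rw [h1]; group

end Pool.Agent.CHV.B6
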