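import Pool.Agent.CHV.B2
import Pool.Agent.CHV.B3
import Pool.Agent.CHV.B4

/-! # CHV, row B6a: transport of frames -/

set_option autoImplicit false

namespace Pool.Agent.CHV.B6

open Matrix

variable {P : PG} {R : Type} [CommRing R]

theorem b6a_gal (c : List (P.S × R)) : gal P.toPG0 c = kel P.toPG0 c * P.dot R (wrd c) := by
  unfold kel
  rw [inv_mul_cancel_right]

theorem b6a_grp {M : Type} [Group M] {X Y T T' Sg : M} (e1 : Y * T = T' * Y) (e2 : Y * X = Sg) :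
    X⁻¹ * T * Y⁻¹ = Sg⁻¹ * T' := by
  have h1 : T = Y⁻¹ * T' * Y := by
    rw [mul_assoc, ← e1, inv_mul_cancel_left]
  rw [h1, ← e2]
  group

/-- [CHV-B6a] Proof: `gal c = kel c * dot v₁`, `kel c ∈ U` (`B3.kel_mem`), so
`fr h k v₂ t (f₀ * gal c) * f₀ = h * kel k * (dot v₂)⁻¹ * h(t) * (dot v₁)⁻¹ * (kel c)⁻¹`. By
`B1.dot_h`, `h(t) * (dot v₁)⁻¹ = (dot v₁)⁻¹ * h(wd v₁ t)`, and
`(dot v₂)⁻¹ * (dot v₁)⁻¹ = (dot (v₁ ++ v₂))⁻¹ = (h (sg (v₁ ++ v₂)))⁻¹` (`B1.dot_one`, as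
`wd (v₁ ++ v₁.reverse) = 1`). So it is `h * kel k * h(th v₁ v₂ t) * (kel c)⁻¹`, and
`kel k * h(θ) = h(θ) * (h(θ)⁻¹ * kel k * h(θ))`. -/
theorem fr_right (v₁ v₂ : List P.S) (hv : v₂ = v₁.reverse) (hr : P.Red v₁)
    (k : List (P.S × R)) (hk : kel P.toPG0 k ∈ P.U R) (t : Fin P.nT → Rˣ)
    (h f₀ : GL (Fin P.m) R) (c : List (P.S × R)) (hc : wrd c = v₁) :
    ∃ u ∈ P.U R, fr (P := P.toPG0) h k v₂ t (f₀ * gal P.toPG0 c) * f₀ =
      h * P.h R (P.th v₁ v₂ t) * u := by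
  have hwd : P.wd (v₁ ++ v₂) = 1 := by
    rw [A1.wd_append, hv, A1.wd_reverse, mul_inv_cancel]
  have e1 : P.dot R v₁ * P.h R t = P.h R (tact (P.wd v₁) t) * P.dot R v₁ := B1.dot_h P v₁ t
  have e2 : P.dot R v₁ * P.dot R v₂ = P.h R (P.sg R (v₁ ++ v₂)) := by
    rw [← B1.dot_append, B1.dot_one P hwd]
  have e3 : P.h R (P.th v₁ v₂ t) = (P.h R (P.sg R (v₁ ++ v₂)))⁻¹ * P.h R (tact (P.wd v₁) t) := by
    unfold PG.th
    rw [map_mul, map_inv]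
  have e4 := b6a_grp e1 e2
  rw [← e3] at e4
  have hkc : kel P.toPG0 c ∈ P.U R := B3.kel_mem c (by rw [hc]; exact hr)
  refine ⟨(P.h R (P.th v₁ v₂ t))⁻¹ * kel P.toPG0 k * P.h R (P.th v₁ v₂ t) * (kel P.toPG0 c)⁻¹,
    mul_mem (B1.h_conj_mem' P _ hk) (inv_mem hkc), ?_⟩
  unfold fr
  rw [b6a_gal, hc]
  calc h * kel P.toPG0 k * (P.dot R v₂)⁻¹ * P.h R t * (f₀ * (kel P.toPG0 c * P.dot R v₁))⁻¹ * f₀
      = h * kel P.toPG0 k * ((P.dot R v₂)⁻¹ * P.h R t * (P.dot R v₁)⁻¹) * (kel P.toPG0 c)⁻¹ := by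
        group
    _ = h * kel P.toPG0 k * P.h R (P.th v₁ v₂ t) * (kel P.toPG0 c)⁻¹ := by rw [e4]
    _ = _ := by group

theorem b6a_left_mem (v₂ : List P.S) (k : List (P.S × R)) (hr : P.Red (v₂ ++ wrd k))
    (c : List (P.S × R)) (hc : wrd c = v₂) :
    kel P.toPG0 c * (P.dot R v₂ * kel P.toPG0 k * (P.dot R v₂)⁻¹) ∈ P.U R :=
  mul_mem (B3.kel_mem c (by rw [hc]; exact A1.Red.initSeg hr)) (B3.kel_conj_mem v₂ k hr)

/-- [CHV-B6a] Proof: `gal c = kel c * dot v₂`, so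
`fr (x * gal c) k v₂ t f * f = x * (kel c * (dot v₂ * kel k * (dot v₂)⁻¹)) * h(t)`, and the middle
factor is in `U` (`B3.kel_mem` for `c`, whose word is a prefix of the reduced word `v₂ ++ wrd k`,
and `B3.kel_conj_mem`). -/
theorem fr_left (v₂ : List P.S) (k : List (P.S × R)) (hr : P.Red (v₂ ++ wrd k))
    (t : Fin P.nT → Rˣ) (x f : GL (Fin P.m) R) (c : List (P.S × R)) (hc : wrd c = v₂) :
    ∃ u ∈ P.U R, fr (P := P.toPG0) (x * gal P.toPG0 c) k v₂ t f * f = x * P.h R t * u := by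
  refine ⟨(P.h R t)⁻¹ * (kel P.toPG0 c * (P.dot R v₂ * kel P.toPG0 k * (P.dot R v₂)⁻¹)) * P.h R t,
    B1.h_conj_mem' P _ (b6a_left_mem v₂ k hr c hc), ?_⟩
  unfold fr
  rw [b6a_gal, hc]
  group

/-- [CHV-B6a] The same with the unipotent factor on the left of the torus. -/
theorem fr_left' (v₂ : List P.S) (k : List (P.S × R)) (hr : P.Red (v₂ ++ wrd k))
    (t : Fin P.nT → Rˣ) (x f : GL (Fin P.m) R) (c : List (P.S × R)) (hc : wrd c = v₂) :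
    ∃ u ∈ P.U R, fr (P := P.toPG0) (x * gal P.toPG0 c) k v₂ t f = x * (u * P.h R t) * f⁻¹ := by
  refine ⟨kel P.toPG0 c * (P.dot R v₂ * kel P.toPG0 k * (P.dot R v₂)⁻¹),
    b6a_left_mem v₂ k hr c hc, ?_⟩
  unfold fr
  rw [b6a_gal, hc]
  group

end Pool.Agent.CHV.B6
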