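import Pool.Agent.CHV.B6

/-! # CHV, row B7: classes of the letters, closing -/

set_option autoImplicit false

namespace Pool.Agent.CHV.B7

open Matrix

variable {P : PG} {R : Type} [CommRing R]

/-- [CHV-B7] The value of a good state is in `G`. -/
theorem val_mem (s : St P.toPG0 R) (hs : s.Good) : s.val ∈ P.G R := by
  unfold St.val
  exact mul_mem (mul_mem (mul_mem (P.U_le R hs.1) (P.h_mem R _)) (B1.dot_mem P _)) (P.U_le R hs.2)

/-- [CHV-B7] -/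
theorem gal_mem (c : List (P.S × R)) : gal P.toPG0 c ∈ P.G R := by
  induction c with
  | nil => exact one_mem _
  | cons p l ih =>
    have h1 : gal P.toPG0 (p :: l) = P.x R p.1 p.2 * P.sd R p.1 * gal P.toPG0 l := by
      unfold gal
      rw [List.map_cons, List.prod_cons]
    rw [h1]
    exact mul_mem (mul_mem (P.U_le R (B1.x_mem P _ _)) (B1.sd_mem P _)) ih

/-- [CHV-B7] Proof: `B6.fr_left'` with `x = f = (s.run l₁).val` (`B2.run_append`, `B2.run_val`). -/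
theorem pt_class (t : ℕ → Fin P.nT → Rˣ) (s : St P.toPG0 R) (hs : s.Good) (j : ℕ)
    (l₁ l₂ : List (P.S × Stp R Rˣ)) (k : List (P.S × R))
    (hd : (LD.pt (D := P.toRD) j l₁ l₂ k).Valid) (ha : AdmL P.toRD s.w (l₁ ++ l₂)) :
    HasClass P.toPG0 (t j)
      (fr (P := P.toPG0) (s.run (l₁ ++ l₂)).val k (wrd l₂) (t j) (s.run l₁).val) := by
  have h1 := (B2.admL_append _ _ _).1 ha
  have h2 : (s.run l₁).Good := B2.run_good s l₁ hs h1.1
  obtain ⟨c, hc, hv⟩ := B2.run_val (s.run l₁) l₂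
  rw [← B2.run_append] at hv
  obtain ⟨u, hu, he⟩ := B6.fr_left' (P := P) (wrd l₂) k hd.2.2.1 (t j) (s.run l₁).val (s.run l₁).val c hc
  refine ⟨(s.run l₁).val, val_mem _ h2, u, hu, ?_⟩
  rw [hv, he]

theorem b7_fr {h f : GL (Fin P.m) R} (hh : h ∈ P.G R) (k : List (P.S × R)) (v₂ : List P.S)
    (t : Fin P.nT → Rˣ) (hf : f ∈ P.G R) : fr (P := P.toPG0) h k v₂ t f ∈ P.G R := by
  unfold fr kel
  exact mul_mem (mul_mem (mul_mem (mul_mem hh (mul_mem (gal_mem k) (inv_mem (B1.dot_mem P _))))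
    (inv_mem (B1.dot_mem P _))) (P.h_mem R _)) (inv_mem hf)

/-- [CHV-B7] Both matrices of a handle are in `G`. -/
theorem letter_mem (t : ℕ → Fin P.nT → Rˣ) (s : St P.toPG0 R) (hs : s.Good)
    (d : LD P.toRD R Rˣ) (hd : d.Valid) (ha : AdmL P.toRD s.w d.steps) :
    (d.letter t s).A ∈ P.G R ∧ (d.letter t s).B ∈ P.G R := by
  cases d with
  | pt j l₁ l₂ k =>
    have h1 := (B2.admL_append _ _ _).1 ha
    have h2 : (s.run l₁).Good := B2.run_good s l₁ hs h1.1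
    have h3 : (s.run (l₁ ++ l₂)).Good := B2.run_good s _ hs ha
    have h4 := b7_fr (P := P) (val_mem _ h3) k (wrd l₂) (t j) (val_mem _ h2)
    exact ⟨h4, h4⟩
  | hd l₁ l₂ l₃ l₄ ka kb ta tb =>
    have h1 := (B2.admL_append _ _ _).1 ha
    have h2 := (B2.admL_append _ _ _).1 h1.1
    have h3 := (B2.admL_append _ _ _).1 h2.1
    have g1 : (s.run l₁).Good := B2.run_good s _ hs h3.1
    have g2 : (s.run (l₁ ++ l₂)).Good := B2.run_good s _ hs h2.1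
    have g3 : (s.run (l₁ ++ l₂ ++ l₃)).Good := B2.run_good s _ hs h1.1
    have g4 : (s.run (l₁ ++ l₂ ++ l₃ ++ l₄)).Good := B2.run_good s _ hs ha
    have ma := b7_fr (P := P) (val_mem _ g3) ka (wrd l₃) ta (val_mem _ g1)
    have mb := b7_fr (P := P) (val_mem _ g4) kb (wrd l₄) tb (val_mem _ g2)
    refine ⟨?_, ?_⟩
    · exact mul_mem (mul_mem (inv_mem ma) (inv_mem mb)) ma
    · exact mul_mem (mul_mem (mul_mem (mul_mem (inv_mem ma) mb) ma) (inv_mem mb)) ma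

/-- [CHV-B7] Conjugation preserves the classes. -/
theorem class_conj {t : Fin P.nT → Rˣ} {A g : GL (Fin P.m) R} (hg : g ∈ P.G R)
    (h : HasClass P.toPG0 t A) : HasClass P.toPG0 t (g * A * g⁻¹) := by
  obtain ⟨f, hf, u, hu, he⟩ := h
  refine ⟨g * f, mul_mem hg hf, u, hu, ?_⟩
  rw [he]
  group

/-- [CHV-B7] Proof: `B6.lets_trans`; `(proc d).val = u * h z * dot w * u'` with
`dot w = h (sg w)` (`B1.dot_one`, `B4.proc_w`), so
`pv = u * h(z * sg w) * u' * h(Θ) * u₁`, and its inverse is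
`u₁⁻¹ * (h(Θ)⁻¹ u'⁻¹ h(Θ)) * h((z sg w Θ)⁻¹) * u⁻¹`, with `(z sg w Θ)⁻¹ = tl` by `Closes`; then move
`u⁻¹` to the left of `h(tl)`. -/
theorem closes_inv (t : ℕ → Fin P.nT → Rˣ) (tl : Fin P.nT → Rˣ) (d : List (LD P.toRD R Rˣ))
    (hd : ∀ x ∈ d, x.Valid) (ha : AdmD P.toRD d) (hc : Closes t tl d) :
    ∃ u ∈ P.U R, (pv (lets (P := P.toPG0) t d))⁻¹ = u * P.h R tl := by
  obtain ⟨u₁, hu₁, he⟩ := B6.lets_trans (P := P) t d hd
  have hg := B4.proc_good (P := P) d ha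
  have hw := B4.proc_w (P := P) d
  have hv : (proc (P := P.toPG0) d).val = (proc (P := P.toPG0) d).u * P.h R (proc (P := P.toPG0) d).z *
      P.h R (P.sg R (procw P.toRD d)) * (proc (P := P.toPG0) d).u' := by
    unfold St.val
    rw [hw, B1.dot_one P hc.1]
  have key : (P.h R (Theta t d))⁻¹ * (P.h R (P.sg R (procw P.toRD d)))⁻¹ *
      (P.h R (proc (P := P.toPG0) d).z)⁻¹ = P.h R tl := by
    rw [← map_inv, ← map_inv, ← map_inv, ← map_mul, ← map_mul]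
    congr 1
    rw [eq_comm, ← mul_right_inj ((proc (P := P.toPG0) d).z * P.sg R (procw P.toRD d) * Theta t d), hc.2]
    group
  rw [he, hv]
  refine ⟨u₁⁻¹ * ((P.h R (Theta t d))⁻¹ * (proc (P := P.toPG0) d).u'⁻¹ * P.h R (Theta t d)) *
    (P.h R tl * (proc (P := P.toPG0) d).u⁻¹ * (P.h R tl)⁻¹), ?_, ?_⟩
  · exact mul_mem (mul_mem (inv_mem hu₁) (B1.h_conj_mem' P _ (inv_mem hg.2))) (P.h_U R tl _ (inv_mem hg.1))
  · rw [← key]
    group

/-- [CHV-B7] Proof: `B6.lets_trans`: `u * h z * dot w * u' * h(Θ) * u₁ = h(tl)⁻¹ * u₂⁻¹`, so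
`dot w = h(z') * u''` with `z' = z⁻¹ tl⁻¹ Θ⁻¹` and `u'' ∈ U`; `B3.wd_eq_one` gives `wd w = 1`, so
`dot w = h (sg w)` and `h(z'⁻¹ * sg w) = u'' ∈ U`, hence `z'⁻¹ * sg w = 1` (`h_inter`). -/
theorem closes_of [Nontrivial R] (t : ℕ → Fin P.nT → Rˣ) (tl : Fin P.nT → Rˣ)
    (d : List (LD P.toRD R Rˣ)) (hd : ∀ x ∈ d, x.Valid) (ha : AdmD P.toRD d)
    (u : GL (Fin P.m) R) (hu : u ∈ P.U R)
    (h : (pv (lets (P := P.toPG0) t d))⁻¹ = u * P.h R tl) : Closes t tl d := by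
  obtain ⟨u₁, hu₁, he⟩ := B6.lets_trans (P := P) t d hd
  have hg := B4.proc_good (P := P) d ha
  have hw := B4.proc_w (P := P) d
  have hv : (proc (P := P.toPG0) d).val = (proc (P := P.toPG0) d).u * P.h R (proc (P := P.toPG0) d).z *
      P.dot R (procw P.toRD d) * (proc (P := P.toPG0) d).u' := by
    unfold St.val
    rw [hw]
  rw [he, hv] at h
  have hD : P.dot R (procw P.toRD d) = (P.h R (proc (P := P.toPG0) d).z)⁻¹ *
      (proc (P := P.toPG0) d).u⁻¹ * (u * P.h R tl)⁻¹ * u₁⁻¹ * (P.h R (Theta t d))⁻¹ *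
      (proc (P := P.toPG0) d).u'⁻¹ := by
    rw [← h]
    group
  have hZ : P.h R ((proc (P := P.toPG0) d).z⁻¹ * tl⁻¹ * (Theta t d)⁻¹) =
      (P.h R (proc (P := P.toPG0) d).z)⁻¹ * (P.h R tl)⁻¹ * (P.h R (Theta t d))⁻¹ := by
    rw [map_mul, map_mul, map_inv, map_inv, map_inv]
  have hu2 : (P.h R (Theta t d) * (P.h R tl * (proc (P := P.toPG0) d).u⁻¹ * (P.h R tl)⁻¹) *
      (P.h R (Theta t d))⁻¹) * (P.h R (Theta t d) * (u⁻¹ * u₁⁻¹) * (P.h R (Theta t d))⁻¹) *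
      (proc (P := P.toPG0) d).u'⁻¹ ∈ P.U R :=
    mul_mem (mul_mem (P.h_U R _ _ (P.h_U R _ _ (inv_mem hg.1)))
      (P.h_U R _ _ (mul_mem (inv_mem hu) (inv_mem hu₁)))) (inv_mem hg.2)
  have hD2 : P.dot R (procw P.toRD d) = P.h R ((proc (P := P.toPG0) d).z⁻¹ * tl⁻¹ * (Theta t d)⁻¹) *
      ((P.h R (Theta t d) * (P.h R tl * (proc (P := P.toPG0) d).u⁻¹ * (P.h R tl)⁻¹) *
      (P.h R (Theta t d))⁻¹) * (P.h R (Theta t d) * (u⁻¹ * u₁⁻¹) * (P.h R (Theta t d))⁻¹) *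
      (proc (P := P.toPG0) d).u'⁻¹) := by
    rw [hZ, hD]
    group
  have hone := B3.wd_eq_one _ _ _ hu2 hD2
  refine ⟨hone, ?_⟩
  rw [B1.dot_one P hone] at hD2
  have h5 : P.h R (((proc (P := P.toPG0) d).z⁻¹ * tl⁻¹ * (Theta t d)⁻¹)⁻¹ *
      P.sg R (procw P.toRD d)) ∈ P.U R := by
    rw [map_mul, hD2, map_inv, inv_mul_cancel_left]
    exact hu2
  have h6 := P.h_inter R _ h5
  rw [← h6]
  simp only [mul_inv, inv_inv]
  ac_rfl

end Pool.Agent.CHV.B7
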