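import Pool.Agent.CHV.B4

/-! # CHV, row B8: the monomial equation -/

set_option autoImplicit false

namespace Pool.Agent.CHV.B8

open Matrix

variable {P : PG} {R : Type} [CommRing R]

theorem b8_mon_append {n : ℕ} (l l' : List ((Fin n → ℤ) × Rˣ)) : mon (l ++ l') = mon l * mon l' := by
  unfold mon
  rw [List.map_append, List.prod_append]

/-- [CHV-B8] Proof: `mon` of a list of pairs `(A e_l - e_l, z_l)` is `tact A z * z⁻¹`
(`B1.tact_eq_prod` and `tact 1 z = z`). -/
theorem mon_ofFn {n : ℕ} (A : (Fin n → ℤ) ≃ₗ[ℤ] (Fin n → ℤ)) (z : Fin n → Rˣ) :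
    mon (List.ofFn fun l => ((A (Pi.single l 1) - Pi.single l 1 : Fin n → ℤ), z l)) =
      tact A z * z⁻¹ := by
  unfold mon
  rw [List.map_ofFn, List.prod_ofFn]
  have h1 : ∀ l : Fin n, ((fun p : (Fin n → ℤ) × Rˣ => cochar p.1 p.2) ∘
      fun l => ((A (Pi.single l 1) - Pi.single l 1 : Fin n → ℤ), z l)) l =
      cochar (A (Pi.single l 1)) (z l) * (cochar (Pi.single l 1) (z l))⁻¹ := by
    intro l
    funext j
    show z l ^ (A (Pi.single l 1) j - (Pi.single l 1 : Fin n → ℤ) j) =
      z l ^ A (Pi.single l 1) j * (z l ^ (Pi.single l 1 : Fin n → ℤ) j)⁻¹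
    rw [_root_.zpow_sub]
  rw [Finset.prod_congr rfl fun l _ => h1 l, Finset.prod_mul_distrib, Finset.prod_inv_distrib, ← B1.tact_eq_prod]
  have h2 := B1.tact_eq_prod (1 : (Fin n → ℤ) ≃ₗ[ℤ] (Fin n → ℤ)) z
  rw [B1.tact_one] at h2
  have h3 : ∏ l, cochar (Pi.single l 1) (z l) = z := h2.symm
  rw [h3]

/-- [CHV-B8] Proof: `B2.run_z`. -/
theorem proc_z_cons (d : LD P.toRD R Rˣ) (l : List (LD P.toRD R Rˣ)) :
    (proc (P := P.toPG0) (d :: l)).z =
      (proc (P := P.toPG0) l).z * mon (stc P.toRD (procw P.toRD l) d.steps) := by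
  show ((proc (P := P.toPG0) l).run d.steps).z = _
  rw [B2.run_z, B4.proc_w]

/-- [CHV-B8] Proof: induction on `d`, with `proc_z_cons`, `mon_ofFn`, `mon (l ++ l')`, and the
definitions of `theta`, `cst`, `th`; everything is in the commutative group `Fin nT → Rˣ`. -/
theorem z_theta (t : ℕ → Fin P.nT → Rˣ) (d : List (LD P.toRD R Rˣ)) :
    (proc (P := P.toPG0) d).z * Theta t d = mon (ucols P.toRD d) * Cst t d := by
  induction d with
  | nil =>
    show (1 : Fin P.nT → Rˣ) * 1 = mon [] * 1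
    rfl
  | cons d l ih =>
    have h1 : Theta t (d :: l) = d.theta t * Theta t l := by
      unfold Theta
      rw [List.map_cons, List.prod_cons]
    have h2 : Cst t (d :: l) = d.cst t * Cst t l := by
      unfold Cst
      rw [List.map_cons, List.prod_cons]
    have h3 : d.theta t = mon d.ucol * d.cst t := by
      cases d with
      | pt j l₁ l₂ k =>
        show P.th (wrd l₁) (wrd l₂) (t j) = mon [] * P.th (wrd l₁) (wrd l₂) (t j)
        have h4 : mon ([] : List ((Fin P.nT → ℤ) × Rˣ)) = 1 := rfl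
        rw [h4, one_mul]
      | hd l₁ l₂ l₃ l₄ ka kb ta tb =>
        show P.th (wrd l₂) (wrd l₄) tb * ta⁻¹ * tb⁻¹ * P.th (wrd l₁) (wrd l₃) ta =
          mon ((List.ofFn fun l => (P.wd (wrd l₁) (Pi.single l 1) - Pi.single l 1, ta l)) ++
            (List.ofFn fun l => (P.wd (wrd l₂) (Pi.single l 1) - Pi.single l 1, tb l))) *
          ((P.sg R (wrd l₂ ++ wrd l₄))⁻¹ * (P.sg R (wrd l₁ ++ wrd l₃))⁻¹)
        rw [b8_mon_append, mon_ofFn, mon_ofFn]
        unfold PG.th
        generalize P.sg R (wrd l₂ ++ wrd l₄) = A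
        generalize P.sg R (wrd l₁ ++ wrd l₃) = B
        generalize tact (P.wd (wrd l₂)) tb = C
        generalize tact (P.wd (wrd l₁)) ta = E
        simp only [mul_assoc, mul_comm, mul_left_comm]
    have h4 : ucols P.toRD (d :: l) = stc P.toRD (procw P.toRD l) d.steps ++ d.ucol ++ ucols P.toRD l := rfl
    rw [proc_z_cons, h1, h2, h3, h4, b8_mon_append, b8_mon_append]
    generalize mon (stc P.toRD (procw P.toRD l) d.steps) = A
    generalize mon d.ucol = B
    generalize d.cst t = C
    generalize mon (ucols P.toRD l) = E at ih ⊢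
    generalize (proc (P := P.toPG0) l).z = Z at ih ⊢
    generalize Theta t l = T at ih ⊢
    generalize Cst t l = Q at ih ⊢
    calc Z * A * (B * C * T) = (A * B * C) * (Z * T) := by
          simp only [mul_assoc, mul_comm, mul_left_comm]
      _ = (A * B * C) * (E * Q) := by rw [ih]
      _ = _ := by simp only [mul_assoc, mul_comm, mul_left_comm]

/-- [CHV-B8] -/
theorem closes_iff (t : ℕ → Fin P.nT → Rˣ) (tl : Fin P.nT → Rˣ) (d : List (LD P.toRD R Rˣ)) :
    Closes t tl d ↔ P.wd (procw P.toRD d) = 1 ∧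
      mon (ucols P.toRD d) * (P.sg R (procw P.toRD d) * Cst t d * tl) = 1 := by
  have h1 := z_theta t d
  unfold Closes
  refine and_congr_right fun _ => ?_
  have h2 : (proc (P := P.toPG0) d).z * P.sg R (procw P.toRD d) * Theta t d * tl =
      mon (ucols P.toRD d) * (P.sg R (procw P.toRD d) * Cst t d * tl) := by
    calc (proc (P := P.toPG0) d).z * P.sg R (procw P.toRD d) * Theta t d * tl =
        ((proc (P := P.toPG0) d).z * Theta t d) * (P.sg R (procw P.toRD d) * tl) := by
          simp only [mul_assoc, mul_comm, mul_left_comm]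
      _ = (mon (ucols P.toRD d) * Cst t d) * (P.sg R (procw P.toRD d) * tl) := by rw [h1]
      _ = _ := by simp only [mul_assoc, mul_comm, mul_left_comm]
  rw [h2]

end Pool.Agent.CHV.B8
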