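import Pool.Agent.CHV.B9a

/-! # CHV, row B9b: every letter has data -/

set_option autoImplicit false

namespace Pool.Agent.CHV.B9

open Matrix

variable {P : PG} {F : Type} [Field F] [IsAlgClosed F] [CharZero F]

theorem b9_calc {G : Type} [Group G] (a b x₀ x₁ x₂ c₁ T Ta Z w₁ w₂ u₁ : G)
    (hg₁ : x₀⁻¹ * (a⁻¹ * b⁻¹ * a) * x₀ = c₁ * (w₁ * Z)) (e₁ : a * x₀ = x₁ * T * u₁)
    (hA : x₂ * (w₂ * Ta) * (x₀ * c₁)⁻¹ = a) :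
    x₁ * (T * u₁ * T⁻¹ * (T * Z⁻¹ * w₁⁻¹ * (T * Z⁻¹)⁻¹) *
      (T * Z⁻¹ * Ta⁻¹ * w₂⁻¹ * (T * Z⁻¹ * Ta⁻¹)⁻¹) * (T * Z⁻¹ * Ta⁻¹)) * x₂⁻¹ = b := by
  have h1 : x₁ * T * u₁ * (w₁ * Z)⁻¹ = b * a * (x₀ * c₁) := by
    rw [← e₁]
    have h2 : a * x₀ = b * a * x₀ * (x₀⁻¹ * (a⁻¹ * b⁻¹ * a) * x₀) := by group
    rw [h2, hg₁]
    group
  have h3 : x₂ = a * (x₀ * c₁) * (w₂ * Ta)⁻¹ := by
    rw [← hA]
    group
  calc x₁ * (T * u₁ * T⁻¹ * (T * Z⁻¹ * w₁⁻¹ * (T * Z⁻¹)⁻¹) *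
        (T * Z⁻¹ * Ta⁻¹ * w₂⁻¹ * (T * Z⁻¹ * Ta⁻¹)⁻¹) * (T * Z⁻¹ * Ta⁻¹)) * x₂⁻¹ =
      (x₁ * T * u₁ * (w₁ * Z)⁻¹) * (w₂ * Ta)⁻¹ * x₂⁻¹ := by group
    _ = (b * a * (x₀ * c₁)) * (w₂ * Ta)⁻¹ * x₂⁻¹ := by rw [h1]
    _ = b := by rw [h3]; group

/-- [CHV-B9b] Handle. Proof: let `x₀ = s.val`. `B5.bruhat_gal` for `x₀⁻¹ a⁻¹ b⁻¹ a x₀`:
`a⁻¹ b⁻¹ a x₀ = x₃ * b₁` with `x₃ = x₀ * gal c₁ = (s.run l₁).val` (`B5.conv`) and `b₁` of the form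
`u * h z`. `B5.bruhat_gal` for `x₃⁻¹ a x₃`: `a x₃ = x₂ * (u₂ * h ta)`,
`x₂ = x₃ * gal c₂ = (s.run (l₁ ++ l₂)).val`. So `a = x₂ * (u₂ * h ta) * x₃⁻¹`, and `frame` for the
state `s.run (l₁ ++ l₂)` and the reduced word `wrd l₁` gives `l₃`, `ka` with
`a = fr x₁ ka (wrd l₃) ta x₃`, `x₁ = (s.run (l₁ ++ l₂ ++ l₃)).val`. By `B6.fr_right`,
`a x₀ ∈ x₁ B`. Now `b x₂ = b a x₃ (u₂ h ta)⁻¹ = b a (a⁻¹ b⁻¹ a x₀) b₁⁻¹ (u₂ h ta)⁻¹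
= a x₀ b₁⁻¹ (u₂ h ta)⁻¹ ∈ x₁ B`, so `b = x₁ * (u₃ * h tb) * x₂⁻¹`, and `frame` for the state
`s.run (l₁ ++ l₂ ++ l₃)` and the reduced word `wrd l₂` gives `l₄`, `kb`. -/
theorem exists_hd (t : ℕ → Fin P.nT → Fˣ) (s : St P.toPG0 F) (hs : s.Good)
    (a b : GL (Fin P.m) F) (ha : a ∈ P.G F) (hb : b ∈ P.G F) :
    ∃ (l₁ l₂ l₃ l₄ : List (P.S × Stp F Fˣ)) (ka kb : List (P.S × F)) (ta tb : Fin P.nT → Fˣ),
      (LD.hd (D := P.toRD) l₁ l₂ l₃ l₄ ka kb ta tb).Valid ∧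
      AdmL P.toRD s.w (l₁ ++ l₂ ++ l₃ ++ l₄) ∧
      (LD.hd (D := P.toRD) l₁ l₂ l₃ l₄ ka kb ta tb).letter (P := P.toPG0) t s = Lt.hd a b := by
  have hx₀ := B7.val_mem s hs
  obtain ⟨c₁, w₁, z₁, hr₁, hw₁, hg₁⟩ := B5.bruhat_gal
    (mul_mem (mul_mem (inv_mem hx₀) (mul_mem (mul_mem (inv_mem ha) (inv_mem hb)) ha)) hx₀)
  obtain ⟨l₁, hl₁, adm₁, val₁⟩ := B5.conv s hs c₁
  have hs₃ := B2.run_good s l₁ hs adm₁
  have hx₃ := B7.val_mem _ hs₃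
  obtain ⟨c₂, w₂, ta, hr₂, hw₂, hg₂⟩ := B5.bruhat_gal (mul_mem (mul_mem (inv_mem hx₃) ha) hx₃)
  obtain ⟨l₂, hl₂, adm₂, val₂⟩ := B5.conv (s.run l₁) hs₃ c₂
  have hs₂ := B2.run_good (s.run l₁) l₂ hs₃ adm₂
  obtain ⟨l₃, ka, pair₁, adm₃, fr₁⟩ := frame ((s.run l₁).run l₂) hs₂ (wrd l₁) (by rw [hl₁]; exact hr₁)
    w₂ hw₂ ta (s.run l₁).val
  have hs₁ := B2.run_good ((s.run l₁).run l₂) l₃ hs₂ adm₃
  have hka : kel P.toPG0 ka ∈ P.U F := B3.kel_mem ka (A3.red_suffix P.toRD pair₁.2.2.1)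
  obtain ⟨u₁, hu₁, e₁⟩ := B6.fr_right (wrd l₁) (wrd l₃) pair₁.2.1 pair₁.1 ka hka ta
    (((s.run l₁).run l₂).run l₃).val s.val c₁ hl₁.symm
  rw [← val₁, ← fr₁] at e₁
  -- the unipotent factor for `b`
  have hu₃ : P.h F (P.th (wrd l₁) (wrd l₃) ta) * u₁ * (P.h F (P.th (wrd l₁) (wrd l₃) ta))⁻¹ *
      (P.h F (P.th (wrd l₁) (wrd l₃) ta * z₁⁻¹) * w₁⁻¹ * (P.h F (P.th (wrd l₁) (wrd l₃) ta * z₁⁻¹))⁻¹) *
      (P.h F (P.th (wrd l₁) (wrd l₃) ta * z₁⁻¹ * ta⁻¹) * w₂⁻¹ *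
        (P.h F (P.th (wrd l₁) (wrd l₃) ta * z₁⁻¹ * ta⁻¹))⁻¹) ∈ P.U F :=
    mul_mem (mul_mem (P.h_U F _ _ hu₁) (P.h_U F _ _ (inv_mem hw₁))) (P.h_U F _ _ (inv_mem hw₂))
  obtain ⟨l₄, kb, pair₂, adm₄, fr₂⟩ := frame (((s.run l₁).run l₂).run l₃) hs₁ (wrd l₂)
    (by rw [hl₂]; exact hr₂) _ hu₃ (P.th (wrd l₁) (wrd l₃) ta * z₁⁻¹ * ta⁻¹) ((s.run l₁).run l₂).val
  refine ⟨l₁, l₂, l₃, l₄, ka, kb, ta, P.th (wrd l₁) (wrd l₃) ta * z₁⁻¹ * ta⁻¹, ⟨pair₁, pair₂⟩, ?_, ?_⟩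
  · rw [B2.admL_append, B2.admL_append, B2.admL_append]
    rw [← B2.run_w s l₁, ← B2.run_w s (l₁ ++ l₂), ← B2.run_w s (l₁ ++ l₂ ++ l₃),
      B2.run_append s (l₁ ++ l₂) l₃, B2.run_append s l₁ l₂]
    exact ⟨⟨⟨adm₁, adm₂⟩, adm₃⟩, adm₄⟩
  · have hA : ((s.run l₁).run l₂).val * (w₂ * P.h F ta) * ((s.run l₁).val)⁻¹ = a := by
      rw [val₂]
      calc (s.run l₁).val * gal P.toPG0 c₂ * (w₂ * P.h F ta) * ((s.run l₁).val)⁻¹ =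
          (s.run l₁).val * (gal P.toPG0 c₂ * (w₂ * P.h F ta)) * ((s.run l₁).val)⁻¹ := by group
        _ = _ := by rw [← hg₂]; group
    show Lt.hd (fr (P := P.toPG0) (s.run (l₁ ++ l₂ ++ l₃)).val ka (wrd l₃) ta (s.run l₁).val)
      (fr (P := P.toPG0) (s.run (l₁ ++ l₂ ++ l₃ ++ l₄)).val kb (wrd l₄)
        (P.th (wrd l₁) (wrd l₃) ta * z₁⁻¹ * ta⁻¹) (s.run (l₁ ++ l₂)).val) = Lt.hd a b
    rw [B2.run_append s (l₁ ++ l₂ ++ l₃) l₄, B2.run_append s (l₁ ++ l₂) l₃, B2.run_append s l₁ l₂, ← fr₁, ← fr₂]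
    rw [hA] at e₁ ⊢
    congr 1
    simp only [map_mul, map_inv]
    rw [val₁] at hA
    exact b9_calc _ _ _ _ _ _ _ _ _ _ _ _ hg₁ e₁ hA

/-- [CHV-B9b] Proof: induction on `l` (generalizing `g`, `j`), with `exists_pt`, `exists_hd` for the
good state `proc d` (`B4.proc_good`, `B4.proc_w`). -/
theorem exists_lets (t : ℕ → Fin P.nT → Fˣ) (g j : ℕ) (l : List (Lt P.m F))
    (hl : LOK t g j l) :
    ∃ d : List (LD P.toRD F Fˣ), DOK g j d ∧ d.length = l.length ∧ (∀ x ∈ d, x.Valid) ∧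
      AdmD P.toRD d ∧ lets (P := P.toPG0) t d = l := by
  induction l generalizing g j with
  | nil =>
    refine ⟨[], ?_, rfl, fun x hx => absurd hx List.not_mem_nil, trivial, rfl⟩
    cases g <;> trivial
  | cons x l ih =>
    cases x with
    | pt A =>
      cases g with
      | zero =>
        obtain ⟨hA, hl'⟩ : HasClass P.toPG0 (t j) A ∧ LOK t 0 (j + 1) l := hl
        obtain ⟨d, h1, h2, h3, h4, h5⟩ := ih 0 (j + 1) hl'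
        obtain ⟨l₁, l₂, k, hv, hadm, hlet⟩ := exists_pt t (proc (P := P.toPG0) d) (B4.proc_good d h4) j A hA
        refine ⟨LD.pt j l₁ l₂ k :: d, ⟨rfl, h1⟩, ?_, ?_, ⟨?_, h4⟩, ?_⟩
        · rw [List.length_cons, List.length_cons, h2]
        · intro x hx
          rcases List.mem_cons.1 hx with h6 | h6
          · rw [h6]
            exact hv
          · exact h3 x h6
        · rw [← B4.proc_w]
          exact hadm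
        · show (LD.pt j l₁ l₂ k).letter (P := P.toPG0) t (proc (P := P.toPG0) d) :: lets (P := P.toPG0) t d = _
          rw [hlet, h5]
      | succ g => exact absurd hl (fun h => h)
    | hd a b =>
      cases g with
      | zero => exact absurd hl (fun h => h)
      | succ g =>
        obtain ⟨ha, hb, hl'⟩ : a ∈ P.G F ∧ b ∈ P.G F ∧ LOK t g j l := hl
        obtain ⟨d, h1, h2, h3, h4, h5⟩ := ih g j hl'
        obtain ⟨l₁, l₂, l₃, l₄, ka, kb, ta, tb, hv, hadm, hlet⟩ :=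
          exists_hd t (proc (P := P.toPG0) d) (B4.proc_good d h4) a b ha hb
        refine ⟨LD.hd l₁ l₂ l₃ l₄ ka kb ta tb :: d, h1, ?_, ?_, ⟨?_, h4⟩, ?_⟩
        · rw [List.length_cons, List.length_cons, h2]
        · intro x hx
          rcases List.mem_cons.1 hx with h6 | h6
          · rw [h6]
            exact hv
          · exact h3 x h6
        · rw [← B4.proc_w]
          exact hadm
        · show (LD.hd l₁ l₂ l₃ l₄ ka kb ta tb).letter (P := P.toPG0) t (proc (P := P.toPG0) d) ::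
            lets (P := P.toPG0) t d = _
          rw [hlet, h5]

end Pool.Agent.CHV.B9
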