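import Pool.Agent.CHV.B5
import Pool.Agent.CHV.B7

/-! # CHV, row B9a: every puncture has data -/

set_option autoImplicit false

namespace Pool.Agent.CHV.B9

open Matrix

variable {P : PG} {F : Type} [Field F] [IsAlgClosed F] [CharZero F]

/-- [CHV-B9a] The basic step. Let `x₂ = s.val` (the state of the left side of the pair) and let
`u * h(z)` be in `B`. For the reversed word `v₂ = v₁.reverse` of a reduced word `v₁`:
`u * dot v₂ = gal c * κ` (`B3.decomp`); `v₂ ++ w₂` reduced and full for some `w₂`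
(`A3.red_reverse`, `A4.exists_full`); `dot v₂ * κ * (dot v₂)⁻¹ = (kel c)⁻¹ * u ∈ U`, so
`κ = kel k` with `wrd k = w₂` (`B3.kel_surj`). With `l₂` from `B5.conv` for `c`,
`x₂ * (u * h z) * f⁻¹ = x₂ * gal c * κ * (dot v₂)⁻¹ * h z * f⁻¹ = fr (s.run l₂).val k v₂ z f`. -/
theorem frame (s : St P.toPG0 F) (hs : s.Good) (v₁ : List P.S) (hv : P.Red v₁)
    (u : GL (Fin P.m) F) (hu : u ∈ P.U F) (z : Fin P.nT → Fˣ) (f : GL (Fin P.m) F) :
    ∃ (l₂ : List (P.S × Stp F Fˣ)) (k : List (P.S × F)),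
      Pair P.toRD v₁ (wrd l₂) k ∧ AdmL P.toRD s.w l₂ ∧
      s.val * (u * P.h F z) * f⁻¹ = fr (P := P.toPG0) (s.run l₂).val k (wrd l₂) z f := by
  obtain ⟨c, κ, hc, hκ, h1⟩ := B3.decomp v₁.reverse u hu
  have hr2 := A3.red_reverse P.toRD hv
  obtain ⟨w₂, h3, h4⟩ := A4.exists_full P.toRD hr2
  have hkc : kel P.toPG0 c ∈ P.U F := B3.kel_mem c (by rw [hc]; exact hr2)
  have h5 : P.dot F v₁.reverse * κ * (P.dot F v₁.reverse)⁻¹ ∈ P.U F := by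
    have h6 := mul_mem (inv_mem hkc) hu
    have h7 : kel P.toPG0 c = gal P.toPG0 c * (P.dot F v₁.reverse)⁻¹ := by rw [← hc]; rfl
    rw [h7] at h6
    convert h6 using 1
    calc P.dot F v₁.reverse * κ * (P.dot F v₁.reverse)⁻¹ =
        P.dot F v₁.reverse * (gal P.toPG0 c)⁻¹ * (gal P.toPG0 c * κ) * (P.dot F v₁.reverse)⁻¹ := by group
      _ = _ := by rw [← h1]; group
  obtain ⟨k, hk, hk'⟩ := B3.kel_surj v₁.reverse w₂ h3 h4 κ hκ h5
  obtain ⟨l₂, hl₂, hadm, hval⟩ := B5.conv s hs c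
  have hw : wrd l₂ = v₁.reverse := hl₂.trans hc
  refine ⟨l₂, k, ⟨hv, hw, ?_, ?_⟩, hadm, ?_⟩
  · rw [hw, hk]
    exact h3
  · rw [hw, hk]
    exact h4
  · unfold fr
    rw [hw, hval, ← hk']
    calc s.val * (u * P.h F z) * f⁻¹ =
        s.val * (u * P.dot F v₁.reverse) * (P.dot F v₁.reverse)⁻¹ * P.h F z * f⁻¹ := by group
      _ = _ := by rw [h1]; group

/-- [CHV-B9a] Puncture. Proof: `A = f * (u * h(t j)) * f⁻¹`. `B5.bruhat_gal` for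
`s.val⁻¹ * f ∈ G` (`B7.val_mem`): `f = s.val * gal c₁ * b`, `b = u₁ * h z`. With `l₁` from
`B5.conv`, `f₁ = (s.run l₁).val = s.val * gal c₁`, and `A = f₁ * (b * (u * h(t j)) * b⁻¹) * f₁⁻¹`
where `b * (u * h(t j)) * b⁻¹ = u₂ * h(t j)` with `u₂ ∈ U` (the torus is commutative and normalises
`U`). Then `frame` for the state `s.run l₁`, with `f = f₁` and `z = t j`. -/
theorem exists_pt (t : ℕ → Fin P.nT → Fˣ) (s : St P.toPG0 F) (hs : s.Good) (j : ℕ)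
    (A : GL (Fin P.m) F) (hA : HasClass P.toPG0 (t j) A) :
    ∃ (l₁ l₂ : List (P.S × Stp F Fˣ)) (k : List (P.S × F)),
      (LD.pt (D := P.toRD) j l₁ l₂ k).Valid ∧ AdmL P.toRD s.w (l₁ ++ l₂) ∧
      (LD.pt (D := P.toRD) j l₁ l₂ k).letter (P := P.toPG0) t s = Lt.pt A := by
  obtain ⟨f, hf, u, hu, hA⟩ := hA
  obtain ⟨c₁, u₁, z, hr, hu₁, hg⟩ := B5.bruhat_gal (mul_mem (inv_mem (B7.val_mem s hs)) hf)
  obtain ⟨l₁, hl₁, hadm₁, hval₁⟩ := B5.conv s hs c₁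
  have hcomm : P.h F z * P.h F (t j) = P.h F (t j) * P.h F z := by
    rw [← map_mul, ← map_mul, mul_comm]
  have hu₂ : u₁ * (P.h F z * u * (P.h F z)⁻¹) * (P.h F (t j) * u₁⁻¹ * (P.h F (t j))⁻¹) ∈ P.U F :=
    mul_mem (mul_mem hu₁ (P.h_U F z u hu)) (P.h_U F (t j) _ (inv_mem hu₁))
  obtain ⟨l₂, k, hpair, hadm₂, hfr⟩ := frame (s.run l₁) (B2.run_good s l₁ hs hadm₁) (wrd l₁)
    (by rw [hl₁]; exact hr) _ hu₂ (t j) (s.run l₁).val
  refine ⟨l₁, l₂, k, hpair, ?_, ?_⟩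
  · rw [B2.admL_append]
    refine ⟨hadm₁, ?_⟩
    rw [← B2.run_w]
    exact hadm₂
  · show Lt.pt (fr (P := P.toPG0) (s.run (l₁ ++ l₂)).val k (wrd l₂) (t j) (s.run l₁).val) = Lt.pt A
    congr 1
    rw [B2.run_append, ← hfr, hval₁, hA]
    have hf' : f = s.val * (gal P.toPG0 c₁ * (u₁ * P.h F z)) := by
      rw [← hg]
      group
    rw [hf']
    generalize P.h F z = Z at hcomm ⊢
    generalize P.h F (t j) = T at hcomm ⊢
    have hcomm' : Z * T * Z⁻¹ = T := by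
      rw [hcomm]
      group
    calc s.val * gal P.toPG0 c₁ * (u₁ * (Z * u * Z⁻¹) * (T * u₁⁻¹ * T⁻¹) * T) * (s.val * gal P.toPG0 c₁)⁻¹ =
        s.val * gal P.toPG0 c₁ * (u₁ * (Z * u * Z⁻¹) * (T * u₁⁻¹)) * (s.val * gal P.toPG0 c₁)⁻¹ := by group
      _ = s.val * gal P.toPG0 c₁ * (u₁ * (Z * u * Z⁻¹) * ((Z * T * Z⁻¹) * u₁⁻¹)) * (s.val * gal P.toPG0 c₁)⁻¹ := by
        rw [hcomm']
      _ = _ := by group

end Pool.Agent.CHV.B9
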