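import Mathlib

/-!
# MP_3f0e22_ag, Chevalley groups: definitions

Pinned split reductive groups over `ℤ` and the relative representation spaces of the fundamental
groups of affine curves.
-/

set_option autoImplicit false

namespace Pool.Agent.CHV

open Matrix

/-! ### Coroot data -/

/-- Coroot data: the cocharacter lattice is `ℤ^nT`, with the dot product as the pairing with the
character lattice. -/
structure RD where
  /-- the rank of the maximal torus -/
  nT : ℕ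
  /-- the index set of the simple coroots -/
  S : Type
  S_fin : Finite S
  /-- the coroots -/
  co : Set (Fin nT → ℤ)
  co_fin : co.Finite
  /-- the root of a coroot -/
  rt : (Fin nT → ℤ) → (Fin nT → ℤ)
  /-- the simple coroots -/
  al : S → (Fin nT → ℤ)
  /-- a linear form which defines the positive coroots -/
  ht : Fin nT → ℤ
  rt_self : ∀ v ∈ co, rt v ⬝ᵥ v = 2
  refl_mem : ∀ v ∈ co, ∀ w ∈ co, w - (rt v ⬝ᵥ w) • v ∈ co
  rt_refl : ∀ v ∈ co, ∀ w ∈ co, rt (w - (rt v ⬝ᵥ w) • v) = rt w - (rt w ⬝ᵥ v) • rt v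
  ht_ne : ∀ v ∈ co, ht ⬝ᵥ v ≠ 0
  al_mem : ∀ i, al i ∈ co
  al_pos : ∀ i, 0 < ht ⬝ᵥ al i
  al_refl : ∀ i, ∀ v ∈ co, 0 < ht ⬝ᵥ v → v ≠ al i →
    0 < ht ⬝ᵥ (v - (rt (al i) ⬝ᵥ v) • al i)
  cone : ∀ v ∈ co, 0 < ht ⬝ᵥ v → v ∈ AddSubmonoid.closure (Set.range al)

/-- The simple reflection `y ↦ y - ⟨a_i, y⟩ α_i` of the cocharacters. -/
def RD.rf (D : RD) (i : D.S) (y : Fin D.nT → ℤ) : Fin D.nT → ℤ := y - (D.rt (D.al i) ⬝ᵥ y) • D.al i

/-- The action of a word in the simple reflections on the cocharacters. -/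
def RD.wa (D : RD) (w : List D.S) (y : Fin D.nT → ℤ) : Fin D.nT → ℤ := w.foldr D.rf y

section cochar

variable {R : Type} [CommRing R] {n : ℕ}

/-- The value at `c` of the cocharacter `y`. -/
def cochar (y : Fin n → ℤ) (c : Rˣ) : Fin n → Rˣ := fun j => c ^ y j

/-- The value at `z` of the character `a`. -/
def char (a : Fin n → ℤ) (z : Fin n → Rˣ) : Rˣ := ∏ j, z j ^ a j

/-- Change of rings for the points of the torus. -/
def tmap {R' : Type} [CommRing R'] (f : R →+* R') (z : Fin n → Rˣ) : Fin n → R'ˣ :=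
  fun j => Units.map (f : R →* R') (z j)

end cochar

/-! ### Pinned groups -/

section

variable {m : ℕ} {R : Type} [CommRing R]

/-- Change of rings for matrices. -/
noncomputable def gmap {R' : Type} [CommRing R'] (f : R →+* R') (g : GL (Fin m) R) :
    GL (Fin m) R' := Matrix.GeneralLinearGroup.map f g

/-- Conjugation `g u g⁻¹`. -/
def cnj (g u : GL (Fin m) R) : GL (Fin m) R := g * u * g⁻¹

end

/-- The underlying data of a pinned closed subgroup of `GL_m` over `ℤ`. -/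
structure PG0 extends RD where
  /-- the size of the matrices -/
  m : ℕ
  /-- the points of the group -/
  G : ∀ (R : Type) [CommRing R], Subgroup (GL (Fin m) R)
  /-- the points of the unipotent radical of the Borel subgroup -/
  U : ∀ (R : Type) [CommRing R], Subgroup (GL (Fin m) R)
  /-- the maximal torus -/
  h : ∀ (R : Type) [CommRing R], (Fin nT → Rˣ) →* GL (Fin m) R
  /-- the simple root subgroups -/
  x : ∀ (R : Type) [CommRing R], S → R → GL (Fin m) R
  /-- the simple coordinates of the elements of `U` -/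
  e : ∀ (R : Type) [CommRing R], S → GL (Fin m) R → R
  /-- representatives of the simple reflections -/
  s : S → GL (Fin m) ℤ

section

variable (P : PG0) (R : Type) [CommRing R]

/-- The element `h z` of the torus. -/
def PG0.to (z : Fin P.nT → Rˣ) : GL (Fin P.m) R := P.h R z

/-- The matrix over `R` of the representative of a simple reflection. -/
noncomputable def PG0.sd (i : P.S) : GL (Fin P.m) R :=
  Matrix.GeneralLinearGroup.map (Int.castRingHom R) (P.s i)

/-- The product of the representatives of the letters of a word. -/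
noncomputable def PG0.dot (w : List P.S) : GL (Fin P.m) R := (w.map (P.sd R)).prod

end

section

variable (P : PG0)

/-- `H` is a closed subscheme of `GL_m`, defined over `ℤ`. -/
def PG0.IsClosed (H : ∀ (R : Type) [CommRing R], Subgroup (GL (Fin P.m) R)) : Prop :=
  ∃ I : Set (MvPolynomial (Fin P.m × Fin P.m) ℤ), ∀ (R : Type) [CommRing R]
    (g : GL (Fin P.m) R), g ∈ H R ↔ ∀ p ∈ I, MvPolynomial.aeval (fun y => g.1 y.1 y.2) p = 0

/-- `h` is a torus in `G` over `ℤ`, it normalises `U`, and `h ∩ U = 1`. -/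
def PG0.TorusAx : Prop :=
  (∀ (R R' : Type) [CommRing R] [CommRing R'] (f : R →+* R') (z : Fin P.nT → Rˣ),
    gmap f (P.to R z) = P.to R' (tmap f z)) ∧
  ∀ (R : Type) [CommRing R] (z : Fin P.nT → Rˣ), P.to R z ∈ P.G R ∧
    (∀ u ∈ P.U R, cnj (P.to R z) u ∈ P.U R) ∧ (P.to R z ∈ P.U R → z = 1)

/-- The `x_i` are additive groups over `ℤ`. -/
def PG0.RootAx : Prop :=
  (∀ (R R' : Type) [CommRing R] [CommRing R'] (f : R →+* R') (i : P.S) (c : R),
    gmap f (P.x R i c) = P.x R' i (f c)) ∧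
  ∀ (R : Type) [CommRing R] (i : P.S) (c c' : R), P.x R i (c + c') = P.x R i c * P.x R i c'

/-- The `e_i` are homomorphisms from `U` to the additive group over `ℤ`, `e_i (x_i c) = c`. -/
def PG0.CoordAx : Prop :=
  (∀ (R R' : Type) [CommRing R] [CommRing R'] (f : R →+* R') (i : P.S), ∀ u ∈ P.U R,
    P.e R' i (gmap f u) = f (P.e R i u)) ∧
  ∀ (R : Type) [CommRing R] (i : P.S),
    (∀ u ∈ P.U R, ∀ u' ∈ P.U R, P.e R i (u * u') = P.e R i u + P.e R i u') ∧
    ∀ c : R, P.e R i (P.x R i c) = c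

/-- `s_i ∈ G(ℤ)`, `s_i² = α_i(-1)`, `s_i z s_i⁻¹ = z α_i(a_i(z))⁻¹` for `z` in the torus. -/
def PG0.ReflAx : Prop :=
  (∀ i, P.s i ∈ P.G ℤ ∧ P.s i * P.s i = P.to ℤ (cochar (P.al i) (-1))) ∧
  ∀ (R : Type) [CommRing R] (i : P.S) (z : Fin P.nT → Rˣ),
    cnj (P.sd R i) (P.to R z) = P.to R (z * (cochar (P.al i) (char (P.rt (P.al i)) z))⁻¹)

/-- `s_i⁻¹ ker(e_i) s_i ⊂ U`, and the relation
`x_i(c) s_i = s_i x_i(-1/c) s_i α_i(-c) x_i(-1/c)` of `SL_2`. -/
def PG0.RankOneAx : Prop :=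
  (∀ (R : Type) [CommRing R] (i : P.S), ∀ u ∈ P.U R, P.e R i u = 0 →
    cnj (P.sd R i)⁻¹ u ∈ P.U R) ∧
  ∀ (R : Type) [CommRing R] (i : P.S) (c : Rˣ),
    P.x R i c * P.sd R i = P.sd R i * P.x R i (-(c⁻¹ : Rˣ)) * P.sd R i *
      P.to R (cochar (P.al i) (-c)) * P.x R i (-(c⁻¹ : Rˣ))

/-- `w x_i w⁻¹ ⊂ U` if the coroot `w α_i` is positive. -/
def PG0.PosAx : Prop := ∀ (R : Type) [CommRing R] (w : List P.S) (i : P.S) (c : R),
  0 < P.ht ⬝ᵥ P.wa w (P.al i) → cnj (P.dot R w) (P.x R i c) ∈ P.U R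

/-- The words `w` which act trivially on the cocharacters represent elements of the torus;
`U ∩ w₀⁻¹ U w₀ = 1` for the words `w₀` of the longest element. -/
def PG0.WeylAx : Prop :=
  (∀ w : List P.S, (∀ y, P.wa w y = y) → ∃ ε : Fin P.nT → ℤˣ, P.dot ℤ w = P.to ℤ ε) ∧
  ∀ (R : Type) [CommRing R] (w : List P.S),
    (∀ v ∈ P.co, 0 < P.ht ⬝ᵥ v → P.ht ⬝ᵥ P.wa w v < 0) → ∀ u ∈ P.U R,
      cnj (P.dot R w) u ∈ P.U R → u = 1

/-- The generators: `U(F)`, the torus and the `s_i`. -/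
def PG0.gens (F : Type) [CommRing F] : Set (GL (Fin P.m) F) :=
  {g | g ∈ P.U F ∨ (∃ z, g = P.to F z) ∨ ∃ i, g = P.sd F i}

/-- `U ⊂ G`, and `G(F)` is generated by `U(F)`, the torus and the `s_i`, for algebraically closed
fields `F` of characteristic zero. -/
def PG0.GenAx : Prop :=
  (∀ (R : Type) [CommRing R], P.U R ≤ P.G R) ∧
  ∀ (F : Type) [Field F] [IsAlgClosed F] [CharZero F], P.G F = Subgroup.closure (P.gens F)

/-- Pinned closed subgroups of `GL_m` over `ℤ`: the properties of the split reductive group schemes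
(Chevalley groups) over `ℤ` which are used. -/
def PG0.Pinned : Prop :=
  P.IsClosed (fun R _ => P.G R) ∧ P.IsClosed (fun R _ => P.U R) ∧ P.TorusAx ∧ P.RootAx ∧
    P.CoordAx ∧ P.ReflAx ∧ P.RankOneAx ∧ P.PosAx ∧ P.WeylAx ∧ P.GenAx

end

/-! ### Representations -/

/-- The matrix `A` has the class `t`: it is conjugate to an element of `U t`. -/
def HasClass (P : PG0) {R : Type} [CommRing R] (t : Fin P.nT → Rˣ) (A : GL (Fin P.m) R) : Prop :=
  ∃ f ∈ P.G R, ∃ u ∈ P.U R, A = f * (u * P.h R t) * f⁻¹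

/-- `Hom(π₁(Y), G)`, where `Y` has genus `g` and `n` punctures. -/
def Rep {G : Type} [Group G] (g n : ℕ) : Set ((Fin g → G) × (Fin g → G) × (Fin n → G)) :=
  {ρ | (List.ofFn fun j => ρ.1 j * ρ.2.1 j * (ρ.1 j)⁻¹ * (ρ.2.1 j)⁻¹).prod *
    (List.ofFn ρ.2.2).prod = 1}

/-- The representations of `π₁(Y)` in `G(R)` such that the loop `c_i` has the class `t i`. -/
def RelRep (P : PG0) {R : Type} [CommRing R] (g n : ℕ) (t : Fin n → Fin P.nT → Rˣ) :
    Set ((Fin g → GL (Fin P.m) R) × (Fin g → GL (Fin P.m) R) × (Fin n → GL (Fin P.m) R)) :=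
  {ρ | ρ ∈ Rep g n ∧ (∀ j, ρ.1 j ∈ P.G R) ∧ (∀ j, ρ.2.1 j ∈ P.G R) ∧
    ∀ i, HasClass P (t i) (ρ.2.2 i)}

/-- The matrix entries of a tuple. -/
def coords {R : Type} [CommRing R] {g n m : ℕ}
    (ρ : (Fin g → GL (Fin m) R) × (Fin g → GL (Fin m) R) × (Fin n → GL (Fin m) R)) :
    (Fin g ⊕ Fin g ⊕ Fin n) × Fin m × Fin m → R
  | (Sum.inl j, x) => (ρ.1 j).1 x.1 x.2
  | (Sum.inr (Sum.inl j), x) => (ρ.2.1 j).1 x.1 x.2
  | (Sum.inr (Sum.inr i), x) => (ρ.2.2 i).1 x.1 x.2

/-- The points of `RelRep` over `B` are Zariski-dense in its points over the field `W`: a polynomial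
over `W` in the matrix entries which vanishes at all the former vanishes at all the latter. The
classes `t` are defined over `A`. -/
def RelDense (P : PG0) {A B W : Type} [CommRing A] [CommRing B] [Field W] (f : A →+* B)
    (ι : B →+* W) (g n : ℕ) (t : Fin n → Fin P.nT → Aˣ) : Prop :=
  ∀ F : MvPolynomial ((Fin g ⊕ Fin g ⊕ Fin n) × Fin P.m × Fin P.m) W,
    (∀ ρ ∈ RelRep P g n (fun i => tmap f (t i)),
      MvPolynomial.eval (fun x => ι (coords ρ x)) F = 0) →
    ∀ ρ ∈ RelRep P g n (fun i => tmap (ι.comp f) (t i)), MvPolynomial.eval (coords ρ) F = 0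

/-! ### Classical groups -/

/-- The coefficients of the bilinear form. -/
def clsg (r k : ℕ) {m : ℕ} (p : Fin m) : ℤ :=
  if k = 1 ∧ r ≤ (p : ℕ) then -1 else if k = 2 ∧ (p : ℕ) = r then 2 else 1

/-- The bilinear form `∑ ± x_p y_{m-1-p}`: for `k = 1` (`m = 2r`) alternating, for `k = 0` (`m = 2r`)
and `k = 2` (`m = 2r+1`) the polar form of the quadratic form `clQ`. -/
def clB (r k : ℕ) {m : ℕ} {R : Type} [CommRing R] (x y : Fin m → R) : R :=
  ∑ p : Fin m, (clsg r k p : R) * x p * y p.rev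

/-- The quadratic form `∑_{p < r} x_p x_{m-1-p}` (`+ x_r ^ 2` for `k = 2`). -/
def clQ (r k : ℕ) {m : ℕ} {R : Type} [CommRing R] (x : Fin m → R) : R :=
  ∑ p : Fin m, if (p : ℕ) < r ∨ (k = 2 ∧ (p : ℕ) = r) then x p * x p.rev else 0

/-- The classical group: `Sp_2r` for `k = 1`, `m = 2r`; `SO_{2r+1}` for `k = 2`, `m = 2r+1`; `SO_2r`
for `k = 0`, `m = 2r`. -/
def clG (r k m : ℕ) (R : Type) [CommRing R] : Set (GL (Fin m) R) :=
  {g | (∀ x y, clB r k (g.1 *ᵥ x) (g.1 *ᵥ y) = clB r k x y) ∧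
    (k ≠ 1 → (∀ x, clQ r k (g.1 *ᵥ x) = clQ r k x) ∧ g.1.det = 1)}

/-- The class `t` of `A` is the characteristic polynomial `∏ (X - t_l) (X - t_l⁻¹)`. -/
def ClassIsCharpoly (P : PG0) : Prop :=
  ∀ (F : Type) [Field F] [IsAlgClosed F] [CharZero F] (t : Fin P.nT → Fˣ) (A : GL (Fin P.m) F),
    HasClass P t A ↔ A ∈ P.G F ∧ A.1.charpoly = ∏ l, ((Polynomial.X - Polynomial.C (t l : F)) *
      (Polynomial.X - Polynomial.C (((t l)⁻¹ : Fˣ) : F)))

end Pool.Agent.CHV
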