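import Pool.Agent.CHV.Defs

/-! # CHV, row C1a: density -/

set_option autoImplicit false

namespace Pool.Agent.CHV.C1

open Matrix

/-- [CHV-C1a] Natural functions on `A^J × G_m^A`. Proof: let `S = MvPolynomial (Fin J ⊕ Fin A) Ω`,
`R = Localization.Away (∏ i, X (inr i))`; apply `hΨ` to the evaluations `R →ₐ[Ω] Ω` at the points
`(c, z)` and to the universal point. `Ψ R univ = f / (∏ X)^k`, `f ∈ S` vanishes at the points with
`c j ∈ C₀`, `z i ∈ M`, so `f = 0` (`MvPolynomial.funext_set` or an induction on the number of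
variables: a nonzero polynomial does not vanish on a product of infinite sets). -/
theorem dens {Ω : Type} [Field Ω] (J A : ℕ) (C₀ : Set Ω) (hC : C₀.Infinite) (M : Set Ωˣ)
    (hM : M.Infinite)
    (Ψ : ∀ (R : Type) [CommRing R] [Algebra Ω R], (Fin J → R) → (Fin A → Rˣ) → R)
    (hΨ : ∀ (R R' : Type) [CommRing R] [Algebra Ω R] [CommRing R'] [Algebra Ω R']
      (φ : R →ₐ[Ω] R') (c : Fin J → R) (z : Fin A → Rˣ),
      φ (Ψ R c z) = Ψ R' (fun j => φ (c j)) (fun i => Units.map ((φ : R →+* R') : R →* R') (z i)))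
    (h : ∀ c z, (∀ j, c j ∈ C₀) → (∀ i, z i ∈ M) → Ψ Ω c z = 0) :
    ∀ c z, Ψ Ω c z = 0 := by
  classical
  set q : MvPolynomial (Fin J ⊕ Fin A) Ω := ∏ i : Fin A, MvPolynomial.X (Sum.inr i) with hq
  let R := Localization.Away q
  -- the universal point
  have hqu : IsUnit (algebraMap (MvPolynomial (Fin J ⊕ Fin A) Ω) R q) :=
    IsLocalization.Away.algebraMap_isUnit q
  have hxu : ∀ i : Fin A, IsUnit (algebraMap (MvPolynomial (Fin J ⊕ Fin A) Ω) R
      (MvPolynomial.X (Sum.inr i))) := by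
    intro i
    refine isUnit_of_dvd_unit ?_ hqu
    exact map_dvd _ (Finset.dvd_prod_of_mem _ (Finset.mem_univ i))
  let cU : Fin J → R := fun j => algebraMap (MvPolynomial (Fin J ⊕ Fin A) Ω) R
      (MvPolynomial.X (Sum.inl j))
  let zU : Fin A → Rˣ := fun i => (hxu i).unit
  obtain ⟨⟨f, t⟩, hft⟩ := IsLocalization.surj (Submonoid.powers q) (Ψ R cU zU)
  simp only at hft
  -- the evaluations
  have key : ∀ (c : Fin J → Ω) (z : Fin A → Ωˣ),
      Ψ Ω c z * MvPolynomial.aeval (Sum.elim c (fun i => ((z i : Ωˣ) : Ω))) (t : MvPolynomial (Fin J ⊕ Fin A) Ω)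
        = MvPolynomial.aeval (Sum.elim c (fun i => ((z i : Ωˣ) : Ω))) f ∧
      MvPolynomial.aeval (Sum.elim c (fun i => ((z i : Ωˣ) : Ω))) (t : MvPolynomial (Fin J ⊕ Fin A) Ω) ≠ 0 := by
    intro c z
    set ev : MvPolynomial (Fin J ⊕ Fin A) Ω →ₐ[Ω] Ω :=
      MvPolynomial.aeval (Sum.elim c (fun i => ((z i : Ωˣ) : Ω))) with hev
    have hevq : ev q ≠ 0 := by
      rw [hq, map_prod]
      refine Finset.prod_ne_zero_iff.2 fun i _ => ?_
      rw [hev, MvPolynomial.aeval_X, Sum.elim_inr]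
      exact (z i).ne_zero
    have hun : ∀ y : Submonoid.powers q, IsUnit (ev y) := by
      rintro ⟨_, n, rfl⟩
      simp only [map_pow]
      exact (isUnit_iff_ne_zero.2 hevq).pow n
    let φ : R →ₐ[Ω] Ω := IsLocalization.liftAlgHom (M := Submonoid.powers q) (f := ev) hun
    have hφ : ∀ s : MvPolynomial (Fin J ⊕ Fin A) Ω,
        φ (algebraMap (MvPolynomial (Fin J ⊕ Fin A) Ω) R s) = ev s := by
      intro s
      exact IsLocalization.lift_eq (M := Submonoid.powers q) (g := (ev : MvPolynomial (Fin J ⊕ Fin A) Ω →+* Ω)) hun s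
    have h1 := hΨ R Ω φ cU zU
    have h2 : (fun j => φ (cU j)) = c := by
      funext j
      show φ (algebraMap _ R _) = c j
      rw [hφ, hev, MvPolynomial.aeval_X, Sum.elim_inl]
    have h3 : (fun i => Units.map ((φ : R →+* Ω) : R →* Ω) (zU i)) = z := by
      funext i
      ext
      show φ (algebraMap _ R _) = _
      rw [hφ, hev, MvPolynomial.aeval_X, Sum.elim_inr]
    rw [h2, h3] at h1
    have h4 := congrArg φ hft
    rw [map_mul, hφ, hφ, h1] at h4
    exact ⟨h4, (hun t).ne_zero⟩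
  have hf0 : f = 0 := by
    refine MvPolynomial.funext_set (Sum.elim (fun _ => C₀) (fun _ => ((fun u : Ωˣ => (u : Ω)) '' M))) ?_ ?_
    · rintro (j | i)
      · exact hC
      · exact hM.image (fun a _ b _ hab => Units.ext hab)
    · intro x hx
      rw [map_zero]
      have hx2 : ∀ i : Fin A, ∃ u ∈ M, (u : Ω) = x (Sum.inr i) := fun i => hx (Sum.inr i) (Set.mem_univ _)
      choose z hz1 hz2 using hx2
      have h1 := (key (fun j => x (Sum.inl j)) z).1
      rw [h _ _ (fun j => hx (Sum.inl j) (Set.mem_univ _)) hz1, zero_mul] at h1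
      have h2 : Sum.elim (fun j => x (Sum.inl j)) (fun i => ((z i : Ωˣ) : Ω)) = x := by
        funext y
        rcases y with j | i
        · rfl
        · exact hz2 i
      rw [h2] at h1
      rw [← MvPolynomial.coe_aeval_eq_eval]
      exact h1.symm
  intro c z
  obtain ⟨h1, h2⟩ := key c z
  rw [hf0, map_zero] at h1
  exact (mul_eq_zero.1 h1).resolve_right h2

end Pool.Agent.CHV.C1
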