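import Pool.Agent.CHV.Defs

/-! # CHV, row C1b: Cramer -/

set_option autoImplicit false

namespace Pool.Agent.CHV.C1

open Matrix

/-- there is a nonzero minor of size `r` -/
def c1b_P {A n : ℕ} (B : Fin A → Fin n → ℤ) (r : ℕ) : Prop :=
  ∃ (p : Fin r → Fin A) (q : Fin r → Fin n), (Matrix.of fun l j => B (p j) (q l)).det ≠ 0

theorem c1b_inj {A n : ℕ} {B : Fin A → Fin n → ℤ} {r : ℕ} {p : Fin r → Fin A} {q : Fin r → Fin n}
    (h : (Matrix.of fun l j => B (p j) (q l)).det ≠ 0) : Function.Injective p ∧ Function.Injective q := by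
  constructor
  · intro j k hjk
    by_contra hne
    apply h
    refine Matrix.det_zero_of_column_eq hne fun l => ?_
    show B (p j) (q l) = B (p k) (q l)
    rw [hjk]
  · intro j k hjk
    by_contra hne
    apply h
    refine Matrix.det_zero_of_row_eq hne ?_
    funext l
    show B (p l) (q j) = B (p l) (q k)
    rw [hjk]

theorem c1b_max {A n : ℕ} (B : Fin A → Fin n → ℤ) : ∃ r, c1b_P B r ∧ ¬ c1b_P B (r + 1) := by
  by_contra hcon
  push Not at hcon
  have h : ∀ r, c1b_P B r := by
    intro r
    induction r with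
    | zero =>
      refine ⟨Fin.elim0, Fin.elim0, ?_⟩
      rw [Matrix.det_fin_zero]
      exact one_ne_zero
    | succ r ih => exact hcon r ih
  obtain ⟨p, q, hpq⟩ := h (n + 1)
  have h1 := Fintype.card_le_of_injective q (c1b_inj hpq).2
  rw [Fintype.card_fin, Fintype.card_fin] at h1
  omega

/-- [CHV-C1b] Cramer. Proof: choose `r`, `p : Fin r → Fin A`, `q : Fin r → Fin n` with
`D = det (B (p j) (q l))_{l,j} ≠ 0` and `r` maximal (`r ≤ n`). For all `i`, `l`, the bordered
determinant (rows `q`, `l`, columns `p`, `i`) vanishes, i.e. `D * B i l = ∑ j, c i j * B (p j) l` with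
`c i j = ∑ k, adjugate j k * B i (q k)` (expand along the last row and column, or compute with the
Schur complement). `|D| ≤ r! b^r ≤ n! b^n` (`Matrix.det_le` or `Matrix.det_apply`). The last
clause: for `j`, `k`: `∑ l, adj j l * B (p k) (q l) = D * δ_{jk}`. -/
theorem cramer (n A b : ℕ) (hb : 1 ≤ b) (B : Fin A → Fin n → ℤ) (hB : ∀ i l, |B i l| ≤ b) :
    ∃ (r : ℕ) (p : Fin r → Fin A) (D : ℤ) (c : Fin A → Fin r → ℤ) (a : Fin r → Fin n → ℤ),
      Function.Injective p ∧ D ≠ 0 ∧ D.natAbs ≤ n.factorial * b ^ n ∧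
      (∀ i l, D * B i l = ∑ j, c i j * B (p j) l) ∧
      ∀ j k, ∑ l, a j l * B (p k) l = if j = k then D else 0 := by
  classical
  obtain ⟨r, ⟨p, q, hpq⟩, hmax⟩ := c1b_max B
  obtain ⟨M, hM⟩ : ∃ M : Matrix (Fin r) (Fin r) ℤ, M = Matrix.of fun l j => B (p j) (q l) := ⟨_, rfl⟩
  have hMa : ∀ l j, M l j = B (p j) (q l) := fun l j => by rw [hM]; rfl
  rw [← hM] at hpq
  obtain ⟨hpi, hqi⟩ := c1b_inj (by rw [← hM]; exact hpq)
  have hr : r ≤ n := by
    have h1 := Fintype.card_le_of_injective q hqi
    rwa [Fintype.card_fin, Fintype.card_fin] at h1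
  have hadj : ∀ j k, ∑ l, M.adjugate j l * M l k = if j = k then M.det else 0 := by
    intro j k
    have h1 : (M.adjugate * M) j k = (M.det • (1 : Matrix (Fin r) (Fin r) ℤ)) j k := by
      rw [Matrix.adjugate_mul]
    rw [Matrix.mul_apply] at h1
    rw [h1, Matrix.smul_apply, Matrix.one_apply, smul_eq_mul, mul_ite, mul_one, mul_zero]
  refine ⟨r, p, M.det, fun i j => ∑ k, M.adjugate j k * B i (q k),
    fun j l => ∑ k, if q k = l then M.adjugate j k else 0, hpi, hpq, ?_, ?_, ?_⟩
  · have h1 : ∀ l j, (AbsoluteValue.abs : AbsoluteValue ℤ ℤ) (M l j) ≤ (b : ℤ) := fun l j => by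
      rw [hMa]
      exact hB _ _
    have h2 := Matrix.det_le h1
    rw [Fintype.card_fin, nsmul_eq_mul] at h2
    have h3 : |M.det| ≤ (r.factorial : ℤ) * (b : ℤ) ^ r := h2
    have h4 : (M.det.natAbs : ℤ) ≤ ((r.factorial * b ^ r : ℕ) : ℤ) := by
      rw [Int.natCast_natAbs]
      push_cast
      exact h3
    have h5 : M.det.natAbs ≤ r.factorial * b ^ r := by exact_mod_cast h4
    exact h5.trans (Nat.mul_le_mul (Nat.factorial_le hr) (Nat.pow_le_pow_right hb hr))
  · intro i l
    -- the bordered determinant vanishes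
    have h1 : (Matrix.of fun (l' j' : Fin (r + 1)) => B ((Fin.cons i p : Fin (r + 1) → Fin A) j')
        ((Fin.cons l q : Fin (r + 1) → Fin n) l')).det = 0 := by
      by_contra h2
      exact hmax ⟨_, _, h2⟩
    obtain ⟨v, hv0, hv⟩ := Matrix.exists_mulVec_eq_zero_iff.2 h1
    have hrow : ∀ k : Fin (r + 1), B i ((Fin.cons l q : Fin (r + 1) → Fin n) k) * v 0 +
        ∑ j : Fin r, B (p j) ((Fin.cons l q : Fin (r + 1) → Fin n) k) * v j.succ = 0 := by
      intro k
      have h2 := congrFun hv k
      rw [Matrix.mulVec, dotProduct, Fin.sum_univ_succ] at h2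
      exact h2
    have h0 := hrow 0
    have hs : ∀ k : Fin r, B i (q k) * v 0 + ∑ j : Fin r, B (p j) (q k) * v j.succ = 0 := fun k => hrow k.succ
    have h0' : B i l * v 0 + ∑ j : Fin r, B (p j) l * v j.succ = 0 := h0
    -- `D y = - t c`
    have hy : ∀ j, M.det * v j.succ = -(v 0 * ∑ k, M.adjugate j k * B i (q k)) := by
      intro j
      have h2 : ∑ k, M.adjugate j k * (B i (q k) * v 0 + ∑ j' : Fin r, B (p j') (q k) * v j'.succ) = 0 := by
        refine Finset.sum_eq_zero fun k _ => ?_
        rw [hs k, mul_zero]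
      have h3 : ∑ k, M.adjugate j k * ∑ j' : Fin r, B (p j') (q k) * v j'.succ = M.det * v j.succ := by
        have h4 : ∀ k, M.adjugate j k * ∑ j' : Fin r, B (p j') (q k) * v j'.succ =
            ∑ j' : Fin r, M.adjugate j k * M k j' * v j'.succ := by
          intro k
          rw [Finset.mul_sum]
          refine Finset.sum_congr rfl fun j' _ => ?_
          rw [hMa]
          ring
        rw [Finset.sum_congr rfl fun k _ => h4 k, Finset.sum_comm]
        have h5 : ∀ j' : Fin r, ∑ k, M.adjugate j k * M k j' * v j'.succ =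
            (if j = j' then M.det * v j'.succ else 0) := by
          intro j'
          rw [← Finset.sum_mul, hadj]
          split_ifs
          · rfl
          · rw [zero_mul]
        rw [Finset.sum_congr rfl fun j' _ => h5 j', Finset.sum_ite_eq, if_pos (Finset.mem_univ _)]
      have h6 : ∑ k, M.adjugate j k * (B i (q k) * v 0 + ∑ j' : Fin r, B (p j') (q k) * v j'.succ) =
          v 0 * (∑ k, M.adjugate j k * B i (q k)) +
            ∑ k, M.adjugate j k * ∑ j' : Fin r, B (p j') (q k) * v j'.succ := by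
        rw [Finset.mul_sum, ← Finset.sum_add_distrib]
        refine Finset.sum_congr rfl fun k _ => ?_
        ring
      rw [h6, h3] at h2
      linarith
    have ht : v 0 ≠ 0 := by
      intro ht
      apply hv0
      have h2 : ∀ j : Fin r, v j.succ = 0 := by
        intro j
        have h3 := hy j
        rw [ht, zero_mul, neg_zero] at h3
        exact (mul_eq_zero.1 h3).resolve_left hpq
      funext k
      refine Fin.cases ht (fun j => h2 j) k
    apply mul_left_cancel₀ ht
    show v 0 * (M.det * B i l) = v 0 * ∑ j, (∑ k, M.adjugate j k * B i (q k)) * B (p j) l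
    have h7 : M.det * (∑ j : Fin r, B (p j) l * v j.succ) =
        -(v 0 * ∑ j, (∑ k, M.adjugate j k * B i (q k)) * B (p j) l) := by
      rw [Finset.mul_sum, Finset.mul_sum, ← Finset.sum_neg_distrib]
      refine Finset.sum_congr rfl fun j _ => ?_
      linear_combination (B (p j) l) * hy j
    linear_combination M.det * h0' - h7
  · intro j k
    show ∑ l, (∑ k', if q k' = l then M.adjugate j k' else 0) * B (p k) l = _
    have h1 : ∀ l, (∑ k', if q k' = l then M.adjugate j k' else 0) * B (p k) l =
        ∑ k', if q k' = l then M.adjugate j k' * M k' k else 0 := by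
      intro l
      rw [Finset.sum_mul]
      refine Finset.sum_congr rfl fun k' _ => ?_
      split_ifs with h2
      · rw [hMa, h2]
      · rw [zero_mul]
    rw [Finset.sum_congr rfl fun l _ => h1 l, Finset.sum_comm, ← hadj]
    refine Finset.sum_congr rfl fun k' _ => ?_
    rw [Finset.sum_ite_eq, if_pos (Finset.mem_univ _)]

end Pool.Agent.CHV.C1
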