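import Pool.Agent.CHV.B1
import Pool.Agent.CHV.C1a
import Pool.Agent.CHV.C1b

/-! # CHV, row C1c: density of the unit points of a coset -/

set_option autoImplicit false

namespace Pool.Agent.CHV.C1

open Matrix

theorem c1c_split {r A : ℕ} {G : Type} [CommGroup G] {p : Fin r → Fin A}
    (hp : Function.Injective p) (f : Fin A → G) :
    ∏ i, f i = (∏ j, f (p j)) * ∏ i ∈ (Finset.univ.image p)ᶜ, f i := by
  rw [← Finset.prod_mul_prod_compl (Finset.univ.image p) f,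
    Finset.prod_image (fun a _ b _ h => hp h)]

/-- the parametrization of the coset -/
noncomputable def c1c_zeta {r A : ℕ} {G : Type} [CommGroup G] (p : Fin r → Fin A) (D : ℤ)
    (c : Fin A → Fin r → ℤ) (κ : Fin r → G) (y : Fin A → G) : Fin A → G :=
  Function.extend p (fun j => κ j * ∏ i ∈ (Finset.univ.image p)ᶜ, y i ^ (-c i j)) (fun i => y i ^ D)

theorem c1c_zeta_p {r A : ℕ} {G : Type} [CommGroup G] {p : Fin r → Fin A}
    (hp : Function.Injective p) (D : ℤ) (c : Fin A → Fin r → ℤ) (κ : Fin r → G) (y : Fin A → G)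
    (j : Fin r) : c1c_zeta p D c κ y (p j) =
      κ j * ∏ i ∈ (Finset.univ.image p)ᶜ, y i ^ (-c i j) :=
  hp.extend_apply _ _ j

theorem c1c_zeta_n {r A : ℕ} {G : Type} [CommGroup G] {p : Fin r → Fin A}
    (D : ℤ) (c : Fin A → Fin r → ℤ) (κ : Fin r → G) (y : Fin A → G)
    (i : Fin A) (hi : ¬ ∃ j, p j = i) : c1c_zeta p D c κ y i = y i ^ D :=
  Function.extend_apply' _ _ i hi

theorem c1c_zeta_prod {r A : ℕ} {G : Type} [CommGroup G] {p : Fin r → Fin A}
    (hp : Function.Injective p) (D : ℤ) (c : Fin A → Fin r → ℤ) (κ : Fin r → G) (y : Fin A → G)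
    (v : Fin A → ℤ) (hv : ∀ i, D * v i = ∑ j, c i j * v (p j)) :
    ∏ i, c1c_zeta p D c κ y i ^ v i = ∏ j, κ j ^ v (p j) := by
  rw [c1c_split hp]
  have h1 : ∏ j, c1c_zeta p D c κ y (p j) ^ v (p j) =
      (∏ j, κ j ^ v (p j)) * ∏ i ∈ (Finset.univ.image p)ᶜ, (y i ^ (D * v i))⁻¹ := by
    have e : ∀ j, c1c_zeta p D c κ y (p j) ^ v (p j) = κ j ^ v (p j) *
        ∏ i ∈ (Finset.univ.image p)ᶜ, y i ^ (-(c i j * v (p j))) := by
      intro j
      rw [c1c_zeta_p hp, mul_zpow, ← Finset.prod_zpow]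
      congr 1
      refine Finset.prod_congr rfl fun i _ => ?_
      rw [← _root_.zpow_mul, neg_mul]
    rw [Finset.prod_congr rfl (fun j _ => e j), Finset.prod_mul_distrib, Finset.prod_comm]
    congr 1
    refine Finset.prod_congr rfl fun i _ => ?_
    rw [← B1.zpow_sum', Finset.sum_neg_distrib, ← hv i, _root_.zpow_neg]
  have h2 : ∏ i ∈ (Finset.univ.image p)ᶜ, c1c_zeta p D c κ y i ^ v i =
      ∏ i ∈ (Finset.univ.image p)ᶜ, y i ^ (D * v i) := by
    refine Finset.prod_congr rfl fun i hi => ?_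
    rw [c1c_zeta_n D c κ y i, _root_.zpow_mul]
    rintro ⟨j, rfl⟩
    exact Finset.mem_compl.1 hi (Finset.mem_image_of_mem p (Finset.mem_univ j))
  rw [h1, h2, mul_assoc, ← Finset.prod_mul_distrib]
  simp

theorem c1c_map {r A : ℕ} {G H : Type} [CommGroup G] [CommGroup H] (f : G →* H)
    {p : Fin r → Fin A} (hp : Function.Injective p) (D : ℤ) (c : Fin A → Fin r → ℤ)
    (κ : Fin r → G) (y : Fin A → G) (i : Fin A) :
    f (c1c_zeta p D c κ y i) = c1c_zeta p D c (fun j => f (κ j)) (fun i => f (y i)) i := by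
  by_cases hi : ∃ j, p j = i
  · obtain ⟨j, rfl⟩ := hi
    rw [c1c_zeta_p hp, c1c_zeta_p hp, map_mul, map_prod]
    congr 1
    refine Finset.prod_congr rfl fun i _ => ?_
    rw [map_zpow]
  · rw [c1c_zeta_n D c κ y i hi, c1c_zeta_n D c _ _ i hi, map_zpow]

theorem c1c_mem {r A : ℕ} {G : Type} [CommGroup G] (M : Subgroup G)
    {p : Fin r → Fin A} (hp : Function.Injective p) (D : ℤ) (c : Fin A → Fin r → ℤ)
    (κ : Fin r → G) (y : Fin A → G) (hκ : ∀ j, κ j ∈ M) (hy : ∀ i, y i ∈ M) (i : Fin A) :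
    c1c_zeta p D c κ y i ∈ M := by
  by_cases hi : ∃ j, p j = i
  · obtain ⟨j, rfl⟩ := hi
    rw [c1c_zeta_p hp]
    exact M.mul_mem (hκ j) (M.prod_mem fun i _ => M.zpow_mem (hy i) _)
  · rw [c1c_zeta_n D c κ y i hi]
    exact M.zpow_mem (hy i) _

theorem c1c_root {Ω : Type} [Field Ω] [IsAlgClosed Ω] {D : ℤ} (hD : D ≠ 0) (z : Ωˣ) :
    ∃ y : Ωˣ, y ^ D = z := by
  have h0 : 0 < D.natAbs := Int.natAbs_pos.2 hD
  have key : ∀ w : Ωˣ, ∃ y : Ωˣ, y ^ D.natAbs = w := by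
    intro w
    obtain ⟨x, hx⟩ := IsAlgClosed.exists_pow_nat_eq (w : Ω) h0
    have hx0 : x ≠ 0 := by
      rintro rfl
      rw [zero_pow h0.ne'] at hx
      exact w.ne_zero hx.symm
    refine ⟨Units.mk0 x hx0, ?_⟩
    ext
    simpa using hx
  rcases Int.natAbs_eq D with h | h
  · obtain ⟨y, hy⟩ := key z
    refine ⟨y, ?_⟩
    rw [h, _root_.zpow_natCast]
    exact hy
  · obtain ⟨y, hy⟩ := key z⁻¹
    refine ⟨y, ?_⟩
    rw [h, _root_.zpow_neg, _root_.zpow_natCast, hy, inv_inv]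

/-- [CHV-C1c] Density of the unit points in a coset of a diagonalizable group. Proof: let `r`, `p`,
`D`, `c`, `a` be as in `cramer`. Let `(c₀, z)` be a point over `Ω` with `∏ cochar (B i) (z i) = δ`. As
`Ω` is algebraically closed, choose `y i` with `y i ^ D = z i` for all `i`. Put
`κ j = z (p j) * ∏_{i ∉ range p} y i ^ c i j`. By the relations of `cramer`,
`∏ j, cochar (B (p j)) (κ j) = δ`. Applying the `a j`: `κ j ^ D = ∏ l, δ l ^ a j l`. As `|D|` divides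
`Δ` and `δ l = η l ^ Δ` with `η l ∈ M`, `κ j` is the product of an element of `M` and of a root of
unity of order dividing `|D|`, so `κ j ∈ M`. For any `Ω`-algebra `R` and any `y' : Fin A → Rˣ`, define
`ζ y' i = y' i ^ D` if `i ∉ range p`, and `ζ y' (p j) = κ j * ∏_{i ∉ range p} y' i ^ (- c i j)`; then
`∏ cochar (B i) (ζ y' i) = δ` (in `R`), and `(c', y') ↦ Ψ R c' (ζ y')` is natural and vanishes if
`c' ∈ C₀`, `y' ∈ M`; by `dens` it vanishes at `(c₀, y)`, and `ζ y = z`. -/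
theorem mondens {Ω : Type} [Field Ω] [IsAlgClosed Ω] (n J A b Δ : ℕ) (hb : 1 ≤ b)
    (hΔ : ∀ D : ℕ, 1 ≤ D → D ≤ n.factorial * b ^ n → D ∣ Δ)
    (B : Fin A → Fin n → ℤ) (hB : ∀ i l, |B i l| ≤ b)
    (C₀ : Set Ω) (hC : C₀.Infinite) (M : Subgroup Ωˣ) (hM : (M : Set Ωˣ).Infinite)
    (hM1 : ∀ ζ : Ωˣ, ζ ^ Δ = 1 → ζ ∈ M)
    (δ : Fin n → Ωˣ) (hδ : ∀ l, ∃ η ∈ M, η ^ Δ = δ l)
    (Ψ : ∀ (R : Type) [CommRing R] [Algebra Ω R], (Fin J → R) → (Fin A → Rˣ) → R)
    (hΨ : ∀ (R R' : Type) [CommRing R] [Algebra Ω R] [CommRing R'] [Algebra Ω R']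
      (φ : R →ₐ[Ω] R') (c : Fin J → R) (z : Fin A → Rˣ),
      φ (Ψ R c z) = Ψ R' (fun j => φ (c j)) (fun i => Units.map ((φ : R →+* R') : R →* R') (z i)))
    (h : ∀ c z, (∀ j, c j ∈ C₀) → (∀ i, z i ∈ M) → ∏ i, cochar (B i) (z i) = δ → Ψ Ω c z = 0) :
    ∀ c z, ∏ i, cochar (B i) (z i) = δ → Ψ Ω c z = 0 := by
  obtain ⟨r, p, D, cc, a, hp, hD, hDb, hc, ha⟩ := cramer n A b hb B hB
  intro c₀ z hz
  have hzl : ∀ l, ∏ i, z i ^ B i l = δ l := by
    intro l
    rw [← hz, Finset.prod_apply]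
    rfl
  choose y hy using fun i => c1c_root hD (z i)
  set κ : Fin r → Ωˣ := fun j => z (p j) * ∏ i ∈ (Finset.univ.image p)ᶜ, y i ^ cc i j with hκ
  have hζ : c1c_zeta p D cc κ y = z := by
    funext i
    by_cases hi : ∃ j, p j = i
    · obtain ⟨j, rfl⟩ := hi
      rw [c1c_zeta_p hp, hκ]
      show z (p j) * (∏ i ∈ (Finset.univ.image p)ᶜ, y i ^ cc i j) * _ = _
      rw [mul_assoc, ← Finset.prod_mul_distrib]
      simp
    · rw [c1c_zeta_n D cc κ y i hi, hy]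
  have hκl : ∀ l, ∏ j, κ j ^ B (p j) l = δ l := by
    intro l
    rw [← hzl l, ← c1c_zeta_prod hp D cc κ y (fun i => B i l) (fun i => hc i l), hζ]
  have hκD : ∀ j, κ j ^ D = ∏ l, δ l ^ a j l := by
    intro j
    have e : ∏ l, δ l ^ a j l = ∏ k, κ k ^ (∑ l, a j l * B (p k) l) := by
      have e1 : ∀ l, δ l ^ a j l = ∏ k, κ k ^ (a j l * B (p k) l) := by
        intro l
        rw [← hκl l, ← Finset.prod_zpow]
        refine Finset.prod_congr rfl fun k _ => ?_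
        rw [← _root_.zpow_mul, mul_comm]
      rw [Finset.prod_congr rfl (fun l _ => e1 l), Finset.prod_comm]
      refine Finset.prod_congr rfl fun k _ => ?_
      rw [B1.zpow_sum']
    rw [e, Finset.prod_eq_single j]
    · rw [ha, if_pos rfl]
    · intro k _ hk
      rw [ha, if_neg (Ne.symm hk), _root_.zpow_zero]
    · intro h1
      exact absurd (Finset.mem_univ j) h1
  have hdvd : D ∣ (Δ : ℤ) := by
    rw [← Int.natAbs_dvd, Int.natCast_dvd_natCast]
    exact hΔ _ (Int.natAbs_pos.2 hD) hDb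
  obtain ⟨E, hE⟩ := hdvd
  choose η hηM hη using hδ
  have hκM : ∀ j, κ j ∈ M := by
    intro j
    have hω : ∏ l, η l ^ (E * a j l) ∈ M := M.prod_mem fun l _ => M.zpow_mem (hηM l) _
    have h1 : κ j ^ D = (∏ l, η l ^ (E * a j l)) ^ D := by
      rw [hκD, ← Finset.prod_zpow]
      refine Finset.prod_congr rfl fun l _ => ?_
      rw [← hη l, ← _root_.zpow_natCast, ← _root_.zpow_mul, ← _root_.zpow_mul, hE]
      congr 1
      ring
    have h2 : (κ j * (∏ l, η l ^ (E * a j l))⁻¹) ^ Δ = 1 := by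
      rw [← _root_.zpow_natCast, hE, _root_.zpow_mul, mul_zpow, h1, _root_.inv_zpow, mul_inv_cancel,
        _root_.one_zpow]
    have h3 := M.mul_mem (hM1 _ h2) hω
    rwa [inv_mul_cancel_right] at h3
  have hmain := dens J A C₀ hC (M : Set Ωˣ) hM
    (fun R _ _ c' y' => Ψ R c' (c1c_zeta p D cc
      (fun j => Units.map ((algebraMap Ω R : Ω →+* R) : Ω →* R) (κ j)) y')) ?_ ?_ c₀ y
  · have e : c1c_zeta p D cc
      (fun j => Units.map ((algebraMap Ω Ω : Ω →+* Ω) : Ω →* Ω) (κ j)) y = z := by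
      rw [← hζ]
      congr 1
    simp only [e] at hmain
    exact hmain
  · intro R R' _ _ _ _ φ c' y'
    rw [hΨ R R' φ]
    congr 1
    funext i
    rw [c1c_map _ hp]
    congr 1
    funext j
    ext
    show φ (algebraMap Ω R _) = algebraMap Ω R' _
    exact φ.commutes _
  · intro c' y' hc' hy'
    have e : (fun j => Units.map ((algebraMap Ω Ω : Ω →+* Ω) : Ω →* Ω) (κ j)) = κ := by
      funext j
      ext
      rfl
    simp only [e]
    refine h _ _ hc' (fun i => c1c_mem M hp D cc κ y' hκM hy' i) ?_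
    funext l
    rw [Finset.prod_apply]
    exact (c1c_zeta_prod hp D cc κ y' (fun i => B i l) (fun i => hc i l)).trans (hκl l)

end Pool.Agent.CHV.C1
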