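import Pool.Agent.CHV.Defs

/-! # CHV, row C2: the number field -/

set_option autoImplicit false

namespace Pool.Agent.CHV.C2

open Matrix NumberField

section
open Polynomial

theorem c2_exists_unit {L : Type} [Field L] [NumberField L] (θ : L) (hθ : θ ^ 2 = 2) :
    ∃ v : (NumberField.RingOfIntegers L)ˣ, ∀ n : ℤ, v ^ n = 1 → n = 0 := by
  have hint : IsIntegral ℤ θ := by
    refine ⟨X ^ 2 - C 2, monic_X_pow_sub_C 2 (by norm_num), ?_⟩
    simp [hθ]
  let t : NumberField.RingOfIntegers L := ⟨θ, hint⟩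
  have ht : t * t = 2 := by
    apply NumberField.RingOfIntegers.coe_injective
    have : algebraMap (NumberField.RingOfIntegers L) L t = θ := rfl
    rw [map_mul, this, ← pow_two, hθ, map_ofNat]
  have h1 : (1 + t) * (t - 1) = 1 := by
    have : (1 + t) * (t - 1) = t * t - 1 := by ring
    rw [this, ht]; norm_num
  have h2 : (t - 1) * (1 + t) = 1 := by rw [mul_comm]; exact h1
  refine ⟨⟨1 + t, t - 1, h1, h2⟩, ?_⟩
  intro n hn
  obtain ⟨φ⟩ : Nonempty (L →+* ℂ) := inferInstance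
  set v : (NumberField.RingOfIntegers L)ˣ := ⟨1 + t, t - 1, h1, h2⟩ with hv
  -- pass to `ℂ`
  have h3 : (φ (1 + θ)) ^ n = 1 := by
    have h4 : Units.map ((algebraMap (NumberField.RingOfIntegers L) L : _ →+* _) :
        (NumberField.RingOfIntegers L) →* L) v ^ n = 1 := by
      rw [← map_zpow, hn, map_one]
    have h5 := congrArg (fun u : Lˣ => (u : L)) h4
    have htt : algebraMap (NumberField.RingOfIntegers L) L t = θ := rfl
    have h6 : (1 + θ) ^ n = 1 := by
      have h7 : algebraMap (NumberField.RingOfIntegers L) L (1 + t) ^ n = 1 := by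
        simpa [hv] using h5
      rw [map_add, map_one, htt] at h7
      exact h7
    rw [← map_zpow₀, h6, map_one]
  have hφ : (φ θ) ^ 2 = 2 := by rw [← map_pow, hθ, map_ofNat]
  have hs : ((Real.sqrt 2 : ℝ) : ℂ) ^ 2 = 2 := by
    rw [← Complex.ofReal_pow, Real.sq_sqrt (by norm_num)]; norm_num
  have hcase : φ θ = ((Real.sqrt 2 : ℝ) : ℂ) ∨ φ θ = -((Real.sqrt 2 : ℝ) : ℂ) := by
    rw [← sq_eq_sq_iff_eq_or_eq_neg, hφ, hs]
  have hsq : (1 : ℝ) < Real.sqrt 2 := by
    rw [show (1 : ℝ) = Real.sqrt 1 by simp]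
    exact Real.sqrt_lt_sqrt (by norm_num) (by norm_num)
  have hsq2 : Real.sqrt 2 < 2 := by
    nlinarith [Real.sq_sqrt (show (0 : ℝ) ≤ 2 by norm_num), Real.sqrt_nonneg 2]
  have h7 : ‖φ (1 + θ)‖ ^ n = 1 := by
    rw [← norm_zpow, h3, norm_one]
  have h8 : 0 < ‖φ (1 + θ)‖ ∧ ‖φ (1 + θ)‖ ≠ 1 := by
    rcases hcase with h | h
    · have : φ (1 + θ) = ((1 + Real.sqrt 2 : ℝ) : ℂ) := by rw [map_add, map_one, h]; push_cast; ring
      rw [this, Complex.norm_real, Real.norm_eq_abs, abs_of_pos (by linarith)]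
      constructor <;> [linarith; (intro h; linarith)]
    · have : φ (1 + θ) = ((1 - Real.sqrt 2 : ℝ) : ℂ) := by rw [map_add, map_one, h]; push_cast; ring
      rw [this, Complex.norm_real, Real.norm_eq_abs, abs_of_neg (by linarith)]
      constructor
      · linarith
      · intro h; linarith
  have h9 := zpow_right_injective₀ h8.1 h8.2
  apply h9
  simp only [zpow_zero]
  exact h7

theorem c2_exists_L {K : Type} [Field K] [NumberField K] (P : Polynomial K) (hP : P ≠ 0) :
    ∃ (L : Type) (_ : Field L) (_ : NumberField L) (_ : Algebra K L),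
      (P.map (algebraMap K L)).Splits ∧
        ∃ v : (NumberField.RingOfIntegers L)ˣ, ∀ n : ℤ, v ^ n = 1 → n = 0 := by
  set R : Polynomial K := P * (X ^ 2 - C 2) with hR
  have hQ : (X ^ 2 - C 2 : Polynomial K) ≠ 0 := X_pow_sub_C_ne_zero (by norm_num) _
  have hR0 : R ≠ 0 := mul_ne_zero hP hQ
  have hsp := SplittingField.splits R
  let : NumberField R.SplittingField :=
    { to_charZero := charZero_of_injective_algebraMap
        (algebraMap K R.SplittingField).injective
      to_finiteDimensional := by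
        let := charZero_of_injective_algebraMap (algebraMap K R.SplittingField).injective
        exact Module.Finite.trans (R := ℚ) K R.SplittingField }
  have hmap : (R.map (algebraMap K R.SplittingField)) =
      P.map (algebraMap K R.SplittingField) *
        (X ^ 2 - C 2 : Polynomial K).map (algebraMap K R.SplittingField) := by
    rw [hR, Polynomial.map_mul]
  have hne : R.map (algebraMap K R.SplittingField) ≠ 0 :=
    (Polynomial.map_ne_zero_iff (algebraMap K R.SplittingField).injective).2 hR0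
  have hP' : (P.map (algebraMap K R.SplittingField)).Splits :=
    Splits.of_dvd hsp hne (by rw [hmap]; exact dvd_mul_right _ _)
  have hQ' : ((X ^ 2 - C 2 : Polynomial K).map (algebraMap K R.SplittingField)).Splits :=
    Splits.of_dvd hsp hne (by rw [hmap]; exact dvd_mul_left _ _)
  have hdeg : ((X ^ 2 - C 2 : Polynomial K).map (algebraMap K R.SplittingField)).degree ≠ 0 := by
    rw [Polynomial.degree_map, degree_X_pow_sub_C (by norm_num)]
    norm_num
  obtain ⟨θ, hθ⟩ := Splits.exists_eval_eq_zero hQ' hdeg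
  have hθ2 : θ ^ 2 = 2 := by
    simp at hθ
    exact sub_eq_zero.1 hθ
  exact ⟨R.SplittingField, inferInstance, inferInstance, inferInstance, hP', c2_exists_unit θ hθ2⟩


/-- a root of a unit is a unit of the ring of integers -/
theorem c2_unit {L : Type} [Field L] [NumberField L] (u : (𝓞 L)ˣ) (Δ : ℕ) (hΔ : 0 < Δ) (θ : L)
    (hθ : θ ^ Δ = algebraMap (𝓞 L) L (u : 𝓞 L)) :
    ∃ η : (𝓞 L)ˣ, η ^ Δ = u ∧ algebraMap (𝓞 L) L (η : 𝓞 L) = θ := by
  have hint : IsIntegral ℤ θ := by
    refine IsIntegral.of_pow hΔ ?_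
    rw [hθ]
    exact NumberField.RingOfIntegers.isIntegral_coe (u : 𝓞 L)
  let t : 𝓞 L := ⟨θ, hint⟩
  have htt : algebraMap (𝓞 L) L t = θ := rfl
  have ht : t ^ Δ = u := by
    apply NumberField.RingOfIntegers.coe_injective
    rw [map_pow, htt, hθ]
  have hu : IsUnit t := by
    rw [← isUnit_pow_iff hΔ.ne', ht]
    exact u.isUnit
  refine ⟨hu.unit, ?_, htt⟩
  ext
  rw [Units.val_pow_eq_pow_val, IsUnit.unit_spec, ht]

end

/-- [CHV-C2] Proof: let `L` be the splitting field over `K` of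
`(X^Δ - 1) * (X^2 - 2) * ∏_{t ∈ T} (X^Δ - t)`. It is a number field. Roots of `X^Δ - t` in `L`, `t` a
unit of `𝓞 K`, are units of `𝓞 L`. `1 + √2` is a unit of infinite order (see
`Pool.Agent.MP_3f0e22_ag.nt_exists_unit` and `exists_L` in `Pool/Agent/MP_3f0e22_ag/Nt.lean`, which
may be imported). If `ζ ^ Δ = 1` in `Ω ⊇ L`, then `ζ` is the image of a root of `X^Δ - 1` in `L`,
because this polynomial splits over `L`. -/
theorem exists_L {K : Type} [Field K] [NumberField K] (T : Finset (𝓞 K)ˣ) (Δ : ℕ)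
    (hΔ : 0 < Δ) : ∃ (L : Type) (_ : Field L) (_ : NumberField L) (_ : Algebra K L),
      (∀ t ∈ T, ∃ η : (𝓞 L)ˣ, η ^ Δ = Units.map (algebraMap (𝓞 K) (𝓞 L) : 𝓞 K →* 𝓞 L) t) ∧
      (∀ (Ω : Type) [Field Ω] [Algebra L Ω] (ζ : Ω), ζ ^ Δ = 1 →
        ∃ ξ : (𝓞 L)ˣ, algebraMap L Ω (algebraMap (𝓞 L) L (ξ : 𝓞 L)) = ζ) ∧
      ∃ v : (𝓞 L)ˣ, ∀ n : ℤ, v ^ n = 1 → n = 0 := by
  classical
  set P : Polynomial K := (Polynomial.X ^ Δ - Polynomial.C 1) *
    ∏ t ∈ T, (Polynomial.X ^ Δ - Polynomial.C (algebraMap (𝓞 K) K (t : 𝓞 K))) with hP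
  have hP0 : P ≠ 0 := by
    refine mul_ne_zero (Polynomial.X_pow_sub_C_ne_zero hΔ _) (Finset.prod_ne_zero_iff.2 fun t _ => ?_)
    exact Polynomial.X_pow_sub_C_ne_zero hΔ _
  obtain ⟨L, _, _, _, hsp, hv⟩ := c2_exists_L P hP0
  have hne : P.map (algebraMap K L) ≠ 0 :=
    (Polynomial.map_ne_zero_iff (algebraMap K L).injective).2 hP0
  refine ⟨L, inferInstance, inferInstance, inferInstance, ?_, ?_, hv⟩
  · intro t ht
    set u : (𝓞 L)ˣ := Units.map (algebraMap (𝓞 K) (𝓞 L) : 𝓞 K →* 𝓞 L) t with hu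
    have hd : (Polynomial.X ^ Δ - Polynomial.C (algebraMap (𝓞 K) K (t : 𝓞 K))).map (algebraMap K L) ∣
        P.map (algebraMap K L) := by
      refine Polynomial.map_dvd _ ?_
      exact (Finset.dvd_prod_of_mem (fun t : (𝓞 K)ˣ =>
        (Polynomial.X ^ Δ - Polynomial.C (algebraMap (𝓞 K) K (t : 𝓞 K)) : Polynomial K)) ht).trans
        (dvd_mul_left _ _)
    have hs := Polynomial.Splits.of_dvd hsp hne hd
    have hdeg : ((Polynomial.X ^ Δ - Polynomial.C (algebraMap (𝓞 K) K (t : 𝓞 K))).map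
        (algebraMap K L)).degree ≠ 0 := by
      rw [Polynomial.degree_map, Polynomial.degree_X_pow_sub_C hΔ]
      exact_mod_cast hΔ.ne'
    obtain ⟨θ, hθ⟩ := Polynomial.Splits.exists_eval_eq_zero hs hdeg
    have hθ2 : θ ^ Δ = algebraMap (𝓞 L) L (u : 𝓞 L) := by
      rw [Polynomial.map_sub, Polynomial.map_pow, Polynomial.map_X, Polynomial.map_C,
        Polynomial.eval_sub, Polynomial.eval_pow, Polynomial.eval_X, Polynomial.eval_C,
        sub_eq_zero] at hθ
      rw [hθ, hu]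
      show algebraMap K L (algebraMap (𝓞 K) K (t : 𝓞 K)) =
        algebraMap (𝓞 L) L (algebraMap (𝓞 K) (𝓞 L) (t : 𝓞 K))
      rfl
    obtain ⟨η, h1, _⟩ := c2_unit u Δ hΔ θ hθ2
    exact ⟨η, h1⟩
  · intro Ω _ _ ζ hζ
    have hd : (Polynomial.X ^ Δ - Polynomial.C (1 : K)).map (algebraMap K L) ∣
        P.map (algebraMap K L) := by
      refine Polynomial.map_dvd _ ?_
      exact dvd_mul_right _ _
    have hs := Polynomial.Splits.of_dvd hsp hne hd
    rw [Polynomial.map_sub, Polynomial.map_pow, Polynomial.map_X, Polynomial.map_C, map_one] at hs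
    have hr : ((Polynomial.X ^ Δ - Polynomial.C (1 : L)).map (algebraMap L Ω)).IsRoot ζ := by
      rw [Polynomial.IsRoot.def, Polynomial.map_sub, Polynomial.map_pow, Polynomial.map_X,
        Polynomial.map_C, map_one, Polynomial.eval_sub, Polynomial.eval_pow, Polynomial.eval_X,
        Polynomial.eval_C, hζ, sub_self]
    obtain ⟨θ, hθ⟩ := Polynomial.Splits.mem_range_of_isRoot hs
      (Polynomial.X_pow_sub_C_ne_zero hΔ _) hr
    have hθ2 : θ ^ Δ = algebraMap (𝓞 L) L ((1 : (𝓞 L)ˣ) : 𝓞 L) := by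
      rw [Units.val_one, map_one]
      apply (algebraMap L Ω).injective
      rw [map_pow, map_one, hθ, hζ]
    obtain ⟨η, _, h2⟩ := c2_unit 1 Δ hΔ θ hθ2
    refine ⟨η, ?_⟩
    rw [h2, hθ]

end Pool.Agent.CHV.C2
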