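import Pool.Agent.CHV.C3a

/-! # CHV, row C3b: labelling of the parameters -/

set_option autoImplicit false

namespace Pool.Agent.CHV.C3

open Matrix

theorem c3b_smap {σ : Type} (l : List (σ × Stp ℕ ℕ)) : ∃ N : ℕ, ∀ (α β : Type) (c c' : ℕ → α) (z z' : ℕ → β),
    (∀ i < N, c i = c' i) → (∀ i < N, z i = z' i) → smap c z l = smap c' z' l := by
  induction l with
  | nil => exact ⟨0, fun _ _ _ _ _ _ _ _ => rfl⟩
  | cons p l ih =>
    obtain ⟨N, hN⟩ := ih
    obtain ⟨i, q⟩ := p
    cases q with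
    | up e =>
      refine ⟨max N (e + 1), fun α β c c' z z' h1 h2 => ?_⟩
      have e1 := hN α β c c' z z' (fun i hi => h1 i (by omega)) (fun i hi => h2 i (by omega))
      have e2 := h1 e (by omega)
      show (i, Stp.up (c e)) :: smap c z l = (i, Stp.up (c' e)) :: smap c' z' l
      rw [e1, e2]
    | dn =>
      refine ⟨N, fun α β c c' z z' h1 h2 => ?_⟩
      have e1 := hN α β c c' z z' h1 h2
      show (i, Stp.dn) :: smap c z l = (i, Stp.dn) :: smap c' z' l
      rw [e1]
    | st e =>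
      refine ⟨max N (e + 1), fun α β c c' z z' h1 h2 => ?_⟩
      have e1 := hN α β c c' z z' (fun i hi => h1 i (by omega)) (fun i hi => h2 i (by omega))
      have e2 := h2 e (by omega)
      show (i, Stp.st (z e)) :: smap c z l = (i, Stp.st (z' e)) :: smap c' z' l
      rw [e1, e2]

theorem c3b_kmap {σ : Type} (l : List (σ × ℕ)) : ∃ N : ℕ, ∀ (α : Type) (c c' : ℕ → α),
    (∀ i < N, c i = c' i) → kmap c l = kmap c' l := by
  induction l with
  | nil => exact ⟨0, fun _ _ _ _ => rfl⟩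
  | cons p l ih =>
    obtain ⟨N, hN⟩ := ih
    obtain ⟨i, e⟩ := p
    refine ⟨max N (e + 1), fun α c c' h1 => ?_⟩
    have e1 := hN α c c' (fun i hi => h1 i (by omega))
    have e2 := h1 e (by omega)
    show (i, c e) :: kmap c l = (i, c' e) :: kmap c' l
    rw [e1, e2]

theorem c3b_fin {n : ℕ} (t : Fin n → ℕ) : ∃ N : ℕ, ∀ j, t j < N := by
  refine ⟨(Finset.univ.sup t) + 1, fun j => ?_⟩
  exact Nat.lt_succ_of_le (Finset.le_sup (Finset.mem_univ j))

theorem c3b_pairs {γ : Type} (l : List (γ × ℕ)) : ∃ N : ℕ, ∀ p ∈ l, p.2 < N := by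
  induction l with
  | nil => exact ⟨0, fun p hp => absurd hp List.not_mem_nil⟩
  | cons q l ih =>
    obtain ⟨N, hN⟩ := ih
    refine ⟨max N (q.2 + 1), fun p hp => ?_⟩
    rcases List.mem_cons.1 hp with rfl | hp
    · omega
    · have := hN p hp
      omega

theorem c3b_letter {D : RD} (d : LD D ℕ ℕ) : ∃ N : ℕ, ∀ (α β : Type) (c c' : ℕ → α) (z z' : ℕ → β),
    (∀ i < N, c i = c' i) → (∀ i < N, z i = z' i) → LD.map c z d = LD.map c' z' d := by
  cases d with
  | pt j l₁ l₂ k =>
    obtain ⟨N₁, h₁⟩ := c3b_smap l₁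
    obtain ⟨N₂, h₂⟩ := c3b_smap l₂
    obtain ⟨N₃, h₃⟩ := c3b_kmap k
    refine ⟨N₁ + N₂ + N₃, fun α β c c' z z' hc hz => ?_⟩
    have e1 := h₁ α β c c' z z' (fun i hi => hc i (by omega)) (fun i hi => hz i (by omega))
    have e2 := h₂ α β c c' z z' (fun i hi => hc i (by omega)) (fun i hi => hz i (by omega))
    have e3 := h₃ α c c' (fun i hi => hc i (by omega))
    simp only [LD.map]
    rw [e1, e2, e3]
  | hd l₁ l₂ l₃ l₄ ka kb ta tb =>
    obtain ⟨N₁, h₁⟩ := c3b_smap l₁
    obtain ⟨N₂, h₂⟩ := c3b_smap l₂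
    obtain ⟨N₃, h₃⟩ := c3b_smap l₃
    obtain ⟨N₄, h₄⟩ := c3b_smap l₄
    obtain ⟨N₅, h₅⟩ := c3b_kmap ka
    obtain ⟨N₆, h₆⟩ := c3b_kmap kb
    obtain ⟨N₇, h₇⟩ := c3b_fin ta
    obtain ⟨N₈, h₈⟩ := c3b_fin tb
    refine ⟨N₁ + N₂ + N₃ + N₄ + N₅ + N₆ + N₇ + N₈, fun α β c c' z z' hc hz => ?_⟩
    have e1 := h₁ α β c c' z z' (fun i hi => hc i (by omega)) (fun i hi => hz i (by omega))
    have e2 := h₂ α β c c' z z' (fun i hi => hc i (by omega)) (fun i hi => hz i (by omega))
    have e3 := h₃ α β c c' z z' (fun i hi => hc i (by omega)) (fun i hi => hz i (by omega))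
    have e4 := h₄ α β c c' z z' (fun i hi => hc i (by omega)) (fun i hi => hz i (by omega))
    have e5 := h₅ α c c' (fun i hi => hc i (by omega))
    have e6 := h₆ α c c' (fun i hi => hc i (by omega))
    have e7 : (fun j => z (ta j)) = fun j => z' (ta j) := by
      funext j
      have := h₇ j
      exact hz _ (by omega)
    have e8 : (fun j => z (tb j)) = fun j => z' (tb j) := by
      funext j
      have := h₈ j
      exact hz _ (by omega)
    simp only [LD.map]
    rw [e1, e2, e3, e4, e5, e6, e7, e8]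

theorem c3b_list {D : RD} (d : List (LD D ℕ ℕ)) : ∃ N : ℕ, ∀ (α β : Type) (c c' : ℕ → α) (z z' : ℕ → β),
    (∀ i < N, c i = c' i) → (∀ i < N, z i = z' i) → d.map (LD.map c z) = d.map (LD.map c' z') := by
  induction d with
  | nil => exact ⟨0, fun _ _ _ _ _ _ _ _ => rfl⟩
  | cons x d ih =>
    obtain ⟨N, hN⟩ := ih
    obtain ⟨N', hN'⟩ := c3b_letter x
    refine ⟨N + N', fun α β c c' z z' hc hz => ?_⟩
    have e1 := hN α β c c' z z' (fun i hi => hc i (by omega)) (fun i hi => hz i (by omega))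
    have e2 := hN' α β c c' z z' (fun i hi => hc i (by omega)) (fun i hi => hz i (by omega))
    rw [List.map_cons, List.map_cons, e1, e2]

/-- [CHV-C3b] Finitely many names. -/
theorem lab_bound {D : RD} (d : List (LD D ℕ ℕ)) : ∃ N : ℕ,
    (∀ p ∈ ucols D d, p.2 < N) ∧
    ∀ (α β : Type) (c c' : ℕ → α) (z z' : ℕ → β), (∀ i < N, c i = c' i) → (∀ i < N, z i = z' i) →
      d.map (LD.map c z) = d.map (LD.map c' z') := by
  obtain ⟨N, hN⟩ := c3b_list d
  obtain ⟨N', hN'⟩ := c3b_pairs (ucols D d)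
  refine ⟨N + N', fun p hp => ?_, fun α β c c' z z' hc hz => ?_⟩
  · have := hN' p hp
    omega
  · exact hN α β c c' z z' (fun i hi => hc i (by omega)) (fun i hi => hz i (by omega))

theorem c3b_smap_smap {σ α β α' β' α'' β'' : Type} (c : α → α') (z : β → β') (c' : α' → α'')
    (z' : β' → β'') (l : List (σ × Stp α β)) : smap c' z' (smap c z l) = smap (c' ∘ c) (z' ∘ z) l := by
  unfold smap
  rw [List.map_map]
  apply List.map_congr_left
  rintro ⟨i, q⟩ _
  cases q <;> rfl

theorem c3b_kmap_kmap {σ α α' α'' : Type} (c : α → α') (c' : α' → α'') (l : List (σ × α)) :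
    kmap c' (kmap c l) = kmap (c' ∘ c) l := by
  unfold kmap
  rw [List.map_map]
  rfl

/-- [CHV-C3b] Composition of renamings. -/
theorem map_map {D : RD} {α β α' β' α'' β'' : Type} (c : α → α') (z : β → β') (c' : α' → α'')
    (z' : β' → β'') (d : List (LD D α β)) :
    (d.map (LD.map c z)).map (LD.map c' z') = d.map (LD.map (c' ∘ c) (z' ∘ z)) := by
  rw [List.map_map]
  apply List.map_congr_left
  intro x _
  cases x with
  | pt j l₁ l₂ k => simp only [Function.comp_apply, LD.map, c3b_smap_smap, c3b_kmap_kmap]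
  | hd l₁ l₂ l₃ l₄ ka kb ta tb => simp only [Function.comp_apply, LD.map, c3b_smap_smap, c3b_kmap_kmap]

/-- [CHV-C3b] -/
theorem dok_map {D : RD} {α β α' β' : Type} (c : α → α') (z : β → β') (g j : ℕ)
    (d : List (LD D α β)) : DOK g j (d.map (LD.map c z)) ↔ DOK g j d := by
  induction d generalizing g j with
  | nil => cases g <;> exact Iff.rfl
  | cons x d ih =>
    cases g with
    | zero =>
      cases x with
      | pt i l₁ l₂ k =>
        show (i = j ∧ DOK 0 (j + 1) (d.map (LD.map c z))) ↔ (i = j ∧ DOK 0 (j + 1) d)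
        rw [ih]
      | hd l₁ l₂ l₃ l₄ ka kb ta tb => exact Iff.rfl
    | succ g =>
      cases x with
      | pt i l₁ l₂ k => exact Iff.rfl
      | hd l₁ l₂ l₃ l₄ ka kb ta tb => exact ih g j

theorem c3b_stc {D : RD} {β α : Type} (l : List (D.S × Stp α β)) (w : List D.S) :
    ∀ p ∈ stc D w l, p.1 ∈ D.co := by
  induction l generalizing w with
  | nil =>
    intro p hp
    exact absurd hp List.not_mem_nil
  | cons x l ih =>
    obtain ⟨i, q⟩ := x
    cases q with
    | up e => exact ih (w ++ [i])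
    | dn => exact ih (w ++ [i])
    | st e =>
      intro p hp
      have hp' : p ∈ (D.wd w (D.al i), e) :: stc D w l := hp
      rcases List.mem_cons.1 hp' with rfl | hp'
      · exact A1.wd_mem D w (D.al_mem i)
      · exact ih w p hp'

/-- [CHV-C3b] The columns of the monomial equation are coroots or `wd w e_l - e_l`, `w` reduced.
Proof: the words of the steps `st` give `wd w (al i) ∈ co` (`A1.wd_mem`); the toral parameters by
definition, with `Red` from `LD.Valid`. -/
theorem ucols_mem {D : RD} {α β : Type} (d : List (LD D α β)) (hd : ∀ x ∈ d, x.Valid) :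
    ∀ p ∈ ucols D d, p.1 ∈ D.co ∨ ∃ (w : List D.S) (l : Fin D.nT), D.Red w ∧
      p.1 = D.wd w (Pi.single l 1) - Pi.single l 1 := by
  induction d with
  | nil =>
    intro p hp
    exact absurd hp List.not_mem_nil
  | cons x d ih =>
    intro p hp
    have hp' : p ∈ stc D (procw D d) x.steps ++ x.ucol ++ ucols D d := hp
    rw [List.mem_append, List.mem_append] at hp'
    rcases hp' with (hp' | hp') | hp'
    · exact Or.inl (c3b_stc _ _ p hp')
    · right
      have hx := hd x List.mem_cons_self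
      cases x with
      | pt j l₁ l₂ k => exact absurd hp' List.not_mem_nil
      | hd l₁ l₂ l₃ l₄ ka kb ta tb =>
        obtain ⟨hx1, hx2⟩ := hx
        have hp'' : p ∈ (List.ofFn fun l => (D.wd (wrd l₁) (Pi.single l 1) - Pi.single l 1, ta l)) ++
          (List.ofFn fun l => (D.wd (wrd l₂) (Pi.single l 1) - Pi.single l 1, tb l)) := hp'
        rw [List.mem_append, List.mem_ofFn, List.mem_ofFn] at hp''
        rcases hp'' with ⟨l, hl⟩ | ⟨l, hl⟩
        · exact ⟨wrd l₁, l, hx1.1, by rw [← hl]⟩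
        · exact ⟨wrd l₂, l, hx2.1, by rw [← hl]⟩
    · exact ih (fun y hy => hd y (List.mem_cons_of_mem _ hy)) p hp'

theorem c3b_cochar_zero {R : Type} [CommRing R] {n : ℕ} (c : Rˣ) : cochar (0 : Fin n → ℤ) c = 1 := by
  funext j
  simp [cochar]

theorem c3b_B {n : ℕ} (L : List ((Fin n → ℤ) × ℕ)) (hn : (L.map Prod.snd).Nodup) (N : ℕ)
    (hN : ∀ p ∈ L, p.2 < N) :
    ∃ B : Fin N → Fin n → ℤ, (∀ i, B i = 0 ∨ ∃ p ∈ L, B i = p.1) ∧
      (∀ i : Fin N, (∀ p ∈ L, p.2 ≠ i) → B i = 0) ∧
      ∀ (R : Type) [CommRing R] (z : ℕ → Rˣ),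
        mon (L.map fun p => (p.1, z p.2)) = ∏ i : Fin N, cochar (B i) (z i) := by
  induction L with
  | nil =>
    refine ⟨fun _ => 0, fun i => Or.inl rfl, fun i _ => rfl, fun R _ z => ?_⟩
    simp [mon, c3b_cochar_zero]
  | cons q L ih =>
    rw [List.map_cons, List.nodup_cons] at hn
    obtain ⟨B, h1, h2, h3⟩ := ih hn.2 (fun p hp => hN p (List.mem_cons_of_mem _ hp))
    have hq : q.2 < N := hN q List.mem_cons_self
    have hB0 : B ⟨q.2, hq⟩ = 0 := by
      apply h2
      intro p hp he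
      apply hn.1
      rw [List.mem_map]
      exact ⟨p, hp, he⟩
    refine ⟨Function.update B ⟨q.2, hq⟩ q.1, fun i => ?_, fun i hi => ?_, fun R _ z => ?_⟩
    · by_cases hi : i = ⟨q.2, hq⟩
      · right
        refine ⟨q, List.mem_cons_self, ?_⟩
        rw [hi, Function.update_self]
      · rw [Function.update_of_ne hi]
        rcases h1 i with h | ⟨p, hp, h⟩
        · exact Or.inl h
        · exact Or.inr ⟨p, List.mem_cons_of_mem _ hp, h⟩
    · have hi' : i ≠ ⟨q.2, hq⟩ := by
        intro h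
        exact hi q List.mem_cons_self (by rw [h])
      rw [Function.update_of_ne hi']
      exact h2 i fun p hp => hi p (List.mem_cons_of_mem _ hp)
    · have e1 : mon ((q :: L).map fun p => (p.1, z p.2)) =
          cochar q.1 (z q.2) * mon (L.map fun p => (p.1, z p.2)) := by
        simp [mon]
      have e2 : ∀ i : Fin N, cochar (Function.update B ⟨q.2, hq⟩ q.1 i) (z i) =
          (if i = ⟨q.2, hq⟩ then cochar q.1 (z q.2) else 1) * cochar (B i) (z i) := by
        intro i
        by_cases hi : i = ⟨q.2, hq⟩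
        · rw [if_pos hi, hi, Function.update_self, hB0, c3b_cochar_zero, mul_one]
        · rw [if_neg hi, Function.update_of_ne hi, one_mul]
      rw [e1, h3 R z, Finset.prod_congr rfl (fun i _ => e2 i), Finset.prod_mul_distrib,
        Finset.prod_ite_eq' Finset.univ (⟨q.2, hq⟩ : Fin N), if_pos (Finset.mem_univ _)]

/-- [CHV-C3b] The monomials, if the names are different: `B i` is the column with the name `i`, or
`0`. -/
theorem exists_B {D : RD} (d : List (LD D ℕ ℕ)) (hn : ((ucols D d).map Prod.snd).Nodup) (N : ℕ)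
    (hN : ∀ p ∈ ucols D d, p.2 < N) :
    ∃ B : Fin N → Fin D.nT → ℤ, (∀ i, B i = 0 ∨ ∃ p ∈ ucols D d, B i = p.1) ∧
      ∀ (R : Type) [CommRing R] (z : ℕ → Rˣ),
        mon ((ucols D d).map fun p => (p.1, z p.2)) = ∏ i : Fin N, cochar (B i) (z i) := by
  obtain ⟨B, h1, -, h3⟩ := c3b_B (ucols D d) hn N hN
  exact ⟨B, h1, h3⟩

end Pool.Agent.CHV.C3
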