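import Pool.Agent.CHV.B4a

/-! # CHV, row C3a: labelling of the parameters -/

set_option autoImplicit false

namespace Pool.Agent.CHV.C3

open Matrix

/-- a structure with parameters in `α` and `β` (type `X`), and the same with names (type `Y`) -/
structure c3_F (α β : Type) where
  X : Type
  Y : Type
  m : (ℕ → α) → (ℕ → β) → Y → X
  r : (ℕ → ℕ) → Y → Y
  nm : Y → List ℕ
  comp : ∀ c z f y, m c z (r f y) = m (c ∘ f) (z ∘ f) y
  nmr : ∀ f y, nm (r f y) = (nm y).map f

/-- `x` can be named -/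
def c3_Lab {α β : Type} (F : c3_F α β) (x : F.X) : Prop :=
  ∃ (y : F.Y) (c : ℕ → α) (z : ℕ → β), F.m c z y = x ∧ (F.nm y).Nodup

/-- pairs -/
def c3_prod {α β : Type} (F G : c3_F α β) : c3_F α β where
  X := F.X × G.X
  Y := F.Y × G.Y
  m c z y := (F.m c z y.1, G.m c z y.2)
  r f y := (F.r f y.1, G.r f y.2)
  nm y := F.nm y.1 ++ G.nm y.2
  comp c z f y := by rw [F.comp, G.comp]
  nmr f y := by rw [F.nmr, G.nmr, List.map_append]

theorem c3_pair {α β : Type} {F G : c3_F α β} {x : F.X} {x' : G.X} (h : c3_Lab F x) (h' : c3_Lab G x') :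
    c3_Lab (c3_prod F G) (x, x') := by
  obtain ⟨y, c, z, hy, hn⟩ := h
  obtain ⟨y', c', z', hy', hn'⟩ := h'
  refine ⟨(F.r (fun k => 2 * k) y, G.r (fun k => 2 * k + 1) y'),
    fun k => if k % 2 = 0 then c (k / 2) else c' (k / 2), fun k => if k % 2 = 0 then z (k / 2) else z' (k / 2), ?_, ?_⟩
  · have e1 : ∀ k : ℕ, 2 * k % 2 = 0 := fun k => by omega
    have e2 : ∀ k : ℕ, 2 * k / 2 = k := fun k => by omega
    have e3 : ∀ k : ℕ, (2 * k + 1) % 2 ≠ 0 := fun k => by omega
    have e4 : ∀ k : ℕ, (2 * k + 1) / 2 = k := fun k => by omega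
    refine Prod.ext ?_ ?_
    · show F.m _ _ (F.r _ y) = x
      rw [F.comp, ← hy]
      congr 1
      · funext k
        show (if 2 * k % 2 = 0 then c (2 * k / 2) else c' (2 * k / 2)) = c k
        rw [if_pos (e1 k), e2]
      · funext k
        show (if 2 * k % 2 = 0 then z (2 * k / 2) else z' (2 * k / 2)) = z k
        rw [if_pos (e1 k), e2]
    · show G.m _ _ (G.r _ y') = x'
      rw [G.comp, ← hy']
      congr 1
      · funext k
        show (if (2 * k + 1) % 2 = 0 then c ((2 * k + 1) / 2) else c' ((2 * k + 1) / 2)) = c' k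
        rw [if_neg (e3 k), e4]
      · funext k
        show (if (2 * k + 1) % 2 = 0 then z ((2 * k + 1) / 2) else z' ((2 * k + 1) / 2)) = z' k
        rw [if_neg (e3 k), e4]
  · show (F.nm (F.r _ y) ++ G.nm (G.r _ y')).Nodup
    rw [F.nmr, G.nmr, List.nodup_append]
    refine ⟨hn.map fun a b h => by simpa using h, hn'.map fun a b h => by simpa using h, ?_⟩
    intro a ha b hb hab
    rw [List.mem_map] at ha hb
    obtain ⟨a', -, rfl⟩ := ha
    obtain ⟨b', -, rfl⟩ := hb
    omega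

/-- transport -/
theorem c3_tr {α β : Type} {F G : c3_F α β} (fY : F.Y → G.Y) (fX : F.X → G.X)
    (h1 : ∀ c z y, G.m c z (fY y) = fX (F.m c z y)) (h2 : ∀ y, G.nm (fY y) = F.nm y) {x : F.X}
    (h : c3_Lab F x) : c3_Lab G (fX x) := by
  obtain ⟨y, c, z, hy, hn⟩ := h
  exact ⟨fY y, c, z, by rw [h1, hy], by rw [h2]; exact hn⟩

/-- one parameter in `α` -/
def c3_A (α β : Type) : c3_F α β where
  X := α
  Y := ℕ
  m c _ k := c k
  r f k := f k
  nm _ := []
  comp _ _ _ _ := rfl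
  nmr _ _ := rfl

/-- one parameter in `β` -/
def c3_B (α β : Type) : c3_F α β where
  X := β
  Y := ℕ
  m _ z k := z k
  r f k := f k
  nm k := [k]
  comp _ _ _ _ := rfl
  nmr _ _ := rfl

theorem c3_labA {α β : Type} (b₀ : β) (a : α) : c3_Lab (c3_A α β) a :=
  ⟨(0 : ℕ), fun _ => a, fun _ => b₀, rfl, List.nodup_nil⟩

theorem c3_labB {α β : Type} (a₀ : α) (b : β) : c3_Lab (c3_B α β) b :=
  ⟨(0 : ℕ), fun _ => a₀, fun _ => b, rfl, List.nodup_singleton _⟩

/-- the unit parameters of a list of steps -/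
def c3_nm {σ α β : Type} : List (σ × Stp α β) → List β
  | [] => []
  | (_, .st e) :: l => e :: c3_nm l
  | (_, .up _) :: l => c3_nm l
  | (_, .dn) :: l => c3_nm l

theorem c3_nm_append {σ α β : Type} (l l' : List (σ × Stp α β)) : c3_nm (l ++ l') = c3_nm l ++ c3_nm l' := by
  induction l with
  | nil => rfl
  | cons p l ih =>
    obtain ⟨i, p⟩ := p
    cases p with
    | up e => exact ih
    | dn => exact ih
    | st e =>
      show e :: c3_nm (l ++ l') = e :: (c3_nm l ++ c3_nm l')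
      rw [ih]

theorem c3_nm_smap {σ α β α' β' : Type} (c : α → α') (z : β → β') (l : List (σ × Stp α β)) :
    c3_nm (smap c z l) = (c3_nm l).map z := by
  induction l with
  | nil => rfl
  | cons p l ih =>
    obtain ⟨i, p⟩ := p
    cases p with
    | up e => exact ih
    | dn => exact ih
    | st e =>
      show z e :: c3_nm (smap c z l) = z e :: (c3_nm l).map z
      rw [ih]

theorem c3_stc {D : RD} {α β : Type} (l : List (D.S × Stp α β)) :
    ∀ w : List D.S, (stc D w l).map Prod.snd = c3_nm l := by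
  induction l with
  | nil => exact fun _ => rfl
  | cons p l ih =>
    intro w
    obtain ⟨i, p⟩ := p
    cases p with
    | up e => exact ih _
    | dn => exact ih _
    | st e =>
      show e :: (stc D w l).map Prod.snd = e :: c3_nm l
      rw [ih]

theorem c3_smap_smap {σ α β α' β' α'' β'' : Type} (c : α' → α'') (z : β' → β'') (f : α → α') (g : β → β')
    (l : List (σ × Stp α β)) : smap c z (smap f g l) = smap (c ∘ f) (z ∘ g) l := by
  unfold smap
  rw [List.map_map]
  refine List.map_congr_left fun p _ => ?_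
  obtain ⟨i, p⟩ := p
  cases p <;> rfl

theorem c3_kmap_kmap {σ α α' α'' : Type} (c : α' → α'') (f : α → α') (l : List (σ × α)) :
    kmap c (kmap f l) = kmap (c ∘ f) l := by
  unfold kmap
  rw [List.map_map]
  rfl

theorem c3_map_map {D : RD} {α β α' β' α'' β'' : Type} (c : α' → α'') (z : β' → β'') (f : α → α') (g : β → β')
    (d : LD D α β) : (d.map f g).map c z = d.map (c ∘ f) (z ∘ g) := by
  cases d with
  | pt j l₁ l₂ k =>
    show LD.pt j (smap c z (smap f g l₁)) (smap c z (smap f g l₂)) (kmap c (kmap f k)) =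
      LD.pt j (smap (c ∘ f) (z ∘ g) l₁) (smap (c ∘ f) (z ∘ g) l₂) (kmap (c ∘ f) k)
    rw [c3_smap_smap, c3_smap_smap, c3_kmap_kmap]
  | hd l₁ l₂ l₃ l₄ ka kb ta tb =>
    show LD.hd (smap c z (smap f g l₁)) (smap c z (smap f g l₂)) (smap c z (smap f g l₃))
        (smap c z (smap f g l₄)) (kmap c (kmap f ka)) (kmap c (kmap f kb)) (fun j => z (g (ta j)))
        (fun j => z (g (tb j))) =
      LD.hd (smap (c ∘ f) (z ∘ g) l₁) (smap (c ∘ f) (z ∘ g) l₂) (smap (c ∘ f) (z ∘ g) l₃)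
        (smap (c ∘ f) (z ∘ g) l₄) (kmap (c ∘ f) ka) (kmap (c ∘ f) kb) (fun j => z (g (ta j)))
        (fun j => z (g (tb j)))
    rw [c3_smap_smap, c3_smap_smap, c3_smap_smap, c3_smap_smap, c3_kmap_kmap, c3_kmap_kmap]

/-- lists of steps -/
def c3_S (σ α β : Type) : c3_F α β where
  X := List (σ × Stp α β)
  Y := List (σ × Stp ℕ ℕ)
  m c z l := smap c z l
  r f l := smap f f l
  nm l := c3_nm l
  comp c z f y := c3_smap_smap c z f f y
  nmr f y := c3_nm_smap f f y

/-- lists of parameters in `α` -/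
def c3_K (σ α β : Type) : c3_F α β where
  X := List (σ × α)
  Y := List (σ × ℕ)
  m c _ l := kmap c l
  r f l := kmap f l
  nm _ := []
  comp c _ f y := c3_kmap_kmap c f y
  nmr _ _ := rfl

/-- families of parameters in `β` -/
def c3_T (n : ℕ) (α β : Type) : c3_F α β where
  X := Fin n → β
  Y := Fin n → ℕ
  m _ z t := fun j => z (t j)
  r f t := fun j => f (t j)
  nm t := List.ofFn t
  comp _ _ _ _ := rfl
  nmr f t := by
    rw [List.map_ofFn]
    rfl

theorem c3_labS {σ α β : Type} (a₀ : α) (b₀ : β) (l : List (σ × Stp α β)) : c3_Lab (c3_S σ α β) l := by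
  induction l with
  | nil => exact ⟨([] : List (σ × Stp ℕ ℕ)), fun _ => a₀, fun _ => b₀, rfl, List.nodup_nil⟩
  | cons p l ih =>
    obtain ⟨i, p⟩ := p
    cases p with
    | up e =>
      exact c3_tr (F := c3_prod (c3_A α β) (c3_S σ α β)) (G := c3_S σ α β)
        (fun (y : ℕ × List (σ × Stp ℕ ℕ)) => ((i, Stp.up y.1) :: y.2 : List (σ × Stp ℕ ℕ)))
        (fun (y : α × List (σ × Stp α β)) => ((i, Stp.up y.1) :: y.2 : List (σ × Stp α β)))
        (fun _ _ _ => rfl) (fun _ => rfl) (c3_pair (c3_labA b₀ e) ih)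
    | dn =>
      exact c3_tr (F := c3_S σ α β) (G := c3_S σ α β)
        (fun (y : List (σ × Stp ℕ ℕ)) => ((i, Stp.dn) :: y : List (σ × Stp ℕ ℕ)))
        (fun (y : List (σ × Stp α β)) => ((i, Stp.dn) :: y : List (σ × Stp α β)))
        (fun _ _ _ => rfl) (fun _ => rfl) ih
    | st e =>
      exact c3_tr (F := c3_prod (c3_B α β) (c3_S σ α β)) (G := c3_S σ α β)
        (fun (y : ℕ × List (σ × Stp ℕ ℕ)) => ((i, Stp.st y.1) :: y.2 : List (σ × Stp ℕ ℕ)))
        (fun (y : β × List (σ × Stp α β)) => ((i, Stp.st y.1) :: y.2 : List (σ × Stp α β)))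
        (fun _ _ _ => rfl) (fun _ => rfl) (c3_pair (c3_labB a₀ e) ih)

theorem c3_labK {σ α β : Type} (a₀ : α) (b₀ : β) (l : List (σ × α)) : c3_Lab (c3_K σ α β) l := by
  induction l with
  | nil => exact ⟨([] : List (σ × ℕ)), fun _ => a₀, fun _ => b₀, rfl, List.nodup_nil⟩
  | cons p l ih =>
    obtain ⟨i, p⟩ := p
    exact c3_tr (F := c3_prod (c3_A α β) (c3_K σ α β)) (G := c3_K σ α β)
      (fun (y : ℕ × List (σ × ℕ)) => ((i, y.1) :: y.2 : List (σ × ℕ)))
      (fun (y : α × List (σ × α)) => ((i, y.1) :: y.2 : List (σ × α)))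
      (fun _ _ _ => rfl) (fun _ => rfl) (c3_pair (c3_labA b₀ p) ih)

theorem c3_labT {n : ℕ} {α β : Type} (a₀ : α) (b₀ : β) (t : Fin n → β) : c3_Lab (c3_T n α β) t := by
  refine ⟨(fun i => (i : ℕ) : Fin n → ℕ), fun _ => a₀, fun k => if h : k < n then t ⟨k, h⟩ else b₀, ?_, ?_⟩
  · funext j
    show (if h : (j : ℕ) < n then t ⟨j, h⟩ else b₀) = t j
    rw [dif_pos j.2]
  · exact List.nodup_ofFn_ofInjective fun a b h => Fin.ext h

/-- letters -/
noncomputable def c3_L (D : RD) (α β : Type) : c3_F α β where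
  X := LD D α β
  Y := LD D ℕ ℕ
  m c z l := LD.map c z l
  r f l := LD.map f f l
  nm d := c3_nm d.steps ++ d.ucol.map Prod.snd
  comp c z f y := c3_map_map c z f f y
  nmr f y := by
    rw [B4.steps_map, c3_nm_smap, List.map_append]
    congr 1
    cases y with
    | pt j l₁ l₂ k => rfl
    | hd l₁ l₂ l₃ l₄ ka kb ta tb =>
      show List.map Prod.snd ((List.ofFn fun l => (D.wd (wrd (smap f f l₁)) (Pi.single l 1) - Pi.single l 1, f (ta l))) ++
        (List.ofFn fun l => (D.wd (wrd (smap f f l₂)) (Pi.single l 1) - Pi.single l 1, f (tb l)))) =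
        List.map f (List.map Prod.snd ((List.ofFn fun l => (D.wd (wrd l₁) (Pi.single l 1) - Pi.single l 1, ta l)) ++
        (List.ofFn fun l => (D.wd (wrd l₂) (Pi.single l 1) - Pi.single l 1, tb l))))
      simp only [List.map_append, List.map_ofFn]
      rfl

theorem c3_labL {D : RD} {α β : Type} (a₀ : α) (b₀ : β) (d : LD D α β) : c3_Lab (c3_L D α β) d := by
  cases d with
  | pt j l₁ l₂ k =>
    exact c3_tr (F := c3_prod (c3_prod (c3_S D.S α β) (c3_S D.S α β)) (c3_K D.S α β)) (G := c3_L D α β)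
      (fun (y : (List (D.S × Stp ℕ ℕ) × List (D.S × Stp ℕ ℕ)) × List (D.S × ℕ)) =>
        (LD.pt j y.1.1 y.1.2 y.2 : LD D ℕ ℕ))
      (fun (y : (List (D.S × Stp α β) × List (D.S × Stp α β)) × List (D.S × α)) =>
        (LD.pt j y.1.1 y.1.2 y.2 : LD D α β))
      (fun _ _ _ => rfl) (fun (y : (List (D.S × Stp ℕ ℕ) × List (D.S × Stp ℕ ℕ)) × List (D.S × ℕ)) => by
        show c3_nm (y.1.1 ++ y.1.2) ++ [] = (c3_nm y.1.1 ++ c3_nm y.1.2) ++ []
        rw [c3_nm_append]) (c3_pair (c3_pair (c3_labS a₀ b₀ l₁) (c3_labS a₀ b₀ l₂)) (c3_labK a₀ b₀ k))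
  | hd l₁ l₂ l₃ l₄ ka kb ta tb =>
    exact c3_tr (F := c3_prod (c3_prod (c3_prod (c3_prod (c3_S D.S α β) (c3_S D.S α β))
        (c3_prod (c3_S D.S α β) (c3_S D.S α β))) (c3_prod (c3_K D.S α β) (c3_K D.S α β)))
        (c3_prod (c3_T D.nT α β) (c3_T D.nT α β))) (G := c3_L D α β)
      (fun (y : (((List (D.S × Stp ℕ ℕ) × List (D.S × Stp ℕ ℕ)) × (List (D.S × Stp ℕ ℕ) × List (D.S × Stp ℕ ℕ))) ×
          (List (D.S × ℕ) × List (D.S × ℕ))) × ((Fin D.nT → ℕ) × (Fin D.nT → ℕ))) =>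
        (LD.hd y.1.1.1.1 y.1.1.1.2 y.1.1.2.1 y.1.1.2.2 y.1.2.1 y.1.2.2 y.2.1 y.2.2 : LD D ℕ ℕ))
      (fun (y : (((List (D.S × Stp α β) × List (D.S × Stp α β)) × (List (D.S × Stp α β) × List (D.S × Stp α β))) ×
          (List (D.S × α) × List (D.S × α))) × ((Fin D.nT → β) × (Fin D.nT → β))) =>
        (LD.hd y.1.1.1.1 y.1.1.1.2 y.1.1.2.1 y.1.1.2.2 y.1.2.1 y.1.2.2 y.2.1 y.2.2 : LD D α β))
      (fun _ _ _ => rfl) (fun (y : (((List (D.S × Stp ℕ ℕ) × List (D.S × Stp ℕ ℕ)) ×
          (List (D.S × Stp ℕ ℕ) × List (D.S × Stp ℕ ℕ))) × (List (D.S × ℕ) × List (D.S × ℕ))) ×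
          ((Fin D.nT → ℕ) × (Fin D.nT → ℕ))) => by
        show c3_nm (y.1.1.1.1 ++ y.1.1.1.2 ++ y.1.1.2.1 ++ y.1.1.2.2) ++
          List.map Prod.snd ((List.ofFn fun l => (D.wd (wrd y.1.1.1.1) (Pi.single l 1) - Pi.single l 1, y.2.1 l)) ++
            (List.ofFn fun l => (D.wd (wrd y.1.1.1.2) (Pi.single l 1) - Pi.single l 1, y.2.2 l))) =
          (((c3_nm y.1.1.1.1 ++ c3_nm y.1.1.1.2) ++ (c3_nm y.1.1.2.1 ++ c3_nm y.1.1.2.2)) ++ ([] ++ [])) ++
            (List.ofFn y.2.1 ++ List.ofFn y.2.2)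
        rw [c3_nm_append, c3_nm_append, c3_nm_append, List.map_append, List.map_ofFn, List.map_ofFn]
        simp only [List.append_assoc, List.nil_append]
        rfl)
      (c3_pair (c3_pair (c3_pair (c3_pair (c3_labS a₀ b₀ l₁) (c3_labS a₀ b₀ l₂))
        (c3_pair (c3_labS a₀ b₀ l₃) (c3_labS a₀ b₀ l₄))) (c3_pair (c3_labK a₀ b₀ ka) (c3_labK a₀ b₀ kb)))
        (c3_pair (c3_labT a₀ b₀ ta) (c3_labT a₀ b₀ tb)))

theorem c3_ucols {D : RD} {α β : Type} (d : LD D α β) (l : List (LD D α β)) :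
    (ucols D (d :: l)).map Prod.snd = (c3_nm d.steps ++ d.ucol.map Prod.snd) ++ (ucols D l).map Prod.snd := by
  show (stc D (procw D l) d.steps ++ d.ucol ++ ucols D l).map Prod.snd = _
  rw [List.map_append, List.map_append, c3_stc]

/-- lists of letters -/
noncomputable def c3_W (D : RD) (α β : Type) : c3_F α β where
  X := List (LD D α β)
  Y := List (LD D ℕ ℕ)
  m c z l := l.map (LD.map c z)
  r f l := l.map (LD.map f f)
  nm l := (ucols D l).map Prod.snd
  comp c z f y := by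
    rw [List.map_map]
    exact List.map_congr_left fun d _ => c3_map_map c z f f d
  nmr f y := by
    rw [B4.ucols_map, List.map_map, List.map_map]
    rfl

theorem c3_labW {D : RD} {α β : Type} (a₀ : α) (b₀ : β) (d : List (LD D α β)) : c3_Lab (c3_W D α β) d := by
  induction d with
  | nil => exact ⟨([] : List (LD D ℕ ℕ)), fun _ => a₀, fun _ => b₀, rfl, List.nodup_nil⟩
  | cons d l ih =>
    exact c3_tr (F := c3_prod (c3_L D α β) (c3_W D α β)) (G := c3_W D α β)
      (fun (y : LD D ℕ ℕ × List (LD D ℕ ℕ)) => (y.1 :: y.2 : List (LD D ℕ ℕ)))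
      (fun (y : LD D α β × List (LD D α β)) => (y.1 :: y.2 : List (LD D α β)))
      (fun _ _ _ => rfl) (fun y => c3_ucols y.1 y.2) (c3_pair (c3_labL a₀ b₀ d) ih)

/-- [CHV-C3a] The parameters can be named by natural numbers, the unit parameters by different
numbers. Proof: prove it first for a list of steps (`(stc D w l').map Prod.snd` has no duplicates,
for all `w`: the list does not depend on `w`), for functions `Fin n → β` (`List.ofFn`), for one
letter, and then for a list of letters by induction, renaming by `k ↦ 2 k` and `k ↦ 2 k + 1` to put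
two families of names together (with `LD.map` composed, `B4.ucols_map`, `B4.stc_smap`). -/
theorem exists_lab {D : RD} {α β : Type} (a₀ : α) (b₀ : β) (d : List (LD D α β)) :
    ∃ (d' : List (LD D ℕ ℕ)) (c : ℕ → α) (z : ℕ → β), d'.map (LD.map c z) = d ∧
      ((ucols D d').map Prod.snd).Nodup :=
  c3_labW a₀ b₀ d

end Pool.Agent.CHV.C3
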