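import Pool.Agent.CHV.B1

/-! # CHV: definitions, part 2: the monomial equation -/

set_option autoImplicit false

namespace Pool.Agent.CHV

open Matrix

/-- A product of values of cocharacters. -/
def mon {R : Type} [CommRing R] {n : ℕ} (l : List ((Fin n → ℤ) × Rˣ)) : Fin n → Rˣ :=
  (l.map fun p => cochar p.1 p.2).prod

/-- The cocharacters of the toral parameters of a letter. -/
noncomputable def LD.ucol {D : RD} {α β : Type} : LD D α β → List ((Fin D.nT → ℤ) × β)
  | .pt _ _ _ _ => []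
  | .hd l₁ l₂ _ _ _ _ ta tb =>
      (List.ofFn fun l => (D.wd (wrd l₁) (Pi.single l 1) - Pi.single l 1, ta l)) ++
      (List.ofFn fun l => (D.wd (wrd l₂) (Pi.single l 1) - Pi.single l 1, tb l))

/-- The cocharacters of all the unit parameters, with these parameters. -/
noncomputable def ucols (D : RD) {α β : Type} : List (LD D α β) → List ((Fin D.nT → ℤ) × β)
  | [] => []
  | d :: l => stc D (procw D l) d.steps ++ d.ucol ++ ucols D l

section

variable {P : PG} {R : Type} [CommRing R]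

/-- Change of rings for the states. -/
noncomputable def St.map {R' : Type} [CommRing R'] (f : R →+* R') (s : St P.toPG0 R) :
    St P.toPG0 R' := ⟨mp f s.u, tmap f s.z, s.w, mp f s.u'⟩

/-- The toral part of a puncture. -/
noncomputable def PG.th (P : PG) {R : Type} [CommRing R] (v₁ v₂ : List P.S)
    (t : Fin P.nT → Rˣ) : Fin P.nT → Rˣ := (P.sg R (v₁ ++ v₂))⁻¹ * tact (P.wd v₁) t

/-- The toral part of a letter. -/
noncomputable def LD.theta (t : ℕ → Fin P.nT → Rˣ) : LD P.toRD R Rˣ → Fin P.nT → Rˣ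
  | .pt j l₁ l₂ _ => P.th (wrd l₁) (wrd l₂) (t j)
  | .hd l₁ l₂ l₃ l₄ _ _ ta tb =>
      P.th (wrd l₂) (wrd l₄) tb * ta⁻¹ * tb⁻¹ * P.th (wrd l₁) (wrd l₃) ta

/-- The toral part of a word. -/
noncomputable def Theta (t : ℕ → Fin P.nT → Rˣ) (d : List (LD P.toRD R Rˣ)) : Fin P.nT → Rˣ :=
  (d.map (LD.theta t)).prod

/-- The part of `theta` which does not depend on the parameters. -/
noncomputable def LD.cst {α β : Type} (t : ℕ → Fin P.nT → Rˣ) :
    LD P.toRD α β → Fin P.nT → Rˣ
  | .pt j l₁ l₂ _ => P.th (wrd l₁) (wrd l₂) (t j)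
  | .hd l₁ l₂ l₃ l₄ _ _ _ _ =>
      (P.sg R (wrd l₂ ++ wrd l₄))⁻¹ * (P.sg R (wrd l₁ ++ wrd l₃))⁻¹

/-- The constant of a word. -/
noncomputable def Cst {α β : Type} (t : ℕ → Fin P.nT → Rˣ) (d : List (LD P.toRD α β)) :
    Fin P.nT → Rˣ := (d.map (LD.cst t)).prod

/-- The letters of the data `d` can be completed by a last letter with the class `tl`. -/
def Closes (t : ℕ → Fin P.nT → Rˣ) (tl : Fin P.nT → Rˣ) (d : List (LD P.toRD R Rˣ)) : Prop :=
  P.wd (procw P.toRD d) = 1 ∧
    (proc d).z * P.sg R (procw P.toRD d) * Theta t d * tl = 1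

/-- The product of the letters. -/
def pv {m : ℕ} (l : List (Lt m R)) : GL (Fin m) R := (l.map Lt.val).prod

/-- The matrix `a` of a handle. -/
def Lt.A {m : ℕ} : Lt m R → GL (Fin m) R
  | .pt A => A
  | .hd a b => a⁻¹ * b⁻¹ * a

/-- The matrix `b` of a handle. -/
def Lt.B {m : ℕ} : Lt m R → GL (Fin m) R
  | .pt A => A
  | .hd a b => a⁻¹ * b * a * b⁻¹ * a

/-- The `i`-th letter. -/
def nth {m : ℕ} (l : List (Lt m R)) (i : ℕ) : Lt m R := l.getD i (.pt 1)

/-- The tuple of a word, completed by a last letter, and conjugated by `g₀`. -/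
def tup {m : ℕ} (g n : ℕ) (l : List (Lt m R)) (g₀ : GL (Fin m) R) :
    (Fin g → GL (Fin m) R) × (Fin g → GL (Fin m) R) × (Fin (n + 1) → GL (Fin m) R) :=
  (fun j => g₀ * (nth l j).A * g₀⁻¹, fun j => g₀ * (nth l j).B * g₀⁻¹,
    fun i => if (i : ℕ) < n then g₀ * (nth l (g + i)).A * g₀⁻¹ else g₀ * (pv l)⁻¹ * g₀⁻¹)

/-- The letters of a word have classes: the first `g` letters are handles with matrices in `G`, the
following ones are punctures with the classes `t j`, `t (j + 1)`, … -/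
def LOK (t : ℕ → Fin P.nT → Rˣ) : ℕ → ℕ → List (Lt P.m R) → Prop
  | _, _, [] => True
  | 0, j, .pt A :: l => HasClass P.toPG0 (t j) A ∧ LOK t 0 (j + 1) l
  | g + 1, j, .hd a b :: l => a ∈ P.G R ∧ b ∈ P.G R ∧ LOK t g j l
  | _, _, _ => False

/-- The data are those of `g` handles, followed by punctures with the indices `j`, `j + 1`, … -/
def DOK {D : RD} {α β : Type} : ℕ → ℕ → List (LD D α β) → Prop
  | _, _, [] => True
  | 0, j, .pt i _ _ _ :: l => i = j ∧ DOK 0 (j + 1) l
  | g + 1, j, .hd _ _ _ _ _ _ _ _ :: l => DOK g j l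
  | _, _, _ => False

/-- The extension by `1` of a family indexed by `Fin n`. -/
def ext {M : Type} [One M] {n : ℕ} (t : Fin n → M) (j : ℕ) : M :=
  if h : j < n then t ⟨j, h⟩ else 1

end

end Pool.Agent.CHV
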