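import Pool.Agent.CHV.Base

/-!
# MP_3f0e22_ag, Chevalley groups: galleries

Galleries, and the integral cells of the representation spaces of the fundamental groups of affine
curves.
-/

set_option autoImplicit false

namespace Pool.Agent.CHV

open Matrix

/-! ### Coroot data and pinned groups, internal form -/

/-- The pairing with a character, as a linear form on the cocharacters. -/
def pr {n : ℕ} (a : Fin n → ℤ) : Module.Dual ℤ (Fin n → ℤ) where
  toFun y := a ⬝ᵥ y
  map_add' y z := dotProduct_add a y z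
  map_smul' c y := by rw [dotProduct_smul]; rfl

/-- The simple reflection `y ↦ y - ⟨a_i, y⟩ α_i` of the cocharacters. -/
noncomputable def RD.sr (D : RD) (i : D.S) : (Fin D.nT → ℤ) ≃ₗ[ℤ] (Fin D.nT → ℤ) :=
  Module.reflection (x := D.al i) (f := pr (D.rt (D.al i))) (D.rt_self _ (D.al_mem i))

/-- The action of a word in the simple reflections on the cocharacters. -/
noncomputable def RD.wd (D : RD) (w : List D.S) : (Fin D.nT → ℤ) ≃ₗ[ℤ] (Fin D.nT → ℤ) :=
  (w.map D.sr).prod

/-- The coroot `wd w (α_i)` is positive. -/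
def RD.Pos (D : RD) (w : List D.S) (i : D.S) : Prop := 0 < D.ht ⬝ᵥ D.wd w (D.al i)

/-- Words of the longest element. -/
def RD.Full (D : RD) (w : List D.S) : Prop := ∀ v ∈ D.co, 0 < D.ht ⬝ᵥ v → D.ht ⬝ᵥ D.wd w v < 0

/-- The action on the points of the torus of an automorphism of the cocharacters. -/
def tact {R : Type} [CommRing R] {n : ℕ} (A : (Fin n → ℤ) ≃ₗ[ℤ] (Fin n → ℤ)) (z : Fin n → Rˣ) :
    Fin n → Rˣ :=
  fun j => ∏ k, z k ^ A (Pi.single k 1) j

/-- Pinned closed subgroups of `GL_m` over `ℤ`: the properties of the split reductive group schemes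
(Chevalley groups) over `ℤ` which are used. -/
structure PG extends PG0 where
  G_closed : ∃ I : Set (MvPolynomial (Fin m × Fin m) ℤ), ∀ (R : Type) [CommRing R]
    (g : GL (Fin m) R), g ∈ G R ↔ ∀ p ∈ I, MvPolynomial.aeval (fun y => g.1 y.1 y.2) p = 0
  U_closed : ∃ I : Set (MvPolynomial (Fin m × Fin m) ℤ), ∀ (R : Type) [CommRing R]
    (g : GL (Fin m) R), g ∈ U R ↔ ∀ p ∈ I, MvPolynomial.aeval (fun y => g.1 y.1 y.2) p = 0
  U_le : ∀ (R : Type) [CommRing R], U R ≤ G R
  h_map : ∀ (R R' : Type) [CommRing R] [CommRing R'] (f : R →+* R') (z : Fin nT → Rˣ),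
    Matrix.GeneralLinearGroup.map f (h R z) = h R' (tmap f z)
  h_mem : ∀ (R : Type) [CommRing R] (z : Fin nT → Rˣ), h R z ∈ G R
  h_U : ∀ (R : Type) [CommRing R] (z : Fin nT → Rˣ), ∀ u ∈ U R, h R z * u * (h R z)⁻¹ ∈ U R
  h_inter : ∀ (R : Type) [CommRing R] (z : Fin nT → Rˣ), h R z ∈ U R → z = 1
  x_map : ∀ (R R' : Type) [CommRing R] [CommRing R'] (f : R →+* R') (i : S) (c : R),
    Matrix.GeneralLinearGroup.map f (x R i c) = x R' i (f c)
  x_add : ∀ (R : Type) [CommRing R] (i : S) (c c' : R), x R i (c + c') = x R i c * x R i c'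
  e_map : ∀ (R R' : Type) [CommRing R] [CommRing R'] (f : R →+* R') (i : S), ∀ u ∈ U R,
    e R' i (Matrix.GeneralLinearGroup.map f u) = f (e R i u)
  e_mul : ∀ (R : Type) [CommRing R] (i : S), ∀ u ∈ U R, ∀ u' ∈ U R,
    e R i (u * u') = e R i u + e R i u'
  e_x : ∀ (R : Type) [CommRing R] (i : S) (c : R), e R i (x R i c) = c
  s_mem : ∀ i, s i ∈ G ℤ
  s_sq : ∀ i, s i * s i = h ℤ (cochar (al i) (-1))
  s_h : ∀ (R : Type) [CommRing R] (i : S) (z : Fin nT → Rˣ),
    toPG0.sd R i * h R z * (toPG0.sd R i)⁻¹ = h R (tact (toRD.sr i) z)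
  s_ker : ∀ (R : Type) [CommRing R] (i : S), ∀ u ∈ U R, e R i u = 0 →
    (toPG0.sd R i)⁻¹ * u * toPG0.sd R i ∈ U R
  rank_one : ∀ (R : Type) [CommRing R] (i : S) (c : Rˣ),
    x R i c * toPG0.sd R i = toPG0.sd R i * x R i (-(c⁻¹ : Rˣ)) * toPG0.sd R i *
      h R (cochar (al i) (-c)) * x R i (-(c⁻¹ : Rˣ))
  x_pos : ∀ (R : Type) [CommRing R] (w : List S) (i : S) (c : R), toRD.Pos w i →
    toPG0.dot R w * x R i c * (toPG0.dot R w)⁻¹ ∈ U R
  wd_one : ∀ w : List S, toRD.wd w = 1 → ∃ ε : Fin nT → ℤˣ, toPG0.dot ℤ w = h ℤ ε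
  opp : ∀ (R : Type) [CommRing R] (w : List S), toRD.Full w → ∀ u ∈ U R,
    toPG0.dot R w * u * (toPG0.dot R w)⁻¹ ∈ U R → u = 1
  gen : ∀ (F : Type) [Field F] [IsAlgClosed F] [CharZero F], G F =
    Subgroup.closure ((U F : Set (GL (Fin m) F)) ∪ Set.range (h F) ∪ Set.range (toPG0.sd F))

/-! ### Galleries -/

/-- Reduced words: `wd (i_1 … i_{k-1}) (α_{i_k})` is positive for all `k`. -/
def RD.Red (D : RD) (w : List D.S) : Prop :=
  ∀ (w₁ w₂ : List D.S) (i : D.S), w = w₁ ++ i :: w₂ → D.Pos w₁ i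

/-- A step of a gallery: `up e`, `dn` or `st e`. -/
inductive Stp (α β : Type) : Type
  | up (e : α) : Stp α β
  | dn : Stp α β
  | st (e : β) : Stp α β

/-- Renaming of the parameters. -/
def Stp.map {α β α' β' : Type} (c : α → α') (z : β → β') : Stp α β → Stp α' β'
  | .up e => .up (c e)
  | .dn => .dn
  | .st e => .st (z e)

/-- The value `e'` of the parameter. -/
def Stp.val {R : Type} [CommRing R] : Stp R Rˣ → R
  | .up e => e
  | .dn => 0
  | .st e => (e : R)

/-- A state: the element `u * h z * dot w * u'`. -/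
structure St (P : PG0) (R : Type) [CommRing R] where
  /-- the left unipotent factor -/
  u : GL (Fin P.m) R
  /-- the toral factor -/
  z : Fin P.nT → Rˣ
  /-- the word -/
  w : List P.S
  /-- the right unipotent factor -/
  u' : GL (Fin P.m) R

section

variable {P : PG0} {R : Type} [CommRing R]

/-- The value of a state. -/
noncomputable def St.val (s : St P R) : GL (Fin P.m) R := s.u * P.h R s.z * P.dot R s.w * s.u'

/-- The unipotent factors are in `U`. -/
def St.Good (s : St P R) : Prop := s.u ∈ P.U R ∧ s.u' ∈ P.U R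

/-- The initial state. -/
def St.one (P : PG0) (R : Type) [CommRing R] : St P R := ⟨1, 1, [], 1⟩

/-- The coordinate `c = e' - e_i(u')` of a step. -/
def St.c (s : St P R) (i : P.S) (p : Stp R Rˣ) : R := p.val - P.e R i s.u'

/-- The right factor after a step. -/
noncomputable def St.tail (s : St P R) (i : P.S) (p : Stp R Rˣ) : GL (Fin P.m) R :=
  (P.sd R i)⁻¹ * (P.x R i (-s.c i p) * (P.x R i (-P.e R i s.u') * s.u') * P.x R i (s.c i p)) *
    P.sd R i

/-- The state after a step: multiplication on the right by `x_i(c) s_i`. -/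
noncomputable def St.step (s : St P R) (i : P.S) (p : Stp R Rˣ) : St P R :=
  match p with
  | .up e => ⟨s.u * (P.h R s.z * P.dot R s.w * P.x R i e * (P.h R s.z * P.dot R s.w)⁻¹), s.z,
      s.w ++ [i], s.tail i (.up e)⟩
  | .dn => ⟨s.u, s.z, s.w ++ [i], s.tail i .dn⟩
  | .st e => ⟨s.u * (P.h R s.z * P.dot R (s.w ++ [i]) * P.x R i (-(e⁻¹ : Rˣ)) *
      (P.h R s.z * P.dot R (s.w ++ [i]))⁻¹), s.z * cochar (P.wd s.w (P.al i)) e, s.w,
      P.x R i (-(e⁻¹ : Rˣ)) * s.tail i (.st e)⟩

/-- The state after a sequence of steps. -/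
noncomputable def St.run (s : St P R) (l : List (P.S × Stp R Rˣ)) : St P R :=
  l.foldl (fun s p => s.step p.1 p.2) s

/-- The product of the `x_i(c) s_i`. -/
noncomputable def gal (P : PG0) {R : Type} [CommRing R] (l : List (P.S × R)) : GL (Fin P.m) R :=
  (l.map fun p => P.x R p.1 p.2 * P.sd R p.1).prod

end

/-- The new word. -/
def Stp.next {D : RD} {α β : Type} (w : List D.S) (i : D.S) : Stp α β → List D.S
  | .up _ => w ++ [i]
  | .dn => w ++ [i]
  | .st _ => w

/-- The word after a sequence of steps. -/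
def nextw (D : RD) {α β : Type} (w : List D.S) (l : List (D.S × Stp α β)) : List D.S :=
  l.foldl (fun w p => p.2.next w p.1) w

/-- The type of the step is admissible. -/
def Stp.Adm {D : RD} {α β : Type} (w : List D.S) (i : D.S) : Stp α β → Prop
  | .up _ => D.Pos w i
  | .dn => ¬ D.Pos w i
  | .st _ => ¬ D.Pos w i

/-- The types of the steps are admissible. -/
def AdmL (D : RD) {α β : Type} : List D.S → List (D.S × Stp α β) → Prop
  | _, [] => True
  | w, p :: l => p.2.Adm w p.1 ∧ AdmL D (p.2.next w p.1) l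

/-- The cocharacters of the steps `st`, with their parameters. -/
noncomputable def stc (D : RD) {α β : Type} :
    List D.S → List (D.S × Stp α β) → List ((Fin D.nT → ℤ) × β)
  | _, [] => []
  | w, (i, .st e) :: l => (D.wd w (D.al i), e) :: stc D w l
  | w, (i, .up _) :: l => stc D (w ++ [i]) l
  | w, (i, .dn) :: l => stc D (w ++ [i]) l

/-- The word of a list of steps. -/
def wrd {σ τ : Type} (l : List (σ × τ)) : List σ := l.map Prod.fst

/-! ### Letters -/

/-- The data of a letter: a puncture (`j` is the index of its class), or a handle. -/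
inductive LD (D : RD) (α β : Type) : Type
  | pt (j : ℕ) (l₁ l₂ : List (D.S × Stp α β)) (k : List (D.S × α)) : LD D α β
  | hd (l₁ l₂ l₃ l₄ : List (D.S × Stp α β)) (ka kb : List (D.S × α)) (ta tb : Fin D.nT → β) :
      LD D α β

/-- Renaming of the parameters of a list of steps. -/
def smap {σ α β α' β' : Type} (c : α → α') (z : β → β') (l : List (σ × Stp α β)) :
    List (σ × Stp α' β') := l.map fun p => (p.1, p.2.map c z)

/-- Renaming of the parameters. -/
def kmap {σ α α' : Type} (c : α → α') (l : List (σ × α)) : List (σ × α') :=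
  l.map fun p => (p.1, c p.2)

/-- Renaming of the parameters. -/
def LD.map {D : RD} {α β α' β' : Type} (c : α → α') (z : β → β') : LD D α β → LD D α' β'
  | .pt j l₁ l₂ k => .pt j (smap c z l₁) (smap c z l₂) (kmap c k)
  | .hd l₁ l₂ l₃ l₄ ka kb ta tb => .hd (smap c z l₁) (smap c z l₂) (smap c z l₃) (smap c z l₄)
      (kmap c ka) (kmap c kb) (fun j => z (ta j)) (fun j => z (tb j))

/-- All the steps of a letter. -/
def LD.steps {D : RD} {α β : Type} : LD D α β → List (D.S × Stp α β)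
  | .pt _ l₁ l₂ _ => l₁ ++ l₂
  | .hd l₁ l₂ l₃ l₄ _ _ _ _ => l₁ ++ l₂ ++ l₃ ++ l₄

/-- The word `v₂` is the reverse of the reduced word `v₁`, and `v₂` followed by the word of `k` is a
reduced word of the longest element. -/
def Pair (D : RD) {α : Type} (v₁ v₂ : List D.S) (k : List (D.S × α)) : Prop :=
  D.Red v₁ ∧ v₂ = v₁.reverse ∧ D.Red (v₂ ++ wrd k) ∧ D.Full (v₂ ++ wrd k)

/-- The words of the letter are valid. -/
def LD.Valid {D : RD} {α β : Type} : LD D α β → Prop
  | .pt _ l₁ l₂ k => Pair D (wrd l₁) (wrd l₂) k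
  | .hd l₁ l₂ l₃ l₄ ka kb _ _ => Pair D (wrd l₁) (wrd l₃) ka ∧ Pair D (wrd l₂) (wrd l₄) kb

/-- Letters: a matrix (puncture), or a pair of matrices `α`, `β` (handle). -/
inductive Lt (m : ℕ) (R : Type) [CommRing R] : Type
  | pt (A : GL (Fin m) R) : Lt m R
  | hd (a b : GL (Fin m) R) : Lt m R

/-- The value of a letter: `A` or `β α⁻¹ β⁻¹ α`. -/
def Lt.val {m : ℕ} {R : Type} [CommRing R] : Lt m R → GL (Fin m) R
  | .pt A => A
  | .hd a b => b * a⁻¹ * b⁻¹ * a

/-- Change of rings. -/
def Lt.map {m : ℕ} {R R' : Type} [CommRing R] [CommRing R'] (f : R →+* R') : Lt m R → Lt m R'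
  | .pt A => .pt (Matrix.GeneralLinearGroup.map f A)
  | .hd a b => .hd (Matrix.GeneralLinearGroup.map f a) (Matrix.GeneralLinearGroup.map f b)

/-- Conjugation. -/
def Lt.conj {m : ℕ} {R : Type} [CommRing R] (g : GL (Fin m) R) : Lt m R → Lt m R
  | .pt A => .pt (g * A * g⁻¹)
  | .hd a b => .hd (g * a * g⁻¹) (g * b * g⁻¹)

section

variable {P : PG0} {R : Type} [CommRing R]

/-- The element `gal l * (dot (wrd l))⁻¹` of `U`, if the word of `l` is reduced. -/
noncomputable def kel (P : PG0) {R : Type} [CommRing R] (l : List (P.S × R)) : GL (Fin P.m) R :=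
  gal P l * (P.dot R (wrd l))⁻¹

/-- The state on the left of a letter. -/
noncomputable def LD.next (s : St P R) (d : LD P.toRD R Rˣ) : St P R := s.run d.steps

/-- The matrix `h k (dot v₂)⁻¹ t f⁻¹` of a pair of frames. -/
noncomputable def fr (h : GL (Fin P.m) R) (k : List (P.S × R)) (v₂ : List P.S)
    (t : Fin P.nT → Rˣ) (f : GL (Fin P.m) R) : GL (Fin P.m) R :=
  h * kel P k * (P.dot R v₂)⁻¹ * P.h R t * f⁻¹

/-- The letter with the data `d`, if the state on its right is `s`. -/
noncomputable def LD.letter (t : ℕ → Fin P.nT → Rˣ) (s : St P R) : LD P.toRD R Rˣ → Lt P.m R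
  | .pt j l₁ l₂ k => .pt (fr (s.run (l₁ ++ l₂)).val k (wrd l₂) (t j) (s.run l₁).val)
  | .hd l₁ l₂ l₃ l₄ ka kb ta tb => .hd
      (fr (s.run (l₁ ++ l₂ ++ l₃)).val ka (wrd l₃) ta (s.run l₁).val)
      (fr (s.run (l₁ ++ l₂ ++ l₃ ++ l₄)).val kb (wrd l₄) tb (s.run (l₁ ++ l₂)).val)

/-- The state on the left of a word. -/
noncomputable def proc (d : List (LD P.toRD R Rˣ)) : St P R :=
  d.foldr (fun d s => d.next s) (St.one P R)

/-- The word with the data `d`. -/
noncomputable def lets (t : ℕ → Fin P.nT → Rˣ) : List (LD P.toRD R Rˣ) → List (Lt P.m R)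
  | [] => []
  | d :: l => d.letter t (proc l) :: lets t l

end

/-- The word on the left of a word of letters. -/
def procw (D : RD) {α β : Type} (d : List (LD D α β)) : List D.S :=
  d.foldr (fun d w => nextw D w d.steps) []

/-- The steps are admissible. -/
def AdmD (D : RD) {α β : Type} : List (LD D α β) → Prop
  | [] => True
  | d :: l => AdmL D (procw D l) d.steps ∧ AdmD D l

end Pool.Agent.CHV
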