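import Pool.Agent.CHV.B7
import Pool.Agent.CHV.B9

/-! # CHV, row F1a: tuples and words -/

set_option autoImplicit false

namespace Pool.Agent.CHV.F1

open Matrix

variable {P : PG}

theorem f1a_AB {G : Type} [Group G] (a b : G) :
    a⁻¹ * b⁻¹ * a * (a⁻¹ * b * a * b⁻¹ * a) * (a⁻¹ * b⁻¹ * a)⁻¹ = a := by group

/-- the commutator of `A` and `B` -/
theorem f1a_comm {G : Type} [Group G] (a b : G) :
    (a⁻¹ * b⁻¹ * a) * (a⁻¹ * b * a * b⁻¹ * a) * (a⁻¹ * b⁻¹ * a)⁻¹ * (a⁻¹ * b * a * b⁻¹ * a)⁻¹ =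
      b * a⁻¹ * b⁻¹ * a := by group

theorem f1a_mem {G : Type} [Group G] (H : Subgroup G) (a b : G) (hA : a⁻¹ * b⁻¹ * a ∈ H)
    (hB : a⁻¹ * b * a * b⁻¹ * a ∈ H) : a ∈ H ∧ b ∈ H := by
  have ha : a ∈ H := by
    rw [← f1a_AB a b]
    exact mul_mem (mul_mem hA hB) (inv_mem hA)
  refine ⟨ha, ?_⟩
  have hb : b = a * (a⁻¹ * b⁻¹ * a)⁻¹ * a⁻¹ := by group
  rw [hb]
  exact mul_mem (mul_mem ha (inv_mem hA)) (inv_mem ha)

theorem f1a_lok {R : Type} [CommRing R] (t : ℕ → Fin P.nT → Rˣ) (d : List (LD P.toRD R Rˣ)) (g j : ℕ)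
    (h1 : DOK g j d) (h2 : ∀ x ∈ d, x.Valid) (h3 : AdmD P.toRD d) :
    LOK t g j (lets (P := P.toPG0) t d) := by
  induction d generalizing g j with
  | nil => cases g <;> trivial
  | cons x l ih =>
    have hgood := B4.proc_good l h3.2
    have hadm : AdmL P.toRD (proc (P := P.toPG0) l).w x.steps := by
      rw [B4.proc_w]
      exact h3.1
    have hval := h2 x List.mem_cons_self
    have h2' : ∀ y ∈ l, y.Valid := fun y hy => h2 y (List.mem_cons_of_mem _ hy)
    cases x with
    | pt i l₁ l₂ k =>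
      cases g with
      | zero =>
        obtain ⟨rfl, h4⟩ : i = j ∧ DOK 0 (j + 1) l := h1
        exact ⟨B7.pt_class t _ hgood i l₁ l₂ k hval hadm, ih 0 (i + 1) h4 h2' h3.2⟩
      | succ g => exact absurd h1 (fun h => h)
    | hd l₁ l₂ l₃ l₄ ka kb ta tb =>
      cases g with
      | zero => exact absurd h1 (fun h => h)
      | succ g =>
        obtain ⟨hA, hB⟩ := B7.letter_mem t _ hgood _ hval hadm
        obtain ⟨ha, hb⟩ := f1a_mem _ _ _ hA hB
        exact ⟨ha, hb, ih g j h1 h2' h3.2⟩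

theorem f1a_facts {R : Type} [CommRing R] (t : ℕ → Fin P.nT → Rˣ) (l : List (Lt P.m R)) (g j : ℕ)
    (h : LOK t g j l) :
    (∀ i, i < g → i < l.length → ∃ a b, a ∈ P.G R ∧ b ∈ P.G R ∧ nth l i = .hd a b) ∧
      (∀ i, g + i < l.length → ∃ A, nth l (g + i) = .pt A ∧ HasClass P.toPG0 (t (j + i)) A) := by
  induction l generalizing g j with
  | nil => exact ⟨fun i _ hi => absurd hi (Nat.not_lt_zero _), fun i hi => absurd hi (Nat.not_lt_zero _)⟩
  | cons x l ih =>
    cases x with
    | pt A =>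
      cases g with
      | zero =>
        obtain ⟨hA, hl'⟩ : HasClass P.toPG0 (t j) A ∧ LOK t 0 (j + 1) l := h
        refine ⟨fun i hi => absurd hi (Nat.not_lt_zero _), fun i hi => ?_⟩
        cases i with
        | zero => exact ⟨A, rfl, hA⟩
        | succ i =>
          obtain ⟨A', h1, h2⟩ := (ih 0 (j + 1) hl').2 i (by rw [List.length_cons] at hi; omega)
          refine ⟨A', ?_, ?_⟩
          · have h3 : 0 + (i + 1) = (0 + i) + 1 := by omega
            rw [h3, ← h1]
            rfl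
          · have h3 : j + (i + 1) = j + 1 + i := by omega
            rw [h3]
            exact h2
      | succ g => exact absurd h (fun h => h)
    | hd a b =>
      cases g with
      | zero => exact absurd h (fun h => h)
      | succ g =>
        obtain ⟨ha, hb, hl'⟩ : a ∈ P.G R ∧ b ∈ P.G R ∧ LOK t g j l := h
        obtain ⟨h1, h2⟩ := ih g j hl'
        refine ⟨fun i hi hi' => ?_, fun i hi => ?_⟩
        · cases i with
          | zero => exact ⟨a, b, ha, hb, rfl⟩
          | succ i =>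
            rw [List.length_cons] at hi'
            exact h1 i (by omega) (by omega)
        · obtain ⟨A', h3, h4⟩ := h2 i (by rw [List.length_cons] at hi; omega)
          refine ⟨A', ?_, h4⟩
          have h5 : g + 1 + i = (g + i) + 1 := by omega
          rw [h5, ← h3]
          rfl

theorem f1a_pv {R : Type} [CommRing R] {m : ℕ} (l : List (Lt m R)) (g n : ℕ) (h : l.length = g + n) :
    pv l = (List.ofFn fun j : Fin g => (nth l j).val).prod *
      (List.ofFn fun i : Fin n => (nth l (g + i)).val).prod := by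
  rw [← List.prod_append]
  unfold pv
  congr 1
  apply List.ext_getElem
  · simp [h]
  · intro i h1 h2
    rw [List.length_map] at h1
    rw [List.getElem_map]
    have h3 : nth l i = l[i] := by
      unfold nth
      exact List.getD_eq_getElem _ _ h1
    rw [List.getElem_append]
    split_ifs with h4
    · rw [List.getElem_ofFn]
      rw [h3]
    · rw [List.getElem_ofFn]
      rw [List.length_ofFn] at h4
      simp only [List.length_ofFn]
      have h5 : g + (i - g) = i := by omega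
      rw [h5, h3]

theorem f1a_conj {G : Type} [Group G] (g₀ : G) {n : ℕ} (f : Fin n → G) :
    (List.ofFn fun i => g₀ * f i * g₀⁻¹).prod = g₀ * (List.ofFn f).prod * g₀⁻¹ := by
  have h1 := map_list_prod (MulAut.conj g₀).toMonoidHom (List.ofFn f)
  rw [List.map_ofFn] at h1
  exact h1.symm

/-- [CHV-F1a] Proof: `tup` reads the letters: with `l = lets (ext t) d`, the first `g` letters are
`hd a b` (`DOK`), with `A * B * A⁻¹ * B⁻¹ = val` (`a⁻¹b⁻¹a * (a⁻¹ b a b⁻¹ a) * …= b a⁻¹ b⁻¹ a`) and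
`A, B ∈ G` (`B7.letter_mem`); the following `n` letters are punctures with the classes `t i`
(`B7.pt_class`); so the product of the commutators and of the first `n` punctures is
`g₀ * pv l * g₀⁻¹`, and the last puncture `g₀ * (pv l)⁻¹ * g₀⁻¹` has the class `t n` by
`B7.closes_inv` (`HasClass` with `f = 1`) and `B7.class_conj`. -/
theorem tup_mem {R : Type} [CommRing R] (g n : ℕ) (t : Fin (n + 1) → Fin P.nT → Rˣ)
    (d : List (LD P.toRD R Rˣ)) (hd1 : DOK g 0 d) (hd2 : d.length = g + n)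
    (hd3 : ∀ x ∈ d, x.Valid) (hd4 : AdmD P.toRD d)
    (hd5 : Closes (ext t) (t (Fin.last n)) d) (g₀ : GL (Fin P.m) R) (hg : g₀ ∈ P.G R) :
    tup g n (lets (P := P.toPG0) (ext t) d) g₀ ∈ RelRep P.toPG0 g (n + 1) t := by
  have hlok := f1a_lok (ext t) d g 0 hd1 hd3 hd4
  set l := lets (P := P.toPG0) (ext t) d with hl
  have hlen : l.length = g + n := by
    rw [hl, ← hd2]
    have hlen' : ∀ d' : List (LD P.toRD R Rˣ), (lets (P := P.toPG0) (ext t) d').length = d'.length := by
      intro d'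
      induction d' with
      | nil => rfl
      | cons x l ih =>
        show (lets (P := P.toPG0) (ext t) l).length + 1 = l.length + 1
        rw [ih]
    exact hlen' d
  obtain ⟨hF1, hF2⟩ := f1a_facts (ext t) l g 0 hlok
  have hpv := f1a_pv l g n hlen
  have hcom : ∀ j : Fin g, (nth l j).A * (nth l j).B * (nth l j).A⁻¹ * (nth l j).B⁻¹ = (nth l j).val := by
    intro j
    obtain ⟨a, b, -, -, h3⟩ := hF1 j j.2 (by rw [hlen]; omega)
    rw [h3]
    exact f1a_comm a b
  have hpt : ∀ i : Fin n, (nth l (g + i)).A = (nth l (g + i)).val := by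
    intro i
    obtain ⟨A, h3, -⟩ := hF2 i (by rw [hlen]; omega)
    rw [h3]
    rfl
  have hmem : ∀ j : Fin g, (nth l j).A ∈ P.G R ∧ (nth l j).B ∈ P.G R := by
    intro j
    obtain ⟨a, b, ha, hb, h3⟩ := hF1 j j.2 (by rw [hlen]; omega)
    rw [h3]
    exact ⟨mul_mem (mul_mem (inv_mem ha) (inv_mem hb)) ha,
      mul_mem (mul_mem (mul_mem (mul_mem (inv_mem ha) hb) ha) (inv_mem hb)) ha⟩
  refine ⟨?_, fun j => mul_mem (mul_mem hg (hmem j).1) (inv_mem hg),
    fun j => mul_mem (mul_mem hg (hmem j).2) (inv_mem hg), fun i => ?_⟩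
  · show (List.ofFn fun j : Fin g => g₀ * (nth l j).A * g₀⁻¹ * (g₀ * (nth l j).B * g₀⁻¹) *
      (g₀ * (nth l j).A * g₀⁻¹)⁻¹ * (g₀ * (nth l j).B * g₀⁻¹)⁻¹).prod *
      (List.ofFn fun i : Fin (n + 1) => if (i : ℕ) < n then g₀ * (nth l (g + i)).A * g₀⁻¹ else
        g₀ * (pv l)⁻¹ * g₀⁻¹).prod = 1
    have e1 : (fun j : Fin g => g₀ * (nth l j).A * g₀⁻¹ * (g₀ * (nth l j).B * g₀⁻¹) *
      (g₀ * (nth l j).A * g₀⁻¹)⁻¹ * (g₀ * (nth l j).B * g₀⁻¹)⁻¹) =
        fun j : Fin g => g₀ * (nth l j).val * g₀⁻¹ := by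
      funext j
      rw [← hcom j]
      group
    rw [e1, f1a_conj, List.ofFn_succ']
    have e2 : (fun i : Fin n => if ((Fin.castSucc i : Fin (n + 1)) : ℕ) < n then
        g₀ * (nth l (g + (Fin.castSucc i : Fin (n + 1)))).A * g₀⁻¹ else g₀ * (pv l)⁻¹ * g₀⁻¹) =
        fun i : Fin n => g₀ * (nth l (g + i)).val * g₀⁻¹ := by
      funext i
      rw [if_pos (by rw [Fin.val_castSucc]; exact i.2), ← hpt i]
      rfl
    rw [e2, List.concat_eq_append, List.prod_append, f1a_conj, List.prod_singleton,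
      if_neg (by rw [Fin.val_last]; exact lt_irrefl _), hpv]
    group
  · show HasClass P.toPG0 (t i) (if (i : ℕ) < n then g₀ * (nth l (g + i)).A * g₀⁻¹ else
      g₀ * (pv l)⁻¹ * g₀⁻¹)
    split_ifs with hi
    · obtain ⟨A, h3, h4⟩ := hF2 i (by rw [hlen]; omega)
      rw [h3]
      have h5 : ext t (0 + (i : ℕ)) = t i := by
        rw [zero_add]
        unfold ext
        rw [dif_pos i.2]
      rw [h5] at h4
      exact B7.class_conj hg h4
    · have h6 : i = Fin.last n := by
        apply Fin.ext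
        rw [Fin.val_last]
        have := i.2
        omega
      rw [h6]
      obtain ⟨u, hu, h7⟩ := B7.closes_inv (ext t) (t (Fin.last n)) d hd3 hd4 hd5
      refine B7.class_conj hg ⟨1, one_mem _, u, hu, ?_⟩
      rw [h7]
      group

end Pool.Agent.CHV.F1
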