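import Pool.Agent.CHV.B7
import Pool.Agent.CHV.B9

/-! # CHV, row F1b: tuples and words -/

set_option autoImplicit false

namespace Pool.Agent.CHV.F1

open Matrix

variable {P : PG}

theorem f1b_conj {G : Type} [Group G] (g₀ : G) {n : ℕ} (f : Fin n → G) :
    (List.ofFn fun i => g₀ * f i * g₀⁻¹).prod = g₀ * (List.ofFn f).prod * g₀⁻¹ := by
  have h1 := map_list_prod (MulAut.conj g₀).toMonoidHom (List.ofFn f)
  rw [List.map_ofFn] at h1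
  exact h1.symm

/-- the first matrix of the handle -/
theorem f1b_A {G : Type} [Group G] (g a b : G) :
    (g⁻¹ * (a * b * a⁻¹) * g)⁻¹ * (g⁻¹ * (a * b * a⁻¹ * b⁻¹ * a⁻¹) * g)⁻¹ * (g⁻¹ * (a * b * a⁻¹) * g) =
      g⁻¹ * a * g := by group

theorem f1b_B {G : Type} [Group G] (g a b : G) :
    (g⁻¹ * (a * b * a⁻¹) * g)⁻¹ * (g⁻¹ * (a * b * a⁻¹ * b⁻¹ * a⁻¹) * g) * (g⁻¹ * (a * b * a⁻¹) * g) *
      (g⁻¹ * (a * b * a⁻¹ * b⁻¹ * a⁻¹) * g)⁻¹ * (g⁻¹ * (a * b * a⁻¹) * g) = g⁻¹ * b * g := by group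

theorem f1b_val {G : Type} [Group G] (g a b : G) :
    (g⁻¹ * (a * b * a⁻¹ * b⁻¹ * a⁻¹) * g) * (g⁻¹ * (a * b * a⁻¹) * g)⁻¹ *
      (g⁻¹ * (a * b * a⁻¹ * b⁻¹ * a⁻¹) * g)⁻¹ * (g⁻¹ * (a * b * a⁻¹) * g) =
      g⁻¹ * (a * b * a⁻¹ * b⁻¹) * g := by group

theorem f1b_lok {R : Type} [CommRing R] (t : ℕ → Fin P.nT → Rˣ) (g n j : ℕ)
    (a b : Fin g → GL (Fin P.m) R) (c : Fin n → GL (Fin P.m) R) (ha : ∀ i, a i ∈ P.G R)
    (hb : ∀ i, b i ∈ P.G R) (hc : ∀ i : Fin n, HasClass P.toPG0 (t (j + i)) (c i)) :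
    LOK t g j ((List.ofFn fun i => Lt.hd (a i) (b i)) ++ List.ofFn fun i => Lt.pt (c i)) := by
  induction g with
  | zero =>
    rw [List.ofFn_zero, List.nil_append]
    induction n generalizing j with
    | zero => trivial
    | succ n ih =>
      rw [List.ofFn_succ]
      refine ⟨hc 0, ih (j + 1) (fun i => c i.succ) fun i => ?_⟩
      have h1 := hc i.succ
      have h2 : j + ((i.succ : Fin (n + 1)) : ℕ) = j + 1 + (i : ℕ) := by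
        rw [Fin.val_succ]
        omega
      rw [h2] at h1
      exact h1
  | succ g ih =>
    rw [List.ofFn_succ, List.cons_append]
    exact ⟨ha 0, hb 0, ih (fun i => a i.succ) (fun i => b i.succ) (fun i => ha _) (fun i => hb _)⟩

theorem f1b_nth_lt {R : Type} [CommRing R] {m g n : ℕ} (x : Fin g → Lt m R) (y : Fin n → Lt m R) (i : Fin g) :
    nth (List.ofFn x ++ List.ofFn y) i = x i := by
  unfold nth
  rw [List.getD_eq_getElem _ _ (by rw [List.length_append, List.length_ofFn]; omega)]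
  rw [List.getElem_append_left (by rw [List.length_ofFn]; exact i.2), List.getElem_ofFn]

theorem f1b_nth_ge {R : Type} [CommRing R] {m g n : ℕ} (x : Fin g → Lt m R) (y : Fin n → Lt m R) (i : Fin n) :
    nth (List.ofFn x ++ List.ofFn y) (g + i) = y i := by
  unfold nth
  rw [List.getD_eq_getElem _ _ (by rw [List.length_append, List.length_ofFn, List.length_ofFn]; omega)]
  rw [List.getElem_append_right (by rw [List.length_ofFn]; omega), List.getElem_ofFn]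
  congr 1
  apply Fin.ext
  show g + (i : ℕ) - (List.ofFn x).length = i
  rw [List.length_ofFn]
  omega

/-- [CHV-F1b] Proof: let `c_n = f * (u * h(t n)) * f⁻¹` be the last puncture. `B5.bruhat` for `f`:
`f = u₀ * dot w₀ * b`, `b = h z * u'`, and `u₀ = kel lu` for a reduced full word (`B3.kel_surj` with
`v = []`, `A4.exists_full` for `[]`). Let `g₀ = kel lu * dot w₀`. The word
`l = List.ofFn (hd α_j β_j) ++ List.ofFn (pt c_i)_{i < n}`, conjugated by `g₀⁻¹`, where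
`α = a b a⁻¹`, `β = a b a⁻¹ b⁻¹ a⁻¹` (so that `α⁻¹ β⁻¹ α = a`, `α⁻¹ β α β⁻¹ α = b`), satisfies
`LOK (ext t) g 0` (`B7.class_conj`), so `B9.exists_lets` gives `d`. The relation gives
`pv (lets d) = (g₀⁻¹ * c_n * g₀)⁻¹`, and `g₀⁻¹ c_n g₀ = b * (u * h(t n)) * b⁻¹ = u₁ * h(t n)`, so
`Closes` by `B7.closes_of`. -/
theorem exists_data {F : Type} [Field F] [IsAlgClosed F] [CharZero F] (g n : ℕ)
    (t : Fin (n + 1) → Fin P.nT → Fˣ)
    (ρ : (Fin g → GL (Fin P.m) F) × (Fin g → GL (Fin P.m) F) × (Fin (n + 1) → GL (Fin P.m) F))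
    (hρ : ρ ∈ RelRep P.toPG0 g (n + 1) t) :
    ∃ (d : List (LD P.toRD F Fˣ)) (lu : List (P.S × F)) (w₀ : List P.S),
      DOK g 0 d ∧ d.length = g + n ∧ (∀ x ∈ d, x.Valid) ∧ AdmD P.toRD d ∧
      Closes (ext t) (t (Fin.last n)) d ∧ P.Red (wrd lu) ∧
      tup g n (lets (P := P.toPG0) (ext t) d) (kel P.toPG0 lu * P.dot F w₀) = ρ := by
  obtain ⟨hrel, hA, hB, hC⟩ := hρ
  obtain ⟨f, hf, u, hu, hcn⟩ := hC (Fin.last n)
  obtain ⟨u₀, u', w₀, z, hu₀, hu', hfe⟩ := B5.bruhat hf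
  obtain ⟨w₂, hw1, hw2⟩ := A4.exists_full P.toRD (w := []) (A1.red_nil P.toRD)
  obtain ⟨lu, hlu, hlu'⟩ := B3.kel_surj (R := F) [] w₂ hw1 hw2 u₀ hu₀ (by
    rw [B1.dot_nil, one_mul, inv_one, mul_one]
    exact hu₀)
  rw [List.nil_append] at hw1
  set g₀ : GL (Fin P.m) F := kel P.toPG0 lu * P.dot F w₀ with hg₀
  have hg₀m : g₀ ∈ P.G F := by
    rw [hg₀, ← hlu']
    exact mul_mem (P.U_le _ hu₀) (B1.dot_mem P _)
  have hfe' : f = g₀ * (P.h F z * u') := by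
    rw [hg₀, ← hlu', hfe]
  -- the word
  set l : List (Lt P.m F) := (List.ofFn fun j => Lt.hd (g₀⁻¹ * (ρ.1 j * ρ.2.1 j * (ρ.1 j)⁻¹) * g₀)
    (g₀⁻¹ * (ρ.1 j * ρ.2.1 j * (ρ.1 j)⁻¹ * (ρ.2.1 j)⁻¹ * (ρ.1 j)⁻¹) * g₀)) ++
    List.ofFn fun i : Fin n => Lt.pt (g₀⁻¹ * ρ.2.2 i.castSucc * g₀) with hl
  have hlok : LOK (ext t) g 0 l := by
    refine f1b_lok (ext t) g n 0 _ _ _ (fun j => ?_) (fun j => ?_) (fun i => ?_)
    · exact mul_mem (mul_mem (inv_mem hg₀m) (mul_mem (mul_mem (hA j) (hB j)) (inv_mem (hA j)))) hg₀m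
    · exact mul_mem (mul_mem (inv_mem hg₀m) (mul_mem (mul_mem (mul_mem (mul_mem (hA j) (hB j)) (inv_mem (hA j)))
        (inv_mem (hB j))) (inv_mem (hA j)))) hg₀m
    · have h1 := B7.class_conj (inv_mem hg₀m) (hC i.castSucc)
      rw [inv_inv] at h1
      have h5 : ext t (0 + (i : ℕ)) = t i.castSucc := by
        rw [zero_add]
        unfold ext
        rw [dif_pos (by omega)]
        rfl
      rw [h5]
      exact h1
  obtain ⟨d, hd1, hd2, hd3, hd4, hd5⟩ := B9.exists_lets (ext t) g 0 l hlok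
  have hlen : l.length = g + n := by
    rw [hl, List.length_append, List.length_ofFn, List.length_ofFn]
  -- the product
  have hpv : pv l = g₀⁻¹ * (ρ.2.2 (Fin.last n))⁻¹ * g₀ := by
    have h1 : pv l = (List.ofFn fun j : Fin g => g₀⁻¹ * (ρ.1 j * ρ.2.1 j * (ρ.1 j)⁻¹ * (ρ.2.1 j)⁻¹) * g₀⁻¹⁻¹).prod *
        (List.ofFn fun i : Fin n => g₀⁻¹ * ρ.2.2 i.castSucc * g₀⁻¹⁻¹).prod := by
      rw [inv_inv]
      unfold pv
      rw [hl, List.map_append, List.prod_append, List.map_ofFn, List.map_ofFn]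
      congr 2
      congr 1
      funext j
      exact f1b_val g₀ (ρ.1 j) (ρ.2.1 j)
    rw [h1, f1b_conj, f1b_conj]
    have h2 : (List.ofFn fun j : Fin g => ρ.1 j * ρ.2.1 j * (ρ.1 j)⁻¹ * (ρ.2.1 j)⁻¹).prod *
        (List.ofFn ρ.2.2).prod = 1 := hrel
    rw [List.ofFn_succ', List.concat_eq_append, List.prod_append, List.prod_singleton] at h2
    generalize (List.ofFn fun j : Fin g => ρ.1 j * ρ.2.1 j * (ρ.1 j)⁻¹ * (ρ.2.1 j)⁻¹).prod = X at h2 ⊢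
    generalize (List.ofFn fun i : Fin n => ρ.2.2 i.castSucc).prod = Y at h2 ⊢
    have h3 : (ρ.2.2 (Fin.last n))⁻¹ = X * Y := by
      refine inv_eq_of_mul_eq_one_left ?_
      rw [mul_assoc]
      exact h2
    rw [h3]
    group
  refine ⟨d, lu, w₀, hd1, by rw [hd2, hlen], hd3, hd4, ?_, by rw [hlu]; exact hw1, ?_⟩
  · refine B7.closes_of (ext t) (t (Fin.last n)) d hd3 hd4
      (P.h F z * (u' * (u * (P.h F (t (Fin.last n)) * u'⁻¹ * (P.h F (t (Fin.last n)))⁻¹))) * (P.h F z)⁻¹)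
      (P.h_U F z _ (mul_mem hu' (mul_mem hu (P.h_U F _ _ (inv_mem hu'))))) ?_
    rw [hd5, hpv, hcn, hfe']
    have hcomm : P.h F z * P.h F (t (Fin.last n)) * (P.h F z)⁻¹ = P.h F (t (Fin.last n)) := by
      rw [← map_mul, mul_comm, map_mul]
      group
    generalize P.h F (t (Fin.last n)) = T at hcomm ⊢
    generalize P.h F z = Z at hcomm ⊢
    calc (g₀⁻¹ * (g₀ * (Z * u') * (u * T) * (g₀ * (Z * u'))⁻¹)⁻¹ * g₀)⁻¹ = Z * u' * u * T * u'⁻¹ * Z⁻¹ := by group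
      _ = Z * u' * u * T * u'⁻¹ * T⁻¹ * Z⁻¹ * (Z * T * Z⁻¹) := by group
      _ = Z * u' * u * T * u'⁻¹ * T⁻¹ * Z⁻¹ * T := by rw [hcomm]
      _ = _ := by group
  · rw [hd5]
    refine Prod.ext ?_ (Prod.ext ?_ ?_)
    · funext j
      show g₀ * (nth l j).A * g₀⁻¹ = ρ.1 j
      rw [hl, f1b_nth_lt]
      show g₀ * ((g₀⁻¹ * (ρ.1 j * ρ.2.1 j * (ρ.1 j)⁻¹) * g₀)⁻¹ *
        (g₀⁻¹ * (ρ.1 j * ρ.2.1 j * (ρ.1 j)⁻¹ * (ρ.2.1 j)⁻¹ * (ρ.1 j)⁻¹) * g₀)⁻¹ *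
        (g₀⁻¹ * (ρ.1 j * ρ.2.1 j * (ρ.1 j)⁻¹) * g₀)) * g₀⁻¹ = ρ.1 j
      rw [f1b_A]
      group
    · funext j
      show g₀ * (nth l j).B * g₀⁻¹ = ρ.2.1 j
      rw [hl, f1b_nth_lt]
      show g₀ * ((g₀⁻¹ * (ρ.1 j * ρ.2.1 j * (ρ.1 j)⁻¹) * g₀)⁻¹ *
        (g₀⁻¹ * (ρ.1 j * ρ.2.1 j * (ρ.1 j)⁻¹ * (ρ.2.1 j)⁻¹ * (ρ.1 j)⁻¹) * g₀) *
        (g₀⁻¹ * (ρ.1 j * ρ.2.1 j * (ρ.1 j)⁻¹) * g₀) *
        (g₀⁻¹ * (ρ.1 j * ρ.2.1 j * (ρ.1 j)⁻¹ * (ρ.2.1 j)⁻¹ * (ρ.1 j)⁻¹) * g₀)⁻¹ *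
        (g₀⁻¹ * (ρ.1 j * ρ.2.1 j * (ρ.1 j)⁻¹) * g₀)) * g₀⁻¹ = ρ.2.1 j
      rw [f1b_B]
      group
    · funext i
      show (if (i : ℕ) < n then g₀ * (nth l (g + i)).A * g₀⁻¹ else g₀ * (pv l)⁻¹ * g₀⁻¹) = ρ.2.2 i
      split_ifs with hi
      · obtain ⟨k, rfl⟩ : ∃ k : Fin n, i = k.castSucc := ⟨⟨i, hi⟩, rfl⟩
        have h1 : ((k.castSucc : Fin (n + 1)) : ℕ) = (k : ℕ) := rfl
        rw [h1, hl, f1b_nth_ge]
        show g₀ * (g₀⁻¹ * ρ.2.2 k.castSucc * g₀) * g₀⁻¹ = ρ.2.2 k.castSucc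
        group
      · have h6 : i = Fin.last n := by
          apply Fin.ext
          rw [Fin.val_last]
          have := i.2
          omega
        rw [h6, hpv]
        group

end Pool.Agent.CHV.F1
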