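import Pool.Agent.CHV.D2

/-! # CHV, F2a: the constants are in the subgroup of the powers -/

set_option autoImplicit false

namespace Pool.Agent.CHV.F2

open Matrix

variable {P : PG} {R : Type} [CommRing R]

/-- The points of the torus with coordinates in `H`. -/
def Pt (H : Subgroup Rˣ) (n : ℕ) : Subgroup (Fin n → Rˣ) := Subgroup.pi Set.univ fun _ => H

theorem mem_pt {H : Subgroup Rˣ} {n : ℕ} {z : Fin n → Rˣ} : z ∈ Pt H n ↔ ∀ l, z l ∈ H := by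
  simp [Pt, Subgroup.mem_pi]

theorem tact_mem {H : Subgroup Rˣ} {n : ℕ} {z : Fin n → Rˣ} (hz : z ∈ Pt H n)
    (A : (Fin n → ℤ) ≃ₗ[ℤ] (Fin n → ℤ)) : tact A z ∈ Pt H n := by
  rw [mem_pt] at hz ⊢
  intro l
  exact Subgroup.prod_mem _ fun k _ => Subgroup.zpow_mem _ (hz k) _

theorem sg_mem {H : Subgroup Rˣ} (h1 : (-1 : Rˣ) ∈ H) (w : List P.S) :
    P.sg R w ∈ Pt H P.nT := by
  rw [mem_pt]
  intro l
  show Units.map ((Int.castRingHom R : ℤ →+* R) : ℤ →* R) (P.eps w l) ∈ H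
  rcases Int.units_eq_one_or (P.eps w l) with h | h
  · rw [h, map_one]; exact one_mem _
  · rw [h]
    have e : Units.map ((Int.castRingHom R : ℤ →+* R) : ℤ →* R) (-1) = (-1 : Rˣ) := by
      ext; simp
    rw [e]; exact h1

theorem th_mem {H : Subgroup Rˣ} (h1 : (-1 : Rˣ) ∈ H) (v₁ v₂ : List P.S)
    {t : Fin P.nT → Rˣ} (ht : t ∈ Pt H P.nT) : P.th v₁ v₂ t ∈ Pt H P.nT :=
  mul_mem (inv_mem (sg_mem h1 _)) (tact_mem ht _)

theorem cst_mem {α β : Type} {H : Subgroup Rˣ} (h1 : (-1 : Rˣ) ∈ H) {t : ℕ → Fin P.nT → Rˣ}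
    (ht : ∀ j, t j ∈ Pt H P.nT) (d : LD P.toRD α β) : d.cst t ∈ Pt H P.nT := by
  cases d with
  | pt j l₁ l₂ k => exact th_mem h1 _ _ (ht j)
  | hd l₁ l₂ l₃ l₄ ka kb ta tb =>
    exact mul_mem (inv_mem (sg_mem h1 _)) (inv_mem (sg_mem h1 _))

theorem Cst_mem {α β : Type} {H : Subgroup Rˣ} (h1 : (-1 : Rˣ) ∈ H) {t : ℕ → Fin P.nT → Rˣ}
    (ht : ∀ j, t j ∈ Pt H P.nT) (d : List (LD P.toRD α β)) : Cst t d ∈ Pt H P.nT := by
  apply Subgroup.list_prod_mem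
  intro x hx
  rw [List.mem_map] at hx
  obtain ⟨y, -, rfl⟩ := hx
  exact cst_mem h1 ht y

theorem tmap_inj {R' : Type} [CommRing R'] {n : ℕ} (f : R →+* R') (hf : Function.Injective f)
    {z z' : Fin n → Rˣ} (h : tmap f z = tmap f z') : z = z' := by
  funext l
  have h1 := congrFun h l
  apply Units.ext
  apply hf
  exact congrArg Units.val h1

end Pool.Agent.CHV.F2
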