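import Pool.Agent.CHV.B8
import Pool.Agent.CHV.C1
import Pool.Agent.CHV.C2
import Pool.Agent.CHV.C3
import Pool.Agent.CHV.F1a
import Pool.Agent.CHV.F1b
import Pool.Agent.CHV.F2a

/-! # CHV, F2: potential density for all pinned groups and all affine curves -/

set_option autoImplicit false

namespace Pool.Agent.CHV.F2

open Matrix NumberField

section

variable {P : PG}

/-- The extension by zero. -/
def xc {R : Type} [Zero R] {N : ℕ} (c : Fin N → R) (j : ℕ) : R := if h : j < N then c ⟨j, h⟩ else 0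

theorem xc_map {R R' : Type} [CommRing R] [CommRing R'] (f : R →+* R') {N : ℕ} (c : Fin N → R) :
    (fun j => f (xc c j)) = xc fun j => f (c j) := by
  funext j
  unfold xc
  split_ifs
  · rfl
  · exact map_zero f

theorem ext_map {M M' : Type} [Monoid M] [Monoid M'] (f : M →* M') {N : ℕ} (z : Fin N → M) :
    (fun j => f (ext z j)) = ext fun j => f (z j) := by
  funext j
  unfold ext
  split_ifs
  · rfl
  · exact map_one f

/-- The tuple with the labelled data `d'`, `lu'` and the parameters `c`, `z`. -/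
noncomputable def Tup {R : Type} [CommRing R] (g n : ℕ) (t : ℕ → Fin P.nT → Rˣ)
    (d' : List (LD P.toRD ℕ ℕ)) (lu' : List (P.S × ℕ)) (w₀ : List P.S) (c : ℕ → R) (z : ℕ → Rˣ) :
    (Fin g → GL (Fin P.m) R) × (Fin g → GL (Fin P.m) R) × (Fin (n + 1) → GL (Fin P.m) R) :=
  tup g n (lets (P := P.toPG0) t (d'.map (LD.map c z)))
    (kel P.toPG0 (kmap c lu') * P.dot R w₀)

theorem coords_map {R R' : Type} [CommRing R] [CommRing R'] (f : R →+* R') {g n m : ℕ}
    (ρ : (Fin g → GL (Fin m) R) × (Fin g → GL (Fin m) R) × (Fin n → GL (Fin m) R)) :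
    coords ((fun j => mp f (ρ.1 j)), (fun j => mp f (ρ.2.1 j)), fun j => mp f (ρ.2.2 j)) =
      fun x => f (coords ρ x) := by
  funext x
  rcases x with ⟨j | j | j, x⟩ <;> rfl

theorem kmap_kmap {σ α α' α'' : Type} (c : α → α') (c' : α' → α'') (l : List (σ × α)) :
    kmap c' (kmap c l) = kmap (c' ∘ c) l := by
  simp [kmap]

theorem Tup_map {R R' : Type} [CommRing R] [CommRing R'] (f : R →+* R') (g n : ℕ)
    (t : ℕ → Fin P.nT → Rˣ) (d' : List (LD P.toRD ℕ ℕ)) (hd : AdmD P.toRD d')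
    (lu' : List (P.S × ℕ)) (w₀ : List P.S) (c : ℕ → R) (z : ℕ → Rˣ) :
    coords (Tup g n (fun j => tmap f (t j)) d' lu' w₀ (fun j => f (c j))
        (fun j => Units.map (f : R →* R') (z j))) =
      fun x => f (coords (Tup g n t d' lu' w₀ c z) x) := by
  rw [← coords_map]
  congr 1
  unfold Tup
  rw [← B4.tup_map, map_mul, B1.dot_map, B4.kel_map, kmap_kmap,
    B4.lets_map f t _ ((B4.admD_map c z d').2 hd), C3.map_map]
  rfl

end

variable {P : PG}

/-- Potential density of the integral points: all pinned groups, all affine curves; the number field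
depends only on the group and on a finite set which contains the coordinates of the classes. -/
theorem main {K : Type} [Field K] [NumberField K] (T₀ : Finset (𝓞 K)ˣ) :
    ∃ (L : Type) (_ : Field L) (_ : NumberField L) (_ : Algebra K L),
      ∀ (g n : ℕ) (t : Fin (n + 1) → Fin P.nT → (𝓞 K)ˣ), (∀ i l, t i l ∈ T₀) →
        ∀ (Ω : Type) [Field Ω] [IsAlgClosed Ω] [Algebra L Ω]
        (F : MvPolynomial ((Fin g ⊕ Fin g ⊕ Fin (n + 1)) × Fin P.m × Fin P.m) Ω),
        (∀ ρ ∈ RelRep P.toPG0 g (n + 1) (fun i => tmap (algebraMap (𝓞 K) (𝓞 L)) (t i)),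
          MvPolynomial.aeval (fun x => algebraMap L Ω (algebraMap (𝓞 L) L (coords ρ x))) F =
            (0 : Ω)) →
        ∀ ρ ∈ RelRep P.toPG0 g (n + 1)
          (fun i => tmap (((algebraMap L Ω).comp (algebraMap (𝓞 L) L)).comp
            (algebraMap (𝓞 K) (𝓞 L))) (t i)),
          MvPolynomial.aeval (coords ρ) F = (0 : Ω) := by
  classical
  obtain ⟨b₀, hb1, hb2⟩ := A4.exists_bound P.toRD
  set b : ℕ := max b₀ 1 with hbdef
  have hb : 1 ≤ b := le_max_right _ _
  set Δ : ℕ := (P.nT.factorial * b ^ P.nT).factorial with hΔdef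
  have hΔ0 : 0 < Δ := Nat.factorial_pos _
  have hΔ : ∀ D : ℕ, 1 ≤ D → D ≤ P.nT.factorial * b ^ P.nT → D ∣ Δ := fun D h1 h2 =>
    Nat.dvd_factorial h1 h2
  let T : Finset (𝓞 K)ˣ := insert (-1) T₀
  obtain ⟨L, iL, nL, aL, hL1, hL2, v, hv⟩ := C2.exists_L T Δ hΔ0
  refine ⟨L, iL, nL, aL, fun g n t htT Ω _ _ _ F hF ρ hρ => ?_⟩
  have hchar : CharZero Ω := charZero_of_injective_algebraMap (algebraMap L Ω).injective
  -- the homomorphism from the integers
  set f : 𝓞 L →+* Ω := (algebraMap L Ω).comp (algebraMap (𝓞 L) L) with hfdef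
  have hfi : Function.Injective f := (algebraMap L Ω).injective.comp
    (FaithfulSMul.algebraMap_injective (𝓞 L) L)
  set tO : Fin (n + 1) → Fin P.nT → (𝓞 L)ˣ := fun i => tmap (algebraMap (𝓞 K) (𝓞 L)) (t i)
    with htO
  have htΩ : (fun i => tmap (f.comp (algebraMap (𝓞 K) (𝓞 L))) (t i)) = fun i => tmap f (tO i) := by
    funext i
    rw [htO, B1.tmap_tmap]
  rw [htΩ] at hρ
  obtain ⟨d, lu, w₀, hd1, hd2, hd3, hd4, hd5, hlu, hρe⟩ := F1.exists_data g n _ ρ hρ
  -- the labels
  obtain ⟨dx, c₀, z₀, hdx, hnd⟩ := C3.exists_lab (0 : Ω) (1 : Ωˣ)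
    ((LD.pt 0 [] [] lu : LD P.toRD Ω Ωˣ) :: d)
  obtain ⟨N, hN1, hN2⟩ := C3.lab_bound dx
  cases dx with
  | nil => simp at hdx
  | cons x d' =>
  rw [List.map_cons, List.cons.injEq] at hdx
  obtain ⟨hx, hd'⟩ := hdx
  cases x with
  | hd => simp [LD.map] at hx
  | pt j l₁ l₂ lu' =>
  simp only [LD.map, LD.pt.injEq] at hx
  obtain ⟨hj, hl1, hl2, hlu'⟩ := hx
  have hl1' : l₁ = [] := by simpa [smap] using hl1
  have hl2' : l₂ = [] := by simpa [smap] using hl2
  subst hj hl1' hl2'
  have hucol : ucols P.toRD ((LD.pt 0 [] [] lu' : LD P.toRD ℕ ℕ) :: d') = ucols P.toRD d' := rfl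
  rw [hucol] at hnd hN1
  -- properties of the labelled data
  have hA : AdmD P.toRD d' := (B4.admD_map c₀ z₀ d').1 (by rw [hd']; exact hd4)
  have hV : ∀ x ∈ d', x.Valid := by
    intro x hx
    have h1 : x.map c₀ z₀ ∈ d := by rw [← hd']; exact List.mem_map_of_mem hx
    exact (B4.valid_map c₀ z₀ x).1 (hd3 _ h1)
  have hD : DOK g 0 d' := (C3.dok_map c₀ z₀ g 0 d').1 (by rw [hd']; exact hd1)
  have hlen : d'.length = g + n := by rw [← hd2, ← hd', List.length_map]
  have hw : P.wd (procw P.toRD d') = 1 := by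
    have h1 := hd5.1
    rwa [← hd', B4.procw_map] at h1
  have hlur : P.Red (wrd lu') := by
    rw [← B4.wrd_kmap c₀ lu', hlu']; exact hlu
  obtain ⟨B, hB1, hB2⟩ := C3.exists_B d' hnd N hN1
  have hBb : ∀ i l, |B i l| ≤ (b : ℤ) := by
    intro i l
    have hbb : (b₀ : ℤ) ≤ b := by exact_mod_cast le_max_left b₀ 1
    rcases hB1 i with h | ⟨p, hp, h⟩
    · rw [h]; simp
    · rcases C3.ucols_mem d' hV p hp with h1 | ⟨w, l', hw', h1⟩
      · rw [h]; exact (hb1 _ h1 l).trans hbb
      · rw [h, h1]; exact (hb2 w hw' l' l).trans hbb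
  -- the classes
  set tΩ : Fin (n + 1) → Fin P.nT → Ωˣ := fun i => tmap f (tO i) with htΩdef
  have hext : (fun j => tmap f (ext tO j)) = ext tΩ := by
    funext j
    unfold ext
    split_ifs
    · rfl
    · exact B1.tmap_one f
  set δ : Fin P.nT → Ωˣ := (P.sg Ω (procw P.toRD d') * Cst (ext tΩ) d' * tΩ (Fin.last n))⁻¹
    with hδdef
  set M : Subgroup Ωˣ := (Units.map (f : 𝓞 L →* Ω)).range with hMdef
  have hMi : (M : Set Ωˣ).Infinite := by
    have h1 : Function.Injective fun k : ℤ => (Units.map (f : 𝓞 L →* Ω)) (v ^ k) := by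
      intro k k' h
      have h2 : Function.Injective (Units.map (f : 𝓞 L →* Ω)) := Units.map_injective hfi
      have h3 := h2 h
      have h4 : v ^ (k - k') = 1 := by rw [_root_.zpow_sub, h3, mul_inv_cancel]
      have := hv _ h4
      omega
    refine (Set.infinite_range_of_injective h1).mono ?_
    rintro _ ⟨k, rfl⟩
    exact ⟨v ^ k, rfl⟩
  have hC : (Set.range f).Infinite := by
    have h1 : Function.Injective fun k : ℕ => f (k : 𝓞 L) := by
      intro k k' h
      have h2 := hfi h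
      exact_mod_cast h2
    refine (Set.infinite_range_of_injective h1).mono ?_
    rintro _ ⟨k, rfl⟩
    exact ⟨_, rfl⟩
  have hM1 : ∀ ζ : Ωˣ, ζ ^ Δ = 1 → ζ ∈ M := by
    intro ζ hζ
    obtain ⟨ξ, hξ⟩ := hL2 Ω (ζ : Ω) (by rw [← Units.val_pow_eq_pow_val, hζ]; rfl)
    exact ⟨ξ, Units.ext hξ⟩
  -- roots of the constants
  set H : Subgroup Ωˣ := M.map (powMonoidHom Δ) with hHdef
  have hTH : ∀ s ∈ T, Units.map ((f.comp (algebraMap (𝓞 K) (𝓞 L)) : 𝓞 K →+* Ω) : 𝓞 K →* Ω) s ∈ H := by
    intro s hs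
    obtain ⟨η, hη⟩ := hL1 s hs
    refine ⟨Units.map (f : 𝓞 L →* Ω) η, ⟨η, rfl⟩, ?_⟩
    show (Units.map (f : 𝓞 L →* Ω) η) ^ Δ = _
    rw [← map_pow, hη]
    ext
    rfl
  have h1H : (-1 : Ωˣ) ∈ H := by
    have h1 := hTH (-1) (Finset.mem_insert_self _ _)
    have e : Units.map ((f.comp (algebraMap (𝓞 K) (𝓞 L)) : 𝓞 K →+* Ω) : 𝓞 K →* Ω) (-1) =
        (-1 : Ωˣ) := by
      ext
      simp
    rwa [e] at h1
  have htH : ∀ i, tΩ i ∈ Pt H P.nT := by
    intro i
    rw [mem_pt]
    intro l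
    have h1 := hTH (t i l) (Finset.mem_insert_of_mem (htT i l))
    have e : Units.map ((f.comp (algebraMap (𝓞 K) (𝓞 L)) : 𝓞 K →+* Ω) : 𝓞 K →* Ω) (t i l) =
        tΩ i l := by
      ext
      rfl
    rwa [e] at h1
  have hextH : ∀ j, ext tΩ j ∈ Pt H P.nT := by
    intro j
    unfold ext
    split_ifs
    · exact htH _
    · exact one_mem _
  have hδH : δ ∈ Pt H P.nT :=
    inv_mem (mul_mem (mul_mem (sg_mem h1H _) (Cst_mem h1H hextH d')) (htH _))
  have hδ : ∀ l, ∃ η ∈ M, η ^ Δ = δ l := by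
    intro l
    obtain ⟨η, h1, h2⟩ := mem_pt.1 hδH l
    exact ⟨η, h1, h2⟩
  -- the family of tuples
  let Ψ : ∀ (R : Type) [CommRing R] [Algebra Ω R], (Fin N → R) → (Fin N → Rˣ) → R :=
    fun R _ _ c z => MvPolynomial.aeval (coords (Tup g n
      (fun j => tmap (algebraMap Ω R) (ext tΩ j)) d' lu' w₀ (xc c) (ext z))) F
  have hΨ : ∀ (R R' : Type) [CommRing R] [Algebra Ω R] [CommRing R'] [Algebra Ω R']
      (φ : R →ₐ[Ω] R') (c : Fin N → R) (z : Fin N → Rˣ),
      φ (Ψ R c z) = Ψ R' (fun j => φ (c j))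
        (fun i => Units.map ((φ : R →+* R') : R →* R') (z i)) := by
    intro R R' _ _ _ _ φ c z
    show φ (MvPolynomial.aeval _ F) = MvPolynomial.aeval _ F
    rw [MvPolynomial.comp_aeval_apply]
    congr 2
    have h1 := Tup_map (φ : R →+* R') g n (fun j => tmap (algebraMap Ω R) (ext tΩ j)) d' hA lu' w₀
      (xc c) (ext z)
    rw [xc_map, ext_map] at h1
    have h2 : (fun j => tmap (φ : R →+* R') (tmap (algebraMap Ω R) (ext tΩ j))) =
        fun j => tmap (algebraMap Ω R') (ext tΩ j) := by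
      funext j
      rw [B1.tmap_tmap]
      congr 1
      exact φ.comp_algebraMap
    rw [h2] at h1
    exact h1.symm
  have key : ∀ c z, (∀ j, c j ∈ Set.range f) → (∀ i, z i ∈ M) →
      ∏ i, cochar (B i) (z i) = δ → Ψ Ω c z = 0 := by
    intro c z hc hz hprod
    choose cO hcO using hc
    choose zO hzO using hz
    have hce : (fun j => f (xc cO j)) = xc c := by
      rw [xc_map]; congr 1; funext j; exact hcO j
    have hze : (fun j => Units.map (f : 𝓞 L →* Ω) (ext zO j)) = ext z := by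
      rw [ext_map]; congr 1; funext j; exact hzO j
    have hpt : Tup g n (ext tO) d' lu' w₀ (xc cO) (ext zO) ∈ RelRep P.toPG0 g (n + 1) tO := by
      apply F1.tup_mem
      · exact (C3.dok_map _ _ _ _ _).2 hD
      · rw [List.length_map, hlen]
      · intro x hx
        rw [List.mem_map] at hx
        obtain ⟨y, hy, rfl⟩ := hx
        exact (B4.valid_map _ _ y).2 (hV y hy)
      · exact (B4.admD_map _ _ d').2 hA
      · rw [B8.closes_iff, B4.procw_map, B4.ucols_map, B4.cst_map]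
        refine ⟨hw, tmap_inj f hfi ?_⟩
        rw [B1.tmap_mul, B1.tmap_mul, B1.tmap_mul, B1.sg_map, B4.cst_tmap, hext, B1.tmap_one,
          hB2 (𝓞 L) (ext zO)]
        have e1 : tmap f (∏ i : Fin N, cochar (B i) (ext zO i)) = δ := by
          rw [← hprod]
          have h3 : ∀ (s : Finset (Fin N)), tmap f (∏ i ∈ s, cochar (B i) (ext zO i)) =
              ∏ i ∈ s, cochar (B i) (z i) := by
            intro s
            induction s using Finset.induction_on with
            | empty => simpa using B1.tmap_one f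
            | insert a s ha ih =>
              rw [Finset.prod_insert ha, Finset.prod_insert ha, B1.tmap_mul, ih,
                B1.tmap_cochar]
              congr 2
              have h4 := congrFun hze a
              rw [h4]
              unfold ext
              rw [dif_pos a.2]
          exact h3 _
        rw [e1, hδdef]
        exact inv_mul_cancel _
      · exact mul_mem (P.U_le _ (B3.kel_mem _ (by rw [B4.wrd_kmap]; exact hlur)))
          (B1.dot_mem P _)
    have h5 := hF _ hpt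
    have h6 := Tup_map f g n (ext tO) d' hA lu' w₀ (xc cO) (ext zO)
    rw [hce, hze, hext] at h6
    show MvPolynomial.aeval (coords (Tup g n
      (fun j => tmap (algebraMap Ω Ω) (ext tΩ j)) d' lu' w₀ (xc c) (ext z))) F = 0
    have h7 : (fun j => tmap (algebraMap Ω Ω) (ext tΩ j)) = ext tΩ := by
      funext j
      exact B1.tmap_id _
    rw [h7, h6]
    exact h5
  have hfin := C1.mondens P.nT N N b Δ hb hΔ B hBb (Set.range f) hC M hMi hM1 δ hδ Ψ hΨ key
    (fun j => c₀ j) (fun j => z₀ j) (by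
      have h1 := ((B8.closes_iff _ _ d).1 hd5).2
      rw [← hd', B4.ucols_map, B4.cst_map, B4.procw_map, hB2 Ω z₀] at h1
      rw [hδdef]
      exact eq_inv_of_mul_eq_one_left h1)
  have h8 : MvPolynomial.aeval (coords (Tup g n
      (fun j => tmap (algebraMap Ω Ω) (ext tΩ j)) d' lu' w₀ (xc fun j : Fin N => c₀ j)
        (ext fun j : Fin N => z₀ j))) F = 0 := hfin
  have h7 : (fun j => tmap (algebraMap Ω Ω) (ext tΩ j)) = ext tΩ := by
    funext j
    exact B1.tmap_id _
  rw [h7] at h8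
  have h9 := hN2 Ω Ωˣ (xc fun j : Fin N => c₀ j) c₀ (ext fun j : Fin N => z₀ j) z₀
    (by intro i hi; unfold xc; rw [dif_pos hi]) (by intro i hi; unfold ext; rw [dif_pos hi])
  rw [List.map_cons, List.map_cons, List.cons.injEq] at h9
  obtain ⟨h10, h11⟩ := h9
  simp only [LD.map, LD.pt.injEq] at h10
  have h12 : Tup g n (ext tΩ) d' lu' w₀ (xc fun j : Fin N => c₀ j) (ext fun j : Fin N => z₀ j) =
      ρ := by
    unfold Tup
    rw [h11, h10.2.2.2, hd', hlu']
    exact hρe
  rw [h12] at h8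
  exact h8

end Pool.Agent.CHV.F2
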