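import Pool.Agent.CHV.B1

/-! # CHV: pinned groups, the two forms of the definition -/

set_option autoImplicit false

namespace Pool.Agent.CHV.P1

open Matrix

theorem sr_eq_rf (D : RD) (i : D.S) (y : Fin D.nT → ℤ) : D.sr i y = D.rf i y :=
  A1.sr_apply D i y

theorem wd_eq_wa (D : RD) (w : List D.S) (y : Fin D.nT → ℤ) : D.wd w y = D.wa w y := by
  induction w with
  | nil => rfl
  | cons i w ih =>
    rw [A1.wd_cons, LinearEquiv.mul_apply, ih, sr_eq_rf]
    rfl

theorem pos_iff (D : RD) (w : List D.S) (i : D.S) : D.Pos w i ↔ 0 < D.ht ⬝ᵥ D.wa w (D.al i) := by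
  unfold RD.Pos
  rw [wd_eq_wa]

theorem full_iff (D : RD) (w : List D.S) : D.Full w ↔
    ∀ v ∈ D.co, 0 < D.ht ⬝ᵥ v → D.ht ⬝ᵥ D.wa w v < 0 := by
  unfold RD.Full
  simp only [wd_eq_wa]

theorem wd_one_iff (D : RD) (w : List D.S) : D.wd w = 1 ↔ ∀ y, D.wa w y = y := by
  constructor
  · intro h y
    rw [← wd_eq_wa, h]
    rfl
  · intro h
    refine LinearEquiv.ext fun y => ?_
    rw [wd_eq_wa, h]
    rfl

theorem tact_sr (D : RD) {R : Type} [CommRing R] (i : D.S) (z : Fin D.nT → Rˣ) :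
    tact (D.sr i) z = z * (cochar (D.al i) (char (D.rt (D.al i)) z))⁻¹ := by
  funext j
  have h1 : ∀ k : Fin D.nT, D.sr i (Pi.single k 1) j =
      (Pi.single k 1 : Fin D.nT → ℤ) j - D.rt (D.al i) k * D.al i j := by
    intro k
    rw [sr_eq_rf]
    unfold RD.rf
    rw [dotProduct_single, mul_one, Pi.sub_apply, Pi.smul_apply, smul_eq_mul]
  have h2 : ∀ k : Fin D.nT, z k ^ D.sr i (Pi.single k 1) j =
      z k ^ (Pi.single k 1 : Fin D.nT → ℤ) j * ((z k ^ D.rt (D.al i) k) ^ D.al i j)⁻¹ := by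
    intro k
    rw [h1, _root_.zpow_sub, _root_.zpow_mul]
  unfold tact
  rw [Finset.prod_congr rfl fun k _ => h2 k, Finset.prod_mul_distrib, Finset.prod_inv_distrib,
    Finset.prod_zpow]
  congr 1
  rw [Finset.prod_eq_single j]
  · rw [Pi.single_eq_same, _root_.zpow_one]
  · intro k _ hk
    rw [Pi.single_eq_of_ne (Ne.symm hk), _root_.zpow_zero]
  · intro h
    exact absurd (Finset.mem_univ _) h

theorem gens_eq (P : PG0) (F : Type) [CommRing F] : P.gens F =
    (P.U F : Set (GL (Fin P.m) F)) ∪ Set.range (P.h F) ∪ Set.range (P.sd F) := by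
  ext g
  unfold PG0.gens PG0.to
  simp only [Set.mem_ofPred_eq, Set.mem_union, Set.mem_range, SetLike.mem_coe, or_assoc, eq_comm]

/-- From the short form to the long form. -/
theorem toPG (P : PG0) (h : P.Pinned) : ∃ Q : PG, Q.toPG0 = P := by
  obtain ⟨h1, h2, h3, h4, h5, h6, h7, h8, h9, h10⟩ := h
  exact ⟨{ toPG0 := P
           G_closed := h1
           U_closed := h2
           U_le := h10.1
           h_map := h3.1
           h_mem := fun R _ z => (h3.2 R z).1
           h_U := fun R _ z => (h3.2 R z).2.1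
           h_inter := fun R _ z => (h3.2 R z).2.2
           x_map := h4.1
           x_add := h4.2
           e_map := h5.1
           e_mul := fun R _ i => (h5.2 R i).1
           e_x := fun R _ i => (h5.2 R i).2
           s_mem := fun i => (h6.1 i).1
           s_sq := fun i => (h6.1 i).2
           s_h := fun R _ i z => by rw [tact_sr]; exact h6.2 R i z
           s_ker := fun R _ i u hu h0 => by
             have := h7.1 R i u hu h0
             unfold cnj at this
             rw [inv_inv] at this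
             exact this
           rank_one := h7.2
           x_pos := fun R _ w i c hw => h8 R w i c ((pos_iff _ w i).1 hw)
           wd_one := fun w hw => h9.1 w ((wd_one_iff _ w).1 hw)
           opp := fun R _ w hw => h9.2 R w ((full_iff _ w).1 hw)
           gen := fun F _ _ _ => by rw [← gens_eq]; exact h10.2 F }, rfl⟩

/-- From the long form to the short form. -/
theorem pinned (Q : PG) : Q.toPG0.Pinned := by
  refine ⟨Q.G_closed, Q.U_closed, ⟨Q.h_map, fun R _ z => ⟨Q.h_mem R z, Q.h_U R z, Q.h_inter R z⟩⟩,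
    ⟨Q.x_map, Q.x_add⟩, ⟨Q.e_map, fun R _ i => ⟨Q.e_mul R i, Q.e_x R i⟩⟩,
    ⟨fun i => ⟨Q.s_mem i, Q.s_sq i⟩, fun R _ i z => ?_⟩, ⟨fun R _ i u hu h0 => ?_, Q.rank_one⟩,
    fun R _ w i c hw => Q.x_pos R w i c ((pos_iff _ w i).2 hw),
    ⟨fun w hw => Q.wd_one w ((wd_one_iff _ w).2 hw),
      fun R _ w hw => Q.opp R w ((full_iff _ w).2 hw)⟩, ⟨Q.U_le, fun F _ _ _ => ?_⟩⟩
  · rw [← tact_sr]
    exact Q.s_h R i z
  · unfold cnj
    rw [inv_inv]
    exact Q.s_ker R i u hu h0
  · rw [gens_eq]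
    exact Q.gen F

end Pool.Agent.CHV.P1
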