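import Pool.Agent.CHV.S3

/-! # CHV, row S4: classes and characteristic polynomials of symplectic matrices -/

set_option autoImplicit false

namespace Pool.Agent.CHV.S

open Matrix Polynomial

variable (r : ℕ) {F : Type} [Field F] [CharZero F]

theorem s4_cm : cm r 1 = 2 * r := by
  unfold cm
  norm_num

theorem s4_conj (A f : GL (Fin (cm r 1)) F) : (f⁻¹ * A * f).1.charpoly = A.1.charpoly := by
  rw [Units.val_mul, Units.val_mul, Matrix.coe_units_inv]
  exact Matrix.charpoly_units_conj' f A.1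

theorem s4_class (A f : GL (Fin (cm r 1)) F) (hf : f ∈ cG r 1 F) (z : Fin r → Fˣ)
    (u : GL (Fin (cm r 1)) F) (hu : u ∈ cG r 1 F)
    (hut : (cWD r 1 (by norm_num) (by norm_num)).IsUT u.1)
    (he : f⁻¹ * A * f = (cWD r 1 (by norm_num) (by norm_num)).tor F z * u) :
    HasClass (spPG r).toPG0 z A := by
  have hU : u ∈ (spPG r).toPG0.U F := ⟨hu, hut⟩
  obtain ⟨T, hT⟩ : ∃ T : GL (Fin (cm r 1)) F,
      T = (cWD r 1 (by norm_num) (by norm_num)).tor F z := ⟨_, rfl⟩
  have hU' : T * u * T⁻¹ ∈ (spPG r).toPG0.U F := by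
    rw [hT]
    exact (spPG r).h_U F z u hU
  rw [← hT] at he
  have h2 : A = f * (T * u * T⁻¹ * T) * f⁻¹ := by
    rw [← he]
    group
  refine ⟨f, hf, T * u * T⁻¹, hU', ?_⟩
  rw [hT] at h2 ⊢
  exact h2

theorem s4_char_lt {R : Type} [CommRing R] (z : Fin r → Rˣ) (p : Fin (cm r 1)) (hp : (p : ℕ) < r) :
    char (cchi r 1 p) z = z ⟨p, hp⟩ := by
  unfold char
  have hcm := s4_cm r
  have hp2 : (p : ℕ) < 2 * r := by
    have := p.2
    omega
  have hrev : (p.rev : ℕ) = 2 * r - (p + 1) := by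
    rw [Fin.val_rev]
    omega
  rw [Finset.prod_eq_single (⟨p, hp⟩ : Fin r)]
  · have h1 : cchi r 1 p ⟨p, hp⟩ = 1 := by
      show ev r p ⟨p, hp⟩ - ev r (p.rev : ℕ) ⟨p, hp⟩ = 1
      unfold ev
      rw [if_pos rfl, if_neg (by show ¬ ((p : ℕ) = (p.rev : ℕ)); omega)]
      norm_num
    rw [h1, zpow_one]
  · intro j _ hj
    have h1 : cchi r 1 p j = 0 := by
      show ev r p j - ev r (p.rev : ℕ) j = 0
      unfold ev
      have hj2 := j.2
      rw [if_neg (fun h => hj (Fin.ext h)), if_neg (by omega)]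
      norm_num
    rw [h1, zpow_zero]
  · intro h
    exact absurd (Finset.mem_univ _) h

theorem s4_char_ge {R : Type} [CommRing R] (z : Fin r → Rˣ) (p : Fin (cm r 1)) (hp : r ≤ (p : ℕ))
    (hp' : 2 * r - 1 - (p : ℕ) < r) :
    char (cchi r 1 p) z = (z ⟨2 * r - 1 - (p : ℕ), hp'⟩)⁻¹ := by
  unfold char
  have hcm := s4_cm r
  have hp2 : (p : ℕ) < 2 * r := by
    have := p.2
    omega
  have hrev : (p.rev : ℕ) = 2 * r - (p + 1) := by
    rw [Fin.val_rev]
    omega
  rw [Finset.prod_eq_single (⟨2 * r - 1 - (p : ℕ), hp'⟩ : Fin r)]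
  · have h1 : cchi r 1 p ⟨2 * r - 1 - (p : ℕ), hp'⟩ = -1 := by
      show ev r p ⟨2 * r - 1 - (p : ℕ), hp'⟩ - ev r (p.rev : ℕ) ⟨2 * r - 1 - (p : ℕ), hp'⟩ = -1
      unfold ev
      rw [if_neg (by show ¬ (2 * r - 1 - (p : ℕ) = (p : ℕ)); omega),
        if_pos (by show 2 * r - 1 - (p : ℕ) = (p.rev : ℕ); omega)]
      norm_num
    rw [h1, _root_.zpow_neg_one]
  · intro j _ hj
    have h1 : cchi r 1 p j = 0 := by
      show ev r p j - ev r (p.rev : ℕ) j = 0
      unfold ev
      have hj2 := j.2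
      have hj3 : ¬ ((j : ℕ) = (p.rev : ℕ)) := by
        intro h
        apply hj
        apply Fin.ext
        show (j : ℕ) = 2 * r - 1 - (p : ℕ)
        omega
      rw [if_neg (by omega), if_neg hj3]
      norm_num
    rw [h1, zpow_zero]
  · intro h
    exact absurd (Finset.mem_univ _) h

theorem s4_not_lt (p q : Fin (cm r 1)) (h : q ≤ p) :
    ¬ (cWD r 1 (by norm_num) (by norm_num)).Lt p q := by
  intro h1
  have h2 : 0 < (cchi r 1 p - cchi r 1 q) ⬝ᵥ cy r 1 := h1
  rw [sub_dotProduct, Q2.chi_cy, Q2.chi_cy] at h2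
  have h3 : (q : ℕ) ≤ (p : ℕ) := h
  split_ifs at h2 <;> omega

/-- [CHV-S4] Every symplectic matrix over an algebraically closed field has a class. Proof: by
induction, for `c ≤ r`, there is `f` with `Tri (f⁻¹ A f) c` (`next`, with any root of the characteristic
polynomial of the middle block, of size `2 (r - c) > 0`). For `c = r` use `Q6.tri`:
`f⁻¹ A f = tor z * u`, and `tor z * u = (tor z * u * (tor z)⁻¹) * tor z`. -/
theorem exists_class [IsAlgClosed F] (A : GL (Fin (cm r 1)) F) (hA : A ∈ cG r 1 F) :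
    ∃ t : Fin r → Fˣ, HasClass (spPG r).toPG0 t A := by
  have key : ∀ c : ℕ, c ≤ r → ∃ f ∈ cG r 1 F, Q6.Tri (f⁻¹ * A * f).1 c := by
    intro c
    induction c with
    | zero => intro _; exact ⟨1, (cG r 1 F).one_mem, fun p q h => absurd h (Nat.not_lt_zero _)⟩
    | succ c ih =>
      intro hc
      obtain ⟨f, hf, hT⟩ := ih (by omega)
      have hcm : c < cm r 1 := by rw [s4_cm]; omega
      have hne : Nonempty {p : Fin (cm r 1) // c ≤ (p : ℕ) ∧ (p : ℕ) + c < cm r 1} :=
        ⟨⟨⟨c, hcm⟩, le_rfl, by show c + c < cm r 1; rw [s4_cm]; omega⟩⟩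
      obtain ⟨l, hl⟩ := IsAlgClosed.exists_root (MI (f⁻¹ * A * f).1 c).charpoly (by
        rw [Matrix.charpoly_degree_eq_dim]
        have h1 : 0 < Fintype.card
          {p : Fin (cm r 1) // c ≤ (p : ℕ) ∧ (p : ℕ) + c < cm r 1} := Fintype.card_pos
        intro h2
        have h3 : Fintype.card
          {p : Fin (cm r 1) // c ≤ (p : ℕ) ∧ (p : ℕ) + c < cm r 1} = 0 := by exact_mod_cast h2
        omega)
      obtain ⟨f', hf', hT', -, -⟩ := next r A hA ⟨c, hcm⟩ (by show c < r; omega) f hf hT l hl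
      exact ⟨f', hf', hT'⟩
  obtain ⟨f, hf, hT⟩ := key r le_rfl
  have hM : f⁻¹ * A * f ∈ cG r 1 F :=
    (cG r 1 F).mul_mem ((cG r 1 F).mul_mem ((cG r 1 F).inv_mem hf) hA) hf
  obtain ⟨z, u, hu, hut, he⟩ := Q6.tri r 1 (by norm_num) (by norm_num) _ hM hT
  exact ⟨z, s4_class r A f hf z u hu hut he⟩

/-- [CHV-S4] Proof: by induction, for `c ≤ r`, there is `f` with `Tri (f⁻¹ A f) c` and the diagonal
entries `t q`, `q < c`. From `c` to `c + 1`: by `charpoly_block`, `Q6.orth` (second part, for the entries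
at `rev q`) and cancellation, the characteristic polynomial of the middle block is
`∏_{l ≥ c} (X - t l) (X - (t l)⁻¹)`, which has the root `t c`. The end is as in `exists_class`, where
`z = t`. -/
theorem class_of_charpoly (A : GL (Fin (cm r 1)) F) (hA : A ∈ cG r 1 F) (t : Fin r → Fˣ)
    (h : A.1.charpoly = ∏ l, ((X - C (t l : F)) * (X - C (((t l)⁻¹ : Fˣ) : F)))) :
    HasClass (spPG r).toPG0 t A := by
  have key : ∀ c : ℕ, c ≤ r → ∃ f ∈ cG r 1 F, Q6.Tri (f⁻¹ * A * f).1 c ∧
      ∀ (q : Fin (cm r 1)) (hq : (q : ℕ) < r), (q : ℕ) < c →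
        (f⁻¹ * A * f).1 q q = (t ⟨q, hq⟩ : F) := by
    intro c
    induction c with
    | zero =>
      intro _
      exact ⟨1, (cG r 1 F).one_mem, fun p q h => absurd h (Nat.not_lt_zero _),
        fun q _ h => absurd h (Nat.not_lt_zero _)⟩
    | succ c ih =>
      intro hc
      obtain ⟨f, hf, hT, hd⟩ := ih (by omega)
      have hcr : c < r := by omega
      have hcm : c < cm r 1 := by rw [s4_cm]; omega
      have hM : f⁻¹ * A * f ∈ cG r 1 F :=
        (cG r 1 F).mul_mem ((cG r 1 F).mul_mem ((cG r 1 F).inv_mem hf) hA) hf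
      have hcp := charpoly_block r _ hM c (by omega) hT
      rw [s4_conj, h] at hcp
      have horth := (Q6.orth r 1 (by norm_num) _ hM c (by omega) hT).2
      -- the first factor
      have h1 : (∏ q : Fin (cm r 1), if (q : ℕ) < c then
          (X - C ((f⁻¹ * A * f).1 q q)) * (X - C ((f⁻¹ * A * f).1 q.rev q.rev)) else (1 : F[X])) =
          ∏ l : Fin r, if (l : ℕ) < c then
            ((X - C (t l : F)) * (X - C (((t l)⁻¹ : Fˣ) : F))) else 1 := by
        have h2 : ∀ q : Fin (cm r 1), (if (q : ℕ) < c then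
            (X - C ((f⁻¹ * A * f).1 q q)) * (X - C ((f⁻¹ * A * f).1 q.rev q.rev)) else (1 : F[X])) =
            (fun n : ℕ => if hn : n < r then (if n < c then
              ((X - C (t ⟨n, hn⟩ : F)) * (X - C (((t ⟨n, hn⟩)⁻¹ : Fˣ) : F))) else 1) else 1) q := by
          intro q
          by_cases hq : (q : ℕ) < c
          · have hqr : (q : ℕ) < r := by omega
            simp only [if_pos hq, dif_pos hqr]
            obtain ⟨o1, o2⟩ := horth q hq
            have e1 := hd q hqr hq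
            rw [e1] at o1 o2
            have e2 : (f⁻¹ * A * f).1 q.rev q.rev = (((t ⟨q, hqr⟩)⁻¹ : Fˣ) : F) := by
              have e3 : (t ⟨q, hqr⟩ : F) * (((t ⟨q, hqr⟩)⁻¹ : Fˣ) : F) = 1 := Units.mul_inv _
              exact mul_left_cancel₀ o1 (o2.trans e3.symm)
            rw [e1, e2]
          · simp only [if_neg hq]
            split_ifs <;> rfl
        rw [Finset.prod_congr rfl fun q _ => h2 q,
          Fin.prod_univ_eq_prod_range (fun n : ℕ => if hn : n < r then (if n < c then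
              ((X - C (t ⟨n, hn⟩ : F)) * (X - C (((t ⟨n, hn⟩)⁻¹ : Fˣ) : F))) else 1) else 1)
            (cm r 1)]
        have h3 : ∀ l : Fin r, (if (l : ℕ) < c then
            ((X - C (t l : F)) * (X - C (((t l)⁻¹ : Fˣ) : F))) else (1 : F[X])) =
            (fun n : ℕ => if hn : n < r then (if n < c then
              ((X - C (t ⟨n, hn⟩ : F)) * (X - C (((t ⟨n, hn⟩)⁻¹ : Fˣ) : F))) else 1) else 1) l := by
          intro l
          simp only [dif_pos l.2]
        rw [Finset.prod_congr rfl fun l _ => h3 l,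
          Fin.prod_univ_eq_prod_range (fun n : ℕ => if hn : n < r then (if n < c then
              ((X - C (t ⟨n, hn⟩ : F)) * (X - C (((t ⟨n, hn⟩)⁻¹ : Fˣ) : F))) else 1) else 1) r]
        symm
        refine Finset.prod_subset ?_ ?_
        · intro n hn
          rw [Finset.mem_range] at hn ⊢
          rw [s4_cm]
          omega
        · intro n _ hn
          rw [Finset.mem_range] at hn
          simp only [dif_neg hn]
      have h4 : (∏ l : Fin r, ((X - C (t l : F)) * (X - C (((t l)⁻¹ : Fˣ) : F)))) =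
          (∏ l : Fin r, if (l : ℕ) < c then
            ((X - C (t l : F)) * (X - C (((t l)⁻¹ : Fˣ) : F))) else 1) *
          (∏ l : Fin r, if (l : ℕ) < c then 1 else
            ((X - C (t l : F)) * (X - C (((t l)⁻¹ : Fˣ) : F)))) := by
        rw [← Finset.prod_mul_distrib]
        refine Finset.prod_congr rfl fun l _ => ?_
        split_ifs
        · rw [mul_one]
        · rw [one_mul]
      rw [h1, h4] at hcp
      have h5 : (∏ l : Fin r, if (l : ℕ) < c then
            ((X - C (t l : F)) * (X - C (((t l)⁻¹ : Fˣ) : F))) else (1 : F[X])) ≠ 0 := by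
        rw [Finset.prod_ne_zero_iff]
        intro l _
        split_ifs
        · exact mul_ne_zero (X_sub_C_ne_zero _) (X_sub_C_ne_zero _)
        · exact one_ne_zero
      have h6 := mul_left_cancel₀ h5 hcp
      have hroot : (MI (f⁻¹ * A * f).1 c).charpoly.IsRoot (t ⟨c, hcr⟩ : F) := by
        rw [← h6, Polynomial.IsRoot.def, Polynomial.eval_prod]
        refine Finset.prod_eq_zero (Finset.mem_univ (⟨c, hcr⟩ : Fin r)) ?_
        rw [if_neg (lt_irrefl c)]
        simp
      obtain ⟨f', hf', hT', hd', hdc⟩ := next r A hA ⟨c, hcm⟩ hcr f hf hT _ hroot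
      refine ⟨f', hf', hT', ?_⟩
      intro q hq hqc
      rcases Nat.lt_or_ge (q : ℕ) c with h7 | h7
      · rw [hd' q (Fin.lt_def.mpr h7)]
        exact hd q hq h7
      · have h8 : q = ⟨c, hcm⟩ := Fin.ext (by show (q : ℕ) = c; omega)
        subst h8
        exact hdc
  obtain ⟨f, hf, hT, hd⟩ := key r le_rfl
  have hM : f⁻¹ * A * f ∈ cG r 1 F :=
    (cG r 1 F).mul_mem ((cG r 1 F).mul_mem ((cG r 1 F).inv_mem hf) hA) hf
  obtain ⟨z, u, hu, hut, he⟩ := Q6.tri r 1 (by norm_num) (by norm_num) _ hM hT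
  have hz : z = t := by
    funext l
    have hlm : (l : ℕ) < cm r 1 := by rw [s4_cm]; have := l.2; omega
    have h1 := hd ⟨l, hlm⟩ l.2 l.2
    rw [he] at h1
    have h2 : ((cWD r 1 (by norm_num) (by norm_num)).tor F z * u).1 ⟨l, hlm⟩ ⟨l, hlm⟩ =
        ((char (cchi r 1 ⟨l, hlm⟩) z : Fˣ) : F) * u.1 ⟨l, hlm⟩ ⟨l, hlm⟩ := by
      show (Matrix.diagonal (fun p => ((char (cchi r 1 p) z : Fˣ) : F)) * u.1) _ _ = _
      rw [Matrix.diagonal_mul]
    have h3 : u.1 ⟨l, hlm⟩ ⟨l, hlm⟩ = 1 := by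
      have h4 := hut ⟨l, hlm⟩ ⟨l, hlm⟩ (by
        unfold WD.Lt
        rw [sub_self, zero_dotProduct]
        exact lt_irrefl _)
      rw [h4, Matrix.one_apply_eq]
    rw [h2, h3, mul_one, s4_char_lt r z ⟨l, hlm⟩ l.2] at h1
    exact Units.ext h1
  rw [hz] at he
  exact s4_class r A f hf t u hu hut he

/-- [CHV-S4] Proof: conjugation does not change the characteristic polynomial (`Matrix.charpoly` of
`f * M * f⁻¹`, `Matrix.charpoly_units_conj`), and `u * tor t` is upper triangular with the diagonal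
`t 0, …, t (r-1), (t (r-1))⁻¹, …, (t 0)⁻¹` (for `k = 1`, `0 < (cchi p - cchi q) ⬝ cy` iff `p < q`,
`Q2.chi_cy`). -/
theorem charpoly_of_class {R : Type} [CommRing R] (A : GL (Fin (cm r 1)) R) (t : Fin r → Rˣ)
    (h : HasClass (spPG r).toPG0 t A) :
    A.1.charpoly = ∏ l, ((X - C (t l : R)) * (X - C (((t l)⁻¹ : Rˣ) : R))) := by
  obtain ⟨f, u, hut, he⟩ : ∃ f u : GL (Fin (cm r 1)) R,
      (cWD r 1 (by norm_num) (by norm_num)).IsUT u.1 ∧
      A = f * (u * (cWD r 1 (by norm_num) (by norm_num)).tor R t) * f⁻¹ := by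
    obtain ⟨f, hf, u, hu, he⟩ := h
    exact ⟨f, u, hu.2, he⟩
  obtain ⟨N, hN⟩ : ∃ N : GL (Fin (cm r 1)) R,
      N = u * (cWD r 1 (by norm_num) (by norm_num)).tor R t := ⟨_, rfl⟩
  have he' : A = f * N * f⁻¹ := by rw [hN]; exact he
  have h1 : A.1.charpoly = N.1.charpoly := by
    rw [he', Units.val_mul, Units.val_mul, Matrix.coe_units_inv]
    exact Matrix.charpoly_units_conj f N.1
  have hent : ∀ p q, N.1 p q = u.1 p q * ((char (cchi r 1 q) t : Rˣ) : R) := by
    intro p q
    rw [hN]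
    show (u.1 * Matrix.diagonal (fun p => ((char (cchi r 1 p) t : Rˣ) : R))) p q = _
    rw [Matrix.mul_diagonal]
  have hlow : ∀ p q : Fin (cm r 1), q < p → N.1 p q = 0 := by
    intro p q hpq
    rw [hent, hut p q (s4_not_lt r p q hpq.le), Matrix.one_apply_ne hpq.ne', zero_mul]
  have hdia : ∀ p : Fin (cm r 1), N.1 p p = ((char (cchi r 1 p) t : Rˣ) : R) := by
    intro p
    rw [hent, hut p p (s4_not_lt r p p le_rfl), Matrix.one_apply_eq, one_mul]
  rw [h1, Matrix.charpoly_of_isUpperTriangular N.1 (fun p q hpq => hlow p q hpq)]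
  have h2 : ∀ p : Fin (cm r 1), (X - C (N.1 p p) : R[X]) =
      (fun n : ℕ => if hn : n < r then (X - C (t ⟨n, hn⟩ : R)) else
        (if hn' : 2 * r - 1 - n < r then (X - C (((t ⟨2 * r - 1 - n, hn'⟩)⁻¹ : Rˣ) : R)) else 1)) p := by
    intro p
    have hcm := s4_cm r
    have hp : (p : ℕ) < 2 * r := by
      have := p.2
      omega
    rw [hdia]
    by_cases hpr : (p : ℕ) < r
    · simp only [dif_pos hpr]
      rw [s4_char_lt r t p hpr]
    · have h3 : 2 * r - 1 - (p : ℕ) < r := by omega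
      simp only [dif_neg hpr, dif_pos h3]
      rw [s4_char_ge r t p (not_lt.mp hpr) h3]
  rw [Finset.prod_congr rfl fun p _ => h2 p,
    Fin.prod_univ_eq_prod_range (fun n : ℕ => if hn : n < r then (X - C (t ⟨n, hn⟩ : R)) else
        (if hn' : 2 * r - 1 - n < r then (X - C (((t ⟨2 * r - 1 - n, hn'⟩)⁻¹ : Rˣ) : R)) else 1))
      (cm r 1)]
  have h3 : cm r 1 = r + r := by rw [s4_cm]; omega
  rw [h3, Finset.prod_range_add, Finset.prod_mul_distrib]
  congr 1
  · rw [← Fin.prod_univ_eq_prod_range (fun n : ℕ => if hn : n < r then (X - C (t ⟨n, hn⟩ : R)) else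
        (if hn' : 2 * r - 1 - n < r then (X - C (((t ⟨2 * r - 1 - n, hn'⟩)⁻¹ : Rˣ) : R)) else 1)) r]
    refine Finset.prod_congr rfl fun l _ => ?_
    simp only [dif_pos l.2]
  · have h4 : ∀ l : Fin r, (X - C (((t l)⁻¹ : Rˣ) : R) : R[X]) =
        (fun n : ℕ => if hn : n < r then (X - C (((t ⟨n, hn⟩)⁻¹ : Rˣ) : R)) else 1) l := by
      intro l
      simp only [dif_pos l.2]
    rw [Finset.prod_congr rfl fun l _ => h4 l,
      Fin.prod_univ_eq_prod_range
        (fun n : ℕ => if hn : n < r then (X - C (((t ⟨n, hn⟩)⁻¹ : Rˣ) : R)) else 1) r,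
      ← Finset.prod_range_reflect
        (fun n : ℕ => if hn : n < r then (X - C (((t ⟨n, hn⟩)⁻¹ : Rˣ) : R)) else 1) r]
    refine Finset.prod_congr rfl fun n hn => ?_
    rw [Finset.mem_range] at hn
    have e1 : ¬ (r + n < r) := by omega
    have e2 : 2 * r - 1 - (r + n) < r := by omega
    have e3 : r - 1 - n < r := by omega
    have e4 : 2 * r - 1 - (r + n) = r - 1 - n := by omega
    rw [dif_neg e1, dif_pos e2, dif_pos e3]
    simp only [e4]

end Pool.Agent.CHV.S
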