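import Pool.Agent.CHV.F2
import Pool.Agent.CHV.S4
import Pool.Agent.CHV.P1

/-! # CHV: the final form; the classical groups as pinned groups -/

set_option autoImplicit false

namespace Pool.Agent.CHV.Fin

open Matrix Polynomial NumberField

theorem sp_class (r : ℕ) (F : Type) [Field F] [IsAlgClosed F] [CharZero F] (t : Fin r → Fˣ)
    (A : GL (Fin (cm r 1)) F) : HasClass (spPG r).toPG0 t A ↔ A ∈ cG r 1 F ∧
      A.1.charpoly = ∏ l, ((X - C (t l : F)) * (X - C (((t l)⁻¹ : Fˣ) : F))) := by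
  constructor
  · intro h
    refine ⟨?_, S.charpoly_of_class r A t h⟩
    obtain ⟨f, hf, u, hu, rfl⟩ := h
    exact mul_mem (mul_mem hf (mul_mem ((spPG r).U_le F hu) ((spPG r).h_mem F t))) (inv_mem hf)
  · rintro ⟨h1, h2⟩
    exact S.class_of_charpoly r A h1 t h2

/-- The classical groups are pinned groups. -/
theorem classical (r k : ℕ) (hk : k ≤ 2) (hr : k = 0 → 2 ≤ r) : ∃ P : PG0, P.Pinned ∧ P.nT = r ∧
    P.m = 2 * r + (if k = 2 then 1 else 0) ∧
    (∀ (R : Type) [CommRing R], (P.G R : Set (GL (Fin P.m) R)) = clG r k P.m R) ∧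
    (k = 1 → ClassIsCharpoly P) := by
  refine ⟨(cPG r k hk hr).toPG0, P1.pinned _, rfl, rfl, fun R _ => rfl, ?_⟩
  rintro rfl F _ _ _ t A
  exact sp_class r F t A

/-- The density theorem. -/
theorem dense (P : PG0) (hP : P.Pinned) (K : Type) [Field K] [NumberField K]
    (T : Finset (𝓞 K)ˣ) : ∃ (L : Type) (_ : Field L) (_ : NumberField L) (_ : Algebra K L),
      ∀ (g n : ℕ) (t : Fin (n + 1) → Fin P.nT → (𝓞 K)ˣ), (∀ i l, t i l ∈ T) →
        ∀ (W : Type) [Field W] [IsAlgClosed W] [Algebra L W],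
          RelDense P (algebraMap (𝓞 K) (𝓞 L)) ((algebraMap L W).comp (algebraMap (𝓞 L) L))
            g (n + 1) t := by
  obtain ⟨Q, rfl⟩ := P1.toPG P hP
  obtain ⟨L, i1, i2, i3, h⟩ := F2.main (P := Q) T
  refine ⟨L, i1, i2, i3, fun g n t ht W _ _ _ F hF ρ hρ => ?_⟩
  exact h g n t ht W F hF ρ hρ

end Pool.Agent.CHV.Fin
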