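import Pool.Agent.CHV.B1

/-!
# CHV: construction of pinned groups from a matrix representation: definitions
-/

set_option autoImplicit false

namespace Pool.Agent.CHV

open Matrix

/-- Coroot data with the weights of a representation and a dominant cocharacter. -/
structure WD extends RD where
  /-- the dimension of the representation -/
  m : ℕ
  /-- the weights -/
  chi : Fin m → Fin nT → ℤ
  /-- a dominant cocharacter -/
  y : Fin nT → ℤ
  y_pos : ∀ v ∈ co, 0 < ht ⬝ᵥ v → 0 < rt v ⬝ᵥ y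
  chi_inj : Function.Injective chi
  chi_gen : ∀ l, ∃ c : Fin m → ℤ, ∑ p, c p • chi p = Pi.single l 1
  chi_cone : ∀ p q, 0 < (chi p - chi q) ⬝ᵥ y →
    chi p - chi q ∈ AddSubmonoid.closure {a | ∃ v ∈ co, 0 < ht ⬝ᵥ v ∧ a = rt v}

/-- The upper triangular part of the matrix of the entry `(p, q)`. -/
def WD.Lt (W : WD) (p q : Fin W.m) : Prop := 0 < (W.chi p - W.chi q) ⬝ᵥ W.y

/-- Unitriangular matrices for the order of the weights. -/
def WD.IsUT (W : WD) {R : Type} [CommRing R] (M : Matrix (Fin W.m) (Fin W.m) R) : Prop :=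
  ∀ p q, ¬ W.Lt p q → M p q = (1 : Matrix (Fin W.m) (Fin W.m) R) p q

/-- The matrix `M` transforms the weights by `A`. -/
def WD.Tr (W : WD) {R : Type} [CommRing R] (A : (Fin W.nT → ℤ) ≃ₗ[ℤ] (Fin W.nT → ℤ))
    (M : Matrix (Fin W.m) (Fin W.m) R) : Prop :=
  ∀ p q, M p q ≠ 0 → ∀ z, W.chi p ⬝ᵥ A z = W.chi q ⬝ᵥ z

/-- Diagonal invertible matrices. -/
noncomputable def dg {R : Type} [CommRing R] {m : ℕ} (d : Fin m → Rˣ) : GL (Fin m) R where
  val := Matrix.diagonal fun p => (d p : R)
  inv := Matrix.diagonal fun p => ((d p)⁻¹ : Rˣ)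
  val_inv := by simp [Matrix.diagonal_mul_diagonal]
  inv_val := by simp [Matrix.diagonal_mul_diagonal]

/-- The torus. -/
noncomputable def WD.tor (W : WD) (R : Type) [CommRing R] : (Fin W.nT → Rˣ) →* GL (Fin W.m) R where
  toFun z := dg fun p => char (W.chi p) z
  map_one' := by
    ext p q
    by_cases h : p = q
    · subst h; simp [dg, char]
    · simp [dg, h]
  map_mul' z z' := by
    ext p q
    by_cases h : p = q
    · subst h
      simp [dg, char, Matrix.diagonal_mul_diagonal, mul_zpow, Finset.prod_mul_distrib]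
    · simp [dg, h, Matrix.diagonal_mul_diagonal]

/-- The simple root vectors in the representation. -/
structure MD0 extends WD where
  /-- the root vectors -/
  E : S → Matrix (Fin m) (Fin m) ℤ
  /-- their divided squares -/
  E2 : S → Matrix (Fin m) (Fin m) ℤ
  E_sq : ∀ i, E i * E i = 2 • E2 i
  E_E2 : ∀ i, E i * E2 i = 0
  E2_E : ∀ i, E2 i * E i = 0
  E2_sq : ∀ i, E2 i * E2 i = 0
  E_wt : ∀ i p q, E i p q ≠ 0 → chi p - chi q = rt (al i)
  E2_wt : ∀ i p q, E2 i p q ≠ 0 → chi p - chi q = 2 • rt (al i)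
  /-- the row of the coordinate -/
  ea : S → Fin m
  /-- the column of the coordinate -/
  eb : S → Fin m
  E_ab : ∀ i, E i (ea i) (eb i) = 1
  E2_ab : ∀ i, E2 i (ea i) (eb i) = 0
  ab_adj : ∀ i k, ¬ (0 < (chi (ea i) - chi k) ⬝ᵥ y ∧ 0 < (chi k - chi (eb i)) ⬝ᵥ y)
  /-- representatives of the simple reflections -/
  s : S → GL (Fin m) ℤ
  s_tr : ∀ i, toWD.Tr (toRD.sr i) (s i).1

/-- The matrix `1 + c E + c² E2`. -/
noncomputable def MD0.xm (D : MD0) (R : Type) [CommRing R] (i : D.S) (c : R) :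
    Matrix (Fin D.m) (Fin D.m) R :=
  1 + c • (D.E i).map (Int.castRingHom R) + c ^ 2 • (D.E2 i).map (Int.castRingHom R)

/-- The matrix over `R` of the representative of a simple reflection. -/
noncomputable def MD0.sm (D : MD0) (R : Type) [CommRing R] (i : D.S) : GL (Fin D.m) R :=
  Matrix.GeneralLinearGroup.map (Int.castRingHom R) (D.s i)

end Pool.Agent.CHV
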