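import Pool.Agent.CHV.I0

/-! # CHV, row I1: unitriangular matrices, simple root subgroups -/

set_option autoImplicit false

namespace Pool.Agent.CHV.I1

open Matrix

variable (W : WD) {R : Type} [CommRing R]

/-- [CHV-I1] -/
theorem ut_one : W.IsUT (1 : Matrix (Fin W.m) (Fin W.m) R) := by
  intro p q _
  rfl

theorem i1_lt_trans {p k q : Fin W.m} (h : W.Lt p k) (h' : W.Lt k q) : W.Lt p q := by
  unfold WD.Lt at *
  have e : W.chi p - W.chi q = (W.chi p - W.chi k) + (W.chi k - W.chi q) := by abel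
  rw [e, add_dotProduct]
  exact add_pos h h'

theorem i1_lt_irrefl (p : Fin W.m) : ¬ W.Lt p p := by
  unfold WD.Lt
  rw [sub_self, zero_dotProduct]
  exact lt_irrefl 0

/-- [CHV-I1] Proof: `(M * M') p q = ∑ k, M p k * M' k q`. If `¬ Lt p q`, then for every `k` with
`M p k ≠ 0` and `M' k q ≠ 0`: `k = p` or `Lt p k`, `k = q` or `Lt k q`; by the additivity of the
pairing, `Lt p k` and `Lt k q` give `Lt p q`; `k = p ≠ q` gives `Lt p q`, … So only `k = p = q`
remains, with the value `1`. -/
theorem ut_mul {M M' : Matrix (Fin W.m) (Fin W.m) R} (h : W.IsUT M) (h' : W.IsUT M') :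
    W.IsUT (M * M') := by
  intro p q hpq
  have h1 : ∀ k, M p k * M' k q = (1 : Matrix (Fin W.m) (Fin W.m) R) p k *
      (1 : Matrix (Fin W.m) (Fin W.m) R) k q := by
    intro k
    by_cases h2 : W.Lt p k
    · have h3 : ¬ W.Lt k q := fun h3 => hpq (i1_lt_trans W h2 h3)
      have h4 : k ≠ q := by
        rintro rfl
        exact hpq h2
      rw [h' k q h3, Matrix.one_apply_ne h4, mul_zero, mul_zero]
    · rw [h p k h2]
      by_cases h3 : p = k
      · subst h3
        rw [h' p q hpq]
      · rw [Matrix.one_apply_ne h3, zero_mul, zero_mul]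
  rw [Matrix.mul_apply, Finset.sum_congr rfl (fun k _ => h1 k), ← Matrix.mul_apply, one_mul]

/-- [CHV-I1] Proof: from `M * N = 1`, `N p q = 1 p q - ∑_{k, Lt p k} M p k * N k q`. Strong induction
on `chi p ⬝ y` (for example on the number of the `k` with `Lt p k`): if `¬ Lt p q`, then for
`Lt p k` we have `¬ Lt k q` and `k ≠ q`, so `N k q = 1 k q = 0`. -/
theorem ut_inv {M N : Matrix (Fin W.m) (Fin W.m) R} (h : W.IsUT M) (h' : M * N = 1) :
    W.IsUT N := by
  classical
  have main : ∀ n : ℕ, ∀ p, (Finset.univ.filter (fun k => W.Lt p k)).card = n →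
      ∀ q, ¬ W.Lt p q → N p q = (1 : Matrix (Fin W.m) (Fin W.m) R) p q := by
    intro n
    induction n using Nat.strong_induction_on with
    | _ n ih =>
      intro p hn q hpq
      have h1 : (M * N) p q = (1 : Matrix (Fin W.m) (Fin W.m) R) p q := by rw [h']
      rw [Matrix.mul_apply, Finset.sum_eq_single p] at h1
      · rwa [h p p (i1_lt_irrefl W p), Matrix.one_apply_eq, one_mul] at h1
      · intro k _ hk
        by_cases h2 : W.Lt p k
        · have h3 : ¬ W.Lt k q := fun h3 => hpq (i1_lt_trans W h2 h3)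
          have h4 : k ≠ q := by
            rintro rfl
            exact hpq h2
          have h5 : (Finset.univ.filter (fun l => W.Lt k l)).card <
              (Finset.univ.filter (fun l => W.Lt p l)).card := by
            apply Finset.card_lt_card
            refine Finset.ssubset_iff_subset_ne.2 ⟨?_, ?_⟩
            · intro l hl
              exact Finset.mem_filter.2 ⟨Finset.mem_univ _,
                i1_lt_trans W h2 (Finset.mem_filter.1 hl).2⟩
            · intro heq
              have h6 : k ∈ Finset.univ.filter (fun l => W.Lt p l) :=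
                Finset.mem_filter.2 ⟨Finset.mem_univ _, h2⟩
              rw [← heq] at h6
              exact i1_lt_irrefl W k (Finset.mem_filter.1 h6).2
          rw [ih _ (hn ▸ h5) k rfl q h3, Matrix.one_apply_ne h4, mul_zero]
        · rw [h p k h2, Matrix.one_apply_ne (Ne.symm hk), zero_mul]
      · intro hp
        exact absurd (Finset.mem_univ p) hp
  intro p q hpq
  exact main _ p rfl q hpq

variable (D : MD0)

/-- [CHV-I1] Proof: `E² = 2 E2`, `E E2 = E2 E = 0`, `E2² = 0`, mapped to `R`. -/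
theorem xm_mul (i : D.S) (c c' : R) : D.xm R i c * D.xm R i c' = D.xm R i (c + c') := by
  unfold MD0.xm
  set A : Matrix (Fin D.m) (Fin D.m) R := (D.E i).map (Int.castRingHom R) with hA
  set B : Matrix (Fin D.m) (Fin D.m) R := (D.E2 i).map (Int.castRingHom R) with hB
  have hmap : ∀ X Y : Matrix (Fin D.m) (Fin D.m) ℤ, X.map (Int.castRingHom R) *
      Y.map (Int.castRingHom R) = (X * Y).map (Int.castRingHom R) := fun X Y =>
    (Matrix.map_mul).symm
  have h1 : A * A = (2 : R) • B := by
    rw [hA, hmap, D.E_sq, hB, two_nsmul]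
    ext p q
    simp only [Matrix.map_apply, Matrix.smul_apply, Matrix.add_apply, map_add, smul_eq_mul, two_mul]
  have h2 : A * B = 0 := by
    rw [hA, hB, hmap, D.E_E2]
    ext p q
    simp
  have h3 : B * A = 0 := by
    rw [hA, hB, hmap, D.E2_E]
    ext p q
    simp
  have h4 : B * B = 0 := by
    rw [hB, hmap, D.E2_sq]
    ext p q
    simp
  simp only [add_mul, mul_add, one_mul, mul_one, smul_mul_assoc, mul_smul_comm, h1, h2, h3, h4,
    smul_zero, add_zero, smul_smul, smul_add]
  have e : (1 : Matrix (Fin D.m) (Fin D.m) R) + (c + c') • A + (c + c') ^ 2 • B =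
      1 + c • A + c' • A + (c ^ 2 • B + (c' * (c * 2)) • B + c' ^ 2 • B) := by
    rw [add_smul]
    have e2 : (c + c') ^ 2 • B = c ^ 2 • B + (c' * (c * 2)) • B + c' ^ 2 • B := by
      rw [← add_smul, ← add_smul]
      congr 1
      ring
    rw [e2]
    abel
  rw [e]
  abel

/-- [CHV-I1] -/
theorem xm_zero (i : D.S) : D.xm R i 0 = 1 := by
  unfold MD0.xm
  simp

/-- [CHV-I1] Proof: `E_wt`, `E2_wt`, `y_pos` for `al i`. -/
theorem xm_ut (i : D.S) (c : R) : D.IsUT (D.xm R i c) := by
  intro p q hpq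
  have hal : 0 < D.rt (D.al i) ⬝ᵥ D.y := D.y_pos _ (D.al_mem i) (D.al_pos i)
  have h1 : D.E i p q = 0 := by
    by_contra hne
    apply hpq
    unfold WD.Lt
    rw [D.E_wt i p q hne]
    exact hal
  have h2 : D.E2 i p q = 0 := by
    by_contra hne
    apply hpq
    unfold WD.Lt
    rw [D.E2_wt i p q hne, smul_dotProduct]
    simpa using hal
  unfold MD0.xm
  simp [Matrix.add_apply, Matrix.smul_apply, Matrix.map_apply, h1, h2]

end Pool.Agent.CHV.I1

namespace Pool.Agent.CHV

open Matrix

/-- The group of the unitriangular matrices for the order of the weights. -/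
def WD.UT (W : WD) (R : Type) [CommRing R] : Subgroup (GL (Fin W.m) R) where
  carrier := {g | W.IsUT g.1}
  one_mem' := I1.ut_one W
  mul_mem' h h' := I1.ut_mul W h h'
  inv_mem' {g} h := I1.ut_inv W h (by
    rw [← Units.val_mul, mul_inv_cancel]; rfl)

/-- The simple root subgroups. -/
noncomputable def MD0.xg (D : MD0) (R : Type) [CommRing R] (i : D.S) (c : R) : GL (Fin D.m) R where
  val := D.xm R i c
  inv := D.xm R i (-c)
  val_inv := by rw [I1.xm_mul, add_neg_cancel, I1.xm_zero]
  inv_val := by rw [I1.xm_mul, neg_add_cancel, I1.xm_zero]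

/-- A closed subgroup of `GL_m` over `ℤ` with the data of `MD0`. -/
structure MD extends MD0 where
  /-- the points of the group -/
  G : ∀ (R : Type) [CommRing R], Subgroup (GL (Fin m) R)
  G_closed : ∃ I : Set (MvPolynomial (Fin m × Fin m) ℤ), ∀ (R : Type) [CommRing R]
    (g : GL (Fin m) R), g ∈ G R ↔ ∀ p ∈ I, MvPolynomial.aeval (fun y => g.1 y.1 y.2) p = 0
  tor_mem : ∀ (R : Type) [CommRing R] (z : Fin nT → Rˣ), toWD.tor R z ∈ G R
  xg_mem : ∀ (R : Type) [CommRing R] (i : S) (c : R), toMD0.xg R i c ∈ G R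
  s_mem : ∀ i, s i ∈ G ℤ
  s_sq : ∀ i, s i * s i = toWD.tor ℤ (cochar (al i) (-1))
  rank_one : ∀ (R : Type) [CommRing R] (i : S) (c : Rˣ),
    toMD0.xg R i c * toMD0.sm R i = toMD0.sm R i * toMD0.xg R i (-(c⁻¹ : Rˣ)) * toMD0.sm R i *
      toWD.tor R (cochar (al i) (-c)) * toMD0.xg R i (-(c⁻¹ : Rˣ))
  ker : ∀ (R : Type) [CommRing R] (i : S) (u : GL (Fin m) R), u ∈ G R → u ∈ toWD.UT R →
    u.1 (ea i) (eb i) = 0 → ∀ p q, toWD.Lt p q → ¬ 0 < (chi p - chi q) ⬝ᵥ toRD.sr i y →
    u.1 p q = 0
  diag : ∀ g ∈ G ℤ, (∀ p q, p ≠ q → g.1 p q = 0) → ∃ ε : Fin nT → ℤˣ, g = toWD.tor ℤ ε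
  gen : ∀ (F : Type) [Field F] [IsAlgClosed F] [CharZero F], G F ≤
    Subgroup.closure (((G F ⊓ toWD.UT F : Subgroup _) : Set (GL (Fin m) F)) ∪
      Set.range (toWD.tor F) ∪ Set.range (toMD0.sm F))

end Pool.Agent.CHV
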