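import Pool.Agent.CHV.I2c

/-! # CHV, I2: the pinned group of a closed subgroup of `GL_m` -/

set_option autoImplicit false

namespace Pool.Agent.CHV

open Matrix

/-- The pinned group. -/
noncomputable def MD.toPG (D : MD) : PG where
  toPG0 := D.toPG0
  G_closed := D.G_closed
  U_closed := I2.U_closed D
  U_le R _ := inf_le_left
  h_map R R' _ _ f z := I2.tor_map D.toWD f z
  h_mem R _ z := D.tor_mem R z
  h_U R _ z u hu := ⟨(D.G R).mul_mem ((D.G R).mul_mem (D.tor_mem R z) hu.1)
    ((D.G R).inv_mem (D.tor_mem R z)), I2.ut_conj_tor D.toWD z hu.2⟩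
  h_inter R _ z hz := I2.tor_ut D.toWD z hz.2
  x_map R R' _ _ f i c := by
    ext p q
    show f (((1 : Matrix _ _ R) p q) + c * ((D.E i p q : ℤ) : R) + c ^ 2 * ((D.E2 i p q : ℤ) : R)) =
      ((1 : Matrix _ _ R') p q) + f c * ((D.E i p q : ℤ) : R') + f c ^ 2 * ((D.E2 i p q : ℤ) : R')
    have h1 : f ((1 : Matrix (Fin D.m) (Fin D.m) R) p q) = (1 : Matrix (Fin D.m) (Fin D.m) R') p q := by
      rw [Matrix.one_apply, Matrix.one_apply, apply_ite f, map_one, map_zero]
    rw [map_add, map_add, map_mul, map_mul, map_pow, map_intCast, map_intCast, h1]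
  x_add R _ i c c' := by
    ext p q
    exact (congrFun (congrFun (I1.xm_mul D.toMD0 i c c') p) q).symm
  e_map R R' _ _ f i u hu := rfl
  e_mul R _ i u hu u' hu' := I2.e_mul D i u u' hu hu'
  e_x R _ i c := I2.e_x D i c
  s_mem := D.s_mem
  s_sq := D.s_sq
  s_h R _ i z := I2.s_h D i z
  s_ker R _ i u hu he := I2.s_ker D i u hu he
  rank_one := D.rank_one
  x_pos R _ w i c h := I2.x_pos D w i c h
  wd_one w h := I2.wd_one D w h
  opp R _ w hw u hu h := I2.opp D w hw u hu h
  gen F _ _ _ := by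
    apply le_antisymm (D.gen F)
    rw [Subgroup.closure_le]
    rintro g ((hg | ⟨z, rfl⟩) | ⟨i, rfl⟩)
    · exact hg.1
    · exact D.tor_mem F z
    · exact B1.closed_map (Int.castRingHom F) D.G_closed (D.s_mem i)

end Pool.Agent.CHV
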