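import Pool.Agent.CHV.I1

/-! # CHV, row I2a: matrices which transform the weights -/

set_option autoImplicit false

namespace Pool.Agent.CHV.I2

open Matrix

variable (W : WD) {R : Type} [CommRing R]

/-- [CHV-I2a] -/
theorem tr_mul {A B : (Fin W.nT → ℤ) ≃ₗ[ℤ] (Fin W.nT → ℤ)} {M M' : Matrix (Fin W.m) (Fin W.m) R}
    (h : W.Tr A M) (h' : W.Tr B M') : W.Tr (A * B) (M * M') := by
  intro p q hpq z
  rw [Matrix.mul_apply] at hpq
  obtain ⟨k, -, hk⟩ := Finset.exists_ne_zero_of_sum_ne_zero hpq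
  have h1 := left_ne_zero_of_mul hk
  have h2 := right_ne_zero_of_mul hk
  have h3 := h p k h1 (B z)
  have h4 := h' k q h2 z
  exact h3.trans h4

/-- [CHV-I2a] -/
theorem tr_tor (z : Fin W.nT → Rˣ) : W.Tr 1 (W.tor R z).1 := by
  intro p q hpq y
  by_cases hpq' : p = q
  · subst hpq'
    rfl
  · exact absurd (Matrix.diagonal_apply_ne _ hpq') hpq

/-- [CHV-I2a] The functor of the torus. -/
theorem tor_map {R' : Type} [CommRing R'] (f : R →+* R') (z : Fin W.nT → Rˣ) :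
    mp f (W.tor R z) = W.tor R' (tmap f z) := by
  ext p q
  show f (Matrix.diagonal (fun p => ((char (W.chi p) z : Rˣ) : R)) p q) =
    Matrix.diagonal (fun p => ((char (W.chi p) (tmap f z) : R'ˣ) : R')) p q
  by_cases hpq : p = q
  · subst hpq
    rw [Matrix.diagonal_apply_eq, Matrix.diagonal_apply_eq]
    have h1 : char (W.chi p) (tmap f z) = Units.map (f : R →* R') (char (W.chi p) z) := by
      unfold char
      rw [map_prod]
      refine Finset.prod_congr rfl fun k _ => ?_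
      exact (map_zpow (Units.map (f : R →* R')) _ _).symm
    rw [h1]
    rfl
  · rw [Matrix.diagonal_apply_ne _ hpq, Matrix.diagonal_apply_ne _ hpq, map_zero]

/-- [CHV-I2a] Proof: `∏_j (∏_k z_k ^ (A e_k) j) ^ (a j) = ∏_k z_k ^ (a ⬝ A e_k)`. -/
theorem char_tact {n : ℕ} (a b : Fin n → ℤ) (A : (Fin n → ℤ) ≃ₗ[ℤ] (Fin n → ℤ))
    (h : ∀ z, a ⬝ᵥ A z = b ⬝ᵥ z) (z : Fin n → Rˣ) : char a (tact A z) = char b z := by
  show ∏ j, (∏ k, z k ^ A (Pi.single k 1) j) ^ a j = ∏ k, z k ^ b k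
  have h1 : ∀ k, b k = ∑ j, A (Pi.single k 1) j * a j := by
    intro k
    have h2 := h (Pi.single k 1)
    rw [dotProduct_single, mul_one] at h2
    rw [← h2]
    show ∑ j, a j * A (Pi.single k 1) j = _
    exact Finset.sum_congr rfl fun j _ => mul_comm _ _
  simp only [h1, B1.zpow_sum', ← Finset.prod_zpow, _root_.zpow_mul]
  rw [Finset.prod_comm]

/-- [CHV-I2a] Proof: entrywise, with `char_tact`. -/
theorem tr_h {A : (Fin W.nT → ℤ) ≃ₗ[ℤ] (Fin W.nT → ℤ)} {M : Matrix (Fin W.m) (Fin W.m) R}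
    (h : W.Tr A M) (z : Fin W.nT → Rˣ) :
    M * (W.tor R z).1 = (W.tor R (tact A z)).1 * M := by
  ext p q
  show (M * Matrix.diagonal (fun p => ((char (W.chi p) z : Rˣ) : R))) p q =
    (Matrix.diagonal (fun p => ((char (W.chi p) (tact A z) : Rˣ) : R)) * M) p q
  rw [Matrix.mul_diagonal, Matrix.diagonal_mul]
  by_cases hpq : M p q = 0
  · rw [hpq, zero_mul, mul_zero]
  · rw [char_tact (W.chi p) (W.chi q) A (h p q hpq) z, mul_comm]

/-- [CHV-I2a] Proof: the diagonal entries give `char (chi p) z = 1` for all `p`; with `chi_gen l` and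
`char (∑ c p • chi p) = ∏ (char (chi p)) ^ c p`, `z l = 1`. -/
theorem tor_ut (z : Fin W.nT → Rˣ) (h : W.IsUT (W.tor R z).1) : z = 1 := by
  have h1 : ∀ p, char (W.chi p) z = 1 := by
    intro p
    have h2 := h p p (by
      unfold WD.Lt
      rw [sub_self, zero_dotProduct]
      exact lt_irrefl _)
    rw [Matrix.one_apply_eq] at h2
    have h3 : (W.tor R z).1 p p = ((char (W.chi p) z : Rˣ) : R) := Matrix.diagonal_apply_eq _ p
    rw [h3] at h2
    exact Units.ext h2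
  funext l
  obtain ⟨c, hc⟩ := W.chi_gen l
  have h4 : char (∑ p, c p • W.chi p) z = ∏ p, char (W.chi p) z ^ c p := by
    show ∏ j, z j ^ (∑ p, c p • W.chi p) j = ∏ p, (∏ j, z j ^ W.chi p j) ^ c p
    have h5 : ∀ j, (∑ p, c p • W.chi p) j = ∑ p, W.chi p j * c p := by
      intro j
      rw [Finset.sum_apply]
      exact Finset.sum_congr rfl fun p _ => mul_comm _ _
    simp only [h5, B1.zpow_sum', ← Finset.prod_zpow, _root_.zpow_mul]
    rw [Finset.prod_comm]
  rw [hc] at h4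
  have h6 : char (Pi.single l 1) z = z l := by
    show ∏ j, z j ^ (Pi.single l 1 : Fin W.nT → ℤ) j = z l
    rw [Finset.prod_eq_single l]
    · rw [Pi.single_eq_same, zpow_one]
    · intro k _ hk
      rw [Pi.single_eq_of_ne hk, zpow_zero]
    · intro h
      exact absurd (Finset.mem_univ l) h
  rw [h6] at h4
  rw [h4]
  show ∏ p, char (W.chi p) z ^ c p = 1
  exact Finset.prod_eq_one fun p _ => by rw [h1 p, _root_.one_zpow]

/-- [CHV-I2a] Proof: `(d * M * d⁻¹) p q = d p * M p q * (d q)⁻¹`. -/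
theorem ut_conj_tor (z : Fin W.nT → Rˣ) {M : Matrix (Fin W.m) (Fin W.m) R} (h : W.IsUT M) :
    W.IsUT ((W.tor R z).1 * M * (W.tor R z)⁻¹.1) := by
  intro p q hpq
  have h1 : ((W.tor R z).1 * M * (W.tor R z)⁻¹.1) p q =
      ((char (W.chi p) z : Rˣ) : R) * M p q * (((char (W.chi q) z)⁻¹ : Rˣ) : R) := by
    show (Matrix.diagonal (fun p => ((char (W.chi p) z : Rˣ) : R)) * M *
      Matrix.diagonal (fun p => (((char (W.chi p) z)⁻¹ : Rˣ) : R))) p q = _
    rw [Matrix.mul_diagonal, Matrix.diagonal_mul]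
  rw [h1, h p q hpq]
  by_cases hpq' : p = q
  · subst hpq'
    rw [Matrix.one_apply_eq, mul_one, Units.mul_inv]
  · rw [Matrix.one_apply_ne hpq', mul_zero, zero_mul]

/-- [CHV-I2a] A matrix which fixes the weights is diagonal. Proof: `chi_inj`. -/
theorem tr_one_diag {M : Matrix (Fin W.m) (Fin W.m) R} (h : W.Tr 1 M) :
    ∀ p q, p ≠ q → M p q = 0 := by
  intro p q hpq
  by_contra hcon
  apply hpq
  apply W.chi_inj
  funext l
  have h1 := h p q hcon (Pi.single l 1)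
  have h2 : W.chi p ⬝ᵥ (Pi.single l 1 : Fin W.nT → ℤ) = W.chi q ⬝ᵥ (Pi.single l 1 : Fin W.nT → ℤ) := h1
  rw [dotProduct_single, dotProduct_single, mul_one, mul_one] at h2
  exact h2

/-- [CHV-I2a] Conjugation of a matrix whose entries have differences of weights in a set. Proof:
`(M * X * N) p q = ∑ k l, M p k * X k l * N l q`; if it is not zero, there are `k`, `l` with
`M p k ≠ 0`, `X k l ≠ 0`, `N l q ≠ 0`, and `chi p ⬝ A z = chi k ⬝ z`,
`chi l ⬝ z = chi l ⬝ A⁻¹ (A z) = chi q ⬝ A z`. -/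
theorem conj_wt {A : (Fin W.nT → ℤ) ≃ₗ[ℤ] (Fin W.nT → ℤ)} {M N X : Matrix (Fin W.m) (Fin W.m) R}
    (h : W.Tr A M) (h' : W.Tr A⁻¹ N) (p q : Fin W.m) (hpq : (M * X * N) p q ≠ 0) :
    ∃ k l, X k l ≠ 0 ∧ ∀ z, (W.chi p - W.chi q) ⬝ᵥ A z = (W.chi k - W.chi l) ⬝ᵥ z := by
  rw [Matrix.mul_apply] at hpq
  obtain ⟨l, -, hl⟩ := Finset.exists_ne_zero_of_sum_ne_zero hpq
  have hN := right_ne_zero_of_mul hl
  have hMX := left_ne_zero_of_mul hl
  rw [Matrix.mul_apply] at hMX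
  obtain ⟨k, -, hk⟩ := Finset.exists_ne_zero_of_sum_ne_zero hMX
  refine ⟨k, l, right_ne_zero_of_mul hk, ?_⟩
  intro z
  have h1 := h p k (left_ne_zero_of_mul hk) z
  have h2 := h' l q hN (A z)
  have h3 : A⁻¹ (A z) = z := A.symm_apply_apply z
  rw [h3] at h2
  rw [sub_dotProduct, sub_dotProduct, h1, h2]

end Pool.Agent.CHV.I2
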