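import Pool.Agent.CHV.I2a

/-! # CHV, row I2b: the pinned group of a closed subgroup of `GL_m` -/

set_option autoImplicit false

namespace Pool.Agent.CHV

open Matrix

/-- The data of the pinned group. -/
noncomputable abbrev MD.toPG0 (D : MD) : PG0 where
  toRD := D.toRD
  m := D.m
  G := D.G
  U _ _ := D.G _ ⊓ D.UT _
  h R _ := D.tor R
  x R _ := D.xg R
  e R _ i g := g.1 (D.ea i) (D.eb i)
  s := D.s

namespace I2

variable (D : MD) {R : Type} [CommRing R]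

theorem mem_U {g : GL (Fin D.m) R} : g ∈ D.toPG0.U R ↔ g ∈ D.G R ∧ D.IsUT g.1 := Iff.rfl

/-- [CHV-I2b] Proof: add the polynomials `X (p, q) - δ_pq`, `¬ Lt p q`, to those of `G_closed`. -/
theorem U_closed : ∃ I : Set (MvPolynomial (Fin D.m × Fin D.m) ℤ), ∀ (R : Type) [CommRing R]
    (g : GL (Fin D.m) R), g ∈ D.toPG0.U R ↔
      ∀ p ∈ I, MvPolynomial.aeval (fun y => g.1 y.1 y.2) p = 0 := by
  obtain ⟨I, hI⟩ := D.G_closed
  refine ⟨I ∪ {p | ∃ a b : Fin D.m, ¬ D.Lt a b ∧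
    p = MvPolynomial.X (a, b) - (if a = b then 1 else 0)}, ?_⟩
  intro R _ g
  rw [mem_U]
  constructor
  · rintro ⟨h1, h2⟩ p hp
    rcases hp with hp | ⟨a, b, hab, rfl⟩
    · exact (hI R g).1 h1 p hp
    · have h3 := h2 a b hab
      rw [Matrix.one_apply] at h3
      rw [map_sub, MvPolynomial.aeval_X, h3]
      by_cases h4 : a = b
      · rw [if_pos h4, if_pos h4, map_one, sub_self]
      · rw [if_neg h4, if_neg h4, map_zero, sub_self]
  · intro h
    refine ⟨(hI R g).2 fun p hp => h p (Or.inl hp), ?_⟩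
    intro a b hab
    have h3 := h _ (Or.inr ⟨a, b, hab, rfl⟩)
    rw [map_sub, MvPolynomial.aeval_X] at h3
    rw [Matrix.one_apply]
    by_cases h4 : a = b
    · rw [if_pos h4, map_one] at h3
      rw [if_pos h4]
      exact sub_eq_zero.1 h3
    · rw [if_neg h4, map_zero, sub_zero] at h3
      rw [if_neg h4]
      exact h3

/-- [CHV-I2b] Proof: the matrix of `s i` over `R` transforms the weights by `sr i`. -/
theorem sd_tr (i : D.S) : D.Tr (D.sr i) (D.toPG0.sd R i).1 := by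
  intro p q hpq z
  apply D.s_tr i p q _ z
  intro h0
  apply hpq
  show (Int.castRingHom R) ((D.s i).1 p q) = 0
  rw [h0, map_zero]

/-- [CHV-I2b] Proof: `s_sq` over `R`: `(sd i)⁻¹ = sd i * (tor ..)⁻¹`, and `(sr i)⁻¹ = sr i`. -/
theorem sd_inv_tr (i : D.S) : D.Tr (D.sr i)⁻¹ (D.toPG0.sd R i)⁻¹.1 := by
  have h1 : D.toPG0.sd R i * D.toPG0.sd R i =
      D.tor R (tmap (Int.castRingHom R) (cochar (D.al i) (-1))) := by
    show mp (Int.castRingHom R) (D.s i) * mp (Int.castRingHom R) (D.s i) = _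
    rw [← map_mul, D.s_sq, tor_map]
  obtain ⟨z, hz⟩ : ∃ z, z = tmap (Int.castRingHom R) (cochar (D.al i) (-1)) := ⟨_, rfl⟩
  rw [← hz] at h1
  have h2 : (D.toPG0.sd R i)⁻¹ = D.toPG0.sd R i * D.tor R z⁻¹ := by
    rw [map_inv, ← h1, _root_.mul_inv_rev, mul_inv_cancel_left]
  have h3 := tr_mul D.toWD (sd_tr D (R := R) i) (tr_tor D.toWD (R := R) z⁻¹)
  rw [mul_one] at h3
  rw [A1.sr_inv, h2]
  exact h3

/-- [CHV-I2b] -/
theorem dot_tr (w : List D.S) : D.Tr (D.wd w) (D.toPG0.dot R w).1 := by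
  induction w with
  | nil =>
    have h := tr_tor D.toWD (R := R) 1
    rw [map_one] at h
    exact h
  | cons i w ih =>
    rw [A1.wd_cons]
    have h : D.toPG0.dot R (i :: w) = D.toPG0.sd R i * D.toPG0.dot R w := by
      simp [PG0.dot]
    rw [h]
    exact tr_mul D.toWD (sd_tr D (R := R) i) ih

/-- [CHV-I2b] -/
theorem dot_inv_tr (w : List D.S) : D.Tr (D.wd w)⁻¹ (D.toPG0.dot R w)⁻¹.1 := by
  induction w with
  | nil =>
    have h := tr_tor D.toWD (R := R) 1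
    rw [map_one] at h
    have h1 : (D.toPG0.dot R ([] : List D.S))⁻¹ = 1 := inv_one
    have h2 : (D.wd [])⁻¹ = 1 := inv_one
    rw [h1, h2]
    exact h
  | cons i w ih =>
    rw [A1.wd_cons]
    have h : D.toPG0.dot R (i :: w) = D.toPG0.sd R i * D.toPG0.dot R w := by
      simp [PG0.dot]
    rw [h, _root_.mul_inv_rev, _root_.mul_inv_rev]
    exact tr_mul D.toWD ih (sd_inv_tr D (R := R) i)

/-- [CHV-I2b] Proof: `I2.tr_h`. -/
theorem s_h (i : D.S) (z : Fin D.nT → Rˣ) :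
    D.toPG0.sd R i * D.toPG0.h R z * (D.toPG0.sd R i)⁻¹ = D.toPG0.h R (tact (D.sr i) z) := by
  rw [mul_inv_eq_iff_eq_mul]
  apply Units.ext
  exact tr_h D.toWD (sd_tr D (R := R) i) z

theorem i2b_ne (i : D.S) : D.ea i ≠ D.eb i := by
  intro h
  have h1 : D.E i (D.ea i) (D.eb i) ≠ 0 := by
    rw [D.E_ab]
    exact one_ne_zero
  have h2 := D.E_wt i _ _ h1
  rw [h, sub_self] at h2
  have h3 := D.rt_self _ (D.al_mem i)
  rw [← h2, zero_dotProduct] at h3
  omega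

/-- [CHV-I2b] Proof: `(u * u') a b = ∑ k, u a k * u' k b`; for `k ≠ a, b`, one of the factors
vanishes, by `ab_adj`; and `u a a = 1`, `u' b b = 1`. -/
theorem e_mul (i : D.S) (u u' : GL (Fin D.m) R) (hu : u ∈ D.toPG0.U R) (hu' : u' ∈ D.toPG0.U R) :
    D.toPG0.e R i (u * u') = D.toPG0.e R i u + D.toPG0.e R i u' := by
  have hne := i2b_ne D i
  have h1 : (u * u').1 (D.ea i) (D.eb i) = ∑ k, u.1 (D.ea i) k * u'.1 k (D.eb i) :=
    Matrix.mul_apply
  show (u * u').1 (D.ea i) (D.eb i) = u.1 (D.ea i) (D.eb i) + u'.1 (D.ea i) (D.eb i)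
  have hself : ∀ p, ¬ D.Lt p p := by
    intro p
    show ¬ (0 < (D.chi p - D.chi p) ⬝ᵥ D.y)
    rw [sub_self, zero_dotProduct]
    exact lt_irrefl _
  have hu1 : u.1 (D.ea i) (D.ea i) = 1 := by
    rw [hu.2 _ _ (hself _), Matrix.one_apply_eq]
  have hu2 : u'.1 (D.eb i) (D.eb i) = 1 := by
    rw [hu'.2 _ _ (hself _), Matrix.one_apply_eq]
  rw [h1, ← Finset.sum_subset (Finset.subset_univ {D.ea i, D.eb i}), Finset.sum_pair hne, hu1, hu2,
    one_mul, mul_one, add_comm]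
  intro k _ hk
  simp only [Finset.mem_insert, Finset.mem_singleton, not_or] at hk
  by_cases h2 : D.Lt (D.ea i) k
  · have h3 : ¬ D.Lt k (D.eb i) := fun h4 => D.ab_adj i k ⟨h2, h4⟩
    rw [hu'.2 _ _ h3, Matrix.one_apply_ne hk.2, mul_zero]
  · rw [hu.2 _ _ h2, Matrix.one_apply_ne (Ne.symm hk.1), zero_mul]

/-- [CHV-I2b] Proof: `ea i ≠ eb i` because `chi (ea i) - chi (eb i) = rt (al i) ≠ 0`
(`rt_self`). -/
theorem e_x (i : D.S) (c : R) : D.toPG0.e R i (D.toPG0.x R i c) = c := by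
  show (1 + c • (D.E i).map (Int.castRingHom R) + c ^ 2 • (D.E2 i).map (Int.castRingHom R) :
    Matrix (Fin D.m) (Fin D.m) R) (D.ea i) (D.eb i) = c
  rw [Matrix.add_apply, Matrix.add_apply, Matrix.smul_apply, Matrix.smul_apply, Matrix.map_apply,
    Matrix.map_apply, D.E_ab, D.E2_ab, Matrix.one_apply_ne (i2b_ne D i), map_one, map_zero,
    smul_zero, add_zero, zero_add, smul_eq_mul, mul_one]

end I2

end Pool.Agent.CHV
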