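import Pool.Agent.CHV.I2b

/-! # CHV, row I2c: the pinned group of a closed subgroup of `GL_m`, part 2 -/

set_option autoImplicit false

namespace Pool.Agent.CHV.I2

open Matrix

variable (D : MD) {R : Type} [CommRing R]

theorem i2c_sd_mem (i : D.S) : D.toPG0.sd R i ∈ D.G R :=
  B1.closed_map (Int.castRingHom R) D.G_closed (D.s_mem i)

theorem i2c_dot_mem (w : List D.S) : D.toPG0.dot R w ∈ D.G R := by
  induction w with
  | nil => exact one_mem _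
  | cons i w ih =>
    have h1 : D.toPG0.dot R (i :: w) = D.toPG0.sd R i * D.toPG0.dot R w := by
      unfold PG0.dot
      rw [List.map_cons, List.prod_cons]
    rw [h1]
    exact mul_mem (i2c_sd_mem D i) ih

/-- Conjugation of `x - 1`. -/
theorem i2c_conj {m : ℕ} (g x : GL (Fin m) R) (p q : Fin m) :
    (g.1 * (x.1 - 1) * g⁻¹.1) p q = (g * x * g⁻¹ : GL (Fin m) R).1 p q -
      (1 : Matrix (Fin m) (Fin m) R) p q := by
  have e3 : g.1 * g⁻¹.1 = 1 := by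
    rw [← Units.val_mul, mul_inv_cancel]
    rfl
  rw [mul_sub, sub_mul, mul_one, e3, ← Units.val_mul, ← Units.val_mul]
  rfl

theorem i2c_conj' {m : ℕ} (g x : GL (Fin m) R) (p q : Fin m) :
    (g⁻¹.1 * (x.1 - 1) * g.1) p q = (g⁻¹ * x * g : GL (Fin m) R).1 p q -
      (1 : Matrix (Fin m) (Fin m) R) p q := by
  have e3 : g⁻¹.1 * g.1 = 1 := by
    rw [← Units.val_mul, inv_mul_cancel]
    rfl
  rw [mul_sub, sub_mul, mul_one, e3, ← Units.val_mul, ← Units.val_mul]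
  rfl

/-- The nonzero entries of `u - 1`. -/
theorem i2c_ne {u : GL (Fin D.m) R} (hu : D.IsUT u.1) {k l : Fin D.m} (h : (u.1 - 1) k l ≠ 0) :
    D.Lt k l ∧ u.1 k l ≠ 0 := by
  have h1 : D.Lt k l := by
    by_contra hcon
    exact h (sub_eq_zero.2 (hu k l hcon))
  have h2 : k ≠ l := by
    rintro rfl
    have h3 : 0 < (D.chi k - D.chi k) ⬝ᵥ D.y := h1
    rw [sub_self, zero_dotProduct] at h3
    exact lt_irrefl _ h3
  refine ⟨h1, ?_⟩
  intro h3
  apply h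
  rw [Matrix.sub_apply, h3, Matrix.one_apply_ne h2, sub_zero]

theorem i2c_rt_neg (E : RD) {v : Fin E.nT → ℤ} (hv : v ∈ E.co) : E.rt (-v) = -E.rt v := by
  have h1 := E.rt_refl v hv v hv
  rw [E.rt_self v hv] at h1
  have e1 : v - (2 : ℤ) • v = -v := by module
  have e2 : E.rt v - (2 : ℤ) • E.rt v = -E.rt v := by module
  rwa [e1, e2] at h1

/-- [CHV-I2c] Proof: by `ker`, a nonzero entry `(k, l)`, `k ≠ l`, of `u` satisfies
`0 < (chi k - chi l) ⬝ sr i y`. For `¬ Lt p q`, `(s⁻¹ * u * s) p q - 1 p q = (s⁻¹ * (u - 1) * s) p q`,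
and `conj_wt` with `A = (sr i)⁻¹`, `z = sr i y` gives the contradiction. -/
theorem s_ker (i : D.S) (u : GL (Fin D.m) R) (hu : u ∈ D.toPG0.U R)
    (he : D.toPG0.e R i u = 0) :
    (D.toPG0.sd R i)⁻¹ * u * D.toPG0.sd R i ∈ D.toPG0.U R := by
  have hu' := (mem_U D).1 hu
  refine (mem_U D).2 ⟨mul_mem (mul_mem (inv_mem (i2c_sd_mem D i)) hu'.1) (i2c_sd_mem D i), ?_⟩
  intro p q hpq
  by_contra hne
  have h1 : ((D.toPG0.sd R i)⁻¹.1 * (u.1 - 1) * (D.toPG0.sd R i).1) p q ≠ 0 := by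
    rw [i2c_conj']
    exact sub_ne_zero.2 hne
  obtain ⟨k, l, hkl, hz⟩ := conj_wt D.toWD (A := (D.sr i)⁻¹) (sd_inv_tr D i)
    (by rw [inv_inv]; exact sd_tr D i) p q h1
  obtain ⟨hlt, hukl⟩ := i2c_ne D hu'.2 hkl
  have h2 : 0 < (D.chi k - D.chi l) ⬝ᵥ D.sr i D.y := by
    by_contra hcon
    exact hukl (D.ker R i u hu'.1 hu'.2 he k l hlt hcon)
  have h3 := hz (D.sr i D.y)
  have h4 : (D.sr i)⁻¹ (D.sr i D.y) = D.y := (D.sr i).symm_apply_apply D.y
  rw [h4] at h3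
  apply hpq
  show 0 < (D.chi p - D.chi q) ⬝ᵥ D.y
  rw [h3]
  exact h2

/-- [CHV-I2c] Proof: `dot w * x * (dot w)⁻¹ - 1 = dot w * (x - 1) * (dot w)⁻¹`; a nonzero entry
`(p, q)` has, by `conj_wt`, `(chi p - chi q) ⬝ wd w z = (chi k - chi l) ⬝ z` where
`chi k - chi l = rt (al i)` or `2 rt (al i)`; with `z = (wd w)⁻¹ y` and
`rt (al i) ⬝ z = rt (wd w (al i)) ⬝ wd w z` (`A1.rt_wd`), this is positive by `y_pos`. -/
theorem x_pos (w : List D.S) (i : D.S) (c : R) (h : D.Pos w i) :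
    D.toPG0.dot R w * D.toPG0.x R i c * (D.toPG0.dot R w)⁻¹ ∈ D.toPG0.U R := by
  refine (mem_U D).2 ⟨mul_mem (mul_mem (i2c_dot_mem D w) (D.xg_mem R i c)) (inv_mem (i2c_dot_mem D w)), ?_⟩
  intro p q hpq
  by_contra hne
  have h1 : ((D.toPG0.dot R w).1 * ((D.toPG0.x R i c).1 - 1) * (D.toPG0.dot R w)⁻¹.1) p q ≠ 0 := by
    rw [i2c_conj]
    exact sub_ne_zero.2 hne
  obtain ⟨k, l, hkl, hz⟩ := conj_wt D.toWD (A := D.wd w) (dot_tr D w) (dot_inv_tr D w) p q h1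
  have h4 : D.wd w ((D.wd w)⁻¹ D.y) = D.y := (D.wd w).apply_symm_apply D.y
  have h3 := hz ((D.wd w)⁻¹ D.y)
  rw [h4] at h3
  have h5 : 0 < D.rt (D.al i) ⬝ᵥ (D.wd w)⁻¹ D.y := by
    rw [← A1.rt_wd D.toRD w (D.al_mem i), h4]
    exact D.y_pos _ (A1.wd_mem D.toRD w (D.al_mem i)) h
  apply hpq
  show 0 < (D.chi p - D.chi q) ⬝ᵥ D.y
  rw [h3]
  have h6 : D.E i k l ≠ 0 ∨ D.E2 i k l ≠ 0 := by
    by_contra hcon
    push Not at hcon
    apply hkl
    show (D.xm R i c - 1) k l = 0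
    unfold MD0.xm
    rw [Matrix.sub_apply, Matrix.add_apply, Matrix.add_apply, Matrix.smul_apply, Matrix.smul_apply,
      Matrix.map_apply, Matrix.map_apply, hcon.1, hcon.2, map_zero, smul_zero, smul_zero]
    ring
  rcases h6 with h6 | h6
  · rw [D.E_wt i k l h6]
    exact h5
  · rw [D.E2_wt i k l h6, smul_dotProduct]
    simpa using h5

/-- [CHV-I2c] Proof: `dot w` is diagonal by `tr_one_diag`; then `diag`. -/
theorem wd_one (w : List D.S) (h : D.wd w = 1) :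
    ∃ ε : Fin D.nT → ℤˣ, D.toPG0.dot ℤ w = D.toPG0.h ℤ ε := by
  refine D.diag _ (i2c_dot_mem D w) ?_
  have h1 := dot_tr D (R := ℤ) w
  rw [h] at h1
  exact tr_one_diag D.toWD h1

/-- [CHV-I2c] Proof: a nonzero entry `(k, l)`, `k ≠ l`, of `u`: `chi k - chi l` is in the closure of
the positive roots (`chi_cone`). In `dot w * u * (dot w)⁻¹` it gives (conjugate back: `conj_wt` for
`(dot w)⁻¹ * v * dot w = u`, `v ∈ U`) a pair `(p, q)` with `v p q ≠ 0`, so `Lt p q` (`p ≠ q`), and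
`(chi p - chi q) ⬝ wd w z = (chi k - chi l) ⬝ z`; with `z = (wd w)⁻¹ y`, the left side is positive,
and the right side is a sum of `rt v ⬝ z = rt (wd w v) ⬝ y` with `wd w v` a negative coroot, so it is
negative or `0`. -/
theorem opp (w : List D.S) (hw : D.Full w) (u : GL (Fin D.m) R) (hu : u ∈ D.toPG0.U R)
    (h : D.toPG0.dot R w * u * (D.toPG0.dot R w)⁻¹ ∈ D.toPG0.U R) : u = 1 := by
  have hu' := (mem_U D).1 hu
  have hv' := (mem_U D).1 h
  apply Units.ext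
  ext k l
  by_contra hne
  have hX : (u.1 - 1) k l ≠ 0 := sub_ne_zero.2 hne
  obtain ⟨hlt, -⟩ := i2c_ne D hu'.2 hX
  have e1 : (D.toPG0.dot R w)⁻¹.1 * ((D.toPG0.dot R w * u * (D.toPG0.dot R w)⁻¹ : GL (Fin D.m) R).1 - 1) *
      (D.toPG0.dot R w).1 = u.1 - 1 := by
    have e2 : (D.toPG0.dot R w)⁻¹ * (D.toPG0.dot R w * u * (D.toPG0.dot R w)⁻¹) * D.toPG0.dot R w = u := by
      group
    have e3 : (D.toPG0.dot R w)⁻¹.1 * (D.toPG0.dot R w).1 = 1 := by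
      rw [← Units.val_mul, inv_mul_cancel]
      rfl
    rw [mul_sub, sub_mul, mul_one, e3, ← Units.val_mul, ← Units.val_mul, e2]
  rw [← e1] at hX
  obtain ⟨p, q, hpq, hz⟩ := conj_wt D.toWD (A := (D.wd w)⁻¹) (dot_inv_tr D w)
    (by rw [inv_inv]; exact dot_tr D w) k l hX
  obtain ⟨hlt', -⟩ := i2c_ne D hv'.2 hpq
  have h3 := hz D.y
  have h4 : D.wd w ((D.wd w)⁻¹ D.y) = D.y := (D.wd w).apply_symm_apply D.y
  have h5 : ∀ a ∈ AddSubmonoid.closure {a | ∃ v ∈ D.co, 0 < D.ht ⬝ᵥ v ∧ a = D.rt v},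
      a ⬝ᵥ (D.wd w)⁻¹ D.y ≤ 0 := by
    intro a ha
    induction ha using AddSubmonoid.closure_induction with
    | mem a ha =>
      obtain ⟨v, hv, hvp, rfl⟩ := ha
      rw [← A1.rt_wd D.toRD w hv, h4]
      have hm := A1.wd_mem D.toRD w hv
      have hn := hw v hv hvp
      have h6 := D.y_pos _ (A1.neg_mem D.toRD hm) (by rw [dotProduct_neg]; omega)
      rw [i2c_rt_neg D.toRD hm, neg_dotProduct] at h6
      omega
    | zero => rw [zero_dotProduct]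
    | add a b _ _ iha ihb =>
      rw [add_dotProduct]
      omega
  have h7 := h5 _ (D.chi_cone k l hlt)
  have h8 : 0 < (D.chi p - D.chi q) ⬝ᵥ D.y := hlt'
  rw [← h3] at h8
  omega

end Pool.Agent.CHV.I2
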