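import Pool.Agent.CHV.I0

/-!
# CHV: classical coroot data: definitions

`k = 1`: type `C` (symplectic groups), `k = 2`: type `B` (odd orthogonal groups), `k = 0`: type `D`
(even orthogonal groups).
-/

set_option autoImplicit false

namespace Pool.Agent.CHV

open Matrix

/-- The coroots: the vectors of norm `2`, and `k` times the vectors of norm `1`. -/
def cco (r k : ℕ) : Set (Fin r → ℤ) :=
  {v | v ⬝ᵥ v = 2 ∨ (0 < k ∧ ∃ u : Fin r → ℤ, u ⬝ᵥ u = 1 ∧ v = (k : ℤ) • u)}

/-- The root of a coroot: `2 v / (v, v)`. -/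
def crt (r : ℕ) (v : Fin r → ℤ) : Fin r → ℤ := fun l => 2 * v l / (v ⬝ᵥ v)

/-- The cocharacter `(r, r - 1, …, 1)`, or `(r - 1, …, 0)` for `k = 0`. -/
def cy (r k : ℕ) : Fin r → ℤ := fun l => (r : ℤ) - l - (if k = 0 then 1 else 0)

/-- The vector `e_l`, `0` if `l ≥ r`. -/
def ev (r l : ℕ) : Fin r → ℤ := fun j => if (j : ℕ) = l then 1 else 0

/-- The simple coroots: `e_i - e_{i+1}`, and the last one `k e_{r-1}`, or `e_{r-2} + e_{r-1}` for
`k = 0`. -/
def cal (r k : ℕ) (i : Fin r) : Fin r → ℤ :=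
  if (i : ℕ) + 1 < r then ev r i - ev r (i + 1)
  else if k = 0 then ev r (r - 2) + ev r (r - 1) else (k : ℤ) • ev r (r - 1)

/-- The dimension of the natural representation. -/
def cm (r k : ℕ) : ℕ := 2 * r + (if k = 2 then 1 else 0)

/-- The weights of the natural representation: `e_0, …, e_{r-1}, (0), -e_{r-1}, …, -e_0`. -/
def cchi (r k : ℕ) (p : Fin (cm r k)) : Fin r → ℤ := ev r p - ev r (p.rev : Fin (cm r k))

end Pool.Agent.CHV
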