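import Pool.Agent.CHV.N0

/-! # CHV, row N1: classical coroot data: norms and reflections -/

set_option autoImplicit false

namespace Pool.Agent.CHV.N1

open Matrix

variable (r k : ℕ)

theorem n1_one {ι : Type} [DecidableEq ι] (s : Finset ι) (v : ι → ℤ)
    (h : ∑ l ∈ s, v l * v l = 1) : ∃ i ∈ s, v i * v i = 1 ∧ ∀ j ∈ s, j ≠ i → v j = 0 := by
  obtain ⟨i, hi, hne⟩ := Finset.exists_ne_zero_of_sum_ne_zero (by rw [h]; norm_num)
  have h1 : 1 ≤ v i * v i := by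
    have h2 : 0 ≤ v i * v i := mul_self_nonneg _
    omega
  have h3 := Finset.add_sum_erase s (fun l => v l * v l) hi
  have h4 : 0 ≤ ∑ l ∈ s.erase i, v l * v l := Finset.sum_nonneg fun l _ => mul_self_nonneg _
  have h5 : ∑ l ∈ s.erase i, v l * v l = 0 := by omega
  refine ⟨i, hi, by omega, fun j hj hji => ?_⟩
  have h6 := (Finset.sum_eq_zero_iff_of_nonneg (fun l _ => mul_self_nonneg (v l))).1 h5 j
    (Finset.mem_erase.2 ⟨hji, hj⟩)
  exact mul_self_eq_zero.1 h6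

theorem n1_sq {a : ℤ} (h : a * a = 1) : a = 1 ∨ a = -1 := by
  have h1 : (a - 1) * (a + 1) = 0 := by linarith [h, show (a - 1) * (a + 1) = a * a - 1 by ring]
  rcases mul_eq_zero.1 h1 with h2 | h2
  · left; omega
  · right; omega

theorem n1_ev_self (r : ℕ) (i : Fin r) : ev r i i = 1 := by simp [ev]

theorem n1_ev_ne (r : ℕ) {i l : Fin r} (h : l ≠ i) : ev r i l = 0 := by
  have : ¬ (l : ℕ) = i := fun h' => h (Fin.ext h')
  simp [ev, this]

theorem n1_pair (r : ℕ) {v : Fin r → ℤ} (hv : ∀ l, (v ⬝ᵥ v) * crt r v l = 2 * v l)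
    (w : Fin r → ℤ) : (v ⬝ᵥ v) * (crt r v ⬝ᵥ w) = 2 * (v ⬝ᵥ w) := by
  have h1 : (v ⬝ᵥ v) * (crt r v ⬝ᵥ w) = ∑ l, ((v ⬝ᵥ v) * crt r v l) * w l := by
    rw [show crt r v ⬝ᵥ w = ∑ l, crt r v l * w l from rfl, Finset.mul_sum]
    exact Finset.sum_congr rfl fun l _ => by ring
  rw [h1, show v ⬝ᵥ w = ∑ l, v l * w l from rfl, Finset.mul_sum]
  exact Finset.sum_congr rfl fun l _ => by rw [hv l]; ring

theorem n1_norm (r : ℕ) {v : Fin r → ℤ} (hv : ∀ l, (v ⬝ᵥ v) * crt r v l = 2 * v l)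
    (w : Fin r → ℤ) : (w - (crt r v ⬝ᵥ w) • v) ⬝ᵥ (w - (crt r v ⬝ᵥ w) • v) = w ⬝ᵥ w := by
  have h1 := n1_pair r hv w
  set c := crt r v ⬝ᵥ w with hc
  rw [sub_dotProduct, dotProduct_sub, dotProduct_sub, smul_dotProduct, dotProduct_smul,
    smul_dotProduct, dotProduct_smul, dotProduct_comm w v]
  simp only [smul_eq_mul]
  have h2 : c * (c * (v ⬝ᵥ v)) = c * (2 * (v ⬝ᵥ w)) := by rw [← h1]; ring
  linarith

/-- [CHV-N1] The integral vectors of norm `1`. -/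
theorem norm_one {r : ℕ} {v : Fin r → ℤ} (h : v ⬝ᵥ v = 1) :
    ∃ i : Fin r, v = ev r i ∨ v = -ev r i := by
  obtain ⟨i, -, h1, h2⟩ := n1_one Finset.univ v h
  refine ⟨i, ?_⟩
  rcases n1_sq h1 with h3 | h3
  · left
    funext l
    by_cases hl : l = i
    · subst hl
      rw [h3, n1_ev_self]
    · rw [h2 l (Finset.mem_univ l) hl, n1_ev_ne r hl]
  · right
    funext l
    rw [Pi.neg_apply]
    by_cases hl : l = i
    · subst hl
      rw [h3, n1_ev_self]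
    · rw [h2 l (Finset.mem_univ l) hl, n1_ev_ne r hl, neg_zero]

/-- [CHV-N1] The integral vectors of norm `2`. Proof: `∑ v_l ^ 2 = 2`, so exactly two coordinates
are not zero and they are `±1`. -/
theorem norm_two {r : ℕ} {v : Fin r → ℤ} (h : v ⬝ᵥ v = 2) :
    ∃ i j : Fin r, i < j ∧ (v = ev r i - ev r j ∨ v = ev r i + ev r j ∨ v = -(ev r i - ev r j) ∨
      v = -(ev r i + ev r j)) := by
  have h' : ∑ l, v l * v l = 2 := h
  obtain ⟨i, hi, hne⟩ := Finset.exists_ne_zero_of_sum_ne_zero (by rw [h']; norm_num)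
  have h3 := Finset.add_sum_erase Finset.univ (fun l => v l * v l) hi
  have h4 : 0 ≤ ∑ l ∈ Finset.univ.erase i, v l * v l :=
    Finset.sum_nonneg fun l _ => mul_self_nonneg _
  have h5 : v i * v i ≤ 2 := by omega
  have h6 : v i * v i = 1 := by
    have a1 : v i ≤ 1 := by nlinarith
    have a2 : -1 ≤ v i := by nlinarith
    have a3 : v i ≠ 0 := fun h0 => hne (by rw [h0, mul_zero])
    rcases (show v i = 1 ∨ v i = -1 by omega) with h7 | h7 <;> rw [h7] <;> norm_num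
  obtain ⟨j, hj, h7, h8⟩ := n1_one (Finset.univ.erase i) v (by omega)
  have hji : j ≠ i := (Finset.mem_erase.1 hj).1
  have h0 : ∀ l, l ≠ i → l ≠ j → v l = 0 := fun l hli hlj =>
    h8 l (Finset.mem_erase.2 ⟨hli, Finset.mem_univ l⟩) hlj
  have key : ∀ a b : ℤ, v i = a → v j = b → v = a • ev r i + b • ev r j := by
    intro a b ha hb
    funext l
    rw [Pi.add_apply, Pi.smul_apply, Pi.smul_apply, smul_eq_mul, smul_eq_mul]
    by_cases hli : l = i
    · subst hli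
      rw [n1_ev_self, n1_ev_ne r hji.symm, ha]
      ring
    · by_cases hlj : l = j
      · subst hlj
        rw [n1_ev_self, n1_ev_ne r hji, hb]
        ring
      · rw [n1_ev_ne r hli, n1_ev_ne r hlj, h0 l hli hlj]
        ring
  rcases n1_sq h6 with hi1 | hi1 <;> rcases n1_sq h7 with hj1 | hj1 <;>
    have h9 := key _ _ hi1 hj1 <;> rcases lt_or_gt_of_ne hji with hlt | hlt
  · exact ⟨j, i, hlt, Or.inr (Or.inl (by rw [h9]; simp [add_comm]))⟩
  · exact ⟨i, j, hlt, Or.inr (Or.inl (by rw [h9]; simp))⟩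
  · exact ⟨j, i, hlt, Or.inr (Or.inr (Or.inl (by rw [h9]; simp [sub_eq_add_neg])))⟩
  · exact ⟨i, j, hlt, Or.inl (by rw [h9]; simp [sub_eq_add_neg])⟩
  · exact ⟨j, i, hlt, Or.inl (by rw [h9]; simp [sub_eq_add_neg, add_comm])⟩
  · exact ⟨i, j, hlt, Or.inr (Or.inr (Or.inl (by rw [h9]; simp [sub_eq_add_neg, add_comm])))⟩
  · exact ⟨j, i, hlt, Or.inr (Or.inr (Or.inr (by rw [h9]; simp)))⟩
  · exact ⟨i, j, hlt, Or.inr (Or.inr (Or.inr (by rw [h9]; simp [add_comm])))⟩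

/-- [CHV-N1] Proof: norm `2`: `2 * v l / 2 = v l`; `v = k • u`, norm `k²`: `2 k u l / k²` with
`k = 1` or `k = 2`. -/
theorem crt_mul (hk : k ≤ 2) {v : Fin r → ℤ} (hv : v ∈ cco r k) (l : Fin r) :
    (v ⬝ᵥ v) * crt r v l = 2 * v l := by
  apply Int.mul_ediv_cancel'
  rcases hv with hv | ⟨hk0, u, hu, rfl⟩
  · rw [hv]
    exact dvd_mul_right _ _
  · rw [smul_dotProduct, dotProduct_smul, hu, Pi.smul_apply]
    simp only [smul_eq_mul, mul_one]
    rcases (show k = 1 ∨ k = 2 by omega) with rfl | rfl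
    · norm_num
    · exact ⟨u l, by push_cast; ring⟩

/-- [CHV-N1] -/
theorem norm_pos {v : Fin r → ℤ} (hv : v ∈ cco r k) : 0 < v ⬝ᵥ v := by
  rcases hv with hv | ⟨hk0, u, hu, rfl⟩
  · rw [hv]
    norm_num
  · rw [smul_dotProduct, dotProduct_smul, hu]
    simp only [smul_eq_mul, mul_one]
    have : (0 : ℤ) < k := by exact_mod_cast hk0
    positivity

/-- [CHV-N1] Proof: `crt_mul` and `norm_pos`. -/
theorem crt_self (hk : k ≤ 2) {v : Fin r → ℤ} (hv : v ∈ cco r k) : crt r v ⬝ᵥ v = 2 := by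
  have h1 := n1_pair r (crt_mul r k hk hv) v
  have h2 := norm_pos r k hv
  rw [mul_comm 2] at h1
  exact mul_left_cancel₀ h2.ne' h1

/-- [CHV-N1] Proof: `w' = w - (crt v ⬝ w) • v` has the norm of `w`
(`(v, v) (crt v ⬝ w) = 2 (v, w)`). If `w = k • u`, then `w' = k • (u - (crt v ⬝ u) • v)`. -/
theorem refl_mem (hk : k ≤ 2) {v w : Fin r → ℤ} (hv : v ∈ cco r k) (hw : w ∈ cco r k) :
    w - (crt r v ⬝ᵥ w) • v ∈ cco r k := by
  have hm := crt_mul r k hk hv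
  rcases hw with hw | ⟨hk0, u, hu, rfl⟩
  · left
    rw [n1_norm r hm w, hw]
  · right
    refine ⟨hk0, u - (crt r v ⬝ᵥ u) • v, ?_, ?_⟩
    · rw [n1_norm r hm u, hu]
    · rw [dotProduct_smul, smul_sub, smul_assoc]

/-- [CHV-N1] Proof: multiply by `(w, w) (v, v)` and use `crt_mul` (for `w'` too, with
`(w', w') = (w, w)`). -/
theorem crt_refl (hk : k ≤ 2) {v w : Fin r → ℤ} (hv : v ∈ cco r k) (hw : w ∈ cco r k) :
    crt r (w - (crt r v ⬝ᵥ w) • v) = crt r w - (crt r w ⬝ᵥ v) • crt r v := by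
  have hm := crt_mul r k hk hv
  have hw' := refl_mem r k hk hv hw
  have hm' := crt_mul r k hk hw'
  have hmw := crt_mul r k hk hw
  have hn := n1_norm r hm w
  have p1 := n1_pair r hm w
  have p2 := n1_pair r hmw v
  have hv0 := norm_pos r k hv
  have hw0 := norm_pos r k hw
  funext l
  have e1 := hm' l
  rw [hn] at e1
  have e2 := hm l
  have e3 := hmw l
  set c := crt r v ⬝ᵥ w with hc
  set d := crt r w ⬝ᵥ v with hd
  rw [dotProduct_comm w v] at p2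
  have key : (w ⬝ᵥ w) * (v ⬝ᵥ v) * crt r (w - c • v) l =
      (w ⬝ᵥ w) * (v ⬝ᵥ v) * (crt r w - d • crt r v) l := by
    rw [Pi.sub_apply, Pi.smul_apply, smul_eq_mul] at *
    calc (w ⬝ᵥ w) * (v ⬝ᵥ v) * crt r (w - c • v) l
        = (v ⬝ᵥ v) * ((w ⬝ᵥ w) * crt r (w - c • v) l) := by ring
      _ = 2 * (v ⬝ᵥ v) * w l - 2 * ((v ⬝ᵥ v) * c) * v l := by rw [e1]; ring
      _ = 2 * (v ⬝ᵥ v) * w l - 2 * (v ⬝ᵥ w) * (2 * v l) := by rw [p1]; ring
      _ = (v ⬝ᵥ v) * (2 * w l) - (2 * (v ⬝ᵥ w)) * (2 * v l) := by ring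
      _ = (v ⬝ᵥ v) * ((w ⬝ᵥ w) * crt r w l) - ((w ⬝ᵥ w) * d) * ((v ⬝ᵥ v) * crt r v l) := by
          rw [e3, p2, e2]
      _ = (w ⬝ᵥ w) * (v ⬝ᵥ v) * (crt r w l - d * crt r v l) := by ring
  exact mul_left_cancel₀ (mul_pos hw0 hv0).ne' key

/-- [CHV-N1] Proof: the coordinates are bounded by `2` (norm at most `4`). -/
theorem cco_fin (hk : k ≤ 2) : (cco r k).Finite := by
  have h1 : (cco r k) ⊆ {v : Fin r → ℤ | ∀ l, v l ∈ Set.Icc (-2 : ℤ) 2} := by
    intro v hv l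
    have h2 : v ⬝ᵥ v ≤ 4 := by
      rcases hv with hv | ⟨hk0, u, hu, rfl⟩
      · rw [hv]
        norm_num
      · rw [smul_dotProduct, dotProduct_smul, hu]
        rcases (show k = 1 ∨ k = 2 by omega) with rfl | rfl <;> norm_num
    have h3 : v l * v l ≤ v ⬝ᵥ v :=
      Finset.single_le_sum (f := fun l => v l * v l) (fun l _ => mul_self_nonneg _)
        (Finset.mem_univ l)
    constructor
    · nlinarith
    · nlinarith
  exact (Set.Finite.pi' fun _ => Set.finite_Icc (-2 : ℤ) 2).subset h1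

end Pool.Agent.CHV.N1
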