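import Pool.Agent.CHV.N1

/-! # CHV, row N2: classical coroot data: positivity -/

set_option autoImplicit false

namespace Pool.Agent.CHV.N2

open Matrix

variable (r k : ℕ)

theorem n2_dot (r : ℕ) (w : Fin r → ℤ) (i : Fin r) : w ⬝ᵥ ev r i = w i := by
  show ∑ l, w l * ev r i l = w i
  rw [Finset.sum_eq_single i]
  · rw [N1.n1_ev_self, mul_one]
  · intro l _ hl
    rw [N1.n1_ev_ne r hl, mul_zero]
  · intro h
    exact absurd (Finset.mem_univ i) h

theorem n2_ev (r : ℕ) (i j : Fin r) : ev r i j = if (j : ℕ) = (i : ℕ) then 1 else 0 := rfl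

theorem n2_cy (r k : ℕ) (i : Fin r) : cy r k i = (r : ℤ) - (i : ℕ) - (if k = 0 then 1 else 0) := rfl

/-- The four forms of the simple coroots. -/
theorem n2_cal (r k : ℕ) (hr : k = 0 → 2 ≤ r) (i : Fin r) :
    (∃ j : Fin r, (j : ℕ) = i + 1 ∧ cal r k i = ev r i - ev r j) ∨
    (k = 0 ∧ (i : ℕ) + 1 = r ∧ ∃ j : Fin r, (j : ℕ) + 2 = r ∧ cal r k i = ev r j + ev r i) ∨
    (0 < k ∧ (i : ℕ) + 1 = r ∧ cal r k i = (k : ℤ) • ev r i) := by
  unfold cal
  by_cases h : (i : ℕ) + 1 < r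
  · left
    exact ⟨⟨i + 1, h⟩, rfl, by rw [if_pos h]⟩
  · right
    have hi := i.2
    have h1 : (i : ℕ) = r - 1 := by omega
    by_cases h0 : k = 0
    · left
      have h2 := hr h0
      refine ⟨h0, by omega, ⟨r - 2, by omega⟩, by simp only; omega, ?_⟩
      rw [if_neg h, if_pos h0, h1]
    · right
      refine ⟨by omega, by omega, ?_⟩
      rw [if_neg h, if_neg h0, h1]

/-- [CHV-N2] The list of the coroots. Proof: `N1.norm_one`, `N1.norm_two`. -/
theorem mem_iff {v : Fin r → ℤ} : v ∈ cco r k ↔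
    (∃ i j : Fin r, i < j ∧ (v = ev r i - ev r j ∨ v = ev r i + ev r j ∨
      v = -(ev r i - ev r j) ∨ v = -(ev r i + ev r j))) ∨
    (0 < k ∧ ∃ i : Fin r, v = (k : ℤ) • ev r i ∨ v = -((k : ℤ) • ev r i)) := by
  constructor
  · rintro (h | ⟨hk, u, hu, rfl⟩)
    · exact Or.inl (N1.norm_two h)
    · right
      obtain ⟨i, h | h⟩ := N1.norm_one hu
      · exact ⟨hk, i, Or.inl (by rw [h])⟩
      · exact ⟨hk, i, Or.inr (by rw [h, smul_neg])⟩
  · rintro (⟨i, j, hij, h⟩ | ⟨hk, i, h⟩)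
    · left
      have hne : i ≠ j := hij.ne
      have e1 : ev r i i = 1 := N1.n1_ev_self r i
      have e2 : ev r j j = 1 := N1.n1_ev_self r j
      have e3 : ev r i j = 0 := N1.n1_ev_ne r hne.symm
      have e4 : ev r j i = 0 := N1.n1_ev_ne r hne
      rcases h with rfl | rfl | rfl | rfl
      · rw [dotProduct_sub, n2_dot, n2_dot, Pi.sub_apply, Pi.sub_apply, e1, e2, e3, e4]
        norm_num
      · rw [dotProduct_add, n2_dot, n2_dot, Pi.add_apply, Pi.add_apply, e1, e2, e3, e4]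
        norm_num
      · rw [neg_dotProduct, dotProduct_neg, neg_neg, dotProduct_sub, n2_dot, n2_dot,
          Pi.sub_apply, Pi.sub_apply, e1, e2, e3, e4]
        norm_num
      · rw [neg_dotProduct, dotProduct_neg, neg_neg, dotProduct_add, n2_dot, n2_dot,
          Pi.add_apply, Pi.add_apply, e1, e2, e3, e4]
        norm_num
    · right
      have e1 : ev r i ⬝ᵥ ev r i = 1 := by rw [n2_dot, N1.n1_ev_self]
      rcases h with rfl | rfl
      · exact ⟨hk, ev r i, e1, rfl⟩
      · refine ⟨hk, -ev r i, ?_, by rw [smul_neg]⟩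
        rw [neg_dotProduct, dotProduct_neg, neg_neg, e1]

/-- [CHV-N2] The positive coroots. Proof: `cy i > cy j ≥ 0` for `i < j`, and `cy i > 0` if
`k > 0`. -/
theorem pos_iff {v : Fin r → ℤ} : (v ∈ cco r k ∧ 0 < cy r k ⬝ᵥ v) ↔
    (∃ i j : Fin r, i < j ∧ (v = ev r i - ev r j ∨ v = ev r i + ev r j)) ∨
    (0 < k ∧ ∃ i : Fin r, v = (k : ℤ) • ev r i) := by
  rw [mem_iff]
  constructor
  · rintro ⟨⟨i, j, hij, h⟩ | ⟨hk, i, h⟩, hpos⟩
    · left
      have hij' : (i : ℕ) < j := hij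
      have hj := j.2
      refine ⟨i, j, hij, ?_⟩
      rcases h with rfl | rfl | rfl | rfl
      · exact Or.inl rfl
      · exact Or.inr rfl
      · exfalso
        rw [dotProduct_neg, dotProduct_sub, n2_dot, n2_dot, n2_cy, n2_cy] at hpos
        split_ifs at hpos <;> omega
      · exfalso
        rw [dotProduct_neg, dotProduct_add, n2_dot, n2_dot, n2_cy, n2_cy] at hpos
        split_ifs at hpos <;> omega
    · right
      refine ⟨hk, i, ?_⟩
      have hi := i.2
      have h0 : ¬ k = 0 := by omega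
      rcases h with rfl | rfl
      · rfl
      · exfalso
        rw [dotProduct_neg, dotProduct_smul, n2_dot, n2_cy, if_neg h0, smul_eq_mul] at hpos
        have h1 : (0 : ℤ) ≤ k * ((r : ℤ) - (i : ℕ) - 0) := mul_nonneg (by omega) (by omega)
        omega
  · rintro (⟨i, j, hij, h⟩ | ⟨hk, i, h⟩)
    · have hij' : (i : ℕ) < j := hij
      have hj := j.2
      rcases h with rfl | rfl
      · refine ⟨Or.inl ⟨i, j, hij, Or.inl rfl⟩, ?_⟩
        rw [dotProduct_sub, n2_dot, n2_dot, n2_cy, n2_cy]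
        split_ifs <;> omega
      · refine ⟨Or.inl ⟨i, j, hij, Or.inr (Or.inl rfl)⟩, ?_⟩
        rw [dotProduct_add, n2_dot, n2_dot, n2_cy, n2_cy]
        split_ifs <;> omega
    · refine ⟨Or.inr ⟨hk, i, Or.inl h⟩, ?_⟩
      have hi := i.2
      have h0 : ¬ k = 0 := by omega
      rw [h, dotProduct_smul, n2_dot, n2_cy, if_neg h0, smul_eq_mul]
      exact mul_pos (by omega) (by omega)

/-- [CHV-N2] Proof: `mem_iff`. -/
theorem cy_ne {v : Fin r → ℤ} (hv : v ∈ cco r k) : cy r k ⬝ᵥ v ≠ 0 := by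
  rcases (mem_iff r k).1 hv with ⟨i, j, hij, h⟩ | ⟨hk, i, h⟩
  · have h1 := ((pos_iff r k (v := ev r i - ev r j)).2 (Or.inl ⟨i, j, hij, Or.inl rfl⟩)).2
    have h2 := ((pos_iff r k (v := ev r i + ev r j)).2 (Or.inl ⟨i, j, hij, Or.inr rfl⟩)).2
    rcases h with rfl | rfl | rfl | rfl
    · exact h1.ne'
    · exact h2.ne'
    · rw [dotProduct_neg]
      exact neg_ne_zero.2 h1.ne'
    · rw [dotProduct_neg]
      exact neg_ne_zero.2 h2.ne'
  · have h1 := ((pos_iff r k (v := (k : ℤ) • ev r i)).2 (Or.inr ⟨hk, i, rfl⟩)).2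
    rcases h with rfl | rfl
    · exact h1.ne'
    · rw [dotProduct_neg]
      exact neg_ne_zero.2 h1.ne'

theorem n2_cal_both (hr : k = 0 → 2 ≤ r) (i : Fin r) :
    cal r k i ∈ cco r k ∧ 0 < cy r k ⬝ᵥ cal r k i := by
  rw [pos_iff]
  rcases n2_cal r k hr i with ⟨j, hj, h⟩ | ⟨-, hi, j, hj, h⟩ | ⟨hk, hi, h⟩
  · exact Or.inl ⟨i, j, by rw [Fin.lt_def]; omega, Or.inl h⟩
  · exact Or.inl ⟨j, i, by rw [Fin.lt_def]; omega, Or.inr h⟩
  · exact Or.inr ⟨hk, i, h⟩

/-- [CHV-N2] -/
theorem cal_mem (hr : k = 0 → 2 ≤ r) (i : Fin r) : cal r k i ∈ cco r k := by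
  exact (n2_cal_both r k hr i).1

/-- [CHV-N2] -/
theorem cal_pos (hr : k = 0 → 2 ≤ r) (i : Fin r) : 0 < cy r k ⬝ᵥ cal r k i := by
  exact (n2_cal_both r k hr i).2

/-- [CHV-N2] Proof: `v` is in the list `pos_iff`; the reflection exchanges the coordinates `i` and
`i + 1`, or changes the sign of the last coordinate (`k > 0`), or exchanges the last two coordinates
with a change of signs (`k = 0`); compute `cy ⬝ (v - (crt al ⬝ v) • al) =
cy ⬝ v - (crt al ⬝ v) * (cy ⬝ al)` in all the cases, where `crt al` is `e_i - e_{i+1}`, `2 e_{r-1}`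
(`k = 1`), `e_{r-1}` (`k = 2`), `e_{r-2} + e_{r-1}` (`k = 0`). -/
theorem cal_refl (hk : k ≤ 2) (hr : k = 0 → 2 ≤ r) (i : Fin r) {v : Fin r → ℤ}
    (hv : v ∈ cco r k) (h : 0 < cy r k ⬝ᵥ v) (hi : v ≠ cal r k i) :
    0 < cy r k ⬝ᵥ (v - (crt r (cal r k i) ⬝ᵥ v) • cal r k i) := by
  have hm := N1.crt_mul r k hk (cal_mem r k hr i)
  have h2 := N1.n1_pair r hm v
  have hpos' := (pos_iff r k).1 ⟨hv, h⟩
  rw [dotProduct_sub, dotProduct_smul, smul_eq_mul]
  have hev : ∀ (a b : Fin r), ev r a b = if (b : ℕ) = (a : ℕ) then 1 else 0 := fun a b => rfl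
  have hcy : ∀ a : Fin r, cy r k a = (r : ℤ) - (a : ℕ) - (if k = 0 then 1 else 0) := fun a => rfl
  rcases n2_cal r k hr i with ⟨j, hj, hal⟩ | ⟨hk0, hi', j, hj, hal⟩ | ⟨hk0, hi', hal⟩
  · -- al = e_i - e_j
    have hij : i ≠ j := fun h0 => by rw [h0] at hj; omega
    have hn : cal r k i ⬝ᵥ cal r k i = 2 := by
      rw [hal, dotProduct_sub, n2_dot, n2_dot, Pi.sub_apply, Pi.sub_apply, hev, hev, hev, hev]
      split_ifs <;> omega
    rw [hn] at h2
    have h3 : crt r (cal r k i) ⬝ᵥ v = v i - v j := by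
      have h4 : cal r k i ⬝ᵥ v = v i - v j := by
        rw [hal, dotProduct_comm, dotProduct_sub, n2_dot, n2_dot]
      rw [h4] at h2
      omega
    have h5 : cy r k ⬝ᵥ cal r k i = 1 := by
      rw [hal, dotProduct_sub, n2_dot, n2_dot, hcy, hcy]
      omega
    rw [h3, h5, mul_one]
    have hjr := j.2
    rcases hpos' with ⟨a, b, hab, rfl | rfl⟩ | ⟨hk0, a, rfl⟩
    · have hab' : (a : ℕ) < b := hab
      have hbr := b.2
      have hne : ¬ ((i : ℕ) = a ∧ (j : ℕ) = b) := fun h0 => hi (by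
        rw [hal, Fin.ext h0.1, Fin.ext h0.2])
      rw [dotProduct_sub, n2_dot, n2_dot, Pi.sub_apply, Pi.sub_apply, hev, hev, hev, hev, hcy, hcy]
      split_ifs <;> omega
    · have hab' : (a : ℕ) < b := hab
      have hbr := b.2
      rw [dotProduct_add, n2_dot, n2_dot, Pi.add_apply, Pi.add_apply, hev, hev, hev, hev, hcy, hcy]
      split_ifs <;> omega
    · have har := a.2
      have hk0' : ¬ k = 0 := by omega
      rw [dotProduct_smul, n2_dot, Pi.smul_apply, Pi.smul_apply, hev, hev, hcy, if_neg hk0']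
      simp only [smul_eq_mul]
      rcases (show k = 1 ∨ k = 2 by omega) with rfl | rfl <;> split_ifs <;> omega
  · -- al = e_j + e_i
    have hij : i ≠ j := fun h0 => by rw [h0] at hi'; omega
    have hn : cal r k i ⬝ᵥ cal r k i = 2 := by
      rw [hal, dotProduct_add, n2_dot, n2_dot, Pi.add_apply, Pi.add_apply, hev, hev, hev, hev]
      split_ifs <;> omega
    rw [hn] at h2
    have h3 : crt r (cal r k i) ⬝ᵥ v = v j + v i := by
      have h4 : cal r k i ⬝ᵥ v = v j + v i := by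
        rw [hal, dotProduct_comm, dotProduct_add, n2_dot, n2_dot]
      rw [h4] at h2
      omega
    have h5 : cy r k ⬝ᵥ cal r k i = 1 := by
      rw [hal, dotProduct_add, n2_dot, n2_dot, hcy, hcy, if_pos hk0]
      omega
    rw [h3, h5, mul_one]
    rcases hpos' with ⟨a, b, hab, rfl | rfl⟩ | ⟨hk1, a, rfl⟩
    · have hab' : (a : ℕ) < b := hab
      have hbr := b.2
      rw [dotProduct_sub, n2_dot, n2_dot, Pi.sub_apply, Pi.sub_apply, hev, hev, hev, hev, hcy, hcy,
        if_pos hk0]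
      split_ifs <;> omega
    · have hab' : (a : ℕ) < b := hab
      have hbr := b.2
      have hne : ¬ ((j : ℕ) = a ∧ (i : ℕ) = b) := fun h0 => hi (by
        rw [hal, Fin.ext h0.1, Fin.ext h0.2])
      rw [dotProduct_add, n2_dot, n2_dot, Pi.add_apply, Pi.add_apply, hev, hev, hev, hev, hcy, hcy,
        if_pos hk0]
      split_ifs <;> omega
    · omega
  · -- al = k e_i
    have hk0' : ¬ k = 0 := by omega
    have hn : cal r k i ⬝ᵥ cal r k i = (k : ℤ) * k := by
      rw [hal, dotProduct_smul, n2_dot, Pi.smul_apply, hev, if_pos rfl, smul_eq_mul, smul_eq_mul,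
        mul_one]
    rw [hn] at h2
    have h4 : cal r k i ⬝ᵥ v = k * v i := by
      rw [hal, dotProduct_comm, dotProduct_smul, n2_dot, smul_eq_mul]
    have h5 : cy r k ⬝ᵥ cal r k i = k := by
      rw [hal, dotProduct_smul, n2_dot, hcy, if_neg hk0', smul_eq_mul,
        show (r : ℤ) - (i : ℕ) - 0 = 1 by omega, mul_one]
    have h6 : crt r (cal r k i) ⬝ᵥ v * k = 2 * v i := by
      rw [h4] at h2
      have hk' : (k : ℤ) ≠ 0 := by omega
      apply mul_left_cancel₀ hk'
      linarith [h2, show (k : ℤ) * (crt r (cal r k i) ⬝ᵥ v * k) =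
        k * k * (crt r (cal r k i) ⬝ᵥ v) by ring, show (k : ℤ) * (2 * v i) = 2 * (k * v i) by ring]
    rw [h5, h6]
    rcases hpos' with ⟨a, b, hab, rfl | rfl⟩ | ⟨hk1, a, rfl⟩
    · have hab' : (a : ℕ) < b := hab
      have hbr := b.2
      rw [dotProduct_sub, n2_dot, n2_dot, Pi.sub_apply, hev, hev, hcy, hcy, if_neg hk0']
      split_ifs <;> omega
    · have hab' : (a : ℕ) < b := hab
      have hbr := b.2
      rw [dotProduct_add, n2_dot, n2_dot, Pi.add_apply, hev, hev, hcy, hcy, if_neg hk0']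
      split_ifs <;> omega
    · have har := a.2
      have hne : ¬ ((i : ℕ) = a) := fun h0 => hi (by rw [hal, Fin.ext h0])
      rw [dotProduct_smul, n2_dot, Pi.smul_apply, hev, hcy, if_neg hk0', if_neg hne]
      simp only [smul_eq_mul, mul_zero, sub_zero]
      exact mul_pos (by omega) (by omega)

theorem n2_diff (hr : k = 0 → 2 ≤ r) (d : ℕ) : ∀ a b : Fin r, (b : ℕ) = a + d →
    ev r a - ev r b ∈ AddSubmonoid.closure (Set.range (cal r k)) := by
  induction d with
  | zero =>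
    intro a b hab
    rw [Fin.ext (show (b : ℕ) = a by omega), sub_self]
    exact zero_mem _
  | succ d ih =>
    intro a b hab
    have hbr := b.2
    have h1 := ih a ⟨a + d, by omega⟩ rfl
    have h2 : cal r k ⟨a + d, by omega⟩ = ev r (a + d) - ev r b := by
      unfold cal
      rw [if_pos (show a + d + 1 < r by omega), show (b : ℕ) = a + d + 1 by omega]
    have h3 : ev r (a + d) - ev r b ∈ AddSubmonoid.closure (Set.range (cal r k)) := by
      rw [← h2]
      exact AddSubmonoid.subset_closure ⟨_, rfl⟩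
    have h4 := add_mem h1 h3
    rwa [sub_add_sub_cancel] at h4

/-- [CHV-N2] Proof: `pos_iff`. `e_i - e_j = ∑ (e_l - e_{l+1})`, `k e_i = k (e_i - e_{r-1}) + al_{r-1}`,
`e_i + e_j = (e_i - e_{r-1}) + (e_j - e_{r-1}) + (2 / k) al_{r-1}` for `k = 1`, `2`, and
`e_i + e_j = (e_i - e_{r-2}) + (e_j - e_{r-1}) + al_{r-1}` for `k = 0` and `i < j`. -/
theorem cone (hk : k ≤ 2) (hr : k = 0 → 2 ≤ r) {v : Fin r → ℤ} (hv : v ∈ cco r k)
    (h : 0 < cy r k ⬝ᵥ v) : v ∈ AddSubmonoid.closure (Set.range (cal r k)) := by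
  have hS : ∀ i, cal r k i ∈ AddSubmonoid.closure (Set.range (cal r k)) :=
    fun i => AddSubmonoid.subset_closure ⟨i, rfl⟩
  have hd : ∀ a b : Fin r, (a : ℕ) ≤ b →
      ev r a - ev r b ∈ AddSubmonoid.closure (Set.range (cal r k)) := fun a b hab =>
    n2_diff r k hr (b - a) a b (by omega)
  rcases (pos_iff r k).1 ⟨hv, h⟩ with ⟨a, b, hab, rfl | rfl⟩ | ⟨hk0, a, rfl⟩
  · exact hd a b (le_of_lt hab)
  · have hab' : (a : ℕ) < b := hab
    have hbr := b.2
    set l : Fin r := ⟨r - 1, by omega⟩ with hl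
    rcases n2_cal r k hr l with ⟨j, hj, hal⟩ | ⟨hk0, hi', j, hj, hal⟩ | ⟨hk0, hi', hal⟩
    · exfalso
      have hjr := j.2
      have : (l : ℕ) = r - 1 := rfl
      omega
    · have hlr : (l : ℕ) = r - 1 := rfl
      have h1 := add_mem (add_mem (hd a j (by omega)) (hd b l (by omega))) (hS l)
      rw [hal] at h1
      have h2 : ev r a - ev r j + (ev r b - ev r l) + (ev r j + ev r l) = ev r a + ev r b := by
        abel
      rwa [h2] at h1
    · have hlr : (l : ℕ) = r - 1 := rfl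
      have h1 := add_mem (hd a l (by omega)) (hd b l (by omega))
      have h3 := hS l
      rw [hal] at h3
      rcases (show k = 1 ∨ k = 2 by omega) with rfl | rfl
      · have h4 := add_mem h1 (add_mem h3 h3)
        have h2 : ev r a - ev r l + (ev r b - ev r l) +
            (((1 : ℕ) : ℤ) • ev r l + ((1 : ℕ) : ℤ) • ev r l) = ev r a + ev r b := by
          rw [Nat.cast_one, one_smul]
          abel
        rwa [h2] at h4
      · have h4 := add_mem h1 h3
        have h2 : ev r a - ev r l + (ev r b - ev r l) + (((2 : ℕ) : ℤ) • ev r l) =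
            ev r a + ev r b := by
          rw [Nat.cast_ofNat, two_smul]
          abel
        rwa [h2] at h4
  · have har := a.2
    set l : Fin r := ⟨r - 1, by omega⟩ with hl
    have hlr : (l : ℕ) = r - 1 := rfl
    rcases n2_cal r k hr l with ⟨j, hj, hal⟩ | ⟨hk0', hi', j, hj, hal⟩ | ⟨hk0', hi', hal⟩
    · exfalso
      have hjr := j.2
      omega
    · omega
    · have h1 := add_mem (AddSubmonoid.nsmul_mem _ (hd a l (by omega)) k) (hS l)
      rw [hal] at h1
      have h2 : k • (ev r a - ev r l) + (k : ℤ) • ev r l = (k : ℤ) • ev r a := by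
        rw [← natCast_zsmul, smul_sub]
        abel
      rwa [h2] at h1

end Pool.Agent.CHV.N2
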