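import Pool.Agent.CHV.N2

/-! # CHV, row N3: the weights of the natural representation -/

set_option autoImplicit false

namespace Pool.Agent.CHV.N3

open Matrix

variable (r k : ℕ)

private theorem n3_ev (i : Fin r) : ev r i = Pi.single i 1 := by
  ext j
  simp only [ev, Pi.single_apply, Fin.ext_iff]

private theorem n3_ev_dot (i : Fin r) (w : Fin r → ℤ) : ev r i ⬝ᵥ w = w i := by
  rw [n3_ev, single_dotProduct, one_mul]

private theorem n3_dot_ev (i : Fin r) (w : Fin r → ℤ) : w ⬝ᵥ ev r i = w i := by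
  rw [n3_ev, dotProduct_single, mul_one]

private theorem n3_ev_self (i : Fin r) : ev r i i = 1 := by
  simp [ev]

private theorem n3_ev_ne {i j : Fin r} (h : i ≠ j) : ev r i j = 0 := by
  have : (j : ℕ) ≠ (i : ℕ) := fun e => h (Fin.ext e.symm)
  simp [ev, this]

private theorem n3_cy_le (i : Fin r) : 0 ≤ cy r k i := by
  have := i.2
  unfold cy
  split_ifs <;> omega

private theorem n3_cy_lt {i j : Fin r} (h : cy r k j < cy r k i) : i < j := by
  unfold cy at h
  rw [Fin.lt_def]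
  split_ifs at h <;> omega

private theorem n3_lt_cy {i j : Fin r} (h : i < j) : cy r k j < cy r k i := by
  unfold cy
  rw [Fin.lt_def] at h
  split_ifs <;> omega

private theorem n3_root {v : Fin r → ℤ} (hv : v ⬝ᵥ v = 2) (h : 0 < cy r k ⬝ᵥ v) :
    v ∈ AddSubmonoid.closure {a | ∃ v ∈ cco r k, 0 < cy r k ⬝ᵥ v ∧ a = crt r v} := by
  refine AddSubmonoid.subset_closure ⟨v, Or.inl hv, h, ?_⟩
  funext l
  unfold crt
  rw [hv]
  omega

private theorem n3_sub_norm {i j : Fin r} (h : i ≠ j) :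
    (ev r i - ev r j) ⬝ᵥ (ev r i - ev r j) = 2 := by
  simp only [sub_dotProduct, dotProduct_sub, n3_ev_dot, n3_ev_self, n3_ev_ne r h, n3_ev_ne r h.symm]
  norm_num

private theorem n3_add_norm {i j : Fin r} (h : i ≠ j) :
    (ev r i + ev r j) ⬝ᵥ (ev r i + ev r j) = 2 := by
  simp only [add_dotProduct, dotProduct_add, n3_ev_dot, n3_ev_self, n3_ev_ne r h, n3_ev_ne r h.symm]
  norm_num

private theorem n3_sub_mem {i j : Fin r} (h : cy r k j < cy r k i) : ev r i - ev r j ∈
    AddSubmonoid.closure {a | ∃ v ∈ cco r k, 0 < cy r k ⬝ᵥ v ∧ a = crt r v} := by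
  have hij := n3_cy_lt r k h
  refine n3_root r k (n3_sub_norm r hij.ne) ?_
  rw [dotProduct_sub, n3_dot_ev, n3_dot_ev]
  omega

private theorem n3_add_mem {i j : Fin r} (hne : i ≠ j) (h : 0 < cy r k i + cy r k j) :
    ev r i + ev r j ∈
    AddSubmonoid.closure {a | ∃ v ∈ cco r k, 0 < cy r k ⬝ᵥ v ∧ a = crt r v} := by
  refine n3_root r k (n3_add_norm r hne) ?_
  rw [dotProduct_add, n3_dot_ev, n3_dot_ev]
  omega

private theorem n3_short (i : Fin r) : ev r i ∈
    AddSubmonoid.closure {a | ∃ v ∈ cco r 2, 0 < cy r 2 ⬝ᵥ v ∧ a = crt r v} := by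
  have h1 : ev r i ⬝ᵥ ev r i = 1 := by rw [n3_ev_dot, n3_ev_self]
  have h2 : (((2 : ℕ) : ℤ) • ev r i) ⬝ᵥ (((2 : ℕ) : ℤ) • ev r i) = 4 := by
    rw [smul_dotProduct, dotProduct_smul, h1]; norm_num
  refine AddSubmonoid.subset_closure ⟨((2 : ℕ) : ℤ) • ev r i, Or.inr ⟨by norm_num, ev r i, h1, rfl⟩,
    ?_, ?_⟩
  · rw [dotProduct_smul, n3_dot_ev]
    have h3 : 0 < cy r 2 i := by
      have := i.2
      simp only [cy]
      norm_num
    simp only [smul_eq_mul]
    push_cast
    omega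
  · funext l
    unfold crt
    rw [h2]
    simp only [Pi.smul_apply, smul_eq_mul]
    push_cast
    omega

private theorem n3_long (i : Fin r) : ev r i + ev r i ∈
    AddSubmonoid.closure {a | ∃ v ∈ cco r 1, 0 < cy r 1 ⬝ᵥ v ∧ a = crt r v} := by
  have h1 : ev r i ⬝ᵥ ev r i = 1 := by rw [n3_ev_dot, n3_ev_self]
  refine AddSubmonoid.subset_closure ⟨ev r i, Or.inr ⟨by norm_num, ev r i, h1, by simp⟩, ?_, ?_⟩
  · rw [n3_dot_ev]
    have := i.2
    simp only [cy]
    norm_num
  · funext l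
    unfold crt
    rw [h1]
    simp only [Pi.add_apply]
    omega

private theorem n3_ev_big {l : ℕ} (h : r ≤ l) : ev r l = 0 := by
  funext j
  have : (j : ℕ) ≠ l := by have := j.2; omega
  simp [ev, this]

private theorem n3_cases (p : Fin (cm r k)) : (∃ i : Fin r, cchi r k p = ev r i) ∨
    (∃ i : Fin r, cchi r k p = -ev r i) ∨ (k = 2 ∧ cchi r k p = 0) := by
  have hp := p.2
  have hrev : ((p.rev : Fin (cm r k)) : ℕ) = cm r k - (p + 1) := Fin.val_rev p
  unfold cchi
  by_cases h1 : (p : ℕ) < r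
  · left
    refine ⟨⟨p, h1⟩, ?_⟩
    have h2 : r ≤ ((p.rev : Fin (cm r k)) : ℕ) := by
      rw [hrev]; unfold cm; split_ifs <;> omega
    rw [n3_ev_big r h2, sub_zero]
  · right
    by_cases h2 : ((p.rev : Fin (cm r k)) : ℕ) < r
    · left
      refine ⟨⟨_, h2⟩, ?_⟩
      rw [n3_ev_big r (not_lt.1 h1), zero_sub]
    · right
      have h3 : k = 2 := by
        rw [hrev] at h2
        unfold cm at h2 hp
        split_ifs at h2 hp with h
        · exact h
        · omega
      refine ⟨h3, ?_⟩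
      rw [n3_ev_big r (not_lt.1 h1), n3_ev_big r (not_lt.1 h2), sub_zero]

private theorem n3_double (hk : k ≤ 2) (hr : k = 0 → 2 ≤ r) (i : Fin r) (h : 0 < cy r k i) :
    ev r i + ev r i ∈
    AddSubmonoid.closure {a | ∃ v ∈ cco r k, 0 < cy r k ⬝ᵥ v ∧ a = crt r v} := by
  interval_cases k
  · have h2 := hr rfl
    obtain ⟨l, hl⟩ : ∃ l : Fin r, (l : ℕ) = r - 1 := ⟨⟨r - 1, by omega⟩, rfl⟩
    have hl0 : cy r 0 l = 0 := by
      simp only [cy]
      rw [if_pos trivial]
      omega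
    have hlt : cy r 0 l < cy r 0 i := by rw [hl0]; exact h
    have hne : i ≠ l := by rintro rfl; omega
    have h3 := n3_sub_mem r 0 hlt
    have h4 := n3_add_mem r 0 hne (by rw [hl0]; omega)
    have h5 := AddSubmonoid.add_mem _ h3 h4
    have e : ev r i - ev r l + (ev r i + ev r l) = ev r i + ev r i := by abel
    rwa [e] at h5
  · exact n3_long r i
  · exact AddSubmonoid.add_mem _ (n3_short r i) (n3_short r i)

private theorem n3_plus (hk : k ≤ 2) (hr : k = 0 → 2 ≤ r) (i j : Fin r)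
    (h : 0 < cy r k i + cy r k j) : ev r i + ev r j ∈
    AddSubmonoid.closure {a | ∃ v ∈ cco r k, 0 < cy r k ⬝ᵥ v ∧ a = crt r v} := by
  by_cases hij : i = j
  · subst hij
    exact n3_double r k hk hr i (by omega)
  · exact n3_add_mem r k hij h

/-- [CHV-N3] Proof: `(v, v) (crt v ⬝ cy) = 2 (cy ⬝ v)`. -/
theorem y_pos (hk : k ≤ 2) {v : Fin r → ℤ} (hv : v ∈ cco r k) (h : 0 < cy r k ⬝ᵥ v) :
    0 < crt r v ⬝ᵥ cy r k := by
  have h1 := N1.norm_pos r k hv
  have h2 : (v ⬝ᵥ v) * (crt r v ⬝ᵥ cy r k) = 2 * (cy r k ⬝ᵥ v) := by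
    simp only [dotProduct] at *
    rw [Finset.mul_sum, Finset.mul_sum]
    refine Finset.sum_congr rfl fun l _ => ?_
    have h3 := N1.crt_mul r k hk hv l
    simp only [dotProduct] at h3
    rw [← mul_assoc, h3]
    ring
  by_contra hc
  have h4 : crt r v ⬝ᵥ cy r k ≤ 0 := not_lt.1 hc
  nlinarith

/-- [CHV-N3] -/
theorem chi_inj : Function.Injective (cchi r k) := by
  intro p q hpq
  have hp := p.2
  have hq := q.2
  have hrp : ((p.rev : Fin (cm r k)) : ℕ) = cm r k - (p + 1) := Fin.val_rev p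
  have hrq : ((q.rev : Fin (cm r k)) : ℕ) = cm r k - (q + 1) := Fin.val_rev q
  have hcm : 2 * r ≤ cm r k ∧ cm r k ≤ 2 * r + 1 := by
    unfold cm; split_ifs <;> omega
  have key : ∀ j : ℕ, j < r → ((if j = (p : ℕ) then (1 : ℤ) else 0) -
      (if j = cm r k - (p + 1) then 1 else 0)) = ((if j = (q : ℕ) then (1 : ℤ) else 0) -
      (if j = cm r k - (q + 1) then 1 else 0)) := by
    intro j hj
    have h1 := congrFun hpq ⟨j, hj⟩
    simp only [cchi, Pi.sub_apply, ev, hrp, hrq] at h1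
    exact h1
  rw [Fin.ext_iff]
  by_cases h1 : (p : ℕ) < r
  · have h2 := key p h1
    split_ifs at h2 <;> omega
  · by_cases h2 : cm r k - ((p : ℕ) + 1) < r
    · have h3 := key _ h2
      split_ifs at h3 <;> omega
    · by_cases h3 : (q : ℕ) < r
      · have h4 := key q h3
        split_ifs at h4 <;> omega
      · by_cases h4 : cm r k - ((q : ℕ) + 1) < r
        · have h5 := key _ h4
          split_ifs at h5 <;> omega
        · omega

/-- [CHV-N3] Proof: `cchi l = e_l` for `l < r`. -/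
theorem chi_gen (l : Fin r) :
    ∃ c : Fin (cm r k) → ℤ, ∑ p, c p • cchi r k p = Pi.single l 1 := by
  have hl : (l : ℕ) < cm r k := by
    have := l.2
    unfold cm; split_ifs <;> omega
  refine ⟨Pi.single ⟨l, hl⟩ 1, ?_⟩
  rw [Finset.sum_eq_single (⟨l, hl⟩ : Fin (cm r k))]
  · rw [Pi.single_eq_same, one_smul, ← n3_ev]
    have h2 : r ≤ (((⟨l, hl⟩ : Fin (cm r k)).rev : Fin (cm r k)) : ℕ) := by
      rw [Fin.val_rev]
      have := l.2
      simp only
      unfold cm; split_ifs <;> omega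
    unfold cchi
    rw [n3_ev_big r h2, sub_zero]
  · intro b _ hb
    rw [Pi.single_eq_of_ne hb, zero_smul]
  · intro h
    exact absurd (Finset.mem_univ _) h

/-- [CHV-N3] Proof: `cchi p` is `e_i`, `-e_i` or (`k = 2`) `0`. The differences with positive pairing
with `cy` are `e_i - e_j` (`i < j`), `e_i + e_j` (`i ≠ j`), `2 e_i` and, for `k = 2`, `e_i`; they are
roots or sums of two roots: `2 e_i = crt (e_i)` for `k = 1`, `e_i = crt (2 e_i)` for `k = 2`,
`2 e_i = (e_i - e_{r-1}) + (e_i + e_{r-1})` for `k = 0`, `i < r - 1` (for `i = r - 1` the pairing is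
`0`). -/
theorem chi_cone (hk : k ≤ 2) (hr : k = 0 → 2 ≤ r) (p q : Fin (cm r k))
    (h : 0 < (cchi r k p - cchi r k q) ⬝ᵥ cy r k) :
    cchi r k p - cchi r k q ∈
      AddSubmonoid.closure {a | ∃ v ∈ cco r k, 0 < cy r k ⬝ᵥ v ∧ a = crt r v} := by
  have hcy := n3_cy_le r k
  rcases n3_cases r k p with ⟨i, hi⟩ | ⟨i, hi⟩ | ⟨h2, hi⟩ <;>
    rcases n3_cases r k q with ⟨j, hj⟩ | ⟨j, hj⟩ | ⟨h2', hj⟩ <;> rw [hi, hj] at h ⊢
  · rw [sub_dotProduct, n3_ev_dot, n3_ev_dot] at h
    exact n3_sub_mem r k (by omega)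
  · rw [sub_neg_eq_add] at h ⊢
    rw [add_dotProduct, n3_ev_dot, n3_ev_dot] at h
    exact n3_plus r k hk hr i j h
  · subst h2'
    rw [sub_zero]
    exact n3_short r i
  · rw [sub_dotProduct, neg_dotProduct, n3_ev_dot, n3_ev_dot] at h
    have := hcy i
    have := hcy j
    omega
  · rw [sub_dotProduct, neg_dotProduct, neg_dotProduct, n3_ev_dot, n3_ev_dot] at h
    have e : -ev r i - -ev r j = ev r j - ev r i := by abel
    rw [e]
    exact n3_sub_mem r k (by omega)
  · rw [sub_zero, neg_dotProduct, n3_ev_dot] at h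
    have := hcy i
    omega
  · rw [zero_sub, neg_dotProduct, n3_ev_dot] at h
    have := hcy j
    omega
  · subst h2
    rw [zero_sub, neg_neg]
    exact n3_short r j
  · rw [sub_zero, zero_dotProduct] at h
    exact absurd h (lt_irrefl _)

end Pool.Agent.CHV.N3

namespace Pool.Agent.CHV

open Matrix

/-- The coroot data of the types `B`, `C`, `D`, with the weights of the natural representation. -/
@[reducible] def cWD (r k : ℕ) (hk : k ≤ 2) (hr : k = 0 → 2 ≤ r) : WD where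
  nT := r
  S := Fin r
  S_fin := inferInstance
  co := cco r k
  co_fin := N1.cco_fin r k hk
  rt := crt r
  al := cal r k
  ht := cy r k
  rt_self _ hv := N1.crt_self r k hk hv
  refl_mem _ hv _ hw := N1.refl_mem r k hk hv hw
  rt_refl _ hv _ hw := N1.crt_refl r k hk hv hw
  ht_ne _ hv := N2.cy_ne r k hv
  al_mem i := N2.cal_mem r k hr i
  al_pos i := N2.cal_pos r k hr i
  al_refl i _ hv h hi := N2.cal_refl r k hk hr i hv h hi
  cone _ hv h := N2.cone r k hk hr hv h
  m := cm r k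
  chi := cchi r k
  y := cy r k
  y_pos _ hv h := N3.y_pos r k hk hv h
  chi_inj := N3.chi_inj r k
  chi_gen := N3.chi_gen r k
  chi_cone p q h := N3.chi_cone r k hk hr p q h

end Pool.Agent.CHV
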