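import Pool.Agent.CHV.Q4a

/-! # CHV, row Q4b: rank one relations -/

set_option autoImplicit false

namespace Pool.Agent.CHV.Q4

open Matrix

variable (r k : ℕ)

/-- The elementary matrices of the last three positions. -/
theorem q4b_he (hk2 : k = 2) (i : Fin r) {A : Type} [Ring A]
    (φ : Matrix (Fin (cm r k)) (Fin (cm r k)) ℤ →+* A) (a b c d : Fin 3) :
    φ (nE (cm r k) (r - 1 + a) (r - 1 + b)) * φ (nE (cm r k) (r - 1 + c) (r - 1 + d)) =
      if b = c then φ (nE (cm r k) (r - 1 + a) (r - 1 + d)) else 0 := by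
  have hi := i.2
  have hb := b.2
  have hm : cm r k = 2 * r + 1 := by
    unfold cm
    rw [if_pos hk2]
  rw [← map_mul, Q2.nE_mul]
  by_cases h : b = c
  · rw [if_pos h, if_pos ⟨by rw [h], by omega⟩]
  · have h' : (b : ℕ) ≠ c := fun h0 => h (Fin.ext h0)
    rw [if_neg h, if_neg (by omega), map_zero]

theorem q4b_cs (hk2 : k = 2) (i : Fin r) (h : (i : ℕ) + 1 = r) {A : Type} [Ring A]
    (φ : Matrix (Fin (cm r k)) (Fin (cm r k)) ℤ →+* A) :
    φ (cs r k i) = 1 - φ (nE (cm r k) (r - 1 + (0 : Fin 3)) (r - 1 + (0 : Fin 3))) -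
      φ (nE (cm r k) (r - 1 + (2 : Fin 3)) (r - 1 + (2 : Fin 3))) -
      2 • φ (nE (cm r k) (r - 1 + (1 : Fin 3)) (r - 1 + (1 : Fin 3))) -
      φ (nE (cm r k) (r - 1 + (2 : Fin 3)) (r - 1 + (0 : Fin 3))) -
      φ (nE (cm r k) (r - 1 + (0 : Fin 3)) (r - 1 + (2 : Fin 3))) := by
  have e0 : r - 1 + ((0 : Fin 3) : ℕ) = r - 1 := rfl
  have e1 : r - 1 + ((1 : Fin 3) : ℕ) = r := by
    show r - 1 + 1 = r
    omega
  have e2 : r - 1 + ((2 : Fin 3) : ℕ) = r + 1 := by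
    show r - 1 + 2 = r + 1
    omega
  rw [e0, e1, e2]
  have h1 : ¬ ((i : ℕ) + 1 < r ∨ k ≠ 2) := by
    rintro (h0 | h0)
    · omega
    · exact h0 hk2
  unfold cs
  rw [if_neg h1]
  simp only [map_sub, map_one, map_nsmul]

theorem q4b_cE (hk2 : k = 2) (i : Fin r) (h : (i : ℕ) + 1 = r) {A : Type} [Ring A]
    (φ : Matrix (Fin (cm r k)) (Fin (cm r k)) ℤ →+* A) :
    φ (cE r k i) = φ (nE (cm r k) (r - 1 + (1 : Fin 3)) (r - 1 + (2 : Fin 3))) -
      2 • φ (nE (cm r k) (r - 1 + (0 : Fin 3)) (r - 1 + (1 : Fin 3))) ∧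
    φ (cE2 r k i) = -φ (nE (cm r k) (r - 1 + (0 : Fin 3)) (r - 1 + (2 : Fin 3))) := by
  have e0 : r - 1 + ((0 : Fin 3) : ℕ) = r - 1 := rfl
  have e1 : r - 1 + ((1 : Fin 3) : ℕ) = r := by
    show r - 1 + 1 = r
    omega
  have e2 : r - 1 + ((2 : Fin 3) : ℕ) = r + 1 := by
    show r - 1 + 2 = r + 1
    omega
  rw [e0, e1, e2]
  have h1 : ¬ ((i : ℕ) + 1 < r ∨ k ≠ 2) := by
    rintro (h0 | h0)
    · omega
    · exact h0 hk2
  have h2 : ¬ ((i : ℕ) + 1 < r ∨ k = 0) := by omega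
  have h3 : ¬ k = 1 := by omega
  constructor
  · unfold cE
    rw [if_neg h2, if_neg h3]
    simp only [map_sub, map_nsmul]
  · unfold cE2
    rw [if_neg h1, map_neg]

/-- [CHV-Q4b] Proof: `tor_sl2` with `c = -1` and `Q1.sl2_sq`; `tor_so3` and `Q1.so3_sq`. -/
theorem s_sq (hk : k ≤ 2) (hr : k = 0 → 2 ≤ r) (i : Fin r) :
    (cMD0 r k hk hr).s i * (cMD0 r k hk hr).s i =
      (cWD r k hk hr).tor ℤ (cochar (cal r k i) (-1)) := by
  apply Units.ext
  show cs r k i * cs r k i = ((cWD r k hk hr).tor ℤ (cochar (cal r k i) (-1))).1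
  by_cases h : (i : ℕ) + 1 < r ∨ k ≠ 2
  · obtain ⟨h1, h2, h3, h4⟩ := Q2.cE_sl2 r k hk hr i h
    have h5 := Q1.sl2_sq h1 h2 h3 h4
    rw [tor_sl2 r k hk hr ℤ i h]
    unfold cs
    rw [if_pos h, h5]
    have h6 : ∀ M : Matrix (Fin (cm r k)) (Fin (cm r k)) ℤ, M.map (Int.castRingHom ℤ) = M := by
      intro M
      ext a b
      rfl
    rw [h6, h6, inv_neg, inv_one]
    simp only [Units.val_neg, Units.val_one]
    rw [show (-1 - 1 : ℤ) = -2 by norm_num, neg_smul, neg_smul, two_smul, two_smul, two_mul, two_mul]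
    abel
  · have hk2 : k = 2 := by omega
    have hi := i.2
    have hi' : (i : ℕ) + 1 = r := by omega
    have h5 := Q1.so3_sq (fun a b : Fin 3 => RingHom.id (Matrix (Fin (cm r k)) (Fin (cm r k)) ℤ)
      (nE (cm r k) (r - 1 + a) (r - 1 + b))) (q4b_he r k hk2 i (RingHom.id _))
    have h6 := q4b_cs r k hk2 i hi' (RingHom.id (Matrix (Fin (cm r k)) (Fin (cm r k)) ℤ))
    simp only [RingHom.id_apply] at h5 h6
    rw [← h6] at h5
    rw [h5, tor_so3 r k hk hr ℤ i hi' hk2, inv_neg, inv_one]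
    simp only [Units.val_neg, Units.val_one]
    rw [show ((-1 : ℤ) ^ 2 - 1) = 0 by norm_num, zero_smul, zero_smul, add_zero, add_zero]

/-- [CHV-Q4b] Proof: `tor_sl2` for `-c` and `Q1.sl2_rank` for the matrices over `R`
(`E = (cE r k i).map`, `F` its transpose; `cE2 = 0`); `tor_so3` and `Q1.so3_rank` for `k = 2` and the
last root (`e i j = (nE m (r - 1 + i) (r - 1 + j)).map`). -/
theorem rank_one (hk : k ≤ 2) (hr : k = 0 → 2 ≤ r) (R : Type) [CommRing R] (i : Fin r) (c : Rˣ) :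
    (cMD0 r k hk hr).xg R i c * (cMD0 r k hk hr).sm R i =
      (cMD0 r k hk hr).sm R i * (cMD0 r k hk hr).xg R i (-(c⁻¹ : Rˣ)) *
        (cMD0 r k hk hr).sm R i * (cWD r k hk hr).tor R (cochar (cal r k i) (-c)) *
        (cMD0 r k hk hr).xg R i (-(c⁻¹ : Rˣ)) := by
  apply Units.ext
  set φ : Matrix (Fin (cm r k)) (Fin (cm r k)) ℤ →+* Matrix (Fin (cm r k)) (Fin (cm r k)) R :=
    (Int.castRingHom R).mapMatrix with hφ
  have hx : ∀ c : R, (cMD0 r k hk hr).xm R i c =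
      1 + c • φ (cE r k i) + c ^ 2 • φ (cE2 r k i) := fun _ => rfl
  show (cMD0 r k hk hr).xm R i c * φ (cs r k i) =
    φ (cs r k i) * (cMD0 r k hk hr).xm R i (-(c⁻¹ : Rˣ)) * φ (cs r k i) *
      ((cWD r k hk hr).tor R (cochar (cal r k i) (-c))).1 *
      (cMD0 r k hk hr).xm R i (-(c⁻¹ : Rˣ))
  rw [hx, hx]
  by_cases h : (i : ℕ) + 1 < r ∨ k ≠ 2
  · obtain ⟨h1, h2, h3, h4⟩ := Q2.cE_sl2 r k hk hr i h
    have g1 : φ (cE r k i) * φ (cE r k i) = 0 := by rw [← map_mul, h1, map_zero]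
    have g2 : φ (cE r k i)ᵀ * φ (cE r k i)ᵀ = 0 := by rw [← map_mul, h2, map_zero]
    have g3 : φ (cE r k i) * φ (cE r k i)ᵀ * φ (cE r k i) = φ (cE r k i) := by
      rw [← map_mul, ← map_mul, h3]
    have g4 : φ (cE r k i)ᵀ * φ (cE r k i) * φ (cE r k i)ᵀ = φ (cE r k i)ᵀ := by
      rw [← map_mul, ← map_mul, h4]
    have h5 := Q1.sl2_rank g1 g2 g3 g4 (c : R) ((c⁻¹ : Rˣ) : R) (Units.mul_inv c)
    have h6 : φ (cs r k i) = 1 - φ (cE r k i) * φ (cE r k i)ᵀ - φ (cE r k i)ᵀ * φ (cE r k i) -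
        φ (cE r k i) + φ (cE r k i)ᵀ := by
      unfold cs
      rw [if_pos h]
      simp only [map_sub, map_add, map_one, map_mul]
    have h7 : φ (cE2 r k i) = 0 := by
      unfold cE2
      rw [if_pos h, map_zero]
    have h8 := tor_sl2 r k hk hr R i h (-c)
    rw [← RingHom.mapMatrix_apply, ← RingHom.mapMatrix_apply, ← hφ, map_mul, map_mul, inv_neg,
      Units.val_neg, Units.val_neg] at h8
    rw [h8, h7, smul_zero, add_zero, smul_zero, add_zero, h6]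
    exact h5
  · have hk2 : k = 2 := by omega
    have hi := i.2
    have hi' : (i : ℕ) + 1 = r := by omega
    have h5 := Q1.so3_rank (fun a b : Fin 3 => φ (nE (cm r k) (r - 1 + a) (r - 1 + b)))
      (q4b_he r k hk2 i φ) (c : R) ((c⁻¹ : Rˣ) : R) (Units.mul_inv c)
    have h6 := q4b_cs r k hk2 i hi' φ
    obtain ⟨h7, h9⟩ := q4b_cE r k hk2 i hi' φ
    have h8 := tor_so3 r k hk hr R i hi' hk2 (-c)
    rw [← RingHom.mapMatrix_apply, ← RingHom.mapMatrix_apply, ← hφ, inv_neg,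
      Units.val_neg, Units.val_neg, neg_sq, neg_sq] at h8
    have e0 : r - 1 = r - 1 + ((0 : Fin 3) : ℕ) := rfl
    have e2 : r + 1 = r - 1 + ((2 : Fin 3) : ℕ) := by
      show r + 1 = r - 1 + 2
      omega
    rw [h8, h6, h7, h9]
    rw [show nE (cm r k) (r - 1) (r - 1) =
      nE (cm r k) (r - 1 + ((0 : Fin 3) : ℕ)) (r - 1 + ((0 : Fin 3) : ℕ)) from rfl,
      show nE (cm r k) (r + 1) (r + 1) =
      nE (cm r k) (r - 1 + ((2 : Fin 3) : ℕ)) (r - 1 + ((2 : Fin 3) : ℕ)) by rw [← e2]]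
    exact h5

end Pool.Agent.CHV.Q4
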