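import Pool.Agent.CHV.Q2b
import Pool.Agent.CHV.I1

/-! # CHV, row Q3b: the torus, the root subgroups and the reflections are in the classical group -/

set_option autoImplicit false

namespace Pool.Agent.CHV.Q3

open Matrix

variable (r k : ℕ)

section forms

variable {r k : ℕ} {R : Type} [CommRing R]

theorem q3_add_left (x x' y : Fin (cm r k) → R) :
    cB r k (x + x') y = cB r k x y + cB r k x' y := by
  unfold cB
  rw [← Finset.sum_add_distrib]
  refine Finset.sum_congr rfl fun p _ => ?_
  rw [Pi.add_apply]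
  ring

theorem q3_add_right (x y y' : Fin (cm r k) → R) :
    cB r k x (y + y') = cB r k x y + cB r k x y' := by
  unfold cB
  rw [← Finset.sum_add_distrib]
  refine Finset.sum_congr rfl fun p _ => ?_
  rw [Pi.add_apply]
  ring

theorem q3_single_left (a : Fin (cm r k)) (t : R) (y : Fin (cm r k) → R) :
    cB r k (Pi.single a t) y = csig r k a * t * y a.rev := by
  unfold cB
  rw [Finset.sum_eq_single a]
  · rw [Pi.single_eq_same]
  · intro p _ hp
    rw [Pi.single_eq_of_ne hp]
    ring
  · intro h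
    exact absurd (Finset.mem_univ _) h

theorem q3_single_right (x : Fin (cm r k) → R) (a : Fin (cm r k)) (t : R) :
    cB r k x (Pi.single a t) = csig r k a.rev * x a.rev * t := by
  unfold cB
  rw [Finset.sum_eq_single a.rev]
  · rw [Fin.rev_rev, Pi.single_eq_same]
  · intro p _ hp
    have h1 : p.rev ≠ a := by
      rintro rfl
      exact hp (Fin.rev_rev p).symm
    rw [Pi.single_eq_of_ne h1]
    ring
  · intro h
    exact absurd (Finset.mem_univ _) h

theorem q3_cond (hk : k ≤ 2) (hk1 : k ≠ 1) (p : Fin (cm r k)) (t : R) :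
    (if (p : ℕ) < r ∨ (k = 2 ∧ (p : ℕ) = r) then t else 0) +
      (if (p.rev : ℕ) < r ∨ (k = 2 ∧ (p.rev : ℕ) = r) then t else 0) = csig r k p * t := by
  have hp := p.2
  have hrev : (p.rev : ℕ) = cm r k - (p + 1) := Fin.val_rev p
  rcases (by omega : k = 0 ∨ k = 2) with rfl | rfl
  · have hm : cm r 0 = 2 * r := by simp [cm]
    have hs : csig r 0 p = 1 := by simp [csig]
    rw [hs]
    by_cases h : (p : ℕ) < r
    · rw [if_pos (Or.inl h), if_neg (by omega)]
      simp
    · rw [if_neg (by omega), if_pos (by omega)]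
      simp
  · have hm : cm r 2 = 2 * r + 1 := by simp [cm]
    rcases lt_trichotomy (p : ℕ) r with h | h | h
    · have hs : csig r 2 p = 1 := by
        unfold csig
        rw [if_neg (by omega), if_neg (by omega)]
      rw [hs, if_pos (by omega), if_neg (by omega)]
      simp
    · have hs : csig r 2 p = 2 := by
        unfold csig
        rw [if_neg (by omega), if_pos (by omega)]
      rw [hs, if_pos (by omega), if_pos (by omega)]
      push_cast
      ring
    · have hs : csig r 2 p = 1 := by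
        unfold csig
        rw [if_neg (by omega), if_neg (by omega)]
      rw [hs, if_neg (by omega), if_pos (by omega)]
      simp

theorem q3_cq_add (hk : k ≤ 2) (hk1 : k ≠ 1) (x w : Fin (cm r k) → R) :
    cq r k (x + w) = cq r k x + cq r k w + cB r k x w := by
  have h1 : ∑ p : Fin (cm r k), (if (p : ℕ) < r ∨ (k = 2 ∧ (p : ℕ) = r) then w p * x p.rev else 0) =
      ∑ p : Fin (cm r k), (if (p.rev : ℕ) < r ∨ (k = 2 ∧ (p.rev : ℕ) = r) then
        x p * w p.rev else 0) := by
    rw [← Equiv.sum_comp Fin.revPerm]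
    refine Finset.sum_congr rfl fun p _ => ?_
    simp only [Fin.revPerm_apply, Fin.rev_rev]
    rw [mul_comm]
  have h2 : cB r k x w = ∑ p : Fin (cm r k),
      ((if (p : ℕ) < r ∨ (k = 2 ∧ (p : ℕ) = r) then x p * w p.rev else 0) +
      (if (p.rev : ℕ) < r ∨ (k = 2 ∧ (p.rev : ℕ) = r) then x p * w p.rev else 0)) := by
    unfold cB
    refine Finset.sum_congr rfl fun p _ => ?_
    rw [q3_cond hk hk1]
    ring
  rw [h2, Finset.sum_add_distrib, ← h1]
  unfold cq
  rw [← Finset.sum_add_distrib, ← Finset.sum_add_distrib, ← Finset.sum_add_distrib]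
  refine Finset.sum_congr rfl fun p _ => ?_
  simp only [Pi.add_apply]
  split_ifs
  · ring
  · ring

theorem q3_cq_single (a : Fin (cm r k)) (t : R) :
    cq r k (Pi.single a t : Fin (cm r k) → R) =
      if (a : ℕ) < r ∨ (k = 2 ∧ (a : ℕ) = r) then
        t * (Pi.single a t : Fin (cm r k) → R) a.rev else 0 := by
  unfold cq
  rw [Finset.sum_eq_single a]
  · rw [Pi.single_eq_same]
  · intro p _ hp
    rw [Pi.single_eq_of_ne hp]
    simp
  · intro h
    exact absurd (Finset.mem_univ _) h

/-- The matrix `M` preserves the forms. -/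
def q3P (r k : ℕ) {R : Type} [CommRing R] (M : Matrix (Fin (cm r k)) (Fin (cm r k)) R) : Prop :=
  (∀ x y, cB r k (M *ᵥ x) (M *ᵥ y) = cB r k x y) ∧
    (k ≠ 1 → (∀ x, cq r k (M *ᵥ x) = cq r k x) ∧ M.det = 1)

theorem q3P_mul {M N : Matrix (Fin (cm r k)) (Fin (cm r k)) R} (hM : q3P r k M)
    (hN : q3P r k N) : q3P r k (M * N) := by
  refine ⟨fun x y => ?_, fun hk => ⟨fun x => ?_, ?_⟩⟩
  · rw [← Matrix.mulVec_mulVec, ← Matrix.mulVec_mulVec, hM.1, hN.1]
  · rw [← Matrix.mulVec_mulVec, (hM.2 hk).1, (hN.2 hk).1]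
  · rw [Matrix.det_mul, (hM.2 hk).2, (hN.2 hk).2, one_mul]

/-- The long operation. -/
theorem q3_pair {a b : Fin (cm r k)} (haa : a.rev ≠ a) (hbb : b.rev ≠ b) (hab : a ≠ b)
    (h1 : csig r k a = csig r k b) (h2 : csig r k a.rev = csig r k b.rev) (c : R)
    (x y : Fin (cm r k) → R) :
    cB r k (x + (Pi.single a (c * x b) + Pi.single b.rev (-(c * x a.rev))))
      (y + (Pi.single a (c * y b) + Pi.single b.rev (-(c * y a.rev)))) = cB r k x y := by
  have hab' : a.rev ≠ b.rev := fun h => hab (Fin.rev_injective h)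
  simp only [q3_add_left, q3_add_right, q3_single_left, q3_single_right, Fin.rev_rev, Pi.add_apply]
  rw [Pi.single_eq_of_ne haa, Pi.single_eq_of_ne hab', Pi.single_eq_of_ne hab.symm,
    Pi.single_eq_of_ne hbb.symm, h1, h2]
  ring

theorem q3_pair_q (hk : k ≤ 2) (hk1 : k ≠ 1) {a b : Fin (cm r k)} (haa : a.rev ≠ a)
    (hbb : b.rev ≠ b) (hab : a ≠ b) (h3 : csig r k a.rev = csig r k b) (c : R)
    (x : Fin (cm r k) → R) :
    cq r k (x + (Pi.single a (c * x b) + Pi.single b.rev (-(c * x a.rev)))) = cq r k x := by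
  have hab' : a.rev ≠ b.rev := fun h => hab (Fin.rev_injective h)
  rw [q3_cq_add hk hk1, q3_cq_add hk hk1, q3_add_right, q3_single_left, q3_single_right,
    q3_single_right, Fin.rev_rev, q3_cq_single, q3_cq_single, Fin.rev_rev,
    Pi.single_eq_of_ne haa, Pi.single_eq_of_ne hab', Pi.single_eq_of_ne hbb.symm, h3]
  simp only [mul_zero, ite_self]
  ring

theorem q3_nE (m : ℕ) (a b : Fin m) (x : Fin m → R) :
    ((nE m a b).map (Int.castRingHom R)) *ᵥ x = Pi.single a (x b) := by
  ext p
  rw [Matrix.mulVec, dotProduct, Finset.sum_eq_single b]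
  · rw [Matrix.map_apply, nE]
    by_cases h : p = a
    · subst h
      simp
    · rw [Pi.single_eq_of_ne h, if_neg (fun h' => h (Fin.ext h'.1))]
      simp
  · intro q _ hq
    rw [Matrix.map_apply, nE, if_neg (fun h' => hq (Fin.ext h'.2))]
    simp
  · intro h
    exact absurd (Finset.mem_univ _) h

end forms

theorem q3_chi_rev (p : Fin (cm r k)) : cchi r k p.rev = - cchi r k p := by
  unfold cchi
  rw [Fin.rev_rev, neg_sub]

theorem q3_char_neg {n : ℕ} {R : Type} [CommRing R] (a : Fin n → ℤ) (z : Fin n → Rˣ) :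
    char (-a) z = (char a z)⁻¹ := by
  unfold char
  rw [← Finset.prod_inv_distrib]
  refine Finset.prod_congr rfl fun j _ => ?_
  rw [Pi.neg_apply, _root_.zpow_neg]

theorem q3_char_sub {n : ℕ} {R : Type} [CommRing R] (a b : Fin n → ℤ) (z : Fin n → Rˣ) :
    char (a - b) z = char a z * (char b z)⁻¹ := by
  unfold char
  rw [← Finset.prod_inv_distrib, ← Finset.prod_mul_distrib]
  refine Finset.prod_congr rfl fun j _ => ?_
  rw [Pi.sub_apply, _root_.zpow_sub]

theorem q3_diag {R : Type} [CommRing R] (d : Fin (cm r k) → Rˣ) (h : ∀ p, d p.rev = (d p)⁻¹)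
    (hd : ∏ p, d p = 1) : dg d ∈ cG r k R := by
  have hv : ∀ x : Fin (cm r k) → R, (dg d).1 *ᵥ x = fun p => (d p : R) * x p := by
    intro x
    ext p
    exact Matrix.mulVec_diagonal _ _ _
  have hdd : ∀ p, (d p : R) * (d p.rev : R) = 1 := by
    intro p
    rw [h, ← Units.val_mul, mul_inv_cancel, Units.val_one]
  refine ⟨fun x y => ?_, fun _ => ⟨fun x => ?_, ?_⟩⟩
  · rw [hv, hv]
    unfold cB
    refine Finset.sum_congr rfl fun p _ => ?_
    linear_combination ((csig r k p : R) * x p * y p.rev) * hdd p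
  · rw [hv]
    unfold cq
    refine Finset.sum_congr rfl fun p _ => ?_
    split_ifs
    · linear_combination (x p * x p.rev) * hdd p
    · rfl
  · have : (dg d).1.det = ((∏ p, d p : Rˣ) : R) := by
      rw [Units.coe_prod]
      exact Matrix.det_diagonal
    rw [this, hd, Units.val_one]

/-- [CHV-Q3b] Proof: `cchi (rev p) = - cchi p`; the middle weight is `0`, so the diagonal entries at `p`
and `rev p` are inverse to each other. -/
theorem tor_mem (hk : k ≤ 2) (hr : k = 0 → 2 ≤ r) (R : Type) [CommRing R] (z : Fin r → Rˣ) :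
    (cWD r k hk hr).tor R z ∈ cG r k R := by
  refine q3_diag r k (fun p => char (cchi r k p) z) (fun p => ?_) ?_
  · rw [q3_chi_rev, q3_char_neg]
  · have h1 : ∀ p : Fin (cm r k), char (cchi r k p) z =
        char (ev r p) z * (char (ev r (p.rev : Fin (cm r k))) z)⁻¹ := fun p => by
      unfold cchi
      exact q3_char_sub _ _ _
    rw [Finset.prod_congr rfl fun p _ => h1 p, Finset.prod_mul_distrib, Finset.prod_inv_distrib,
      ← Equiv.prod_comp Fin.revPerm (fun p : Fin (cm r k) => char (ev r p) z)]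
    simp only [Fin.revPerm_apply]
    exact mul_inv_cancel _

theorem q3_cab (hk : k ≤ 2) (i : Fin r) :
    ((i : ℕ) + 1 < r ∧ ca r k i = i ∧ cb r k i = i + 1) ∨
    ((i : ℕ) + 1 = r ∧ k = 0 ∧ ca r k i = r - 2 ∧ cb r k i = r) ∨
    ((i : ℕ) + 1 = r ∧ k = 1 ∧ ca r k i = r - 1 ∧ cb r k i = r) ∨
    ((i : ℕ) + 1 = r ∧ k = 2 ∧ ca r k i = r ∧ cb r k i = r + 1) := by
  have hi := i.2
  by_cases h : (i : ℕ) + 1 < r
  · left
    refine ⟨h, ?_, ?_⟩
    · rw [ca, if_pos h]
    · rw [cb, if_pos h]
  · have hi' : (i : ℕ) + 1 = r := by omega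
    right
    rcases (by omega : k = 0 ∨ k = 1 ∨ k = 2) with rfl | rfl | rfl
    · left
      refine ⟨hi', rfl, ?_, ?_⟩
      · rw [ca, if_neg h, if_pos rfl]
      · rw [cb, if_neg h, if_pos (Or.inl rfl)]
    · right; left
      refine ⟨hi', rfl, ?_, ?_⟩
      · rw [ca, if_neg h, if_neg (by omega), if_pos rfl]
      · rw [cb, if_neg h, if_pos (Or.inr rfl)]
    · right; right
      refine ⟨hi', rfl, ?_, ?_⟩
      · rw [ca, if_neg h, if_neg (by omega), if_neg (by omega)]
      · rw [cb, if_neg h, if_neg (by omega)]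

theorem q3_cm : (k = 2 ∧ cm r k = 2 * r + 1) ∨ (k ≠ 2 ∧ cm r k = 2 * r) := by
  by_cases h : k = 2
  · left
    exact ⟨h, by rw [cm, if_pos h]⟩
  · right
    exact ⟨h, by rw [cm, if_neg h, add_zero]⟩

theorem q3_E_upper (hk : k ≤ 2) (i : Fin r) (p q : Fin (cm r k)) (h : q ≤ p) :
    cE r k i p q = 0 := by
  have h' : (q : ℕ) ≤ p := h
  have hi := i.2
  have hp := p.2
  have hq := q.2
  have hc := q3_cab r k hk i
  have hm := q3_cm r k
  unfold cE
  split_ifs with h1 h2
  · rw [Matrix.sub_apply, nE, nE, if_neg (by omega), if_neg (by omega), sub_zero]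
  · rw [nE, if_neg (by omega)]
  · rw [Matrix.sub_apply, Matrix.smul_apply, nE, nE, if_neg (by omega), if_neg (by omega)]
    simp

theorem q3_E2_upper (i : Fin r) (p q : Fin (cm r k)) (h : q ≤ p) :
    cE2 r k i p q = 0 := by
  have h' : (q : ℕ) ≤ p := h
  unfold cE2
  split_ifs with h1
  · rfl
  · rw [Matrix.neg_apply, nE, if_neg (by omega), neg_zero]

theorem q3_det (hk : k ≤ 2) (hr : k = 0 → 2 ≤ r) (R : Type) [CommRing R] (i : Fin r) (c : R) :
    ((cMD0 r k hk hr).xm R i c).det = 1 := by
  have hX : ∀ p q : Fin (cm r k), q ≤ p → (cMD0 r k hk hr).xm R i c p q =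
      (1 : Matrix (Fin (cm r k)) (Fin (cm r k)) R) p q := by
    intro p q h
    have e1 := q3_E_upper r k hk i p q h
    have e2 := q3_E2_upper r k i p q h
    show (1 + c • (cE r k i).map (Int.castRingHom R) +
      c ^ 2 • (cE2 r k i).map (Int.castRingHom R)) p q = _
    rw [Matrix.add_apply, Matrix.add_apply, Matrix.smul_apply, Matrix.smul_apply,
      Matrix.map_apply, Matrix.map_apply, e1, e2]
    simp
  have hT : ((cMD0 r k hk hr).xm R i c).BlockTriangular id := by
    intro p q hpq
    have hpq' : q < p := hpq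
    rw [hX p q hpq'.le, Matrix.one_apply_ne hpq'.ne']
  rw [Matrix.det_of_isUpperTriangular hT]
  refine Finset.prod_eq_one fun p _ => ?_
  rw [hX p p le_rfl, Matrix.one_apply_eq]

/-- The matrices of the first type preserve the forms. -/
theorem q3_type1 (hk : k ≤ 2) {R : Type} [CommRing R] {a b : Fin (cm r k)} (haa : a.rev ≠ a)
    (hbb : b.rev ≠ b) (hab : a ≠ b) (h1 : csig r k a = csig r k b)
    (h2 : csig r k a.rev = csig r k b.rev) (h3 : k ≠ 1 → csig r k a.rev = csig r k b) (c : R)
    (M : Matrix (Fin (cm r k)) (Fin (cm r k)) R)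
    (hM : M = 1 + c • (nE (cm r k) a b - nE (cm r k) b.rev a.rev).map (Int.castRingHom R))
    (hdet : k ≠ 1 → M.det = 1) : q3P r k M := by
  have hv : ∀ x, M *ᵥ x = x + (Pi.single a (c * x b) + Pi.single b.rev (-(c * x a.rev))) := by
    intro x
    have e1 : (nE (cm r k) a b - nE (cm r k) b.rev a.rev).map (Int.castRingHom R) =
        (nE (cm r k) a b).map (Int.castRingHom R) -
          (nE (cm r k) b.rev a.rev).map (Int.castRingHom R) :=
      Matrix.map_sub _ (fun _ _ => map_sub _ _ _) _ _
    rw [hM, Matrix.add_mulVec, Matrix.one_mulVec, Matrix.smul_mulVec, e1, Matrix.sub_mulVec,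
      q3_nE, q3_nE, smul_sub, ← Pi.single_smul, ← Pi.single_smul, sub_eq_add_neg,
      ← Pi.single_neg, smul_eq_mul, smul_eq_mul]
  refine ⟨fun x y => ?_, fun hk1 => ⟨fun x => ?_, hdet hk1⟩⟩
  · rw [hv, hv, q3_pair haa hbb hab h1 h2]
  · rw [hv, q3_pair_q hk hk1 haa hbb hab (h3 hk1)]

theorem q3_xm (hk : k ≤ 2) (hr : k = 0 → 2 ≤ r) (R : Type) [CommRing R] (i : Fin r) (c : R) :
    q3P r k ((cMD0 r k hk hr).xm R i c) := by
  have hxm : (cMD0 r k hk hr).xm R i c = 1 + c • (cE r k i).map (Int.castRingHom R) +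
      c ^ 2 • (cE2 r k i).map (Int.castRingHom R) := rfl
  have hi := i.2
  by_cases h : (i : ℕ) + 1 < r ∨ k = 0
  · obtain ⟨a, ha⟩ : ∃ a : Fin (cm r k), (a : ℕ) = ca r k i := ⟨⟨_, Q2.ca_lt r k hk i⟩, rfl⟩
    obtain ⟨b, hb⟩ : ∃ b : Fin (cm r k), (b : ℕ) = cb r k i := ⟨⟨_, Q2.cb_lt r k hk i⟩, rfl⟩
    have ha' : (a.rev : ℕ) = cm r k - 1 - ca r k i := by
      rw [Fin.val_rev, ha]
      omega
    have hb' : (b.rev : ℕ) = cm r k - 1 - cb r k i := by
      rw [Fin.val_rev, hb]
      omega
    have hE : cE r k i = nE (cm r k) a b - nE (cm r k) b.rev a.rev := by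
      unfold cE
      rw [if_pos h, ha, hb, ha', hb']
    have hE2 : cE2 r k i = 0 := by
      unfold cE2
      rw [if_pos (by omega)]
    have hca : (a : ℕ) < r ∧ (a : ℕ) < b ∧ (b : ℕ) ≠ cm r k - 1 - b ∧ (a : ℕ) + b ≠ cm r k - 1 ∧
        (b : ℕ) < cm r k - 1 - a ∧ (k = 2 → (b : ℕ) ≠ r) ∧ (k = 1 → (b : ℕ) < r) ∧
        (k = 2 → (b : ℕ) < r) := by
      rcases q3_cab r k hk i with h1 | h1 | h1 | h1 <;> rcases q3_cm r k with h2 | h2 <;> omega
    have har := Fin.val_rev a
    have hbr := Fin.val_rev b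
    have hal := a.2
    have hbl := b.2
    have hm := q3_cm r k
    refine q3_type1 r k hk (a := a) (b := b) ?_ ?_ ?_ ?_ ?_ ?_ c _ ?_
      (fun _ => q3_det r k hk hr R i c)
    · intro h1
      rw [Fin.ext_iff] at h1
      omega
    · intro h1
      rw [Fin.ext_iff] at h1
      omega
    · intro h1
      rw [Fin.ext_iff] at h1
      omega
    · unfold csig
      split_ifs <;> omega
    · unfold csig
      split_ifs <;> omega
    · intro hk1
      unfold csig
      split_ifs <;> omega
    · rw [hxm, hE, hE2]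
      simp
  · rcases (by omega : k = 1 ∨ k = 2) with rfl | rfl
    · have hm : cm r 1 = 2 * r := by simp [cm]
      obtain ⟨a, ha⟩ : ∃ a : Fin (cm r 1), (a : ℕ) = r - 1 := ⟨⟨r - 1, by omega⟩, rfl⟩
      obtain ⟨b, hb⟩ : ∃ b : Fin (cm r 1), (b : ℕ) = r := ⟨⟨r, by omega⟩, rfl⟩
      have hab : a.rev = b := by
        rw [Fin.ext_iff, Fin.val_rev]
        omega
      have hne : b ≠ a := by
        intro h1
        rw [Fin.ext_iff] at h1
        omega
      have hE : cE r 1 i = nE (cm r 1) a b := by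
        unfold cE
        rw [if_neg h, if_pos rfl, ha, hb]
      have hE2 : cE2 r 1 i = 0 := by
        unfold cE2
        rw [if_pos (by omega)]
      have hv : ∀ x, (cMD0 r 1 hk hr).xm R i c *ᵥ x = x + Pi.single a (c * x b) := by
        intro x
        rw [hxm, hE, hE2]
        have e0 : (0 : Matrix (Fin (cm r 1)) (Fin (cm r 1)) ℤ).map (Int.castRingHom R) = 0 := by
          ext p q
          simp
        rw [e0, smul_zero, add_zero, Matrix.add_mulVec, Matrix.one_mulVec, Matrix.smul_mulVec,
          q3_nE, ← Pi.single_smul, smul_eq_mul]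
      have hsa : csig r 1 a = 1 := by
        unfold csig
        rw [if_neg (by omega), if_neg (by omega)]
      have hsb : csig r 1 b = -1 := by
        unfold csig
        rw [if_pos (by omega)]
      refine ⟨fun x y => ?_, fun hk1 => absurd rfl hk1⟩
      rw [hv, hv]
      simp only [q3_add_left, q3_add_right, q3_single_left, q3_single_right, hab, Pi.add_apply]
      rw [Pi.single_eq_of_ne hne, hsa, hsb]
      push_cast
      ring
    · have hm : cm r 2 = 2 * r + 1 := by simp [cm]
      obtain ⟨a, ha⟩ : ∃ a : Fin (cm r 2), (a : ℕ) = r - 1 := ⟨⟨r - 1, by omega⟩, rfl⟩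
      obtain ⟨z, hz⟩ : ∃ z : Fin (cm r 2), (z : ℕ) = r := ⟨⟨r, by omega⟩, rfl⟩
      obtain ⟨b, hb⟩ : ∃ b : Fin (cm r 2), (b : ℕ) = r + 1 := ⟨⟨r + 1, by omega⟩, rfl⟩
      have hab : a.rev = b := by
        rw [Fin.ext_iff, Fin.val_rev]
        omega
      have hzz : z.rev = z := by
        rw [Fin.ext_iff, Fin.val_rev]
        omega
      have hba : b ≠ a := by
        intro h1
        rw [Fin.ext_iff] at h1
        omega
      have hza : z ≠ a := by
        intro h1
        rw [Fin.ext_iff] at h1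
        omega
      have hbz : b ≠ z := by
        intro h1
        rw [Fin.ext_iff] at h1
        omega
      have hE : cE r 2 i = nE (cm r 2) z b - 2 • nE (cm r 2) a z := by
        unfold cE
        rw [if_neg h, if_neg (by omega), ha, hb, hz]
      have hE2 : cE2 r 2 i = -nE (cm r 2) a b := by
        unfold cE2
        rw [if_neg (by omega), ha, hb]
      have hv : ∀ x : Fin (cm r 2) → R, (cMD0 r 2 hk hr).xm R i c *ᵥ x = x +
          ((Pi.single z (c * x b) : Fin (cm r 2) → R) +
            (Pi.single a (-(2 * c * x z + c ^ 2 * x b)) : Fin (cm r 2) → R)) := by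
        intro x
        have e1 : (nE (cm r 2) z b - 2 • nE (cm r 2) a z).map (Int.castRingHom R) =
            (nE (cm r 2) z b).map (Int.castRingHom R) -
              (2 : R) • (nE (cm r 2) a z).map (Int.castRingHom R) := by
          ext p q
          rw [Matrix.map_apply, Matrix.sub_apply, Matrix.smul_apply, Matrix.sub_apply,
            Matrix.smul_apply, Matrix.map_apply, Matrix.map_apply]
          simp
        have e2 : (-nE (cm r 2) a b).map (Int.castRingHom R) =
            -(nE (cm r 2) a b).map (Int.castRingHom R) := by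
          ext p q
          simp
        rw [hxm, hE, hE2, e1, e2, Matrix.add_mulVec, Matrix.add_mulVec, Matrix.one_mulVec,
          Matrix.smul_mulVec, Matrix.smul_mulVec, Matrix.sub_mulVec, Matrix.smul_mulVec,
          Matrix.neg_mulVec, q3_nE, q3_nE, q3_nE]
        ext p
        simp only [Pi.add_apply, Pi.smul_apply, Pi.sub_apply, Pi.neg_apply, smul_eq_mul]
        by_cases hpz : p = z
        · subst hpz
          rw [Pi.single_eq_same, Pi.single_eq_same, Pi.single_eq_of_ne hza,
            Pi.single_eq_of_ne hza, Pi.single_eq_of_ne hza]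
          ring
        · rw [Pi.single_eq_of_ne hpz, Pi.single_eq_of_ne hpz]
          by_cases hpa : p = a
          · subst hpa
            rw [Pi.single_eq_same, Pi.single_eq_same, Pi.single_eq_same]
            ring
          · rw [Pi.single_eq_of_ne hpa, Pi.single_eq_of_ne hpa, Pi.single_eq_of_ne hpa]
            ring
      have hsa : csig r 2 a = 1 := by
        unfold csig
        rw [if_neg (by omega), if_neg (by omega)]
      have hsb : csig r 2 b = 1 := by
        unfold csig
        rw [if_neg (by omega), if_neg (by omega)]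
      have hsz : csig r 2 z = 2 := by
        unfold csig
        rw [if_neg (by omega), if_pos (by omega)]
      refine ⟨fun x y => ?_, fun hk1 => ⟨fun x => ?_, q3_det r 2 hk hr R i c⟩⟩
      · rw [hv, hv]
        simp only [q3_add_left, q3_add_right, q3_single_left, q3_single_right, hab, hzz,
          Pi.add_apply]
        rw [Pi.single_eq_same, Pi.single_eq_of_ne hza, Pi.single_eq_of_ne hbz,
          Pi.single_eq_of_ne hba, hsa, hsb, hsz]
        push_cast
        ring
      · rw [hv, q3_cq_add hk hk1, q3_cq_add hk hk1, q3_add_right, q3_single_left,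
          q3_single_right, q3_single_right, q3_cq_single, q3_cq_single, hzz, hab,
          Pi.single_eq_same, Pi.single_eq_of_ne hba, Pi.single_eq_of_ne hza, hsb, hsz,
          if_pos (Or.inr ⟨rfl, hz⟩), if_pos (Or.inl (by omega))]
        push_cast
        ring

/-- [CHV-Q3b] Proof: write `x = 1 + c E + c² E2` as a function on vectors. Pair type
(`i + 1 < r` or `k = 0`): `(x v) a = v a + c v b`, `(x v) b' = v b' - c v a'`, the other coordinates do
not change (`'` is `rev`); `a, b, a', b'` are different. `k = 1`, last: `(x v) (r-1) = v (r-1) + c v r`.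
`k = 2`, last: `(x v) r = v r + c v (r+1)`, `(x v) (r-1) = v (r-1) - 2 c v r - c² v (r+1)`. For
`det = 1`: `x` is a product of transvections `1 + t nE a b`, `a ≠ b` (`Matrix.det_transvection_of_ne`),
two in the pair case, three in the case `k = 2`, last:
`(1 + c nE r (r+1)) (1 - 2 c nE (r-1) r) (1 - c² nE (r-1) (r+1))`. -/
theorem xg_mem (hk : k ≤ 2) (hr : k = 0 → 2 ≤ r) (R : Type) [CommRing R] (i : Fin r) (c : R) :
    (cMD0 r k hk hr).xg R i c ∈ cG r k R := by
  exact q3_xm r k hk hr R i c

end Pool.Agent.CHV.Q3
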