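import Pool.Agent.CHV.Q2b
import Pool.Agent.CHV.I1
import Pool.Agent.CHV.Q3b

/-! # CHV, row Q3c: the torus, the root subgroups and the reflections are in the classical group -/

set_option autoImplicit false

namespace Pool.Agent.CHV.Q3

open Matrix

variable (r k : ℕ)

theorem q3_mapId {m : ℕ} (M : Matrix (Fin m) (Fin m) ℤ) : M.map (Int.castRingHom ℤ) = M := by
  ext p q
  simp

/-- The lower triangular matrix `1 + Eᵀ`. -/
theorem q3_lower (hk : k ≤ 2) (hr : k = 0 → 2 ≤ r) (i : Fin r) (h : (i : ℕ) + 1 < r ∨ k ≠ 2) :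
    q3P r k (1 + (cE r k i)ᵀ) := by
  have hi := i.2
  have hdet : (1 + (cE r k i)ᵀ).det = 1 := by
    have h1 : (1 + (cE r k i)ᵀ) = (1 + cE r k i)ᵀ := by
      rw [Matrix.transpose_add, Matrix.transpose_one]
    rw [h1, Matrix.det_transpose]
    have h2 := q3_det r k hk hr ℤ i 1
    have h3 : (cMD0 r k hk hr).xm ℤ i 1 = 1 + cE r k i := by
      have hxm : (cMD0 r k hk hr).xm ℤ i 1 = 1 + (1 : ℤ) • (cE r k i).map (Int.castRingHom ℤ) +
        (1 : ℤ) ^ 2 • (cE2 r k i).map (Int.castRingHom ℤ) := rfl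
      have hE2 : cE2 r k i = 0 := by
        unfold cE2
        rw [if_pos (by omega)]
      rw [hxm, q3_mapId, q3_mapId, hE2, one_smul, smul_zero, add_zero]
    rw [h3] at h2
    exact h2
  by_cases h' : (i : ℕ) + 1 < r ∨ k = 0
  · obtain ⟨a, ha⟩ : ∃ a : Fin (cm r k), (a : ℕ) = ca r k i := ⟨⟨_, Q2.ca_lt r k hk i⟩, rfl⟩
    obtain ⟨b, hb⟩ : ∃ b : Fin (cm r k), (b : ℕ) = cb r k i := ⟨⟨_, Q2.cb_lt r k hk i⟩, rfl⟩
    have ha' : (a.rev : ℕ) = cm r k - 1 - ca r k i := by
      rw [Fin.val_rev, ha]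
      omega
    have hb' : (b.rev : ℕ) = cm r k - 1 - cb r k i := by
      rw [Fin.val_rev, hb]
      omega
    have hE : cE r k i = nE (cm r k) a b - nE (cm r k) b.rev a.rev := by
      unfold cE
      rw [if_pos h', ha, hb, ha', hb']
    have hca : (a : ℕ) < r ∧ (a : ℕ) < b ∧ (b : ℕ) ≠ cm r k - 1 - b ∧ (a : ℕ) + b ≠ cm r k - 1 ∧
        (b : ℕ) < cm r k - 1 - a ∧ (k = 2 → (b : ℕ) ≠ r) ∧ (k = 1 → (b : ℕ) < r) ∧
        (k = 2 → (b : ℕ) < r) := by
      rw [ha, hb]
      rcases q3_cab r k hk i with h1 | h1 | h1 | h1 <;> rcases q3_cm r k with h2 | h2 <;> omega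
    have har := Fin.val_rev a
    have hbr := Fin.val_rev b
    have hal := a.2
    have hbl := b.2
    have hm := q3_cm r k
    refine q3_type1 r k hk (a := b) (b := a) ?_ ?_ ?_ ?_ ?_ ?_ 1 _ ?_ (fun _ => hdet)
    · intro h1
      rw [Fin.ext_iff] at h1
      omega
    · intro h1
      rw [Fin.ext_iff] at h1
      omega
    · intro h1
      rw [Fin.ext_iff] at h1
      omega
    · unfold csig
      split_ifs <;> omega
    · unfold csig
      split_ifs <;> omega
    · intro hk1
      unfold csig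
      split_ifs <;> omega
    · rw [hE, Matrix.transpose_sub, Q2.nE_transpose, Q2.nE_transpose, q3_mapId, one_smul]
  · obtain rfl : k = 1 := by omega
    have hm : cm r 1 = 2 * r := by simp [cm]
    obtain ⟨a, ha⟩ : ∃ a : Fin (cm r 1), (a : ℕ) = r - 1 := ⟨⟨r - 1, by omega⟩, rfl⟩
    obtain ⟨b, hb⟩ : ∃ b : Fin (cm r 1), (b : ℕ) = r := ⟨⟨r, by omega⟩, rfl⟩
    have hab : b.rev = a := by
      rw [Fin.ext_iff, Fin.val_rev]
      omega
    have hne : a ≠ b := by
      intro h1
      rw [Fin.ext_iff] at h1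
      omega
    have hE : (cE r 1 i)ᵀ = nE (cm r 1) b a := by
      unfold cE
      rw [if_neg h', if_pos rfl, Q2.nE_transpose, ha, hb]
    have hv : ∀ x : Fin (cm r 1) → ℤ, (1 + (cE r 1 i)ᵀ) *ᵥ x = x + Pi.single b (x a) := by
      intro x
      rw [hE, Matrix.add_mulVec, Matrix.one_mulVec, ← q3_mapId (nE (cm r 1) b a), q3_nE]
    have hsa : csig r 1 a = 1 := by
      unfold csig
      rw [if_neg (by omega), if_neg (by omega)]
    have hsb : csig r 1 b = -1 := by
      unfold csig
      rw [if_pos (by omega)]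
    refine ⟨fun x y => ?_, fun hk1 => absurd rfl hk1⟩
    rw [hv, hv]
    simp only [q3_add_left, q3_add_right, q3_single_left, q3_single_right, hab, Pi.add_apply]
    rw [Pi.single_eq_of_ne hne, hsa, hsb]
    push_cast
    ring

/-- [CHV-Q3c] Proof: except for `k = 2`, last, `cs = (1 - E) (1 + Eᵀ) (1 - E)` (`Q1.sl2_prod`), and
`1 + Eᵀ` preserves the form by the computation of `xg_mem`, transposed. For `k = 2`, last,
`(s v) (r-1) = -v (r+1)`, `(s v) (r+1) = -v (r-1)`, `(s v) r = -v r`; `det s = 1`: `s` is the matrix of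
the transposition of `r-1` and `r+1` times the diagonal matrix with `-1` in the three places. -/
theorem s_mem (hk : k ≤ 2) (hr : k = 0 → 2 ≤ r) (i : Fin r) :
    (cMD0 r k hk hr).s i ∈ cG r k ℤ := by
  show q3P r k (cs r k i)
  have hi := i.2
  have hxm : ∀ c : ℤ, (cMD0 r k hk hr).xm ℤ i c = 1 + c • cE r k i + c ^ 2 • cE2 r k i := by
    intro c
    have hxm : (cMD0 r k hk hr).xm ℤ i c = 1 + c • (cE r k i).map (Int.castRingHom ℤ) +
      c ^ 2 • (cE2 r k i).map (Int.castRingHom ℤ) := rfl
    rw [hxm, q3_mapId, q3_mapId]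
  by_cases h : (i : ℕ) + 1 < r ∨ k ≠ 2
  · obtain ⟨g1, g2, g3, g4⟩ := Q2.cE_sl2 r k hk hr i h
    have hE2 : cE2 r k i = 0 := by
      unfold cE2
      rw [if_pos (by omega)]
    have hs : cs r k i = (1 - cE r k i) * (1 + (cE r k i)ᵀ) * (1 - cE r k i) := by
      rw [Q1.sl2_prod g1 g2 g3 g4]
      unfold cs
      rw [if_pos h]
    have hX : q3P r k (1 - cE r k i) := by
      have h1 := q3_xm r k hk hr ℤ i (-1)
      rw [hxm, hE2] at h1
      have h2 : (1 : Matrix (Fin (cm r k)) (Fin (cm r k)) ℤ) + (-1 : ℤ) • cE r k i +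
          (-1 : ℤ) ^ 2 • 0 = 1 - cE r k i := by
        rw [smul_zero, add_zero, neg_smul, one_smul, sub_eq_add_neg]
      rw [h2] at h1
      exact h1
    rw [hs]
    exact q3P_mul (q3P_mul hX (q3_lower r k hk hr i h)) hX
  · obtain rfl : k = 2 := by omega
    have hir : (i : ℕ) + 1 = r := by omega
    have hm : cm r 2 = 2 * r + 1 := by simp [cm]
    obtain ⟨a, ha⟩ : ∃ a : Fin (cm r 2), (a : ℕ) = r - 1 := ⟨⟨r - 1, by omega⟩, rfl⟩
    obtain ⟨z, hz⟩ : ∃ z : Fin (cm r 2), (z : ℕ) = r := ⟨⟨r, by omega⟩, rfl⟩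
    obtain ⟨b, hb⟩ : ∃ b : Fin (cm r 2), (b : ℕ) = r + 1 := ⟨⟨r + 1, by omega⟩, rfl⟩
    have hab : a.rev = b := by
      rw [Fin.ext_iff, Fin.val_rev]
      omega
    have hba' : b.rev = a := by rw [← hab, Fin.rev_rev]
    have hzz : z.rev = z := by
      rw [Fin.ext_iff, Fin.val_rev]
      omega
    have hba : b ≠ a := by
      intro h1
      rw [Fin.ext_iff] at h1
      omega
    have hza : z ≠ a := by
      intro h1
      rw [Fin.ext_iff] at h1
      omega
    have hbz : b ≠ z := by
      intro h1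
      rw [Fin.ext_iff] at h1
      omega
    have hcs : cs r 2 i = 1 - nE (cm r 2) a a - nE (cm r 2) b b - 2 • nE (cm r 2) z z -
        nE (cm r 2) b a - nE (cm r 2) a b := by
      unfold cs
      rw [if_neg h, ha, hb, hz]
    have hE : cE r 2 i = nE (cm r 2) z b - 2 • nE (cm r 2) a z := by
      unfold cE
      rw [if_neg (by omega), if_neg (by omega), ha, hb, hz]
    have hE2 : cE2 r 2 i = -nE (cm r 2) a b := by
      unfold cE2
      rw [if_neg (by omega), ha, hb]
    -- the determinant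
    have hdet : (cs r 2 i).det = 1 := by
      obtain ⟨e, he⟩ : ∃ e : Fin 3 → Fin 3 → Matrix (Fin (cm r 2)) (Fin (cm r 2)) ℤ,
          ∀ j l, e j l = nE (cm r 2) (r - 1 + j) (r - 1 + l) := ⟨_, fun _ _ => rfl⟩
      have hmul : ∀ i j k l, e i j * e k l = if j = k then e i l else 0 := by
        intro i j k l
        rw [he, he, he, Q2.nE_mul]
        have hj := j.2
        by_cases hjk : j = k
        · subst hjk
          rw [if_pos rfl, if_pos (by omega)]
        · rw [if_neg hjk, if_neg]
          rintro ⟨g, -⟩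
          exact hjk (Fin.ext (by omega))
      have e00 : e 0 0 = nE (cm r 2) a a := by rw [he, ha]; rfl
      have e11 : e 1 1 = nE (cm r 2) z z := by
        rw [he, hz]
        congr 1 <;> (simp; try omega)
      have e22 : e 2 2 = nE (cm r 2) b b := by
        rw [he, hb]
        congr 1 <;> (simp; try omega)
      have e20 : e 2 0 = nE (cm r 2) b a := by
        rw [he, hb, ha]
        congr 1 <;> (simp; try omega)
      have e02 : e 0 2 = nE (cm r 2) a b := by
        rw [he, hb, ha]
        congr 1 <;> (simp; try omega)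
      have e12 : e 1 2 = nE (cm r 2) z b := by
        rw [he, hb, hz]
        congr 1 <;> (simp; try omega)
      have e01 : e 0 1 = nE (cm r 2) a z := by
        rw [he, ha, hz]
        congr 1 <;> (simp; try omega)
      have h1 := Q1.so3_sq e hmul
      have h2 := Q1.so3_rank (R := ℤ) e hmul 1 1 (one_mul 1)
      rw [e00, e11, e22, e20, e02] at h1 h2
      rw [e12, e01] at h2
      have hs : 1 - nE (cm r 2) a a - nE (cm r 2) b b - 2 • nE (cm r 2) z z -
        nE (cm r 2) b a - nE (cm r 2) a b = cs r 2 i := hcs.symm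
      rw [hs] at h1 h2
      have hx1 := q3_det r 2 hk hr ℤ i 1
      have hx2 := q3_det r 2 hk hr ℤ i (-1)
      rw [hxm, hE, hE2] at hx1 hx2
      have h3 := congrArg Matrix.det h1
      have h4 := congrArg Matrix.det h2
      rw [Matrix.det_mul, Matrix.det_one] at h3
      simp only [Matrix.det_mul] at h4
      have h5 : (1 : Matrix (Fin (cm r 2)) (Fin (cm r 2)) ℤ) +
          ((1 : ℤ) ^ 2 - 1) • nE (cm r 2) a a + ((1 : ℤ) ^ 2 - 1) • nE (cm r 2) b b = 1 := by
        rw [one_pow, sub_self, zero_smul, zero_smul, add_zero, add_zero]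
      rw [hx1, hx2, h5, Matrix.det_one] at h4
      linarith
    have hv : ∀ x : Fin (cm r 2) → ℤ, cs r 2 i *ᵥ x = x +
        ((Pi.single z (-(2 * x z)) : Fin (cm r 2) → ℤ) +
          ((Pi.single a (-(x a + x b)) : Fin (cm r 2) → ℤ) +
            (Pi.single b (-(x a + x b)) : Fin (cm r 2) → ℤ))) := by
      intro x
      have e1 : ∀ u v : Fin (cm r 2), nE (cm r 2) u v *ᵥ x = Pi.single u (x v) := by
        intro u v
        rw [← q3_mapId (nE (cm r 2) u v), q3_nE]
      rw [hcs, two_nsmul, Matrix.sub_mulVec, Matrix.sub_mulVec, Matrix.sub_mulVec,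
        Matrix.sub_mulVec, Matrix.sub_mulVec, Matrix.one_mulVec, Matrix.add_mulVec, e1, e1, e1, e1,
        e1]
      ext p
      simp only [Pi.add_apply, Pi.sub_apply]
      by_cases hpz : p = z
      · subst hpz
        rw [Pi.single_eq_same, Pi.single_eq_same, Pi.single_eq_of_ne hza, Pi.single_eq_of_ne hza,
          Pi.single_eq_of_ne hza, Pi.single_eq_of_ne hbz.symm, Pi.single_eq_of_ne hbz.symm,
          Pi.single_eq_of_ne hbz.symm]
        push_cast
        ring
      · rw [Pi.single_eq_of_ne hpz, Pi.single_eq_of_ne hpz]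
        by_cases hpa : p = a
        · subst hpa
          rw [Pi.single_eq_same, Pi.single_eq_same, Pi.single_eq_same,
            Pi.single_eq_of_ne hba.symm, Pi.single_eq_of_ne hba.symm, Pi.single_eq_of_ne hba.symm]
          push_cast
          ring
        · rw [Pi.single_eq_of_ne hpa, Pi.single_eq_of_ne hpa, Pi.single_eq_of_ne hpa]
          by_cases hpb : p = b
          · subst hpb
            rw [Pi.single_eq_same, Pi.single_eq_same, Pi.single_eq_same]
            push_cast
            ring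
          · rw [Pi.single_eq_of_ne hpb, Pi.single_eq_of_ne hpb, Pi.single_eq_of_ne hpb]
            push_cast
            ring
    have hsa : csig r 2 a = 1 := by
      unfold csig
      rw [if_neg (by omega), if_neg (by omega)]
    have hsb : csig r 2 b = 1 := by
      unfold csig
      rw [if_neg (by omega), if_neg (by omega)]
    have hsz : csig r 2 z = 2 := by
      unfold csig
      rw [if_neg (by omega), if_pos (by omega)]
    refine ⟨fun x y => ?_, fun hk1 => ⟨fun x => ?_, hdet⟩⟩
    · rw [hv, hv]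
      simp only [q3_add_left, q3_add_right, q3_single_left, q3_single_right, hab, hzz, hba',
        Pi.add_apply]
      rw [Pi.single_eq_same, Pi.single_eq_same, Pi.single_eq_same, Pi.single_eq_of_ne hza,
        Pi.single_eq_of_ne hbz.symm, Pi.single_eq_of_ne hbz, Pi.single_eq_of_ne hba,
        Pi.single_eq_of_ne hza.symm, Pi.single_eq_of_ne hba.symm, hsa, hsb, hsz]
      push_cast
      ring
    · rw [hv]
      simp only [q3_cq_add hk hk1, q3_add_right, q3_single_right, q3_cq_single, hab, hzz, hba']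
      rw [if_pos (Or.inr ⟨trivial, hz⟩), if_pos (Or.inl (by omega)), if_neg (by omega)]
      simp only [Pi.single_eq_same, Pi.single_eq_of_ne hba, Pi.single_eq_of_ne hza.symm,
        Pi.single_eq_of_ne hbz, hsa, hsb, hsz]
      push_cast
      ring

end Pool.Agent.CHV.Q3
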