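import Pool.Agent.CHV.Q5a
import Pool.Agent.CHV.Q3

/-! # CHV, row Q5b: kernels of the coordinates; diagonal matrices -/

set_option autoImplicit false

namespace Pool.Agent.CHV.Q5

open Matrix

variable (r k : ℕ)

/-- The pairing of the columns `j` and `q`. -/
theorem q5b_col {R : Type} [CommRing R] (g : GL (Fin (cm r k)) R)
    (hg : g ∈ cG r k R) (j q : Fin (cm r k)) :
    ∑ p : Fin (cm r k), (csig r k p : R) * g.1 p j * g.1 p.rev q =
      if q = j.rev then (csig r k j : R) else 0 := by
  have h1 := hg.1 (Pi.single j 1) (Pi.single q 1)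
  rw [Q3.q3_single_left, Matrix.mulVec_single_one, Matrix.mulVec_single_one] at h1
  unfold cB at h1
  simp only [Matrix.col_apply] at h1
  rw [h1, mul_one, Pi.single_apply]
  by_cases h : q = j.rev
  · rw [if_pos h, if_pos h.symm, mul_one]
  · rw [if_neg h, if_neg (Ne.symm h), mul_zero]

/-- The quadratic form of a column `q ≥ r`, for `k = 0, 2`. -/
theorem q5b_quad {R : Type} [CommRing R] (hk1 : k ≠ 1) (g : GL (Fin (cm r k)) R)
    (hg : g ∈ cG r k R) (q : Fin (cm r k)) (hq : r ≤ (q : ℕ)) (hq' : k = 2 → (q : ℕ) ≠ r) :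
    ∑ p : Fin (cm r k), (if (p : ℕ) < r ∨ (k = 2 ∧ (p : ℕ) = r) then
      g.1 p q * g.1 p.rev q else 0) = 0 := by
  have h1 := (hg.2 hk1).1 (Pi.single q 1)
  rw [Q3.q3_cq_single, Matrix.mulVec_single_one, if_neg (by
    rintro (h | h)
    · omega
    · exact hq' h.1 h.2)] at h1
  exact h1

/-- [CHV-Q5] Proof: by `crit` there are the following cases; `e_p = Pi.single p 1`, `u e_p` is the
column `p` of `u`, with nonzero entries only at `p` (`1`) and at the positions `l` with
`0 < (cchi l - cchi p) ⬝ cy`. `(a, b)`: hypothesis. `(b', a')`: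
`0 = cB (u e_b) (u e_{a'}) = ± u a b ± u b' a'` (pair type; the positions `l` with pairing between
those of `b` and `a`, for `u e_b` at `l` and `u e_{a'}` at `l'`), and for `k = 2`, last
(`b' = r - 1`, `a' = a = r`): `0 = cB (u e_r) (u e_{r+1}) = 2 u r (r+1) + u (r-1) r`. `k = 0`,
`(r - 2, r + 1)`: `0 = cq (u e_{r+1}) = u (r-2) (r+1) + u (r-1) (r+1) * u r (r+1)`, and one of the two
factors is `± u a b`. `k = 2`, `(r - 1, r + 1)`: `0 = cq (u e_{r+1}) = u (r-1) (r+1) + (u r (r+1))²`. -/
theorem ker (hk : k ≤ 2) (hr : k = 0 → 2 ≤ r) (R : Type) [CommRing R] (i : Fin r)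
    (u : GL (Fin (cm r k)) R) (hu : u ∈ cG r k R) (hut : (cWD r k hk hr).IsUT u.1)
    (h : u.1 ⟨ca r k i, Q2.ca_lt r k hk i⟩ ⟨cb r k i, Q2.cb_lt r k hk i⟩ = 0)
    (p q : Fin (cm r k)) (h1 : 0 < (cchi r k p - cchi r k q) ⬝ᵥ cy r k)
    (h2 : ¬ 0 < (cchi r k p - cchi r k q) ⬝ᵥ
      (cy r k - (crt r (cal r k i) ⬝ᵥ cy r k) • cal r k i)) : u.1 p q = 0 := by
  have hi := i.2
  have hm := Q3.q3_cm r k
  have hd : ∀ p : Fin (cm r k), u.1 p p = 1 := by
    intro p
    have h3 := hut p p (by
      change ¬ 0 < (cchi r k p - cchi r k p) ⬝ᵥ cy r k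
      rw [sub_self, zero_dotProduct]
      exact lt_irrefl _)
    rw [h3]
    exact Matrix.one_apply_eq _
  have hz : ∀ p q : Fin (cm r k), p ≠ q → ¬ 0 < (cchi r k p - cchi r k q) ⬝ᵥ cy r k →
      u.1 p q = 0 := by
    intro p q hpq h3
    rw [hut p q h3]
    exact Matrix.one_apply_ne hpq
  -- the data of the root
  obtain ⟨a, ha⟩ : ∃ a : Fin (cm r k), a = ⟨ca r k i, Q2.ca_lt r k hk i⟩ := ⟨_, rfl⟩
  obtain ⟨b, hb⟩ : ∃ b : Fin (cm r k), b = ⟨cb r k i, Q2.cb_lt r k hk i⟩ := ⟨_, rfl⟩
  rw [← ha, ← hb] at h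
  have hav : (a : ℕ) = ca r k i := by rw [ha]
  have hbv : (b : ℕ) = cb r k i := by rw [hb]
  have hab : ∀ p : Fin (cm r k), ¬ (0 < (cchi r k a - cchi r k p) ⬝ᵥ cy r k ∧
      0 < (cchi r k p - cchi r k b) ⬝ᵥ cy r k) := by
    rw [ha, hb]
    exact Q2.ab_adj r k hk hr i
  have hcab := Q3.q3_cab r k hk i
  have hne : a ≠ b := by
    intro h3
    have h4 : (a : ℕ) = b := congrArg (fun x : Fin (cm r k) => (x : ℕ)) h3
    omega
  -- the entry `(b', a')`
  have hba : u.1 b.rev a.rev = 0 := by
    have h3 := q5b_col r k u hu b a.rev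
    rw [if_neg (fun h4 => hne (Fin.rev_injective h4)), ← Finset.add_sum_erase _ _
      (Finset.mem_univ b), ← Finset.add_sum_erase _ _
      (Finset.mem_erase.2 ⟨hne, Finset.mem_univ a⟩), Finset.sum_eq_zero, add_zero, h, hd, mul_zero,
      zero_mul, add_zero, mul_one] at h3
    · have h4 : ((csig r k b : ℤ) : R) * ((csig r k b : ℤ) : R) = 1 := by
        have h5 : csig r k b * csig r k b = 1 := by
          unfold csig
          rcases hcab with h6 | h6 | h6 | h6
          · rw [if_neg (by omega), if_neg (by omega)]; norm_num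
          · rw [if_neg (by omega), if_neg (by omega)]; norm_num
          · rw [if_pos (by omega)]; norm_num
          · rw [if_neg (by omega), if_neg (by omega)]; norm_num
        exact_mod_cast congrArg (fun x : ℤ => (x : R)) h5
      calc u.1 b.rev a.rev = (((csig r k b : ℤ) : R) * ((csig r k b : ℤ) : R)) *
            u.1 b.rev a.rev := by rw [h4, one_mul]
        _ = ((csig r k b : ℤ) : R) * (((csig r k b : ℤ) : R) * u.1 b.rev a.rev) := mul_assoc _ _ _
        _ = 0 := by rw [h3, mul_zero]
    · intro l hl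
      have hl1 := Finset.mem_erase.1 hl
      have hl2 := Finset.mem_erase.1 hl1.2
      by_cases h5 : 0 < (cchi r k l - cchi r k b) ⬝ᵥ cy r k
      · have h6 : u.1 l.rev a.rev = 0 := by
          refine hz _ _ (fun h7 => hl1.1 (Fin.rev_injective h7)) ?_
          rw [Q3.q3_chi_rev, Q3.q3_chi_rev, neg_sub_neg]
          exact fun h7 => hab l ⟨h7, h5⟩
        rw [h6, mul_zero]
      · rw [hz l b hl2.1 h5, mul_zero, zero_mul]
  rcases crit r k hk hr i p q h1 h2 with h3 | h3 | h3 | h3
  · rw [show p = a from Fin.ext (h3.1.trans hav.symm), show q = b from Fin.ext (h3.2.trans hbv.symm)]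
    exact h
  · rw [show p = b.rev from Fin.ext (by rw [Fin.val_rev]; omega),
      show q = a.rev from Fin.ext (by rw [Fin.val_rev]; omega)]
    exact hba
  · obtain ⟨hk0, hp, hq, hri⟩ := h3
    have hr2 := hr hk0
    have hm' : cm r k = 2 * r := by omega
    have h4 := q5b_quad r k (by omega) u hu q (by omega) (fun h5 => by omega)
    have hp' : p.rev = q := Fin.ext (by rw [Fin.val_rev]; omega)
    obtain ⟨s, hs⟩ : ∃ s : Fin (cm r k), (s : ℕ) = r - 1 := ⟨⟨r - 1, by omega⟩, rfl⟩
    have hsp : s ≠ p := fun h5 => by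
      have : (s : ℕ) = p := congrArg (fun x : Fin (cm r k) => (x : ℕ)) h5
      omega
    rw [← Finset.add_sum_erase _ _ (Finset.mem_univ p), ← Finset.add_sum_erase _ _
      (Finset.mem_erase.2 ⟨hsp, Finset.mem_univ s⟩), Finset.sum_eq_zero, add_zero,
      if_pos (Or.inl (by omega)), if_pos (Or.inl (by omega)), hp', hd, mul_one] at h4
    · have h5 : u.1 s q * u.1 s.rev q = 0 := by
        rcases hcab with h6 | h6 | h6 | h6
        · have h7 : b.rev = s.rev := Fin.ext (by rw [Fin.val_rev, Fin.val_rev]; omega)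
          have h8 : a.rev = q := Fin.ext (by rw [Fin.val_rev]; omega)
          rw [h7, h8] at hba
          rw [hba, mul_zero]
        · have h7 : b.rev = s := Fin.ext (by rw [Fin.val_rev]; omega)
          have h8 : a.rev = q := Fin.ext (by rw [Fin.val_rev]; omega)
          rw [h7, h8] at hba
          rw [hba, zero_mul]
        · omega
        · omega
      rw [h5, add_zero] at h4
      exact h4
    · intro l hl
      have hl1 := Finset.mem_erase.1 hl
      have hl2 := Finset.mem_erase.1 hl1.2
      have hls : (l : ℕ) ≠ s := fun h5 => hl1.1 (Fin.ext h5)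
      have hlp : (l : ℕ) ≠ p := fun h5 => hl2.1 (Fin.ext h5)
      have hll := l.2
      split_ifs with h5
      · have h6 : u.1 l.rev q = 0 := by
          refine hz _ _ (fun h7 => ?_) ?_
          · have := congrArg (fun x : Fin (cm r k) => (x : ℕ)) h7
            simp only [Fin.val_rev] at this
            omega
          · have e1 := Q2.chi_cy r k l.rev
            have e2 := Q2.chi_cy r k q
            rw [Fin.val_rev] at e1
            rw [sub_dotProduct, e1, e2]
            clear e1 e2 h1 h2
            subst hk0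
            simp only [if_true, OfNat.zero_ne_ofNat, if_false, false_and]
            split_ifs <;> omega
        rw [h6, mul_zero]
      · rfl
  · obtain ⟨hk2, hi', hp, hq⟩ := h3
    have hm' : cm r k = 2 * r + 1 := by omega
    have h4 := q5b_quad r k (by omega) u hu q (by omega) (fun h5 => by omega)
    have hp' : p.rev = q := Fin.ext (by rw [Fin.val_rev]; omega)
    have hap : a ≠ p := fun h5 => by
      have : (a : ℕ) = p := congrArg (fun x : Fin (cm r k) => (x : ℕ)) h5
      omega
    have hbq : b = q := Fin.ext (by omega)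
    rw [← Finset.add_sum_erase _ _ (Finset.mem_univ p), ← Finset.add_sum_erase _ _
      (Finset.mem_erase.2 ⟨hap, Finset.mem_univ a⟩), Finset.sum_eq_zero, add_zero,
      if_pos (by omega), if_pos (by omega), hp', hd, mul_one, ← hbq, h, zero_mul, add_zero] at h4
    · rw [← hbq]
      exact h4
    · intro l hl
      have hl1 := Finset.mem_erase.1 hl
      have hl2 := Finset.mem_erase.1 hl1.2
      have hls : (l : ℕ) ≠ a := fun h5 => hl1.1 (Fin.ext h5)
      have hlp : (l : ℕ) ≠ p := fun h5 => hl2.1 (Fin.ext h5)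
      have hll := l.2
      split_ifs with h5
      · have h6 : u.1 l.rev q = 0 := by
          refine hz _ _ (fun h7 => ?_) ?_
          · have := congrArg (fun x : Fin (cm r k) => (x : ℕ)) h7
            simp only [Fin.val_rev] at this
            omega
          · have e1 := Q2.chi_cy r k l.rev
            have e2 := Q2.chi_cy r k q
            rw [Fin.val_rev] at e1
            rw [sub_dotProduct, e1, e2]
            clear e1 e2 h1 h2
            subst hk2
            simp only [if_true, OfNat.ofNat_ne_zero, if_false, true_and]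
            split_ifs <;> omega
        rw [h6, mul_zero]
      · rfl

end Pool.Agent.CHV.Q5
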