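import Pool.Agent.CHV.Q2b
import Pool.Agent.CHV.I1

/-! # CHV, row Q5c: kernels of the coordinates; diagonal matrices -/

set_option autoImplicit false

namespace Pool.Agent.CHV.Q5

open Matrix

variable (r k : ℕ)

theorem q5c_sub {n : ℕ} {R : Type} [CommRing R] (a b : Fin n → ℤ) (z : Fin n → Rˣ) :
    char (a - b) z = char a z * (char b z)⁻¹ := by
  unfold char
  rw [← Finset.prod_inv_distrib, ← Finset.prod_mul_distrib]
  refine Finset.prod_congr rfl fun j _ => ?_
  rw [Pi.sub_apply, _root_.zpow_sub]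

theorem q5c_ev {R : Type} [CommRing R] (a : Fin r) (z : Fin r → Rˣ) :
    char (ev r a) z = z a := by
  unfold char
  rw [Finset.prod_eq_single a]
  · rw [show ev r a a = 1 by simp [ev], zpow_one]
  · intro j _ hj
    have : ¬ (j : ℕ) = a := fun h => hj (Fin.ext h)
    rw [show ev r a j = 0 by simp [ev, this], _root_.zpow_zero]
  · intro h
    exact absurd (Finset.mem_univ a) h

theorem q5c_ev' {R : Type} [CommRing R] {a : ℕ} (h : r ≤ a) (z : Fin r → Rˣ) :
    char (ev r a) z = 1 := by
  unfold char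
  refine Finset.prod_eq_one fun j _ => ?_
  have hj := j.2
  have : ¬ (j : ℕ) = a := by omega
  rw [show ev r a j = 0 by simp [ev, this], _root_.zpow_zero]

theorem q5c_cB (d : Fin (cm r k) → ℤ) (p : Fin (cm r k)) :
    cB r k (Matrix.diagonal d *ᵥ Pi.single p 1) (Matrix.diagonal d *ᵥ Pi.single p.rev 1) =
      csig r k p * (d p * d p.rev) := by
  unfold cB
  rw [Finset.sum_eq_single p]
  · rw [Matrix.mulVec_diagonal, Matrix.mulVec_diagonal, Pi.single_eq_same, Pi.single_eq_same,
      Int.cast_id]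
    ring
  · intro l _ hl
    rw [Matrix.mulVec_diagonal, Pi.single_eq_of_ne hl]
    ring
  · intro h
    exact absurd (Finset.mem_univ p) h

/-- [CHV-Q5] Proof: `g = diag (d p)`, `d p = ±1` (`Int.isUnit_iff`), `cB (g e_p) (g e_{p'}) =
cB e_p e_{p'}` gives `d p * d p' = 1`, so `d p' = d p`; `ε l = d l`. For `k = 2`, the middle entry is
`1` because the determinant is `1`. -/
theorem diag (hk : k ≤ 2) (hr : k = 0 → 2 ≤ r) (g : GL (Fin (cm r k)) ℤ) (hg : g ∈ cG r k ℤ)
    (h : ∀ p q, p ≠ q → g.1 p q = 0) : ∃ ε : Fin r → ℤˣ, g = (cWD r k hk hr).tor ℤ ε := by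
  classical
  set d : Fin (cm r k) → ℤ := fun p => g.1 p p with hd
  have hg1 : g.1 = Matrix.diagonal d := by
    ext p q
    by_cases hpq : p = q
    · subst hpq
      rw [Matrix.diagonal_apply_eq]
    · rw [Matrix.diagonal_apply_ne _ hpq, h p q hpq]
  have hsig : ∀ p, csig r k p ≠ 0 := by
    intro p
    unfold csig
    split_ifs <;> norm_num
  have hdd : ∀ p, d p * d p.rev = 1 := by
    intro p
    have h1 := hg.1 (Pi.single p 1) (Pi.single p.rev 1)
    rw [hg1, q5c_cB] at h1
    have h2 := q5c_cB r k (fun _ => 1) p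
    rw [Matrix.diagonal_one, Matrix.one_mulVec, Matrix.one_mulVec, mul_one] at h2
    rw [h2] at h1
    exact mul_left_cancel₀ (hsig p) h1
  have hdr : ∀ p, d p.rev = d p := by
    intro p
    have h1 := hdd p
    rcases Int.isUnit_iff.1 (IsUnit.of_mul_eq_one _ h1) with h2 | h2
    · rw [h2] at h1 ⊢
      omega
    · rw [h2] at h1 ⊢
      omega
  have hsq : ∀ p, d p * d p = 1 := fun p => by
    have h1 := hdd p
    rwa [hdr] at h1
  have hrm : r ≤ cm r k := by
    unfold cm
    omega
  let ε : Fin r → ℤˣ := fun l =>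
    ⟨d (Fin.castLE hrm l), d (Fin.castLE hrm l), hsq _, hsq _⟩
  have hε : ∀ l, ((ε l : ℤˣ) : ℤ) = d (Fin.castLE hrm l) := fun _ => rfl
  have hεi : ∀ l, (((ε l)⁻¹ : ℤˣ) : ℤ) = d (Fin.castLE hrm l) := fun _ => rfl
  refine ⟨ε, Units.ext ?_⟩
  have htor : ((cWD r k hk hr).tor ℤ ε).1 =
      Matrix.diagonal fun p => ((char (cchi r k p) ε : ℤˣ) : ℤ) := rfl
  rw [htor, hg1]
  congr 1
  funext p
  have hp := p.2
  have hrev : ((p.rev : Fin (cm r k)) : ℕ) = cm r k - (p + 1) := Fin.val_rev p
  unfold cchi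
  rw [q5c_sub]
  by_cases h1 : (p : ℕ) < r
  · have h2 : r ≤ ((p.rev : Fin (cm r k)) : ℕ) := by
      rw [hrev]
      unfold cm at hp ⊢
      omega
    rw [q5c_ev' r h2, inv_one, mul_one, show ev r (p : ℕ) = ev r ((⟨p, h1⟩ : Fin r) : ℕ) from rfl,
      q5c_ev, hε]
    rfl
  · rw [q5c_ev' r (not_lt.1 h1), one_mul]
    by_cases h2 : ((p.rev : Fin (cm r k)) : ℕ) < r
    · rw [show ev r ((p.rev : Fin (cm r k)) : ℕ) =
        ev r ((⟨(p.rev : Fin (cm r k)), h2⟩ : Fin r) : ℕ) from rfl, q5c_ev, hεi]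
      rw [show Fin.castLE hrm ⟨(p.rev : Fin (cm r k)), h2⟩ = p.rev from rfl, hdr]
    · rw [q5c_ev' r (not_lt.1 h2), inv_one, Units.val_one]
      rw [hrev] at h2
      have hk2 : k = 2 ∧ (p : ℕ) = r := by
        unfold cm at hp h2
        split_ifs at hp h2 with hk2
        · exact ⟨hk2, by omega⟩
        · omega
      have hdet := (hg.2 (by omega)).2
      rw [hg1, Matrix.det_diagonal, ← Finset.mul_prod_erase _ _ (Finset.mem_univ p)] at hdet
      have h3 : ∏ x ∈ Finset.univ.erase p, d x = 1 := by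
        refine Finset.prod_involution (fun a _ => a.rev) (fun a _ => hdd a) ?_ ?_ ?_
        · intro a ha _ hrev'
          apply (Finset.mem_erase.1 ha).1
          have h4 : ((a.rev : Fin (cm r k)) : ℕ) = a := by rw [hrev']
          rw [Fin.val_rev] at h4
          have h5 : cm r k = 2 * r + 1 := by
            unfold cm
            rw [if_pos hk2.1]
          have h6 := a.2
          apply Fin.ext
          omega
        · intro a ha
          refine Finset.mem_erase.2 ⟨?_, Finset.mem_univ _⟩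
          intro h4
          apply (Finset.mem_erase.1 ha).1
          have h4' : ((a.rev : Fin (cm r k)) : ℕ) = p := by rw [h4]
          rw [Fin.val_rev] at h4'
          have h5 : cm r k = 2 * r + 1 := by
            unfold cm
            rw [if_pos hk2.1]
          have h6 := a.2
          apply Fin.ext
          omega
        · intro a _
          exact Fin.rev_rev a
      rw [h3, mul_one] at hdet
      exact hdet

end Pool.Agent.CHV.Q5
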