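import Pool.Agent.CHV.Q6b

/-! # CHV, row Q6c: the classical groups are generated by `U`, `T` and the reflections -/

set_option autoImplicit false

namespace Pool.Agent.CHV.Q6

open Matrix

/-- a defined subgroup is compatible with ring homomorphisms -/
theorem closed_map' {m : ℕ} {R R' : Type} [CommRing R] [CommRing R'] (f : R →+* R')
    {V : ∀ (R : Type) [CommRing R], Subgroup (GL (Fin m) R)}
    (hV : ∃ I : Set (MvPolynomial (Fin m × Fin m) ℤ), ∀ (R : Type) [CommRing R]
      (g : GL (Fin m) R), g ∈ V R ↔ ∀ p ∈ I, MvPolynomial.aeval (fun y => g.1 y.1 y.2) p = 0)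
    {g : GL (Fin m) R} (hg : g ∈ V R) : Matrix.GeneralLinearGroup.map f g ∈ V R' := by
  obtain ⟨I, hI⟩ := hV
  rw [hI] at hg ⊢
  intro p hp
  have h1 := congrArg f (hg p hp)
  rw [map_zero] at h1
  rw [← h1]
  have e : (MvPolynomial.aeval (fun y : Fin m × Fin m =>
      (Matrix.GeneralLinearGroup.map f g).1 y.1 y.2) : MvPolynomial (Fin m × Fin m) ℤ →ₐ[ℤ] R') =
      (f.toIntAlgHom).comp (MvPolynomial.aeval (fun y => g.1 y.1 y.2)) := by
    apply MvPolynomial.algHom_ext
    intro y
    simp
  rw [e]
  rfl

variable (r k : ℕ)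

theorem sm_mem (hk : k ≤ 2) (hr : k = 0 → 2 ≤ r) (F : Type) [CommRing F] (i : Fin r) :
    (cMD0 r k hk hr).sm F i ∈ cG r k F :=
  closed_map' (Int.castRingHom F) (V := fun R _ => cG r k R) (Q3.G_closed r k)
    (Q3.s_mem r k hk hr i)

/-- [CHV-Q6c] Proof: claim: for all `c ≤ r` and `g ∈ cG` with `Tri g c`, `g ∈ H`. Downward induction
on `c`: `c = r` is `tri` with `h1`, `h2`. From `c + 1` to `c`: induction on the number `n` such that
`g p c = 0` for all `p` with `c + n < p`: if `n = 0`, `Tri g (c + 1)`. If not, let `p = c + n` (if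
`p ≥ m` or `g p c = 0` use `n - 1`); `step` gives `i`, `t` and the induction hypothesis applies to
`sm i * xg i t * g` (in `cG` by `Q3.xg_mem`, `Q3.s_mem` mapped to `F` with `B1.closed_map` and
`Q3.G_closed`); `xg i t` is in `H` by `h1` (`I1.xm_ut`, `Q3.xg_mem`). -/
theorem gen (hk : k ≤ 2) (hr : k = 0 → 2 ≤ r) {F : Type} [Field F] [CharZero F]
    (H : Subgroup (GL (Fin (cm r k)) F))
    (h1 : ∀ u ∈ cG r k F, (cWD r k hk hr).IsUT u.1 → u ∈ H)
    (h2 : ∀ z : Fin r → Fˣ, (cWD r k hk hr).tor F z ∈ H)
    (h3 : ∀ i : Fin r, (cMD0 r k hk hr).sm F i ∈ H) : cG r k F ≤ H := by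
  have hrm : r ≤ cm r k := by unfold cm; omega
  have hxg : ∀ (i : Fin r) (t : F), (cMD0 r k hk hr).xg F i t ∈ H := fun i t =>
    h1 _ (Q3.xg_mem r k hk hr F i t) (I1.xm_ut (cMD0 r k hk hr) i t)
  have key : ∀ n c : ℕ, c + n = r → ∀ g ∈ cG r k F, Tri g.1 c → g ∈ H := by
    intro n
    induction n with
    | zero =>
      intro c hc g hg hT
      rw [add_zero] at hc
      rw [hc] at hT
      obtain ⟨z, u, hu1, hu2, e⟩ := tri r k hk hr g hg hT
      rw [e]
      exact H.mul_mem (h2 z) (h1 u hu1 hu2)
    | succ n ih =>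
      intro c hc
      have hcr : c < r := by omega
      have hcm : c < cm r k := by omega
      have key2 : ∀ q : ℕ, ∀ g ∈ cG r k F, Tri g.1 c →
          (∀ p : Fin (cm r k), c + q < p → g.1 p ⟨c, hcm⟩ = 0) → g ∈ H := by
        intro q
        induction q with
        | zero =>
          intro g hg hT h0
          refine ih (c + 1) (by omega) g hg ?_
          intro p q' hq hqp
          rcases Nat.lt_succ_iff_lt_or_eq.1 hq with h | h
          · exact hT p q' h hqp
          · have e : q' = ⟨c, hcm⟩ := Fin.ext h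
            rw [e]
            exact h0 p (by rw [add_zero]; rw [h] at hqp; exact hqp)
        | succ q ihq =>
          intro g hg hT h0
          by_cases hP : c + (q + 1) < cm r k
          · by_cases hz : g.1 ⟨c + (q + 1), hP⟩ ⟨c, hcm⟩ = 0
            · refine ihq g hg hT fun p hp => ?_
              by_cases hpe : (p : ℕ) = c + (q + 1)
              · have e : p = ⟨c + (q + 1), hP⟩ := Fin.ext hpe
                rw [e]
                exact hz
              · exact h0 p (by omega)
            · obtain ⟨i, t, hT', hz'⟩ := step r k hk hr g hg ⟨c, hcm⟩ hcr hT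
                ⟨c + (q + 1), hP⟩ (by
                  show c < c + (q + 1)
                  omega) hz (fun p' hp' => h0 p' hp')
              have hg' : (cMD0 r k hk hr).sm F i * (cMD0 r k hk hr).xg F i t * g ∈ cG r k F :=
                (cG r k F).mul_mem ((cG r k F).mul_mem (sm_mem r k hk hr F i)
                  (Q3.xg_mem r k hk hr F i t)) hg
              have h5 := ihq _ hg' hT' (fun p hp => hz' p (by
                show c + (q + 1) ≤ (p : ℕ)
                omega))
              exact (H.mul_mem_cancel_left (H.mul_mem (h3 i) (hxg i t))).1 h5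
          · exact ihq g hg hT fun p hp => h0 p (by
              have := p.2
              omega)
      intro g hg hT
      exact key2 (cm r k) g hg hT fun p hp => absurd p.2 (by omega)
  intro g hg
  exact key r 0 (by omega) g hg (fun p q hq => absurd hq (Nat.not_lt_zero _))

end Pool.Agent.CHV.Q6
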