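import Pool.Agent.CHV.I2
import Pool.Agent.CHV.Q4
import Pool.Agent.CHV.Q5
import Pool.Agent.CHV.Q6c

/-! # CHV, Q: the classical groups are pinned groups -/

set_option autoImplicit false

namespace Pool.Agent.CHV

open Matrix

/-- The classical groups with their natural representation. -/
noncomputable def cMD (r k : ℕ) (hk : k ≤ 2) (hr : k = 0 → 2 ≤ r) : MD where
  toMD0 := cMD0 r k hk hr
  G R _ := cG r k R
  G_closed := Q3.G_closed r k
  tor_mem R _ z := Q3.tor_mem r k hk hr R z
  xg_mem R _ i c := Q3.xg_mem r k hk hr R i c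
  s_mem i := Q3.s_mem r k hk hr i
  s_sq i := Q4.s_sq r k hk hr i
  rank_one R _ i c := Q4.rank_one r k hk hr R i c
  ker := fun R _ (i : Fin r) u hu hut h p q h1 h2 =>
    Q5.ker r k hk hr R i u hu hut h p q h1 (by
      have h3 : (cWD r k hk hr).sr i (cy r k) =
          cy r k - (crt r (cal r k i) ⬝ᵥ cy r k) • cal r k i :=
        A1.sr_apply (cWD r k hk hr).toRD i (cy r k)
      rw [← h3]
      exact h2)
  diag g hg h := Q5.diag r k hk hr g hg h
  gen F _ _ _ := by
    apply Q6.gen r k hk hr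
    · intro u hu hut
      exact Subgroup.subset_closure (Or.inl (Or.inl ⟨hu, hut⟩))
    · intro z
      exact Subgroup.subset_closure (Or.inl (Or.inr ⟨z, rfl⟩))
    · intro i
      exact Subgroup.subset_closure (Or.inr ⟨i, rfl⟩)

/-- The classical groups as pinned groups. -/
noncomputable def cPG (r k : ℕ) (hk : k ≤ 2) (hr : k = 0 → 2 ≤ r) : PG := (cMD r k hk hr).toPG

/-- `Sp_2r` -/
noncomputable def spPG (r : ℕ) : PG := cPG r 1 (by norm_num) (by norm_num)

/-- `SO_{2r+1}` -/
noncomputable def oddPG (r : ℕ) : PG := cPG r 2 (by norm_num) (by norm_num)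

/-- `SO_{2r}`, `r ≥ 2` -/
noncomputable def evenPG (r : ℕ) (hr : 2 ≤ r) : PG := cPG r 0 (by norm_num) (fun _ => hr)

end Pool.Agent.CHV
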