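import Pool.Agent.CHV.N0

/-!
# CHV: classical groups: definitions

`k = 1`: `Sp_2r`, `k = 2`: `SO_{2r+1}`, `k = 0`: `SO_{2r}`.
-/

set_option autoImplicit false

namespace Pool.Agent.CHV

open Matrix

/-- The elementary matrix `(a, b)`. -/
def nE (m a b : ℕ) : Matrix (Fin m) (Fin m) ℤ := fun p q => if (p : ℕ) = a ∧ (q : ℕ) = b then 1 else 0

/-- The row of the simple root vector. -/
def ca (r k i : ℕ) : ℕ := if i + 1 < r then i else if k = 0 then r - 2 else if k = 1 then r - 1 else r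

/-- The column of the simple root vector. -/
def cb (r k i : ℕ) : ℕ := if i + 1 < r then i + 1 else if k = 0 ∨ k = 1 then r else r + 1

/-- The simple root vectors in the natural representation. -/
def cE (r k i : ℕ) : Matrix (Fin (cm r k)) (Fin (cm r k)) ℤ :=
  if i + 1 < r ∨ k = 0 then
    nE (cm r k) (ca r k i) (cb r k i) - nE (cm r k) (cm r k - 1 - cb r k i) (cm r k - 1 - ca r k i)
  else if k = 1 then nE (cm r k) (r - 1) r
  else nE (cm r k) r (r + 1) - 2 • nE (cm r k) (r - 1) r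

/-- The divided squares of the simple root vectors. -/
def cE2 (r k i : ℕ) : Matrix (Fin (cm r k)) (Fin (cm r k)) ℤ :=
  if i + 1 < r ∨ k ≠ 2 then 0 else -nE (cm r k) (r - 1) (r + 1)

/-- Representatives of the simple reflections. -/
def cs (r k i : ℕ) : Matrix (Fin (cm r k)) (Fin (cm r k)) ℤ :=
  if i + 1 < r ∨ k ≠ 2 then
    1 - cE r k i * (cE r k i)ᵀ - (cE r k i)ᵀ * cE r k i - cE r k i + (cE r k i)ᵀ
  else 1 - nE (cm r k) (r - 1) (r - 1) - nE (cm r k) (r + 1) (r + 1) - 2 • nE (cm r k) r r -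
    nE (cm r k) (r + 1) (r - 1) - nE (cm r k) (r - 1) (r + 1)

/-- Their inverses. -/
def cs' (r k i : ℕ) : Matrix (Fin (cm r k)) (Fin (cm r k)) ℤ :=
  if i + 1 < r ∨ k ≠ 2 then
    1 - cE r k i * (cE r k i)ᵀ - (cE r k i)ᵀ * cE r k i + cE r k i - (cE r k i)ᵀ
  else cs r k i

/-- The coefficients of the bilinear form. -/
def csig (r k : ℕ) (p : Fin (cm r k)) : ℤ :=
  if k = 1 ∧ r ≤ (p : ℕ) then -1 else if k = 2 ∧ (p : ℕ) = r then 2 else 1

/-- The bilinear form `∑ ± x_p y_{m-1-p}` (alternating for `k = 1`, symmetric for `k = 0, 2`). -/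
def cB (r k : ℕ) {R : Type} [CommRing R] (x y : Fin (cm r k) → R) : R :=
  ∑ p : Fin (cm r k), (csig r k p : R) * x p * y p.rev

/-- The quadratic form `∑_{p < r} x_p x_{m-1-p}` (`+ x_r ^ 2` for `k = 2`). -/
def cq (r k : ℕ) {R : Type} [CommRing R] (x : Fin (cm r k) → R) : R :=
  ∑ p : Fin (cm r k), if (p : ℕ) < r ∨ (k = 2 ∧ (p : ℕ) = r) then x p * x p.rev else 0

/-- The classical group: `Sp_2r` for `k = 1`, `SO_{2r+1}` for `k = 2`, `SO_{2r}` for `k = 0`. -/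
def cG (r k : ℕ) (R : Type) [CommRing R] : Subgroup (GL (Fin (cm r k)) R) where
  carrier := {g | (∀ x y, cB r k (g.1 *ᵥ x) (g.1 *ᵥ y) = cB r k x y) ∧
    (k ≠ 1 → (∀ x, cq r k (g.1 *ᵥ x) = cq r k x) ∧ g.1.det = 1)}
  one_mem' := by simp
  mul_mem' := by
    rintro g g' ⟨h1, h2⟩ ⟨h1', h2'⟩
    refine ⟨fun x y => ?_, fun hk => ⟨fun x => ?_, ?_⟩⟩
    · rw [Units.val_mul, ← Matrix.mulVec_mulVec, ← Matrix.mulVec_mulVec, h1, h1']
    · rw [Units.val_mul, ← Matrix.mulVec_mulVec, (h2 hk).1, (h2' hk).1]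
    · rw [Units.val_mul, Matrix.det_mul, (h2 hk).2, (h2' hk).2, one_mul]
  inv_mem' := by
    rintro g ⟨h1, h2⟩
    have e : ∀ x, g.1 *ᵥ ((g⁻¹ : GL _ R).1 *ᵥ x) = x := by
      intro x
      rw [Matrix.mulVec_mulVec, ← Units.val_mul, mul_inv_cancel, Units.val_one, Matrix.one_mulVec]
    refine ⟨fun x y => ?_, fun hk => ⟨fun x => ?_, ?_⟩⟩
    · rw [← h1, e, e]
    · rw [← (h2 hk).1, e]
    · have h3 : (g * g⁻¹).1.det = 1 := by rw [mul_inv_cancel, Units.val_one, Matrix.det_one]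
      rw [Units.val_mul, Matrix.det_mul, (h2 hk).2, one_mul] at h3
      exact h3

end Pool.Agent.CHV
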