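import Pool.Agent.CHV.Q0

/-! # CHV, row Q1: rank one computations in rings -/

set_option autoImplicit false
set_option linter.unusedSimpArgs false

namespace Pool.Agent.CHV.Q1

open Matrix

section

variable {A : Type} [Ring A] {E F : A}

/-- [CHV-Q1] Proof: expand, with `E * E = 0`, `F * F = 0`, `E * F * E = E`, `F * E * F = F`. -/
theorem sl2_inv (hE : E * E = 0) (hF : F * F = 0) (h1 : E * F * E = E) (h2 : F * E * F = F) :
    (1 - E * F - F * E - E + F) * (1 - E * F - F * E + E - F) = 1 := by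
  have a1 : ∀ x : A, E * (E * x) = 0 := fun x => by rw [← mul_assoc, hE, zero_mul]
  have a2 : ∀ x : A, F * (F * x) = 0 := fun x => by rw [← mul_assoc, hF, zero_mul]
  have a3 : E * (F * E) = E := by rw [← mul_assoc, h1]
  have a4 : F * (E * F) = F := by rw [← mul_assoc, h2]
  have a5 : ∀ x : A, E * (F * (E * x)) = E * x := fun x => by rw [← mul_assoc, ← mul_assoc, h1]
  have a6 : ∀ x : A, F * (E * (F * x)) = F * x := fun x => by rw [← mul_assoc, ← mul_assoc, h2]
  simp only [mul_add, add_mul, mul_sub, sub_mul, mul_assoc, one_mul, mul_one, hE, hF, a1, a2, a3,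
    a4, a5, a6, mul_zero, sub_zero, add_zero, zero_sub, zero_add, two_mul]
  abel

/-- [CHV-Q1] -/
theorem sl2_inv' (hE : E * E = 0) (hF : F * F = 0) (h1 : E * F * E = E) (h2 : F * E * F = F) :
    (1 - E * F - F * E + E - F) * (1 - E * F - F * E - E + F) = 1 := by
  have a1 : ∀ x : A, E * (E * x) = 0 := fun x => by rw [← mul_assoc, hE, zero_mul]
  have a2 : ∀ x : A, F * (F * x) = 0 := fun x => by rw [← mul_assoc, hF, zero_mul]
  have a3 : E * (F * E) = E := by rw [← mul_assoc, h1]
  have a4 : F * (E * F) = F := by rw [← mul_assoc, h2]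
  have a5 : ∀ x : A, E * (F * (E * x)) = E * x := fun x => by rw [← mul_assoc, ← mul_assoc, h1]
  have a6 : ∀ x : A, F * (E * (F * x)) = F * x := fun x => by rw [← mul_assoc, ← mul_assoc, h2]
  simp only [mul_add, add_mul, mul_sub, sub_mul, mul_assoc, one_mul, mul_one, hE, hF, a1, a2, a3,
    a4, a5, a6, mul_zero, sub_zero, add_zero, zero_sub, zero_add, two_mul]
  abel

/-- [CHV-Q1] -/
theorem sl2_sq (hE : E * E = 0) (hF : F * F = 0) (h1 : E * F * E = E) (h2 : F * E * F = F) :
    (1 - E * F - F * E - E + F) * (1 - E * F - F * E - E + F) = 1 - 2 * (E * F) - 2 * (F * E) := by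
  have a1 : ∀ x : A, E * (E * x) = 0 := fun x => by rw [← mul_assoc, hE, zero_mul]
  have a2 : ∀ x : A, F * (F * x) = 0 := fun x => by rw [← mul_assoc, hF, zero_mul]
  have a3 : E * (F * E) = E := by rw [← mul_assoc, h1]
  have a4 : F * (E * F) = F := by rw [← mul_assoc, h2]
  have a5 : ∀ x : A, E * (F * (E * x)) = E * x := fun x => by rw [← mul_assoc, ← mul_assoc, h1]
  have a6 : ∀ x : A, F * (E * (F * x)) = F * x := fun x => by rw [← mul_assoc, ← mul_assoc, h2]
  simp only [mul_add, add_mul, mul_sub, sub_mul, mul_assoc, one_mul, mul_one, hE, hF, a1, a2, a3,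
    a4, a5, a6, mul_zero, sub_zero, add_zero, zero_sub, zero_add, two_mul]
  abel

/-- [CHV-Q1] `s = x(-1) y(1) x(-1)`. -/
theorem sl2_prod (hE : E * E = 0) (hF : F * F = 0) (h1 : E * F * E = E) (h2 : F * E * F = F) :
    (1 - E) * (1 + F) * (1 - E) = 1 - E * F - F * E - E + F := by
  have a1 : ∀ x : A, E * (E * x) = 0 := fun x => by rw [← mul_assoc, hE, zero_mul]
  have a2 : ∀ x : A, F * (F * x) = 0 := fun x => by rw [← mul_assoc, hF, zero_mul]
  have a3 : E * (F * E) = E := by rw [← mul_assoc, h1]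
  have a4 : F * (E * F) = F := by rw [← mul_assoc, h2]
  have a5 : ∀ x : A, E * (F * (E * x)) = E * x := fun x => by rw [← mul_assoc, ← mul_assoc, h1]
  have a6 : ∀ x : A, F * (E * (F * x)) = F * x := fun x => by rw [← mul_assoc, ← mul_assoc, h2]
  simp only [mul_add, add_mul, mul_sub, sub_mul, mul_assoc, one_mul, mul_one, hE, hF, a1, a2, a3,
    a4, a5, a6, mul_zero, sub_zero, add_zero, zero_sub, zero_add, two_mul]
  abel

/-- [CHV-Q1] The rank one relation (checked for `E = e₁₂`, `F = e₂₁`). Proof: expand. -/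
theorem sl2_rank {R : Type} [CommRing R] [Algebra R A] (hE : E * E = 0) (hF : F * F = 0)
    (h1 : E * F * E = E) (h2 : F * E * F = F) (c d : R) (hcd : c * d = 1) :
    (1 + c • E) * (1 - E * F - F * E - E + F) =
      (1 - E * F - F * E - E + F) * (1 + (-d) • E) * (1 - E * F - F * E - E + F) *
        (1 + (-c - 1) • (E * F) + (-d - 1) • (F * E)) * (1 + (-d) • E) := by
  have a1 : ∀ x : A, E * (E * x) = 0 := fun x => by rw [← mul_assoc, hE, zero_mul]
  have a2 : ∀ x : A, F * (F * x) = 0 := fun x => by rw [← mul_assoc, hF, zero_mul]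
  have a3 : E * (F * E) = E := by rw [← mul_assoc, h1]
  have a4 : F * (E * F) = F := by rw [← mul_assoc, h2]
  have a5 : ∀ x : A, E * (F * (E * x)) = E * x := fun x => by rw [← mul_assoc, ← mul_assoc, h1]
  have a6 : ∀ x : A, F * (E * (F * x)) = F * x := fun x => by rw [← mul_assoc, ← mul_assoc, h2]
  have hcd' : ∀ x : A, c • d • x = x := fun x => by rw [smul_smul, hcd, one_smul]
  simp only [mul_add, add_mul, mul_sub, sub_mul, mul_assoc, one_mul, mul_one, hE, hF, a1, a2, a3,
    a4, a5, a6, mul_zero, sub_zero, add_zero, zero_sub, zero_add, smul_mul_assoc, mul_smul_comm,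
    smul_zero]
  match_scalars <;> first
    | ring1
    | linear_combination hcd
    | linear_combination -hcd
    | linear_combination d * hcd
    | linear_combination -d * hcd
    | linear_combination c * hcd
    | linear_combination -c * hcd

end

section

variable {A : Type} [Ring A] (e : Fin 3 → Fin 3 → A)

/-- The image of a `3 × 3` matrix in an algebra with a (nonunital) system of matrix units. -/
def q1_psi {R : Type} [CommRing R] [Algebra R A] (M : Matrix (Fin 3) (Fin 3) R) : A :=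
  1 + ∑ i, ∑ j, (M - 1) i j • e i j

theorem q1_sum_mul {R : Type} [CommRing R] [Algebra R A]
    (he : ∀ i j k l, e i j * e k l = if j = k then e i l else 0)
    (a b : Matrix (Fin 3) (Fin 3) R) :
    (∑ i, ∑ j, a i j • e i j) * (∑ i, ∑ j, b i j • e i j) = ∑ i, ∑ j, (a * b) i j • e i j := by
  rw [Finset.sum_mul]
  refine Finset.sum_congr rfl fun i _ => ?_
  have h1 : ∀ j, a i j • e i j * (∑ k, ∑ l, b k l • e k l) = ∑ l, (a i j * b j l) • e i l := by
    intro j
    rw [Finset.mul_sum, Finset.sum_eq_single j]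
    · rw [Finset.mul_sum]
      refine Finset.sum_congr rfl fun l _ => ?_
      rw [smul_mul_smul_comm, he, if_pos rfl]
    · intro k _ hk
      rw [Finset.mul_sum]
      refine Finset.sum_eq_zero fun l _ => ?_
      rw [smul_mul_smul_comm, he, if_neg (Ne.symm hk), smul_zero]
    · intro h
      exact absurd (Finset.mem_univ j) h
  rw [Finset.sum_mul, Finset.sum_congr rfl fun j _ => h1 j, Finset.sum_comm]
  refine Finset.sum_congr rfl fun l _ => ?_
  rw [Matrix.mul_apply, Finset.sum_smul]

theorem q1_psi_mul {R : Type} [CommRing R] [Algebra R A]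
    (he : ∀ i j k l, e i j * e k l = if j = k then e i l else 0)
    (M N : Matrix (Fin 3) (Fin 3) R) : q1_psi e M * q1_psi e N = q1_psi e (M * N) := by
  unfold q1_psi
  have h1 : M * N - 1 = (M - 1) + (N - 1) + (M - 1) * (N - 1) := by noncomm_ring
  have h2 : ∑ i, ∑ j, (M * N - 1) i j • e i j = (∑ i, ∑ j, (M - 1) i j • e i j) +
      (∑ i, ∑ j, (N - 1) i j • e i j) + ∑ i, ∑ j, ((M - 1) * (N - 1)) i j • e i j := by
    rw [h1]
    simp only [Matrix.add_apply, add_smul, Finset.sum_add_distrib]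
  rw [h2, ← q1_sum_mul e he]
  simp only [mul_add, add_mul, one_mul, mul_one]
  abel

theorem q1_psi_one {R : Type} [CommRing R] [Algebra R A] :
    q1_psi e (1 : Matrix (Fin 3) (Fin 3) R) = 1 := by
  simp [q1_psi]

/-- [CHV-Q1] The case of `SO_3`, on the space with the basis `0, 1, 2`. Proof: expand everything with
the rule `he`. -/
theorem so3_sq (he : ∀ i j k l, e i j * e k l = if j = k then e i l else 0) :
    (1 - e 0 0 - e 2 2 - 2 • e 1 1 - e 2 0 - e 0 2) *
      (1 - e 0 0 - e 2 2 - 2 • e 1 1 - e 2 0 - e 0 2) = 1 := by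
  have h1 : 1 - e 0 0 - e 2 2 - 2 • e 1 1 - e 2 0 - e 0 2 =
      q1_psi e (!![0, 0, -1; 0, -1, 0; -1, 0, 0] : Matrix (Fin 3) (Fin 3) ℤ) := by
    simp only [q1_psi, Fin.sum_univ_three, Matrix.sub_apply]
    simp [Matrix.one_apply]
    abel
  rw [h1, q1_psi_mul e he, ← q1_psi_one (R := ℤ) e]
  congr 1
  ext i j
  fin_cases i <;> fin_cases j <;> simp [Matrix.mul_apply, Fin.sum_univ_three]

/-- [CHV-Q1] The case of `SO_3`. -/
theorem so3_rank {R : Type} [CommRing R] [Algebra R A]
    (he : ∀ i j k l, e i j * e k l = if j = k then e i l else 0) (c d : R) (hcd : c * d = 1) :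
    (1 + c • (e 1 2 - 2 • e 0 1) + c ^ 2 • (-e 0 2)) *
      (1 - e 0 0 - e 2 2 - 2 • e 1 1 - e 2 0 - e 0 2) =
    (1 - e 0 0 - e 2 2 - 2 • e 1 1 - e 2 0 - e 0 2) *
      (1 + (-d) • (e 1 2 - 2 • e 0 1) + (-d) ^ 2 • (-e 0 2)) *
      (1 - e 0 0 - e 2 2 - 2 • e 1 1 - e 2 0 - e 0 2) *
      (1 + (c ^ 2 - 1) • e 0 0 + (d ^ 2 - 1) • e 2 2) *
      (1 + (-d) • (e 1 2 - 2 • e 0 1) + (-d) ^ 2 • (-e 0 2)) := by
  have h1 : 1 - e 0 0 - e 2 2 - 2 • e 1 1 - e 2 0 - e 0 2 =
      q1_psi e (!![0, 0, -1; 0, -1, 0; -1, 0, 0] : Matrix (Fin 3) (Fin 3) R) := by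
    rw [two_nsmul]
    simp only [q1_psi, Fin.sum_univ_three, Matrix.sub_apply]
    simp
    module
  have h2 : ∀ t : R, 1 + t • (e 1 2 - 2 • e 0 1) + t ^ 2 • (-e 0 2) =
      q1_psi e (!![1, -2 * t, -t ^ 2; 0, 1, t; 0, 0, 1] : Matrix (Fin 3) (Fin 3) R) := by
    intro t
    rw [two_nsmul]
    simp only [q1_psi, Fin.sum_univ_three, Matrix.sub_apply]
    simp
    module
  have h3 : 1 + (c ^ 2 - 1) • e 0 0 + (d ^ 2 - 1) • e 2 2 =
      q1_psi e (!![c ^ 2, 0, 0; 0, 1, 0; 0, 0, d ^ 2] : Matrix (Fin 3) (Fin 3) R) := by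
    simp only [q1_psi, Fin.sum_univ_three, Matrix.sub_apply]
    simp [Matrix.one_apply]
    module
  rw [h1, h2, h2, h3]
  simp only [q1_psi_mul e he]
  congr 1
  have hd1 : d * c = 1 := by rw [mul_comm, hcd]
  ext i j
  fin_cases i <;> fin_cases j <;> simp [Matrix.mul_apply, Fin.sum_univ_three] <;> first
    | ring1
    | linear_combination hcd
    | linear_combination -hcd
    | linear_combination (c * d + 1) * hcd
    | linear_combination -(c * d + 1) * hcd
    | linear_combination 2 * hcd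
    | linear_combination -2 * hcd
    | linear_combination c * hcd
    | linear_combination -c * hcd
    | linear_combination d * hcd
    | linear_combination -d * hcd
    | linear_combination 2 * c * hcd
    | linear_combination -2 * c * hcd
    | linear_combination 2 * d * hcd
    | linear_combination -2 * d * hcd
    | linear_combination 2 * (c * d + 1) * hcd
    | linear_combination -d * (c * d + 1) * hcd
    | linear_combination 2 * d * (c * d + 1) * hcd
    | linear_combination -d ^ 2 * (c * d + 1) * hcd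

end

end Pool.Agent.CHV.Q1
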