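import Pool.Agent.CHV.N3
import Pool.Agent.CHV.Q1

/-! # CHV, row Q2: the simple root vectors of the classical groups -/

set_option autoImplicit false

namespace Pool.Agent.CHV.Q2

open Matrix

/-- [CHV-Q2a] Products of elementary matrices. -/
theorem nE_mul (m a b c d : ℕ) : nE m a b * nE m c d = if b = c ∧ b < m then nE m a d else 0 := by
  ext p q
  rw [Matrix.mul_apply]
  by_cases h : b = c ∧ b < m
  · rw [if_pos h]
    obtain ⟨h1, h2⟩ := h
    subst h1
    rw [Finset.sum_eq_single (⟨b, h2⟩ : Fin m)]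
    · simp only [nE, and_true, true_and]
      by_cases hp : (p : ℕ) = a <;> by_cases hq : (q : ℕ) = d <;> simp [hp, hq]
    · intro j _ hj
      have hj' : (j : ℕ) ≠ b := fun hh => hj (Fin.ext hh)
      simp [nE, hj']
    · intro hh
      exact absurd (Finset.mem_univ _) hh
  · rw [if_neg h]
    refine Finset.sum_eq_zero fun j _ => ?_
    simp only [nE]
    by_cases h1 : (j : ℕ) = b
    · by_cases h2 : (j : ℕ) = c
      · exact absurd ⟨h1.symm.trans h2, h1 ▸ j.2⟩ h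
      · simp [h2]
    · simp [h1]

/-- [CHV-Q2a] -/
theorem nE_transpose (m a b : ℕ) : (nE m a b)ᵀ = nE m b a := by
  ext p q
  simp only [nE, Matrix.transpose_apply]
  by_cases hp : (p : ℕ) = b <;> by_cases hq : (q : ℕ) = a <;> simp [hp, hq]

theorem nE_ne {m a b c d : ℕ} (h : b ≠ c) : nE m a b * nE m c d = 0 := by
  rw [nE_mul, if_neg (fun hh => h hh.1)]

theorem nE_eq {m a b c d : ℕ} (h : b = c) (hb : b < m) : nE m a b * nE m c d = nE m a d := by
  rw [nE_mul, if_pos ⟨h, hb⟩]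

private theorem caseA_facts (r k : ℕ) (hr : k = 0 → 2 ≤ r) (i : Fin r) (hk : k ≤ 2)
    (h : (i : ℕ) + 1 < r ∨ k = 0) :
    ca r k i < cb r k i ∧ cb r k i < cm r k ∧ 2 * ca r k i + 1 ≠ cm r k ∧
      2 * cb r k i + 1 ≠ cm r k ∧ ca r k i + cb r k i + 1 ≠ cm r k := by
  have hi := i.2
  unfold ca cb cm
  by_cases h1 : (i : ℕ) + 1 < r
  · simp only [if_pos h1]
    split_ifs <;> omega
  · have hk0 : k = 0 := by
      rcases h with h | h
      · exact absurd h h1
      · exact h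
    have := hr hk0
    subst hk0
    simp only [if_neg h1]
    norm_num
    omega

private theorem cE_A (r k : ℕ) (i : Fin r) (h : (i : ℕ) + 1 < r ∨ k = 0) :
    cE r k i = nE (cm r k) (ca r k i) (cb r k i) -
      nE (cm r k) (cm r k - 1 - cb r k i) (cm r k - 1 - ca r k i) := if_pos h

private theorem cE_B (r k : ℕ) (i : Fin r) (h : ¬ ((i : ℕ) + 1 < r ∨ k = 0)) (h1 : k = 1) :
    cE r k i = nE (cm r k) (r - 1) r := by
  unfold cE
  rw [if_neg h, if_pos h1]

private theorem cE_C (r k : ℕ) (i : Fin r) (h : ¬ ((i : ℕ) + 1 < r ∨ k = 0)) (h1 : k ≠ 1) :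
    cE r k i = nE (cm r k) r (r + 1) - 2 • nE (cm r k) (r - 1) r := by
  unfold cE
  rw [if_neg h, if_neg h1]

variable (r k : ℕ)

/-- [CHV-Q2a] Proof: `nE_mul`. In the case `i + 1 < r ∨ k = 0`, the four numbers `a = ca`, `b = cb`,
`m - 1 - a`, `m - 1 - b` are different and less than `m`. -/
theorem cE_sq (hk : k ≤ 2) (hr : k = 0 → 2 ≤ r) (i : Fin r) :
    cE r k i * cE r k i = 2 • cE2 r k i := by
  have hi := i.2
  by_cases h : (i : ℕ) + 1 < r ∨ k = 0
  · obtain ⟨f1, f2, f3, f4, f5⟩ := caseA_facts r k hr i hk h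
    have h2 : (i : ℕ) + 1 < r ∨ k ≠ 2 := by omega
    rw [cE_A r k i h, cE2, if_pos h2, smul_zero, sub_mul, mul_sub, mul_sub,
      nE_ne (by omega), nE_ne (by omega), nE_ne (by omega), nE_ne (by omega)]
    simp
  · by_cases h1 : k = 1
    · have h2 : (i : ℕ) + 1 < r ∨ k ≠ 2 := by omega
      rw [cE_B r k i h h1, cE2, if_pos h2, smul_zero, nE_ne (by omega)]
    · have h2 : ¬ ((i : ℕ) + 1 < r ∨ k ≠ 2) := by omega
      have hm : r < cm r k := by unfold cm; omega
      rw [cE_C r k i h h1, cE2, if_neg h2, sub_mul, mul_sub, mul_sub, smul_mul_assoc, smul_mul_assoc,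
        mul_smul_comm, mul_smul_comm, nE_ne (by omega), nE_ne (by omega), nE_eq rfl hm,
        nE_ne (by omega)]
      simp

/-- [CHV-Q2a] -/
theorem cE_cE2 (hk : k ≤ 2) (i : Fin r) : cE r k i * cE2 r k i = 0 := by
  have hi := i.2
  by_cases h2 : (i : ℕ) + 1 < r ∨ k ≠ 2
  · rw [cE2, if_pos h2, mul_zero]
  · have h : ¬ ((i : ℕ) + 1 < r ∨ k = 0) := by omega
    rw [cE_C r k i h (by omega), cE2, if_neg h2, mul_neg, sub_mul, smul_mul_assoc,
      nE_ne (by omega), nE_ne (by omega)]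
    simp

/-- [CHV-Q2a] -/
theorem cE2_cE (hk : k ≤ 2) (i : Fin r) : cE2 r k i * cE r k i = 0 := by
  have hi := i.2
  by_cases h2 : (i : ℕ) + 1 < r ∨ k ≠ 2
  · rw [cE2, if_pos h2, zero_mul]
  · have h : ¬ ((i : ℕ) + 1 < r ∨ k = 0) := by omega
    rw [cE_C r k i h (by omega), cE2, if_neg h2, neg_mul, mul_sub, mul_smul_comm,
      nE_ne (by omega), nE_ne (by omega)]
    simp

/-- [CHV-Q2a] -/
theorem cE2_sq (hk : k ≤ 2) (i : Fin r) : cE2 r k i * cE2 r k i = 0 := by
  have hi := i.2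
  by_cases h2 : (i : ℕ) + 1 < r ∨ k ≠ 2
  · rw [cE2, if_pos h2, zero_mul]
  · rw [cE2, if_neg h2, neg_mul, mul_neg, nE_ne (by omega)]
    simp

/-- [CHV-Q2a] Proof: `nE_mul`. -/
theorem cE_sl2 (hk : k ≤ 2) (hr : k = 0 → 2 ≤ r) (i : Fin r) (h : (i : ℕ) + 1 < r ∨ k ≠ 2) :
    cE r k i * cE r k i = 0 ∧ (cE r k i)ᵀ * (cE r k i)ᵀ = 0 ∧
      cE r k i * (cE r k i)ᵀ * cE r k i = cE r k i ∧
      (cE r k i)ᵀ * cE r k i * (cE r k i)ᵀ = (cE r k i)ᵀ := by
  have hi := i.2
  have key : cE r k i * cE r k i = 0 ∧ cE r k i * (cE r k i)ᵀ * cE r k i = cE r k i := by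
    refine ⟨?_, ?_⟩
    · rw [cE_sq r k hk hr i, cE2, if_pos h, smul_zero]
    · by_cases h0 : (i : ℕ) + 1 < r ∨ k = 0
      · obtain ⟨f1, f2, f3, f4, f5⟩ := caseA_facts r k hr i hk h0
        rw [cE_A r k i h0]
        generalize ca r k i = a at *
        generalize cb r k i = b at *
        generalize cm r k = m at *
        rw [Matrix.transpose_sub, nE_transpose, nE_transpose]
        have e1 : (nE m a b - nE m (m - 1 - b) (m - 1 - a)) *
            (nE m b a - nE m (m - 1 - a) (m - 1 - b)) = nE m a a + nE m (m - 1 - b) (m - 1 - b) := by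
          rw [sub_mul, mul_sub, mul_sub, nE_eq rfl (by omega), nE_ne (by omega), nE_ne (by omega),
            nE_eq rfl (by omega)]
          simp
        rw [e1, add_mul, mul_sub, mul_sub, nE_eq rfl (by omega), nE_ne (by omega), nE_ne (by omega),
          nE_eq rfl (by omega)]
        simp [sub_eq_add_neg]
      · have h1 : k = 1 := by omega
        have hm : r < cm r k := by unfold cm; omega
        rw [cE_B r k i h0 h1, nE_transpose, nE_eq rfl hm, nE_eq rfl (by omega)]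
  obtain ⟨k1, k2⟩ := key
  refine ⟨k1, ?_, k2, ?_⟩
  · rw [← Matrix.transpose_mul, k1, Matrix.transpose_zero]
  · have := congrArg Matrix.transpose k2
    rw [Matrix.transpose_mul, Matrix.transpose_mul, Matrix.transpose_transpose, ← mul_assoc] at this
    exact this

private theorem cs_B_facts (r k : ℕ) (hk : k ≤ 2) (i : Fin r) (h : ¬ ((i : ℕ) + 1 < r ∨ k ≠ 2)) :
    cs r k i * cs r k i = 1 := by
  have hi := i.2
  have hk2 : k = 2 := by omega
  have hm : r + 1 < cm r k := by unfold cm; rw [if_pos hk2]; omega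
  have he := Q1.so3_sq (fun i j : Fin 3 => nE (cm r k) (r - 1 + i) (r - 1 + j)) (by
    intro i j k' l
    have hj := j.2
    have hk' := k'.2
    by_cases hjk : j = k'
    · subst hjk
      rw [if_pos rfl, nE_eq rfl (by omega)]
    · rw [if_neg hjk]
      refine nE_ne ?_
      intro hh
      exact hjk (Fin.ext (by omega)))
  have e0 : r - 1 + ((0 : Fin 3) : ℕ) = r - 1 := by simp
  have e1 : r - 1 + ((1 : Fin 3) : ℕ) = r := by
    show r - 1 + 1 = r
    omega
  have e2 : r - 1 + ((2 : Fin 3) : ℕ) = r + 1 := by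
    show r - 1 + 2 = r + 1
    omega
  simp only [e0, e1, e2] at he
  rw [cs, if_neg h]
  exact he

/-- [CHV-Q2a] Proof: `Q1.sl2_inv`, `Q1.so3_sq` (with `e i j = nE m (r - 1 + i) (r - 1 + j)`). -/
theorem cs_mul (hk : k ≤ 2) (hr : k = 0 → 2 ≤ r) (i : Fin r) : cs r k i * cs' r k i = 1 := by
  by_cases h : (i : ℕ) + 1 < r ∨ k ≠ 2
  · obtain ⟨h1, h2, h3, h4⟩ := cE_sl2 r k hk hr i h
    rw [cs, cs', if_pos h, if_pos h]
    exact Q1.sl2_inv h1 h2 h3 h4
  · rw [cs', if_neg h]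
    exact cs_B_facts r k hk i h

/-- [CHV-Q2a] -/
theorem cs'_mul (hk : k ≤ 2) (hr : k = 0 → 2 ≤ r) (i : Fin r) : cs' r k i * cs r k i = 1 := by
  by_cases h : (i : ℕ) + 1 < r ∨ k ≠ 2
  · obtain ⟨h1, h2, h3, h4⟩ := cE_sl2 r k hk hr i h
    rw [cs, cs', if_pos h, if_pos h]
    exact Q1.sl2_inv' h1 h2 h3 h4
  · rw [cs', if_neg h]
    exact cs_B_facts r k hk i h

end Pool.Agent.CHV.Q2
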