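import Pool.Agent.CHV.Q2

/-! # CHV, row Q2b: weights of the simple root vectors of the classical groups -/

set_option autoImplicit false

namespace Pool.Agent.CHV.Q2

open Matrix

/-! auxiliary lemmas -/

theorem q2b_ev_ge {r a : ℕ} (h : r ≤ a) : ev r a = 0 := by
  funext j
  have hj := j.2
  simp only [ev, Pi.zero_apply]
  rw [if_neg (by omega)]

theorem q2b_ev_dot {r a : ℕ} (h : a < r) (z : Fin r → ℤ) : ev r a ⬝ᵥ z = z ⟨a, h⟩ := by
  simp only [dotProduct, ev, ite_mul, one_mul, zero_mul]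
  rw [Finset.sum_eq_single (⟨a, h⟩ : Fin r)]
  · simp
  · intro j _ hj
    rw [if_neg (fun hh => hj (Fin.ext hh))]
  · intro hh
    exact absurd (Finset.mem_univ _) hh

theorem q2b_ev_ev {r a b : ℕ} : ev r a ⬝ᵥ ev r b = if a = b ∧ a < r then 1 else 0 := by
  by_cases ha : a < r
  · rw [q2b_ev_dot ha]
    simp only [ev]
    by_cases hab : a = b
    · subst hab
      simp [ha]
    · simp [hab]
  · rw [q2b_ev_ge (by omega), zero_dotProduct, if_neg (by omega)]

theorem q2b_cchi {r k : ℕ} (p : Fin (cm r k)) :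
    cchi r k p = ev r p - ev r (cm r k - 1 - p) := by
  unfold cchi
  rw [Fin.val_rev]
  congr 2
  omega

theorem q2b_cchi_dot {r k : ℕ} (p : Fin (cm r k)) (z : Fin r → ℤ) :
    cchi r k p ⬝ᵥ z = ev r p ⬝ᵥ z - ev r (cm r k - 1 - p) ⬝ᵥ z := by
  rw [q2b_cchi, sub_dotProduct]

theorem q2b_norm_sub {r a b : ℕ} (ha : a < r) (hb : b < r) (hab : a ≠ b) :
    (ev r a - ev r b) ⬝ᵥ (ev r a - ev r b) = 2 := by
  rw [sub_dotProduct, dotProduct_sub, dotProduct_sub, q2b_ev_ev, q2b_ev_ev, q2b_ev_ev, q2b_ev_ev]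
  split_ifs <;> omega

theorem q2b_norm_add {r a b : ℕ} (ha : a < r) (hb : b < r) (hab : a ≠ b) :
    (ev r a + ev r b) ⬝ᵥ (ev r a + ev r b) = 2 := by
  rw [add_dotProduct, dotProduct_add, dotProduct_add, q2b_ev_ev, q2b_ev_ev, q2b_ev_ev, q2b_ev_ev]
  split_ifs <;> omega

theorem q2b_crt_two {r : ℕ} {v : Fin r → ℤ} (h : v ⬝ᵥ v = 2) : crt r v = v := by
  funext l
  simp only [crt, h]
  omega

/-- the simple roots and coroots, first case -/
theorem q2b_A1 {r k : ℕ} {i : Fin r} (h : (i : ℕ) + 1 < r) :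
    cal r k i = ev r i - ev r (i + 1) ∧ crt r (cal r k i) = ev r i - ev r (i + 1) := by
  have h1 : cal r k i = ev r i - ev r (i + 1) := if_pos h
  rw [h1]
  exact ⟨rfl, q2b_crt_two (q2b_norm_sub i.2 h (by omega))⟩

theorem q2b_A2 {r k : ℕ} {i : Fin r} (h : ¬ (i : ℕ) + 1 < r) (hk : k = 0) (hr : 2 ≤ r) :
    cal r k i = ev r (r - 2) + ev r (r - 1) ∧ crt r (cal r k i) = ev r (r - 2) + ev r (r - 1) := by
  have h1 : cal r k i = ev r (r - 2) + ev r (r - 1) := by
    unfold cal
    rw [if_neg h, if_pos hk]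
  rw [h1]
  exact ⟨rfl, q2b_crt_two (q2b_norm_add (by omega) (by omega) (by omega))⟩

theorem q2b_B {r k : ℕ} {i : Fin r} (h : ¬ (i : ℕ) + 1 < r) (hk : k = 1) :
    cal r k i = ev r (r - 1) ∧ crt r (cal r k i) = (2 : ℤ) • ev r (r - 1) := by
  have hi := i.2
  have h1 : cal r k i = ev r (r - 1) := by
    unfold cal
    rw [if_neg h, if_neg (by omega), hk]
    simp
  rw [h1]
  refine ⟨rfl, ?_⟩
  have h2 : ev r (r - 1) ⬝ᵥ ev r (r - 1) = 1 := by
    rw [q2b_ev_ev, if_pos (by omega)]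
  funext l
  simp only [crt, h2, Pi.smul_apply, smul_eq_mul]
  omega

theorem q2b_C {r k : ℕ} {i : Fin r} (h : ¬ (i : ℕ) + 1 < r) (hk : k = 2) :
    cal r k i = (2 : ℤ) • ev r (r - 1) ∧ crt r (cal r k i) = ev r (r - 1) := by
  have hi := i.2
  have h1 : cal r k i = (2 : ℤ) • ev r (r - 1) := by
    unfold cal
    rw [if_neg h, if_neg (by omega), hk]
    simp
  rw [h1]
  refine ⟨rfl, ?_⟩
  have h2 : ((2 : ℤ) • ev r (r - 1)) ⬝ᵥ ((2 : ℤ) • ev r (r - 1)) = 4 := by
    rw [smul_dotProduct, dotProduct_smul, q2b_ev_ev, if_pos (by omega)]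
    norm_num
  funext l
  simp only [crt, h2, Pi.smul_apply, smul_eq_mul]
  omega

theorem q2b_nE {m a b : ℕ} {p q : Fin m} : nE m a b p q = if (p : ℕ) = a ∧ (q : ℕ) = b then 1 else 0 :=
  rfl

/-- the positions of the entries of `cE` -/
theorem q2b_pos {r k : ℕ} (hk : k ≤ 2) {i : Fin r} {p q : Fin (cm r k)} (h : cE r k i p q ≠ 0) :
    (((i : ℕ) + 1 < r ∨ k = 0) ∧ ((p : ℕ) = ca r k i ∧ (q : ℕ) = cb r k i ∨
      (p : ℕ) = cm r k - 1 - cb r k i ∧ (q : ℕ) = cm r k - 1 - ca r k i)) ∨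
    (¬ ((i : ℕ) + 1 < r ∨ k = 0) ∧ k = 1 ∧ (p : ℕ) = r - 1 ∧ (q : ℕ) = r) ∨
    (¬ ((i : ℕ) + 1 < r ∨ k = 0) ∧ k = 2 ∧ ((p : ℕ) = r ∧ (q : ℕ) = r + 1 ∨
      (p : ℕ) = r - 1 ∧ (q : ℕ) = r)) := by
  by_cases h0 : (i : ℕ) + 1 < r ∨ k = 0
  · left
    refine ⟨h0, ?_⟩
    by_contra hcon
    push Not at hcon
    refine h ?_
    unfold cE
    rw [if_pos h0, Matrix.sub_apply, q2b_nE, q2b_nE, if_neg (fun hh => hcon.1 hh.1 hh.2),
      if_neg (fun hh => hcon.2 hh.1 hh.2), sub_zero]
  · right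
    by_cases h1 : k = 1
    · left
      refine ⟨h0, h1, ?_⟩
      by_contra hcon
      refine h ?_
      unfold cE
      rw [if_neg h0, if_pos h1, q2b_nE, if_neg hcon]
    · right
      refine ⟨h0, by omega, ?_⟩
      by_contra hcon
      push Not at hcon
      refine h ?_
      unfold cE
      rw [if_neg h0, if_neg h1, Matrix.sub_apply, Matrix.smul_apply, q2b_nE, q2b_nE,
        if_neg (fun hh => hcon.1 hh.1 hh.2), if_neg (fun hh => hcon.2 hh.1 hh.2)]
      simp

variable (r k : ℕ)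

/-- [CHV-Q2b] Proof: the nonzero entries of `cE` are `(a, b)` and `(m - 1 - b, m - 1 - a)`;
`cchi p - cchi q = e_i - e_{i+1}`, `2 e_{r-1}` (`k = 1`), `e_{r-1}` (`k = 2`),
`e_{r-2} + e_{r-1}` (`k = 0`), which is `crt` of the simple coroot. -/
theorem cE_wt (hk : k ≤ 2) (hr : k = 0 → 2 ≤ r) (i : Fin r) (p q : Fin (cm r k))
    (h : cE r k i p q ≠ 0) : cchi r k p - cchi r k q = crt r (cal r k i) := by
  have hi := i.2
  rw [q2b_cchi, q2b_cchi]
  rcases q2b_pos hk h with ⟨h0, h1⟩ | ⟨h0, h1, h2, h3⟩ | ⟨h0, h1, h2⟩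
  · by_cases h2 : (i : ℕ) + 1 < r
    · have hca : ca r k i = i := by unfold ca; rw [if_pos h2]
      have hcb : cb r k i = i + 1 := by unfold cb; rw [if_pos h2]
      have hm : 2 * r ≤ cm r k := by unfold cm; omega
      rw [hca, hcb] at h1
      rw [(q2b_A1 h2).2]
      funext l
      have hl := l.2
      simp only [Pi.sub_apply, ev]
      rcases h1 with ⟨e1, e2⟩ | ⟨e1, e2⟩
      · rw [e1, e2, if_neg (by omega : ¬ (l : ℕ) = cm r k - 1 - i),
          if_neg (by omega : ¬ (l : ℕ) = cm r k - 1 - (i + 1))]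
        ring
      · rw [e1, e2, if_neg (by omega : ¬ (l : ℕ) = cm r k - 1 - (i + 1)),
          if_neg (by omega : ¬ (l : ℕ) = cm r k - 1 - i),
          show cm r k - 1 - (cm r k - 1 - ((i : ℕ) + 1)) = i + 1 by omega,
          show cm r k - 1 - (cm r k - 1 - (i : ℕ)) = i by omega]
        ring
    · have hk0 : k = 0 := by omega
      have hr2 := hr hk0
      have hca : ca r k i = r - 2 := by unfold ca; rw [if_neg h2, if_pos hk0]
      have hcb : cb r k i = r := by unfold cb; rw [if_neg h2, if_pos (Or.inl hk0)]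
      have hm : cm r k = 2 * r := by unfold cm; rw [if_neg (by omega)]; omega
      rw [hca, hcb] at h1
      rw [(q2b_A2 h2 hk0 hr2).2]
      funext l
      have hl := l.2
      simp only [Pi.sub_apply, Pi.add_apply, ev]
      rcases h1 with ⟨e1, e2⟩ | ⟨e1, e2⟩
      · rw [e1, e2]
        split_ifs <;> omega
      · rw [e1, e2]
        split_ifs <;> omega
  · have hm : cm r k = 2 * r := by unfold cm; rw [if_neg (by omega)]; omega
    rw [(q2b_B (by omega) h1).2, h2, h3, hm]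
    funext l
    have hl := l.2
    simp only [Pi.sub_apply, Pi.smul_apply, smul_eq_mul, ev]
    split_ifs <;> omega
  · have hm : cm r k = 2 * r + 1 := by unfold cm; rw [if_pos (by omega)]
    rw [(q2b_C (by omega) h1).2]
    rcases h2 with ⟨e1, e2⟩ | ⟨e1, e2⟩
    · rw [e1, e2, hm]
      funext l
      have hl := l.2
      simp only [Pi.sub_apply, ev]
      split_ifs <;> omega
    · rw [e1, e2, hm]
      funext l
      have hl := l.2
      simp only [Pi.sub_apply, ev]
      split_ifs <;> omega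

/-- [CHV-Q2b] Proof: only for `k = 2` and the last root: `e_{r-1} - (-e_{r-1}) = 2 e_{r-1}`. -/
theorem cE2_wt (hk : k ≤ 2) (hr : k = 0 → 2 ≤ r) (i : Fin r) (p q : Fin (cm r k))
    (h : cE2 r k i p q ≠ 0) : cchi r k p - cchi r k q = 2 • crt r (cal r k i) := by
  have hi := i.2
  by_cases h0 : (i : ℕ) + 1 < r ∨ k ≠ 2
  · refine absurd ?_ h
    unfold cE2
    rw [if_pos h0, Matrix.zero_apply]
  · have h1 : (p : ℕ) = r - 1 ∧ (q : ℕ) = r + 1 := by
      by_contra hcon
      refine h ?_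
      unfold cE2
      rw [if_neg h0, Matrix.neg_apply, q2b_nE, if_neg hcon, neg_zero]
    have hm : cm r k = 2 * r + 1 := by unfold cm; rw [if_pos (by omega)]
    rw [(q2b_C (by omega) (by omega)).2, q2b_cchi, q2b_cchi, h1.1, h1.2, hm]
    funext l
    have hl := l.2
    simp only [Pi.sub_apply, Pi.smul_apply, nsmul_eq_mul, ev]
    push_cast
    split_ifs <;> omega

theorem ca_lt (hk : k ≤ 2) (i : Fin r) : ca r k i < cm r k := by
  have := i.2
  unfold ca cm
  split_ifs <;> omega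

theorem cb_lt (hk : k ≤ 2) (i : Fin r) : cb r k i < cm r k := by
  have := i.2
  unfold cb cm
  split_ifs <;> omega

/-- [CHV-Q2b] -/
theorem cE_ab (hk : k ≤ 2) (hr : k = 0 → 2 ≤ r) (i : Fin r) :
    cE r k i ⟨ca r k i, ca_lt r k hk i⟩ ⟨cb r k i, cb_lt r k hk i⟩ = 1 := by
  have hi := i.2
  by_cases h0 : (i : ℕ) + 1 < r ∨ k = 0
  · have hne : ¬ (ca r k i = cm r k - 1 - cb r k i ∧ cb r k i = cm r k - 1 - ca r k i) := by
      unfold ca cb cm
      by_cases h1 : (i : ℕ) + 1 < r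
      · simp only [if_pos h1]
        split_ifs <;> omega
      · have hk0 : k = 0 := by omega
        have := hr hk0
        simp only [if_neg h1, if_pos hk0, hk0]
        norm_num
        omega
    unfold cE
    rw [if_pos h0, Matrix.sub_apply, q2b_nE, q2b_nE, if_pos ⟨rfl, rfl⟩, if_neg hne, sub_zero]
  · by_cases h1 : k = 1
    · have hca : ca r k i = r - 1 := by
        unfold ca; rw [if_neg (by omega), if_neg (by omega), if_pos h1]
      have hcb : cb r k i = r := by unfold cb; rw [if_neg (by omega), if_pos (Or.inr h1)]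
      unfold cE
      rw [if_neg h0, if_pos h1, q2b_nE, if_pos ⟨hca, hcb⟩]
    · have hca : ca r k i = r := by
        unfold ca; rw [if_neg (by omega), if_neg (by omega), if_neg h1]
      have hcb : cb r k i = r + 1 := by unfold cb; rw [if_neg (by omega), if_neg (by omega)]
      unfold cE
      rw [if_neg h0, if_neg h1, Matrix.sub_apply, Matrix.smul_apply, q2b_nE, q2b_nE,
        if_pos ⟨hca, hcb⟩, if_neg (fun hh => by
          have := hh.1
          simp only [hca] at this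
          omega)]
      simp

/-- [CHV-Q2b] -/
theorem cE2_ab (hk : k ≤ 2) (hr : k = 0 → 2 ≤ r) (i : Fin r) :
    cE2 r k i ⟨ca r k i, ca_lt r k hk i⟩ ⟨cb r k i, cb_lt r k hk i⟩ = 0 := by
  have hi := i.2
  by_cases h0 : (i : ℕ) + 1 < r ∨ k ≠ 2
  · unfold cE2
    rw [if_pos h0, Matrix.zero_apply]
  · have hca : ca r k i = r := by
      unfold ca; rw [if_neg (by omega), if_neg (by omega), if_neg (by omega)]
    unfold cE2
    rw [if_neg h0, Matrix.neg_apply, q2b_nE, if_neg (fun hh => by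
          have := hh.1
          simp only [hca] at this
          omega), neg_zero]

/-- [CHV-Q2b] The pairings `cchi p ⬝ cy`. -/
theorem chi_cy (p : Fin (cm r k)) : cchi r k p ⬝ᵥ cy r k =
    if (p : ℕ) < r then (r : ℤ) - p - (if k = 0 then 1 else 0)
    else if k = 2 ∧ (p : ℕ) = r then 0
    else (r : ℤ) - 1 - p + (if k = 2 then 1 else 0) + (if k = 0 then 1 else 0) := by
  have hp := p.2
  have hm : cm r k = 2 * r + (if k = 2 then 1 else 0) := rfl
  rw [q2b_cchi_dot]
  by_cases h1 : (p : ℕ) < r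
  · rw [if_pos h1, q2b_ev_dot h1, q2b_ev_ge (by split_ifs at hm <;> omega), zero_dotProduct, sub_zero]
    rfl
  · rw [if_neg h1, q2b_ev_ge (by omega : r ≤ (p : ℕ)), zero_dotProduct, zero_sub]
    by_cases h2 : k = 2 ∧ (p : ℕ) = r
    · rw [if_pos h2, q2b_ev_ge (by rw [if_pos h2.1] at hm; omega), zero_dotProduct, neg_zero]
    · rw [if_neg h2, q2b_ev_dot (a := cm r k - 1 - p) (by split_ifs at hm <;> omega)]
      simp only [cy]
      split_ifs at hm ⊢ <;> omega

/-- [CHV-Q2b] Proof: `chi_cy`: the pairings of the positions `ca`, `cb` differ by `1`, or they are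
`1` and `-1` with no position with the pairing `0` (`k = 1`, last root). -/
theorem ab_adj (hk : k ≤ 2) (hr : k = 0 → 2 ≤ r) (i : Fin r) (p : Fin (cm r k)) :
    ¬ (0 < (cchi r k ⟨ca r k i, ca_lt r k hk i⟩ - cchi r k p) ⬝ᵥ cy r k ∧
      0 < (cchi r k p - cchi r k ⟨cb r k i, cb_lt r k hk i⟩) ⬝ᵥ cy r k) := by
  have hi := i.2
  have hp := p.2
  rw [sub_dotProduct, sub_dotProduct, chi_cy, chi_cy, chi_cy]
  simp only [Fin.val_mk]
  by_cases h1 : (i : ℕ) + 1 < r
  · have hca : ca r k i = i := by unfold ca; rw [if_pos h1]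
    have hcb : cb r k i = i + 1 := by unfold cb; rw [if_pos h1]
    rw [hca, hcb]
    split_ifs <;> omega
  · by_cases hk0 : k = 0
    · have hr2 := hr hk0
      have hca : ca r k i = r - 2 := by unfold ca; rw [if_neg h1, if_pos hk0]
      have hcb : cb r k i = r := by unfold cb; rw [if_neg h1, if_pos (Or.inl hk0)]
      rw [hca, hcb]
      split_ifs <;> omega
    · by_cases hk1 : k = 1
      · have hca : ca r k i = r - 1 := by
          unfold ca; rw [if_neg (by omega), if_neg (by omega), if_pos hk1]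
        have hcb : cb r k i = r := by unfold cb; rw [if_neg (by omega), if_pos (Or.inr hk1)]
        rw [hca, hcb]
        split_ifs <;> omega
      · have hca : ca r k i = r := by
          unfold ca; rw [if_neg (by omega), if_neg (by omega), if_neg hk1]
        have hcb : cb r k i = r + 1 := by unfold cb; rw [if_neg (by omega), if_neg (by omega)]
        rw [hca, hcb]
        split_ifs <;> omega

private theorem q2b_nat (p q a b a' b' : ℕ) (h1 : a ≠ b) (h2 : a ≠ a') (h3 : a ≠ b') (h4 : b ≠ a')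
    (h5 : b ≠ b') (h6 : a' ≠ b')
    (h : (if p = q then (1 : ℤ) else 0) -
        ((if p = a ∧ q = a then 1 else 0) + (if p = b' ∧ q = b' then 1 else 0)) -
        ((if p = b ∧ q = b then 1 else 0) + (if p = a' ∧ q = a' then 1 else 0)) -
        ((if p = a ∧ q = b then 1 else 0) - (if p = b' ∧ q = a' then 1 else 0)) +
        ((if p = b ∧ q = a then 1 else 0) - (if p = a' ∧ q = b' then 1 else 0)) ≠ 0) :
    (p = q ∧ p ≠ a ∧ p ≠ b ∧ p ≠ a' ∧ p ≠ b') ∨ (p = a ∧ q = b) ∨ (p = b ∧ q = a) ∨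
      (p = a' ∧ q = b') ∨ (p = b' ∧ q = a') := by
  by_cases e1 : p = a ∧ q = b
  · exact Or.inr (Or.inl e1)
  by_cases e2 : p = b ∧ q = a
  · exact Or.inr (Or.inr (Or.inl e2))
  by_cases e3 : p = a' ∧ q = b'
  · exact Or.inr (Or.inr (Or.inr (Or.inl e3)))
  by_cases e4 : p = b' ∧ q = a'
  · exact Or.inr (Or.inr (Or.inr (Or.inr e4)))
  left
  rw [if_neg e1, if_neg e2, if_neg e3, if_neg e4] at h
  by_cases e5 : p = q
  · subst e5
    refine ⟨rfl, ?_, ?_, ?_, ?_⟩
    · rintro rfl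
      refine h ?_
      rw [if_pos rfl, if_pos ⟨rfl, rfl⟩, if_neg (fun hh => h3 hh.1), if_neg (fun hh => h1 hh.1),
        if_neg (fun hh => h2 hh.1)]
      norm_num
    · rintro rfl
      refine h ?_
      rw [if_pos rfl, if_neg (fun hh => h1 hh.1.symm), if_neg (fun hh => h5 hh.1), if_pos ⟨rfl, rfl⟩,
        if_neg (fun hh => h4 hh.1)]
      norm_num
    · rintro rfl
      refine h ?_
      rw [if_pos rfl, if_neg (fun hh => h2 hh.1.symm), if_neg (fun hh => h6 hh.1),
        if_neg (fun hh => h4 hh.1.symm), if_pos ⟨rfl, rfl⟩]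
      norm_num
    · rintro rfl
      refine h ?_
      rw [if_pos rfl, if_neg (fun hh => h3 hh.1.symm), if_pos ⟨rfl, rfl⟩,
        if_neg (fun hh => h5 hh.1.symm), if_neg (fun hh => h6 hh.1.symm)]
      norm_num
  · refine absurd ?_ h
    rw [if_neg e5, if_neg (by omega), if_neg (by omega), if_neg (by omega), if_neg (by omega)]
    norm_num

private theorem q2b_factsA (r k : ℕ) (hr : k = 0 → 2 ≤ r) (i : Fin r) (hk : k ≤ 2)
    (h : (i : ℕ) + 1 < r ∨ k = 0) :
    ca r k i < cb r k i ∧ cb r k i < cm r k ∧ 2 * ca r k i + 1 ≠ cm r k ∧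
      2 * cb r k i + 1 ≠ cm r k ∧ ca r k i + cb r k i + 1 ≠ cm r k := by
  have hi := i.2
  unfold ca cb cm
  by_cases h1 : (i : ℕ) + 1 < r
  · simp only [if_pos h1]
    split_ifs <;> omega
  · have hk0 : k = 0 := by
      rcases h with h | h
      · exact absurd h h1
      · exact h
    have := hr hk0
    subst hk0
    simp only [if_neg h1]
    norm_num
    omega

/-- the entries of `cs`, first case -/
private theorem q2b_csA (r k : ℕ) (hk : k ≤ 2) (hr : k = 0 → 2 ≤ r) (i : Fin r)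
    (h0 : (i : ℕ) + 1 < r ∨ k = 0) (p q : Fin (cm r k)) (h : cs r k i p q ≠ 0) :
    ((p : ℕ) = q ∧ (p : ℕ) ≠ ca r k i ∧ (p : ℕ) ≠ cb r k i ∧ (p : ℕ) ≠ cm r k - 1 - ca r k i ∧
      (p : ℕ) ≠ cm r k - 1 - cb r k i) ∨ ((p : ℕ) = ca r k i ∧ (q : ℕ) = cb r k i) ∨
      ((p : ℕ) = cb r k i ∧ (q : ℕ) = ca r k i) ∨
      ((p : ℕ) = cm r k - 1 - ca r k i ∧ (q : ℕ) = cm r k - 1 - cb r k i) ∨
      ((p : ℕ) = cm r k - 1 - cb r k i ∧ (q : ℕ) = cm r k - 1 - ca r k i) := by
  obtain ⟨f1, f2, f3, f4, f5⟩ := q2b_factsA r k hr i hk h0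
  refine q2b_nat p q (ca r k i) (cb r k i) (cm r k - 1 - ca r k i) (cm r k - 1 - cb r k i)
    (by omega) (by omega) (by omega) (by omega) (by omega) (by omega) ?_
  have hE : cE r k i = nE (cm r k) (ca r k i) (cb r k i) -
      nE (cm r k) (cm r k - 1 - cb r k i) (cm r k - 1 - ca r k i) := if_pos h0
  have hET : (cE r k i)ᵀ = nE (cm r k) (cb r k i) (ca r k i) -
      nE (cm r k) (cm r k - 1 - ca r k i) (cm r k - 1 - cb r k i) := by
    rw [hE, Matrix.transpose_sub, nE_transpose, nE_transpose]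
  have e1 : cE r k i * (cE r k i)ᵀ = nE (cm r k) (ca r k i) (ca r k i) +
      nE (cm r k) (cm r k - 1 - cb r k i) (cm r k - 1 - cb r k i) := by
    rw [hET, hE, sub_mul, mul_sub, mul_sub, nE_eq rfl (by omega), nE_ne (by omega), nE_ne (by omega),
      nE_eq rfl (by omega)]
    simp
  have e2 : (cE r k i)ᵀ * cE r k i = nE (cm r k) (cb r k i) (cb r k i) +
      nE (cm r k) (cm r k - 1 - ca r k i) (cm r k - 1 - ca r k i) := by
    rw [hET, hE, sub_mul, mul_sub, mul_sub, nE_eq rfl (by omega), nE_ne (by omega), nE_ne (by omega),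
      nE_eq rfl (by omega)]
    simp
  have h2 : (i : ℕ) + 1 < r ∨ k ≠ 2 := by omega
  intro h3
  refine h ?_
  unfold cs
  rw [if_pos h2, e1, e2, hET, hE, Matrix.add_apply, Matrix.sub_apply, Matrix.sub_apply,
    Matrix.sub_apply, Matrix.add_apply, Matrix.add_apply, Matrix.sub_apply, Matrix.sub_apply,
    q2b_nE, q2b_nE, q2b_nE, q2b_nE, q2b_nE, q2b_nE, q2b_nE, q2b_nE, Matrix.one_apply]
  simp only [Fin.ext_iff]
  exact h3

/-- the simple coroots and roots, first case -/
private theorem q2b_calA (r k : ℕ) (hr : k = 0 → 2 ≤ r) (i : Fin r)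
    (h0 : (i : ℕ) + 1 < r ∨ k = 0) :
    cal r k i = ev r (ca r k i) - ev r (cb r k i) + ev r (cm r k - 1 - cb r k i) -
      ev r (cm r k - 1 - ca r k i) ∧ crt r (cal r k i) = cal r k i := by
  have hi := i.2
  by_cases h2 : (i : ℕ) + 1 < r
  · have hca : ca r k i = i := by unfold ca; rw [if_pos h2]
    have hcb : cb r k i = i + 1 := by unfold cb; rw [if_pos h2]
    have hm : 2 * r ≤ cm r k := by unfold cm; omega
    rw [(q2b_A1 h2).2, (q2b_A1 h2).1, hca, hcb, q2b_ev_ge (by omega : r ≤ cm r k - 1 - (i + 1)),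
      q2b_ev_ge (by omega : r ≤ cm r k - 1 - i)]
    exact ⟨by simp, rfl⟩
  · have hk0 : k = 0 := by omega
    have hr2 := hr hk0
    have hca : ca r k i = r - 2 := by unfold ca; rw [if_neg h2, if_pos hk0]
    have hcb : cb r k i = r := by unfold cb; rw [if_neg h2, if_pos (Or.inl hk0)]
    have hm : cm r k = 2 * r := by unfold cm; rw [if_neg (by omega)]; omega
    rw [(q2b_A2 h2 hk0 hr2).2, (q2b_A2 h2 hk0 hr2).1, hca, hcb, hm, q2b_ev_ge (le_refl r),
      q2b_ev_ge (by omega : r ≤ 2 * r - 1 - (r - 2)), show 2 * r - 1 - r = r - 1 by omega]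
    exact ⟨by simp, rfl⟩

/-- [CHV-Q2b] Proof: for a nonzero entry `(p, q)` of `cs`, `cchi p = cchi q - (cchi q ⬝ al) • crt al`
(the entry `(p, q)` of `cs` is not zero only if `p = q` is fixed by the permutation, or `p`, `q` are
exchanged: `a ↔ b`, `m - 1 - b ↔ m - 1 - a`, or `r - 1 ↔ r + 1` for `k = 2` and the last root), and
`sr z = z - (crt al ⬝ z) • al`. -/
theorem cs_tr (hk : k ≤ 2) (hr : k = 0 → 2 ≤ r) (i : Fin r) (p q : Fin (cm r k))
    (h : cs r k i p q ≠ 0) (z : Fin r → ℤ) :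
    cchi r k p ⬝ᵥ (z - (crt r (cal r k i) ⬝ᵥ z) • cal r k i) = cchi r k q ⬝ᵥ z := by
  have hi := i.2
  have hp := p.2
  have hm : cm r k = 2 * r ∨ cm r k = 2 * r + 1 := by
    unfold cm
    split_ifs <;> omega
  rw [dotProduct_sub, dotProduct_smul, smul_eq_mul]
  by_cases h0 : (i : ℕ) + 1 < r ∨ k = 0
  · obtain ⟨f1, f2, f3, f4, f5⟩ := q2b_factsA r k hr i hk h0
    obtain ⟨c1, c2⟩ := q2b_calA r k hr i h0
    have hcase := q2b_csA r k hk hr i h0 p q h
    rw [c2, c1]
    rw [q2b_cchi_dot, q2b_cchi_dot, q2b_cchi_dot]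
    generalize ca r k i = a at *
    generalize cb r k i = b at *
    rw [sub_dotProduct, add_dotProduct, sub_dotProduct, dotProduct_sub, dotProduct_add,
      dotProduct_sub, dotProduct_sub, dotProduct_add, dotProduct_sub]
    simp only [q2b_ev_ev]
    rcases hcase with ⟨e1, e2, e3, e4, e5⟩ | ⟨e1, e2⟩ | ⟨e1, e2⟩ | ⟨e1, e2⟩ | ⟨e1, e2⟩
    · have hN : (if (p : ℕ) = a ∧ (p : ℕ) < r then (1 : ℤ) else 0) -
          (if (p : ℕ) = b ∧ (p : ℕ) < r then 1 else 0) +
          (if (p : ℕ) = cm r k - 1 - b ∧ (p : ℕ) < r then 1 else 0) -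
          (if (p : ℕ) = cm r k - 1 - a ∧ (p : ℕ) < r then 1 else 0) -
          ((if cm r k - 1 - (p : ℕ) = a ∧ cm r k - 1 - (p : ℕ) < r then (1 : ℤ) else 0) -
          (if cm r k - 1 - (p : ℕ) = b ∧ cm r k - 1 - (p : ℕ) < r then 1 else 0) +
          (if cm r k - 1 - (p : ℕ) = cm r k - 1 - b ∧ cm r k - 1 - (p : ℕ) < r then 1 else 0) -
          (if cm r k - 1 - (p : ℕ) = cm r k - 1 - a ∧ cm r k - 1 - (p : ℕ) < r then 1 else 0)) = 0 := by
        rw [if_neg (by omega), if_neg (by omega), if_neg (by omega), if_neg (by omega),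
          if_neg (by omega), if_neg (by omega), if_neg (by omega), if_neg (by omega)]
        norm_num
      rw [hN, mul_zero, sub_zero, ← e1]
    · rw [e1, e2]
      have hN : (if a = a ∧ a < r then (1 : ℤ) else 0) -
          (if a = b ∧ a < r then 1 else 0) +
          (if a = cm r k - 1 - b ∧ a < r then 1 else 0) -
          (if a = cm r k - 1 - a ∧ a < r then 1 else 0) -
          ((if cm r k - 1 - a = a ∧ cm r k - 1 - a < r then (1 : ℤ) else 0) -
          (if cm r k - 1 - a = b ∧ cm r k - 1 - a < r then 1 else 0) +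
          (if cm r k - 1 - a = cm r k - 1 - b ∧ cm r k - 1 - a < r then 1 else 0) -
          (if cm r k - 1 - a = cm r k - 1 - a ∧ cm r k - 1 - a < r then 1 else 0)) = 1 := by
        rw [if_neg (by omega : ¬ (a = b ∧ a < r)), if_neg (by omega : ¬ (a = cm r k - 1 - b ∧ a < r)),
          if_neg (by omega : ¬ (a = cm r k - 1 - a ∧ a < r)),
          if_neg (by omega : ¬ (cm r k - 1 - a = a ∧ cm r k - 1 - a < r)),
          if_neg (by omega : ¬ (cm r k - 1 - a = b ∧ cm r k - 1 - a < r)),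
          if_neg (by omega : ¬ (cm r k - 1 - a = cm r k - 1 - b ∧ cm r k - 1 - a < r))]
        split_ifs <;> omega
      rw [hN]
      ring
    · rw [e1, e2]
      have hN : (if b = a ∧ b < r then (1 : ℤ) else 0) -
          (if b = b ∧ b < r then 1 else 0) +
          (if b = cm r k - 1 - b ∧ b < r then 1 else 0) -
          (if b = cm r k - 1 - a ∧ b < r then 1 else 0) -
          ((if cm r k - 1 - b = a ∧ cm r k - 1 - b < r then (1 : ℤ) else 0) -
          (if cm r k - 1 - b = b ∧ cm r k - 1 - b < r then 1 else 0) +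
          (if cm r k - 1 - b = cm r k - 1 - b ∧ cm r k - 1 - b < r then 1 else 0) -
          (if cm r k - 1 - b = cm r k - 1 - a ∧ cm r k - 1 - b < r then 1 else 0)) = -1 := by
        rw [if_neg (by omega : ¬ (b = a ∧ b < r)), if_neg (by omega : ¬ (b = cm r k - 1 - b ∧ b < r)),
          if_neg (by omega : ¬ (b = cm r k - 1 - a ∧ b < r)),
          if_neg (by omega : ¬ (cm r k - 1 - b = a ∧ cm r k - 1 - b < r)),
          if_neg (by omega : ¬ (cm r k - 1 - b = b ∧ cm r k - 1 - b < r)),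
          if_neg (by omega : ¬ (cm r k - 1 - b = cm r k - 1 - a ∧ cm r k - 1 - b < r))]
        split_ifs <;> omega
      rw [hN]
      ring
    · have e3 : cm r k - 1 - (p : ℕ) = a := by omega
      have e4 : cm r k - 1 - (q : ℕ) = b := by omega
      rw [e3, e4, e1, e2]
      have hN : (if cm r k - 1 - a = a ∧ cm r k - 1 - a < r then (1 : ℤ) else 0) -
          (if cm r k - 1 - a = b ∧ cm r k - 1 - a < r then 1 else 0) +
          (if cm r k - 1 - a = cm r k - 1 - b ∧ cm r k - 1 - a < r then 1 else 0) -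
          (if cm r k - 1 - a = cm r k - 1 - a ∧ cm r k - 1 - a < r then 1 else 0) -
          ((if a = a ∧ a < r then (1 : ℤ) else 0) -
          (if a = b ∧ a < r then 1 else 0) +
          (if a = cm r k - 1 - b ∧ a < r then 1 else 0) -
          (if a = cm r k - 1 - a ∧ a < r then 1 else 0)) = -1 := by
        rw [if_neg (by omega : ¬ (a = b ∧ a < r)), if_neg (by omega : ¬ (a = cm r k - 1 - b ∧ a < r)),
          if_neg (by omega : ¬ (a = cm r k - 1 - a ∧ a < r)),
          if_neg (by omega : ¬ (cm r k - 1 - a = a ∧ cm r k - 1 - a < r)),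
          if_neg (by omega : ¬ (cm r k - 1 - a = b ∧ cm r k - 1 - a < r)),
          if_neg (by omega : ¬ (cm r k - 1 - a = cm r k - 1 - b ∧ cm r k - 1 - a < r))]
        split_ifs <;> omega
      rw [hN]
      ring
    · have e3 : cm r k - 1 - (p : ℕ) = b := by omega
      have e4 : cm r k - 1 - (q : ℕ) = a := by omega
      rw [e3, e4, e1, e2]
      have hN : (if cm r k - 1 - b = a ∧ cm r k - 1 - b < r then (1 : ℤ) else 0) -
          (if cm r k - 1 - b = b ∧ cm r k - 1 - b < r then 1 else 0) +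
          (if cm r k - 1 - b = cm r k - 1 - b ∧ cm r k - 1 - b < r then 1 else 0) -
          (if cm r k - 1 - b = cm r k - 1 - a ∧ cm r k - 1 - b < r then 1 else 0) -
          ((if b = a ∧ b < r then (1 : ℤ) else 0) -
          (if b = b ∧ b < r then 1 else 0) +
          (if b = cm r k - 1 - b ∧ b < r then 1 else 0) -
          (if b = cm r k - 1 - a ∧ b < r then 1 else 0)) = 1 := by
        rw [if_neg (by omega : ¬ (b = a ∧ b < r)), if_neg (by omega : ¬ (b = cm r k - 1 - b ∧ b < r)),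
          if_neg (by omega : ¬ (b = cm r k - 1 - a ∧ b < r)),
          if_neg (by omega : ¬ (cm r k - 1 - b = a ∧ cm r k - 1 - b < r)),
          if_neg (by omega : ¬ (cm r k - 1 - b = b ∧ cm r k - 1 - b < r)),
          if_neg (by omega : ¬ (cm r k - 1 - b = cm r k - 1 - a ∧ cm r k - 1 - b < r))]
        split_ifs <;> omega
      rw [hN]
      ring
  · by_cases h1 : k = 1
    · have hm2 : cm r k = 2 * r := by unfold cm; rw [if_neg (by omega)]; omega
      obtain ⟨c1, c2⟩ := q2b_B (i := i) (by omega) h1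
      rw [c2, c1, smul_dotProduct, smul_eq_mul, q2b_cchi_dot, q2b_cchi_dot, q2b_cchi_dot, q2b_ev_ev,
        q2b_ev_ev]
      have h2 : (i : ℕ) + 1 < r ∨ k ≠ 2 := by omega
      have hE : cE r k i = nE (cm r k) (r - 1) r := by
        unfold cE
        rw [if_neg h0, if_pos h1]
      have hcase : ((p : ℕ) = q ∧ (p : ℕ) ≠ r - 1 ∧ (p : ℕ) ≠ r) ∨ ((p : ℕ) = r - 1 ∧ (q : ℕ) = r) ∨
          ((p : ℕ) = r ∧ (q : ℕ) = r - 1) := by
        by_contra hcon
        refine h ?_
        unfold cs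
        rw [if_pos h2, hE, nE_transpose, nE_eq rfl (by omega), nE_eq rfl (by omega), Matrix.add_apply,
          Matrix.sub_apply, Matrix.sub_apply, Matrix.sub_apply, q2b_nE, q2b_nE, q2b_nE, q2b_nE,
          Matrix.one_apply]
        simp only [Fin.ext_iff]
        split_ifs <;> omega
      rcases hcase with ⟨e1, e2, e3⟩ | ⟨e1, e2⟩ | ⟨e1, e2⟩
      · rw [← e1, if_neg (by omega), if_neg (by omega)]
        ring
      · rw [e1, e2, hm2, if_pos (by omega), if_neg (by omega), q2b_ev_ge (le_refl r),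
          q2b_ev_ge (by omega : r ≤ 2 * r - 1 - (r - 1)), show 2 * r - 1 - r = r - 1 by omega,
          zero_dotProduct]
        ring
      · rw [e1, e2, hm2, if_neg (by omega), if_pos (by omega), q2b_ev_ge (le_refl r),
          q2b_ev_ge (by omega : r ≤ 2 * r - 1 - (r - 1)), show 2 * r - 1 - r = r - 1 by omega,
          zero_dotProduct]
        ring
    · have hm2 : cm r k = 2 * r + 1 := by unfold cm; rw [if_pos (by omega)]
      obtain ⟨c1, c2⟩ := q2b_C (i := i) (k := k) (by omega) (by omega)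
      rw [c2, c1, dotProduct_smul, smul_eq_mul, q2b_cchi_dot, q2b_cchi_dot, q2b_cchi_dot, q2b_ev_ev,
        q2b_ev_ev]
      have h2 : ¬ ((i : ℕ) + 1 < r ∨ k ≠ 2) := by omega
      have hcase : ((p : ℕ) = q ∧ (p : ℕ) ≠ r - 1 ∧ (p : ℕ) ≠ r + 1) ∨
          ((p : ℕ) = r - 1 ∧ (q : ℕ) = r + 1) ∨ ((p : ℕ) = r + 1 ∧ (q : ℕ) = r - 1) := by
        by_contra hcon
        refine h ?_
        unfold cs
        rw [if_neg h2, Matrix.sub_apply,
          Matrix.sub_apply, Matrix.sub_apply, Matrix.sub_apply, Matrix.sub_apply, Matrix.smul_apply,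
          q2b_nE, q2b_nE, q2b_nE, q2b_nE, q2b_nE, Matrix.one_apply]
        simp only [Fin.ext_iff, nsmul_eq_mul]
        push_cast
        split_ifs <;> omega
      rcases hcase with ⟨e1, e2, e3⟩ | ⟨e1, e2⟩ | ⟨e1, e2⟩
      · rw [← e1, if_neg (by omega), if_neg (by omega)]
        ring
      · rw [e1, e2, hm2, if_pos (by omega), if_neg (by omega), q2b_ev_ge (by omega : r ≤ r + 1),
          q2b_ev_ge (by omega : r ≤ 2 * r + 1 - 1 - (r - 1)),
          show 2 * r + 1 - 1 - (r + 1) = r - 1 by omega, zero_dotProduct]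
        ring
      · rw [e1, e2, hm2, if_neg (by omega), if_pos (by omega), q2b_ev_ge (by omega : r ≤ r + 1),
          q2b_ev_ge (by omega : r ≤ 2 * r + 1 - 1 - (r - 1)),
          show 2 * r + 1 - 1 - (r + 1) = r - 1 by omega, zero_dotProduct]
        ring

end Pool.Agent.CHV.Q2

namespace Pool.Agent.CHV

open Matrix

/-- The simple root vectors of the classical groups. -/
noncomputable abbrev cMD0 (r k : ℕ) (hk : k ≤ 2) (hr : k = 0 → 2 ≤ r) : MD0 where
  toWD := cWD r k hk hr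
  E := (fun i : Fin r => cE r k i)
  E2 := (fun i : Fin r => cE2 r k i)
  E_sq i := Q2.cE_sq r k hk hr i
  E_E2 i := Q2.cE_cE2 r k hk i
  E2_E i := Q2.cE2_cE r k hk i
  E2_sq i := Q2.cE2_sq r k hk i
  E_wt i p q h := Q2.cE_wt r k hk hr i p q h
  E2_wt i p q h := Q2.cE2_wt r k hk hr i p q h
  ea := (fun i : Fin r => ⟨ca r k i, Q2.ca_lt r k hk i⟩)
  eb := (fun i : Fin r => ⟨cb r k i, Q2.cb_lt r k hk i⟩)
  E_ab i := Q2.cE_ab r k hk hr i
  E2_ab i := Q2.cE2_ab r k hk hr i
  ab_adj i p := Q2.ab_adj r k hk hr i p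
  s := (fun i : Fin r => ⟨cs r k i, cs' r k i, Q2.cs_mul r k hk hr i, Q2.cs'_mul r k hk hr i⟩)
  s_tr := fun (i : Fin r) p q h (z : Fin r → ℤ) => by
    have h1 : (cWD r k hk hr).sr i z = z - (crt r (cal r k i) ⬝ᵥ z) • cal r k i :=
      A1.sr_apply (cWD r k hk hr).toRD i z
    rw [h1]
    exact Q2.cs_tr r k hk hr i p q h z

end Pool.Agent.CHV
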