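import Pool.Agent.CHV.Q0

/-! # CHV, row Q3a: the torus, the root subgroups and the reflections are in the classical group -/

set_option autoImplicit false

namespace Pool.Agent.CHV.Q3

open Matrix

variable (r k : ℕ)

private theorem q3a_map_B {S R : Type} [CommRing S] [CommRing R] (φ : S →+* R)
    (x y : Fin (cm r k) → S) :
    φ (cB r k x y) = cB r k (fun p => φ (x p)) (fun p => φ (y p)) := by
  unfold cB
  rw [map_sum]
  refine Finset.sum_congr rfl fun p _ => ?_
  rw [map_mul, map_mul, map_intCast]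

private theorem q3a_map_q {S R : Type} [CommRing S] [CommRing R] (φ : S →+* R)
    (x : Fin (cm r k) → S) : φ (cq r k x) = cq r k (fun p => φ (x p)) := by
  unfold cq
  rw [map_sum]
  refine Finset.sum_congr rfl fun p _ => ?_
  split_ifs
  · rw [map_mul]
  · rw [map_zero]

private theorem q3a_B_mul {R : Type} [CommRing R] (g : Matrix (Fin (cm r k)) (Fin (cm r k)) R)
    (x y : Fin (cm r k) → R) : cB r k (g *ᵥ x) (g *ᵥ y) =
      ∑ a, ∑ b, x a * y b * cB r k (fun p => g p a) (fun p => g p b) := by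
  unfold cB
  have h : ∀ p : Fin (cm r k), (csig r k p : R) * (g *ᵥ x) p * (g *ᵥ y) p.rev =
      ∑ a, ∑ b, x a * y b * ((csig r k p : R) * g p a * g p.rev b) := by
    intro p
    simp only [mulVec, dotProduct]
    rw [mul_assoc, Finset.sum_mul_sum, Finset.mul_sum]
    refine Finset.sum_congr rfl fun a _ => ?_
    rw [Finset.mul_sum]
    exact Finset.sum_congr rfl fun b _ => by ring
  rw [Finset.sum_congr rfl fun p _ => h p, Finset.sum_comm]
  refine Finset.sum_congr rfl fun a _ => ?_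
  rw [Finset.sum_comm]
  refine Finset.sum_congr rfl fun b _ => ?_
  rw [Finset.mul_sum]

private theorem q3a_q_add (hk1 : k ≠ 1) {R : Type} [CommRing R] (x y : Fin (cm r k) → R) :
    cq r k (x + y) = cq r k x + cq r k y + cB r k x y := by
  have h1 : ∑ p : Fin (cm r k), (if (p : ℕ) < r ∨ (k = 2 ∧ (p : ℕ) = r) then y p * x p.rev else 0) =
      ∑ p : Fin (cm r k), (if ((p.rev : Fin (cm r k)) : ℕ) < r ∨
        (k = 2 ∧ ((p.rev : Fin (cm r k)) : ℕ) = r) then y p.rev * x p else 0) := by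
    rw [← Equiv.sum_comp Fin.revPerm]
    refine Finset.sum_congr rfl fun p _ => ?_
    simp only [Fin.revPerm_apply, Fin.rev_rev]
  have h2 : cq r k (x + y) = cq r k x + cq r k y +
      (∑ p : Fin (cm r k), (if (p : ℕ) < r ∨ (k = 2 ∧ (p : ℕ) = r) then x p * y p.rev else 0) +
      ∑ p : Fin (cm r k), (if (p : ℕ) < r ∨ (k = 2 ∧ (p : ℕ) = r) then y p * x p.rev else 0)) := by
    unfold cq
    rw [← Finset.sum_add_distrib, ← Finset.sum_add_distrib, ← Finset.sum_add_distrib]
    refine Finset.sum_congr rfl fun p _ => ?_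
    split_ifs
    · simp only [Pi.add_apply]; ring
    · ring
  rw [h2, h1, ← Finset.sum_add_distrib]
  congr 1
  unfold cB
  refine Finset.sum_congr rfl fun p _ => ?_
  have hp := p.2
  have hrev : ((p.rev : Fin (cm r k)) : ℕ) = cm r k - (p + 1) := Fin.val_rev p
  have hs : (if (p : ℕ) < r ∨ (k = 2 ∧ (p : ℕ) = r) then (1 : ℤ) else 0) +
      (if ((p.rev : Fin (cm r k)) : ℕ) < r ∨ (k = 2 ∧ ((p.rev : Fin (cm r k)) : ℕ) = r)
        then (1 : ℤ) else 0) = csig r k p := by
    rw [hrev]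
    unfold csig
    have hcm : cm r k = 2 * r + (if k = 2 then 1 else 0) := rfl
    by_cases hk2 : k = 2
    · rw [if_pos hk2] at hcm
      split_ifs <;> omega
    · rw [if_neg hk2] at hcm
      split_ifs <;> omega
  rw [← hs]
  push_cast
  by_cases c1 : (p : ℕ) < r ∨ (k = 2 ∧ (p : ℕ) = r)
  · by_cases c2 : ((p.rev : Fin (cm r k)) : ℕ) < r ∨ (k = 2 ∧ ((p.rev : Fin (cm r k)) : ℕ) = r)
    · rw [if_pos c1, if_pos c2, if_pos c1, if_pos c2]; ring
    · rw [if_pos c1, if_neg c2, if_pos c1, if_neg c2]; ring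
  · by_cases c2 : ((p.rev : Fin (cm r k)) : ℕ) < r ∨ (k = 2 ∧ ((p.rev : Fin (cm r k)) : ℕ) = r)
    · rw [if_neg c1, if_pos c2, if_neg c1, if_pos c2]; ring
    · rw [if_neg c1, if_neg c2, if_neg c1, if_neg c2]; ring

private theorem q3a_q_smul {R : Type} [CommRing R] (c : R) (x : Fin (cm r k) → R) :
    cq r k (c • x) = c ^ 2 * cq r k x := by
  unfold cq
  rw [Finset.mul_sum]
  refine Finset.sum_congr rfl fun p _ => ?_
  split_ifs
  · simp only [Pi.smul_apply, smul_eq_mul]; ring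
  · rw [mul_zero]

private theorem q3a_B_iff {R : Type} [CommRing R] (g : Matrix (Fin (cm r k)) (Fin (cm r k)) R) :
    (∀ x y, cB r k (g *ᵥ x) (g *ᵥ y) = cB r k x y) ↔
      ∀ a b, cB r k (fun p => g p a) (fun p => g p b) =
        cB r k (fun p => (1 : Matrix (Fin (cm r k)) (Fin (cm r k)) R) p a)
          (fun p => (1 : Matrix (Fin (cm r k)) (Fin (cm r k)) R) p b) := by
  constructor
  · intro h a b
    have h1 := h (Pi.single a 1) (Pi.single b 1)
    have e : ∀ (A : Matrix (Fin (cm r k)) (Fin (cm r k)) R) (c : Fin (cm r k)),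
        A *ᵥ Pi.single c 1 = fun p => A p c := by
      intro A c
      rw [mulVec_single_one]
      rfl
    rw [e, e] at h1
    rw [h1, ← e 1 a, ← e 1 b, one_mulVec, one_mulVec]
  · intro h x y
    have h1 := q3a_B_mul r k (1 : Matrix (Fin (cm r k)) (Fin (cm r k)) R) x y
    rw [one_mulVec, one_mulVec] at h1
    rw [h1, q3a_B_mul]
    refine Finset.sum_congr rfl fun a _ => Finset.sum_congr rfl fun b _ => ?_
    rw [h a b]

private theorem q3a_q_iff (hk1 : k ≠ 1) {R : Type} [CommRing R]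
    (g : Matrix (Fin (cm r k)) (Fin (cm r k)) R)
    (hB : ∀ x y, cB r k (g *ᵥ x) (g *ᵥ y) = cB r k x y) :
    (∀ x, cq r k (g *ᵥ x) = cq r k x) ↔
      ∀ a, cq r k (fun p => g p a) =
        cq r k (fun p => (1 : Matrix (Fin (cm r k)) (Fin (cm r k)) R) p a) := by
  have e : ∀ (A : Matrix (Fin (cm r k)) (Fin (cm r k)) R) (c : Fin (cm r k)),
      A *ᵥ Pi.single c 1 = fun p => A p c := by
    intro A c
    rw [mulVec_single_one]
    rfl
  constructor
  · intro h a
    have h1 := h (Pi.single a 1)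
    rw [e] at h1
    rw [h1, ← e 1 a, one_mulVec]
  · intro h x
    have key : ∀ s : Finset (Fin (cm r k)),
        cq r k (g *ᵥ (∑ a ∈ s, x a • (Pi.single a 1 : Fin (cm r k) → R))) =
          cq r k (∑ a ∈ s, x a • (Pi.single a 1 : Fin (cm r k) → R)) := by
      intro s
      classical
      induction s using Finset.induction_on with
      | empty => rw [Finset.sum_empty, mulVec_zero]
      | insert a s ha ih =>
        rw [Finset.sum_insert ha, mulVec_add, q3a_q_add r k hk1, q3a_q_add r k hk1, ih, hB,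
          mulVec_smul, q3a_q_smul, q3a_q_smul, e, h a, ← e 1 a, one_mulVec]
    have hx : ∑ a ∈ Finset.univ, x a • (Pi.single a 1 : Fin (cm r k) → R) = x := by
      funext p
      rw [Finset.sum_apply, Finset.sum_eq_single p]
      · simp
      · intro b _ hb
        simp [Pi.single_eq_of_ne hb.symm]
      · intro hp
        exact absurd (Finset.mem_univ p) hp
    have := key Finset.univ
    rwa [hx] at this

/-- [CHV-Q3a] Proof: the polynomials are, for all `p`, `q`,
`∑ l, σ_l X (l, p) X (rev l, q) - (σ_p if q = rev p, else 0)`, and for `k ≠ 1`: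
`∑ l (cond.) X (l, p) X (rev l, p) - cq (e_p)`, and `det X - 1`. By bilinearity `cB (g x) (g y) = cB x y`
for all `x`, `y` iff it holds for the basis vectors `Pi.single p 1`; and
`cq (x + y) = cq x + cq y + cB x y`, `cq (c • x) = c ^ 2 * cq x` for `k ≠ 1`, so
`cq (g x) = cq x` for all `x` iff it holds for the basis vectors (with the statement on `cB`). -/
theorem G_closed : ∃ I : Set (MvPolynomial (Fin (cm r k) × Fin (cm r k)) ℤ),
    ∀ (R : Type) [CommRing R] (g : GL (Fin (cm r k)) R), g ∈ cG r k R ↔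
      ∀ p ∈ I, MvPolynomial.aeval (fun y => g.1 y.1 y.2) p = 0 := by
  classical
  let X : Fin (cm r k) → Fin (cm r k) → MvPolynomial (Fin (cm r k) × Fin (cm r k)) ℤ :=
    fun p a => MvPolynomial.X (p, a)
  let O : Matrix (Fin (cm r k)) (Fin (cm r k))
    (MvPolynomial (Fin (cm r k) × Fin (cm r k)) ℤ) := 1
  refine ⟨{P | (∃ a b, P = cB r k (fun p => X p a) (fun p => X p b) -
      cB r k (fun p => O p a) (fun p => O p b)) ∨
    (k ≠ 1 ∧ ((∃ a, P = cq r k (fun p => X p a) - cq r k (fun p => O p a)) ∨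
      P = (Matrix.of X).det - 1))}, ?_⟩
  intro R _ g
  let φ : MvPolynomial (Fin (cm r k) × Fin (cm r k)) ℤ →+* R :=
    (MvPolynomial.aeval (fun y : Fin (cm r k) × Fin (cm r k) => g.1 y.1 y.2)).toRingHom
  have hφ : ∀ P, MvPolynomial.aeval (fun y : Fin (cm r k) × Fin (cm r k) => g.1 y.1 y.2) P = φ P :=
    fun P => rfl
  have hX : ∀ p a, φ (X p a) = g.1 p a := fun p a => by
    show MvPolynomial.aeval _ (MvPolynomial.X (p, a)) = _
    rw [MvPolynomial.aeval_X]
  have hO : ∀ p a, φ (O p a) = (1 : Matrix (Fin (cm r k)) (Fin (cm r k)) R) p a := by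
    intro p a
    simp only [O, Matrix.one_apply]
    split_ifs
    · exact map_one φ
    · exact map_zero φ
  have e1 : ∀ a b, φ (cB r k (fun p => X p a) (fun p => X p b) -
      cB r k (fun p => O p a) (fun p => O p b)) = 0 ↔
      cB r k (fun p => g.1 p a) (fun p => g.1 p b) =
        cB r k (fun p => (1 : Matrix (Fin (cm r k)) (Fin (cm r k)) R) p a)
          (fun p => (1 : Matrix (Fin (cm r k)) (Fin (cm r k)) R) p b) := by
    intro a b
    rw [map_sub, q3a_map_B, q3a_map_B, sub_eq_zero]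
    simp only [hX, hO]
  have e2 : ∀ a, φ (cq r k (fun p => X p a) - cq r k (fun p => O p a)) = 0 ↔
      cq r k (fun p => g.1 p a) =
        cq r k (fun p => (1 : Matrix (Fin (cm r k)) (Fin (cm r k)) R) p a) := by
    intro a
    rw [map_sub, q3a_map_q, q3a_map_q, sub_eq_zero]
    simp only [hX, hO]
  have e3 : φ ((Matrix.of X).det - 1) = 0 ↔ g.1.det = 1 := by
    rw [map_sub, map_one, sub_eq_zero, RingHom.map_det]
    have : φ.mapMatrix (Matrix.of X) = g.1 := by
      ext p a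
      exact hX p a
    rw [this]
  show ((∀ x y, cB r k (g.1 *ᵥ x) (g.1 *ᵥ y) = cB r k x y) ∧
    (k ≠ 1 → (∀ x, cq r k (g.1 *ᵥ x) = cq r k x) ∧ g.1.det = 1)) ↔ _
  constructor
  · rintro ⟨h1, h2⟩ P hP
    rw [hφ]
    rcases hP with ⟨a, b, rfl⟩ | ⟨hk1, ⟨a, rfl⟩ | rfl⟩
    · exact (e1 a b).2 ((q3a_B_iff r k g.1).1 h1 a b)
    · exact (e2 a).2 ((q3a_q_iff r k hk1 g.1 h1).1 (h2 hk1).1 a)
    · exact e3.2 (h2 hk1).2
  · intro h
    have h1 : ∀ x y, cB r k (g.1 *ᵥ x) (g.1 *ᵥ y) = cB r k x y :=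
      (q3a_B_iff r k g.1).2 fun a b => (e1 a b).1 (h _ (Or.inl ⟨a, b, rfl⟩))
    refine ⟨h1, fun hk1 => ⟨?_, ?_⟩⟩
    · exact (q3a_q_iff r k hk1 g.1 h1).2 fun a => (e2 a).1 (h _ (Or.inr ⟨hk1, Or.inl ⟨a, rfl⟩⟩))
    · exact e3.1 (h _ (Or.inr ⟨hk1, Or.inr rfl⟩))

end Pool.Agent.CHV.Q3
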