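import Pool.Agent.CHV.Q2b
import Pool.Agent.CHV.I1

/-! # CHV, row Q4a: rank one relations -/

set_option autoImplicit false

namespace Pool.Agent.CHV.Q4

open Matrix

variable (r k : ℕ)

private theorem q4a_ev_ev (a b : ℕ) (hb : b < r) :
    ev r a ⬝ᵥ ev r b = if a = b then 1 else 0 := by
  have h1 : ev r b = Pi.single (⟨b, hb⟩ : Fin r) 1 := by
    ext j
    simp only [ev, Pi.single_apply, Fin.ext_iff]
  rw [h1, dotProduct_single, mul_one]
  simp only [ev]
  by_cases h : a = b
  · rw [if_pos h, if_pos h.symm]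
  · rw [if_neg h, if_neg (fun e => h e.symm)]

private theorem q4a_rev (p : Fin (cm r k)) :
    ((p.rev : Fin (cm r k)) : ℕ) = cm r k - (p + 1) := Fin.val_rev p

private theorem q4a_nE_mul (m a b c d : ℕ) (hb : b < m) :
    nE m a b * nE m c d = if b = c then nE m a d else 0 := by
  ext p q
  rw [Matrix.mul_apply, Finset.sum_eq_single (⟨b, hb⟩ : Fin m)]
  · unfold nE
    split_ifs <;> simp_all
  · intro l _ hl
    have : (l : ℕ) ≠ b := fun e => hl (Fin.ext e)
    simp [nE, this]
  · intro h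
    exact absurd (Finset.mem_univ _) h

private theorem q4a_nE_tr (m a b : ℕ) : (nE m a b)ᵀ = nE m b a := by
  ext p q
  simp only [Matrix.transpose_apply, nE]
  by_cases h : (q : ℕ) = a ∧ (p : ℕ) = b
  · rw [if_pos h, if_pos ⟨h.2, h.1⟩]
  · rw [if_neg h, if_neg (fun e => h ⟨e.2, e.1⟩)]

private theorem q4a_nE_map (R : Type) [CommRing R] (m a : ℕ) (p q : Fin m) :
    ((nE m a a).map (Int.castRingHom R)) p q = if p = q then (if (p : ℕ) = a then 1 else 0)
      else 0 := by
  simp only [Matrix.map_apply, nE]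
  by_cases h : p = q
  · subst h
    by_cases h' : (p : ℕ) = a
    · simp [h']
    · simp [h']
  · rw [if_neg h]
    have : ¬ ((p : ℕ) = a ∧ (q : ℕ) = a) := fun e => h (Fin.ext (e.1.trans e.2.symm))
    simp [this]

private theorem q4a_prod_zpow {G : Type} [CommGroup G] {ι : Type} (c : G) (s : Finset ι)
    (f : ι → ℤ) : ∏ j ∈ s, c ^ f j = c ^ ∑ j ∈ s, f j := by
  classical
  induction s using Finset.induction_on with
  | empty => simp
  | insert a s ha ih => rw [Finset.prod_insert ha, Finset.sum_insert ha, ih, _root_.zpow_add]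

private theorem q4a_tor (hk : k ≤ 2) (hr : k = 0 → 2 ≤ r) (R : Type) [CommRing R] (i : Fin r)
    (c : Rˣ) (p q : Fin (cm r k)) :
    ((cWD r k hk hr).tor R (cochar (cal r k i) c)).1 p q =
      if p = q then ((c ^ (cchi r k p ⬝ᵥ cal r k i) : Rˣ) : R) else 0 := by
  have h1 : ((cWD r k hk hr).tor R (cochar (cal r k i) c)).1 p q =
      (Matrix.diagonal fun p => ((char (cchi r k p) (cochar (cal r k i) c) : Rˣ) : R)) p q := rfl
  rw [h1, Matrix.diagonal_apply]
  by_cases h : p = q
  · rw [if_pos h, if_pos h]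
    congr 1
    unfold char cochar
    rw [dotProduct]
    have h2 : ∀ j, (c ^ cal r k i j) ^ cchi r k p j = c ^ (cchi r k p j * cal r k i j) := by
      intro j
      rw [← _root_.zpow_mul, mul_comm]
    simp only [h2]
    exact q4a_prod_zpow c _ _
  · rw [if_neg h, if_neg h]

/-- [CHV-Q4a] The pairings `cchi p ⬝ cal i`: `1` for `p = ca`, `rev cb`, `-1` for `p = cb`, `rev ca`,
`0` otherwise, if `i + 1 < r` or `k = 0`. Proof: by cases. -/
theorem chi_cal (hk : k ≤ 2) (hr : k = 0 → 2 ≤ r) (i : Fin r) (h : (i : ℕ) + 1 < r ∨ k = 0)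
    (p : Fin (cm r k)) : cchi r k p ⬝ᵥ cal r k i =
      if (p : ℕ) = ca r k i ∨ (p : ℕ) = cm r k - 1 - cb r k i then 1
      else if (p : ℕ) = cb r k i ∨ (p : ℕ) = cm r k - 1 - ca r k i then -1 else 0 := by
  have hi := i.2
  have hp := p.2
  have hcm : cm r k = 2 * r + (if k = 2 then 1 else 0) := rfl
  have hrev := q4a_rev r k p
  by_cases h1 : (i : ℕ) + 1 < r
  · simp only [cchi, cal, if_pos h1, sub_dotProduct, dotProduct_sub, q4a_ev_ev r _ _ h1,
      q4a_ev_ev r _ _ hi, hrev, ca, cb]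
    by_cases hk2 : k = 2
    · rw [if_pos hk2] at hcm
      split_ifs <;> omega
    · rw [if_neg hk2] at hcm
      split_ifs <;> omega
  · obtain rfl : k = 0 := by
      rcases h with h | h
      · exact absurd h h1
      · exact h
    have hr2 := hr rfl
    have e1 : r - 1 < r := by omega
    have e2 : r - 2 < r := by omega
    simp only [cchi, cal, if_neg h1, sub_dotProduct, dotProduct_add,
      q4a_ev_ev r _ _ e1, q4a_ev_ev r _ _ e2, hrev, ca, cb, true_or, if_true]
    rw [if_neg (by omega)] at hcm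
    split_ifs <;> omega

/-- [CHV-Q4a] The last root for `k > 0`: the pairings are `k` for `p = r - 1`, `-k` for
`p = m - r`, `0` otherwise. -/
theorem chi_cal' (hk : k ≤ 2) (i : Fin r) (h : (i : ℕ) + 1 = r) (h0 : k ≠ 0)
    (p : Fin (cm r k)) : cchi r k p ⬝ᵥ cal r k i =
      if (p : ℕ) = r - 1 then (k : ℤ) else if (p : ℕ) = cm r k - r then -(k : ℤ) else 0 := by
  have hi := i.2
  have hp := p.2
  have hcm : cm r k = 2 * r + (if k = 2 then 1 else 0) := rfl
  have hrev := q4a_rev r k p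
  have h1 : ¬ (i : ℕ) + 1 < r := by omega
  have e1 : r - 1 < r := by omega
  simp only [cchi, cal, if_neg h1, if_neg h0, sub_dotProduct, dotProduct_smul,
    q4a_ev_ev r _ _ e1, hrev, smul_eq_mul]
  by_cases hk2 : k = 2
  · rw [if_pos hk2] at hcm
    split_ifs <;> omega
  · rw [if_neg hk2] at hcm
    split_ifs <;> omega

/-- [CHV-Q4a] Proof: `(tor (cochar al c)) p p = c ^ (cchi p ⬝ al)`; compare with
`1 + (c - 1) E Eᵀ + (c⁻¹ - 1) Eᵀ E`, where `E Eᵀ = nE a a + nE b' b'`, `Eᵀ E = nE b b + nE a' a'`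
(`E = nE a b` for `k = 1`, last). -/
theorem tor_sl2 (hk : k ≤ 2) (hr : k = 0 → 2 ≤ r) (R : Type) [CommRing R] (i : Fin r)
    (h : (i : ℕ) + 1 < r ∨ k ≠ 2) (c : Rˣ) :
    ((cWD r k hk hr).tor R (cochar (cal r k i) c)).1 =
      1 + ((c : R) - 1) • ((cE r k i * (cE r k i)ᵀ).map (Int.castRingHom R)) +
        (((c⁻¹ : Rˣ) : R) - 1) • (((cE r k i)ᵀ * cE r k i).map (Int.castRingHom R)) := by
  have hi := i.2
  have hcm : cm r k = 2 * r + (if k = 2 then 1 else 0) := rfl
  by_cases hA : (i : ℕ) + 1 < r ∨ k = 0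
  · have ha := Q2.ca_lt r k hk i
    have hb := Q2.cb_lt r k hk i
    obtain ⟨a, hae⟩ : ∃ a, a = ca r k i := ⟨_, rfl⟩
    obtain ⟨b, hbe⟩ : ∃ b, b = cb r k i := ⟨_, rfl⟩
    obtain ⟨m, hm⟩ : ∃ m, m = cm r k := ⟨_, rfl⟩
    have hne1 : a ≠ b ∧ a + b ≠ m - 1 ∧ a ≠ m - 1 - a ∧ b ≠ m - 1 - b := by
      rw [hae, hbe, hm, hcm]
      unfold ca cb
      by_cases h1 : (i : ℕ) + 1 < r
      · rw [if_pos h1, if_pos h1]
        split_ifs <;> omega
      · have hk0 : k = 0 := by
          rcases hA with h | h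
          · exact absurd h h1
          · exact h
        have := hr hk0
        rw [if_neg h1, if_neg h1, if_pos hk0, if_pos (Or.inl hk0), if_neg (by omega)]
        omega
    have hE : cE r k i = nE (cm r k) a b - nE (cm r k) (cm r k - 1 - b) (cm r k - 1 - a) := by
      unfold cE
      rw [if_pos hA, hae, hbe]
    have hEE : cE r k i * (cE r k i)ᵀ = nE (cm r k) a a +
        nE (cm r k) (cm r k - 1 - b) (cm r k - 1 - b) := by
      rw [hE, Matrix.transpose_sub, q4a_nE_tr, q4a_nE_tr, sub_mul, mul_sub, mul_sub,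
        q4a_nE_mul _ _ _ _ _ (by omega), q4a_nE_mul _ _ _ _ _ (by omega),
        q4a_nE_mul _ _ _ _ _ (by omega), q4a_nE_mul _ _ _ _ _ (by omega), if_pos rfl,
        if_neg (by omega), if_neg (by omega), if_pos rfl]
      abel
    have hEE' : (cE r k i)ᵀ * cE r k i = nE (cm r k) b b +
        nE (cm r k) (cm r k - 1 - a) (cm r k - 1 - a) := by
      rw [hE, Matrix.transpose_sub, q4a_nE_tr, q4a_nE_tr, sub_mul, mul_sub, mul_sub,
        q4a_nE_mul _ _ _ _ _ (by omega), q4a_nE_mul _ _ _ _ _ (by omega),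
        q4a_nE_mul _ _ _ _ _ (by omega), q4a_nE_mul _ _ _ _ _ (by omega), if_pos rfl,
        if_neg (by omega), if_neg (by omega), if_pos rfl]
      abel
    rw [hEE, hEE']
    ext p q
    rw [q4a_tor, chi_cal r k hk hr i hA p, ← hae, ← hbe]
    simp only [Matrix.add_apply, Matrix.smul_apply, smul_eq_mul, Matrix.map_add _ (map_add _),
      q4a_nE_map, Matrix.one_apply]
    by_cases hpq : p = q
    · simp only [if_pos hpq]
      by_cases c1 : (p : ℕ) = a
      · have n1 : (p : ℕ) ≠ cm r k - 1 - b := by omega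
        have n2 : (p : ℕ) ≠ b := by omega
        have n3 : (p : ℕ) ≠ cm r k - 1 - a := by omega
        simp only [c1, true_or, if_true, zpow_one] at n1 n2 n3 ⊢
        rw [if_neg n1, if_neg n2, if_neg n3]
        ring
      · by_cases c2 : (p : ℕ) = cm r k - 1 - b
        · have n2 : (p : ℕ) ≠ b := by omega
          have n3 : (p : ℕ) ≠ cm r k - 1 - a := by omega
          rw [if_pos (Or.inr c2), if_neg c1, if_pos c2, if_neg n2, if_neg n3, zpow_one]
          ring
        · by_cases c3 : (p : ℕ) = b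
          · have n3 : (p : ℕ) ≠ cm r k - 1 - a := by omega
            rw [if_neg (by tauto), if_pos (Or.inl c3), if_neg c1, if_neg c2, if_pos c3, if_neg n3,
              _root_.zpow_neg_one]
            ring
          · by_cases c4 : (p : ℕ) = cm r k - 1 - a
            · rw [if_neg (by tauto), if_pos (Or.inr c4), if_neg c1, if_neg c2, if_neg c3,
                if_pos c4, _root_.zpow_neg_one]
              ring
            · rw [if_neg (by tauto), if_neg (by tauto), if_neg c1, if_neg c2, if_neg c3,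
                if_neg c4, zpow_zero, Units.val_one]
              ring
    · simp only [if_neg hpq]
      ring
  · have hk0 : k ≠ 0 := fun h' => hA (Or.inr h')
    have h1 : (i : ℕ) + 1 = r := by
      have : ¬ (i : ℕ) + 1 < r := fun h' => hA (Or.inl h')
      omega
    have hk2 : k ≠ 2 := by
      rcases h with h | h
      · omega
      · exact h
    have hk1 : k = 1 := by omega
    rw [if_neg hk2] at hcm
    have hE : cE r k i = nE (cm r k) (r - 1) r := by
      unfold cE
      rw [if_neg hA, if_pos hk1]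
    have hEE : cE r k i * (cE r k i)ᵀ = nE (cm r k) (r - 1) (r - 1) := by
      rw [hE, q4a_nE_tr, q4a_nE_mul _ _ _ _ _ (by omega), if_pos rfl]
    have hEE' : (cE r k i)ᵀ * cE r k i = nE (cm r k) r r := by
      rw [hE, q4a_nE_tr, q4a_nE_mul _ _ _ _ _ (by omega), if_pos rfl]
    rw [hEE, hEE']
    ext p q
    rw [q4a_tor, chi_cal' r k hk i h1 hk0 p]
    simp only [Matrix.add_apply, Matrix.smul_apply, smul_eq_mul, q4a_nE_map, Matrix.one_apply]
    by_cases hpq : p = q
    · simp only [if_pos hpq]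
      have e1 : (k : ℤ) = 1 := by rw [hk1]; rfl
      have e2 : cm r k - r = r := by omega
      rw [e1, e2]
      by_cases c1 : (p : ℕ) = r - 1
      · have n1 : (p : ℕ) ≠ r := by omega
        rw [if_pos c1, if_pos c1, if_neg n1, zpow_one]
        ring
      · by_cases c2 : (p : ℕ) = r
        · rw [if_neg c1, if_pos c2, if_neg c1, if_pos c2, _root_.zpow_neg_one]
          ring
        · rw [if_neg c1, if_neg c2, if_neg c1, if_neg c2, zpow_zero, Units.val_one]
          ring
    · simp only [if_neg hpq]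
      ring

/-- [CHV-Q4a] -/
theorem tor_so3 (hk : k ≤ 2) (hr : k = 0 → 2 ≤ r) (R : Type) [CommRing R] (i : Fin r)
    (h : (i : ℕ) + 1 = r) (h2 : k = 2) (c : Rˣ) :
    ((cWD r k hk hr).tor R (cochar (cal r k i) c)).1 =
      1 + ((c : R) ^ 2 - 1) • ((nE (cm r k) (r - 1) (r - 1)).map (Int.castRingHom R)) +
        (((c⁻¹ : Rˣ) : R) ^ 2 - 1) • ((nE (cm r k) (r + 1) (r + 1)).map (Int.castRingHom R)) := by
  have hi := i.2
  have hcm : cm r k = 2 * r + (if k = 2 then 1 else 0) := rfl
  rw [if_pos h2] at hcm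
  have hk0 : k ≠ 0 := by omega
  ext p q
  rw [q4a_tor, chi_cal' r k hk i h hk0 p]
  simp only [Matrix.add_apply, Matrix.smul_apply, smul_eq_mul, q4a_nE_map, Matrix.one_apply]
  by_cases hpq : p = q
  · simp only [if_pos hpq]
    have e1 : (k : ℤ) = 2 := by rw [h2]; rfl
    have e2 : cm r k - r = r + 1 := by omega
    rw [e1, e2]
    have z1 : ((c ^ (2 : ℤ) : Rˣ) : R) = (c : R) ^ 2 := by
      rw [← Units.val_pow_eq_pow_val]; rfl
    have z2 : ((c ^ (-2 : ℤ) : Rˣ) : R) = ((c⁻¹ : Rˣ) : R) ^ 2 := by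
      rw [← Units.val_pow_eq_pow_val, _root_.zpow_neg, inv_pow]; rfl
    by_cases c1 : (p : ℕ) = r - 1
    · have n1 : (p : ℕ) ≠ r + 1 := by omega
      rw [if_pos c1, if_pos c1, if_neg n1, z1]
      ring
    · by_cases c2 : (p : ℕ) = r + 1
      · rw [if_neg c1, if_pos c2, if_neg c1, if_pos c2, z2]
        ring
      · rw [if_neg c1, if_neg c2, if_neg c1, if_neg c2, zpow_zero, Units.val_one]
        ring
  · simp only [if_neg hpq]
    ring

end Pool.Agent.CHV.Q4
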