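import Pool.Agent.CHV.Q2b
import Pool.Agent.CHV.I1

/-! # CHV, row Q5a: kernels of the coordinates; diagonal matrices -/

set_option autoImplicit false

namespace Pool.Agent.CHV.Q5

open Matrix

variable (r k : ℕ)

theorem q5a_ar10 {r m p q i : ℕ} {Hp Hq Ap Aq : ℤ}
    (hm : m = 2 * r) (hp : p < m) (hq : q < m) (hi : i + 1 < r)
    (zp : (p < r ∧ Hp = (r : ℤ) - p - 1) ∨ (r ≤ p ∧ Hp = (r : ℤ) - p))
    (zq : (q < r ∧ Hq = (r : ℤ) - q - 1) ∨ (r ≤ q ∧ Hq = (r : ℤ) - q))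
    (ap : (p = i ∧ Ap = 1) ∨ (p + i + 2 = m ∧ Ap = 1) ∨ (p = i + 1 ∧ Ap = -1) ∨
      (p + i + 1 = m ∧ Ap = -1) ∨ (p ≠ i ∧ p ≠ i + 1 ∧ p + i + 1 ≠ m ∧ p + i + 2 ≠ m ∧ Ap = 0))
    (aq : (q = i ∧ Aq = 1) ∨ (q + i + 2 = m ∧ Aq = 1) ∨ (q = i + 1 ∧ Aq = -1) ∨
      (q + i + 1 = m ∧ Aq = -1) ∨ (q ≠ i ∧ q ≠ i + 1 ∧ q + i + 1 ≠ m ∧ q + i + 2 ≠ m ∧ Aq = 0))
    (h1 : 0 < Hp - Hq) (h2 : ¬ 0 < Hp - Hq - (Ap - Aq)) :
    (p = i ∧ q = i + 1) ∨ (p + i + 2 = m ∧ q + i + 1 = m) ∨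
      (p = r - 2 ∧ q = r + 1 ∧ r ≤ i + 2) := by
  rcases ap with ap | ap | ap | ap | ap <;> rcases aq with aq | aq | aq | aq | aq <;> omega

theorem q5a_ar11 {r m p q i : ℕ} {Hp Hq Ap Aq : ℤ}
    (hm : m = 2 * r) (hp : p < m) (hq : q < m) (hi : i + 1 < r)
    (zp : (p < r ∧ Hp = (r : ℤ) - p) ∨ (r ≤ p ∧ Hp = (r : ℤ) - 1 - p))
    (zq : (q < r ∧ Hq = (r : ℤ) - q) ∨ (r ≤ q ∧ Hq = (r : ℤ) - 1 - q))
    (ap : (p = i ∧ Ap = 1) ∨ (p + i + 2 = m ∧ Ap = 1) ∨ (p = i + 1 ∧ Ap = -1) ∨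
      (p + i + 1 = m ∧ Ap = -1) ∨ (p ≠ i ∧ p ≠ i + 1 ∧ p + i + 1 ≠ m ∧ p + i + 2 ≠ m ∧ Ap = 0))
    (aq : (q = i ∧ Aq = 1) ∨ (q + i + 2 = m ∧ Aq = 1) ∨ (q = i + 1 ∧ Aq = -1) ∨
      (q + i + 1 = m ∧ Aq = -1) ∨ (q ≠ i ∧ q ≠ i + 1 ∧ q + i + 1 ≠ m ∧ q + i + 2 ≠ m ∧ Aq = 0))
    (h1 : 0 < Hp - Hq) (h2 : ¬ 0 < Hp - Hq - (Ap - Aq)) :
    (p = i ∧ q = i + 1) ∨ (p + i + 2 = m ∧ q + i + 1 = m) := by
  rcases ap with ap | ap | ap | ap | ap <;> rcases aq with aq | aq | aq | aq | aq <;> omega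

theorem q5a_ar12 {r m p q i : ℕ} {Hp Hq Ap Aq : ℤ}
    (hm : m = 2 * r + 1) (hp : p < m) (hq : q < m) (hi : i + 1 < r)
    (zp : Hp = (r : ℤ) - p) (zq : Hq = (r : ℤ) - q)
    (ap : (p = i ∧ Ap = 1) ∨ (p + i + 2 = m ∧ Ap = 1) ∨ (p = i + 1 ∧ Ap = -1) ∨
      (p + i + 1 = m ∧ Ap = -1) ∨ (p ≠ i ∧ p ≠ i + 1 ∧ p + i + 1 ≠ m ∧ p + i + 2 ≠ m ∧ Ap = 0))
    (aq : (q = i ∧ Aq = 1) ∨ (q + i + 2 = m ∧ Aq = 1) ∨ (q = i + 1 ∧ Aq = -1) ∨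
      (q + i + 1 = m ∧ Aq = -1) ∨ (q ≠ i ∧ q ≠ i + 1 ∧ q + i + 1 ≠ m ∧ q + i + 2 ≠ m ∧ Aq = 0))
    (h1 : 0 < Hp - Hq) (h2 : ¬ 0 < Hp - Hq - (Ap - Aq)) :
    (p = i ∧ q = i + 1) ∨ (p + i + 2 = m ∧ q + i + 1 = m) := by
  rcases ap with ap | ap | ap | ap | ap <;> rcases aq with aq | aq | aq | aq | aq <;> omega

theorem q5a_ar2 {r m p q : ℕ} {Hp Hq Ap Aq : ℤ} (hm : m = 2 * r) (hp : p < m) (hq : q < m)
    (hr : 2 ≤ r)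
    (zp : (p < r ∧ Hp = (r : ℤ) - p - 1) ∨ (r ≤ p ∧ Hp = (r : ℤ) - p))
    (zq : (q < r ∧ Hq = (r : ℤ) - q - 1) ∨ (r ≤ q ∧ Hq = (r : ℤ) - q))
    (ap : (p + 2 = r ∧ Ap = 1) ∨ (p + 1 = r ∧ Ap = 1) ∨ (p = r ∧ Ap = -1) ∨
      (p = r + 1 ∧ Ap = -1) ∨ (p + 2 ≠ r ∧ p + 1 ≠ r ∧ p ≠ r ∧ p ≠ r + 1 ∧ Ap = 0))
    (aq : (q + 2 = r ∧ Aq = 1) ∨ (q + 1 = r ∧ Aq = 1) ∨ (q = r ∧ Aq = -1) ∨
      (q = r + 1 ∧ Aq = -1) ∨ (q + 2 ≠ r ∧ q + 1 ≠ r ∧ q ≠ r ∧ q ≠ r + 1 ∧ Aq = 0))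
    (h1 : 0 < Hp - Hq) (h2 : ¬ 0 < Hp - Hq - (Ap - Aq)) :
    (p + 2 = r ∧ q = r) ∨ (p + 1 = r ∧ q = r + 1) ∨ (p + 2 = r ∧ q = r + 1) := by
  rcases ap with ap | ap | ap | ap | ap <;> rcases aq with aq | aq | aq | aq | aq <;> omega

theorem q5a_ar31 {r m p q : ℕ} {Hp Hq Ap Aq : ℤ}
    (hm : m = 2 * r) (hp : p < m) (hq : q < m) (hr : 1 ≤ r)
    (zp : (p < r ∧ Hp = (r : ℤ) - p) ∨ (r ≤ p ∧ Hp = (r : ℤ) - 1 - p))
    (zq : (q < r ∧ Hq = (r : ℤ) - q) ∨ (r ≤ q ∧ Hq = (r : ℤ) - 1 - q))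
    (ap : (p + 1 = r ∧ Ap = 1) ∨ (p + r = m ∧ Ap = -1) ∨ (p + 1 ≠ r ∧ p + r ≠ m ∧ Ap = 0))
    (aq : (q + 1 = r ∧ Aq = 1) ∨ (q + r = m ∧ Aq = -1) ∨ (q + 1 ≠ r ∧ q + r ≠ m ∧ Aq = 0))
    (h1 : 0 < Hp - Hq) (h2 : ¬ 0 < Hp - Hq - 2 * (Ap - Aq)) :
    p + 1 = r ∧ q = r := by
  rcases ap with ap | ap | ap <;> rcases aq with aq | aq | aq <;> omega

theorem q5a_ar32 {r m p q : ℕ} {Hp Hq Ap Aq : ℤ}
    (hm : m = 2 * r + 1) (hp : p < m) (hq : q < m) (hr : 1 ≤ r)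
    (zp : Hp = (r : ℤ) - p) (zq : Hq = (r : ℤ) - q)
    (ap : (p + 1 = r ∧ Ap = 1) ∨ (p + r = m ∧ Ap = -1) ∨ (p + 1 ≠ r ∧ p + r ≠ m ∧ Ap = 0))
    (aq : (q + 1 = r ∧ Aq = 1) ∨ (q + r = m ∧ Aq = -1) ∨ (q + 1 ≠ r ∧ q + r ≠ m ∧ Aq = 0))
    (h1 : 0 < Hp - Hq) (h2 : ¬ 0 < Hp - Hq - 2 * (Ap - Aq)) :
    (p + 1 = r ∧ q = r) ∨ (p = r ∧ q = r + 1) ∨ (p + 1 = r ∧ q = r + 1) := by
  rcases ap with ap | ap | ap <;> rcases aq with aq | aq | aq <;> omega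

theorem q5a_z0 (p : Fin (cm r 0)) :
    ((p : ℕ) < r ∧ cchi r 0 p ⬝ᵥ cy r 0 = (r : ℤ) - (p : ℕ) - 1) ∨
    (r ≤ (p : ℕ) ∧ cchi r 0 p ⬝ᵥ cy r 0 = (r : ℤ) - (p : ℕ)) := by
  rw [Q2.chi_cy]
  by_cases h1 : (p : ℕ) < r
  · left
    rw [if_pos h1, if_pos rfl]
    exact ⟨h1, rfl⟩
  · right
    rw [if_neg h1, if_neg (by omega), if_neg (by omega), if_pos rfl]
    exact ⟨not_lt.1 h1, by omega⟩

theorem q5a_z1 (p : Fin (cm r 1)) :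
    ((p : ℕ) < r ∧ cchi r 1 p ⬝ᵥ cy r 1 = (r : ℤ) - (p : ℕ)) ∨
    (r ≤ (p : ℕ) ∧ cchi r 1 p ⬝ᵥ cy r 1 = (r : ℤ) - 1 - (p : ℕ)) := by
  rw [Q2.chi_cy]
  by_cases h1 : (p : ℕ) < r
  · left
    rw [if_pos h1, if_neg (by omega)]
    exact ⟨h1, by omega⟩
  · right
    rw [if_neg h1, if_neg (by omega), if_neg (by omega), if_neg (by omega)]
    exact ⟨not_lt.1 h1, by omega⟩

theorem q5a_z2 (p : Fin (cm r 2)) :
    cchi r 2 p ⬝ᵥ cy r 2 = (r : ℤ) - (p : ℕ) := by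
  rw [Q2.chi_cy]
  by_cases h1 : (p : ℕ) < r
  · rw [if_pos h1, if_neg (by omega)]
    omega
  · by_cases h2 : (p : ℕ) = r
    · rw [if_neg h1, if_pos ⟨rfl, h2⟩]
      omega
    · rw [if_neg h1, if_neg (fun h0 => h2 h0.2), if_pos rfl, if_neg (by omega)]
      omega

theorem q5a_ev (p : Fin (cm r k)) (i : Fin r) : cchi r k p ⬝ᵥ ev r i =
    (if (i : ℕ) = (p : ℕ) then 1 else 0) - if (i : ℕ) = cm r k - ((p : ℕ) + 1) then 1 else 0 := by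
  rw [N2.n2_dot]
  unfold cchi
  rw [Pi.sub_apply]
  have h1 : ((p.rev : Fin (cm r k)) : ℕ) = cm r k - ((p : ℕ) + 1) := Fin.val_rev p
  show (if (i : ℕ) = (p : ℕ) then (1 : ℤ) else 0) -
    (if (i : ℕ) = ((p.rev : Fin (cm r k)) : ℕ) then 1 else 0) = _
  rw [h1]

theorem q5a_A1 (p : Fin (cm r k)) {i j : Fin r} (hj : (j : ℕ) = i + 1)
    (hal : cal r k i = ev r i - ev r j) :
    (((p : ℕ) = i ∧ cchi r k p ⬝ᵥ cal r k i = 1) ∨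
        ((p : ℕ) + i + 2 = cm r k ∧ cchi r k p ⬝ᵥ cal r k i = 1) ∨
        ((p : ℕ) = i + 1 ∧ cchi r k p ⬝ᵥ cal r k i = -1) ∨
        ((p : ℕ) + i + 1 = cm r k ∧ cchi r k p ⬝ᵥ cal r k i = -1) ∨
        ((p : ℕ) ≠ i ∧ (p : ℕ) ≠ i + 1 ∧ (p : ℕ) + i + 1 ≠ cm r k ∧ (p : ℕ) + i + 2 ≠ cm r k ∧
          cchi r k p ⬝ᵥ cal r k i = 0)) := by
  have hp := p.2
  have hjr := j.2
  have hm2 : 2 * r ≤ cm r k := Nat.le_add_right _ _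
  rw [hal, dotProduct_sub, q5a_ev, q5a_ev, hj]
  split_ifs <;> omega

theorem q5a_A2 (p : Fin (cm r 0)) {i j : Fin r} (hi' : (i : ℕ) + 1 = r) (hj : (j : ℕ) + 2 = r)
    (hal : cal r 0 i = ev r j + ev r i) :
    (((p : ℕ) + 2 = r ∧ cchi r 0 p ⬝ᵥ cal r 0 i = 1) ∨
        ((p : ℕ) + 1 = r ∧ cchi r 0 p ⬝ᵥ cal r 0 i = 1) ∨
        ((p : ℕ) = r ∧ cchi r 0 p ⬝ᵥ cal r 0 i = -1) ∨
        ((p : ℕ) = r + 1 ∧ cchi r 0 p ⬝ᵥ cal r 0 i = -1) ∨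
        ((p : ℕ) + 2 ≠ r ∧ (p : ℕ) + 1 ≠ r ∧ (p : ℕ) ≠ r ∧ (p : ℕ) ≠ r + 1 ∧
          cchi r 0 p ⬝ᵥ cal r 0 i = 0)) := by
  have hp := p.2
  have hm' : cm r 0 = 2 * r := rfl
  rw [hal, dotProduct_add, q5a_ev, q5a_ev]
  split_ifs <;> omega

theorem q5a_A3 (p : Fin (cm r k)) {i : Fin r} (hi' : (i : ℕ) + 1 = r) :
    (((p : ℕ) + 1 = r ∧ cchi r k p ⬝ᵥ ev r i = 1) ∨
        ((p : ℕ) + r = cm r k ∧ cchi r k p ⬝ᵥ ev r i = -1) ∨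
        ((p : ℕ) + 1 ≠ r ∧ (p : ℕ) + r ≠ cm r k ∧ cchi r k p ⬝ᵥ ev r i = 0)) := by
  have hp := p.2
  have hm2 : 2 * r ≤ cm r k := Nat.le_add_right _ _
  rw [q5a_ev]
  split_ifs <;> omega

theorem q5a_crt (hk : k ≤ 2) (hr : k = 0 → 2 ≤ r) (i : Fin r)
    (h : cal r k i ⬝ᵥ cal r k i = 2) (h5 : cal r k i ⬝ᵥ cy r k = 1) :
    crt r (cal r k i) ⬝ᵥ cy r k = 1 := by
  have hmul := N1.crt_mul r k hk (N2.cal_mem r k hr i)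
  have hpair := N1.n1_pair r hmul (cy r k)
  rw [h, h5] at hpair
  omega

theorem q5a_crit1 (hk : k ≤ 2) (hr : k = 0 → 2 ≤ r) (i : Fin r) (p q : Fin (cm r k))
    (h1 : 0 < (cchi r k p - cchi r k q) ⬝ᵥ cy r k)
    (h2 : ¬ 0 < (cchi r k p - cchi r k q) ⬝ᵥ
      (cy r k - (crt r (cal r k i) ⬝ᵥ cy r k) • cal r k i))
    {j : Fin r} (hj : (j : ℕ) = i + 1) (hal : cal r k i = ev r i - ev r j) :
    ((p : ℕ) = i ∧ (q : ℕ) = i + 1) ∨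
    ((p : ℕ) + i + 2 = cm r k ∧ (q : ℕ) + i + 1 = cm r k) ∨
    (k = 0 ∧ (p : ℕ) = r - 2 ∧ (q : ℕ) = r + 1 ∧ r ≤ i + 2) := by
  have hcy : ∀ a : Fin r, cy r k a = (r : ℤ) - (a : ℕ) - (if k = 0 then 1 else 0) := fun a => rfl
  have hev : ∀ (a b : Fin r), ev r a b = if (b : ℕ) = (a : ℕ) then 1 else 0 := fun a b => rfl
  have hn : cal r k i ⬝ᵥ cal r k i = 2 := by
    rw [hal, dotProduct_sub, N2.n2_dot, N2.n2_dot, Pi.sub_apply, Pi.sub_apply, hev, hev, hev,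
      hev]
    split_ifs <;> omega
  have h5 : cal r k i ⬝ᵥ cy r k = 1 := by
    rw [hal, dotProduct_comm, dotProduct_sub, N2.n2_dot, N2.n2_dot, hcy, hcy]
    omega
  have h6 := q5a_crt r k hk hr i hn h5
  rw [sub_dotProduct] at h1
  rw [dotProduct_sub, dotProduct_smul, sub_dotProduct, sub_dotProduct, h6, smul_eq_mul,
    one_mul] at h2
  have ap := q5a_A1 r k p hj hal
  have aq := q5a_A1 r k q hj hal
  have hjr := j.2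
  rcases (show k = 0 ∨ k = 1 ∨ k = 2 by omega) with rfl | rfl | rfl
  · rcases q5a_ar10 (m := cm r 0) rfl p.2 q.2 (by omega) (q5a_z0 r p) (q5a_z0 r q) ap aq h1 h2
      with h | h | h
    · exact Or.inl h
    · exact Or.inr (Or.inl h)
    · exact Or.inr (Or.inr ⟨rfl, h⟩)
  · rcases q5a_ar11 (m := cm r 1) rfl p.2 q.2 (by omega) (q5a_z1 r p) (q5a_z1 r q) ap aq h1 h2
      with h | h
    · exact Or.inl h
    · exact Or.inr (Or.inl h)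
  · rcases q5a_ar12 (m := cm r 2) rfl p.2 q.2 (by omega) (q5a_z2 r p) (q5a_z2 r q) ap aq h1 h2
      with h | h
    · exact Or.inl h
    · exact Or.inr (Or.inl h)

theorem q5a_crit2 (hr : 2 ≤ r) (i : Fin r) (p q : Fin (cm r 0))
    (h1 : 0 < (cchi r 0 p - cchi r 0 q) ⬝ᵥ cy r 0)
    (h2 : ¬ 0 < (cchi r 0 p - cchi r 0 q) ⬝ᵥ
      (cy r 0 - (crt r (cal r 0 i) ⬝ᵥ cy r 0) • cal r 0 i))
    (hi' : (i : ℕ) + 1 = r) {j : Fin r} (hj : (j : ℕ) + 2 = r)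
    (hal : cal r 0 i = ev r j + ev r i) :
    ((p : ℕ) + 2 = r ∧ (q : ℕ) = r) ∨ ((p : ℕ) + 1 = r ∧ (q : ℕ) = r + 1) ∨
      ((p : ℕ) + 2 = r ∧ (q : ℕ) = r + 1) := by
  have hcy : ∀ a : Fin r, cy r 0 a = (r : ℤ) - (a : ℕ) - 1 := fun a => rfl
  have hev : ∀ (a b : Fin r), ev r a b = if (b : ℕ) = (a : ℕ) then 1 else 0 := fun a b => rfl
  have hn : cal r 0 i ⬝ᵥ cal r 0 i = 2 := by
    rw [hal, dotProduct_add, N2.n2_dot, N2.n2_dot, Pi.add_apply, Pi.add_apply, hev, hev, hev,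
      hev]
    split_ifs <;> omega
  have h5 : cal r 0 i ⬝ᵥ cy r 0 = 1 := by
    rw [hal, dotProduct_comm, dotProduct_add, N2.n2_dot, N2.n2_dot, hcy, hcy]
    omega
  have h6 := q5a_crt r 0 (by norm_num) (fun _ => hr) i hn h5
  rw [sub_dotProduct] at h1
  rw [dotProduct_sub, dotProduct_smul, sub_dotProduct, sub_dotProduct, h6, smul_eq_mul,
    one_mul] at h2
  exact q5a_ar2 (m := cm r 0) rfl p.2 q.2 hr (q5a_z0 r p) (q5a_z0 r q)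
    (q5a_A2 r p hi' hj hal) (q5a_A2 r q hi' hj hal) h1 h2

theorem q5a_pair3 (hk : k ≤ 2) (hr : k = 0 → 2 ≤ r) (i : Fin r) (p q : Fin (cm r k))
    (h2 : ¬ 0 < (cchi r k p - cchi r k q) ⬝ᵥ
      (cy r k - (crt r (cal r k i) ⬝ᵥ cy r k) • cal r k i)) (hk0 : 0 < k)
    (hi' : (i : ℕ) + 1 = r) (hal : cal r k i = (k : ℤ) • ev r i) :
    ¬ 0 < cchi r k p ⬝ᵥ cy r k - cchi r k q ⬝ᵥ cy r k -
      2 * (cchi r k p ⬝ᵥ ev r i - cchi r k q ⬝ᵥ ev r i) := by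
  have hk0' : ¬ k = 0 := by omega
  have hmul := N1.crt_mul r k hk (N2.cal_mem r k hr i)
  have hpair := N1.n1_pair r hmul (cy r k)
  have hcy : ∀ a : Fin r, cy r k a = (r : ℤ) - (a : ℕ) - (if k = 0 then 1 else 0) := fun a => rfl
  have hev : ∀ (a b : Fin r), ev r a b = if (b : ℕ) = (a : ℕ) then 1 else 0 := fun a b => rfl
  have hn : cal r k i ⬝ᵥ cal r k i = (k : ℤ) * k := by
    rw [hal, dotProduct_smul, N2.n2_dot, Pi.smul_apply, hev, if_pos rfl, smul_eq_mul,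
      smul_eq_mul, mul_one]
  have h5 : cal r k i ⬝ᵥ cy r k = k := by
    rw [hal, dotProduct_comm, dotProduct_smul, N2.n2_dot, hcy, if_neg hk0', smul_eq_mul,
      show (r : ℤ) - (i : ℕ) - 0 = 1 by omega, mul_one]
  have h6 : crt r (cal r k i) ⬝ᵥ cy r k * k = 2 := by
    rw [hn, h5] at hpair
    have hk' : (k : ℤ) ≠ 0 := by omega
    apply mul_left_cancel₀ hk'
    linarith [hpair, show (k : ℤ) * (crt r (cal r k i) ⬝ᵥ cy r k * k) =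
      k * k * (crt r (cal r k i) ⬝ᵥ cy r k) by ring]
  have e2 : ∀ p : Fin (cm r k), cchi r k p ⬝ᵥ cal r k i = k * (cchi r k p ⬝ᵥ ev r i) := by
    intro p
    rw [hal, dotProduct_smul, smul_eq_mul]
  rw [dotProduct_sub, dotProduct_smul, sub_dotProduct, sub_dotProduct, e2, e2, smul_eq_mul] at h2
  have e3 : crt r (cal r k i) ⬝ᵥ cy r k *
      ((k : ℤ) * (cchi r k p ⬝ᵥ ev r i) - k * (cchi r k q ⬝ᵥ ev r i)) =
      2 * (cchi r k p ⬝ᵥ ev r i - cchi r k q ⬝ᵥ ev r i) := by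
    rw [← h6]
    ring
  rw [e3] at h2
  exact h2

/-- [CHV-Q5] The positions of which the order is changed by a simple reflection. Proof:
`Q2.chi_cy` and the pairings of the weights with `cal i` (`cy' = cy - (crt al ⬝ cy) al`, where
`crt al ⬝ cy = 1`, or `2` for `k = 1`, last). Pair type: the pairing with `cy'` is the pairing with
`cy` plus `δ`, `δ = -1` for `a`, `b'`, `+1` for `b`, `a'`, `0` otherwise (`'` is `rev`); so `p, q`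
with `h p - h q ≥ 1`, `h p - h q + δ p - δ q ≤ 0` must be `(a, b)`, `(b', a')`, or `(a, a')` if
`h a = 1` (only `k = 0`, `a = r - 2`). (All checked by a computer for `r ≤ 3`.) -/
theorem crit (hk : k ≤ 2) (hr : k = 0 → 2 ≤ r) (i : Fin r) (p q : Fin (cm r k))
    (h1 : 0 < (cchi r k p - cchi r k q) ⬝ᵥ cy r k)
    (h2 : ¬ 0 < (cchi r k p - cchi r k q) ⬝ᵥ
      (cy r k - (crt r (cal r k i) ⬝ᵥ cy r k) • cal r k i)) :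
    ((p : ℕ) = ca r k i ∧ (q : ℕ) = cb r k i) ∨
    ((p : ℕ) = cm r k - 1 - cb r k i ∧ (q : ℕ) = cm r k - 1 - ca r k i) ∨
    (k = 0 ∧ (p : ℕ) = r - 2 ∧ (q : ℕ) = r + 1 ∧ r ≤ i + 2) ∨
    (k = 2 ∧ (i : ℕ) + 1 = r ∧ (p : ℕ) = r - 1 ∧ (q : ℕ) = r + 1) := by
  have hi := i.2
  rcases N2.n2_cal r k hr i with ⟨j, hj, hal⟩ | ⟨hk0, hi', j, hj, hal⟩ | ⟨hk0, hi', hal⟩
  · have hjr := j.2
    have hij : (i : ℕ) + 1 < r := by omega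
    have hca : ca r k i = i := by
      unfold ca
      rw [if_pos hij]
    have hcb : cb r k i = i + 1 := by
      unfold cb
      rw [if_pos hij]
    rw [hca, hcb]
    rcases q5a_crit1 r k hk hr i p q h1 h2 hj hal with h | h | h
    · exact Or.inl h
    · exact Or.inr (Or.inl (by omega))
    · exact Or.inr (Or.inr (Or.inl h))
  · subst hk0
    have hm' : cm r 0 = 2 * r := rfl
    have hca : ca r 0 i = r - 2 := by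
      unfold ca
      rw [if_neg (by omega), if_pos rfl]
    have hcb : cb r 0 i = r := by
      unfold cb
      rw [if_neg (by omega), if_pos (Or.inl rfl)]
    rw [hca, hcb]
    rcases q5a_crit2 r (hr rfl) i p q h1 h2 hi' hj hal with h | h | h
    · exact Or.inl (by omega)
    · exact Or.inr (Or.inl (by omega))
    · exact Or.inr (Or.inr (Or.inl (by omega)))
  · have h2' := q5a_pair3 r k hk hr i p q h2 hk0 hi' hal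
    rw [sub_dotProduct] at h1
    rcases (show k = 1 ∨ k = 2 by omega) with rfl | rfl
    · have hca : ca r 1 i = r - 1 := by
        unfold ca
        rw [if_neg (by omega), if_neg (by omega), if_pos rfl]
      have hcb : cb r 1 i = r := by
        unfold cb
        rw [if_neg (by omega), if_pos (Or.inr rfl)]
      rw [hca, hcb]
      have h := q5a_ar31 (m := cm r 1) rfl p.2 q.2 (by omega) (q5a_z1 r p) (q5a_z1 r q)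
        (q5a_A3 r 1 p hi') (q5a_A3 r 1 q hi') h1 h2'
      exact Or.inl (by omega)
    · have hm' : cm r 2 = 2 * r + 1 := rfl
      have hca : ca r 2 i = r := by
        unfold ca
        rw [if_neg (by omega), if_neg (by omega), if_neg (by omega)]
      have hcb : cb r 2 i = r + 1 := by
        unfold cb
        rw [if_neg (by omega), if_neg (by omega)]
      rw [hca, hcb]
      rcases q5a_ar32 (m := cm r 2) rfl p.2 q.2 (by omega) (q5a_z2 r p) (q5a_z2 r q)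
        (q5a_A3 r 2 p hi') (q5a_A3 r 2 q hi') h1 h2' with h | h | h
      · exact Or.inr (Or.inl (by omega))
      · exact Or.inl h
      · exact Or.inr (Or.inr (Or.inr (by omega)))

end Pool.Agent.CHV.Q5
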