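import Pool.Agent.CHV.Q3

/-! # CHV, row Q6a: elimination in the classical groups: triangular matrices -/

set_option autoImplicit false

namespace Pool.Agent.CHV.Q6

open Matrix

/-- The first `c` columns are upper triangular. -/
def Tri {m : ℕ} {F : Type} [Field F] (g : Matrix (Fin m) (Fin m) F) (c : ℕ) : Prop :=
  ∀ p q : Fin m, (q : ℕ) < c → (q : ℕ) < p → g p q = 0

variable (r k : ℕ)

/-- The pairing of the columns `j` and `q`. -/
theorem q6_col {R : Type} [CommRing R] (g : GL (Fin (cm r k)) R)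
    (hg : g ∈ cG r k R) (j q : Fin (cm r k)) :
    ∑ p : Fin (cm r k), (csig r k p : R) * g.1 p j * g.1 p.rev q =
      if q = j.rev then (csig r k j : R) else 0 := by
  have h1 := hg.1 (Pi.single j 1) (Pi.single q 1)
  rw [Q3.q3_single_left, Matrix.mulVec_single_one, Matrix.mulVec_single_one] at h1
  unfold cB at h1
  simp only [Matrix.col_apply] at h1
  rw [h1, mul_one, Pi.single_apply]
  by_cases h : q = j.rev
  · rw [if_pos h, if_pos h.symm, mul_one]
  · rw [if_neg h, if_neg (Ne.symm h), mul_zero]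

theorem q6_csig {F : Type} [Field F] [CharZero F] (p : Fin (cm r k)) : (csig r k p : F) ≠ 0 := by
  unfold csig
  split_ifs <;> simp

/-- [CHV-Q6a] Proof: by induction on `c`, both statements. Let `m = cm r k`, `σ_l = csig l ≠ 0`
(characteristic `0`), and `e_q = Pi.single q 1`, so `g e_q` is the column `q`. First statement for
`c + 1`: for `q + c + 1 < m` and `j ≤ c`, `0 = cB (g e_j) (g e_q) = ∑_{l ≤ j} σ_l g l j * g (rev l) q`
and the terms with `l < j` vanish by the statement for `c`, so `g j j * g (rev j) q = 0`. Second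
statement: `± 1 = cB (g e_j) (g e_{rev j}) = ∑_{l ≤ j} σ_l g l j * g (rev l) (rev j)`, where the terms
with `l < j` vanish by the first statement for `j`. -/
theorem orth (hk : k ≤ 2) {F : Type} [Field F] [CharZero F] (g : GL (Fin (cm r k)) F)
    (hg : g ∈ cG r k F) (c : ℕ) (hc : c ≤ r) (hT : Tri g.1 c) :
    (∀ p q : Fin (cm r k), (q : ℕ) + c < cm r k → cm r k ≤ (p : ℕ) + c → g.1 p q = 0) ∧
    (∀ q : Fin (cm r k), (q : ℕ) < c → g.1 q q ≠ 0 ∧ g.1 q q * g.1 q.rev q.rev = 1) := by
  have hm := Q3.q3_cm r k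
  induction c with
  | zero => exact ⟨fun p q _ h => absurd p.2 (by omega), fun q h => absurd h (by omega)⟩
  | succ c ih =>
    obtain ⟨ih1, ih2⟩ := ih (by omega) (fun p q h1 h2 => hT p q (by omega) h2)
    have hcm : c < cm r k := by omega
    -- the pairing of the column `c` with another one
    have key : ∀ q : Fin (cm r k), (q : ℕ) + c < cm r k →
        (csig r k (⟨c, hcm⟩ : Fin (cm r k)) : F) * g.1 ⟨c, hcm⟩ ⟨c, hcm⟩ *
          g.1 (⟨c, hcm⟩ : Fin (cm r k)).rev q =
        if q = (⟨c, hcm⟩ : Fin (cm r k)).rev then (csig r k (⟨c, hcm⟩ : Fin (cm r k)) : F) else 0 := by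
      intro q hq
      rw [← q6_col r k g hg ⟨c, hcm⟩ q, Finset.sum_eq_single (⟨c, hcm⟩ : Fin (cm r k))]
      · intro p _ hp
        have hp' : (p : ℕ) ≠ c := fun h => hp (Fin.ext h)
        rcases Nat.lt_or_gt_of_ne hp' with h | h
        · rw [ih1 p.rev q hq (by rw [Fin.val_rev]; omega), mul_zero]
        · rw [hT p ⟨c, hcm⟩ (by simp) h, mul_zero, zero_mul]
      · intro h
        exact absurd (Finset.mem_univ _) h
    have hs := q6_csig (F := F) r k (⟨c, hcm⟩ : Fin (cm r k))
    have h3 : g.1 ⟨c, hcm⟩ ⟨c, hcm⟩ * g.1 (⟨c, hcm⟩ : Fin (cm r k)).rev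
        (⟨c, hcm⟩ : Fin (cm r k)).rev = 1 := by
      have h4 := key (⟨c, hcm⟩ : Fin (cm r k)).rev (by rw [Fin.val_rev]; simp only; omega)
      rw [if_pos rfl, mul_assoc] at h4
      exact mul_left_cancel₀ hs (by rw [h4, mul_one])
    have h5 : g.1 ⟨c, hcm⟩ ⟨c, hcm⟩ ≠ 0 := by
      intro h
      rw [h, zero_mul] at h3
      exact zero_ne_one h3
    refine ⟨fun p q h1 h2 => ?_, fun q h => ?_⟩
    · by_cases h6 : cm r k ≤ (p : ℕ) + c
      · exact ih1 p q (by omega) h6
      · have h7 : p = (⟨c, hcm⟩ : Fin (cm r k)).rev := by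
          ext
          rw [Fin.val_rev]
          simp only
          omega
        have h8 := key q (by omega)
        rw [if_neg (fun h => by rw [h, Fin.val_rev] at h1; simp only at h1; omega)] at h8
        rw [h7]
        exact (mul_eq_zero.1 h8).resolve_left (mul_ne_zero hs h5)
    · by_cases h6 : (q : ℕ) < c
      · exact ih2 q h6
      · have h7 : q = ⟨c, hcm⟩ := Fin.ext (by simp only; omega)
        rw [h7]
        exact ⟨h5, h3⟩

/-- [CHV-Q6a] Proof: let `Tri g r`. For `p > q`: if `q < r`, `g p q = 0` by `Tri`; if `q ≥ r`, use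
`orth` with `c = m - 1 - q ≤ r`. For `k = 0` also `g (r-1) r = 0`:
`0 = cq (g e_r) = g (r-1) r * g r r` (the other terms vanish by `orth`, `c = r - 1`), and
`g r r ≠ 0` by `orth` (`q = r - 1`, `c = r`). The diagonal: `g q q * g (rev q) (rev q) = 1` for
`q < r`; for `k = 2`, `g` is upper triangular and `det g = 1` gives `g r r = 1`
(`Matrix.det_of_upperTriangular`). So with `z j = g j j`, `u = (tor z)⁻¹ * g ∈ cG` is unitriangular
for the order of the weights (`Q2.chi_cy`: for `p ≠ q`, `¬ 0 < (cchi p - cchi q) ⬝ cy` iff `p > q`, or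
`k = 0` and `p = r - 1`, `q = r`). -/
theorem tri (hk : k ≤ 2) (hr : k = 0 → 2 ≤ r) {F : Type} [Field F] [CharZero F]
    (g : GL (Fin (cm r k)) F) (hg : g ∈ cG r k F) (hT : Tri g.1 r) :
    ∃ (z : Fin r → Fˣ) (u : GL (Fin (cm r k)) F), u ∈ cG r k F ∧ (cWD r k hk hr).IsUT u.1 ∧
      g = (cWD r k hk hr).tor F z * u := by
  have hm := Q3.q3_cm r k
  have hTc : ∀ c ≤ r, Tri g.1 c := fun c hc p q h1 h2 => hT p q (by omega) h2
  -- upper triangular
  have hU : ∀ p q : Fin (cm r k), q < p → g.1 p q = 0 := by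
    intro p q h
    have h' : (q : ℕ) < p := h
    by_cases h1 : (q : ℕ) < r
    · exact hT p q h1 h'
    · have hp := p.2
      exact (orth r k hk g hg (cm r k - 1 - q) (by omega) (hTc _ (by omega))).1 p q (by omega)
        (by omega)
  have hO := (orth r k hk g hg r le_rfl hT).2
  -- the special entry for `k = 0`
  have hS : k = 0 → ∀ p q : Fin (cm r k), (p : ℕ) = r - 1 → (q : ℕ) = r → g.1 p q = 0 := by
    intro hk0 p q hp hq
    have hr2 := hr hk0
    have hm' : cm r k = 2 * r := by omega
    have h1 := (hg.2 (by omega)).1 (Pi.single q 1)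
    rw [Q3.q3_cq_single, Matrix.mulVec_single_one, if_neg (by omega)] at h1
    unfold cq at h1
    rw [Finset.sum_eq_single p] at h1
    · rw [if_pos (Or.inl (by omega))] at h1
      have h2 : p.rev = q := by
        ext
        rw [Fin.val_rev]
        omega
      simp only [Matrix.col_apply] at h1
      rw [h2] at h1
      have h3 := (hO p (by omega)).2
      rw [h2] at h3
      refine (mul_eq_zero.1 h1).resolve_right fun h => ?_
      rw [h, mul_zero] at h3
      exact zero_ne_one h3
    · intro l _ hl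
      have hl' : (l : ℕ) ≠ p := fun h => hl (Fin.ext h)
      split_ifs with h2
      · have h3 : g.1 l.rev q = 0 := hU _ _ (by
          rw [Fin.lt_def, Fin.val_rev]
          omega)
        simp only [Matrix.col_apply]
        rw [h3, mul_zero]
      · rfl
    · intro h
      exact absurd (Finset.mem_univ _) h
  -- the diagonal
  have hD : ∀ p : Fin (cm r k), (p : ℕ) ≠ r ∨ k ≠ 2 → g.1 p p * g.1 p.rev p.rev = 1 := by
    intro p hp
    by_cases h1 : (p : ℕ) < r
    · exact (hO p h1).2
    · have h2 := (hO p.rev (by rw [Fin.val_rev]; omega)).2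
      rw [Fin.rev_rev, mul_comm] at h2
      exact h2
  have hM : ∀ p : Fin (cm r k), (p : ℕ) = r → k = 2 → g.1 p p = 1 := by
    intro p hp hk2
    have h1 := (hg.2 (by omega)).2
    rw [Matrix.det_of_isUpperTriangular (fun a b h => hU a b h), ← Finset.mul_prod_erase _ _
      (Finset.mem_univ p)] at h1
    have h2 : ∏ x ∈ Finset.univ.erase p, g.1 x x = 1 := by
      refine Finset.prod_involution (fun a _ => a.rev) (fun a ha => ?_) (fun a ha h3 h4 => ?_)
        (fun a ha => ?_) (fun a ha => Fin.rev_rev a)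
      · refine hD a (Or.inl fun h => ?_)
        exact (Finset.mem_erase.1 ha).1 (Fin.ext (h.trans hp.symm))
      · have h5 : (a : ℕ) ≠ p := fun h => (Finset.mem_erase.1 ha).1 (Fin.ext h)
        have h6 := congrArg (fun x : Fin (cm r k) => (x : ℕ)) h4
        simp only [Fin.val_rev] at h6
        omega
      · refine Finset.mem_erase.2 ⟨fun h => ?_, Finset.mem_univ _⟩
        have h5 : (a : ℕ) ≠ p := fun h => (Finset.mem_erase.1 ha).1 (Fin.ext h)
        have h6 := congrArg (fun x : Fin (cm r k) => (x : ℕ)) h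
        simp only [Fin.val_rev] at h6
        omega
    rw [h2, mul_one] at h1
    exact h1
  have hne : ∀ p : Fin (cm r k), (p : ℕ) < r → g.1 p p ≠ 0 := fun p h => (hO p h).1
  let z : Fin r → Fˣ := fun j => Units.mk0 (g.1 ⟨j, by omega⟩ ⟨j, by omega⟩) (hne _ j.2)
  -- the characters
  have hch : ∀ p : Fin (cm r k), ((char (cchi r k p) z : Fˣ) : F) = g.1 p p := by
    have hev : ∀ (l : ℕ) (hl : l < r), char (ev r l) z = z ⟨l, hl⟩ := by
      intro l hl
      unfold char
      rw [Finset.prod_eq_single (⟨l, hl⟩ : Fin r)]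
      · unfold ev
        rw [if_pos rfl, zpow_one]
      · intro j _ hj
        unfold ev
        rw [if_neg (fun h => hj (Fin.ext h)), zpow_zero]
      · intro h
        exact absurd (Finset.mem_univ _) h
    have hev' : ∀ (l : ℕ) (hl : r ≤ l), char (ev r l) z = 1 := by
      intro l hl
      unfold char
      refine Finset.prod_eq_one fun j _ => ?_
      unfold ev
      rw [if_neg (fun h => by have := j.2; omega), zpow_zero]
    intro p
    have hp := p.2
    unfold cchi
    rw [Q3.q3_char_sub, Fin.val_rev]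
    by_cases h1 : (p : ℕ) < r
    · rw [hev _ h1, hev' _ (by omega), inv_one, mul_one]
      rfl
    · rw [hev' _ (by omega)]
      by_cases h2 : (p : ℕ) = r ∧ k = 2
      · rw [hev' _ (by omega), inv_one, mul_one, Units.val_one, hM p h2.1 h2.2]
      · rw [hev _ (by omega), one_mul, Units.val_inv_eq_inv_val]
        have h3 := hD p (by omega)
        have h4 : p.rev = ⟨cm r k - (p + 1), by omega⟩ := by
          ext
          rw [Fin.val_rev]
        rw [h4] at h3
        exact (eq_inv_of_mul_eq_one_left h3).symm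
  refine ⟨z, ((cWD r k hk hr).tor F z)⁻¹ * g,
    (cG r k F).mul_mem ((cG r k F).inv_mem (Q3.tor_mem r k hk hr F z)) hg, ?_, by group⟩
  have hval : ∀ p q : Fin (cm r k), (((cWD r k hk hr).tor F z)⁻¹ * g).1 p q =
      (g.1 p p)⁻¹ * g.1 p q := by
    intro p q
    have h1 : ((cWD r k hk hr).tor F z)⁻¹.1 =
        Matrix.diagonal fun p => ((char (cchi r k p) z)⁻¹ : Fˣ).1 := rfl
    rw [Units.val_mul, h1, Matrix.diagonal_mul, Units.val_inv_eq_inv_val, hch]
  have hzero : ∀ p q : Fin (cm r k), p ≠ q → ¬ 0 < (cchi r k p - cchi r k q) ⬝ᵥ cy r k →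
      g.1 p q = 0 := by
    intro p q hpq h3
    have hpq' : (p : ℕ) ≠ q := fun h => hpq (Fin.ext h)
    by_cases h2 : (q : ℕ) < p
    · exact hU p q h2
    · rw [sub_dotProduct, Q2.chi_cy, Q2.chi_cy] at h3
      have hp := p.2
      have hq := q.2
      have h4 : k = 0 ∧ (p : ℕ) = r - 1 ∧ (q : ℕ) = r := by
        rcases (by omega : k = 0 ∨ k = 1 ∨ k = 2) with rfl | rfl | rfl
        · have := hr rfl
          have hm' : cm r 0 = 2 * r := rfl
          refine ⟨rfl, ?_⟩
          simp only [if_true, OfNat.zero_ne_ofNat, if_false, false_and] at h3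
          split_ifs at h3 <;> omega
        · have hm' : cm r 1 = 2 * r := rfl
          exfalso
          split_ifs at h3 <;> omega
        · have hm' : cm r 2 = 2 * r + 1 := rfl
          exfalso
          split_ifs at h3 <;> omega
      exact hS h4.1 p q h4.2.1 h4.2.2
  intro p q h
  rw [hval]
  by_cases hpq : p = q
  · subst hpq
    rw [Matrix.one_apply_eq]
    refine inv_mul_cancel₀ ?_
    rw [← hch]
    exact Units.ne_zero _
  · rw [Matrix.one_apply_ne hpq, hzero p q hpq h, mul_zero]

end Pool.Agent.CHV.Q6
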