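import Pool.Agent.CHV.Q6a

/-! # CHV, row Q6b: elimination in the classical groups: one step -/

set_option autoImplicit false

namespace Pool.Agent.CHV.Q6

open Matrix

variable (r k : ℕ)

set_option linter.unusedSimpArgs false

/-- the entries of a column, as a function on the natural numbers -/
private def co {m : ℕ} {F : Type} [Field F] (M : Matrix (Fin m) (Fin m) F) (q : Fin m) (n : ℕ) : F :=
  if h : n < m then M ⟨n, h⟩ q else 0

private theorem co_val {m : ℕ} {F : Type} [Field F] (M : Matrix (Fin m) (Fin m) F) (l q : Fin m) :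
    co M q l = M l q := by
  unfold co
  rw [dif_pos l.2]

private theorem co_lt {m : ℕ} {F : Type} [Field F] (M : Matrix (Fin m) (Fin m) F) (q : Fin m)
    {n : ℕ} (h : n < m) : co M q n = M ⟨n, h⟩ q := by
  unfold co
  rw [dif_pos h]

private theorem co_ge {m : ℕ} {F : Type} [Field F] (M : Matrix (Fin m) (Fin m) F) (q : Fin m)
    {n : ℕ} (h : m ≤ n) : co M q n = 0 := by
  unfold co
  rw [dif_neg (not_lt.2 h)]

private theorem q6b_nE_mul {m : ℕ} {F : Type} [Field F] (a b : ℕ) (M : Matrix (Fin m) (Fin m) F)
    (l q : Fin m) : ((nE m a b).map (Int.castRingHom F) * M) l q =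
      if (l : ℕ) = a then co M q b else 0 := by
  rw [Matrix.mul_apply]
  by_cases hb : b < m
  · rw [Finset.sum_eq_single (⟨b, hb⟩ : Fin m)]
    · rw [co_lt M q hb]
      by_cases h : (l : ℕ) = a
      · simp [nE, h]
      · simp [nE, h]
    · intro j _ hj
      have : (j : ℕ) ≠ b := fun e => hj (Fin.ext e)
      simp [nE, this]
    · intro h
      exact absurd (Finset.mem_univ _) h
  · rw [co_ge M q (not_lt.1 hb), ite_self]
    refine Finset.sum_eq_zero fun j _ => ?_
    have : (j : ℕ) ≠ b := by have := j.2; omega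
    simp [nE, this]

private theorem q6b_nE_nE (m a b c d : ℕ) (hb : b < m) :
    nE m a b * nE m c d = if b = c then nE m a d else 0 := by
  ext p q
  rw [Matrix.mul_apply, Finset.sum_eq_single (⟨b, hb⟩ : Fin m)]
  · unfold nE
    split_ifs <;> simp_all
  · intro l _ hl
    have : (l : ℕ) ≠ b := fun e => hl (Fin.ext e)
    simp [nE, this]
  · intro h
    exact absurd (Finset.mem_univ _) h

private theorem q6b_nE_tr (m a b : ℕ) : (nE m a b)ᵀ = nE m b a := by
  ext p q
  simp only [Matrix.transpose_apply, nE]
  by_cases h : (q : ℕ) = a ∧ (p : ℕ) = b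
  · rw [if_pos h, if_pos ⟨h.2, h.1⟩]
  · rw [if_neg h, if_neg (fun e => h ⟨e.2, e.1⟩)]

private theorem q6b_val (hk : k ≤ 2) (hr : k = 0 → 2 ≤ r) {F : Type} [Field F] (i : Fin r) (t : F)
    (g : GL (Fin (cm r k)) F) :
    ((cMD0 r k hk hr).sm F i * (cMD0 r k hk hr).xg F i t * g).1 =
      (cs r k i).map (Int.castRingHom F) * ((1 + t • (cE r k i).map (Int.castRingHom F) +
        t ^ 2 • (cE2 r k i).map (Int.castRingHom F)) * g.1) := by
  rw [Units.val_mul, Units.val_mul, Matrix.mul_assoc]
  rfl

/-- the action of `s * x` for two pairs of coordinates -/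
private theorem q6b_actA {F : Type} [Field F] (i : ℕ) (a b a' b' : ℕ)
    (ha : a < cm r k) (hb : b < cm r k) (ha' : a' < cm r k) (hb' : b' < cm r k)
    (n1 : a ≠ b) (n2 : a ≠ a') (n3 : a ≠ b') (n4 : b ≠ a') (n5 : b ≠ b') (n6 : a' ≠ b')
    (hE : cE r k i = nE (cm r k) a b - nE (cm r k) b' a') (hE2 : cE2 r k i = 0)
    (hs : cs r k i = 1 - cE r k i * (cE r k i)ᵀ - (cE r k i)ᵀ * cE r k i - cE r k i + (cE r k i)ᵀ)
    (t : F) (M : Matrix (Fin (cm r k)) (Fin (cm r k)) F) (l q : Fin (cm r k)) :
    ((cs r k i).map (Int.castRingHom F) * ((1 + t • (cE r k i).map (Int.castRingHom F) +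
        t ^ 2 • (cE2 r k i).map (Int.castRingHom F)) * M)) l q =
      if (l : ℕ) = a then -co M q b else if (l : ℕ) = b then co M q a + t * co M q b
      else if (l : ℕ) = b' then co M q a' else if (l : ℕ) = a' then -(co M q b' - t * co M q a')
      else M l q := by
  set N : Matrix (Fin (cm r k)) (Fin (cm r k)) F := (1 + t • (cE r k i).map (Int.castRingHom F) +
        t ^ 2 • (cE2 r k i).map (Int.castRingHom F)) * M with hN
  have hX : ∀ l : Fin (cm r k), N l q = M l q + t * ((if (l : ℕ) = a then co M q b else 0) -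
      (if (l : ℕ) = b' then co M q a' else 0)) := by
    intro l
    rw [hN, hE2, hE]
    simp only [Matrix.map_sub _ (map_sub (Int.castRingHom F)), Matrix.map_zero _ (map_zero _),
      smul_zero, add_zero, Matrix.add_mul, Matrix.one_mul, Matrix.smul_mul, Matrix.sub_mul,
      Matrix.add_apply, Matrix.smul_apply, Matrix.sub_apply, smul_eq_mul, q6b_nE_mul]
  have hEE : cE r k i * (cE r k i)ᵀ = nE (cm r k) a a + nE (cm r k) b' b' := by
    rw [hE, Matrix.transpose_sub, q6b_nE_tr, q6b_nE_tr, sub_mul, mul_sub, mul_sub,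
      q6b_nE_nE _ _ _ _ _ hb, q6b_nE_nE _ _ _ _ _ hb, q6b_nE_nE _ _ _ _ _ ha',
      q6b_nE_nE _ _ _ _ _ ha', if_pos rfl, if_neg n4, if_neg n4.symm, if_pos rfl]
    abel
  have hEE' : (cE r k i)ᵀ * cE r k i = nE (cm r k) b b + nE (cm r k) a' a' := by
    rw [hE, Matrix.transpose_sub, q6b_nE_tr, q6b_nE_tr, sub_mul, mul_sub, mul_sub,
      q6b_nE_nE _ _ _ _ _ ha, q6b_nE_nE _ _ _ _ _ ha, q6b_nE_nE _ _ _ _ _ hb',
      q6b_nE_nE _ _ _ _ _ hb', if_pos rfl, if_neg n3, if_neg n3.symm, if_pos rfl]
    abel
  have hS : ((cs r k i).map (Int.castRingHom F) * N) l q = N l q -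
      ((if (l : ℕ) = a then co N q a else 0) + (if (l : ℕ) = b' then co N q b' else 0)) -
      ((if (l : ℕ) = b then co N q b else 0) + (if (l : ℕ) = a' then co N q a' else 0)) -
      ((if (l : ℕ) = a then co N q b else 0) - (if (l : ℕ) = b' then co N q a' else 0)) +
      ((if (l : ℕ) = b then co N q a else 0) - (if (l : ℕ) = a' then co N q b' else 0)) := by
    have h1 : (1 : Matrix (Fin (cm r k)) (Fin (cm r k)) ℤ).map (Int.castRingHom F) = 1 :=
      Matrix.map_one _ (map_zero _) (map_one _)
    rw [hs, hEE, hEE', hE, Matrix.transpose_sub, q6b_nE_tr, q6b_nE_tr]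
    simp only [Matrix.map_sub _ (map_sub (Int.castRingHom F)),
      Matrix.map_add _ (map_add (Int.castRingHom F)), h1, Matrix.add_mul, Matrix.one_mul,
      Matrix.sub_mul, Matrix.add_apply, Matrix.sub_apply, q6b_nE_mul]
  have cN : ∀ n : ℕ, n < cm r k → co N q n = co M q n + t * ((if n = a then co M q b else 0) -
      (if n = b' then co M q a' else 0)) := by
    intro n hn
    rw [co_lt N q hn, hX, co_lt M q hn]
  rw [hS, hX, cN a ha, cN b hb, cN a' ha', cN b' hb']
  have hM : M l q = co M q l := (co_val M l q).symm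
  by_cases c1 : (l : ℕ) = a
  · rw [hM, c1]
    simp only [n1, n2, n3, n4, n5, n6, n1.symm, n2.symm, n3.symm, n4.symm, n5.symm, n6.symm,
      if_true, if_false]
    ring
  · by_cases c2 : (l : ℕ) = b
    · rw [hM, c2]
      simp only [n1, n2, n3, n4, n5, n6, n1.symm, n2.symm, n3.symm, n4.symm, n5.symm, n6.symm,
        if_true, if_false]
      ring
    · by_cases c3 : (l : ℕ) = b'
      · rw [hM, c3]
        simp only [n1, n2, n3, n4, n5, n6, n1.symm, n2.symm, n3.symm, n4.symm, n5.symm, n6.symm,
          if_true, if_false]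
        ring
      · by_cases c4 : (l : ℕ) = a'
        · rw [hM, c4]
          simp only [n1, n2, n3, n4, n5, n6, n1.symm, n2.symm, n3.symm, n4.symm, n5.symm, n6.symm,
            if_true, if_false]
          ring
        · simp only [c1, c2, c3, c4, if_false]
          ring

/-- the action of `s * x` for the last root of the symplectic group -/
private theorem q6b_actB {F : Type} [Field F] (i : ℕ) (a b : ℕ)
    (ha : a < cm r k) (hb : b < cm r k) (n1 : a ≠ b)
    (hE : cE r k i = nE (cm r k) a b) (hE2 : cE2 r k i = 0)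
    (hs : cs r k i = 1 - cE r k i * (cE r k i)ᵀ - (cE r k i)ᵀ * cE r k i - cE r k i + (cE r k i)ᵀ)
    (t : F) (M : Matrix (Fin (cm r k)) (Fin (cm r k)) F) (l q : Fin (cm r k)) :
    ((cs r k i).map (Int.castRingHom F) * ((1 + t • (cE r k i).map (Int.castRingHom F) +
        t ^ 2 • (cE2 r k i).map (Int.castRingHom F)) * M)) l q =
      if (l : ℕ) = a then -co M q b else if (l : ℕ) = b then co M q a + t * co M q b
      else M l q := by
  set N : Matrix (Fin (cm r k)) (Fin (cm r k)) F := (1 + t • (cE r k i).map (Int.castRingHom F) +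
        t ^ 2 • (cE2 r k i).map (Int.castRingHom F)) * M with hN
  have hX : ∀ l : Fin (cm r k), N l q = M l q + t * (if (l : ℕ) = a then co M q b else 0) := by
    intro l
    rw [hN, hE2, hE]
    simp only [Matrix.map_zero _ (map_zero _),
      smul_zero, add_zero, Matrix.add_mul, Matrix.one_mul, Matrix.smul_mul,
      Matrix.add_apply, Matrix.smul_apply, smul_eq_mul, q6b_nE_mul]
  have hEE : cE r k i * (cE r k i)ᵀ = nE (cm r k) a a := by
    rw [hE, q6b_nE_tr, q6b_nE_nE _ _ _ _ _ hb, if_pos rfl]
  have hEE' : (cE r k i)ᵀ * cE r k i = nE (cm r k) b b := by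
    rw [hE, q6b_nE_tr, q6b_nE_nE _ _ _ _ _ ha, if_pos rfl]
  have hS : ((cs r k i).map (Int.castRingHom F) * N) l q = N l q -
      (if (l : ℕ) = a then co N q a else 0) -
      (if (l : ℕ) = b then co N q b else 0) -
      (if (l : ℕ) = a then co N q b else 0) +
      (if (l : ℕ) = b then co N q a else 0) := by
    have h1 : (1 : Matrix (Fin (cm r k)) (Fin (cm r k)) ℤ).map (Int.castRingHom F) = 1 :=
      Matrix.map_one _ (map_zero _) (map_one _)
    rw [hs, hEE, hEE', hE, q6b_nE_tr]
    simp only [Matrix.map_sub _ (map_sub (Int.castRingHom F)),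
      Matrix.map_add _ (map_add (Int.castRingHom F)), h1, Matrix.add_mul, Matrix.one_mul,
      Matrix.sub_mul, Matrix.add_apply, Matrix.sub_apply, q6b_nE_mul]
  have cN : ∀ n : ℕ, n < cm r k → co N q n = co M q n + t * (if n = a then co M q b else 0) := by
    intro n hn
    rw [co_lt N q hn, hX, co_lt M q hn]
  rw [hS, hX, cN a ha, cN b hb]
  have hM : M l q = co M q l := (co_val M l q).symm
  by_cases c1 : (l : ℕ) = a
  · rw [hM, c1]
    simp only [n1, n1.symm, if_true, if_false]
    ring
  · by_cases c2 : (l : ℕ) = b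
    · rw [hM, c2]
      simp only [n1, n1.symm, if_true, if_false]
      ring
    · simp only [c1, c2, if_false]
      ring

/-- the action of `s * x` for the last root of the odd orthogonal group -/
private theorem q6b_actC {F : Type} [Field F] (i : ℕ) (a b c : ℕ)
    (ha : a < cm r k) (hb : b < cm r k) (hc : c < cm r k) (n1 : a ≠ b) (n2 : a ≠ c) (n3 : b ≠ c)
    (hE : cE r k i = nE (cm r k) b c - 2 • nE (cm r k) a b) (hE2 : cE2 r k i = -nE (cm r k) a c)
    (hs : cs r k i = 1 - nE (cm r k) a a - nE (cm r k) c c - 2 • nE (cm r k) b b -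
      nE (cm r k) c a - nE (cm r k) a c)
    (t : F) (M : Matrix (Fin (cm r k)) (Fin (cm r k)) F) (l q : Fin (cm r k)) :
    ((cs r k i).map (Int.castRingHom F) * ((1 + t • (cE r k i).map (Int.castRingHom F) +
        t ^ 2 • (cE2 r k i).map (Int.castRingHom F)) * M)) l q =
      if (l : ℕ) = a then -co M q c else if (l : ℕ) = b then -(co M q b + t * co M q c)
      else if (l : ℕ) = c then -(co M q a - 2 * t * co M q b - t ^ 2 * co M q c)
      else M l q := by
  set N : Matrix (Fin (cm r k)) (Fin (cm r k)) F := (1 + t • (cE r k i).map (Int.castRingHom F) +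
        t ^ 2 • (cE2 r k i).map (Int.castRingHom F)) * M with hN
  have hX : ∀ l : Fin (cm r k), N l q = M l q + t * ((if (l : ℕ) = b then co M q c else 0) -
      ((if (l : ℕ) = a then co M q b else 0) + (if (l : ℕ) = a then co M q b else 0))) +
      t ^ 2 * (-(if (l : ℕ) = a then co M q c else 0)) := by
    intro l
    rw [hN, hE2, hE, two_smul]
    have hneg : (-nE (cm r k) a c).map (Int.castRingHom F) =
        -((nE (cm r k) a c).map (Int.castRingHom F)) := by
      ext p q; simp
    simp only [Matrix.map_sub _ (map_sub (Int.castRingHom F)), hneg,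
      Matrix.map_add _ (map_add (Int.castRingHom F)),
      Matrix.add_mul, Matrix.one_mul, Matrix.smul_mul, Matrix.sub_mul, Matrix.neg_mul,
      Matrix.add_apply, Matrix.smul_apply, Matrix.sub_apply, Matrix.neg_apply, smul_eq_mul,
      q6b_nE_mul]
  have hS : ((cs r k i).map (Int.castRingHom F) * N) l q = N l q -
      (if (l : ℕ) = a then co N q a else 0) - (if (l : ℕ) = c then co N q c else 0) -
      ((if (l : ℕ) = b then co N q b else 0) + (if (l : ℕ) = b then co N q b else 0)) -
      (if (l : ℕ) = c then co N q a else 0) - (if (l : ℕ) = a then co N q c else 0) := by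
    have h1 : (1 : Matrix (Fin (cm r k)) (Fin (cm r k)) ℤ).map (Int.castRingHom F) = 1 :=
      Matrix.map_one _ (map_zero _) (map_one _)
    rw [hs, two_smul]
    simp only [Matrix.map_sub _ (map_sub (Int.castRingHom F)),
      Matrix.map_add _ (map_add (Int.castRingHom F)), h1, Matrix.add_mul, Matrix.one_mul,
      Matrix.sub_mul, Matrix.add_apply, Matrix.sub_apply, q6b_nE_mul]
  have cN : ∀ n : ℕ, n < cm r k → co N q n = co M q n + t * ((if n = b then co M q c else 0) -
      ((if n = a then co M q b else 0) + (if n = a then co M q b else 0))) +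
      t ^ 2 * (-(if n = a then co M q c else 0)) := by
    intro n hn
    rw [co_lt N q hn, hX, co_lt M q hn]
  rw [hS, hX, cN a ha, cN b hb, cN c hc]
  have hM : M l q = co M q l := (co_val M l q).symm
  by_cases c1 : (l : ℕ) = a
  · rw [hM, c1]
    simp only [n1, n2, n3, n1.symm, n2.symm, n3.symm, if_true, if_false]
    ring
  · by_cases c2 : (l : ℕ) = b
    · rw [hM, c2]
      simp only [n1, n2, n3, n1.symm, n2.symm, n3.symm, if_true, if_false]
      ring
    · by_cases c3 : (l : ℕ) = c
      · rw [hM, c3]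
        simp only [n1, n2, n3, n1.symm, n2.symm, n3.symm, if_true, if_false]
        ring
      · simp only [c1, c2, c3, if_false]
        ring

private theorem q6b_single {m : ℕ} {F : Type} [Field F] (g : Matrix (Fin m) (Fin m) F) (c p : Fin m) :
    (g *ᵥ Pi.single c 1) p = g p c := by
  rw [mulVec_single_one]
  rfl

private theorem q6b_cq {F : Type} [Field F] (g : GL (Fin (cm r k)) F) (hg : g ∈ cG r k F)
    (hk1 : k ≠ 1) (c : Fin (cm r k)) (hc : (c : ℕ) < r) : cq r k (fun p => g.1 p c) = 0 := by
  have h1 := (hg.2 hk1).1 (Pi.single c 1)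
  have h2 : g.1 *ᵥ (Pi.single c 1 : Fin (cm r k) → F) = fun p => g.1 p c := by
    funext p
    exact q6b_single g.1 c p
  rw [h2] at h1
  rw [h1]
  unfold cq
  refine Finset.sum_eq_zero fun p _ => ?_
  split_ifs with h
  · by_cases hp : p = c
    · have h3 : p.rev ≠ c := by
        intro e
        have h4 := congrArg Fin.val e
        rw [Fin.val_rev, hp] at h4
        have hcm : cm r k = 2 * r + (if k = 2 then 1 else 0) := rfl
        have := c.2
        omega
      rw [Pi.single_eq_of_ne h3, mul_zero]
    · rw [Pi.single_eq_of_ne hp, zero_mul]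
  · rfl

private theorem q6b_mono {m : ℕ} {F : Type} [Field F] {g : Matrix (Fin m) (Fin m) F} {c c' : ℕ}
    (h : Tri g c) (hc : c' ≤ c) : Tri g c' := fun p q hq hpq => h p q (lt_of_lt_of_le hq hc) hpq

/-- the impossible case for `k = 0` -/
private theorem q6b_last {F : Type} [Field F] [CharZero F]
    (hr : 2 ≤ r) (g : GL (Fin (cm r 0)) F) (hg : g ∈ cG r 0 F) (c : Fin (cm r 0))
    (hc : (c : ℕ) = r - 1) (hT : Tri g.1 c) (p : Fin (cm r 0)) (hp : (p : ℕ) = r)
    (hcc : g.1 c c = 0) (hp1 : ∀ p' : Fin (cm r 0), p < p' → g.1 p' c = 0) : False := by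
  have hcm : cm r 0 = 2 * r := rfl
  have ho := fun (c' : ℕ) (h : c' ≤ (c : ℕ)) =>
    orth r 0 (by norm_num) g hg c' (by omega) (q6b_mono hT h)
  have hrevc : c.rev = p := by
    apply Fin.ext
    rw [Fin.val_rev]
    omega
  have hrevp : p.rev = c := by
    apply Fin.ext
    rw [Fin.val_rev]
    omega
  have hcp : c ≠ p := by
    intro e
    have := congrArg Fin.val e
    omega
  -- entries below the middle block
  have hlow : ∀ l : Fin (cm r 0), r < (l : ℕ) → g.1 l p = 0 := by
    intro l hl
    exact (ho c le_rfl).1 l p (by omega) (by omega)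
  -- the bilinear form of the two columns
  have hB := hg.1 (Pi.single c 1) (Pi.single p 1)
  have e1 : cB r 0 (g.1 *ᵥ Pi.single c (1 : F)) (g.1 *ᵥ Pi.single p (1 : F)) =
      g.1 p c * g.1 c p := by
    unfold cB
    rw [Fintype.sum_eq_single p]
    · rw [q6b_single, q6b_single, hrevp]
      have : csig r 0 p = 1 := by simp [csig]
      rw [this]
      simp
    · intro l hl
      rw [q6b_single, q6b_single]
      by_cases h1 : l = c
      · rw [h1, hcc]; ring
      · by_cases h2 : p < l
        · rw [hp1 l h2]; ring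
        · have h3 : (l : ℕ) < r - 1 := by
            have h4 : (l : ℕ) ≠ p := fun e => hl (Fin.ext e)
            have h5 : (l : ℕ) ≠ c := fun e => h1 (Fin.ext e)
            rw [Fin.lt_def] at h2
            omega
          have h6 : g.1 l.rev p = 0 := by
            apply hlow
            rw [Fin.val_rev]
            omega
          rw [h6]; ring
  have e2 : cB r 0 (Pi.single c (1 : F)) (Pi.single p (1 : F)) = 1 := by
    unfold cB
    rw [Fintype.sum_eq_single c]
    · rw [hrevc, Pi.single_eq_same, Pi.single_eq_same]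
      have : csig r 0 c = 1 := by simp [csig]
      rw [this]
      simp
    · intro l hl
      rw [Pi.single_eq_of_ne hl]
      ring
  rw [e1, e2] at hB
  have hcp0 : g.1 c p ≠ 0 := by
    intro h
    rw [h, mul_zero] at hB
    exact zero_ne_one hB
  -- the quadratic form of the second column
  have hQ := (hg.2 (by norm_num)).1 (Pi.single p 1)
  have e3 : cq r 0 (g.1 *ᵥ Pi.single p (1 : F)) = g.1 c p * g.1 p p := by
    unfold cq
    rw [Fintype.sum_eq_single c]
    · rw [q6b_single, q6b_single, hrevc, if_pos (Or.inl (by omega))]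
    · intro l hl
      by_cases h : (l : ℕ) < r ∨ ((0 : ℕ) = 2 ∧ (l : ℕ) = r)
      · rw [if_pos h, q6b_single, q6b_single]
        have h5 : (l : ℕ) ≠ c := fun e => hl (Fin.ext e)
        have h6 : g.1 l.rev p = 0 := by
          apply hlow
          rw [Fin.val_rev]
          omega
        rw [h6]; ring
      · rw [if_neg h]
  have e4 : cq r 0 (Pi.single p (1 : F) : Fin (cm r 0) → F) = 0 := by
    unfold cq
    refine Finset.sum_eq_zero fun l _ => ?_
    by_cases h : (l : ℕ) < r ∨ ((0 : ℕ) = 2 ∧ (l : ℕ) = r)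
    · have h5 : l ≠ p := by
        intro e
        have := congrArg Fin.val e
        omega
      rw [if_pos h, Pi.single_eq_of_ne h5]
      ring
    · rw [if_neg h]
  rw [e3, e4] at hQ
  have hpp : g.1 p p = 0 := (mul_eq_zero.1 hQ).resolve_left hcp0
  -- the determinant
  set σ : Equiv.Perm (Fin (cm r 0)) := Equiv.swap c p with hσ
  have hfix : ∀ l : Fin (cm r 0), (l : ℕ) ≠ r - 1 → (l : ℕ) ≠ r → σ l = l := by
    intro l h1 h2
    apply Equiv.swap_apply_of_ne_of_ne
    · intro e; apply h1; rw [e, hc]
    · intro e; apply h2; rw [e, hp]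
  have hσc : σ c = p := Equiv.swap_apply_left _ _
  have hσp : σ p = c := Equiv.swap_apply_right _ _
  have hbt : (g.1.submatrix id σ).BlockTriangular id := by
    intro l q hlq
    have hlq' : (q : ℕ) < l := hlq
    rw [Matrix.submatrix_apply]
    show g.1 l (σ q) = 0
    by_cases h1 : (q : ℕ) = r - 1
    · have : q = c := Fin.ext (by omega)
      rw [this, hσc]
      by_cases h2 : (l : ℕ) = r
      · have : l = p := Fin.ext (by omega)
        rw [this]; exact hpp
      · exact hlow l (by omega)
    · by_cases h2 : (q : ℕ) = r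
      · have : q = p := Fin.ext (by omega)
        rw [this, hσp]
        apply hp1
        rw [Fin.lt_def]
        omega
      · rw [hfix q h1 h2]
        by_cases h3 : (q : ℕ) < r - 1
        · exact hT l q (by omega) hlq'
        · have hq := q.2
          exact (ho (cm r 0 - 1 - q) (by omega)).1 l q (by omega) (by omega)
  have hdet1 : (g.1.submatrix id σ).det = -1 := by
    rw [Matrix.det_permute', (hg.2 (by norm_num)).2, hσ, Equiv.Perm.sign_swap hcp]
    simp
  have hdet2 : (g.1.submatrix id σ).det = 1 := by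
    rw [Matrix.det_of_upperTriangular hbt]
    refine Finset.prod_involution (fun l _ => l.rev) ?_ ?_ ?_ ?_
    · intro l _
      show g.1 l (σ l) * g.1 l.rev (σ l.rev) = 1
      have hl := l.2
      have hrl : ((l.rev : Fin (cm r 0)) : ℕ) = cm r 0 - (l + 1) := Fin.val_rev l
      by_cases h1 : (l : ℕ) = r - 1
      · have : l = c := Fin.ext (by omega)
        rw [this, hrevc, hσc, hσp, mul_comm]
        exact hB
      · by_cases h2 : (l : ℕ) = r
        · have : l = p := Fin.ext (by omega)
          rw [this, hrevp, hσc, hσp]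
          exact hB
        · rw [hfix l h1 h2, hfix l.rev (by omega) (by omega)]
          by_cases h3 : (l : ℕ) < r - 1
          · exact ((ho c le_rfl).2 l (by omega)).2
          · have h4 := ((ho c le_rfl).2 l.rev (by omega)).2
            rw [Fin.rev_rev] at h4
            rw [mul_comm]
            exact h4
    · intro l _ _ he
      have hl := l.2
      have := congrArg Fin.val he
      rw [Fin.val_rev] at this
      omega
    · intro l _
      exact Finset.mem_univ _
    · intro l _
      exact Fin.rev_rev l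
  rw [hdet1] at hdet2
  have h2 : (2 : F) = 0 := by linear_combination -hdet2
  exact two_ne_zero h2

/-- [CHV-Q6b] One step of the elimination. Let `m = cm r k`, `v` the column `c` of `g`, with the last
nonzero coordinate at `p > c`. By `orth`, `p + c < m`. Write `x = xg i t`, `s = sm i`,
`j = m - 1 - p ≥ c`. In all the cases `i ≥ c` (or `i = r - 1`, `ca i = r - 2 ≥ c`), so `s * x` does not
change the coordinates of the columns `< c` (they are supported in `{0, …, c - 1}` and the rows `< c`
are not changed); for the column `c`: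
(1) `p < r`: `i = p - 1`, `(x v) (p-1) = v (p-1) + t v p`; choose `t` such that it is `0`; `s` exchanges
the coordinates `p - 1`, `p` up to sign (and `m - p`, `m - 1 - p`, where `x v` vanishes if
`m - 1 - p > p`).
(2) `p > m - r`: `i = j = m - 1 - p`, `i + 1 < r`, `(x v) (p-1) = v (p-1) - t v p`; choose `t`; `s`
exchanges `p - 1`, `p` up to sign (and `i`, `i + 1`).
(3) `p = m - r`, `k = 1` (`p = r`): `i = r - 1`, `(x v) (r-1) = v (r-1) + t v r`.
(4) `p = r`, `k = 2`: impossible, because `0 = cq (e_c) = cq v = (v r)²`.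
(5) `p = m - r = r + 1`, `k = 2`: `i = r - 1`, `t = - v r / v (r+1)`, so `(x v) r = 0`, and
`0 = cq (x v) = (x v) (r-1) * v (r+1)` gives `(x v) (r-1) = 0`; `s` exchanges `r - 1` and `r + 1` up
to sign.
(6) `p = m - r = r`, `k = 0`: `0 = cq v = v (r-1) * v r`, so `v (r-1) = 0`. If `c < r - 1`: `i = r - 1`,
`(x v) (r-2) = v (r-2) + t v r`; choose `t`; `s` exchanges `r - 2 ↔ r` and `r - 1 ↔ r + 1` up to sign.
If `c = r - 1`: impossible: the determinant of `g` would be `-1`: by `orth`, `g` is block upper
triangular with the diagonal blocks `g q q` (`q < r - 1`), the block of `{r-1, r}`, and `g q q`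
(`q > r`), with `g q q * g (rev q) (rev q) = 1`; the middle block preserves `x y` and maps `e_{r-1}` to
a multiple of `e_r`, so it is antidiagonal with the determinant `-1`. -/
theorem step (hk : k ≤ 2) (hr : k = 0 → 2 ≤ r) {F : Type} [Field F] [CharZero F]
    (g : GL (Fin (cm r k)) F) (hg : g ∈ cG r k F) (c : Fin (cm r k)) (hc : (c : ℕ) < r)
    (hT : Tri g.1 c) (p : Fin (cm r k)) (hp : c < p) (hp0 : g.1 p c ≠ 0)
    (hp1 : ∀ p' : Fin (cm r k), p < p' → g.1 p' c = 0) :
    ∃ (i : Fin r) (t : F), Tri ((cMD0 r k hk hr).sm F i * (cMD0 r k hk hr).xg F i t * g).1 c ∧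
      ∀ p' : Fin (cm r k), p ≤ p' →
        ((cMD0 r k hk hr).sm F i * (cMD0 r k hk hr).xg F i t * g).1 p' c = 0 := by
  have hcm : cm r k = 2 * r + (if k = 2 then 1 else 0) := rfl
  have hpm := p.2
  have hcm' := c.2
  rw [Fin.lt_def] at hp
  have hcm2 : 2 * r ≤ cm r k := by rw [hcm]; omega
  -- the orthogonality bound
  have horth : (p : ℕ) + c < cm r k := by
    by_contra hcon
    exact hp0 ((orth r k hk g hg c hc.le hT).1 p c (by omega) (not_lt.1 hcon))
  obtain ⟨v, hv⟩ : ∃ v : ℕ → F, v = co g.1 c := ⟨_, rfl⟩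
  have hv0 : v p ≠ 0 := by rw [hv, co_val]; exact hp0
  have hv1 : ∀ n : ℕ, (p : ℕ) < n → v n = 0 := by
    intro n hn
    rw [hv]
    by_cases hnm : n < cm r k
    · rw [co_lt _ _ hnm]
      exact hp1 ⟨n, hnm⟩ hn
    · exact co_ge _ _ (not_lt.1 hnm)
  have hw : ∀ q : Fin (cm r k), (q : ℕ) < c → ∀ n : ℕ, (c : ℕ) ≤ n → co g.1 q n = 0 := by
    intro q hq n hn
    by_cases hnm : n < cm r k
    · rw [co_lt _ _ hnm]
      exact hT ⟨n, hnm⟩ q hq (lt_of_lt_of_le hq hn)
    · exact co_ge _ _ (not_lt.1 hnm)
  have hgv : ∀ l : Fin (cm r k), g.1 l c = v l := fun l => by rw [hv, co_val]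
  -- type A steps
  have stepA : ∀ (i : Fin r) (a b a' b' : ℕ) (t : F), a < cm r k → b < cm r k → a' < cm r k →
      b' < cm r k → a ≠ b → a ≠ a' → a ≠ b' → b ≠ a' → b ≠ b' → a' ≠ b' →
      (c : ℕ) ≤ a → (c : ℕ) ≤ b → (c : ℕ) ≤ a' → (c : ℕ) ≤ b' →
      cE r k i = nE (cm r k) a b - nE (cm r k) b' a' → cE2 r k i = 0 →
      cs r k i = 1 - cE r k i * (cE r k i)ᵀ - (cE r k i)ᵀ * cE r k i - cE r k i + (cE r k i)ᵀ →
      (∀ l : Fin (cm r k), (p : ℕ) ≤ l → (if (l : ℕ) = a then -v b else if (l : ℕ) = b then
        v a + t * v b else if (l : ℕ) = b' then v a' else if (l : ℕ) = a' then -(v b' - t * v a')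
        else v l) = 0) →
      ∃ (i : Fin r) (t : F), Tri ((cMD0 r k hk hr).sm F i * (cMD0 r k hk hr).xg F i t * g).1 c ∧
      ∀ p' : Fin (cm r k), p ≤ p' →
        ((cMD0 r k hk hr).sm F i * (cMD0 r k hk hr).xg F i t * g).1 p' c = 0 := by
    intro i a b a' b' t ha hb ha' hb' n1 n2 n3 n4 n5 n6 l1 l2 l3 l4 hE hE2 hs hcol
    refine ⟨i, t, ?_, ?_⟩
    · intro l q hq hql
      rw [q6b_val, q6b_actA r k i a b a' b' ha hb ha' hb' n1 n2 n3 n4 n5 n6 hE hE2 hs t g.1 l q,
        hw q hq a l1, hw q hq b l2, hw q hq a' l3, hw q hq b' l4, hT l q hq hql]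
      simp
    · intro l hl
      rw [q6b_val, q6b_actA r k i a b a' b' ha hb ha' hb' n1 n2 n3 n4 n5 n6 hE hE2 hs t g.1 l c,
        ← hv, hgv]
      exact hcol l hl
  -- two general facts on `cE`, `cE2`, `cs`
  have hA1 : ∀ i : ℕ, i + 1 < r → cE r k i = nE (cm r k) i (i + 1) -
      nE (cm r k) (cm r k - 1 - (i + 1)) (cm r k - 1 - i) := by
    intro i hi
    unfold cE ca cb
    rw [if_pos (Or.inl hi), if_pos hi, if_pos hi]
  have hA2 : ∀ i : ℕ, i + 1 < r → cE2 r k i = 0 := by
    intro i hi
    unfold cE2
    rw [if_pos (Or.inl hi)]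
  have hA3 : ∀ i : ℕ, i + 1 < r → cs r k i =
      1 - cE r k i * (cE r k i)ᵀ - (cE r k i)ᵀ * cE r k i - cE r k i + (cE r k i)ᵀ := by
    intro i hi
    unfold cs
    rw [if_pos (Or.inl hi)]
  by_cases h1 : (p : ℕ) < r
  · -- case (1)
    obtain ⟨i, hi⟩ : ∃ i : ℕ, (p : ℕ) = i + 1 := ⟨p - 1, by omega⟩
    refine stepA ⟨i, by omega⟩ i (i + 1) (cm r k - 1 - i) (cm r k - 1 - (i + 1))
      (-v i / v (i + 1)) (by omega) (by omega) (by omega) (by omega) (by omega) (by omega)
      (by omega) (by omega) (by omega) (by omega) (by omega) (by omega) (by omega) (by omega)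
      (hA1 i (by omega)) (hA2 i (by omega)) (hA3 i (by omega)) ?_
    intro l hl
    rw [hi] at hl hv0 hv1
    rw [hv1 (cm r k - 1 - i) (by omega), hv1 (cm r k - 1 - (i + 1)) (by omega)]
    by_cases c1 : (l : ℕ) = i
    · omega
    · by_cases c2 : (l : ℕ) = i + 1
      · rw [if_neg c1, if_pos c2, div_mul_cancel₀ _ hv0]
        ring
      · rw [if_neg c1, if_neg c2, hv1 l (by omega)]
        simp
  · by_cases h2 : cm r k - r < (p : ℕ)
    · -- case (2)
      obtain ⟨i, hi⟩ : ∃ i : ℕ, (p : ℕ) = cm r k - 1 - i ∧ i + 1 < r := ⟨cm r k - 1 - p, by omega⟩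
      obtain ⟨hi1, hi2⟩ := hi
      have hE1 := hA1 i hi2
      refine stepA ⟨i, by omega⟩ i (i + 1) (cm r k - 1 - i) (cm r k - 1 - (i + 1))
        (v (cm r k - 1 - (i + 1)) / v (cm r k - 1 - i)) (by omega) (by omega) (by omega) (by omega)
        (by omega) (by omega) (by omega) (by omega) (by omega) (by omega) (by omega) (by omega)
        (by omega) (by omega) hE1 (hA2 i hi2) (hA3 i hi2) ?_
      intro l hl
      rw [hi1] at hl hv0 hv1
      by_cases c4 : (l : ℕ) = cm r k - 1 - i
      · rw [if_neg (by omega), if_neg (by omega), if_neg (by omega), if_pos c4,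
          div_mul_cancel₀ _ hv0]
        ring
      · rw [if_neg (by omega), if_neg (by omega), if_neg (by omega), if_neg c4,
          hv1 l (by omega)]
    · -- the middle
      have hrpos : 0 < r := by omega
      interval_cases k
      · -- case (6)
        have hcm0 : cm r 0 = 2 * r := rfl
        have hr2 := hr rfl
        have hpr : (p : ℕ) = r := by omega
        -- `v (r - 1) = 0`
        have hq := q6b_cq r 0 g hg (by norm_num) c hc
        have hfun : (fun p => g.1 p c) = fun p : Fin (cm r 0) => v p := funext hgv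
        have hq2 : cq r 0 (fun p => g.1 p c) = v (r - 1) * v r := by
          have hr1 : r - 1 < cm r 0 := by omega
          have e : (((⟨r - 1, hr1⟩ : Fin (cm r 0)).rev : Fin (cm r 0)) : ℕ) = r := by
            rw [Fin.val_rev]
            show cm r 0 - (r - 1 + 1) = r
            omega
          rw [hfun]
          unfold cq
          rw [Fintype.sum_eq_single (⟨r - 1, hr1⟩ : Fin (cm r 0))]
          · rw [if_pos (Or.inl (show r - 1 < r by omega))]
            show v (r - 1) * v (((⟨r - 1, hr1⟩ : Fin (cm r 0)).rev : Fin (cm r 0)) : ℕ) = _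
            rw [e]
          · intro l hl
            have h5 : (l : ℕ) ≠ r - 1 := fun e => hl (Fin.ext e)
            by_cases h : (l : ℕ) < r ∨ ((0 : ℕ) = 2 ∧ (l : ℕ) = r)
            · rw [if_pos h]
              show v l * v ((l.rev : Fin (cm r 0)) : ℕ) = 0
              rw [Fin.val_rev, hv1 (cm r 0 - (l + 1)) (by omega), mul_zero]
            · rw [if_neg h]
        rw [hq2] at hq
        have hvr : v r ≠ 0 := by rw [← hpr]; exact hv0
        have hvr1 : v (r - 1) = 0 := (mul_eq_zero.1 hq).resolve_right hvr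
        by_cases hcr : (c : ℕ) < r - 1
        · refine stepA ⟨r - 1, by omega⟩ (r - 2) r (r + 1) (r - 1) (-v (r - 2) / v r)
            (by omega) (by omega) (by omega) (by omega) (by omega) (by omega) (by omega) (by omega)
            (by omega) (by omega) (by omega) (by omega) (by omega) (by omega) ?_ ?_ ?_ ?_
          · have e1 : ¬ (r - 1 + 1 < r) := by omega
            have e2 : cm r 0 - 1 - r = r - 1 := by omega
            have e3 : cm r 0 - 1 - (r - 2) = r + 1 := by omega
            show cE r 0 (r - 1) = _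
            unfold cE ca cb
            rw [if_pos (Or.inr rfl), if_neg e1, if_pos rfl, if_neg e1, if_pos (Or.inl rfl), e2, e3]
          · show cE2 r 0 (r - 1) = _
            unfold cE2
            rw [if_pos (Or.inr (by norm_num))]
          · show cs r 0 (r - 1) = _
            unfold cs
            rw [if_pos (Or.inr (by norm_num))]
          · intro l hl
            rw [hpr] at hl hv1
            rw [hv1 (r + 1) (by omega), hvr1]
            by_cases c1 : (l : ℕ) = r
            · rw [if_neg (by omega), if_pos c1, div_mul_cancel₀ _ hvr]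
              ring
            · rw [if_neg (by omega), if_neg c1, if_neg (by omega)]
              by_cases c2 : (l : ℕ) = r + 1
              · rw [if_pos c2]; ring
              · rw [if_neg c2, hv1 l (by omega)]
        · exfalso
          have hce : (c : ℕ) = r - 1 := by omega
          refine q6b_last r hr2 g hg c hce hT p hpr ?_ hp1
          rw [hgv, hce]
          exact hvr1
      · -- case (3)
        have hcm1 : cm r 1 = 2 * r := rfl
        have hpr : (p : ℕ) = r := by omega
        have hvr : v r ≠ 0 := by rw [← hpr]; exact hv0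
        have e1 : ¬ (r - 1 + 1 < r ∨ (1 : ℕ) = 0) := by omega
        have hE : cE r 1 (r - 1) = nE (cm r 1) (r - 1) r := by
          unfold cE
          rw [if_neg e1, if_pos rfl]
        have hE2 : cE2 r 1 (r - 1) = 0 := by
          unfold cE2
          rw [if_pos (Or.inr (by norm_num))]
        have hs : cs r 1 (r - 1) = 1 - cE r 1 (r - 1) * (cE r 1 (r - 1))ᵀ -
            (cE r 1 (r - 1))ᵀ * cE r 1 (r - 1) - cE r 1 (r - 1) + (cE r 1 (r - 1))ᵀ := by
          unfold cs
          rw [if_pos (Or.inr (by norm_num))]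
        refine ⟨⟨r - 1, by omega⟩, -v (r - 1) / v r, ?_, ?_⟩
        · intro l q hq hql
          rw [q6b_val, q6b_actB r 1 (r - 1) (r - 1) r (by omega) (by omega) (by omega) hE hE2 hs
            _ g.1 l q, hw q hq (r - 1) (by omega), hw q hq r (by omega), hT l q hq hql]
          simp
        · intro l hl
          rw [Fin.le_def] at hl
          rw [q6b_val, q6b_actB r 1 (r - 1) (r - 1) r (by omega) (by omega) (by omega) hE hE2 hs
            _ g.1 l c, ← hv, hgv]
          rw [hpr] at hl hv1
          by_cases c1 : (l : ℕ) = r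
          · rw [if_neg (by omega), if_pos c1, div_mul_cancel₀ _ hvr]
            ring
          · rw [if_neg (by omega), if_neg c1, hv1 l (by omega)]
      · -- cases (4), (5)
        have hcm2' : cm r 2 = 2 * r + 1 := rfl
        have hv2 : ∀ n : ℕ, r + 1 < n → v n = 0 := fun n hn => hv1 n (by omega)
        have hq := q6b_cq r 2 g hg (by norm_num) c hc
        have hfun : (fun p => g.1 p c) = fun p : Fin (cm r 2) => v p := funext hgv
        have hq2 : cq r 2 (fun p => g.1 p c) = v (r - 1) * v (r + 1) + v r * v r := by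
          have hr1 : r - 1 < cm r 2 := by omega
          have hr0 : r < cm r 2 := by omega
          have e : (((⟨r - 1, hr1⟩ : Fin (cm r 2)).rev : Fin (cm r 2)) : ℕ) = r + 1 := by
            rw [Fin.val_rev]
            show cm r 2 - (r - 1 + 1) = r + 1
            omega
          have e' : (((⟨r, hr0⟩ : Fin (cm r 2)).rev : Fin (cm r 2)) : ℕ) = r := by
            rw [Fin.val_rev]
            show cm r 2 - (r + 1) = r
            omega
          rw [hfun]
          unfold cq
          rw [Fintype.sum_eq_add (⟨r - 1, hr1⟩ : Fin (cm r 2)) (⟨r, hr0⟩ : Fin (cm r 2))]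
          · rw [if_pos (Or.inl (show r - 1 < r by omega)), if_pos (Or.inr ⟨rfl, rfl⟩)]
            show v (r - 1) * v (((⟨r - 1, hr1⟩ : Fin (cm r 2)).rev : Fin (cm r 2)) : ℕ) +
              v r * v (((⟨r, hr0⟩ : Fin (cm r 2)).rev : Fin (cm r 2)) : ℕ) = _
            rw [e, e']
          · intro e
            have h7 : r - 1 = r := congrArg Fin.val e
            omega
          · rintro l ⟨hl, hl'⟩
            have h5 : (l : ℕ) ≠ r - 1 := fun e => hl (Fin.ext e)
            have h6 : (l : ℕ) ≠ r := fun e => hl' (Fin.ext e)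
            by_cases h : (l : ℕ) < r ∨ ((2 : ℕ) = 2 ∧ (l : ℕ) = r)
            · rw [if_pos h]
              show v l * v ((l.rev : Fin (cm r 2)) : ℕ) = 0
              rw [Fin.val_rev, hv2 (cm r 2 - (l + 1)) (by omega), mul_zero]
            · rw [if_neg h]
        rw [hq2] at hq
        by_cases hpr : (p : ℕ) = r
        · exfalso
          rw [hv1 (r + 1) (by omega), mul_zero, zero_add] at hq
          rw [hpr] at hv0
          exact hv0 (mul_self_eq_zero.1 hq)
        · have hpr' : (p : ℕ) = r + 1 := by omega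
          rw [hpr'] at hv0 hv1
          have e1 : ¬ (r - 1 + 1 < r ∨ (2 : ℕ) = 0) := by omega
          have e2 : ¬ (r - 1 + 1 < r ∨ (2 : ℕ) ≠ 2) := by omega
          have hE : cE r 2 (r - 1) = nE (cm r 2) r (r + 1) - 2 • nE (cm r 2) (r - 1) r := by
            unfold cE
            rw [if_neg e1, if_neg (by norm_num)]
          have hE2 : cE2 r 2 (r - 1) = -nE (cm r 2) (r - 1) (r + 1) := by
            unfold cE2
            rw [if_neg e2]
          have hs : cs r 2 (r - 1) = 1 - nE (cm r 2) (r - 1) (r - 1) -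
              nE (cm r 2) (r + 1) (r + 1) - 2 • nE (cm r 2) r r -
              nE (cm r 2) (r + 1) (r - 1) - nE (cm r 2) (r - 1) (r + 1) := by
            unfold cs
            rw [if_neg e2]
          refine ⟨⟨r - 1, by omega⟩, -v r / v (r + 1), ?_, ?_⟩
          · intro l q hq' hql
            rw [q6b_val, q6b_actC r 2 (r - 1) (r - 1) r (r + 1) (by omega) (by omega) (by omega)
              (by omega) (by omega) (by omega) hE hE2 hs _ g.1 l q, hw q hq' (r - 1) (by omega),
              hw q hq' r (by omega), hw q hq' (r + 1) (by omega), hT l q hq' hql]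
            simp
          · intro l hl
            rw [Fin.le_def] at hl
            rw [q6b_val, q6b_actC r 2 (r - 1) (r - 1) r (r + 1) (by omega) (by omega) (by omega)
              (by omega) (by omega) (by omega) hE hE2 hs _ g.1 l c, ← hv, hgv]
            rw [hpr'] at hl
            by_cases c1 : (l : ℕ) = r + 1
            · rw [if_neg (by omega), if_neg (by omega), if_pos c1]
              have e5 : v (r - 1) = -(v r * v r) / v (r + 1) := by
                rw [eq_div_iff hv0]
                linear_combination hq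
              rw [e5]
              field_simp
              ring
            · rw [if_neg (by omega), if_neg (by omega), if_neg c1, hv1 l (by omega)]

end Pool.Agent.CHV.Q6
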