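import Pool.Agent.CHV.Q

/-! # CHV, row S1: elimination for vectors (symplectic groups) -/

set_option autoImplicit false

namespace Pool.Agent.CHV.S

open Matrix

/-- The simple root vectors of `Sp_2r`. -/
noncomputable abbrev sp0 (r : ℕ) : MD0 := cMD0 r 1 (by norm_num) (by norm_num)

variable (r : ℕ) {F : Type} [Field F]

/-- The extension of a vector by zero. -/
def s1L {m : ℕ} (v : Fin m → F) : ℕ → F := fun n => if h : n < m then v ⟨n, h⟩ else 0

theorem s1L_coe {m : ℕ} (v : Fin m → F) (p : Fin m) : s1L v (p : ℕ) = v p := by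
  unfold s1L
  rw [dif_pos p.2]

theorem s1L_add {m : ℕ} (v w : Fin m → F) (n : ℕ) : s1L (v + w) n = s1L v n + s1L w n := by
  unfold s1L
  split_ifs
  · rfl
  · rw [add_zero]

theorem s1L_sub {m : ℕ} (v w : Fin m → F) (n : ℕ) : s1L (v - w) n = s1L v n - s1L w n := by
  unfold s1L
  split_ifs
  · rfl
  · rw [sub_zero]

theorem s1L_smul {m : ℕ} (t : F) (v : Fin m → F) (n : ℕ) : s1L (t • v) n = t * s1L v n := by
  unfold s1L
  split_ifs
  · rfl
  · rw [mul_zero]

theorem s1_nE {m : ℕ} (a b : ℕ) (ha : a < m) (v : Fin m → F) (n : ℕ) :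
    s1L ((nE m a b).map (Int.castRingHom F) *ᵥ v) n = if n = a then s1L v b else 0 := by
  by_cases hn : n = a
  · rw [if_pos hn]
    subst hn
    have h0 : s1L ((nE m n b).map (Int.castRingHom F) *ᵥ v) n =
        ∑ q : Fin m, (if (q : ℕ) = b then (1 : F) else 0) * v q := by
      unfold s1L
      rw [dif_pos ha]
      show ∑ q : Fin m, _ = _
      refine Finset.sum_congr rfl fun q _ => ?_
      change (Int.castRingHom F) (nE m n b ⟨n, ha⟩ q) * v q = _
      unfold nE
      by_cases hq : (q : ℕ) = b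
      · simp [hq]
      · simp [hq]
    rw [h0]
    by_cases hb : b < m
    · rw [Finset.sum_eq_single (⟨b, hb⟩ : Fin m)]
      · unfold s1L
        rw [dif_pos hb, if_pos rfl, one_mul]
      · intro q _ hq
        rw [if_neg (fun h => hq (Fin.ext h)), zero_mul]
      · intro h
        exact absurd (Finset.mem_univ _) h
    · unfold s1L
      rw [dif_neg hb]
      apply Finset.sum_eq_zero
      intro q _
      have hq := q.2
      rw [if_neg (by omega), zero_mul]
  · rw [if_neg hn]
    unfold s1L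
    split_ifs with h
    · show ∑ q : Fin m, _ = _
      apply Finset.sum_eq_zero
      intro q _
      change (Int.castRingHom F) (nE m a b ⟨n, h⟩ q) * v q = _
      unfold nE
      rw [if_neg (fun h' => hn h'.1)]
      simp
    · rfl

theorem s1_cm : cm r 1 = 2 * r := by
  simp [cm]

/-- The root matrix over a field. -/
noncomputable def s1E (F : Type) [Field F] (i : ℕ) : Matrix (Fin (cm r 1)) (Fin (cm r 1)) F :=
  (cE r 1 i).map (Int.castRingHom F)

theorem s1E_mulVec (i : ℕ) (h : i + 1 < r) (v : Fin (cm r 1) → F) (n : ℕ) :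
    s1L (s1E r F i *ᵥ v) n = (if n = i then s1L v (i + 1) else 0) -
      (if n = 2 * r - 2 - i then s1L v (2 * r - 1 - i) else 0) := by
  have hcm := s1_cm r
  have h1 : s1E r F i = (nE (cm r 1) i (i + 1)).map (Int.castRingHom F) -
      (nE (cm r 1) (2 * r - 2 - i) (2 * r - 1 - i)).map (Int.castRingHom F) := by
    unfold s1E cE ca cb
    rw [if_pos (Or.inl h), if_pos h, if_pos h]
    have e1 : cm r 1 - 1 - (i + 1) = 2 * r - 2 - i := by omega
    have e2 : cm r 1 - 1 - i = 2 * r - 1 - i := by omega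
    rw [e1, e2]
    exact Matrix.map_sub _ (fun a b => map_sub _ a b) _ _
  rw [h1, Matrix.sub_mulVec, s1L_sub, s1_nE _ _ (by omega), s1_nE _ _ (by omega)]

theorem s1ET_mulVec (i : ℕ) (h : i + 1 < r) (v : Fin (cm r 1) → F) (n : ℕ) :
    s1L ((s1E r F i)ᵀ *ᵥ v) n = (if n = i + 1 then s1L v i else 0) -
      (if n = 2 * r - 1 - i then s1L v (2 * r - 2 - i) else 0) := by
  have hcm := s1_cm r
  have h1 : (s1E r F i)ᵀ = (nE (cm r 1) (i + 1) i).map (Int.castRingHom F) -
      (nE (cm r 1) (2 * r - 1 - i) (2 * r - 2 - i)).map (Int.castRingHom F) := by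
    unfold s1E cE ca cb
    rw [if_pos (Or.inl h), if_pos h, if_pos h]
    have e1 : cm r 1 - 1 - (i + 1) = 2 * r - 2 - i := by omega
    have e2 : cm r 1 - 1 - i = 2 * r - 1 - i := by omega
    rw [e1, e2, ← Matrix.transpose_map, Matrix.transpose_sub, Q2.nE_transpose, Q2.nE_transpose]
    exact Matrix.map_sub _ (fun a b => map_sub _ a b) _ _
  rw [h1, Matrix.sub_mulVec, s1L_sub, s1_nE _ _ (by omega), s1_nE _ _ (by omega)]

theorem s1E_last (i : ℕ) (hi : i < r) (h : ¬ i + 1 < r) (v : Fin (cm r 1) → F) (n : ℕ) :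
    s1L (s1E r F i *ᵥ v) n = (if n = i then s1L v (i + 1) else 0) := by
  have hcm := s1_cm r
  have h1 : s1E r F i = (nE (cm r 1) i (i + 1)).map (Int.castRingHom F) := by
    unfold s1E cE
    rw [if_neg (by omega), if_pos rfl]
    have e1 : r - 1 = i := by omega
    have e2 : r = i + 1 := by omega
    rw [e1]
    conv_lhs => rw [show nE (cm r 1) i r = nE (cm r 1) i (i + 1) by rw [← e2]]
  rw [h1, s1_nE _ _ (by omega)]

theorem s1ET_last (i : ℕ) (hi : i < r) (h : ¬ i + 1 < r) (v : Fin (cm r 1) → F) (n : ℕ) :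
    s1L ((s1E r F i)ᵀ *ᵥ v) n = (if n = i + 1 then s1L v i else 0) := by
  have hcm := s1_cm r
  have h1 : (s1E r F i)ᵀ = (nE (cm r 1) (i + 1) i).map (Int.castRingHom F) := by
    unfold s1E cE
    rw [if_neg (by omega), if_pos rfl]
    have e1 : r - 1 = i := by omega
    have e2 : r = i + 1 := by omega
    rw [e1, ← Matrix.transpose_map, Q2.nE_transpose]
    conv_lhs => rw [show nE (cm r 1) r i = nE (cm r 1) (i + 1) i by rw [← e2]]
  rw [h1, s1_nE _ _ (by omega)]

/-- the root matrices -/
theorem s1_x (i : Fin r) (t : F) (v : Fin (cm r 1) → F) (n : ℕ) :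
    s1L (((sp0 r).xg F i t).1 *ᵥ v) n = s1L v n + (if n = i then t * s1L v (i + 1) else
      if n = 2 * r - 2 - i then - (t * s1L v (2 * r - 1 - i)) else 0) := by
  have h1 : ((sp0 r).xg F i t).1 = 1 + t • s1E r F i := by
    show 1 + t • (cE r 1 i).map (Int.castRingHom F) +
      t ^ 2 • (cE2 r 1 i).map (Int.castRingHom F) = _
    have h2 : cE2 r 1 i = 0 := by
      unfold cE2
      rw [if_pos (Or.inr (by norm_num))]
    rw [h2]
    have h3 : (0 : Matrix (Fin (cm r 1)) (Fin (cm r 1)) ℤ).map (Int.castRingHom F) = 0 := by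
      ext p q
      simp
    rw [h3, smul_zero, add_zero]
    rfl
  rw [h1, Matrix.add_mulVec, Matrix.one_mulVec, Matrix.smul_mulVec, s1L_add, s1L_smul]
  congr 1
  have hi := i.2
  by_cases h : (i : ℕ) + 1 < r
  · rw [s1E_mulVec r i h]
    by_cases h4 : n = i
    · rw [if_pos h4, if_pos h4, if_neg (by omega), sub_zero]
    · rw [if_neg h4, if_neg h4]
      split_ifs <;> ring
  · rw [s1E_last r i i.2 h]
    by_cases h4 : n = i
    · rw [if_pos h4, if_pos h4]
    · rw [if_neg h4, if_neg h4, if_neg (by omega), mul_zero]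

/-- the reflections -/
theorem s1_s (i : Fin r) (v : Fin (cm r 1) → F) (n : ℕ) :
    s1L (((sp0 r).sm F i).1 *ᵥ v) n = if n = i then - s1L v (i + 1) else
      if n = i + 1 then s1L v i else
      if n = 2 * r - 2 - i then s1L v (2 * r - 1 - i) else
      if n = 2 * r - 1 - i then - s1L v (2 * r - 2 - i) else s1L v n := by
  have h1 : ((sp0 r).sm F i).1 = 1 - s1E r F i * (s1E r F i)ᵀ - (s1E r F i)ᵀ * s1E r F i -
      s1E r F i + (s1E r F i)ᵀ := by
    show (cs r 1 i).map (Int.castRingHom F) = _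
    unfold cs
    rw [if_pos (Or.inr (by norm_num))]
    rw [Matrix.map_add _ (fun a b => map_add _ a b), Matrix.map_sub _ (fun a b => map_sub _ a b),
      Matrix.map_sub _ (fun a b => map_sub _ a b), Matrix.map_sub _ (fun a b => map_sub _ a b),
      Matrix.map_mul, Matrix.map_mul, Matrix.map_one _ (map_zero _) (map_one _),
      Matrix.transpose_map]
    rfl
  rw [h1, Matrix.add_mulVec, Matrix.sub_mulVec, Matrix.sub_mulVec, Matrix.sub_mulVec,
    Matrix.one_mulVec, ← Matrix.mulVec_mulVec, ← Matrix.mulVec_mulVec, s1L_add, s1L_sub, s1L_sub,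
    s1L_sub]
  have hi := i.2
  by_cases h : (i : ℕ) + 1 < r
  · simp only [s1E_mulVec r i h, s1ET_mulVec r i h]
    by_cases h1 : n = i
    · subst h1
      have a1 : ¬ ((i : ℕ) = 2 * r - 2 - i) := by omega
      have a2 : ¬ ((i : ℕ) = i + 1) := by omega
      have a3 : ¬ ((i : ℕ) = 2 * r - 1 - i) := by omega
      have a4 : ¬ ((i : ℕ) + 1 = 2 * r - 1 - i) := by omega
      simp only [a1, a2, a3, a4, if_true, if_false]
      ring
    · by_cases h2 : n = i + 1
      · subst h2
        have a1 : ¬ ((i : ℕ) + 1 = 2 * r - 2 - i) := by omega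
        have a2 : ¬ ((i : ℕ) = 2 * r - 2 - i) := by omega
        have a3 : ¬ ((i : ℕ) + 1 = 2 * r - 1 - i) := by omega
        simp only [a1, a2, a3, h1, if_true, if_false]
        ring
      · by_cases h3 : n = 2 * r - 2 - i
        · have a1 : ¬ (2 * r - 1 - (i : ℕ) = i + 1) := by omega
          have a2 : ¬ (2 * r - 2 - (i : ℕ) = 2 * r - 1 - i) := by omega
          have a3 : ¬ (2 * r - 2 - (i : ℕ) = i) := by omega
          have a4 : ¬ (2 * r - 2 - (i : ℕ) = i + 1) := by omega
          rw [h3]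
          simp only [a1, a2, a3, a4, if_true, if_false]
          ring
        · by_cases h4 : n = 2 * r - 1 - i
          · have a1 : ¬ (2 * r - 2 - (i : ℕ) = i) := by omega
            have a2 : ¬ (2 * r - 1 - (i : ℕ) = 2 * r - 2 - i) := by omega
            have a3 : ¬ (2 * r - 1 - (i : ℕ) = i) := by omega
            have a4 : ¬ (2 * r - 1 - (i : ℕ) = i + 1) := by omega
            rw [h4]
            simp only [a1, a2, a3, a4, if_true, if_false]
            ring
          · simp only [h1, h2, h3, h4, if_false]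
            ring
  · simp only [s1E_last r i i.2 h, s1ET_last r i i.2 h]
    by_cases h1 : n = i
    · subst h1
      have a2 : ¬ ((i : ℕ) = i + 1) := by omega
      simp only [a2, if_true, if_false]
      ring
    · by_cases h2 : n = i + 1
      · subst h2
        simp only [h1, if_true, if_false]
        ring
      · have h3 : ¬ (n = 2 * r - 2 - i) := by omega
        have h4 : ¬ (n = 2 * r - 1 - i) := by omega
        simp only [h1, h2, h3, h4, if_false]
        ring

theorem s1_sx (i : Fin r) (t : F) (v : Fin (cm r 1) → F) :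
    (((sp0 r).sm F i * (sp0 r).xg F i t).1 *ᵥ v) =
      ((sp0 r).sm F i).1 *ᵥ (((sp0 r).xg F i t).1 *ᵥ v) := by
  rw [Units.val_mul, Matrix.mulVec_mulVec]

theorem s1_ext {m : ℕ} (v w : Fin m → F) (h : ∀ n < m, s1L v n = s1L w n) : v = w := by
  funext p
  have := h p p.2
  rwa [s1L_coe, s1L_coe] at this

/-- vectors supported on the coordinates `< c` are fixed -/
theorem s1_fix (i : Fin r) (t : F) (v : Fin (cm r 1) → F)
    (hv : ∀ n : ℕ, (i : ℕ) ≤ n → s1L v n = 0) :
    ((sp0 r).sm F i * (sp0 r).xg F i t).1 *ᵥ v = v := by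
  have hi := i.2
  have h1 : ((sp0 r).xg F i t).1 *ᵥ v = v := by
    apply s1_ext
    intro n _
    rw [s1_x, hv (i + 1) (by omega), hv (2 * r - 1 - i) (by omega)]
    simp
  rw [s1_sx, h1]
  apply s1_ext
  intro n _
  rw [s1_s, hv (i + 1) (by omega), hv (2 * r - 1 - i) (by omega), hv i le_rfl,
    hv (2 * r - 2 - i) (by omega)]
  split_ifs with h1 h2 h3 h4
  · rw [hv n (by omega), neg_zero]
  · rw [hv n (by omega)]
  · rw [hv n (by omega)]
  · rw [hv n (by omega), neg_zero]
  · rfl

theorem s1_single {m : ℕ} (q : Fin m) (n : ℕ) (h : (q : ℕ) < n) :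
    s1L (Pi.single q (1 : F)) n = 0 := by
  unfold s1L
  split_ifs with h1
  · rw [Pi.single_eq_of_ne]
    intro h2
    rw [← h2] at h
    exact lt_irrefl _ h
  · rfl

/-- [CHV-S1] Proof: the root matrix `cE r 1 i` and the reflection `cs r 1 i` (`q < i`) only involve the
positions `i, i + 1, m - 1 - i, m - 2 - i`, or `r - 1, r` for `i = r - 1`. -/
theorem fix (i : Fin r) (t : F) (p q : Fin (cm r 1)) (hq : (q : ℕ) < i) :
    ((sp0 r).sm F i * (sp0 r).xg F i t).1 p q = (1 : Matrix (Fin (cm r 1)) (Fin (cm r 1)) F) p q := by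
  have h1 := s1_fix r i t (Pi.single q 1) (fun n hn => s1_single q n (by omega))
  rw [Matrix.mulVec_single_one] at h1
  have h2 := congrFun h1 p
  rw [Matrix.col_apply] at h2
  rw [h2, Matrix.one_apply]
  by_cases h : p = q
  · rw [h, Pi.single_eq_same, if_pos rfl]
  · rw [Pi.single_eq_of_ne h, if_neg h]

/-- [CHV-S1] One step, as in `Q6.step` for `k = 1` (cases (1), (2), (3) there): `p < r`: `i = p - 1`;
`p > r`: `i = m - 1 - p`; `p = r`: `i = r - 1`. `xg i t` is used to make the coordinate `p - 1` zero,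
and `sm i` exchanges the coordinates `p - 1`, `p` up to sign. -/
theorem vstep (v : Fin (cm r 1) → F) (c : ℕ) (hc : c < r) (p : Fin (cm r 1)) (hcp : c < (p : ℕ))
    (hpc : (p : ℕ) + c < cm r 1) (hp0 : v p ≠ 0) (hp1 : ∀ p' : Fin (cm r 1), p < p' → v p' = 0) :
    ∃ (i : Fin r) (t : F), c ≤ (i : ℕ) ∧ ∀ p' : Fin (cm r 1), p ≤ p' →
      (((sp0 r).sm F i * (sp0 r).xg F i t).1 *ᵥ v) p' = 0 := by
  have hcm := s1_cm r
  have hp2 := p.2
  have hL : s1L v p ≠ 0 := by
    rw [s1L_coe]
    exact hp0
  have hL0 : ∀ n : ℕ, (p : ℕ) < n → s1L v n = 0 := by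
    intro n hn
    unfold s1L
    split_ifs with h
    · exact hp1 ⟨n, h⟩ hn
    · rfl
  rcases lt_trichotomy (p : ℕ) r with hpr | hpr | hpr
  · obtain ⟨j, hj⟩ : ∃ j : Fin r, (j : ℕ) + 1 = p := ⟨⟨p - 1, by omega⟩, by
      show (p : ℕ) - 1 + 1 = p
      omega⟩
    refine ⟨j, - (s1L v j / s1L v p), by omega, ?_⟩
    have hW1 : s1L (((sp0 r).xg F j (- (s1L v j / s1L v p))).1 *ᵥ v) j = 0 := by
      rw [s1_x, if_pos rfl, hj]
      field_simp
      ring
    have hW2 : ∀ n : ℕ, (p : ℕ) < n →
        s1L (((sp0 r).xg F j (- (s1L v j / s1L v p))).1 *ᵥ v) n = 0 := by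
      intro n hn
      rw [s1_x, if_neg (by omega), hL0 n hn]
      split_ifs
      · rw [hL0 (2 * r - 1 - (j : ℕ)) (by omega)]
        ring
      · ring
    intro p' hp'
    have hp'' : (p : ℕ) ≤ p' := hp'
    rw [← s1L_coe (((sp0 r).sm F j * (sp0 r).xg F j _).1 *ᵥ v) p', s1_sx, s1_s,
      if_neg (by omega)]
    split_ifs with c1 c2 c3
    · exact hW1
    · exact hW2 _ (by omega)
    · rw [hW2 _ (by omega), neg_zero]
    · exact hW2 _ (by omega)
  · obtain ⟨j, hj⟩ : ∃ j : Fin r, (j : ℕ) + 1 = p := ⟨⟨p - 1, by omega⟩, by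
      show (p : ℕ) - 1 + 1 = p
      omega⟩
    refine ⟨j, - (s1L v j / s1L v p), by omega, ?_⟩
    have hW1 : s1L (((sp0 r).xg F j (- (s1L v j / s1L v p))).1 *ᵥ v) j = 0 := by
      rw [s1_x, if_pos rfl, hj]
      field_simp
      ring
    have hW2 : ∀ n : ℕ, (p : ℕ) < n →
        s1L (((sp0 r).xg F j (- (s1L v j / s1L v p))).1 *ᵥ v) n = 0 := by
      intro n hn
      rw [s1_x, if_neg (by omega), hL0 n hn, if_neg (by omega), add_zero]
    intro p' hp'
    have hp'' : (p : ℕ) ≤ p' := hp'
    rw [← s1L_coe (((sp0 r).sm F j * (sp0 r).xg F j _).1 *ᵥ v) p', s1_sx, s1_s,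
      if_neg (by omega)]
    split_ifs with c1 c2 c3
    · exact hW1
    · exact hW2 _ (by omega)
    · omega
    · exact hW2 _ (by omega)
  · obtain ⟨j, hj⟩ : ∃ j : Fin r, (j : ℕ) + p + 1 = 2 * r := ⟨⟨2 * r - 1 - p, by omega⟩, by
      show 2 * r - 1 - (p : ℕ) + p + 1 = 2 * r
      omega⟩
    have e1 : 2 * r - 1 - (j : ℕ) = p := by omega
    have hW1 : s1L (((sp0 r).xg F j (s1L v (p - 1) / s1L v p)).1 *ᵥ v) (p - 1) = 0 := by
      rw [s1_x, if_neg (by omega), if_pos (by omega), e1]
      field_simp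
      ring
    refine ⟨j, s1L v (p - 1) / s1L v p, by omega, ?_⟩
    have hW2 : ∀ n : ℕ, (p : ℕ) < n →
        s1L (((sp0 r).xg F j (s1L v (p - 1) / s1L v p)).1 *ᵥ v) n = 0 := by
      intro n hn
      rw [s1_x, if_neg (by omega), hL0 n hn, if_neg (by omega), add_zero]
    intro p' hp'
    have hp'' : (p : ℕ) ≤ p' := hp'
    have e2 : 2 * r - 2 - (j : ℕ) = p - 1 := by omega
    rw [← s1L_coe (((sp0 r).sm F j * (sp0 r).xg F j _).1 *ᵥ v) p', s1_sx, s1_s,
      if_neg (by omega), if_neg (by omega), if_neg (by omega), e2]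
    split_ifs with c1
    · rw [hW1, neg_zero]
    · exact hW2 _ (by omega)

/-- [CHV-S1] Proof: induction on the last nonzero coordinate `p ≥ c` of `v` (`h v ≠ 0` has always a
nonzero coordinate `≥ c`, because `h` fixes `e_q` for `q < c` and is invertible). -/
theorem vmove (v : Fin (cm r 1) → F) (c : Fin (cm r 1)) (hc : (c : ℕ) < r)
    (hv : ∀ p : Fin (cm r 1), cm r 1 ≤ (p : ℕ) + c → v p = 0)
    (hv0 : ∃ p : Fin (cm r 1), c ≤ p ∧ v p ≠ 0) :
    ∃ h ∈ cG r 1 F, (∀ p q : Fin (cm r 1), q < c →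
        (h : GL (Fin (cm r 1)) F).1 p q = (1 : Matrix (Fin (cm r 1)) (Fin (cm r 1)) F) p q) ∧
      (∀ p : Fin (cm r 1), c < p → (h.1 *ᵥ v) p = 0) ∧ (h.1 *ᵥ v) c ≠ 0 := by
  have hcm := s1_cm r
  have hc2 := c.2
  have key : ∀ n : ℕ, ∀ v : Fin (cm r 1) → F,
      (∀ p : Fin (cm r 1), cm r 1 ≤ (p : ℕ) + c → v p = 0) →
      (∃ p : Fin (cm r 1), c ≤ p ∧ v p ≠ 0) →
      (∀ p : Fin (cm r 1), (c : ℕ) + n < p → v p = 0) →
      ∃ h ∈ cG r 1 F, (∀ p q : Fin (cm r 1), q < c →
        (h : GL (Fin (cm r 1)) F).1 p q = (1 : Matrix (Fin (cm r 1)) (Fin (cm r 1)) F) p q) ∧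
      (∀ p : Fin (cm r 1), c < p → (h.1 *ᵥ v) p = 0) ∧ (h.1 *ᵥ v) c ≠ 0 := by
    intro n
    induction n with
    | zero =>
      intro v hv hv0 hn
      refine ⟨1, (cG r 1 F).one_mem, ?_, ?_, ?_⟩
      · intro p q _
        rw [Units.val_one]
      · intro p hp
        rw [Units.val_one, Matrix.one_mulVec]
        exact hn p hp
      · rw [Units.val_one, Matrix.one_mulVec]
        obtain ⟨p, hp, hp'⟩ := hv0
        by_cases h : p = c
        · rw [← h]
          exact hp'
        · exact absurd (hn p (by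
            have h1 : (c : ℕ) ≤ p := hp
            have h2 : (p : ℕ) ≠ c := fun h' => h (Fin.ext h')
            omega)) hp'
    | succ n ih =>
      intro v hv hv0 hn
      by_cases hz : ∀ p : Fin (cm r 1), (p : ℕ) = c + (n + 1) → v p = 0
      · refine ih v hv hv0 fun p hp => ?_
        by_cases h : (p : ℕ) = c + (n + 1)
        · exact hz p h
        · exact hn p (by omega)
      · push Not at hz
        obtain ⟨p, hp, hpv⟩ := hz
        have hpc : (p : ℕ) + c < cm r 1 := by
          by_contra h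
          exact hpv (hv p (by omega))
        obtain ⟨i, t, hi, hit⟩ := vstep r v c hc p (by omega) hpc hpv
          (fun p' hp' => hn p' (by
            have h1 : (p : ℕ) < p' := hp'
            omega))
        have hmem : (sp0 r).sm F i * (sp0 r).xg F i t ∈ cG r 1 F := by
          refine (cG r 1 F).mul_mem ?_ (Q3.xg_mem r 1 (by norm_num) (by norm_num) F i t)
          exact B1.closed_map (Int.castRingHom F) (V := fun R _ => cG r 1 R) (Q3.G_closed r 1)
            (Q3.s_mem r 1 (by norm_num) (by norm_num) i)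
        obtain ⟨h, hh, hh1, hh2, hh3⟩ := ih
          (((sp0 r).sm F i * (sp0 r).xg F i t).1 *ᵥ v)
          (fun p' hp' => hit p' (by
            show (p : ℕ) ≤ p'
            omega))
          (by
            by_contra hcon
            push Not at hcon
            have h1 := s1_fix r i t (((sp0 r).sm F i * (sp0 r).xg F i t).1 *ᵥ v) (by
              intro k hk
              unfold s1L
              split_ifs with hk'
              · exact hcon ⟨k, hk'⟩ (by
                  show (c : ℕ) ≤ k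
                  omega)
              · rfl)
            have h2 : ((sp0 r).sm F i * (sp0 r).xg F i t).1 *ᵥ v = v := by
              have h3 := congrArg (fun w =>
                ((sp0 r).sm F i * (sp0 r).xg F i t)⁻¹.1 *ᵥ w) h1
              simp only [Matrix.mulVec_mulVec] at h3
              rw [← mul_assoc, ← Units.val_mul, inv_mul_cancel, Units.val_one, one_mul,
                Matrix.one_mulVec] at h3
              exact h3
            have h4 := hcon p (by
              show (c : ℕ) ≤ p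
              omega)
            rw [h2] at h4
            exact hpv h4)
          (fun p' hp' => hit p' (by
            show (p : ℕ) ≤ p'
            omega))
        refine ⟨h * ((sp0 r).sm F i * (sp0 r).xg F i t), (cG r 1 F).mul_mem hh hmem, ?_, ?_, ?_⟩
        · intro p' q hq
          have hq' : (q : ℕ) < c := hq
          have h1 : ∀ k, ((sp0 r).sm F i * (sp0 r).xg F i t).1 k q =
              (1 : Matrix (Fin (cm r 1)) (Fin (cm r 1)) F) k q :=
            fun k => fix r i t k q (by omega)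
          rw [Units.val_mul, Matrix.mul_apply, Finset.sum_congr rfl (fun k _ => by rw [h1 k]),
            ← Matrix.mul_apply, mul_one]
          exact hh1 p' q hq
        · intro p' hp'
          rw [Units.val_mul, ← Matrix.mulVec_mulVec]
          exact hh2 p' hp'
        · rw [Units.val_mul, ← Matrix.mulVec_mulVec]
          exact hh3
  exact key (cm r 1) v hv hv0 (fun p hp => absurd p.2 (by omega))

end Pool.Agent.CHV.S
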