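import Pool.Agent.CHV.Q

/-! # CHV, row S2: the middle block of a partially triangular symplectic matrix -/

set_option autoImplicit false

namespace Pool.Agent.CHV.S

open Matrix Polynomial

variable (r : ℕ) {F : Type} [Field F] [CharZero F]

/-- The middle block. -/
def MI {m : ℕ} (M : Matrix (Fin m) (Fin m) F) (c : ℕ) :
    Matrix {p : Fin m // c ≤ (p : ℕ) ∧ (p : ℕ) + c < m} {p : Fin m // c ≤ (p : ℕ) ∧ (p : ℕ) + c < m} F :=
  fun p q => M p.1 q.1

theorem s2_cm : cm r 1 = 2 * r := by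
  simp [cm]

/-- the block of an index -/
def s2_b (m c : ℕ) (p : Fin m) : Fin 3 :=
  if (p : ℕ) < c then 0 else if (p : ℕ) + c < m then 1 else 2

theorem s2_b0 {m c : ℕ} (p : Fin m) : s2_b m c p = 0 ↔ (p : ℕ) < c := by
  unfold s2_b
  split_ifs with h1 h2
  · simp [h1]
  · simp [h1]
  · simp [h1]

theorem s2_b1 {m c : ℕ} (hm : 2 * c ≤ m) (p : Fin m) :
    s2_b m c p = 1 ↔ c ≤ (p : ℕ) ∧ (p : ℕ) + c < m := by
  unfold s2_b
  split_ifs with h1 h2
  · constructor
    · intro h
      exact absurd h (by decide)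
    · intro h
      omega
  · constructor
    · intro _
      omega
    · intro _
      rfl
  · constructor
    · intro h
      exact absurd h (by decide)
    · intro h
      omega

theorem s2_b2 {m c : ℕ} (hm : 2 * c ≤ m) (p : Fin m) :
    s2_b m c p = 2 ↔ m ≤ (p : ℕ) + c := by
  unfold s2_b
  split_ifs with h1 h2
  · constructor
    · intro h
      exact absurd h (by decide)
    · intro h
      omega
  · constructor
    · intro h
      exact absurd h (by decide)
    · intro h
      omega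
  · constructor
    · intro _
      omega
    · intro _
      rfl

theorem s2_mono {m : ℕ} {M : Matrix (Fin m) (Fin m) F} {c c' : ℕ} (h : Q6.Tri M c) (hc : c' ≤ c) :
    Q6.Tri M c' := fun p q h1 h2 => h p q (by omega) h2

theorem s2_last (M : GL (Fin (cm r 1)) F) (hM : M ∈ cG r 1 F) (c : ℕ) (hc : c ≤ r)
    (hT : Q6.Tri M.1 c) (p q : Fin (cm r 1)) (hq : cm r 1 ≤ (q : ℕ) + c) (hpq : (q : ℕ) < p) :
    M.1 p q = 0 := by
  have hq2 := q.2
  have h1 : cm r 1 - 1 - (q : ℕ) ≤ c := by omega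
  have h2 := (Q6.orth r 1 (by norm_num) M hM (cm r 1 - 1 - (q : ℕ)) (by omega)
    (s2_mono hT h1)).1 p q (by omega) (by omega)
  exact h2

/-- [CHV-S2] Proof: `M` is block triangular for the blocks `{q < c}`, the middle, `{m ≤ q + c}`: the
entries `(p, q)`, `q < c`, `p > q` vanish by `Tri`, those with `q + c < m`, `m ≤ p + c` by `Q6.orth`, and
for `m ≤ q + c`, `p > q` by `Q6.orth` with `m - 1 - q` instead of `c`. So the determinant of the
characteristic matrix is the product (`Matrix.BlockTriangular.det` or `det_fromBlocks`). -/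
theorem charpoly_block (M : GL (Fin (cm r 1)) F) (hM : M ∈ cG r 1 F) (c : ℕ) (hc : c ≤ r)
    (hT : Q6.Tri M.1 c) : M.1.charpoly =
      (∏ q : Fin (cm r 1), if (q : ℕ) < c then
        (X - C (M.1 q q)) * (X - C (M.1 q.rev q.rev)) else 1) * (MI M.1 c).charpoly := by
  classical
  have hcm := s2_cm r
  have hm : 2 * c ≤ cm r 1 := by omega
  have ho := (Q6.orth r 1 (by norm_num) M hM c hc hT).1
  have hbt : (charmatrix M.1).BlockTriangular (s2_b (cm r 1) c) := by
    intro i j hij
    have hne : i ≠ j := by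
      intro h
      rw [h] at hij
      exact lt_irrefl _ hij
    rw [charmatrix_apply_ne _ _ _ hne]
    have h0 : M.1 i j = 0 := by
      rcases lt_or_ge (j : ℕ) c with h1 | h1
      · have h2 : ¬ (i : ℕ) < c := by
          intro h2
          rw [(s2_b0 j).mpr h1, (s2_b0 i).mpr h2] at hij
          exact lt_irrefl _ hij
        exact hT i j h1 (by omega)
      · rcases lt_or_ge ((j : ℕ) + c) (cm r 1) with h3 | h3
        · have h4 : s2_b (cm r 1) c j = 1 := (s2_b1 hm j).mpr ⟨h1, h3⟩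
          apply ho i j h3
          by_contra h5
          have h6 : s2_b (cm r 1) c i ≤ 1 := by
            rcases lt_or_ge (i : ℕ) c with h7 | h7
            · rw [(s2_b0 i).mpr h7]
              decide
            · rw [(s2_b1 hm i).mpr ⟨h7, by omega⟩]
          rw [h4] at hij
          exact absurd (lt_of_lt_of_le hij h6) (lt_irrefl _)
        · exfalso
          rw [(s2_b2 hm j).mpr h3] at hij
          have h6 : s2_b (cm r 1) c i ≤ 2 := by
            have := (s2_b (cm r 1) c i).2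
            exact Fin.le_def.mpr (by omega)
          exact absurd (lt_of_lt_of_le hij h6) (lt_irrefl _)
    rw [h0]
    simp
  rw [Matrix.charpoly, hbt.det_fintype, Fin.prod_univ_three]
  have h0 : ((charmatrix M.1).toSquareBlock (s2_b (cm r 1) c) 0).det =
      ∏ q : Fin (cm r 1), if (q : ℕ) < c then (X - C (M.1 q q)) else 1 := by
    rw [det_of_isUpperTriangular]
    · have h1 : ∀ i : {a // s2_b (cm r 1) c a = 0},
          (charmatrix M.1).toSquareBlock (s2_b (cm r 1) c) 0 i i = X - C (M.1 i.1 i.1) :=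
        fun i => charmatrix_apply_eq _ _
      rw [Finset.prod_congr rfl (fun i _ => h1 i), ← Finset.prod_filter,
        Finset.prod_subtype (p := fun a => s2_b (cm r 1) c a = 0)
          (Finset.univ.filter (fun q : Fin (cm r 1) => (q : ℕ) < c))
          (fun x => by simp [s2_b0]) (fun q => X - C (M.1 q q))]
    · intro i j hij
      have hij' : (j.1 : ℕ) < (i.1 : ℕ) := hij
      have hne : i.1 ≠ j.1 := fun h => by
        rw [h] at hij'
        exact lt_irrefl _ hij'
      change charmatrix M.1 i.1 j.1 = 0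
      rw [charmatrix_apply_ne _ _ _ hne, hT i.1 j.1 ((s2_b0 _).mp j.2) hij']
      simp
  have h2 : ((charmatrix M.1).toSquareBlock (s2_b (cm r 1) c) 2).det =
      ∏ q : Fin (cm r 1), if (q : ℕ) < c then (X - C (M.1 q.rev q.rev)) else 1 := by
    rw [det_of_isUpperTriangular]
    · have h1 : ∀ i : {a // s2_b (cm r 1) c a = 2},
          (charmatrix M.1).toSquareBlock (s2_b (cm r 1) c) 2 i i = X - C (M.1 i.1 i.1) :=
        fun i => charmatrix_apply_eq _ _
      rw [Finset.prod_congr rfl (fun i _ => h1 i),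
        ← Finset.prod_subtype (p := fun a => s2_b (cm r 1) c a = 2)
          (Finset.univ.filter (fun q : Fin (cm r 1) => cm r 1 ≤ (q : ℕ) + c))
          (fun x => by simp [s2_b2 hm]) (fun q => X - C (M.1 q q)), Finset.prod_filter,
        ← Equiv.prod_comp Fin.revPerm]
      refine Finset.prod_congr rfl (fun q _ => ?_)
      have hq := q.2
      have h3 : cm r 1 ≤ ((Fin.revPerm q : Fin (cm r 1)) : ℕ) + c ↔ (q : ℕ) < c := by
        rw [Fin.revPerm_apply, Fin.val_rev]
        omega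
      rw [if_congr h3 rfl rfl]
      rfl
    · intro i j hij
      have hij' : (j.1 : ℕ) < (i.1 : ℕ) := hij
      have hne : i.1 ≠ j.1 := fun h => by
        rw [h] at hij'
        exact lt_irrefl _ hij'
      change charmatrix M.1 i.1 j.1 = 0
      rw [charmatrix_apply_ne _ _ _ hne, s2_last r M hM c hc hT i.1 j.1 ((s2_b2 hm _).mp j.2) hij']
      simp
  have h3 : ((charmatrix M.1).toSquareBlock (s2_b (cm r 1) c) 1).det = (MI M.1 c).charpoly := by
    rw [Matrix.charpoly, ← Matrix.det_submatrix_equiv_self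
      (Equiv.subtypeEquivRight (fun p => s2_b1 hm p) :
        {a // s2_b (cm r 1) c a = 1} ≃
        {p : Fin (cm r 1) // c ≤ (p : ℕ) ∧ (p : ℕ) + c < cm r 1})]
    congr 1
    ext1 i j
    by_cases h : i = j
    · subst h
      rw [Matrix.submatrix_apply, charmatrix_apply_eq]
      exact charmatrix_apply_eq _ _
    · have hne : i.1 ≠ j.1 := fun h' => h (Subtype.ext h')
      rw [Matrix.submatrix_apply, charmatrix_apply_ne]
      · exact charmatrix_apply_ne _ _ _ hne
      · intro h'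
        exact h (Equiv.injective _ h')
  rw [h0, h2, h3]
  have h4 : (∏ q : Fin (cm r 1), if (q : ℕ) < c then
        (X - C (M.1 q q)) * (X - C (M.1 q.rev q.rev)) else 1) =
      (∏ q : Fin (cm r 1), if (q : ℕ) < c then (X - C (M.1 q q)) else 1) *
      ∏ q : Fin (cm r 1), if (q : ℕ) < c then (X - C (M.1 q.rev q.rev)) else 1 := by
    rw [← Finset.prod_mul_distrib]
    refine Finset.prod_congr rfl (fun q _ => ?_)
    by_cases h : (q : ℕ) < c
    · rw [if_pos h, if_pos h, if_pos h]
    · rw [if_neg h, if_neg h, if_neg h, mul_one]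
  rw [h4]
  ring

/-- [CHV-S2] Proof: `det (l - MI) = 0`, so there is an eigenvector `w ≠ 0` of the middle block; extend
it by `0`. The coordinates `p` of `M v` with `c ≤ p`, `p + c < m` are those of `MI w`, and those with
`m ≤ p + c` vanish by `Q6.orth`. -/
theorem eigen (M : GL (Fin (cm r 1)) F) (hM : M ∈ cG r 1 F) (c : ℕ) (hc : c ≤ r)
    (hT : Q6.Tri M.1 c) (l : F) (hl : (MI M.1 c).charpoly.IsRoot l) :
    ∃ v : Fin (cm r 1) → F, (∀ p : Fin (cm r 1), cm r 1 ≤ (p : ℕ) + c → v p = 0) ∧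
      (∃ p : Fin (cm r 1), c ≤ (p : ℕ) ∧ v p ≠ 0) ∧
      ∀ p : Fin (cm r 1), c ≤ (p : ℕ) → (M.1 *ᵥ v) p = l * v p := by
  classical
  have ho := (Q6.orth r 1 (by norm_num) M hM c hc hT).1
  have hdet : (Matrix.scalar _ l - MI M.1 c).det = 0 := by
    rw [← Matrix.eval_charpoly]
    exact hl
  obtain ⟨w, hw, hw0⟩ := Matrix.exists_mulVec_eq_zero_iff.mpr hdet
  have hw1 : ∀ p, (MI M.1 c *ᵥ w) p = l * w p := by
    intro p
    have h1 := congrFun hw0 p
    rw [Matrix.sub_mulVec] at h1
    have h2 : (Matrix.scalar {p : Fin (cm r 1) // c ≤ (p : ℕ) ∧ (p : ℕ) + c < cm r 1} l *ᵥ w) p =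
        l * w p := by
      rw [Matrix.scalar_apply, Matrix.mulVec_diagonal]
    rw [Pi.sub_apply, h2, Pi.zero_apply] at h1
    exact (sub_eq_zero.mp h1).symm
  refine ⟨fun p => if h : c ≤ (p : ℕ) ∧ (p : ℕ) + c < cm r 1 then w ⟨p, h⟩ else 0, ?_, ?_, ?_⟩
  · intro p hp
    have h1 : ¬ (c ≤ (p : ℕ) ∧ (p : ℕ) + c < cm r 1) := by omega
    simp only [dif_neg h1]
  · obtain ⟨p, hp⟩ := Function.ne_iff.mp hw
    refine ⟨p.1, p.2.1, ?_⟩
    have h1 : (c ≤ ((p.1 : Fin (cm r 1)) : ℕ) ∧ ((p.1 : Fin (cm r 1)) : ℕ) + c < cm r 1) := p.2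
    simp only [dif_pos h1]
    exact hp
  · intro p hp
    have hsum : (M.1 *ᵥ (fun p => if h : c ≤ (p : ℕ) ∧ (p : ℕ) + c < cm r 1 then w ⟨p, h⟩ else 0)) p
        = ∑ q : {p : Fin (cm r 1) // c ≤ (p : ℕ) ∧ (p : ℕ) + c < cm r 1}, M.1 p q.1 * w q := by
      rw [Matrix.mulVec, dotProduct]
      have h5 : ∀ q : {p : Fin (cm r 1) // c ≤ (p : ℕ) ∧ (p : ℕ) + c < cm r 1},
          M.1 p q.1 * w q = (fun q : Fin (cm r 1) => M.1 p q *
            (if h : c ≤ (q : ℕ) ∧ (q : ℕ) + c < cm r 1 then w ⟨q, h⟩ else 0)) q.1 := by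
        intro q
        have h6 : (c ≤ ((q.1 : Fin (cm r 1)) : ℕ) ∧ ((q.1 : Fin (cm r 1)) : ℕ) + c < cm r 1) := q.2
        simp only [dif_pos h6]
      rw [Finset.sum_congr rfl (fun q _ => h5 q),
        ← Finset.sum_subtype (p := fun p : Fin (cm r 1) => c ≤ (p : ℕ) ∧ (p : ℕ) + c < cm r 1)
          (Finset.univ.filter (fun p : Fin (cm r 1) => c ≤ (p : ℕ) ∧ (p : ℕ) + c < cm r 1))
          (fun x => by simp) (fun q : Fin (cm r 1) => M.1 p q *
            (if h : c ≤ (q : ℕ) ∧ (q : ℕ) + c < cm r 1 then w ⟨q, h⟩ else 0))]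
      symm
      apply Finset.sum_subset (Finset.filter_subset _ _)
      intro q _ hq
      have h7 : ¬ (c ≤ (q : ℕ) ∧ (q : ℕ) + c < cm r 1) := by
        intro h8
        exact hq (Finset.mem_filter.mpr ⟨Finset.mem_univ q, h8⟩)
      rw [dif_neg h7, mul_zero]
    rw [hsum]
    by_cases hp2 : (p : ℕ) + c < cm r 1
    · have h1 := hw1 ⟨p, hp, hp2⟩
      have h2 : (c ≤ (p : ℕ) ∧ (p : ℕ) + c < cm r 1) := ⟨hp, hp2⟩
      simp only [dif_pos h2]
      exact h1
    · have h2 : ¬ (c ≤ (p : ℕ) ∧ (p : ℕ) + c < cm r 1) := by omega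
      simp only [dif_neg h2, mul_zero]
      apply Finset.sum_eq_zero
      intro q _
      rw [ho p q.1 q.2.2 (by omega), zero_mul]

end Pool.Agent.CHV.S
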