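import Pool.Agent.CHV.S1
import Pool.Agent.CHV.S2

/-! # CHV, row S3: invariant flags of symplectic matrices -/

set_option autoImplicit false

namespace Pool.Agent.CHV.S

open Matrix Polynomial

variable (r : ℕ) {F : Type} [Field F] [CharZero F]

/-- [CHV-S3] Proof: `M = f⁻¹ A f`; `v` from `eigen`, `h` from `vmove`; `f' = f h⁻¹`,
`M' = h M h⁻¹`. As `h e_q = e_q` for `q < c` (so `h⁻¹ e_q = e_q`), and `h` preserves the span of
`e_0, …, e_{c-1}`, the columns `q < c` of `M'` are those of `M` up to the action of `h`, which does not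
change vectors of this span: they are equal. With `w = h v = w' + λ e_c`, `w'` in the span,
`M' w = h M v = l h v + h (span)`, so the column `c` of `M'` is `l e_c` + span. -/
theorem next (A : GL (Fin (cm r 1)) F) (hA : A ∈ cG r 1 F) (c : Fin (cm r 1)) (hc : (c : ℕ) < r)
    (f : GL (Fin (cm r 1)) F) (hf : f ∈ cG r 1 F) (hT : Q6.Tri (f⁻¹ * A * f).1 c) (l : F)
    (hl : (MI (f⁻¹ * A * f).1 c).charpoly.IsRoot l) :
    ∃ f' ∈ cG r 1 F, Q6.Tri (f'⁻¹ * A * f').1 (c + 1) ∧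
      (∀ q : Fin (cm r 1), q < c → (f'⁻¹ * A * f').1 q q = (f⁻¹ * A * f).1 q q) ∧
      (f'⁻¹ * A * f').1 c c = l := by
  set M : GL (Fin (cm r 1)) F := f⁻¹ * A * f with hMdef
  have hM : M ∈ cG r 1 F :=
    (cG r 1 F).mul_mem ((cG r 1 F).mul_mem ((cG r 1 F).inv_mem hf) hA) hf
  obtain ⟨v, hv1, hv2, hv3⟩ := eigen r M hM c hc.le hT l hl
  obtain ⟨h, hh, hh1, hh2, hh3⟩ := vmove r v c hc hv1 hv2
  have hfix : ∀ x : Fin (cm r 1) → F, (∀ p : Fin (cm r 1), c ≤ p → x p = 0) → h.1 *ᵥ x = x := by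
    intro x hx
    have e : h.1 *ᵥ x = (1 : Matrix (Fin (cm r 1)) (Fin (cm r 1)) F) *ᵥ x := by
      funext p
      show ∑ q, h.1 p q * x q = ∑ q, (1 : Matrix (Fin (cm r 1)) (Fin (cm r 1)) F) p q * x q
      refine Finset.sum_congr rfl fun q _ => ?_
      by_cases hq : q < c
      · rw [hh1 p q hq]
      · rw [hx q (not_lt.1 hq), mul_zero, mul_zero]
    rw [e, one_mulVec]
  have hinv2 : ∀ x : Fin (cm r 1) → F, (h⁻¹).1 *ᵥ (h.1 *ᵥ x) = x := by
    intro x
    rw [mulVec_mulVec, ← Units.val_mul, inv_mul_cancel, Units.val_one, one_mulVec]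
  have hinv : ∀ x : Fin (cm r 1) → F, (∀ p : Fin (cm r 1), c ≤ p → x p = 0) →
      (h⁻¹).1 *ᵥ x = x := by
    intro x hx
    have e := hinv2 x
    rwa [hfix x hx] at e
  have hMx : ∀ x : Fin (cm r 1) → F, (∀ p : Fin (cm r 1), c ≤ p → x p = 0) →
      ∀ p : Fin (cm r 1), c ≤ p → (M.1 *ᵥ x) p = 0 := by
    intro x hx p hp
    show ∑ q, M.1 p q * x q = 0
    refine Finset.sum_eq_zero fun q _ => ?_
    by_cases hq : q < c
    · rw [hT p q hq (lt_of_lt_of_le hq hp), zero_mul]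
    · rw [hx q (not_lt.1 hq), mul_zero]
  have hf' : (f * h⁻¹)⁻¹ * A * (f * h⁻¹) = h * M * h⁻¹ := by
    rw [hMdef]
    group
  have hM' : ∀ x : Fin (cm r 1) → F, (h * M * h⁻¹).1 *ᵥ x =
      h.1 *ᵥ (M.1 *ᵥ ((h⁻¹).1 *ᵥ x)) := by
    intro x
    rw [Units.val_mul, Units.val_mul, mulVec_mulVec, mulVec_mulVec, Matrix.mul_assoc]
  have hM'x : ∀ x : Fin (cm r 1) → F, (∀ p : Fin (cm r 1), c ≤ p → x p = 0) →
      (h * M * h⁻¹).1 *ᵥ x = M.1 *ᵥ x := by
    intro x hx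
    rw [hM', hinv x hx, hfix _ (hMx x hx)]
  have hcol : ∀ (N : Matrix (Fin (cm r 1)) (Fin (cm r 1)) F) (p q : Fin (cm r 1)),
      (N *ᵥ Pi.single q 1) p = N p q := by
    intro N p q
    rw [mulVec_single_one]
    rfl
  have hc1 : ∀ p q : Fin (cm r 1), q < c → (h * M * h⁻¹).1 p q = M.1 p q := by
    intro p q hq
    have e1 := hcol (h * M * h⁻¹).1 p q
    rw [← e1, hM'x, hcol]
    intro p' hp'
    rw [Pi.single_apply, if_neg]
    exact (lt_of_lt_of_le hq hp').ne'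
  have hc2 : ∀ p : Fin (cm r 1), c ≤ p →
      (h.1 *ᵥ v) c * (h * M * h⁻¹).1 p c = l * (h.1 *ᵥ v) p := by
    intro p hp
    set w := h.1 *ᵥ v with hw
    set s : Fin (cm r 1) → F := M.1 *ᵥ v - l • v with hs
    have hs0 : ∀ p : Fin (cm r 1), c ≤ p → s p = 0 := by
      intro p' hp'
      rw [hs, Pi.sub_apply, Pi.smul_apply, smul_eq_mul, hv3 p' hp', sub_self]
    have e1 : (h * M * h⁻¹).1 *ᵥ w = l • w + s := by
      rw [hM', hw, hinv2]
      have e2 : M.1 *ᵥ v = l • v + s := by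
        rw [hs]
        abel
      rw [e2, mulVec_add, mulVec_smul, hfix s hs0]
    set w' : Fin (cm r 1) → F := w - w c • (Pi.single c 1 : Fin (cm r 1) → F) with hw'
    have hw0 : ∀ p : Fin (cm r 1), c ≤ p → w' p = 0 := by
      intro p' hp'
      rw [hw', Pi.sub_apply, Pi.smul_apply, smul_eq_mul, Pi.single_apply]
      rcases eq_or_lt_of_le hp' with h' | h'
      · rw [← h', if_pos rfl, mul_one, sub_self]
      · rw [if_neg h'.ne', mul_zero, sub_zero]
        exact hh2 p' h'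
    have e3 : (h * M * h⁻¹).1 *ᵥ w = M.1 *ᵥ w' +
        w c • ((h * M * h⁻¹).1 *ᵥ (Pi.single c 1 : Fin (cm r 1) → F)) := by
      rw [← hM'x w' hw0, ← mulVec_smul, ← mulVec_add, hw', sub_add_cancel]
    rw [e1] at e3
    have e4 := congrFun e3 p
    rw [Pi.add_apply, Pi.add_apply, Pi.smul_apply, Pi.smul_apply, smul_eq_mul, smul_eq_mul,
      hMx w' hw0 p hp, hs0 p hp, hcol, add_zero, zero_add] at e4
    exact e4.symm
  refine ⟨f * h⁻¹, (cG r 1 F).mul_mem hf ((cG r 1 F).inv_mem hh), ?_, ?_, ?_⟩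
  · rw [hf']
    intro p q hq hqp
    rcases Nat.lt_succ_iff_lt_or_eq.1 hq with h' | h'
    · rw [hc1 p q h']
      exact hT p q h' hqp
    · have e : q = c := Fin.ext h'
      rw [e] at hqp ⊢
      have h5 := hc2 p hqp.le
      rw [hh2 p hqp, mul_zero] at h5
      exact (mul_eq_zero.1 h5).resolve_left hh3
  · intro q hq
    rw [hf']
    exact hc1 q q hq
  · rw [hf']
    have h5 := hc2 c le_rfl
    rw [mul_comm l] at h5
    exact mul_left_cancel₀ hh3 h5

end Pool.Agent.CHV.S
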